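import Mathlib

/-!
# Trisections of closed smooth 4-manifolds: definitions

All manifolds are subsets of a finite-dimensional real normed space.
-/

open Set Topology
open scoped ContDiff

noncomputable section

namespace Pool.Agent.Tri

section Smooth

variable {E F : Type*} [NormedAddCommGroup E] [NormedSpace ℝ E]
  [NormedAddCommGroup F] [NormedSpace ℝ F]

/-- `f` is smooth on the set `A`: near each point of `A` it agrees on `A` with a `C^∞` map
defined on an open set of the ambient space. -/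
def SmoothOnSet (f : E → F) (A : Set E) : Prop :=
  ∀ x ∈ A, ∃ U : Set E, IsOpen U ∧ x ∈ U ∧ ∃ g : E → F, ContDiffOn ℝ ∞ g U ∧
    ∀ y ∈ A ∩ U, f y = g y

/-- `f : A → B` and `g : B → A` are mutually inverse smooth maps. -/
def DiffeoPair (f : E → F) (g : F → E) (A : Set E) (B : Set F) : Prop :=
  SmoothOnSet f A ∧ SmoothOnSet g B ∧ MapsTo f A B ∧ MapsTo g B A ∧
    (∀ x ∈ A, g (f x) = x) ∧ ∀ y ∈ B, f (g y) = y

/-- The sets `A` and `B` are diffeomorphic. -/
def Diffeomorphic (A : Set E) (B : Set F) : Prop := ∃ f g, DiffeoPair f g A B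

/-- A smooth local parametrisation of `X` by an open subset of `ℝ^d`, with smooth inverse. -/
structure LocalParam (X : Set E) (d : ℕ) where
  dom : Set (EuclideanSpace ℝ (Fin d))
  map : EuclideanSpace ℝ (Fin d) → E
  nbhd : Set E
  inv : E → EuclideanSpace ℝ (Fin d)
  isOpen_dom : IsOpen dom
  isOpen_nbhd : IsOpen nbhd
  smooth_map : ContDiffOn ℝ ∞ map dom
  smooth_inv : ContDiffOn ℝ ∞ inv nbhd
  image_eq : map '' dom = X ∩ nbhd
  left_inv : ∀ u ∈ dom, inv (map u) = u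

/-- `X` is a closed (compact, without boundary) smooth `d`-manifold which is orientable: it is
covered by local parametrisations all of whose transition maps have positive Jacobian. -/
structure ClosedOrientableManifold (X : Set E) (d : ℕ) : Prop where
  compact : IsCompact X
  nonempty : X.Nonempty
  atlas : ∃ A : Set (LocalParam X d), (∀ x ∈ X, ∃ ψ ∈ A, x ∈ ψ.nbhd) ∧
    ∀ ψ ∈ A, ∀ χ ∈ A, ∀ u ∈ ψ.dom, ∀ v ∈ χ.dom, ψ.map u = χ.map v →
      0 < (fderiv ℝ (fun y => χ.inv (ψ.map y)) u).det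

/-- `f : X → F` is a submersion at `x`: it has a smooth local section through `x`. -/
def SubmersionAt (X : Set E) (f : E → F) (x : E) : Prop :=
  ∃ s : F → E, ContDiffAt ℝ ∞ s 0 ∧ s 0 = x ∧ ∀ᶠ v in 𝓝 (0 : F), s v ∈ X ∧ f (s v) = f x + v

end Smooth

section Handlebodies

/-- The cylinder `D² × [-1,1]`. -/
def cyl : Set (ℂ × ℝ) := Metric.closedBall 0 1 ×ˢ Icc (-1) 1

/-- The two ends `D² × {-1,1}`. -/
def cylEnds : Set (ℂ × ℝ) := Metric.closedBall 0 1 ×ˢ {-1, 1}

/-- The side `S¹ × [-1,1]`. -/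
def cylSide : Set (ℂ × ℝ) := Metric.sphere 0 1 ×ˢ Icc (-1) 1

/-- The interiors of the two ends. -/
def cylEndsInt : Set (ℂ × ℝ) := Metric.ball 0 1 ×ˢ {-1, 1}

/-- `Handlebody3 g H S`: the set `H` is a 3-dimensional handlebody of genus `g` with boundary
surface `S`.  The class is generated by 3-balls (modelled on `D² × [-1,1]`), boundary connected
sums along a disc, and attaching of 1-handles `D² × [-1,1]`. -/
inductive Handlebody3 {α : Type*} [TopologicalSpace α] : ℕ → Set α → Set α → Prop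
  | ball (e : ℂ × ℝ → α) (hc : ContinuousOn e cyl) (hi : InjOn e cyl) :
      Handlebody3 0 (e '' cyl) (e '' (cylEnds ∪ cylSide))
  | sum {g₁ g₂ : ℕ} {A S B S' : Set α} (e : ℂ → α)
      (hc : ContinuousOn e (Metric.closedBall 0 1)) (hi : InjOn e (Metric.closedBall 0 1))
      (hA : Handlebody3 g₁ A S) (hB : Handlebody3 g₂ B S')
      (hAB : A ∩ B = e '' Metric.closedBall 0 1) (hS : e '' Metric.closedBall 0 1 ⊆ S ∩ S') :
      Handlebody3 (g₁ + g₂) (A ∪ B) ((S ∪ S') \ e '' Metric.ball 0 1)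
  | handle {g : ℕ} {A S : Set α} (e : ℂ × ℝ → α) (hc : ContinuousOn e cyl) (hi : InjOn e cyl)
      (hA : Handlebody3 g A S) (hAe : A ∩ e '' cyl = e '' cylEnds) (hS : e '' cylEnds ⊆ S) :
      Handlebody3 (g + 1) (A ∪ e '' cyl) ((S \ e '' cylEndsInt) ∪ e '' cylSide)

/-- The centres of the `k` holes of the standard planar domain. -/
def holeCentre (k j : ℕ) : ℂ := ((-1 + (2 * (j : ℝ) + 1) / (k : ℝ) : ℝ) : ℂ)

/-- The radius of the holes. -/
def holeRadius (k : ℕ) : ℝ := 1 / (2 * (k : ℝ))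

/-- The standard model of the boundary connected sum of `k` copies of `S¹ × B³`: the points
`(x, y)` of `ℂ × ℂ` with `x` in the closed unit disc with `k` round holes, and
`|y|² ≤ (1 - |x|²) ∏_j (|x - a_j|² - r²)`. -/
def handlebody4 (k : ℕ) : Set (ℂ × ℂ) :=
  {q | ‖q.1‖ ≤ 1 ∧ (∀ j < k, holeRadius k ≤ ‖q.1 - holeCentre k j‖) ∧
    ‖q.2‖ ^ 2 ≤ (1 - ‖q.1‖ ^ 2) *
      ∏ j ∈ Finset.range k, (‖q.1 - holeCentre k j‖ ^ 2 - holeRadius k ^ 2)}

end Handlebodies

section Sectors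

/-- The cube roots of unity. -/
def dir (i : Fin 3) : ℂ := Complex.exp (2 * Real.pi * Complex.I * ((i : ℕ) : ℂ) / 3)

/-- The coordinate in which the direction `dir i` becomes the positive real axis. -/
def rot (i : Fin 3) (ζ : ℂ) : ℂ := (starRingEnd ℂ) (dir i) * ζ

/-- The closed sector of angle 120 degrees about the direction `dir i`. -/
def sector (i : Fin 3) : Set ℂ :=
  {ζ | 0 ≤ (rot i ζ).re ∧ (rot i ζ).im ^ 2 ≤ 3 * (rot i ζ).re ^ 2}

/-- The smooth convex domain inside the sector bounded by a branch of a hyperbola with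
asymptotes the two boundary rays. -/
def smoothSector (i : Fin 3) (ε : ℝ) : Set ℂ :=
  {ζ | 0 ≤ (rot i ζ).re ∧ (rot i ζ).im ^ 2 + 3 * ε ^ 2 ≤ 3 * (rot i ζ).re ^ 2}

/-- The open ray opposite to `dir i`, common to the two other sectors. -/
def wall (i : Fin 3) : Set ℂ := {ζ | (rot i ζ).re < 0 ∧ (rot i ζ).im = 0}

end Sectors

section Trisections

variable {E : Type*} [NormedAddCommGroup E] [NormedSpace ℝ E]

/-- `T` is a `(g; k 0, k 1, k 2)`-trisection of `X`. -/
structure IsTrisection (X : Set E) (T : Fin 3 → Set E) (g : ℕ) (k : Fin 3 → ℕ) : Prop where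
  defining : ∃ G : E → ℂ, SmoothOnSet G X ∧ (∀ i, T i = {x ∈ X | G x ∈ sector i}) ∧
    (∀ x ∈ X, G x = 0 → SubmersionAt X G x) ∧
    (∀ i, ∀ x ∈ X, G x ∈ wall i → SubmersionAt X (fun y => (rot i (G y)).im) x) ∧
    ∀ i, ∃ ε₀ > 0, ∀ ε, 0 < ε → ε < ε₀ →
      Diffeomorphic {x ∈ X | G x ∈ smoothSector i ε} (handlebody4 (k i))
  handlebody : ∀ i j, i ≠ j → Handlebody3 g (T i ∩ T j) (⋂ l, T l)

/-- `φ` restricts to a diffeomorphism of `X`. -/
def IsDiffeoOf (X : Set E) (φ : E → E) : Prop := ∃ ψ, DiffeoPair φ ψ X X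

/-- `φ` is an ambient isotopy of `X`: a diffeomorphism smoothly isotopic to the identity. -/
def IsotopicToId (X : Set E) (φ : E → E) : Prop :=
  ∃ H : ℝ × E → E, SmoothOnSet H (Icc (0 : ℝ) 1 ×ˢ X) ∧
    (∀ t ∈ Icc (0 : ℝ) 1, IsDiffeoOf X (fun x => H (t, x))) ∧
    (∀ x ∈ X, H (0, x) = x) ∧ ∀ x ∈ X, H (1, x) = φ x

end Trisections

end Pool.Agent.Tri
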