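import Mathlib
import Pool.Agent.H.MP_5efd29_gt.Defs

open scoped ContDiff Topology
open Set

noncomputable section

namespace Pool.Agent.Tri

/-- The root of a function which increases with the first variable depends continuously on the
parameters. -/
theorem exists_root {P : Type*} [TopologicalSpace P] (ψ : ℝ × P → ℝ) (hψ : Continuous ψ)
    (hm : ∀ p, StrictMonoOn (fun h => ψ (h, p)) (Icc 0 1)) (h1 : ∀ p, 0 < ψ (1, p)) :
    ∃ H : P → ℝ, Continuous H ∧ (∀ p, 0 ≤ H p) ∧ (∀ p, H p < 1) ∧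
      (∀ p, ∀ h ∈ Icc (0 : ℝ) 1, H p ≤ h ↔ 0 ≤ ψ (h, p)) ∧
      (∀ p, 0 < H p → ψ (H p, p) = 0) := by
  classical
  set S : P → Set ℝ := fun p => {h | h ∈ Icc (0 : ℝ) 1 ∧ 0 ≤ ψ (h, p)} with hS
  have hc : ∀ p, Continuous fun h => ψ (h, p) := fun p => hψ.comp (by fun_prop)
  have hne : ∀ p, (S p).Nonempty := fun p => ⟨1, ⟨zero_le_one, le_rfl⟩, (h1 p).le⟩
  have hbd : ∀ p, BddBelow (S p) := fun p => ⟨0, fun h hh => hh.1.1⟩
  have hcl : ∀ p, IsClosed (S p) := fun p =>
    isClosed_Icc.inter (isClosed_le continuous_const (hc p))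
  have hmem : ∀ p, sInf (S p) ∈ S p := fun p => (hcl p).csInf_mem (hne p) (hbd p)
  have hiff : ∀ p, ∀ h ∈ Icc (0 : ℝ) 1, sInf (S p) ≤ h ↔ 0 ≤ ψ (h, p) := by
    intro p h hh
    constructor
    · intro hle
      exact (hmem p).2.trans ((hm p).monotoneOn (hmem p).1 hh hle)
    · intro h0
      exact csInf_le (hbd p) ⟨hh, h0⟩
  have hlt : ∀ p, sInf (S p) < 1 := by
    intro p
    have hev : ∀ᶠ h in 𝓝 (1 : ℝ), 0 < ψ (h, p) :=
      (hc p).continuousAt.eventually (lt_mem_nhds (h1 p))
    obtain ⟨ε, hε, hball⟩ := Metric.eventually_nhds_iff.1 hev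
    have hh : (1 - min (ε / 2) 1) ∈ Icc (0 : ℝ) 1 :=
      ⟨by linarith [min_le_right (ε / 2) 1], by linarith [lt_min (half_pos hε) one_pos]⟩
    have h2 : sInf (S p) ≤ 1 - min (ε / 2) 1 := by
      refine csInf_le (hbd p) ⟨hh, (hball ?_).le⟩
      rw [Real.dist_eq, abs_lt]
      constructor <;> linarith [min_le_left (ε / 2) 1, lt_min (half_pos hε) one_pos]
    linarith [lt_min (half_pos hε) one_pos]
  refine ⟨fun p => sInf (S p), ?_, fun p => (hmem p).1.1, hlt, hiff, ?_⟩
  · rw [continuous_iff_continuousAt]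
    intro p0
    rw [Metric.continuousAt_iff']
    intro ε hε
    set H0 := sInf (S p0) with hH0
    -- upper bound
    set δ := min (ε / 2) ((1 - H0) / 2) with hδ
    have hδ0 : 0 < δ := lt_min (half_pos hε) (by linarith [hlt p0])
    have hu : H0 + δ ∈ Icc (0 : ℝ) 1 :=
      ⟨by linarith [(hmem p0).1.1], by linarith [min_le_right (ε / 2) ((1 - H0) / 2), hlt p0]⟩
    have hpos : 0 < ψ (H0 + δ, p0) :=
      lt_of_le_of_lt (hmem p0).2 (hm p0 (hmem p0).1 hu (by linarith))
    have hcp : ∀ h : ℝ, Continuous fun p => ψ (h, p) := fun h => hψ.comp (by fun_prop)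
    have e1 : ∀ᶠ p in 𝓝 p0, 0 < ψ (H0 + δ, p) :=
      (hcp _).continuousAt.eventually (lt_mem_nhds hpos)
    have e2 : ∀ᶠ p in 𝓝 p0, H0 - ε < sInf (S p) := by
      by_cases h : H0 - ε < 0
      · exact Filter.Eventually.of_forall fun p => lt_of_lt_of_le h (hmem p).1.1
      · push Not at h
        have hl : H0 - ε ∈ Icc (0 : ℝ) 1 := ⟨h, by linarith [hlt p0]⟩
        have hneg : ψ (H0 - ε, p0) < 0 := by
          by_contra hcon
          push Not at hcon
          have := (hiff p0 _ hl).2 hcon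
          linarith
        filter_upwards [(hcp (H0 - ε)).continuousAt.eventually (gt_mem_nhds hneg)] with p hp
        by_contra hcon
        push Not at hcon
        have := (hiff p _ hl).1 hcon
        linarith
    filter_upwards [e1, e2] with p h3 h4
    have h5 : sInf (S p) ≤ H0 + δ := (hiff p _ hu).2 h3.le
    rw [Real.dist_eq, abs_lt]
    constructor
    · linarith
    · linarith [min_le_left (ε / 2) ((1 - H0) / 2)]
  · intro p hp
    apply le_antisymm _ (hmem p).2
    by_contra hcon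
    push Not at hcon
    have hev : ∀ᶠ h in 𝓝 (sInf (S p)), 0 < ψ (h, p) :=
      (hc p).continuousAt.eventually (lt_mem_nhds hcon)
    obtain ⟨ε, hε, hball⟩ := Metric.eventually_nhds_iff.1 hev
    set δ := min (ε / 2) (sInf (S p) / 2) with hδ
    have hδ0 : 0 < δ := lt_min (half_pos hε) (by simpa using half_pos hp)
    have h2 : sInf (S p) ≤ sInf (S p) - δ := by
      refine csInf_le (hbd p) ⟨⟨?_, ?_⟩, (hball ?_).le⟩
      · have := min_le_right (ε / 2) (sInf (S p) / 2)
        simp only at hp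
        linarith
      · linarith [hlt p]
      · rw [Real.dist_eq, abs_lt]
        constructor <;> linarith [min_le_left (ε / 2) (sInf (S p) / 2)]
    linarith

end Pool.Agent.Tri
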