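import Mathlib

open scoped ContDiff Topology

noncomputable section

namespace Pool.Agent.Tri

/-- pointwise application of a family of linear maps to a continuous map -/
def flowa_app (K E F : Type) [TopologicalSpace K] [CompactSpace K]
    [NormedAddCommGroup E] [NormedSpace ℝ E] [NormedAddCommGroup F] [NormedSpace ℝ F] :
    C(K, E →L[ℝ] F) →L[ℝ] (C(K, E) →L[ℝ] C(K, F)) :=
  LinearMap.mkContinuous₂
    (LinearMap.mk₂ ℝ (fun (B : C(K, E →L[ℝ] F)) (h : C(K, E)) =>
        (⟨fun t => B t (h t), B.continuous.clm_apply h.continuous⟩ : C(K, F)))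
      (by
        intro B B' h
        ext t
        simp)
      (by
        intro c B h
        ext t
        simp)
      (by
        intro B h h'
        ext t
        simp)
      (by
        intro c B h
        ext t
        simp)) 1
    (by
      intro B h
      rw [one_mul, LinearMap.mk₂_apply]
      refine (ContinuousMap.norm_le _ (mul_nonneg (norm_nonneg B) (norm_nonneg h))).2 ?_
      intro t
      refine (ContinuousLinearMap.le_opNorm _ _).trans ?_
      exact mul_le_mul (B.norm_coe_le_norm t) (h.norm_coe_le_norm t) (norm_nonneg _)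
        (norm_nonneg _))

theorem flowa_app_apply {K E F : Type} [TopologicalSpace K] [CompactSpace K]
    [NormedAddCommGroup E] [NormedSpace ℝ E] [NormedAddCommGroup F] [NormedSpace ℝ F]
    (B : C(K, E →L[ℝ] F)) (h : C(K, E)) (t : K) : flowa_app K E F B h t = B t (h t) := rfl

theorem flowa_deriv {K : Type} [TopologicalSpace K] [CompactSpace K]
    {E F : Type} [NormedAddCommGroup E] [NormedSpace ℝ E] [FiniteDimensional ℝ E]
    [NormedAddCommGroup F] [NormedSpace ℝ F]
    (f : E → F) (hf : ContDiff ℝ ∞ f) (hf' : Continuous (fderiv ℝ f)) (α : C(K, E)) :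
    HasFDerivAt (fun α : C(K, E) => (⟨fun t => f (α t), hf.continuous.comp α.continuous⟩ : C(K, F)))
      (flowa_app K E F ⟨fun t => fderiv ℝ f (α t), hf'.comp α.continuous⟩) α := by
  haveI : ProperSpace E := FiniteDimensional.proper_real E
  have hdiff : Differentiable ℝ f := hf.differentiable (by simp)
  rw [hasFDerivAt_iff_isLittleO_nhds_zero, Asymptotics.isLittleO_iff]
  intro e he
  have hS : IsCompact (Metric.closedBall (0 : E) (‖α‖ + 1)) := isCompact_closedBall _ _
  have hu := hS.uniformContinuousOn_of_continuous hf'.continuousOn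
  rw [Metric.uniformContinuousOn_iff] at hu
  obtain ⟨d, hd, hu⟩ := hu e he
  have hmin : 0 < min d 1 := lt_min hd one_pos
  filter_upwards [Metric.ball_mem_nhds (0 : C(K, E)) hmin] with h hh
  rw [mem_ball_zero_iff] at hh
  have hhd : ‖h‖ < d := hh.trans_le (min_le_left _ _)
  have hh1 : ‖h‖ < 1 := hh.trans_le (min_le_right _ _)
  rw [ContinuousMap.norm_le _ (mul_nonneg he.le (norm_nonneg _))]
  intro t
  have hht : ‖h t‖ ≤ ‖h‖ := h.norm_coe_le_norm t
  have hat : ‖α t‖ ≤ ‖α‖ := α.norm_coe_le_norm t
  have key : ‖f (α t + h t) - f (α t) - fderiv ℝ f (α t) ((α t + h t) - α t)‖ ≤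
      e * ‖(α t + h t) - α t‖ := by
    refine Convex.norm_image_sub_le_of_norm_hasFDerivWithin_le' (𝕜 := ℝ)
      (s := Metric.closedBall (α t) ‖h t‖) (f' := fderiv ℝ f)
      (fun x _ => (hdiff x).hasFDerivAt.hasFDerivWithinAt) ?_ (convex_closedBall _ _)
      (Metric.mem_closedBall_self (norm_nonneg _)) ?_
    · intro x hx
      rw [Metric.mem_closedBall] at hx
      have h1 : dist x (α t) < d := lt_of_le_of_lt (hx.trans hht) hhd
      have h2 : x ∈ Metric.closedBall (0 : E) (‖α‖ + 1) := by
        rw [mem_closedBall_zero_iff]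
        have h3 : ‖x‖ ≤ ‖x - α t‖ + ‖α t‖ := by
          have := norm_add_le (x - α t) (α t)
          rwa [sub_add_cancel] at this
        rw [dist_eq_norm] at hx
        linarith
      have h4 : α t ∈ Metric.closedBall (0 : E) (‖α‖ + 1) := by
        rw [mem_closedBall_zero_iff]
        linarith
      have h5 := hu x h2 (α t) h4 h1
      rw [dist_eq_norm] at h5
      exact h5.le
    · rw [Metric.mem_closedBall, dist_eq_norm, add_sub_cancel_left]
  rw [add_sub_cancel_left] at key
  exact key.trans (mul_le_mul_of_nonneg_left hht he.le)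

theorem flowa_nat (n : ℕ) : ∀ {K : Type} [TopologicalSpace K] [CompactSpace K]
    {E F : Type} [NormedAddCommGroup E] [NormedSpace ℝ E] [FiniteDimensional ℝ E]
    [NormedAddCommGroup F] [NormedSpace ℝ F]
    (f : E → F) (hf : ContDiff ℝ ∞ f),
    ContDiff ℝ n (fun α : C(K, E) =>
      (⟨fun t => f (α t), hf.continuous.comp α.continuous⟩ : C(K, F))) := by
  induction n with
  | zero =>
    intro K _ _ E F _ _ _ _ _ f hf
    rw [Nat.cast_zero, contDiff_zero]
    exact ContinuousMap.continuous_postcomp (⟨f, hf.continuous⟩ : C(E, F))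
  | succ n ih =>
    intro K _ _ E F _ _ _ _ _ f hf
    have hf1 : ContDiff ℝ ∞ (fderiv ℝ f) := hf.fderiv_right (by simp)
    rw [Nat.cast_add, Nat.cast_one, contDiff_succ_iff_hasFDerivAt]
    refine ⟨fun α => flowa_app K E F ⟨fun t => fderiv ℝ f (α t), hf1.continuous.comp α.continuous⟩,
      ?_, fun α => flowa_deriv f hf hf1.continuous α⟩
    exact (flowa_app K E F).contDiff.comp (ih (fderiv ℝ f) hf1)

/-- Composition with a smooth map is a smooth map between spaces of continuous functions on a
compact space. -/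
theorem contDiff_postcomp {K : Type} [TopologicalSpace K] [CompactSpace K]
    {E F : Type} [NormedAddCommGroup E] [NormedSpace ℝ E] [FiniteDimensional ℝ E]
    [NormedAddCommGroup F] [NormedSpace ℝ F]
    (f : E → F) (hf : ContDiff ℝ ∞ f) :
    ContDiff ℝ ∞ (fun α : C(K, E) => (⟨fun t => f (α t), hf.continuous.comp α.continuous⟩ : C(K, F))) := by
  rw [contDiff_infty]
  intro n
  exact flowa_nat n f hf

end Pool.Agent.Tri
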