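import Mathlib
import Pool.Agent.H.MP_5efd29_gt.FlowA

open scoped ContDiff Topology NNReal

noncomputable section

namespace Pool.Agent.Tri

/-- extension of a continuous path on the unit interval to the line -/
def flowb_ext {E : Type} [TopologicalSpace E] (β : C(Set.Icc (0 : ℝ) 1, E)) : ℝ → E :=
  Set.IccExtend (zero_le_one) β

theorem flowb_ext_cont {E : Type} [TopologicalSpace E] (β : C(Set.Icc (0 : ℝ) 1, E)) :
    Continuous (flowb_ext β) := β.continuous.Icc_extend'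

theorem flowb_ext_of_mem {E : Type} [TopologicalSpace E] (β : C(Set.Icc (0 : ℝ) 1, E)) {r : ℝ}
    (hr : r ∈ Set.Icc (0 : ℝ) 1) : flowb_ext β r = β ⟨r, hr⟩ :=
  Set.IccExtend_of_mem _ _ hr

/-- the integration operator -/
def flowb_J {E : Type} [NormedAddCommGroup E] [NormedSpace ℝ E] [CompleteSpace E] :
    C(Set.Icc (0 : ℝ) 1, E) →L[ℝ] C(Set.Icc (0 : ℝ) 1, E) :=
  LinearMap.mkContinuous
    { toFun := fun β => ⟨fun s => ∫ r in (0 : ℝ)..(s : ℝ), flowb_ext β r,
        (intervalIntegral.continuous_primitive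
          (fun a b => (flowb_ext_cont β).intervalIntegrable a b) 0).comp continuous_subtype_val⟩
      map_add' := by
        intro β γ
        ext s
        simp only [ContinuousMap.coe_mk, ContinuousMap.add_apply]
        rw [← intervalIntegral.integral_add ((flowb_ext_cont β).intervalIntegrable _ _)
          ((flowb_ext_cont γ).intervalIntegrable _ _)]
        rfl
      map_smul' := by
        intro c β
        ext s
        simp only [ContinuousMap.coe_mk, ContinuousMap.smul_apply, RingHom.id_apply]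
        rw [← intervalIntegral.integral_smul]
        rfl } 1 (by
      intro β
      rw [one_mul]
      refine (ContinuousMap.norm_le _ (norm_nonneg _)).2 (fun s => ?_)
      have h := intervalIntegral.norm_integral_le_of_norm_le_const (a := 0) (b := (s : ℝ))
        (f := flowb_ext β) (C := ‖β‖) (fun r _ => β.norm_coe_le_norm _)
      have hs : |(s : ℝ) - 0| ≤ 1 := by
        rw [sub_zero, abs_of_nonneg s.2.1]; exact s.2.2
      exact h.trans (mul_le_of_le_one_right (norm_nonneg _) hs))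

theorem flowb_J_apply {E : Type} [NormedAddCommGroup E] [NormedSpace ℝ E] [CompleteSpace E]
    (β : C(Set.Icc (0 : ℝ) 1, E)) (s : Set.Icc (0 : ℝ) 1) :
    flowb_J β s = ∫ r in (0 : ℝ)..(s : ℝ), flowb_ext β r := rfl

theorem flowb_J_norm {E : Type} [NormedAddCommGroup E] [NormedSpace ℝ E] [CompleteSpace E] :
    ‖(flowb_J : C(Set.Icc (0 : ℝ) 1, E) →L[ℝ] C(Set.Icc (0 : ℝ) 1, E))‖ ≤ 1 :=
  LinearMap.mkContinuous_norm_le _ zero_le_one _

/-- Nemytskii operator -/
def flowb_N {E : Type} [NormedAddCommGroup E] (V : E → E) (hV : Continuous V)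
    (α : C(Set.Icc (0 : ℝ) 1, E)) : C(Set.Icc (0 : ℝ) 1, E) :=
  ⟨fun t => V (α t), hV.comp α.continuous⟩

theorem flowb_N_lip {E : Type} [NormedAddCommGroup E] (V : E → E) (hV : Continuous V)
    (K : ℝ≥0) (hK : LipschitzWith K V) : LipschitzWith K (flowb_N V hV) := by
  refine LipschitzWith.of_dist_le_mul (fun α β => ?_)
  refine (ContinuousMap.dist_le (by positivity)).2 (fun s => ?_)
  refine (hK.dist_le_mul _ _).trans ?_
  exact mul_le_mul_of_nonneg_left (ContinuousMap.dist_apply_le_dist s) K.2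

/-- abstract solution operator -/
theorem flowb_gen {X Y : Type} [NormedAddCommGroup X] [NormedSpace ℝ X] [CompleteSpace X]
    [NormedAddCommGroup Y] [NormedSpace ℝ Y] (N : X → X) (hNs : ContDiff ℝ ∞ N) (K : ℝ≥0)
    (hNlip : LipschitzWith K N) (J : X →L[ℝ] X) (hJ : ‖J‖ ≤ 1) (S : Y →L[ℝ] X) (δ : ℝ)
    (hKδ : ∀ T ∈ Set.Ioo (-δ) δ, |T| * K ≤ 1 / 2) :
    ∃ A : ℝ × Y → X,
      (∀ T ∈ Set.Ioo (-δ) δ, ∀ y, A (T, y) - T • J (N (A (T, y))) = S y) ∧
      (∀ T ∈ Set.Ioo (-δ) δ, ∀ y, ContDiffAt ℝ ∞ A (T, y)) ∧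
      (∀ T ∈ Set.Ioo (-δ) δ, ∀ α β : X, α - T • J (N α) = β - T • J (N β) → α = β) := by
  -- contraction
  have hcontr : ∀ T ∈ Set.Ioo (-δ) δ, ∀ α β : X,
      ‖T • J (N α) - T • J (N β)‖ ≤ 1 / 2 * ‖α - β‖ := by
    intro T hT α β
    rw [← smul_sub, ← map_sub, norm_smul, Real.norm_eq_abs]
    have h1 : ‖J (N α - N β)‖ ≤ K * ‖α - β‖ := by
      refine (J.le_opNorm _).trans ?_
      refine (mul_le_mul hJ ?_ (norm_nonneg _) zero_le_one).trans_eq (one_mul _)
      exact hNlip.norm_sub_le α β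
    calc |T| * ‖J (N α - N β)‖ ≤ |T| * (K * ‖α - β‖) :=
          mul_le_mul_of_nonneg_left h1 (abs_nonneg _)
      _ = (|T| * K) * ‖α - β‖ := by ring
      _ ≤ 1 / 2 * ‖α - β‖ := mul_le_mul_of_nonneg_right (hKδ T hT) (norm_nonneg _)
  -- uniqueness
  have huniq : ∀ T ∈ Set.Ioo (-δ) δ, ∀ α β : X,
      α - T • J (N α) = β - T • J (N β) → α = β := by
    intro T hT α β h
    have h1 : α - β = T • J (N α) - T • J (N β) := sub_eq_sub_iff_sub_eq_sub.1 h
    have h2 := hcontr T hT α β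
    rw [← h1] at h2
    have h3 : ‖α - β‖ ≤ 0 := by linarith
    exact sub_eq_zero.1 (norm_le_zero_iff.1 h3)
  -- existence
  have hex : ∀ T ∈ Set.Ioo (-δ) δ, ∀ y : Y, ∃ α : X, α - T • J (N α) = S y := by
    intro T hT y
    let G : X → X := fun α => S y + T • J (N α)
    have hG : ContractingWith (1 / 2) G := by
      refine ⟨by rw [← NNReal.coe_lt_coe]; norm_num, LipschitzWith.of_dist_le_mul fun α β => ?_⟩
      rw [dist_eq_norm, dist_eq_norm]
      have : G α - G β = T • J (N α) - T • J (N β) := by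
        simp only [G]; abel
      rw [this]
      refine (hcontr T hT α β).trans_eq ?_
      norm_num
    refine ⟨hG.fixedPoint G, ?_⟩
    have h1 : G (hG.fixedPoint G) = hG.fixedPoint G := hG.fixedPoint_isFixedPt
    simp only [G] at h1
    rw [sub_eq_iff_eq_add]
    exact h1.symm
  classical
  set A : ℝ × Y → X := fun p =>
    if h : p.1 ∈ Set.Ioo (-δ) δ then Classical.choose (hex p.1 h p.2) else 0 with hA
  have hAs : ∀ T ∈ Set.Ioo (-δ) δ, ∀ y : Y, A (T, y) - T • J (N (A (T, y))) = S y := by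
    intro T hT y
    have : A (T, y) = Classical.choose (hex T hT y) := by
      simp only [hA]
      rw [dif_pos hT]
    rw [this]
    exact Classical.choose_spec (hex T hT y)
  refine ⟨A, hAs, ?_, huniq⟩
  intro T₀ hT₀ x₀
  set α₀ := A (T₀, x₀) with hα₀
  let Q : ℝ × X → ℝ × X := fun p => (p.1, p.2 - p.1 • J (N p.2))
  have hQs : ContDiff ℝ ∞ Q := by
    refine contDiff_fst.prodMk (contDiff_snd.sub (contDiff_fst.smul ?_))
    exact J.contDiff.comp (hNs.comp contDiff_snd)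
  let M := fderiv ℝ N α₀
  have hM : HasFDerivAt N M α₀ := (hNs.differentiable (by simp)).differentiableAt.hasFDerivAt
  have hMn : ‖M‖ ≤ K := norm_fderiv_le_of_lipschitz ℝ hNlip
  have hlt : ‖T₀ • (J.comp M)‖ < 1 := by
    rw [norm_smul, Real.norm_eq_abs]
    have h1 : ‖(J.comp M)‖ ≤ K := by
      refine (ContinuousLinearMap.opNorm_comp_le _ _).trans ?_
      exact (mul_le_mul hJ hMn (norm_nonneg _) zero_le_one).trans_eq (one_mul _)
    have h2 := hKδ T₀ hT₀
    have h3 : |T₀| * ‖(J.comp M)‖ ≤ |T₀| * K :=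
      mul_le_mul_of_nonneg_left h1 (abs_nonneg _)
    linarith
  let B : X ≃L[ℝ] X :=
    ContinuousLinearEquiv.ofUnit (Units.oneSub (T₀ • (J.comp M)) hlt)
  have hB : ∀ h, B h = h - T₀ • J (M h) := by
    intro h
    rfl
  let c : ℝ →L[ℝ] X := (ContinuousLinearMap.id ℝ ℝ).smulRight (-J (N α₀))
  have hc : ∀ t, c t = t • (-J (N α₀)) := fun t => rfl
  let D : (ℝ × X) ≃L[ℝ] (ℝ × X) := (ContinuousLinearEquiv.refl ℝ ℝ).skewProd B c
  have hD : HasFDerivAt Q (D : (ℝ × X) →L[ℝ] (ℝ × X)) (T₀, α₀) := by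
    have h1 : HasFDerivAt (fun p : ℝ × X => J (N p.2))
        ((J.comp M).comp (ContinuousLinearMap.snd ℝ ℝ X)) (T₀, α₀) := by
      have h2 : HasFDerivAt (fun α => J (N α)) (J.comp M) α₀ :=
        HasFDerivAt.comp α₀ J.hasFDerivAt hM
      exact HasFDerivAt.comp (T₀, α₀) (f := Prod.snd) h2 hasFDerivAt_snd
    have h3 := (hasFDerivAt_fst (𝕜 := ℝ) (p := (T₀, α₀))).smul h1
    have h4 := (hasFDerivAt_fst (𝕜 := ℝ) (p := (T₀, α₀))).prodMk
      ((hasFDerivAt_snd (𝕜 := ℝ) (p := (T₀, α₀))).sub h3)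
    refine h4.congr_fderiv ?_
    refine ContinuousLinearMap.ext (fun p => ?_)
    obtain ⟨t, h⟩ := p
    refine Prod.ext ?_ ?_
    · simp [D]
    · simp [D, hB, hc]
      abel
  let g := (hQs.contDiffAt (x := (T₀, α₀))).localInverse hD (by simp)
  have hgs : ContDiffAt ℝ ∞ g (Q (T₀, α₀)) :=
    (hQs.contDiffAt (x := (T₀, α₀))).to_localInverse hD (by simp)
  have hgr : ∀ᶠ y in 𝓝 (Q (T₀, α₀)), Q (g y) = y :=
    ((hQs.contDiffAt (x := (T₀, α₀))).hasStrictFDerivAt' hD (by simp)).eventually_right_inverse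
  let S' : ℝ × Y → ℝ × X := fun p => (p.1, S p.2)
  have hS : ContDiff ℝ ∞ S' := contDiff_fst.prodMk (S.contDiff.comp contDiff_snd)
  have hS0 : S' (T₀, x₀) = Q (T₀, α₀) := by
    simp only [S', Q]
    rw [hα₀, hAs T₀ hT₀ x₀]
  have hcomp : ContDiffAt ℝ ∞ (fun p => (g (S' p)).2) (T₀, x₀) := by
    rw [← hS0] at hgs
    exact contDiffAt_snd.comp (T₀, x₀) (hgs.comp (T₀, x₀) hS.contDiffAt)
  refine hcomp.congr_of_eventuallyEq ?_
  have hev1 : ∀ᶠ p in 𝓝 (T₀, x₀), Q (g (S' p)) = S' p := by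
    have : Filter.Tendsto S' (𝓝 (T₀, x₀)) (𝓝 (Q (T₀, α₀))) := by
      rw [← hS0]; exact hS.continuous.continuousAt
    exact this.eventually hgr
  have hev2 : ∀ᶠ p : ℝ × Y in 𝓝 (T₀, x₀), p.1 ∈ Set.Ioo (-δ) δ :=
    continuous_fst.continuousAt.eventually (isOpen_Ioo.mem_nhds hT₀)
  filter_upwards [hev1, hev2] with p hp1 hp2
  have h1 : (g (S' p)).1 = p.1 := congrArg Prod.fst hp1
  have h2 : (g (S' p)).2 - (g (S' p)).1 • J (N (g (S' p)).2) = S p.2 :=
    congrArg Prod.snd hp1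
  rw [h1] at h2
  refine huniq p.1 hp2 _ _ ?_
  rw [h2]
  exact hAs p.1 hp2 p.2

/-- Local-in-time flow of a globally Lipschitz smooth vector field, smooth in time and initial
value together. -/
theorem exists_smooth_flow_short {E : Type} [NormedAddCommGroup E] [NormedSpace ℝ E]
    [FiniteDimensional ℝ E] (V : E → E) (hV : ContDiff ℝ ∞ V) (K : ℝ≥0) (hK : LipschitzWith K V) :
    ∃ δ > (0 : ℝ), ∃ φ : ℝ × E → E, ContDiffOn ℝ ∞ φ (Set.Ioo (-δ) δ ×ˢ Set.univ) ∧
      (∀ x, φ (0, x) = x) ∧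
      ∀ x, ∀ t ∈ Set.Ioo (-δ) δ, HasDerivAt (fun s => φ (s, x)) (V (φ (t, x))) t := by
  haveI : CompleteSpace E := FiniteDimensional.complete ℝ E
  set δ : ℝ := 1 / (2 * ((K : ℝ) + 1)) with hδ
  have hK1 : (0 : ℝ) < (K : ℝ) + 1 := by positivity
  have hδ0 : 0 < δ := by positivity
  have hKδ : ∀ T ∈ Set.Ioo (-δ) δ, |T| * K ≤ 1 / 2 := by
    intro T hT
    have h1 : |T| ≤ δ := (abs_lt.2 hT).le
    have h2 : |T| * K ≤ δ * ((K : ℝ) + 1) :=
      mul_le_mul h1 (by linarith) K.2 hδ0.le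
    have h3 : δ * ((K : ℝ) + 1) = 1 / 2 := by rw [hδ]; field_simp
    linarith
  set N := flowb_N V hV.continuous with hN
  have hNlip : LipschitzWith K N := flowb_N_lip V hV.continuous K hK
  have hNs : ContDiff ℝ ∞ N := contDiff_postcomp V hV
  obtain ⟨A, hAs, hsm, huniq⟩ := flowb_gen N hNs K hNlip flowb_J flowb_J_norm
    (ContinuousLinearMap.const ℝ (Set.Icc (0 : ℝ) 1) (M := E)) δ hKδ
  -- the flow
  have h1mem : (1 : ℝ) ∈ Set.Icc (0 : ℝ) 1 := ⟨zero_le_one, le_refl _⟩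
  set φ : ℝ × E → E := fun p => A p ⟨1, h1mem⟩ with hφ
  have hAeq : ∀ T ∈ Set.Ioo (-δ) δ, ∀ (x : E) (s : ℝ) (hs : s ∈ Set.Icc (0 : ℝ) 1),
      A (T, x) ⟨s, hs⟩ = x + T • ∫ r in (0 : ℝ)..s, V (flowb_ext (A (T, x)) r) := by
    intro T hT x s hs
    have h1 := hAs T hT x
    have h2 := congrArg (fun β : C(Set.Icc (0 : ℝ) 1, E) => β ⟨s, hs⟩) h1
    simp only [ContinuousMap.sub_apply, ContinuousMap.smul_apply, ContinuousMap.const_apply,
      flowb_J_apply] at h2
    rw [sub_eq_iff_eq_add] at h2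
    exact h2
  have hscale : ∀ T ∈ Set.Ioo (-δ) δ, ∀ (x : E) (s : ℝ) (hs : s ∈ Set.Icc (0 : ℝ) 1),
      A (T, x) ⟨s, hs⟩ = φ (T * s, x) := by
    intro T hT x s hs
    have hTs : T * s ∈ Set.Ioo (-δ) δ := by
      have h1 : |T * s| ≤ |T| := by
        rw [abs_mul, abs_of_nonneg hs.1]
        exact mul_le_of_le_one_right (abs_nonneg _) hs.2
      exact abs_lt.1 (h1.trans_lt (abs_lt.2 hT))
    have hmem : ∀ r : Set.Icc (0 : ℝ) 1, s * (r : ℝ) ∈ Set.Icc (0 : ℝ) 1 := fun r =>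
      ⟨mul_nonneg hs.1 r.2.1, mul_le_one₀ hs.2 r.2.1 r.2.2⟩
    let β : C(Set.Icc (0 : ℝ) 1, E) :=
      ⟨fun r => flowb_ext (A (T, x)) (s * (r : ℝ)),
        (flowb_ext_cont _).comp (continuous_const.mul continuous_subtype_val)⟩
    have hβ : β = A (T * s, x) := by
      refine huniq (T * s) hTs _ _ ?_
      rw [hAs (T * s) hTs x]
      ext r
      simp only [ContinuousMap.sub_apply, ContinuousMap.smul_apply, ContinuousMap.const_apply,
        flowb_J_apply]
      have h1 : β r = x + T • ∫ q in (0 : ℝ)..(s * (r : ℝ)), V (flowb_ext (A (T, x)) q) := by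
        have h2 : β r = A (T, x) ⟨s * (r : ℝ), hmem r⟩ := flowb_ext_of_mem _ (hmem r)
        rw [h2, hAeq T hT x _ (hmem r)]
      have h3 : ∫ q in (0 : ℝ)..(r : ℝ), flowb_ext (N β) q =
          ∫ q in (0 : ℝ)..(r : ℝ), V (flowb_ext (A (T, x)) (s * q)) := by
        refine intervalIntegral.integral_congr (fun q hq => ?_)
        rw [Set.uIcc_of_le r.2.1] at hq
        have hq' : q ∈ Set.Icc (0 : ℝ) 1 := ⟨hq.1, hq.2.trans r.2.2⟩
        show flowb_ext (N β) q = _
        rw [flowb_ext_of_mem _ hq']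
        rfl
      have h4 : s • ∫ q in (0 : ℝ)..(r : ℝ), V (flowb_ext (A (T, x)) (s * q)) =
          ∫ q in (s * 0)..(s * (r : ℝ)), V (flowb_ext (A (T, x)) q) :=
        intervalIntegral.smul_integral_comp_mul_left
          (f := fun q => V (flowb_ext (A (T, x)) q)) s
      rw [mul_zero] at h4
      rw [h1, h3, mul_smul, h4]
      abel
    have h5 : A (T, x) ⟨s, hs⟩ = β ⟨1, h1mem⟩ := by
      show _ = flowb_ext (A (T, x)) (s * 1)
      rw [mul_one, flowb_ext_of_mem _ hs]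
    rw [h5, hβ]
  have hφs : ∀ T ∈ Set.Ioo (-δ) δ, ∀ x : E, ContDiffAt ℝ ∞ φ (T, x) := by
    intro T hT x
    exact ((ContinuousMap.evalCLM ℝ (⟨1, h1mem⟩ : Set.Icc (0 : ℝ) 1)).contDiff.contDiffAt).comp
      (T, x) (hsm T hT x)
  have hint : ∀ T ∈ Set.Ioo (-δ) δ, ∀ x : E,
      φ (T, x) = x + ∫ r in (0 : ℝ)..T, V (φ (r, x)) := by
    intro T hT x
    have h1 : φ (T, x) = A (T, x) ⟨1, h1mem⟩ := rfl
    rw [h1, hAeq T hT x 1 h1mem]
    have h2 : ∫ r in (0 : ℝ)..1, V (flowb_ext (A (T, x)) r) =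
        ∫ r in (0 : ℝ)..1, V (φ (T * r, x)) := by
      refine intervalIntegral.integral_congr (fun q hq => ?_)
      rw [Set.uIcc_of_le zero_le_one] at hq
      show V (flowb_ext (A (T, x)) q) = V (φ (T * q, x))
      rw [flowb_ext_of_mem _ hq, hscale T hT x q hq]
    have h4 : T • ∫ q in (0 : ℝ)..1, V (φ (T * q, x)) =
          ∫ q in (T * 0)..(T * 1), V (φ (q, x)) :=
        intervalIntegral.smul_integral_comp_mul_left (f := fun q => V (φ (q, x))) T
    rw [mul_zero, mul_one] at h4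
    rw [h2, h4]
  have h0mem : (0 : ℝ) ∈ Set.Ioo (-δ) δ := ⟨by linarith, hδ0⟩
  refine ⟨δ, hδ0, φ, ?_, ?_, ?_⟩
  · rintro ⟨T, x⟩ hTx
    exact (hφs T hTx.1 x).contDiffWithinAt
  · intro x
    have := hint 0 h0mem x
    rwa [intervalIntegral.integral_same, add_zero] at this
  · intro x t ht
    have hco : ContinuousOn (fun r : ℝ => V (φ (r, x))) (Set.Ioo (-δ) δ) := by
      intro r hr
      have h1 : ContinuousAt (fun r : ℝ => φ (r, x)) r :=
        ContinuousAt.comp (f := fun r : ℝ => (r, x)) (hφs r hr x).continuousAt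
          (by fun_prop)
      exact (hV.continuous.continuousAt.comp h1).continuousWithinAt
    have hsub : Set.uIcc 0 t ⊆ Set.Ioo (-δ) δ := by
      intro r hr
      rcases Set.mem_uIcc.1 hr with h | h
      · exact ⟨by linarith [h.1], lt_of_le_of_lt h.2 ht.2⟩
      · exact ⟨lt_of_lt_of_le ht.1 h.1, by linarith [h.2]⟩
    have hd : HasDerivAt (fun s => ∫ r in (0 : ℝ)..s, V (φ (r, x))) (V (φ (t, x))) t :=
      intervalIntegral.integral_hasDerivAt_right (hco.mono hsub).intervalIntegrable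
        (hco.stronglyMeasurableAtFilter isOpen_Ioo t ht)
        (hco.continuousAt (isOpen_Ioo.mem_nhds ht))
    have hd2 : HasDerivAt (fun s => x + ∫ r in (0 : ℝ)..s, V (φ (r, x))) (V (φ (t, x))) t := by
      simpa using hd.const_add x
    refine hd2.congr_of_eventuallyEq ?_
    filter_upwards [isOpen_Ioo.mem_nhds ht] with s hs
    exact hint s hs x

end Pool.Agent.Tri
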