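import Mathlib
import Pool.Agent.H.MP_5efd29_gt.FlowB

open scoped ContDiff Topology NNReal

noncomputable section

namespace Pool.Agent.Tri

/-- Two global solutions of the same Lipschitz equation with the same value at one time agree. -/
theorem flow_unique {E : Type} [NormedAddCommGroup E] [NormedSpace ℝ E]
    (V : E → E) (K : ℝ≥0) (hK : LipschitzWith K V) (a b : ℝ → E) (t₀ : ℝ)
    (ha : ∀ t, HasDerivAt a (V (a t)) t) (hb : ∀ t, HasDerivAt b (V (b t)) t)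
    (h0 : a t₀ = b t₀) : a = b :=
  ODE_solution_unique_univ (v := fun _ => V) (s := fun _ => Set.univ) (K := K) (t₀ := t₀)
    (fun _ => hK.lipschitzOnWith) (fun t => ⟨ha t, trivial⟩) (fun t => ⟨hb t, trivial⟩) h0

/-- flow on a symmetric time interval -/
def flowc_is {E : Type} [NormedAddCommGroup E] [NormedSpace ℝ E] (V : E → E) (T : ℝ)
    (φ : ℝ × E → E) : Prop :=
  ContDiffOn ℝ ∞ φ (Set.Ioo (-T) T ×ˢ Set.univ) ∧ (∀ x, φ (0, x) = x) ∧
    ∀ x, ∀ t ∈ Set.Ioo (-T) T, HasDerivAt (fun s => φ (s, x)) (V (φ (t, x))) t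

theorem flowc_mono {E : Type} [NormedAddCommGroup E] [NormedSpace ℝ E] {V : E → E} {T T' : ℝ}
    {φ : ℝ × E → E} (h : flowc_is V T φ) (hT : T' ≤ T) : flowc_is V T' φ := by
  have hsub : Set.Ioo (-T') T' ⊆ Set.Ioo (-T) T := Set.Ioo_subset_Ioo (by linarith) hT
  exact ⟨h.1.mono (Set.prod_mono hsub (le_refl _)), h.2.1, fun x t ht => h.2.2 x t (hsub ht)⟩

theorem flowc_agree {E : Type} [NormedAddCommGroup E] [NormedSpace ℝ E] {V : E → E} {K : ℝ≥0}
    (hK : LipschitzWith K V) {T : ℝ} {φ ψ : ℝ × E → E} (h : flowc_is V T φ)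
    (h' : flowc_is V T ψ) {t : ℝ} (ht : t ∈ Set.Ioo (-T) T) (x : E) : φ (t, x) = ψ (t, x) := by
  have hT : 0 < T := by
    rcases ht with ⟨h1, h2⟩; linarith
  exact ODE_solution_unique_of_mem_Ioo (v := fun _ => V) (s := fun _ => Set.univ) (K := K)
    (t₀ := 0) (a := -T) (b := T) (f := fun s => φ (s, x)) (g := fun s => ψ (s, x))
    (fun _ _ => hK.lipschitzOnWith) ⟨by linarith, hT⟩
    (fun s hs => ⟨h.2.2 x s hs, trivial⟩) (fun s hs => ⟨h'.2.2 x s hs, trivial⟩)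
    (by simp [h.2.1, h'.2.1]) ht

theorem flowc_semi {E : Type} [NormedAddCommGroup E] [NormedSpace ℝ E] {V : E → E} {K : ℝ≥0}
    (hK : LipschitzWith K V) {T : ℝ} {φ : ℝ × E → E} (h : flowc_is V T φ) {s r : ℝ}
    (hs : s ∈ Set.Ioo (-T) T) (hr : r ∈ Set.Ioo (-T) T) (hsr : s + r ∈ Set.Ioo (-T) T) (x : E) :
    φ (s + r, x) = φ (s, φ (r, x)) := by
  have hT : 0 < T := by
    rcases hs with ⟨h1, h2⟩; linarith
  refine ODE_solution_unique_of_mem_Ioo (v := fun _ => V) (s := fun _ => Set.univ) (K := K)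
    (t₀ := 0) (a := max (-T) (-T - r)) (b := min T (T - r)) (f := fun s => φ (s + r, x))
    (g := fun s => φ (s, φ (r, x)))
    (fun _ _ => hK.lipschitzOnWith) ⟨?_, ?_⟩ ?_ ?_ ?_ ⟨?_, ?_⟩
  · exact max_lt (by linarith) (by linarith [hr.1])
  · exact lt_min hT (by linarith [hr.2])
  · intro u hu
    have h1 := max_lt_iff.1 hu.1
    have h2 := lt_min_iff.1 hu.2
    refine ⟨?_, trivial⟩
    have h3 := h.2.2 x (u + r) ⟨by linarith, by linarith⟩
    exact HasDerivAt.comp_add_const u r h3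
  · intro u hu
    have h1 := max_lt_iff.1 hu.1
    have h2 := lt_min_iff.1 hu.2
    exact ⟨h.2.2 _ u ⟨h1.1, h2.1⟩, trivial⟩
  · simp [h.2.1]
  · exact max_lt hs.1 (by linarith [hsr.1])
  · exact lt_min hs.2 (by linarith [hsr.2])

theorem flowc_double {E : Type} [NormedAddCommGroup E] [NormedSpace ℝ E] {V : E → E} {K : ℝ≥0}
    (hK : LipschitzWith K V) {T : ℝ} {φ : ℝ × E → E} (h : flowc_is V T φ) :
    flowc_is V (2 * T) (fun p => φ (p.1 / 2, φ (p.1 / 2, p.2))) := by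
  refine ⟨?_, ?_, ?_⟩
  · have h1 : ContDiffOn ℝ ∞ (fun p : ℝ × E => (p.1 / 2, φ (p.1 / 2, p.2)))
        (Set.Ioo (-(2 * T)) (2 * T) ×ˢ Set.univ) := by
      refine (contDiff_fst.div_const 2).contDiffOn.prodMk ?_
      refine h.1.comp (((contDiff_fst.div_const 2).prodMk contDiff_snd).contDiffOn) ?_
      rintro ⟨t, x⟩ ⟨ht, -⟩
      refine ⟨⟨?_, ?_⟩, trivial⟩
      · have := ht.1; simp only at this ⊢; linarith
      · have := ht.2; simp only at this ⊢; linarith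
    refine h.1.comp h1 ?_
    rintro ⟨t, x⟩ ⟨ht, -⟩
    refine ⟨⟨?_, ?_⟩, trivial⟩
    · have := ht.1; simp only at this ⊢; linarith
    · have := ht.2; simp only at this ⊢; linarith
  · intro x
    simp [h.2.1]
  · intro x t₀ ht₀
    have hm : t₀ / 2 ∈ Set.Ioo (-T) T := ⟨by linarith [ht₀.1], by linarith [ht₀.2]⟩
    set y := φ (t₀ / 2, x) with hy
    have h0 : (0 : ℝ) ∈ Set.Ioo (-T) T := ⟨by linarith [hm.1, hm.2], by linarith [hm.1, hm.2]⟩
    have h1 : HasDerivAt (fun s => φ (s - t₀ / 2, y)) (V (φ (t₀ / 2, y))) t₀ := by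
      have h2 := h.2.2 y (t₀ - t₀ / 2) (by
        have : t₀ - t₀ / 2 = t₀ / 2 := by ring
        rw [this]; exact hm)
      have h3 := HasDerivAt.comp_sub_const t₀ (t₀ / 2) h2
      have h4 : t₀ - t₀ / 2 = t₀ / 2 := by ring
      rw [h4] at h3
      exact h3
    have hmem : ∀ᶠ s in 𝓝 t₀, s / 2 ∈ Set.Ioo (-T) T ∧ (s - t₀) / 2 ∈ Set.Ioo (-T) T ∧
        s - t₀ / 2 ∈ Set.Ioo (-T) T := by
      have c1 : Filter.Tendsto (fun s : ℝ => s / 2) (𝓝 t₀) (𝓝 (t₀ / 2)) :=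
        (continuous_id.div_const 2).continuousAt
      have c2 : Filter.Tendsto (fun s : ℝ => (s - t₀) / 2) (𝓝 t₀) (𝓝 0) := by
        have : Filter.Tendsto (fun s : ℝ => (s - t₀) / 2) (𝓝 t₀) (𝓝 ((t₀ - t₀) / 2)) :=
          ((continuous_id.sub continuous_const).div_const 2).continuousAt
        simpa using this
      have c3 : Filter.Tendsto (fun s : ℝ => s - t₀ / 2) (𝓝 t₀) (𝓝 (t₀ / 2)) := by
        have : Filter.Tendsto (fun s : ℝ => s - t₀ / 2) (𝓝 t₀) (𝓝 (t₀ - t₀ / 2)) :=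
          (continuous_id.sub continuous_const).continuousAt
        have h4 : t₀ - t₀ / 2 = t₀ / 2 := by ring
        rwa [h4] at this
      exact (c1.eventually (isOpen_Ioo.mem_nhds hm)).and
        ((c2.eventually (isOpen_Ioo.mem_nhds h0)).and (c3.eventually (isOpen_Ioo.mem_nhds hm)))
    refine h1.congr_of_eventuallyEq ?_
    filter_upwards [hmem] with s hs
    have e1 : φ (s / 2, x) = φ ((s - t₀) / 2, y) := by
      have e : s / 2 = (s - t₀) / 2 + t₀ / 2 := by ring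
      have := flowc_semi hK h (s := (s - t₀) / 2) (r := t₀ / 2) hs.2.1 hm (by rw [← e]; exact hs.1) x
      rw [← e] at this
      exact this
    have e2 : φ (s / 2, φ ((s - t₀) / 2, y)) = φ (s - t₀ / 2, y) := by
      have e : s - t₀ / 2 = s / 2 + (s - t₀) / 2 := by ring
      have := flowc_semi hK h (s := s / 2) (r := (s - t₀) / 2) hs.1 hs.2.1
        (by rw [← e]; exact hs.2.2) y
      rw [← e] at this
      exact this.symm
    show φ (s / 2, φ (s / 2, x)) = φ (s - t₀ / 2, y)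
    rw [e1, e2]

/-- Global flow of a globally Lipschitz smooth vector field. -/
theorem exists_smooth_flow {E : Type} [NormedAddCommGroup E] [NormedSpace ℝ E]
    [FiniteDimensional ℝ E] (V : E → E) (hV : ContDiff ℝ ∞ V) (K : ℝ≥0) (hK : LipschitzWith K V) :
    ∃ φ : ℝ × E → E, ContDiff ℝ ∞ φ ∧ (∀ x, φ (0, x) = x) ∧
      (∀ x t, HasDerivAt (fun s => φ (s, x)) (V (φ (t, x))) t) ∧
      ∀ s t x, φ (s + t, x) = φ (s, φ (t, x)) := by
  obtain ⟨δ, hδ, φ₀, hφ₀⟩ := exists_smooth_flow_short V hV K hK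
  have h0 : flowc_is V δ φ₀ := hφ₀
  have hpow : ∀ n : ℕ, ∃ ψ : ℝ × E → E, flowc_is V (2 ^ n * δ) ψ := by
    intro n
    induction n with
    | zero => exact ⟨φ₀, by simpa using h0⟩
    | succ n ih =>
      obtain ⟨ψ, hψ⟩ := ih
      refine ⟨_, flowc_mono (flowc_double hK hψ) (le_of_eq ?_)⟩
      rw [pow_succ]; ring
  have hall : ∀ n : ℕ, ∃ ψ : ℝ × E → E, flowc_is V ((n : ℝ) + 1) ψ := by
    intro n
    obtain ⟨m, hm⟩ := pow_unbounded_of_one_lt (((n : ℝ) + 1) / δ) (one_lt_two)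
    obtain ⟨ψ, hψ⟩ := hpow m
    refine ⟨ψ, flowc_mono hψ ?_⟩
    rw [div_lt_iff₀ hδ] at hm
    exact hm.le
  choose ψ hψ using hall
  have hagree : ∀ (n m : ℕ) (t : ℝ) (x : E), |t| < (n : ℝ) + 1 → |t| < (m : ℝ) + 1 →
      ψ n (t, x) = ψ m (t, x) := by
    intro n m t x hn hm
    have hmin := lt_min hn hm
    exact flowc_agree hK (flowc_mono (hψ n) (min_le_left _ _)) (flowc_mono (hψ m) (min_le_right _ _))
      (abs_lt.1 hmin) x
  set φ : ℝ × E → E := fun p => ψ ⌈|p.1|⌉₊ p with hφ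
  have hlt : ∀ t : ℝ, |t| < ((⌈|t|⌉₊ : ℕ) : ℝ) + 1 := fun t =>
    lt_of_le_of_lt (Nat.le_ceil _) (lt_add_one _)
  have hφn : ∀ (n : ℕ) (t : ℝ) (x : E), |t| < (n : ℝ) + 1 → φ (t, x) = ψ n (t, x) := by
    intro n t x hn
    exact hagree _ n t x (hlt t) hn
  have hφ0 : ∀ x, φ (0, x) = x := by
    intro x
    rw [hφn 0 0 x (by simp)]
    exact (hψ 0).2.1 x
  have hφd : ∀ x t, HasDerivAt (fun s => φ (s, x)) (V (φ (t, x))) t := by
    intro x t
    have h1 := (hψ ⌈|t|⌉₊).2.2 x t (abs_lt.1 (hlt t))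
    have h2 : φ (t, x) = ψ ⌈|t|⌉₊ (t, x) := rfl
    rw [h2]
    refine h1.congr_of_eventuallyEq ?_
    have h3 : ∀ᶠ s in 𝓝 t, |s| < ((⌈|t|⌉₊ : ℕ) : ℝ) + 1 :=
      continuous_abs.continuousAt.eventually_lt continuousAt_const (hlt t)
    filter_upwards [h3] with s hs
    exact hφn _ s x hs
  refine ⟨φ, ?_, hφ0, hφd, ?_⟩
  · rw [contDiff_iff_contDiffAt]
    rintro ⟨t, x⟩
    have h1 : ContDiffAt ℝ ∞ (ψ ⌈|t|⌉₊) (t, x) := by
      refine (hψ ⌈|t|⌉₊).1.contDiffAt ?_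
      exact (isOpen_Ioo.prod isOpen_univ).mem_nhds ⟨abs_lt.1 (hlt t), trivial⟩
    refine h1.congr_of_eventuallyEq ?_
    have h3 : ∀ᶠ p : ℝ × E in 𝓝 (t, x), |p.1| < ((⌈|t|⌉₊ : ℕ) : ℝ) + 1 :=
      (continuous_abs.comp continuous_fst).continuousAt.eventually_lt continuousAt_const (hlt t)
    filter_upwards [h3] with p hp
    exact hφn _ p.1 p.2 hp
  · intro s t x
    have h1 : (fun s => φ (s + t, x)) = fun s => φ (s, φ (t, x)) := by
      refine flow_unique V K hK _ _ 0 ?_ ?_ ?_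
      · intro u
        exact HasDerivAt.comp_add_const u t (hφd x (u + t))
      · intro u
        exact hφd _ u
      · simp [hφ0]
    exact congrFun h1 s

end Pool.Agent.Tri
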