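import Mathlib
import Pool.Agent.H.MP_5efd29_gt.FlowC

open scoped ContDiff Topology NNReal

noncomputable section

namespace Pool.Agent.Tri

/-- Flow of a compactly supported smooth time-dependent vector field `v : ℝ × E → E`.
`Θ (t, x)` is the solution starting at `x` at time `0`, and `Ξ (t, ·)` is the inverse map. -/
theorem exists_time_flow {E : Type} [NormedAddCommGroup E] [NormedSpace ℝ E]
    [FiniteDimensional ℝ E] (v : ℝ × E → E) (hv : ContDiff ℝ ∞ v) (hs : HasCompactSupport v) :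
    ∃ Θ Ξ : ℝ × E → E, ContDiff ℝ ∞ Θ ∧ ContDiff ℝ ∞ Ξ ∧ (∀ x, Θ (0, x) = x) ∧
      (∀ t x, Ξ (t, Θ (t, x)) = x) ∧ (∀ t x, Θ (t, Ξ (t, x)) = x) ∧
      (∀ x t, HasDerivAt (fun s => Θ (s, x)) (v (t, Θ (t, x))) t) ∧
      ∀ a : ℝ → E, (∀ t, HasDerivAt a (v (t, a t)) t) → ∀ t, a t = Θ (t, a 0) := by
  let W : ℝ × E → ℝ × E := fun p => (1, v p)
  have hW : ContDiff ℝ ∞ W := contDiff_const.prodMk hv
  obtain ⟨K, hKv⟩ : ∃ K, LipschitzWith K v :=
    (hv.of_le (by exact_mod_cast le_top) : ContDiff ℝ 1 v).lipschitzWith_of_hasCompactSupport hs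
      (by simp)
  have hWK : LipschitzWith K W := by
    refine LipschitzWith.of_dist_le_mul (fun p q => ?_)
    rw [Prod.dist_eq]
    simp only [W, dist_self]
    exact max_le (by positivity) (hKv.dist_le_mul p q)
  obtain ⟨φ, hφs, hφ0, hφd, hφg⟩ := exists_smooth_flow W hW K hWK
  have hfst : ∀ (s : ℝ) (x : E) (t : ℝ), (φ (t, (s, x))).1 = s + t := by
    intro s x t
    have h1 : ∀ t, HasDerivAt (fun t => (φ (t, (s, x))).1 - (s + t)) 0 t := by
      intro t
      have h2 : HasDerivAt (fun t => (φ (t, (s, x))).1) 1 t := (hφd (s, x) t).fst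
      have h3 : HasDerivAt (fun t : ℝ => s + t) 1 t := (hasDerivAt_id t).const_add s
      have h5 := h2.sub h3
      rw [sub_self] at h5
      exact h5
    have h4 := is_const_of_deriv_eq_zero (fun t => (h1 t).differentiableAt)
      (fun t => (h1 t).deriv) t 0
    simp only [hφ0, add_zero, sub_self] at h4
    linarith
  have hpair : ∀ (s : ℝ) (x : E) (t : ℝ), φ (t, (s, x)) = (s + t, (φ (t, (s, x))).2) := fun s x t =>
    Prod.ext (hfst s x t) rfl
  refine ⟨fun p => (φ (p.1, (0, p.2))).2, fun p => (φ (-p.1, (p.1, p.2))).2, ?_, ?_, ?_, ?_, ?_,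
    ?_, ?_⟩
  · exact contDiff_snd.comp (hφs.comp (contDiff_fst.prodMk (contDiff_const.prodMk contDiff_snd)))
  · exact contDiff_snd.comp (hφs.comp (contDiff_fst.neg.prodMk (contDiff_fst.prodMk contDiff_snd)))
  · intro x
    simp [hφ0]
  · intro t x
    simp only
    have h1 := hφg (-t) t (0, x)
    rw [neg_add_cancel, hφ0, hpair 0 x t, zero_add] at h1
    rw [← h1]
  · intro t x
    simp only
    have h1 := hφg t (-t) (t, x)
    rw [add_neg_cancel, hφ0, hpair t x (-t), add_neg_cancel] at h1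
    rw [← h1]
  · intro x t
    simp only
    have h1 := (hφd (0, x) t).snd
    have h2 := hpair 0 x t
    rw [zero_add] at h2
    rw [← h2]
    exact h1
  · intro a ha t
    simp only
    have h1 : (fun t => (t, a t)) = fun t => φ (t, (0, a 0)) := by
      refine flow_unique W K hWK _ _ 0 ?_ ?_ ?_
      · intro u
        exact (hasDerivAt_id u).prodMk (ha u)
      · intro u
        exact hφd _ u
      · simp [hφ0]
    have h2 := congrArg Prod.snd (congrFun h1 t)
    exact h2

end Pool.Agent.Tri
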