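import Mathlib

open scoped ContDiff Topology
open Set

noncomputable section

namespace Pool.Agent.Tri

section IsoaAux

variable {E P Q : Type}
    [NormedAddCommGroup E] [InnerProductSpace ℝ E] [FiniteDimensional ℝ E]
    [NormedAddCommGroup P] [InnerProductSpace ℝ P] [FiniteDimensional ℝ P]
    [NormedAddCommGroup Q] [InnerProductSpace ℝ Q] [FiniteDimensional ℝ Q]

/-- The adjoint is smooth. -/
lemma isoa_adj_contDiff :
    ContDiff ℝ ∞ (fun A : E →L[ℝ] P => ContinuousLinearMap.adjoint A) := by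
  have h : IsBoundedLinearMap ℝ (fun A : E →L[ℝ] P => ContinuousLinearMap.adjoint A) := by
    refine IsLinearMap.with_bound ⟨fun A B => map_add _ A B, fun c A => ?_⟩ 1 (fun A => ?_)
    · simp
    · simp
  exact h.contDiff

/-- The pair of linear maps as a map to the product. -/
def isoaJ (A : E →L[ℝ] P) (B : E →L[ℝ] Q) : E →L[ℝ] P × Q :=
  (ContinuousLinearMap.inl ℝ P Q).comp A + (ContinuousLinearMap.inr ℝ P Q).comp B

/-- The adjoint of the pair. -/
def isoaJs (A : E →L[ℝ] P) (B : E →L[ℝ] Q) : P × Q →L[ℝ] E :=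
  (ContinuousLinearMap.adjoint A).comp (ContinuousLinearMap.fst ℝ P Q) +
    (ContinuousLinearMap.adjoint B).comp (ContinuousLinearMap.snd ℝ P Q)

/-- The Gram operator. -/
def isoaG (A : E →L[ℝ] P) (B : E →L[ℝ] Q) : P × Q →L[ℝ] P × Q :=
  (isoaJ A B).comp (isoaJs A B)

lemma isoaJ_apply (A : E →L[ℝ] P) (B : E →L[ℝ] Q) (v : E) : isoaJ A B v = (A v, B v) := by
  simp [isoaJ]

lemma isoaJs_apply (A : E →L[ℝ] P) (B : E →L[ℝ] Q) (r : P × Q) :
    isoaJs A B r = ContinuousLinearMap.adjoint A r.1 + ContinuousLinearMap.adjoint B r.2 := by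
  simp [isoaJs]

lemma isoa_isUnit (A : E →L[ℝ] P) (B : E →L[ℝ] Q)
    (h : Function.Surjective (fun v : E => (A v, B v))) : IsUnit (isoaG A B) := by
  have hinj : Function.Injective (isoaG A B) := by
    rw [injective_iff_map_eq_zero]
    intro r hr
    set w := isoaJs A B r with hw
    have h1 : isoaJ A B w = 0 := hr
    rw [isoaJ_apply] at h1
    have hA : A w = 0 := (Prod.mk.injEq .. ▸ h1 : _ ∧ _).1
    have hB : B w = 0 := (Prod.mk.injEq .. ▸ h1 : _ ∧ _).2
    have key : ∀ u : E, inner ℝ u w = inner ℝ (A u) r.1 + inner ℝ (B u) r.2 := by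
      intro u
      rw [hw, isoaJs_apply, inner_add_right, ContinuousLinearMap.adjoint_inner_right,
        ContinuousLinearMap.adjoint_inner_right]
    have hw0 : w = 0 := by
      have := key w
      rw [hA, hB, inner_zero_left, inner_zero_left, add_zero] at this
      exact inner_self_eq_zero.1 this
    obtain ⟨u, hu⟩ := h r
    have hu1 : A u = r.1 := congrArg Prod.fst hu
    have hu2 : B u = r.2 := congrArg Prod.snd hu
    have h2 := key u
    rw [hw0, inner_zero_right, hu1, hu2] at h2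
    have h3 : (0 : ℝ) ≤ inner ℝ r.1 r.1 := real_inner_self_nonneg
    have h4 : (0 : ℝ) ≤ inner ℝ r.2 r.2 := real_inner_self_nonneg
    have h5 : inner ℝ r.1 r.1 = (0 : ℝ) := by linarith
    have h6 : inner ℝ r.2 r.2 = (0 : ℝ) := by linarith
    exact Prod.ext (inner_self_eq_zero.1 h5) (inner_self_eq_zero.1 h6)
  rw [ContinuousLinearMap.isUnit_iff_bijective]
  exact ⟨hinj, (LinearMap.injective_iff_surjective (f := (isoaG A B : P × Q →ₗ[ℝ] P × Q))).1 hinj⟩

/-- The minimal norm solution of `A w = r.1`, `B w = r.2`. -/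
def isoaW (A : E →L[ℝ] P) (B : E →L[ℝ] Q) (r : P × Q) : E :=
  isoaJs A B (Ring.inverse (isoaG A B) r)

lemma isoaW_spec (A : E →L[ℝ] P) (B : E →L[ℝ] Q) (r : P × Q) (h : IsUnit (isoaG A B)) :
    (A (isoaW A B r), B (isoaW A B r)) = r := by
  rw [← isoaJ_apply]
  have h1 : isoaG A B * Ring.inverse (isoaG A B) = 1 := Ring.mul_inverse_cancel _ h
  have h2 := congrArg (fun T : P × Q →L[ℝ] P × Q => T r) h1
  exact h2

lemma isoaW_of_not (A : E →L[ℝ] P) (B : E →L[ℝ] Q) (r : P × Q) (h : ¬ IsUnit (isoaG A B)) :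
    isoaW A B r = 0 := by
  unfold isoaW
  rw [Ring.inverse_non_unit _ h]
  simp

lemma isoaJs_comp (A : E →L[ℝ] P) (B : E →L[ℝ] Q) (g : E ≃ₗᵢ[ℝ] E) :
    isoaJs (A.comp (g.symm : E →L[ℝ] E)) (B.comp (g.symm : E →L[ℝ] E)) =
      (g : E →L[ℝ] E).comp (isoaJs A B) := by
  have h : ContinuousLinearMap.adjoint (g.symm : E →L[ℝ] E) = (g : E →L[ℝ] E) := by
    simpa using LinearIsometryEquiv.adjoint_eq_symm g.symm
  refine ContinuousLinearMap.ext fun r => ?_
  rw [isoaJs_apply, ContinuousLinearMap.adjoint_comp, ContinuousLinearMap.adjoint_comp, h,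
    ContinuousLinearMap.comp_apply, ContinuousLinearMap.comp_apply,
    ContinuousLinearMap.comp_apply, isoaJs_apply, map_add]

lemma isoaG_comp (A : E →L[ℝ] P) (B : E →L[ℝ] Q) (g : E ≃ₗᵢ[ℝ] E) :
    isoaG (A.comp (g.symm : E →L[ℝ] E)) (B.comp (g.symm : E →L[ℝ] E)) = isoaG A B := by
  unfold isoaG
  rw [isoaJs_comp]
  refine ContinuousLinearMap.ext fun r => ?_
  rw [ContinuousLinearMap.comp_apply, ContinuousLinearMap.comp_apply,
    ContinuousLinearMap.comp_apply, isoaJ_apply, isoaJ_apply]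
  simp

lemma isoaW_comp (A : E →L[ℝ] P) (B : E →L[ℝ] Q) (r : P × Q) (g : E ≃ₗᵢ[ℝ] E) :
    isoaW (A.comp (g.symm : E →L[ℝ] E)) (B.comp (g.symm : E →L[ℝ] E)) r = g (isoaW A B r) := by
  unfold isoaW
  rw [isoaG_comp, isoaJs_comp]
  rfl

lemma isoaJ_contDiff :
    ContDiff ℝ ∞ (fun p : (E →L[ℝ] P) × (E →L[ℝ] Q) => isoaJ p.1 p.2) := by
  unfold isoaJ
  exact (contDiff_const.clm_comp contDiff_fst).add (contDiff_const.clm_comp contDiff_snd)

lemma isoaJs_contDiff :
    ContDiff ℝ ∞ (fun p : (E →L[ℝ] P) × (E →L[ℝ] Q) => isoaJs p.1 p.2) := by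
  unfold isoaJs
  exact ((isoa_adj_contDiff.comp contDiff_fst).clm_comp contDiff_const).add
    ((isoa_adj_contDiff.comp contDiff_snd).clm_comp contDiff_const)

lemma isoaG_contDiff :
    ContDiff ℝ ∞ (fun p : (E →L[ℝ] P) × (E →L[ℝ] Q) => isoaG p.1 p.2) := by
  unfold isoaG
  exact isoaJ_contDiff.clm_comp isoaJs_contDiff

lemma isoaW_contDiffAt (A : E →L[ℝ] P) (B : E →L[ℝ] Q) (r : P × Q) (h : IsUnit (isoaG A B)) :
    ContDiffAt ℝ ∞ (fun p : ((E →L[ℝ] P) × (E →L[ℝ] Q)) × (P × Q) => isoaW p.1.1 p.1.2 p.2)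
      ((A, B), r) := by
  unfold isoaW
  have h1 : ContDiffAt ℝ ∞ (fun p : ((E →L[ℝ] P) × (E →L[ℝ] Q)) × (P × Q) =>
      isoaJs p.1.1 p.1.2) ((A, B), r) :=
    ((isoaJs_contDiff (E := E) (P := P) (Q := Q)).comp contDiff_fst).contDiffAt
  have h2 : ContDiffAt ℝ ∞ (fun p : ((E →L[ℝ] P) × (E →L[ℝ] Q)) × (P × Q) =>
      isoaG p.1.1 p.1.2) ((A, B), r) :=
    ((isoaG_contDiff (E := E) (P := P) (Q := Q)).comp contDiff_fst).contDiffAt
  obtain ⟨u, hu⟩ := h
  have h3 : ContDiffAt ℝ ∞ Ring.inverse (isoaG A B) := by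
    rw [← hu]
    exact contDiffAt_ringInverse (R := P × Q →L[ℝ] P × Q) ℝ u
  have h4 : ContDiffAt ℝ ∞ (fun p : ((E →L[ℝ] P) × (E →L[ℝ] Q)) × (P × Q) =>
      Ring.inverse (isoaG p.1.1 p.1.2)) ((A, B), r) :=
    ContDiffAt.comp (g := Ring.inverse)
      (((A, B), r) : ((E →L[ℝ] P) × (E →L[ℝ] Q)) × (P × Q)) h3 h2
  exact h1.clm_apply (h4.clm_apply contDiff_snd.contDiffAt)

/-- The derivative of the time-reparametrised map. -/
lemma isoa_fderiv_repar (F : ℝ × E → Q) (hF : ContDiff ℝ ∞ F) (t : ℝ) (x : E) (a : ℝ) (w : E) :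
    fderiv ℝ (fun q : ℝ × E => F (Real.smoothTransition q.1, q.2)) (t, x) (a, w) =
      (a * deriv Real.smoothTransition t) • fderiv ℝ F (Real.smoothTransition t, x) (1, 0) +
        fderiv ℝ F (Real.smoothTransition t, x) (0, w) := by
  have hs : HasDerivAt Real.smoothTransition (deriv Real.smoothTransition t) t :=
    ((Real.smoothTransition.contDiff (n := 1)).differentiable (by simp) t).hasDerivAt
  have h1 : HasFDerivAt (Prod.map Real.smoothTransition (id : E → E))
      (((ContinuousLinearMap.toSpanSingleton ℝ (deriv Real.smoothTransition t))).prodMap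
        (ContinuousLinearMap.id ℝ E)) (t, x) :=
    HasFDerivAt.prodMap (p := (t, x)) hs.hasFDerivAt (hasFDerivAt_id x)
  have h2 : HasFDerivAt F (fderiv ℝ F (Real.smoothTransition t, x))
      (Prod.map Real.smoothTransition (id : E → E) (t, x)) :=
    (hF.differentiable (by simp) _).hasFDerivAt
  have h3 := (h2.comp (t, x) h1).fderiv
  have h4 : (F ∘ Prod.map Real.smoothTransition (id : E → E)) =
      (fun q : ℝ × E => F (Real.smoothTransition q.1, q.2)) := rfl
  rw [h4] at h3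
  rw [h3, ContinuousLinearMap.comp_apply]
  have h5 : (((ContinuousLinearMap.toSpanSingleton ℝ (deriv Real.smoothTransition t))).prodMap
        (ContinuousLinearMap.id ℝ E)) (a, w) =
      (a * deriv Real.smoothTransition t) • ((1 : ℝ), (0 : E)) + ((0 : ℝ), w) := by
    ext <;> simp
  rw [h5, map_add, map_smul]

lemma isoa_deriv_zero (t : ℝ) (ht : t ∉ Icc (0 : ℝ) 1) : deriv Real.smoothTransition t = 0 := by
  rw [mem_Icc, not_and_or, not_le, not_le] at ht
  rcases ht with ht | ht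
  · have h : Real.smoothTransition =ᶠ[𝓝 t] fun _ => 0 := by
      filter_upwards [Iio_mem_nhds ht] with y hy
      exact Real.smoothTransition.zero_of_nonpos (le_of_lt hy)
    rw [h.deriv_eq]; simp
  · have h : Real.smoothTransition =ᶠ[𝓝 t] fun _ => 1 := by
      filter_upwards [Ioi_mem_nhds ht] with y hy
      exact Real.smoothTransition.one_of_one_le (le_of_lt hy)
    rw [h.deriv_eq]; simp

/-- The choice of the width of the tube. -/
lemma isoa_eps (Φ : E → P) (F : ℝ × E → Q) (hΦ : ContDiff ℝ ∞ Φ) (hF : ContDiff ℝ ∞ F)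
    (R : ℝ) (hR : ∀ t ∈ Icc (0 : ℝ) 1, ∀ x, ‖Φ x‖ ≤ 1 → ‖F (t, x)‖ ≤ 1 → ‖x‖ ≤ R)
    (reg : ∀ t ∈ Icc (0 : ℝ) 1, ∀ x, Φ x = 0 → F (t, x) = 0 →
      Function.Surjective (fun v : E => (fderiv ℝ Φ x v, fderiv ℝ (fun y => F (t, y)) x v))) :
    ∃ ε : ℝ, 0 < ε ∧ ∀ t ∈ Icc (0 : ℝ) 1, ∀ x, ‖Φ x‖ ^ 2 + ‖F (t, x)‖ ^ 2 ≤ ε →
      ‖x‖ ≤ R ∧ IsUnit (isoaG (fderiv ℝ Φ x)
        ((fderiv ℝ F (t, x)).comp (ContinuousLinearMap.inr ℝ ℝ E))) := by
  set G : ℝ × E → (P × Q →L[ℝ] P × Q) := fun q => isoaG (fderiv ℝ Φ q.2)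
    ((fderiv ℝ F q).comp (ContinuousLinearMap.inr ℝ ℝ E)) with hG
  have hGc : Continuous G := by
    have h1 : ContDiff ℝ ∞ (fun q : ℝ × E => fderiv ℝ Φ q.2) :=
      (hΦ.fderiv_right (m := ∞) (by simp)).comp contDiff_snd
    have h2 : ContDiff ℝ ∞ (fun q : ℝ × E => (fderiv ℝ F q).comp
        (ContinuousLinearMap.inr ℝ ℝ E)) :=
      (hF.fderiv_right (m := ∞) (by simp)).clm_comp contDiff_const
    exact ((isoaG_contDiff (E := E) (P := P) (Q := Q)).comp (h1.prodMk h2)).continuous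
  have hreg : ∀ t ∈ Icc (0 : ℝ) 1, ∀ x, Φ x = 0 → F (t, x) = 0 → IsUnit (G (t, x)) := by
    intro t ht x h1 h2
    apply isoa_isUnit
    have h3 := reg t ht x h1 h2
    have h4 : fderiv ℝ (fun y => F (t, y)) x =
        (fderiv ℝ F (t, x)).comp (ContinuousLinearMap.inr ℝ ℝ E) := by
      have h5 : HasFDerivAt F (fderiv ℝ F (t, x)) (t, x) :=
        (hF.differentiable (by simp) _).hasFDerivAt
      exact (h5.comp x (hasFDerivAt_prodMk_right t x)).fderiv
    rw [h4] at h3
    exact h3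
  set Z : ℝ × E → ℝ := fun q => ‖Φ q.2‖ ^ 2 + ‖F q‖ ^ 2 with hZ
  have hZc : Continuous Z := by
    have h1 := hΦ.continuous
    have h2 := hF.continuous
    fun_prop
  have hbound : ∀ t ∈ Icc (0 : ℝ) 1, ∀ x, Z (t, x) ≤ 1 → ‖x‖ ≤ R := by
    intro t ht x h
    have h1 : 0 ≤ ‖Φ x‖ := norm_nonneg _
    have h2 : 0 ≤ ‖F (t, x)‖ := norm_nonneg _
    have h3 : ‖Φ x‖ ^ 2 + ‖F (t, x)‖ ^ 2 ≤ 1 := h
    exact hR t ht x (by nlinarith) (by nlinarith)
  set C : Set (ℝ × E) := (Icc (0 : ℝ) 1 ×ˢ Metric.closedBall (0 : E) R) ∩ {q | ¬ IsUnit (G q)}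
    with hC
  have hCc : IsCompact C := by
    apply (isCompact_Icc.prod (isCompact_closedBall (0 : E) R)).inter_right
    have h1 : IsOpen {T : P × Q →L[ℝ] P × Q | IsUnit T} :=
      Units.isOpen (R := P × Q →L[ℝ] P × Q)
    exact (h1.preimage hGc).isClosed_compl
  rcases C.eq_empty_or_nonempty with hCe | hCn
  · refine ⟨1, one_pos, fun t ht x h => ?_⟩
    have h1 := hbound t ht x h
    refine ⟨h1, ?_⟩
    by_contra h2
    have h3 : (t, x) ∈ C := ⟨⟨ht, by simpa using h1⟩, h2⟩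
    rw [hCe] at h3
    exact h3
  · obtain ⟨q0, hq0, hmin⟩ := hCc.exists_isMinOn hCn hZc.continuousOn
    have hpos : 0 < Z q0 := by
      by_contra h
      have h1 : Z q0 ≤ 0 := not_lt.1 h
      have h2 : ‖Φ q0.2‖ ^ 2 + ‖F q0‖ ^ 2 ≤ 0 := h1
      have h3 : ‖Φ q0.2‖ = 0 := by nlinarith [sq_nonneg ‖Φ q0.2‖, sq_nonneg ‖F q0‖]
      have h4 : ‖F q0‖ = 0 := by nlinarith [sq_nonneg ‖Φ q0.2‖, sq_nonneg ‖F q0‖]
      exact hq0.2 (hreg q0.1 hq0.1.1 q0.2 (norm_eq_zero.1 h3) (norm_eq_zero.1 h4))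
    refine ⟨min 1 (Z q0 / 2), lt_min one_pos (by linarith), fun t ht x h => ?_⟩
    have h1 := hbound t ht x (h.trans (min_le_left _ _))
    refine ⟨h1, ?_⟩
    by_contra h2
    have h3 : (t, x) ∈ C := ⟨⟨ht, by simpa using h1⟩, h2⟩
    have h4 : Z q0 ≤ Z (t, x) := hmin h3
    have h5 : Z (t, x) ≤ Z q0 / 2 := h.trans (min_le_right _ _)
    linarith

end IsoaAux

/-- The vector field of the isotopy lemma (time is reparametrised by `Real.smoothTransition`). -/
theorem exists_isotopy_field {E P Q : Type}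
    [NormedAddCommGroup E] [InnerProductSpace ℝ E] [FiniteDimensional ℝ E]
    [NormedAddCommGroup P] [InnerProductSpace ℝ P] [FiniteDimensional ℝ P]
    [NormedAddCommGroup Q] [InnerProductSpace ℝ Q] [FiniteDimensional ℝ Q]
    (Φ : E → P) (F : ℝ × E → Q) (hΦ : ContDiff ℝ ∞ Φ) (hF : ContDiff ℝ ∞ F)
    (bdd : ∃ R : ℝ, ∀ t ∈ Icc (0 : ℝ) 1, ∀ x, ‖Φ x‖ ≤ 1 → ‖F (t, x)‖ ≤ 1 → ‖x‖ ≤ R)
    (reg : ∀ t ∈ Icc (0 : ℝ) 1, ∀ x, Φ x = 0 → F (t, x) = 0 →
      Function.Surjective (fun v : E => (fderiv ℝ Φ x v, fderiv ℝ (fun y => F (t, y)) x v))) :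
    ∃ v : ℝ × E → E, ContDiff ℝ ∞ v ∧ HasCompactSupport v ∧
      (∀ t x, fderiv ℝ Φ x (v (t, x)) = 0) ∧
      (∃ δ > (0 : ℝ), ∀ t x, Φ x = 0 → ‖F (Real.smoothTransition t, x)‖ < δ →
        fderiv ℝ (fun q : ℝ × E => F (Real.smoothTransition q.1, q.2)) (t, x) (1, v (t, x)) = 0) ∧
      ∀ g : E ≃ₗᵢ[ℝ] E, (∀ x, Φ (g x) = Φ x) → (∀ t x, F (t, g x) = F (t, x)) →
        ∀ t x, v (t, g x) = g (v (t, x)) := by
  obtain ⟨R, hR⟩ := bdd
  obtain ⟨ε, hε, hunit⟩ := isoa_eps Φ F hΦ hF R hR reg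
  have hS : ContDiff ℝ ∞ (fun q : ℝ × E => ((Real.smoothTransition q.1, q.2) : ℝ × E)) :=
    (Real.smoothTransition.contDiff.comp contDiff_fst).prodMk contDiff_snd
  have hds : ContDiff ℝ ∞ (deriv Real.smoothTransition) := by
    have h : ContDiff ℝ ∞ Real.smoothTransition := Real.smoothTransition.contDiff
    exact ((contDiff_infty_iff_deriv (f := Real.smoothTransition)).1 h).2
  have hIcc : ∀ t, Real.smoothTransition t ∈ Icc (0 : ℝ) 1 := fun t =>
    ⟨Real.smoothTransition.nonneg t, Real.smoothTransition.le_one t⟩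
  set A : ℝ × E → (E →L[ℝ] P) := fun q => fderiv ℝ Φ q.2 with hA
  set B : ℝ × E → (E →L[ℝ] Q) := fun q =>
    (fderiv ℝ F q).comp (ContinuousLinearMap.inr ℝ ℝ E) with hB
  set r : ℝ × E → P × Q := fun q => (0, fderiv ℝ F q (1, 0)) with hr
  set Z : ℝ × E → ℝ := fun q => ‖Φ q.2‖ ^ 2 + ‖F q‖ ^ 2 with hZ
  have hAc : ContDiff ℝ ∞ A := (hΦ.fderiv_right (m := ∞) (by simp)).comp contDiff_snd
  have hFd : ContDiff ℝ ∞ (fderiv ℝ F) := hF.fderiv_right (m := ∞) (by simp)
  have hBc : ContDiff ℝ ∞ B := hFd.clm_comp contDiff_const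
  have hrc : ContDiff ℝ ∞ r := contDiff_const.prodMk (hFd.clm_apply contDiff_const)
  have hZc : ContDiff ℝ ∞ Z :=
    ((hΦ.comp contDiff_snd).norm_sq ℝ).add (hF.norm_sq ℝ)
  set v : ℝ × E → E := fun q =>
    (-(Real.smoothTransition (2 - 4 * Z (Real.smoothTransition q.1, q.2) / ε) *
      deriv Real.smoothTransition q.1)) •
      isoaW (A (Real.smoothTransition q.1, q.2)) (B (Real.smoothTransition q.1, q.2))
        (r (Real.smoothTransition q.1, q.2)) with hv
  have hchi0 : ∀ z : ℝ, ε / 2 < z → Real.smoothTransition (2 - 4 * z / ε) = 0 := by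
    intro z hz
    apply Real.smoothTransition.zero_of_nonpos
    have : 2 ≤ 4 * z / ε := by rw [le_div_iff₀ hε]; linarith
    linarith
  have hchi1 : ∀ z : ℝ, z ≤ ε / 4 → Real.smoothTransition (2 - 4 * z / ε) = 1 := by
    intro z hz
    apply Real.smoothTransition.one_of_one_le
    have : 4 * z / ε ≤ 1 := by rw [div_le_iff₀ hε]; linarith
    linarith
  refine ⟨v, ?_, ?_, ?_, ?_, ?_⟩
  · -- smoothness
    rw [contDiff_iff_contDiffAt]
    intro q
    by_cases hq : Z (Real.smoothTransition q.1, q.2) ≤ ε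
    · have hu := (hunit (Real.smoothTransition q.1) (hIcc q.1) q.2 hq).2
      have h1 : ContDiffAt ℝ ∞ (fun p : ((E →L[ℝ] P) × (E →L[ℝ] Q)) × (P × Q) =>
          isoaW p.1.1 p.1.2 p.2)
          ((A (Real.smoothTransition q.1, q.2), B (Real.smoothTransition q.1, q.2)),
            r (Real.smoothTransition q.1, q.2)) := isoaW_contDiffAt _ _ _ hu
      have h2 : ContDiffAt ℝ ∞ (fun q : ℝ × E =>
          (((A (Real.smoothTransition q.1, q.2), B (Real.smoothTransition q.1, q.2)),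
            r (Real.smoothTransition q.1, q.2)) :
              ((E →L[ℝ] P) × (E →L[ℝ] Q)) × (P × Q))) q :=
        (((hAc.comp hS).prodMk (hBc.comp hS)).prodMk (hrc.comp hS)).contDiffAt
      have h3 := h1.comp q h2
      have h4 : ContDiff ℝ ∞ (fun q : ℝ × E =>
          (-(Real.smoothTransition (2 - 4 * Z (Real.smoothTransition q.1, q.2) / ε) *
            deriv Real.smoothTransition q.1))) := by
        have h5 : ContDiff ℝ ∞ (fun q : ℝ × E =>
            2 - 4 * Z (Real.smoothTransition q.1, q.2) / ε) :=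
          contDiff_const.sub ((contDiff_const.mul (hZc.comp hS)).div_const _)
        exact ((Real.smoothTransition.contDiff.comp h5).mul (hds.comp contDiff_fst)).neg
      exact h4.contDiffAt.smul h3
    · have h1 : ε / 2 < Z (Real.smoothTransition q.1, q.2) := by linarith [not_le.1 hq]
      have h2 : IsOpen {q : ℝ × E | ε / 2 < Z (Real.smoothTransition q.1, q.2)} :=
        isOpen_lt continuous_const (hZc.comp hS).continuous
      have h3 : v =ᶠ[𝓝 q] fun _ => 0 := by
        filter_upwards [h2.mem_nhds h1] with y hy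
        have : Real.smoothTransition (2 - 4 * Z (Real.smoothTransition y.1, y.2) / ε) = 0 :=
          hchi0 _ hy
        simp only [hv]
        rw [this]
        simp
      exact contDiffAt_const.congr_of_eventuallyEq h3
  · -- compact support
    refine HasCompactSupport.intro (isCompact_Icc.prod (isCompact_closedBall (0 : E) R))
      (K := Icc (0 : ℝ) 1 ×ˢ Metric.closedBall (0 : E) R) ?_
    intro q hq
    by_cases ht : q.1 ∈ Icc (0 : ℝ) 1
    · have h1 : ¬ ‖q.2‖ ≤ R := by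
        intro h
        exact hq ⟨ht, by simpa using h⟩
      have h2 : ε < Z (Real.smoothTransition q.1, q.2) := by
        by_contra h
        exact h1 (hunit (Real.smoothTransition q.1) (hIcc q.1) q.2 (not_lt.1 h)).1
      have : Real.smoothTransition (2 - 4 * Z (Real.smoothTransition q.1, q.2) / ε) = 0 :=
        hchi0 _ (by linarith)
      simp only [hv]
      rw [this]
      simp
    · simp only [hv]
      rw [isoa_deriv_zero q.1 ht]
      simp
  · -- tangency to the level sets of `Φ`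
    intro t x
    simp only [hv, map_smul]
    by_cases hu : IsUnit (isoaG (A (Real.smoothTransition t, x)) (B (Real.smoothTransition t, x)))
    · have h1 := isoaW_spec _ _ (r (Real.smoothTransition t, x)) hu
      have h2 := congrArg Prod.fst h1
      simp only [hA, hr] at h2
      simp only [hA, hr]
      rw [h2, smul_zero]
    · rw [isoaW_of_not _ _ _ hu]
      simp
  · -- `F` is constant along the flow, near its zero set
    refine ⟨Real.sqrt ε / 2, by positivity, fun t x hx hFx => ?_⟩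
    have hz : Z (Real.smoothTransition t, x) ≤ ε / 4 := by
      simp only [hZ, hx, norm_zero]
      have h1 : ‖F (Real.smoothTransition t, x)‖ ^ 2 ≤ (Real.sqrt ε / 2) ^ 2 :=
        pow_le_pow_left₀ (norm_nonneg _) hFx.le 2
      have h2 : (Real.sqrt ε / 2) ^ 2 = ε / 4 := by
        rw [div_pow, Real.sq_sqrt hε.le]; norm_num
      rw [h2] at h1
      simpa using h1
    have hu := (hunit (Real.smoothTransition t) (hIcc t) x (by
      have : Z (Real.smoothTransition t, x) ≤ ε := by linarith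
      exact this)).2
    have h1 := isoaW_spec _ _ (r (Real.smoothTransition t, x)) hu
    have h2 := congrArg Prod.snd h1
    have h3 : v (t, x) = (-(deriv Real.smoothTransition t)) •
        isoaW (A (Real.smoothTransition t, x)) (B (Real.smoothTransition t, x))
        (r (Real.smoothTransition t, x)) := by
      simp only [hv]
      rw [hchi1 _ hz, one_mul]
    rw [isoa_fderiv_repar F hF]
    have h4 : fderiv ℝ F (Real.smoothTransition t, x) (0, v (t, x)) =
        B (Real.smoothTransition t, x) (v (t, x)) := rfl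
    rw [h4, h3, map_smul]
    have h5 : B (Real.smoothTransition t, x) (isoaW (A (Real.smoothTransition t, x))
        (B (Real.smoothTransition t, x)) (r (Real.smoothTransition t, x))) =
        fderiv ℝ F (Real.smoothTransition t, x) (1, 0) := h2
    rw [h5, one_mul, neg_smul, add_neg_cancel]
  · -- equivariance
    intro g hg1 hg2 t x
    have hgA : ∀ τ, A (τ, g x) = (A (τ, x)).comp (g.symm : E →L[ℝ] E) := by
      intro τ
      have h1 : HasFDerivAt Φ (fderiv ℝ Φ (g x)) (g x) :=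
        (hΦ.differentiable (by simp) _).hasFDerivAt
      have h2 : HasFDerivAt (fun y => g y) (g : E →L[ℝ] E) x :=
        g.toContinuousLinearEquiv.hasFDerivAt
      have h3 := (h1.comp x h2).fderiv
      have h4 : (Φ ∘ fun y => g y) = Φ := funext hg1
      rw [h4] at h3
      simp only [hA]
      rw [h3]
      refine ContinuousLinearMap.ext fun w => ?_
      simp
    have hgF : ∀ τ, fderiv ℝ F (τ, g x) = (fderiv ℝ F (τ, x)).comp
        ((ContinuousLinearMap.id ℝ ℝ).prodMap (g.symm : E →L[ℝ] E)) := by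
      intro τ
      have h1 : HasFDerivAt F (fderiv ℝ F (τ, g x)) (Prod.map (id : ℝ → ℝ) (fun y => g y) (τ, x)) :=
        (hF.differentiable (by simp) _).hasFDerivAt
      have h2 : HasFDerivAt (Prod.map (id : ℝ → ℝ) (fun y => g y))
          ((ContinuousLinearMap.id ℝ ℝ).prodMap (g : E →L[ℝ] E)) (τ, x) :=
        HasFDerivAt.prodMap (p := (τ, x)) (hasFDerivAt_id τ)
          g.toContinuousLinearEquiv.hasFDerivAt
      have h3 := (h1.comp (τ, x) h2).fderiv
      have h4 : (F ∘ Prod.map (id : ℝ → ℝ) (fun y => g y)) = F := by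
        funext q
        exact hg2 q.1 q.2
      rw [h4] at h3
      rw [h3]
      refine ContinuousLinearMap.ext fun w => ?_
      have h5 : w = Prod.map (id : ℝ → ℝ) (g : E → E) (Prod.map id (g.symm : E → E) w) := by
        ext <;> simp
      exact congrArg (fderiv ℝ F (τ, g x)) h5
    have hgB : ∀ τ, B (τ, g x) = (B (τ, x)).comp (g.symm : E →L[ℝ] E) := by
      intro τ
      simp only [hB]
      rw [hgF τ]
      refine ContinuousLinearMap.ext fun w => ?_
      simp
    have hgr : ∀ τ, r (τ, g x) = r (τ, x) := by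
      intro τ
      simp only [hr]
      rw [hgF τ]
      simp
    have hgZ : ∀ τ, Z (τ, g x) = Z (τ, x) := by
      intro τ
      simp only [hZ, hg1, hg2]
    simp only [hv]
    rw [hgA, hgB, hgr, hgZ, isoaW_comp, map_smul]

end Pool.Agent.Tri
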