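import Mathlib
import Pool.Agent.H.MP_5efd29_gt.FlowD
import Pool.Agent.H.MP_5efd29_gt.IsoA

open scoped ContDiff Topology
open Set

noncomputable section

namespace Pool.Agent.Tri

/-- A curve whose derivative vanishes whenever its norm is small, and which has a zero, is
identically zero. -/
theorem isob_zero {Q : Type} [NormedAddCommGroup Q] [NormedSpace ℝ Q] (f : ℝ → Q)
    (hf : Differentiable ℝ f) {δ : ℝ} (hδ : 0 < δ) (h : ∀ t, ‖f t‖ < δ → deriv f t = 0)
    {t1 : ℝ} (h1 : f t1 = 0) (t : ℝ) : f t = 0 := by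
  have hclosed : IsClosed {t | f t = 0} := isClosed_eq hf.continuous continuous_const
  have hopen : IsOpen {t | f t = 0} := by
    rw [Metric.isOpen_iff]
    intro t0 ht0
    have ht0' : f t0 = 0 := ht0
    have hU : IsOpen {t | ‖f t‖ < δ} := isOpen_lt hf.continuous.norm continuous_const
    obtain ⟨ε, hε, hball⟩ := Metric.isOpen_iff.1 hU t0
      (by rw [mem_ofPred_eq, ht0', norm_zero]; exact hδ)
    refine ⟨ε, hε, fun t ht => ?_⟩
    have h2 := Metric.isOpen_ball.is_const_of_deriv_eq_zero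
      (convex_ball t0 ε).isPreconnected (hf.differentiableOn (s := Metric.ball t0 ε))
      (fun s hs => h s (hball hs)) ht (Metric.mem_ball_self hε)
    rw [mem_ofPred_eq, h2, ht0']
  have huniv : {t | f t = 0} = univ := IsClopen.eq_univ ⟨hclosed, hopen⟩ ⟨t1, h1⟩
  have h3 : t ∈ {t | f t = 0} := by
    rw [huniv]
    exact mem_univ t
  exact h3

/-- **Isotopy lemma.**  If zero is a regular value of `F (t, ·)` on the level set `Φ = 0` for all
`t ∈ [0,1]`, then the zero sets are carried to one another by an ambient isotopy preserving `Φ`,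
which commutes with the linear isometries preserving `Φ` and `F`.  Time is reparametrised by
`Real.smoothTransition`. -/
theorem isotopy_lemma {E P Q : Type}
    [NormedAddCommGroup E] [InnerProductSpace ℝ E] [FiniteDimensional ℝ E]
    [NormedAddCommGroup P] [InnerProductSpace ℝ P] [FiniteDimensional ℝ P]
    [NormedAddCommGroup Q] [InnerProductSpace ℝ Q] [FiniteDimensional ℝ Q]
    (Φ : E → P) (F : ℝ × E → Q) (hΦ : ContDiff ℝ ∞ Φ) (hF : ContDiff ℝ ∞ F)
    (bdd : ∃ R : ℝ, ∀ t ∈ Icc (0 : ℝ) 1, ∀ x, ‖Φ x‖ ≤ 1 → ‖F (t, x)‖ ≤ 1 → ‖x‖ ≤ R)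
    (reg : ∀ t ∈ Icc (0 : ℝ) 1, ∀ x, Φ x = 0 → F (t, x) = 0 →
      Function.Surjective (fun v : E => (fderiv ℝ Φ x v, fderiv ℝ (fun y => F (t, y)) x v))) :
    ∃ Θ Ξ : ℝ × E → E, ContDiff ℝ ∞ Θ ∧ ContDiff ℝ ∞ Ξ ∧ (∀ x, Θ (0, x) = x) ∧
      (∀ t x, Ξ (t, Θ (t, x)) = x) ∧ (∀ t x, Θ (t, Ξ (t, x)) = x) ∧
      (∀ t x, Φ (Θ (t, x)) = Φ x) ∧
      (∀ t x, Φ x = 0 → (F (Real.smoothTransition t, Θ (t, x)) = 0 ↔ F (0, x) = 0)) ∧
      ∀ g : E ≃ₗᵢ[ℝ] E, (∀ x, Φ (g x) = Φ x) → (∀ t x, F (t, g x) = F (t, x)) →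
        ∀ t x, Θ (t, g x) = g (Θ (t, x)) := by
  obtain ⟨v, hv, hs, hΦv, ⟨δ, hδ, hFv⟩, heqv⟩ := exists_isotopy_field Φ F hΦ hF bdd reg
  obtain ⟨Θ, Ξ, hΘ, hΞ, h0, h1, h2, hder, huniq⟩ := exists_time_flow v hv hs
  have hΦd : Differentiable ℝ Φ := hΦ.differentiable (by simp)
  have hΦc : ∀ t x, Φ (Θ (t, x)) = Φ x := by
    intro t x
    have hd : ∀ t, HasDerivAt (fun s => Φ (Θ (s, x))) 0 t := by
      intro t
      have h3 := (hΦd (Θ (t, x))).hasFDerivAt.comp_hasDerivAt t (hder x t)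
      rw [hΦv] at h3
      exact h3
    have h4 := is_const_of_deriv_eq_zero (fun t => (hd t).differentiableAt)
      (fun t => (hd t).deriv) t 0
    rw [h4, h0]
  refine ⟨Θ, Ξ, hΘ, hΞ, h0, h1, h2, hΦc, ?_, ?_⟩
  · intro t x hx
    obtain ⟨G, hG⟩ : ∃ G : ℝ × E → Q, G = fun q => F (Real.smoothTransition q.1, q.2) := ⟨_, rfl⟩
    have hGs : ContDiff ℝ ∞ G := by
      rw [hG]
      exact hF.comp ((Real.smoothTransition.contDiff.comp contDiff_fst).prodMk contDiff_snd)
    have hGd : Differentiable ℝ G := hGs.differentiable (by simp)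
    have hd : ∀ t, HasDerivAt (fun s => G (s, Θ (s, x)))
        (fderiv ℝ G (t, Θ (t, x)) (1, v (t, Θ (t, x)))) t := by
      intro t
      exact (hGd (t, Θ (t, x))).hasFDerivAt.comp_hasDerivAt t
        ((hasDerivAt_id t).prodMk (hder x t))
    have hz : ∀ t1, G (t1, Θ (t1, x)) = 0 → ∀ t2, G (t2, Θ (t2, x)) = 0 := fun t1 ht1 t2 =>
      isob_zero (fun s => G (s, Θ (s, x))) (fun t => (hd t).differentiableAt) hδ
      (fun t ht => by
        rw [(hd t).deriv, hG]
        rw [hG] at ht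
        exact hFv t _ (by rw [hΦc, hx]) ht) ht1 t2
    have e0 : G (0, Θ (0, x)) = F (0, x) := by
      rw [hG, h0]
      simp only [Real.smoothTransition.zero]
    have et : G (t, Θ (t, x)) = F (Real.smoothTransition t, Θ (t, x)) := by rw [hG]
    rw [← e0, ← et]
    exact ⟨fun h => hz _ h 0, fun h => hz _ h t⟩
  · intro g hg hgF t x
    have h3 := huniq (fun s => g (Θ (s, x))) (fun s => by
      rw [heqv g hg hgF]
      exact g.toContinuousLinearEquiv.toContinuousLinearMap.hasFDerivAt.comp_hasDerivAt s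
        (hder x s)) t
    simp only [h0] at h3
    exact h3.symm

end Pool.Agent.Tri
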