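import Mathlib
import Pool.Agent.H.MP_5efd29_gt.IsoB

open scoped ContDiff Topology
open Set

noncomputable section

namespace Pool.Agent.Tri

/-- Triples `(z, w, ξ)`. -/
abbrev C3 : Type := ℂ × ℂ × ℂ

/-- The primitive fifth root of unity `exp (2πi/5)`. -/
def zeta : ℂ := Complex.exp (2 * Real.pi * Complex.I / 5)

/-- The generator `(z, w, ξ) ↦ (ζ z, ζ² w, ξ)` of the free action of `μ₅`. -/
def act (x : C3) : C3 := (zeta * x.1, zeta ^ 2 * x.2.1, x.2.2)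

theorem isoc_zeta_ne : zeta ≠ 0 := Complex.exp_ne_zero _

theorem isoc_norm_zeta : ‖zeta‖ = 1 := by
  have h : (2 * Real.pi * Complex.I / 5 : ℂ) = ((2 * Real.pi / 5 : ℝ) : ℂ) * Complex.I := by
    push_cast
    ring
  rw [zeta, h, Complex.norm_exp_ofReal_mul_I]

/-- `act` as a real linear equivalence -/
def isoc_act : C3 ≃ₗ[ℝ] C3 where
  toFun := act
  map_add' x y := by
    simp only [act, Prod.fst_add, Prod.snd_add, mul_add]
    rfl
  map_smul' c x := by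
    simp only [act, Prod.smul_fst, Prod.smul_snd, RingHom.id_apply, mul_smul_comm]
    rfl
  invFun x := (zeta⁻¹ * x.1, (zeta ^ 2)⁻¹ * x.2.1, x.2.2)
  left_inv x := by
    simp only [act, inv_mul_cancel_left₀ isoc_zeta_ne,
      inv_mul_cancel_left₀ (pow_ne_zero 2 isoc_zeta_ne)]
  right_inv x := by
    simp only [act, mul_inv_cancel_left₀ isoc_zeta_ne,
      mul_inv_cancel_left₀ (pow_ne_zero 2 isoc_zeta_ne)]

/-- the euclidean space of triples -/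
abbrev IsocE : Type := WithLp 2 (ℂ × WithLp 2 (ℂ × ℂ))

def isoc_L : C3 ≃L[ℝ] IsocE :=
  ((ContinuousLinearEquiv.refl ℝ ℂ).prodCongr
    (WithLp.prodContinuousLinearEquiv 2 ℝ ℂ ℂ).symm).trans
    (WithLp.prodContinuousLinearEquiv 2 ℝ ℂ (WithLp 2 (ℂ × ℂ))).symm

theorem isoc_norm_L (x : C3) : ‖isoc_L x‖ ^ 2 = ‖x.1‖ ^ 2 + (‖x.2.1‖ ^ 2 + ‖x.2.2‖ ^ 2) := by
  rw [WithLp.prod_norm_sq_eq_of_L2, WithLp.prod_norm_sq_eq_of_L2]
  rfl

def isoc_g : IsocE ≃ₗᵢ[ℝ] IsocE where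
  toLinearEquiv := isoc_L.symm.toLinearEquiv.trans (isoc_act.trans isoc_L.toLinearEquiv)
  norm_map' x := by
    change ‖isoc_L (act (isoc_L.symm x))‖ = ‖x‖
    have h1 : ‖isoc_L (act (isoc_L.symm x))‖ ^ 2 = ‖isoc_L (isoc_L.symm x)‖ ^ 2 := by
      rw [isoc_norm_L, isoc_norm_L]
      simp only [act, norm_mul, norm_pow, isoc_norm_zeta, one_pow, one_mul]
    rw [isoc_L.apply_symm_apply] at h1
    exact (pow_left_inj₀ (norm_nonneg _) (norm_nonneg _) two_ne_zero).1 h1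

theorem isoc_g_apply (x : IsocE) : isoc_g x = isoc_L (act (isoc_L.symm x)) := rfl

/-- The isotopy lemma in `C3`, equivariantly for `act`; complex valued `Φ`, `F`. -/
theorem isotopy_C3 {Q : Type} [NormedAddCommGroup Q] [InnerProductSpace ℝ Q]
    [FiniteDimensional ℝ Q]
    (Φ : C3 → ℂ) (F : ℝ × C3 → Q) (hΦ : ContDiff ℝ ∞ Φ) (hF : ContDiff ℝ ∞ F)
    (hΦa : ∀ x, Φ (act x) = Φ x) (hFa : ∀ t x, F (t, act x) = F (t, x))
    (bdd : ∃ R : ℝ, ∀ t ∈ Icc (0 : ℝ) 1, ∀ x, ‖Φ x‖ ≤ 1 → ‖F (t, x)‖ ≤ 1 → ‖x‖ ≤ R)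
    (reg : ∀ t ∈ Icc (0 : ℝ) 1, ∀ x, Φ x = 0 → F (t, x) = 0 →
      Function.Surjective (fun v : C3 => (fderiv ℝ Φ x v, fderiv ℝ (fun y => F (t, y)) x v))) :
    ∃ Θ Ξ : ℝ × C3 → C3, ContDiff ℝ ∞ Θ ∧ ContDiff ℝ ∞ Ξ ∧ (∀ x, Θ (0, x) = x) ∧
      (∀ t x, Ξ (t, Θ (t, x)) = x) ∧ (∀ t x, Θ (t, Ξ (t, x)) = x) ∧
      (∀ t x, Φ (Θ (t, x)) = Φ x) ∧
      (∀ t x, Φ x = 0 → (F (Real.smoothTransition t, Θ (t, x)) = 0 ↔ F (0, x) = 0)) ∧
      ∀ t x, Θ (t, act x) = act (Θ (t, x)) := by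
  have hpair : ContDiff ℝ ∞ fun q : ℝ × IsocE => ((q.1, isoc_L.symm q.2) : ℝ × C3) :=
    contDiff_fst.prodMk (isoc_L.symm.contDiff.comp contDiff_snd)
  have hpair' : ContDiff ℝ ∞ fun q : ℝ × C3 => ((q.1, isoc_L q.2) : ℝ × IsocE) :=
    contDiff_fst.prodMk (isoc_L.contDiff.comp contDiff_snd)
  obtain ⟨Θ, Ξ, hΘ, hΞ, h0, h1, h2, h3, h4, h5⟩ := isotopy_lemma (E := IsocE) (P := ℂ) (Q := Q)
    (fun x => Φ (isoc_L.symm x)) (fun q => F (q.1, isoc_L.symm q.2))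
    (hΦ.comp isoc_L.symm.contDiff) (hF.comp hpair)
    (by
      obtain ⟨R, hR⟩ := bdd
      refine ⟨‖(isoc_L : C3 →L[ℝ] IsocE)‖ * R, fun t ht x hx1 hx2 => ?_⟩
      have h6 := hR t ht (isoc_L.symm x) hx1 hx2
      have h7 := (isoc_L : C3 →L[ℝ] IsocE).le_opNorm (isoc_L.symm x)
      have h8 : (isoc_L : C3 →L[ℝ] IsocE) (isoc_L.symm x) = x := isoc_L.apply_symm_apply x
      rw [h8] at h7
      exact h7.trans (mul_le_mul_of_nonneg_left h6 (norm_nonneg _)))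
    (by
      intro t ht x hx1 hx2
      have h6 := reg t ht (isoc_L.symm x) hx1 hx2
      have h7 : ∀ v, fderiv ℝ (fun x => Φ (isoc_L.symm x)) x v =
          fderiv ℝ Φ (isoc_L.symm x) (isoc_L.symm v) := by
        intro v
        have h8 := isoc_L.symm.comp_right_fderiv (f := Φ) (x := x)
        exact DFunLike.congr_fun h8 v
      have h9 : ∀ v, fderiv ℝ (fun y => F (t, isoc_L.symm y)) x v =
          fderiv ℝ (fun y => F (t, y)) (isoc_L.symm x) (isoc_L.symm v) := by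
        intro v
        have h8 := isoc_L.symm.comp_right_fderiv (f := fun y => F (t, y)) (x := x)
        exact DFunLike.congr_fun h8 v
      intro r
      obtain ⟨u, hu⟩ := h6 r
      refine ⟨isoc_L u, ?_⟩
      simp only [h7, h9, isoc_L.symm_apply_apply]
      exact hu)
  refine ⟨fun q => isoc_L.symm (Θ (q.1, isoc_L q.2)), fun q => isoc_L.symm (Ξ (q.1, isoc_L q.2)),
    isoc_L.symm.contDiff.comp (hΘ.comp hpair'), isoc_L.symm.contDiff.comp (hΞ.comp hpair'),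
    ?_, ?_, ?_, ?_, ?_, ?_⟩
  · intro x
    simp only [h0, isoc_L.symm_apply_apply]
  · intro t x
    simp only [isoc_L.apply_symm_apply, h1, isoc_L.symm_apply_apply]
  · intro t x
    simp only [isoc_L.apply_symm_apply, h2, isoc_L.symm_apply_apply]
  · intro t x
    have h6 := h3 t (isoc_L x)
    simp only [isoc_L.symm_apply_apply] at h6
    exact h6
  · intro t x hx
    have h6 := h4 t (isoc_L x) (by rw [isoc_L.symm_apply_apply]; exact hx)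
    simp only [isoc_L.symm_apply_apply] at h6
    exact h6
  · intro t x
    have h6 := h5 isoc_g (fun y => by rw [isoc_g_apply, isoc_L.symm_apply_apply, hΦa])
      (fun t y => by
        simp only [isoc_g_apply, isoc_L.symm_apply_apply, hFa]) t (isoc_L x)
    rw [isoc_g_apply, isoc_g_apply, isoc_L.symm_apply_apply] at h6
    simp only [h6, isoc_L.symm_apply_apply]

/-- For real valued `F` the isotopy carries the region `0 ≤ F (0, ·)` to `0 ≤ F (1, ·)`. -/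
theorem isotopy_C3_real
    (Φ : C3 → ℂ) (F : ℝ × C3 → ℝ) (hΦ : ContDiff ℝ ∞ Φ) (hF : ContDiff ℝ ∞ F)
    (hΦa : ∀ x, Φ (act x) = Φ x) (hFa : ∀ t x, F (t, act x) = F (t, x))
    (bdd : ∃ R : ℝ, ∀ t ∈ Icc (0 : ℝ) 1, ∀ x, ‖Φ x‖ ≤ 1 → |F (t, x)| ≤ 1 → ‖x‖ ≤ R)
    (reg : ∀ t ∈ Icc (0 : ℝ) 1, ∀ x, Φ x = 0 → F (t, x) = 0 →
      Function.Surjective (fun v : C3 => (fderiv ℝ Φ x v, fderiv ℝ (fun y => F (t, y)) x v))) :
    ∃ Θ Ξ : ℝ × C3 → C3, ContDiff ℝ ∞ Θ ∧ ContDiff ℝ ∞ Ξ ∧ (∀ x, Θ (0, x) = x) ∧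
      (∀ t x, Ξ (t, Θ (t, x)) = x) ∧ (∀ t x, Θ (t, Ξ (t, x)) = x) ∧
      (∀ t x, Φ (Θ (t, x)) = Φ x) ∧
      (∀ t x, Φ x = 0 → (0 ≤ F (Real.smoothTransition t, Θ (t, x)) ↔ 0 ≤ F (0, x))) ∧
      ∀ t x, Θ (t, act x) = act (Θ (t, x)) := by
  obtain ⟨Θ, Ξ, hΘ, hΞ, h0, h1, h2, h3, h4, h5⟩ := isotopy_C3 Φ F hΦ hF hΦa hFa
    (by simpa only [Real.norm_eq_abs] using bdd) reg
  refine ⟨Θ, Ξ, hΘ, hΞ, h0, h1, h2, h3, ?_, h5⟩
  intro t x hx
  have hc : Continuous fun r : ℝ => F (Real.smoothTransition r, Θ (r, x)) :=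
    hF.continuous.comp (Real.smoothTransition.continuous.prodMk
      (hΘ.continuous.comp (continuous_id.prodMk continuous_const)))
  have e0 : F (Real.smoothTransition 0, Θ (0, x)) = F (0, x) := by
    rw [h0, Real.smoothTransition.zero]
  have hz : ∀ r, F (Real.smoothTransition r, Θ (r, x)) = 0 ↔ F (0, x) = 0 :=
    fun r => h4 r x hx
  constructor
  · intro ht
    by_contra hneg
    push Not at hneg
    obtain ⟨r, hr⟩ := mem_range_of_exists_le_of_exists_ge hc (c := 0)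
      ⟨0, by simp only [e0]; exact hneg.le⟩ ⟨t, ht⟩
    have h6 := (hz r).1 hr
    rw [h6] at hneg
    exact lt_irrefl _ hneg
  · intro ht
    by_contra hneg
    push Not at hneg
    obtain ⟨r, hr⟩ := mem_range_of_exists_le_of_exists_ge hc (c := 0)
      ⟨t, hneg.le⟩ ⟨0, by simp only [e0]; exact ht⟩
    have h6 := (hz t).2 ((hz r).1 hr)
    rw [h6] at hneg
    exact lt_irrefl _ hneg

end Pool.Agent.Tri
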