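import Mathlib
import Pool.Agent.H.MP_5efd29_gt.IsoC

open scoped ContDiff Topology
open Set

noncomputable section

namespace Pool.Agent.Tri

/-- The ambient space of the example. -/
abbrev C5 : Type := ℂ × ℂ × ℂ × ℂ × ℂ

/-- Invariant polynomials of the action of `μ₅`. -/
def JJ (x : C3) : C5 :=
  (x.1 ^ 5, x.2.1 ^ 5, x.1 * x.2.1 ^ 2, x.1 ^ 2 * (starRingEnd ℂ) x.2.1, x.2.2)

/-- `S³ × ℂ`. -/
def sph : Set C3 := {x | ‖x.1‖ ^ 2 + ‖x.2.1‖ ^ 2 = 1}

theorem lensa_prim : IsPrimitiveRoot zeta 5 := by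
  have h := Complex.isPrimitiveRoot_exp 5 (by norm_num)
  have h2 : zeta = Complex.exp (2 * Real.pi * Complex.I / (5 : ℕ)) := by
    unfold zeta
    norm_num
  rwa [h2]

theorem norm_zeta : ‖zeta‖ = 1 := by
  have h : zeta = Complex.exp (((2 * Real.pi / 5 : ℝ) : ℂ) * Complex.I) := by
    unfold zeta
    congr 1
    push_cast
    ring
  rw [h, Complex.norm_exp_ofReal_mul_I]

theorem zeta_pow_five : zeta ^ 5 = 1 := lensa_prim.pow_eq_one

theorem zeta_pow_eq_one_iff (k : ℕ) : zeta ^ k = 1 ↔ 5 ∣ k :=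
  lensa_prim.pow_eq_one_iff_dvd k

theorem lensa_ne : zeta ≠ 0 := by
  intro h
  have h1 := norm_zeta
  rw [h, norm_zero] at h1
  exact zero_ne_one h1

theorem act_iterate (k : ℕ) (x : C3) :
    act^[k] x = (zeta ^ k * x.1, zeta ^ (2 * k) * x.2.1, x.2.2) := by
  induction k with
  | zero => simp
  | succ k ih =>
    rw [Function.iterate_succ_apply', ih]
    unfold act
    refine Prod.ext ?_ (Prod.ext ?_ rfl)
    · change zeta * (zeta ^ k * x.1) = zeta ^ (k + 1) * x.1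
      ring
    · change zeta ^ 2 * (zeta ^ (2 * k) * x.2.1) = zeta ^ (2 * (k + 1)) * x.2.1
      ring

theorem act_five (x : C3) : act^[5] x = x := by
  rw [act_iterate]
  have h2 : zeta ^ (2 * 5) = 1 := by
    rw [mul_comm, pow_mul, zeta_pow_five, one_pow]
  rw [h2, zeta_pow_five, one_mul, one_mul]

theorem act_mem_sph {x : C3} : act x ∈ sph ↔ x ∈ sph := by
  unfold act sph
  rw [Set.mem_ofPred_eq, Set.mem_ofPred_eq]
  simp only [norm_mul, norm_pow, norm_zeta, one_pow, one_mul]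

theorem lensa_sph {x : C3} (hx : x ∈ sph) : x.1 ≠ 0 ∨ x.2.1 ≠ 0 := by
  by_contra h
  push Not at h
  unfold sph at hx
  rw [Set.mem_ofPred_eq, h.1, h.2] at hx
  norm_num at hx

theorem act_free {x : C3} (hx : x ∈ sph) {k : ℕ} (h : act^[k] x = x) : 5 ∣ k := by
  rw [act_iterate] at h
  have h1 : zeta ^ k * x.1 = x.1 := congrArg Prod.fst h
  have h2 : zeta ^ (2 * k) * x.2.1 = x.2.1 := congrArg (fun y => y.2.1) h
  rcases lensa_sph hx with h3 | h3
  · exact (zeta_pow_eq_one_iff k).1 (mul_right_cancel₀ h3 (h1.trans (one_mul _).symm))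
  · have h4 := (zeta_pow_eq_one_iff (2 * k)).1
      (mul_right_cancel₀ h3 (h2.trans (one_mul _).symm))
    omega

theorem lensa_conj : zeta * (starRingEnd ℂ) zeta = 1 := by
  rw [Complex.mul_conj, Complex.normSq_eq_norm_sq, norm_zeta]
  norm_num

theorem JJ_act (x : C3) : JJ (act x) = JJ x := by
  unfold JJ act
  refine Prod.ext ?_ (Prod.ext ?_ (Prod.ext ?_ (Prod.ext ?_ rfl)))
  · change (zeta * x.1) ^ 5 = x.1 ^ 5
    rw [mul_pow, zeta_pow_five, one_mul]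
  · change (zeta ^ 2 * x.2.1) ^ 5 = x.2.1 ^ 5
    rw [mul_pow, ← pow_mul, mul_comm 2 5, pow_mul, zeta_pow_five, one_pow, one_mul]
  · change zeta * x.1 * (zeta ^ 2 * x.2.1) ^ 2 = x.1 * x.2.1 ^ 2
    calc zeta * x.1 * (zeta ^ 2 * x.2.1) ^ 2 = zeta ^ 5 * (x.1 * x.2.1 ^ 2) := by ring
      _ = _ := by rw [zeta_pow_five, one_mul]
  · change (zeta * x.1) ^ 2 * (starRingEnd ℂ) (zeta ^ 2 * x.2.1) =
      x.1 ^ 2 * (starRingEnd ℂ) x.2.1
    rw [map_mul, map_pow]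
    calc (zeta * x.1) ^ 2 * ((starRingEnd ℂ) zeta ^ 2 * (starRingEnd ℂ) x.2.1)
        = (zeta * (starRingEnd ℂ) zeta) ^ 2 * (x.1 ^ 2 * (starRingEnd ℂ) x.2.1) := by ring
      _ = _ := by rw [lensa_conj, one_pow, one_mul]

theorem lensa_conj_smooth : ContDiff ℝ ∞ (fun z : ℂ => (starRingEnd ℂ) z) :=
  Complex.conjCLE.contDiff

theorem contDiff_JJ : ContDiff ℝ ∞ JJ := by
  have h1 : ContDiff ℝ ∞ (fun x : C3 => x.1) := contDiff_fst
  have h2 : ContDiff ℝ ∞ (fun x : C3 => x.2.1) := contDiff_fst.comp contDiff_snd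
  have h3 : ContDiff ℝ ∞ (fun x : C3 => x.2.2) := contDiff_snd.comp contDiff_snd
  have h4 : ContDiff ℝ ∞ (fun x : C3 => (starRingEnd ℂ) x.2.1) := lensa_conj_smooth.comp h2
  exact (h1.pow 5).prodMk ((h2.pow 5).prodMk ((h1.mul (h2.pow 2)).prodMk
    (((h1.pow 2).mul h4).prodMk h3)))

theorem contDiff_act : ContDiff ℝ ∞ act := by
  have h1 : ContDiff ℝ ∞ (fun x : C3 => x.1) := contDiff_fst
  have h2 : ContDiff ℝ ∞ (fun x : C3 => x.2.1) := contDiff_fst.comp contDiff_snd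
  have h3 : ContDiff ℝ ∞ (fun x : C3 => x.2.2) := contDiff_snd.comp contDiff_snd
  exact (contDiff_const.mul h1).prodMk ((contDiff_const.mul h2).prodMk h3)

theorem lensa_root {a b : ℂ} (ha : a ≠ 0) (h : b ^ 5 = a ^ 5) : ∃ k < 5, b = zeta ^ k * a := by
  have h1 : (b / a) ^ 5 = 1 := by
    rw [div_pow, h, div_self (pow_ne_zero 5 ha)]
  obtain ⟨k, hk, hk1⟩ := lensa_prim.eq_pow_of_pow_eq_one h1
  exact ⟨k, hk, by rw [hk1, div_mul_cancel₀ _ ha]⟩

/-- The fibres of `JJ` on `S³ × ℂ` are the orbits. -/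
theorem JJ_fibre {x y : C3} (hx : x ∈ sph) (hy : y ∈ sph) (h : JJ x = JJ y) :
    ∃ k < 5, y = act^[k] x := by
  have e1 : x.1 ^ 5 = y.1 ^ 5 := congrArg (fun a : C5 => a.1) h
  have e2 : x.2.1 ^ 5 = y.2.1 ^ 5 := congrArg (fun a : C5 => a.2.1) h
  have e4 : x.1 ^ 2 * (starRingEnd ℂ) x.2.1 = y.1 ^ 2 * (starRingEnd ℂ) y.2.1 :=
    congrArg (fun a : C5 => a.2.2.2.1) h
  have e5 : x.2.2 = y.2.2 := congrArg (fun a : C5 => a.2.2.2.2) h
  by_cases hz : x.1 = 0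
  · have hy1 : y.1 = 0 := by
      rw [hz, zero_pow (by norm_num)] at e1
      exact pow_eq_zero_iff (by norm_num) |>.1 e1.symm
    have hw : x.2.1 ≠ 0 := (lensa_sph hx).resolve_left fun h => h hz
    obtain ⟨j, hj, hj1⟩ := lensa_root hw e2.symm
    refine ⟨(3 * j) % 5, Nat.mod_lt _ (by norm_num), ?_⟩
    rw [act_iterate]
    refine Prod.ext ?_ (Prod.ext ?_ ?_)
    · change y.1 = zeta ^ ((3 * j) % 5) * x.1
      rw [hy1, hz, mul_zero]
    · change y.2.1 = zeta ^ (2 * ((3 * j) % 5)) * x.2.1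
      rw [hj1]
      congr 1
      have h6 : zeta ^ (2 * ((3 * j) % 5)) = zeta ^ (j % 5) := by
        rw [← Nat.mod_add_div (2 * ((3 * j) % 5)) 5, pow_add, pow_mul, zeta_pow_five, one_pow,
          mul_one]
        congr 1
        omega
      rw [h6, Nat.mod_eq_of_lt hj]
    · exact e5.symm
  · obtain ⟨k, hk, hk1⟩ := lensa_root hz e1.symm
    refine ⟨k, hk, ?_⟩
    rw [act_iterate]
    refine Prod.ext hk1 (Prod.ext ?_ e5.symm)
    change y.2.1 = zeta ^ (2 * k) * x.2.1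
    rw [hk1] at e4
    have h7 : (starRingEnd ℂ) x.2.1 = zeta ^ (2 * k) * (starRingEnd ℂ) y.2.1 := by
      have h8 : x.1 ^ 2 * (starRingEnd ℂ) x.2.1 =
          x.1 ^ 2 * (zeta ^ (2 * k) * (starRingEnd ℂ) y.2.1) := by
        rw [e4]
        ring
      exact mul_left_cancel₀ (pow_ne_zero 2 hz) h8
    have h9 : x.2.1 = (starRingEnd ℂ) zeta ^ (2 * k) * y.2.1 := by
      have h10 := congrArg (starRingEnd ℂ) h7
      rwa [map_mul, map_pow, Complex.conj_conj, Complex.conj_conj] at h10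
    rw [h9, ← mul_assoc, ← mul_pow, lensa_conj, one_pow, one_mul]

/-- Local fifth roots. -/
theorem lensa_local {c : ℂ} (hc : c ≠ 0) : ∃ (O : Set ℂ) (r : ℂ → ℂ) (V : Set ℂ), IsOpen O ∧
    IsOpen V ∧ c ∈ V ∧ ContDiffOn ℝ ∞ r O ∧ (∀ a, r a ≠ 0) ∧ ∀ z ∈ V, z ^ 5 ∈ O ∧ r (z ^ 5) = z := by
  have hdiv : Continuous fun a : ℂ => a / c ^ 5 := continuous_id.div_const _
  have hdiv1 : Continuous fun a : ℂ => a / c := continuous_id.div_const _
  have harg : ∀ᶠ u in 𝓝 (1 : ℂ), |u.arg| < Real.pi / 5 := by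
    have h1 : Filter.Tendsto (fun u : ℂ => |u.arg|) (𝓝 1) (𝓝 |(1 : ℂ).arg|) :=
      (Complex.continuousAt_arg Complex.one_mem_slitPlane).abs
    rw [Complex.arg_one, abs_zero] at h1
    exact h1.eventually (gt_mem_nhds (by positivity))
  have hslit : ∀ᶠ u in 𝓝 (1 : ℂ), u ^ 5 ∈ Complex.slitPlane := by
    have h1 : Filter.Tendsto (fun u : ℂ => u ^ 5) (𝓝 1) (𝓝 ((1 : ℂ) ^ 5)) :=
      (continuous_pow 5).tendsto 1
    rw [one_pow] at h1
    exact h1.eventually (Complex.isOpen_slitPlane.mem_nhds Complex.one_mem_slitPlane)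
  have hne : ∀ᶠ u in 𝓝 (1 : ℂ), u ≠ 0 := isOpen_ne.mem_nhds one_ne_zero
  have hT : Filter.Tendsto (fun a : ℂ => a / c) (𝓝 c) (𝓝 1) := by
    have h1 := hdiv1.tendsto c
    rwa [div_self hc] at h1
  obtain ⟨V, hV, hVo, hcV⟩ := eventually_nhds_iff.1 (hT.eventually (harg.and (hslit.and hne)))
  refine ⟨{a | a / c ^ 5 ∈ Complex.slitPlane},
    fun a => c * Complex.exp (Complex.log (a / c ^ 5) / 5), V,
    Complex.isOpen_slitPlane.preimage hdiv, hVo, hcV, ?_, ?_, ?_⟩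
  · intro a ha
    have h1 : ContDiffAt ℂ ∞ (fun a : ℂ => c * Complex.exp (Complex.log (a / c ^ 5) / 5)) a := by
      have h2 : ContDiffAt ℂ ∞ (fun a : ℂ => a / c ^ 5) a := contDiffAt_id.div_const _
      have h2' : ContDiffAt ℂ ∞ Complex.log (a / c ^ 5) := Complex.contDiffAt_log ha
      have h3 : ContDiffAt ℂ ∞ (fun a : ℂ => Complex.log (a / c ^ 5)) a :=
        ContDiffAt.comp (g := Complex.log) (f := fun a : ℂ => a / c ^ 5) a h2' h2
      exact contDiffAt_const.mul (h3.div_const 5).cexp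
    exact (h1.restrict_scalars ℝ).contDiffWithinAt
  · intro a
    exact mul_ne_zero hc (Complex.exp_ne_zero _)
  · intro z hz
    obtain ⟨h1, h2, h3⟩ := hV z hz
    rw [div_pow] at h2
    refine ⟨h2, ?_⟩
    have h4 : z ^ 5 / c ^ 5 = Complex.exp (5 * Complex.log (z / c)) := by
      rw [← div_pow, show (5 : ℂ) * Complex.log (z / c) = ((5 : ℕ) : ℂ) * Complex.log (z / c) by
        norm_num, Complex.exp_nat_mul, Complex.exp_log h3]
    have h5 : (5 * Complex.log (z / c)).im = 5 * (z / c).arg := by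
      rw [Complex.mul_im, Complex.log_im]
      norm_num
    have h6 := abs_lt.1 h1
    have hpi := Real.pi_pos
    change c * Complex.exp (Complex.log (z ^ 5 / c ^ 5) / 5) = z
    rw [h4, Complex.log_exp (by rw [h5]; linarith) (by rw [h5]; linarith),
      mul_div_cancel_left₀ _ (by norm_num), Complex.exp_log h3, mul_div_cancel₀ _ hc]

/-- Local smooth sections of `JJ`. -/
theorem JJ_section {x₀ : C3} (hx : x₀ ∈ sph) :
    ∃ (O : Set C5) (s : C5 → C3) (U : Set C3), IsOpen O ∧ IsOpen U ∧ x₀ ∈ U ∧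
      ContDiffOn ℝ ∞ s O ∧ ∀ x ∈ U, JJ x ∈ O ∧ s (JJ x) = x := by
  have p1 : ContDiff ℝ ∞ (fun a : C5 => a.1) := contDiff_fst
  have p2 : ContDiff ℝ ∞ (fun a : C5 => a.2.1) := contDiff_fst.comp contDiff_snd
  have p3 : ContDiff ℝ ∞ (fun a : C5 => a.2.2.1) :=
    contDiff_fst.comp (contDiff_snd.comp contDiff_snd)
  have p4 : ContDiff ℝ ∞ (fun a : C5 => a.2.2.2.1) :=
    contDiff_fst.comp (contDiff_snd.comp (contDiff_snd.comp contDiff_snd))
  have p5 : ContDiff ℝ ∞ (fun a : C5 => a.2.2.2.2) :=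
    contDiff_snd.comp (contDiff_snd.comp (contDiff_snd.comp contDiff_snd))
  rcases lensa_sph hx with hz | hw
  · obtain ⟨O, r, V, hO, hV, hcV, hr, hr0, hrV⟩ := lensa_local hz
    refine ⟨(fun a : C5 => a.1) ⁻¹' O,
      fun a => (r a.1, (starRingEnd ℂ) (a.2.2.2.1 * (r a.1 ^ 2)⁻¹), a.2.2.2.2),
      (fun x : C3 => x.1) ⁻¹' V, hO.preimage p1.continuous, hV.preimage continuous_fst, hcV,
      ?_, ?_⟩
    · have h1 : ContDiffOn ℝ ∞ (fun a : C5 => r a.1) ((fun a : C5 => a.1) ⁻¹' O) :=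
        hr.comp p1.contDiffOn fun a ha => ha
      have h2 : ContDiffOn ℝ ∞ (fun a : C5 => (r a.1 ^ 2)⁻¹) ((fun a : C5 => a.1) ⁻¹' O) :=
        (h1.pow 2).inv fun a _ => pow_ne_zero 2 (hr0 _)
      exact h1.prodMk ((lensa_conj_smooth.comp_contDiffOn (p4.contDiffOn.mul h2)).prodMk
        p5.contDiffOn)
    · intro x hxU
      obtain ⟨h1, h2⟩ := hrV x.1 hxU
      refine ⟨h1, ?_⟩
      have h3 : r (JJ x).1 = x.1 := h2
      refine Prod.ext h3 (Prod.ext ?_ rfl)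
      change (starRingEnd ℂ) (x.1 ^ 2 * (starRingEnd ℂ) x.2.1 * (r (JJ x).1 ^ 2)⁻¹) = x.2.1
      have hx1 : x.1 ≠ 0 := by
        rw [← h2]
        exact hr0 _
      rw [h3]
      have h4 : x.1 ^ 2 * (starRingEnd ℂ) x.2.1 * (x.1 ^ 2)⁻¹ = (starRingEnd ℂ) x.2.1 := by
        field_simp
      rw [h4, Complex.conj_conj]
  · obtain ⟨O, r, V, hO, hV, hcV, hr, hr0, hrV⟩ := lensa_local hw
    refine ⟨(fun a : C5 => a.2.1) ⁻¹' O,
      fun a => (a.2.2.1 * (r a.2.1 ^ 2)⁻¹, r a.2.1, a.2.2.2.2),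
      (fun x : C3 => x.2.1) ⁻¹' V, hO.preimage p2.continuous,
      hV.preimage (continuous_fst.comp continuous_snd), hcV, ?_, ?_⟩
    · have h1 : ContDiffOn ℝ ∞ (fun a : C5 => r a.2.1) ((fun a : C5 => a.2.1) ⁻¹' O) :=
        hr.comp p2.contDiffOn fun a ha => ha
      have h2 : ContDiffOn ℝ ∞ (fun a : C5 => (r a.2.1 ^ 2)⁻¹) ((fun a : C5 => a.2.1) ⁻¹' O) :=
        (h1.pow 2).inv fun a _ => pow_ne_zero 2 (hr0 _)
      exact (p3.contDiffOn.mul h2).prodMk (h1.prodMk p5.contDiffOn)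
    · intro x hxU
      obtain ⟨h1, h2⟩ := hrV x.2.1 hxU
      refine ⟨h1, ?_⟩
      have h3 : r (JJ x).2.1 = x.2.1 := h2
      refine Prod.ext ?_ (Prod.ext h3 rfl)
      change x.1 * x.2.1 ^ 2 * (r (JJ x).2.1 ^ 2)⁻¹ = x.1
      have hx1 : x.2.1 ≠ 0 := by
        rw [← h2]
        exact hr0 _
      rw [h3]
      field_simp

end Pool.Agent.Tri
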