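import Mathlib
import Pool.Agent.H.MP_5efd29_gt.Defs

open scoped ContDiff Topology
open Set

noncomputable section

namespace Pool.Agent.Tri

variable {E F G : Type*} [NormedAddCommGroup E] [NormedSpace ℝ E]
  [NormedAddCommGroup F] [NormedSpace ℝ F] [NormedAddCommGroup G] [NormedSpace ℝ G]

theorem smoothOnSet_of_contDiff {f : E → F} (hf : ContDiff ℝ ∞ f) (A : Set E) :
    SmoothOnSet f A :=
  fun x _ => ⟨univ, isOpen_univ, mem_univ x, f, hf.contDiffOn, fun _ _ => rfl⟩

theorem smoothOnSet_of_contDiffOn {f : E → F} {U A : Set E} (hU : IsOpen U)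
    (hf : ContDiffOn ℝ ∞ f U) (h : A ⊆ U) : SmoothOnSet f A :=
  fun _ hx => ⟨U, hU, h hx, f, hf, fun _ _ => rfl⟩

theorem SmoothOnSet.mono {f : E → F} {A B : Set E} (h : SmoothOnSet f B) (hAB : A ⊆ B) :
    SmoothOnSet f A := by
  intro x hx
  obtain ⟨U, hU, hxU, g, hg, hfg⟩ := h x (hAB hx)
  exact ⟨U, hU, hxU, g, hg, fun y hy => hfg y ⟨hAB hy.1, hy.2⟩⟩

theorem SmoothOnSet.congr {f g : E → F} {A : Set E} (h : SmoothOnSet f A)
    (hfg : ∀ x ∈ A, g x = f x) : SmoothOnSet g A := by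
  intro x hx
  obtain ⟨U, hU, hxU, k, hk, hfk⟩ := h x hx
  exact ⟨U, hU, hxU, k, hk, fun y hy => (hfg y hy.1).trans (hfk y hy)⟩

theorem SmoothOnSet.continuousOn {f : E → F} {A : Set E} (h : SmoothOnSet f A) :
    ContinuousOn f A := by
  intro x hx
  obtain ⟨U, hU, hxU, g, hg, hfg⟩ := h x hx
  have h1 : ContinuousWithinAt g A x :=
    ((hg.continuousOn.continuousAt (hU.mem_nhds hxU))).continuousWithinAt
  refine h1.congr_of_eventuallyEq ?_ (hfg x ⟨hx, hxU⟩)
  have : A ∩ U ∈ 𝓝[A] x := inter_mem_nhdsWithin A (hU.mem_nhds hxU)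
  filter_upwards [this] with y hy using hfg y hy

theorem SmoothOnSet.comp {g : F → G} {f : E → F} {A : Set E} {B : Set F}
    (hg : SmoothOnSet g B) (hf : SmoothOnSet f A) (h : MapsTo f A B) :
    SmoothOnSet (fun x => g (f x)) A := by
  intro x hx
  obtain ⟨U, hU, hxU, f1, hf1, hff⟩ := hf x hx
  obtain ⟨V, hV, hxV, g1, hg1, hgg⟩ := hg (f x) (h hx)
  refine ⟨U ∩ f1 ⁻¹' V, hf1.continuousOn.isOpen_inter_preimage hU hV,
    ⟨hxU, by rw [mem_preimage, ← hff x ⟨hx, hxU⟩]; exact hxV⟩, fun y => g1 (f1 y), ?_, ?_⟩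
  · exact hg1.comp (hf1.mono inter_subset_left) (fun y hy => hy.2)
  · intro y hy
    have e1 : f y = f1 y := hff y ⟨hy.1, hy.2.1⟩
    simp only
    rw [← e1]
    exact hgg _ ⟨h hy.1, by rw [e1]; exact hy.2.2⟩

theorem SmoothOnSet.prodMk {f : E → F} {g : E → G} {A : Set E}
    (hf : SmoothOnSet f A) (hg : SmoothOnSet g A) : SmoothOnSet (fun x => (f x, g x)) A := by
  intro x hx
  obtain ⟨U, hU, hxU, f1, hf1, hff⟩ := hf x hx
  obtain ⟨V, hV, hxV, g1, hg1, hgg⟩ := hg x hx
  refine ⟨U ∩ V, hU.inter hV, ⟨hxU, hxV⟩, fun y => (f1 y, g1 y),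
    (hf1.mono inter_subset_left).prodMk (hg1.mono inter_subset_right), ?_⟩
  intro y hy
  simp only
  rw [hff y ⟨hy.1, hy.2.1⟩, hgg y ⟨hy.1, hy.2.2⟩]

theorem DiffeoPair.symm {f : E → F} {g : F → E} {A : Set E} {B : Set F}
    (h : DiffeoPair f g A B) : DiffeoPair g f B A :=
  ⟨h.2.1, h.1, h.2.2.2.1, h.2.2.1, h.2.2.2.2.2, h.2.2.2.2.1⟩

theorem DiffeoPair.trans {f : E → F} {g : F → E} {f' : F → G} {g' : G → F} {A : Set E}
    {B : Set F} {C : Set G} (h : DiffeoPair f g A B) (h' : DiffeoPair f' g' B C) :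
    DiffeoPair (fun x => f' (f x)) (fun x => g (g' x)) A C := by
  obtain ⟨h1, h2, h3, h4, h5, h6⟩ := h
  obtain ⟨k1, k2, k3, k4, k5, k6⟩ := h'
  refine ⟨k1.comp h1 h3, h2.comp k2 k4, fun x hx => k3 (h3 hx), fun x hx => h4 (k4 hx), ?_, ?_⟩
  · intro x hx
    simp only
    rw [k5 _ (h3 hx), h5 x hx]
  · intro y hy
    simp only
    rw [h6 _ (k4 hy), k6 y hy]

theorem Diffeomorphic.trans {A : Set E} {B : Set F} {C : Set G}
    (h : Diffeomorphic A B) (h' : Diffeomorphic B C) : Diffeomorphic A C := by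
  obtain ⟨f, g, hfg⟩ := h
  obtain ⟨f', g', hfg'⟩ := h'
  exact ⟨_, _, hfg.trans hfg'⟩

/-- Restriction of a diffeomorphism to subsets which correspond to each other. -/
theorem DiffeoPair.restrict {f : E → F} {g : F → E} {A A' : Set E} {B B' : Set F}
    (h : DiffeoPair f g A B) (hA : A' ⊆ A) (hB : B' ⊆ B) (hf : MapsTo f A' B')
    (hg : MapsTo g B' A') : DiffeoPair f g A' B' :=
  ⟨h.1.mono hA, h.2.1.mono hB, hf, hg, fun x hx => h.2.2.2.2.1 x (hA hx),
    fun y hy => h.2.2.2.2.2 y (hB hy)⟩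

/-- Push a submersion forward along a diffeomorphism of `X`. -/
theorem SubmersionAt.map {X : Set E} {f : E → G} {x : E} (h : SubmersionAt X f x) (hx : x ∈ X)
    {φ ψ : E → E} (hφ : DiffeoPair φ ψ X X) :
    SubmersionAt X (fun y => f (ψ y)) (φ x) := by
  obtain ⟨s, hs, hs0, hsX⟩ := h
  obtain ⟨h1, _, h3, _, h5, _⟩ := hφ
  obtain ⟨U, hU, hxU, g, hg, hφg⟩ := h1 x hx
  have hsU : ∀ᶠ v in 𝓝 (0 : G), s v ∈ U :=
    hs.continuousAt (by rw [hs0]; exact hU.mem_nhds hxU)
  refine ⟨fun v => φ (s v), ?_, by simp only [hs0], ?_⟩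
  · have hg2 : ContDiffAt ℝ ∞ g (s 0) := by
      rw [hs0]; exact hg.contDiffAt (hU.mem_nhds hxU)
    refine (hg2.comp (0 : G) hs).congr_of_eventuallyEq ?_
    filter_upwards [hsU, hsX] with v hv1 hv2
    exact hφg _ ⟨hv2.1, hv1⟩
  · filter_upwards [hsX] with v hv
    refine ⟨h3 hv.1, ?_⟩
    rw [h5 _ hv.1, h5 x hx]
    exact hv.2

lemma sma_ends_subset : cylEnds ∪ cylSide ⊆ cyl := by
  rintro ⟨z, t⟩ (⟨h1, h2⟩ | ⟨h1, h2⟩)
  · refine ⟨h1, ?_⟩
    simp only [mem_insert_iff, mem_singleton_iff] at h2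
    rcases h2 with h2 | h2 <;> rw [h2] <;> constructor <;> norm_num
  · exact ⟨Metric.sphere_subset_closedBall h1, h2⟩

/-- Handlebodies are preserved by injective continuous maps. -/
theorem Handlebody3.map {α β : Type*} [TopologicalSpace α] [TopologicalSpace β] {g : ℕ}
    {H S : Set α} (h : Handlebody3 g H S) (φ : α → β) (hc : ContinuousOn φ H)
    (hi : InjOn φ H) : S ⊆ H ∧ Handlebody3 g (φ '' H) (φ '' S) := by
  induction h with
  | ball e he hie =>
    refine ⟨image_mono sma_ends_subset, ?_⟩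
    rw [← image_comp, ← image_comp]
    exact Handlebody3.ball (φ ∘ e) (hc.comp he (mapsTo_image e cyl))
      (hi.comp hie (mapsTo_image e cyl))
  | @sum g₁ g₂ A S B S' e he hie hA hB hAB hS ihA ihB =>
    obtain ⟨sA, kA⟩ := ihA (hc.mono subset_union_left) (hi.mono subset_union_left)
    obtain ⟨sB, kB⟩ := ihB (hc.mono subset_union_right) (hi.mono subset_union_right)
    have hD : e '' Metric.closedBall 0 1 ⊆ A ∩ B := hAB.symm.subset
    have hDA : MapsTo e (Metric.closedBall 0 1) (A ∪ B) :=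
      fun x hx => Or.inl (hD (mem_image_of_mem e hx)).1
    have hSS : S ∪ S' ⊆ A ∪ B := union_subset_union sA sB
    have hball : e '' Metric.ball 0 1 ⊆ S ∪ S' :=
      (image_mono Metric.ball_subset_closedBall).trans
        (hS.trans (inter_subset_left.trans subset_union_left))
    refine ⟨sdiff_subset.trans hSS, ?_⟩
    have e1 : φ '' ((S ∪ S') \ e '' Metric.ball 0 1) =
        (φ '' S ∪ φ '' S') \ (φ ∘ e) '' Metric.ball 0 1 := by
      rw [image_comp, ← image_union]
      exact (hi.mono hSS).image_sdiff_subset hball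
    rw [e1, image_union]
    refine Handlebody3.sum (φ ∘ e) (hc.comp he hDA) (hi.comp hie hDA) kA kB ?_ ?_
    · rw [image_comp, ← hAB]
      exact (hi.image_inter subset_union_left subset_union_right).symm
    · rw [image_comp]
      exact subset_inter (image_mono (hS.trans inter_subset_left))
        (image_mono (hS.trans inter_subset_right))
  | @handle g A S e he hie hA hAe hS ihA =>
    obtain ⟨sA, kA⟩ := ihA (hc.mono subset_union_left) (hi.mono subset_union_left)
    have hcm : MapsTo e cyl (A ∪ e '' cyl) := fun x hx => Or.inr (mem_image_of_mem e hx)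
    have hends : cylEndsInt ⊆ cylEnds := by
      rintro ⟨z, t⟩ ⟨h1, h2⟩
      exact ⟨Metric.ball_subset_closedBall h1, h2⟩
    have hside : cylSide ⊆ cyl := subset_union_right.trans sma_ends_subset
    have hint : e '' cylEndsInt ⊆ S := (image_mono hends).trans hS
    refine ⟨union_subset (sdiff_subset.trans (sA.trans subset_union_left))
      ((image_mono hside).trans subset_union_right), ?_⟩
    have e1 : φ '' ((S \ e '' cylEndsInt) ∪ e '' cylSide) =
        (φ '' S \ (φ ∘ e) '' cylEndsInt) ∪ (φ ∘ e) '' cylSide := by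
      rw [image_comp, image_comp, image_union]
      congr 1
      exact (hi.mono (sA.trans subset_union_left)).image_sdiff_subset hint
    rw [e1, image_union, ← image_comp]
    refine Handlebody3.handle (φ ∘ e) (hc.comp he hcm) (hi.comp hie hcm) kA ?_ ?_
    · rw [image_comp, image_comp, ← hAe]
      exact (hi.image_inter subset_union_left subset_union_right).symm
    · rw [image_comp]
      exact image_mono hS

/-- Image of a trisection under a diffeomorphism. -/
theorem IsTrisection.map {X : Set E} {T : Fin 3 → Set E} {g : ℕ} {k : Fin 3 → ℕ}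
    (h : IsTrisection X T g k) {φ ψ : E → E} (hφ : DiffeoPair φ ψ X X) :
    IsTrisection X (fun i => φ '' T i) g k := by
  obtain ⟨⟨G, hG, hT, h0, hw, hd⟩, hh⟩ := h
  have hφ' := hφ
  obtain ⟨d1, d2, d3, d4, d5, d6⟩ := hφ'
  have hTX : ∀ i, T i ⊆ X := by
    intro i x hx
    rw [hT] at hx
    exact hx.1
  have hinj : InjOn φ X := by
    intro x hx y hy hxy
    rw [← d5 x hx, ← d5 y hy, hxy]
  constructor
  · refine ⟨fun x => G (ψ x), hG.comp d2 d4, ?_, ?_, ?_, ?_⟩
    · intro i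
      simp only
      rw [hT]
      ext y
      constructor
      · rintro ⟨x, ⟨hx, hxG⟩, rfl⟩
        refine ⟨d3 hx, ?_⟩
        rw [d5 x hx]
        exact hxG
      · rintro ⟨hy, hyG⟩
        exact ⟨ψ y, ⟨d4 hy, hyG⟩, d6 y hy⟩
    · intro x hx hx0
      have := (h0 (ψ x) (d4 hx) hx0).map (d4 hx) hφ
      rwa [d6 x hx] at this
    · intro i x hx hxw
      have := (hw i (ψ x) (d4 hx) hxw).map (d4 hx) hφ
      rwa [d6 x hx] at this
    · intro i
      obtain ⟨ε₀, hε₀, hε⟩ := hd i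
      refine ⟨ε₀, hε₀, fun ε h1 h2 => Diffeomorphic.trans ?_ (hε ε h1 h2)⟩
      refine ⟨ψ, φ, hφ.symm.restrict (fun x hx => hx.1) (fun x hx => hx.1) ?_ ?_⟩
      · intro x hx
        exact ⟨d4 hx.1, hx.2⟩
      · intro x hx
        refine ⟨d3 hx.1, ?_⟩
        simp only
        rw [d5 x hx.1]
        exact hx.2
  · intro i j hij
    have hsub : T i ∩ T j ⊆ X := inter_subset_left.trans (hTX i)
    obtain ⟨_, hk⟩ := (hh i j hij).map φ (d1.continuousOn.mono hsub) (hinj.mono hsub)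
    have e1 : φ '' (T i ∩ T j) = φ '' T i ∩ φ '' T j := hinj.image_inter (hTX i) (hTX j)
    have e2 : φ '' (⋂ l, T l) = ⋂ l, φ '' T l :=
      (hinj.mono (iUnion_subset hTX)).image_iInter_eq
    rw [e1, e2] at hk
    exact hk

end Pool.Agent.Tri
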