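import Mathlib
import Pool.Agent.H.MP_5efd29_gt.LensA
import Pool.Agent.H.MP_5efd29_gt.SmA

open scoped ContDiff Topology
open Set

noncomputable section

namespace Pool.Agent.Tri

/-- `A` is a subset of `S³ × ℂ` invariant under the action. -/
def Inv (A : Set C3) : Prop := A ⊆ sph ∧ ∀ x ∈ A, act x ∈ A

theorem Inv.iterate {A : Set C3} (h : Inv A) {x : C3} (hx : x ∈ A) (k : ℕ) :
    act^[k] x ∈ A := by
  induction k with
  | zero => exact hx
  | succ k ih =>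
    rw [Function.iterate_succ_apply']
    exact h.2 _ ih

theorem lensb_JJ_iterate (x : C3) (k : ℕ) : JJ (act^[k] x) = JJ x := by
  induction k with
  | zero => rfl
  | succ k ih => rw [Function.iterate_succ_apply', JJ_act, ih]

theorem lensb_isClosed_sph : IsClosed sph := by
  have h : Continuous (fun x : C3 => ‖x.1‖ ^ 2 + ‖x.2.1‖ ^ 2) := by fun_prop
  exact isClosed_eq h continuous_const

theorem lensb_norm_le {x : C3} (hx : x ∈ sph) : ‖x‖ ≤ 1 + ‖JJ x‖ := by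
  have h0 : ‖x.1‖ ^ 2 + ‖x.2.1‖ ^ 2 = 1 := hx
  have hJ : (0 : ℝ) ≤ ‖JJ x‖ := norm_nonneg _
  have h1 : ‖x.1‖ ≤ 1 := by
    by_contra h
    push Not at h
    nlinarith [norm_nonneg x.1, norm_nonneg x.2.1, sq_nonneg ‖x.2.1‖]
  have h2 : ‖x.2.1‖ ≤ 1 := by
    by_contra h
    push Not at h
    nlinarith [norm_nonneg x.1, norm_nonneg x.2.1, sq_nonneg ‖x.1‖]
  have h3 : ‖x.2.2‖ ≤ ‖JJ x‖ := by
    have e1 : x.2.2 = (JJ x).2.2.2.2 := rfl
    rw [e1]
    exact (norm_snd_le _).trans ((norm_snd_le _).trans ((norm_snd_le _).trans (norm_snd_le _)))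
  rw [Prod.norm_def, Prod.norm_def]
  exact max_le (by linarith) (max_le (by linarith) (by linarith))

/-- Points of the image near `JJ x₀` have representatives near `x₀`. -/
theorem JJ_proper {A : Set C3} (hA : Inv A) {x₀ : C3} (hx : x₀ ∈ A) {U : Set C3}
    (hU : U ∈ 𝓝 x₀) : ∃ O ∈ 𝓝 (JJ x₀), ∀ a ∈ (JJ '' A) ∩ O, ∃ x ∈ A ∩ U, JJ x = a := by
  by_contra hcon
  push Not at hcon
  have h1 : ∀ n : ℕ, ∃ x ∈ A, JJ x ∈ Metric.ball (JJ x₀) (1 / ((n : ℝ) + 1)) ∧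
      ∀ y ∈ A ∩ U, JJ y ≠ JJ x := by
    intro n
    obtain ⟨a, ⟨⟨x, hxA, rfl⟩, ha⟩, hno⟩ := hcon (Metric.ball (JJ x₀) (1 / ((n : ℝ) + 1)))
      (Metric.ball_mem_nhds _ (by positivity))
    exact ⟨x, hxA, ha, hno⟩
  choose x hxA hxb hxn using h1
  have hbd : ∀ n, x n ∈ Metric.closedBall (0 : C3) (1 + (‖JJ x₀‖ + 1)) := by
    intro n
    rw [mem_closedBall_zero_iff]
    have h2 := lensb_norm_le (hA.1 (hxA n))
    have h3 : dist (JJ (x n)) (JJ x₀) < 1 / ((n : ℝ) + 1) := hxb n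
    have h4 : 1 / ((n : ℝ) + 1) ≤ 1 := by
      rw [div_le_one (by positivity)]
      have : (0 : ℝ) ≤ n := Nat.cast_nonneg n
      linarith
    rw [dist_eq_norm] at h3
    have h5 : ‖JJ (x n)‖ ≤ ‖JJ x₀‖ + ‖JJ (x n) - JJ x₀‖ := by
      have := norm_add_le (JJ x₀) (JJ (x n) - JJ x₀)
      rwa [add_sub_cancel] at this
    linarith
  obtain ⟨y, -, φ, hφ, hlim⟩ := tendsto_subseq_of_bounded Metric.isBounded_closedBall hbd
  have hy : y ∈ sph := lensb_isClosed_sph.mem_of_tendsto hlim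
    (Filter.Eventually.of_forall fun n => hA.1 (hxA _))
  have hJx : Filter.Tendsto (fun n => JJ (x n)) Filter.atTop (𝓝 (JJ x₀)) := by
    rw [tendsto_iff_dist_tendsto_zero]
    exact squeeze_zero (fun _ => dist_nonneg) (fun n => (hxb n).le)
      tendsto_one_div_add_atTop_nhds_zero_nat
  have hJy : JJ y = JJ x₀ := by
    have h6 : Filter.Tendsto (fun n => JJ (x (φ n))) Filter.atTop (𝓝 (JJ y)) :=
      (contDiff_JJ.continuous.tendsto y).comp hlim
    exact tendsto_nhds_unique h6 (hJx.comp hφ.tendsto_atTop)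
  obtain ⟨k, -, hk⟩ := JJ_fibre hy (hA.1 hx) hJy
  have h7 : Filter.Tendsto (fun n => act^[k] (x (φ n))) Filter.atTop (𝓝 x₀) := by
    rw [hk]
    exact ((contDiff_act.continuous.iterate k).tendsto y).comp hlim
  obtain ⟨n, hn⟩ := (h7.eventually hU).exists
  exact hxn (φ n) _ ⟨hA.iterate (hxA (φ n)) k, hn⟩ (lensb_JJ_iterate _ k)

/-- Invariance along orbits. -/
theorem lensb_inv_iterate {A : Set C3} (hA : Inv A) {F : Type*} (f : C3 → F)
    (hf : ∀ x ∈ A, f (act x) = f x) {x : C3} (hx : x ∈ A) (k : ℕ) : f (act^[k] x) = f x := by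
  induction k with
  | zero => rfl
  | succ k ih => rw [Function.iterate_succ_apply', hf _ (hA.iterate hx k), ih]

/-- Invariant functions descend. -/
theorem exists_descend {A : Set C3} (hA : Inv A) {F : Type*} (f : C3 → F)
    (hf : ∀ x ∈ A, f (act x) = f x) : ∃ g : C5 → F, ∀ x ∈ A, g (JJ x) = f x := by
  refine ⟨fun a => f (Function.invFunOn JJ A a), fun x hx => ?_⟩
  have h1 : ∃ y ∈ A, JJ y = JJ x := ⟨x, hx, rfl⟩
  have h2 := Function.invFunOn_mem h1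
  have h3 := Function.invFunOn_eq h1
  obtain ⟨k, -, hk⟩ := JJ_fibre (hA.1 h2) (hA.1 hx) h3
  show f (Function.invFunOn JJ A (JJ x)) = f x
  have h4 := lensb_inv_iterate hA f hf h2 k
  rw [← hk] at h4
  exact h4.symm

/-- A function on the image is continuous if its pull back is. -/
theorem continuousOn_descend {A : Set C3} (hA : Inv A) {F : Type*} [TopologicalSpace F]
    (g : C5 → F) (hg : ContinuousOn (fun x => g (JJ x)) A) : ContinuousOn g (JJ '' A) := by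
  rintro _ ⟨x₀, hx₀, rfl⟩
  intro W hW
  have h1 := hg x₀ hx₀ hW
  rw [Filter.mem_map, mem_nhdsWithin_iff_exists_mem_nhds_inter] at h1
  obtain ⟨U, hU, hUW⟩ := h1
  obtain ⟨O, hO, hOa⟩ := JJ_proper hA hx₀ hU
  rw [Filter.mem_map, mem_nhdsWithin_iff_exists_mem_nhds_inter]
  refine ⟨O, hO, ?_⟩
  rintro a ⟨haO, haA⟩
  obtain ⟨x, ⟨hxA, hxU⟩, rfl⟩ := hOa a ⟨haA, haO⟩
  exact hUW ⟨hxU, hxA⟩

/-- A function on the image is smooth if its pull back is. -/
theorem smoothOnSet_descend {A : Set C3} (hA : Inv A) {F : Type*} [NormedAddCommGroup F]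
    [NormedSpace ℝ F] (g : C5 → F) (hg : SmoothOnSet (fun x => g (JJ x)) A) :
    SmoothOnSet g (JJ '' A) := by
  rintro _ ⟨x₀, hx₀, rfl⟩
  obtain ⟨U1, hU1, hxU1, h, hh, hgh⟩ := hg x₀ hx₀
  obtain ⟨O, s, U2, hO, hU2, hxU2, hs, hsO⟩ := JJ_section (hA.1 hx₀)
  obtain ⟨O', hO', hOa⟩ := JJ_proper hA hx₀
    (Filter.inter_mem (hU1.mem_nhds hxU1) (hU2.mem_nhds hxU2))
  obtain ⟨O1, hO1s, hO1, hxO1⟩ := mem_nhds_iff.1 hO'
  refine ⟨O1 ∩ (O ∩ s ⁻¹' U1), hO1.inter (hs.continuousOn.isOpen_inter_preimage hO hU1),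
    ⟨hxO1, (hsO x₀ hxU2).1, ?_⟩, fun a => h (s a), ?_, ?_⟩
  · show s (JJ x₀) ∈ U1
    rw [(hsO x₀ hxU2).2]
    exact hxU1
  · exact hh.comp (hs.mono fun a ha => ha.2.1) fun a ha => ha.2.2
  · rintro a ⟨haA, haO1, haO, has⟩
    obtain ⟨x, ⟨hxA, hxU1', hxU2'⟩, rfl⟩ := hOa a ⟨haA, hO1s haO1⟩
    show g (JJ x) = h (s (JJ x))
    rw [(hsO x hxU2').2]
    exact hgh x ⟨hxA, hxU1'⟩

/-- Diffeomorphisms which are equivariant up to the automorphism `x ↦ x ^ e` of `μ₅`. -/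
def EqDiffeo (e : ℕ) (A B : Set C3) : Prop :=
  ∃ f g : C3 → C3, DiffeoPair f g A B ∧ ∀ x ∈ A, f (act x) = act^[e] (f x)

theorem lensb_equiv_iterate {e : ℕ} {A : Set C3} (hA : Inv A) {f : C3 → C3}
    (hf : ∀ x ∈ A, f (act x) = act^[e] (f x)) {x : C3} (hx : x ∈ A) (k : ℕ) :
    f (act^[k] x) = act^[e * k] (f x) := by
  induction k with
  | zero => rfl
  | succ k ih =>
    rw [Function.iterate_succ_apply', hf _ (hA.iterate hx k), ih, ← Function.iterate_add_apply,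
      mul_add, mul_one, add_comm]

theorem EqDiffeo.trans {e e' : ℕ} {A B C : Set C3} (hB : Inv B)
    (h : EqDiffeo e A B) (h' : EqDiffeo e' B C) : EqDiffeo (e * e') A C := by
  obtain ⟨f, g, hp, hf⟩ := h
  obtain ⟨f', g', hp', hf'⟩ := h'
  refine ⟨_, _, hp.trans hp', fun x hx => ?_⟩
  show f' (f (act x)) = act^[e * e'] (f' (f x))
  rw [hf x hx, lensb_equiv_iterate hB hf' (hp.2.2.1 hx) e, mul_comm]

theorem lensb_act_mod {n : ℕ} (hn : n % 5 = 1) (x : C3) : act^[n] x = act x := by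
  have h1 : n = 1 + 5 * (n / 5) := by omega
  have h2 : act^[5] = id := funext act_five
  rw [h1, Function.iterate_add_apply, Function.iterate_mul, h2, Function.iterate_id]
  rfl

theorem EqDiffeo.descend {e : ℕ} (he : Nat.Coprime e 5) {A B : Set C3} (hA : Inv A) (hB : Inv B)
    (h : EqDiffeo e A B) : Diffeomorphic (JJ '' A) (JJ '' B) := by
  obtain ⟨f, g, hp, hf⟩ := h
  obtain ⟨hfs, hgs, hfm, hgm, hgf, hfg⟩ := hp
  obtain ⟨k, hk⟩ := Nat.exists_mul_mod_eq_one_of_coprime he (by norm_num)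
  have hfi : ∀ x ∈ A, (fun x => JJ (f x)) (act x) = (fun x => JJ (f x)) x := by
    intro x hx
    show JJ (f (act x)) = JJ (f x)
    rw [hf x hx, lensb_JJ_iterate]
  have hgi : ∀ y ∈ B, (fun y => JJ (g y)) (act y) = (fun y => JJ (g y)) y := by
    intro y hy
    show JJ (g (act y)) = JJ (g y)
    have h1 : f (act^[k] (g y)) = act y := by
      rw [lensb_equiv_iterate hA hf (hgm hy) k, hfg y hy, lensb_act_mod hk.2]
    rw [← h1, hgf _ (hA.iterate (hgm hy) k), lensb_JJ_iterate]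
  obtain ⟨F, hF⟩ := exists_descend hA (fun x => JJ (f x)) hfi
  obtain ⟨G, hG⟩ := exists_descend hB (fun y => JJ (g y)) hgi
  refine ⟨F, G, ?_, ?_, ?_, ?_, ?_, ?_⟩
  · apply smoothOnSet_descend hA
    apply SmoothOnSet.congr _ hF
    exact (smoothOnSet_of_contDiff contDiff_JJ B).comp hfs hfm
  · apply smoothOnSet_descend hB
    apply SmoothOnSet.congr _ hG
    exact (smoothOnSet_of_contDiff contDiff_JJ A).comp hgs hgm
  · rintro _ ⟨x, hx, rfl⟩
    rw [hF x hx]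
    exact ⟨f x, hfm hx, rfl⟩
  · rintro _ ⟨y, hy, rfl⟩
    rw [hG y hy]
    exact ⟨g y, hgm hy, rfl⟩
  · rintro _ ⟨x, hx, rfl⟩
    rw [hF x hx, hG (f x) (hfm hx), hgf x hx]
  · rintro _ ⟨y, hy, rfl⟩
    rw [hG y hy, hF (g y) (hgm hy), hfg y hy]

end Pool.Agent.Tri
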