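import Mathlib
import Pool.Agent.H.MP_5efd29_gt.LensB

open scoped ContDiff Topology
open Set

noncomputable section

namespace Pool.Agent.Tri

/-! ### One-variable functions -/

/-- Smooth step. -/
def SS (t : ℝ) : ℝ := Real.smoothTransition t

/-- Cutoff: `1` for `|h| ≤ 1/2`, `0` for `h² ≥ 1/2`. -/
def cc (h : ℝ) : ℝ := SS (2 - 4 * h ^ 2)

/-- Cutoff: `1` for `128 h² ≤ 1`, `0` for `|h| ≥ 1/8`. -/
def eta (h : ℝ) : ℝ := SS (2 - 128 * h ^ 2)

/-- Profile of the bands. -/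
def Lam (v : ℝ) : ℝ := 1 / 8 * SS (1 - 1000 * v)

/-- Profile of the ball. -/
def bt (u : ℝ) : ℝ := 1 / 16 * SS (1 - 100 * u)

/-! ### Functions on `ℂ²` -/

/-- The height `|w|² - |z|²`. -/
def hgt (m : ℂ × ℂ) : ℝ := Complex.normSq m.2 - Complex.normSq m.1

def mx (h : ℝ) : ℝ := 1 / (Real.sqrt ((1 - h) / 2) * ((1 + h) / 2))

def my (h : ℝ) : ℝ := 1 / (((1 - h) / 2) * Real.sqrt ((1 + h) / 2))

/-- On the 3-sphere: the cosine of the phase `x` of `z w²`. -/
def Cx (m : ℂ × ℂ) : ℝ := (m.1 * m.2 ^ 2).re * mx (hgt m)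

def Sx (m : ℂ × ℂ) : ℝ := (m.1 * m.2 ^ 2).im * mx (hgt m)

/-- On the 3-sphere: the cosine of the phase `y` of `z² conj w`. -/
def Cy (m : ℂ × ℂ) : ℝ := (m.1 ^ 2 * (starRingEnd ℂ) m.2).re * my (hgt m)

def Sy (m : ℂ × ℂ) : ℝ := (m.1 ^ 2 * (starRingEnd ℂ) m.2).im * my (hgt m)

/-- `1 - cos` of the three linear forms `y`, `x + y`, `x` of the phases. -/
def vv (i : Fin 3) (m : ℂ × ℂ) : ℝ := ![1 - Cy m, 1 - (Cx m * Cy m - Sx m * Sy m), 1 - Cx m] i

/-- `2 - cos x - cos y`. -/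
def uu (m : ℂ × ℂ) : ℝ := 2 - Cx m - Cy m

/-- The radius function: `X = {|ξ|² = rho (z, w)}`. -/
def rho (m : ℂ × ℂ) : ℝ := hgt m ^ 2 + 1 / 100 - cc (hgt m) * bt (uu m)

/-- The three erasing functions. -/
def lam (i : Fin 3) (m : ℂ × ℂ) : ℝ := eta (hgt m) * Lam (vv i m)

/-- The section defining the core. -/
def pp (m : ℂ × ℂ) : ℂ := ∑ i, (lam i m : ℂ) * dir i

/-- The first two coordinates. -/
def pr (x : C3) : ℂ × ℂ := (x.1, x.2.1)

/-! ### The manifolds upstairs -/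

/-- The equations of the five-fold covering of `X`. -/
def PhiX (x : C3) : ℂ :=
  ⟨Complex.normSq x.1 + Complex.normSq x.2.1 - 1, Complex.normSq x.2.2 - rho (pr x)⟩

/-- The equations of `S³ × ℝ`. -/
def PhiM (x : C3) : ℂ := ⟨Complex.normSq x.1 + Complex.normSq x.2.1 - 1, x.2.2.im⟩

/-- The five-fold covering of `X`. -/
def Xt : Set C3 := {x | PhiX x = 0}

/-- The map defining the trisection upstairs. -/
def GG (x : C3) : ℂ := x.2.2 - pp (pr x)

/-- The 4-manifold: the spun lens space. -/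
def XX : Set C5 := JJ '' Xt

/-- The pieces of the first trisection. -/
def T1 (i : Fin 3) : Set C5 := JJ '' {x ∈ Xt | GG x ∈ sector i}

/-! ### Angular coordinates on the 3-sphere -/

/-- The point of height `h` and phases `α`, `β`. -/
def ang (h α β : ℝ) : ℂ × ℂ :=
  ((Real.sqrt ((1 - h) / 2) : ℂ) * Complex.exp (α * Complex.I),
    (Real.sqrt ((1 + h) / 2) : ℂ) * Complex.exp (β * Complex.I))

/-- The same point, with `x = α + 2β` and `y = 2α - β` as coordinates. -/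
def angxy (h x y : ℝ) : ℂ × ℂ := ang h ((x + 2 * y) / 5) ((2 * x - y) / 5)

/-- The three linear forms. -/
def ll (i : Fin 3) (x y : ℝ) : ℝ := ![y, x + y, x] i

end Pool.Agent.Tri
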