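import Mathlib
import Pool.Agent.H.MP_5efd29_gt.Setup

open scoped ContDiff Topology
open Set

noncomputable section

namespace Pool.Agent.Tri

/-! ### The smooth step -/

theorem contDiff_SS : ContDiff ℝ ∞ SS := by
  have h : SS = Real.smoothTransition := rfl
  rw [h]
  exact Real.smoothTransition.contDiff

theorem SS_nonneg (t : ℝ) : 0 ≤ SS t := Real.smoothTransition.nonneg t

theorem SS_le_one (t : ℝ) : SS t ≤ 1 := Real.smoothTransition.le_one t

theorem SS_of_nonpos {t : ℝ} (h : t ≤ 0) : SS t = 0 := Real.smoothTransition.zero_of_nonpos h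

theorem SS_of_one_le {t : ℝ} (h : 1 ≤ t) : SS t = 1 := Real.smoothTransition.one_of_one_le h

theorem funa_SS (t : ℝ) :
    SS t = expNegInvGlue t / (expNegInvGlue t + expNegInvGlue (1 - t)) := rfl

theorem SS_half : SS (1 / 2) = 1 / 2 := by
  rw [funa_SS]
  have h : (0 : ℝ) < expNegInvGlue (1 / 2) := expNegInvGlue.pos_of_pos (by norm_num)
  have e : (1 : ℝ) - 1 / 2 = 1 / 2 := by norm_num
  rw [e]
  field_simp
  norm_num

theorem funa_glue {t : ℝ} (h : 0 < t) : expNegInvGlue t = Real.exp (-t⁻¹) := by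
  unfold expNegInvGlue
  rw [if_neg (not_le.2 h)]

theorem SS_gt : 4 / 5 < SS (7 / 10) := by
  rw [funa_SS, funa_glue (by norm_num), funa_glue (by norm_num)]
  have e1 : Real.exp (-(7 / 10 : ℝ)⁻¹) = Real.exp (40 / 21) * Real.exp (-(1 - 7 / 10 : ℝ)⁻¹) := by
    rw [← Real.exp_add]
    norm_num
  have h1 : (4 : ℝ) < Real.exp (40 / 21) := by
    have h2 := Real.quadratic_le_exp_of_nonneg (x := 40 / 21) (by norm_num)
    have h3 : (4 : ℝ) < 1 + 40 / 21 + (40 / 21) ^ 2 / 2 := by norm_num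
    linarith
  have h2 : 0 < Real.exp (-(1 - 7 / 10 : ℝ)⁻¹) := Real.exp_pos _
  rw [e1, lt_div_iff₀ (by positivity)]
  nlinarith

theorem funa_hasDerivAt (t : ℝ) :
    HasDerivAt expNegInvGlue ((t⁻¹) ^ 2 * expNegInvGlue t) t := by
  have h := expNegInvGlue.hasDerivAt_polynomial_eval_inv_mul 1 t
  simpa using h

theorem funa_deriv (t : ℝ) : HasDerivAt SS
    (expNegInvGlue t * expNegInvGlue (1 - t) * ((t⁻¹) ^ 2 + ((1 - t)⁻¹) ^ 2) /
      (expNegInvGlue t + expNegInvGlue (1 - t)) ^ 2) t := by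
  have h1 := funa_hasDerivAt t
  have h2 : HasDerivAt (fun s : ℝ => expNegInvGlue (1 - s))
      (((1 - t)⁻¹) ^ 2 * expNegInvGlue (1 - t) * (-1)) t := by
    have h3 : HasDerivAt (fun s : ℝ => 1 - s) (-1) t := by
      simpa using (hasDerivAt_id t).const_sub 1
    exact (funa_hasDerivAt (1 - t)).comp t h3
  have hpos := Real.smoothTransition.pos_denom t
  have h4 := h1.div (h1.add h2) hpos.ne'
  have h5 : (t⁻¹ ^ 2 * expNegInvGlue t * (expNegInvGlue + fun s => expNegInvGlue (1 - s)) t -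
        expNegInvGlue t * (t⁻¹ ^ 2 * expNegInvGlue t + (1 - t)⁻¹ ^ 2 * expNegInvGlue (1 - t) * -1)) /
      (expNegInvGlue + fun s => expNegInvGlue (1 - s)) t ^ 2 =
    expNegInvGlue t * expNegInvGlue (1 - t) * ((t⁻¹) ^ 2 + ((1 - t)⁻¹) ^ 2) /
      (expNegInvGlue t + expNegInvGlue (1 - t)) ^ 2 := by
    congr 1
    simp only [Pi.add_apply]
    ring
  rw [← h5]
  exact h4

theorem funa_deriv_eq (t : ℝ) : deriv SS t =
    expNegInvGlue t * expNegInvGlue (1 - t) * ((t⁻¹) ^ 2 + ((1 - t)⁻¹) ^ 2) /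
      (expNegInvGlue t + expNegInvGlue (1 - t)) ^ 2 := (funa_deriv t).deriv

theorem deriv_SS_nonneg (t : ℝ) : 0 ≤ deriv SS t := by
  rw [funa_deriv_eq]
  have h1 := expNegInvGlue.nonneg t
  have h2 := expNegInvGlue.nonneg (1 - t)
  positivity

theorem deriv_SS_pos {t : ℝ} (h0 : 0 < t) (h1 : t < 1) : 0 < deriv SS t := by
  rw [funa_deriv_eq]
  have h2 := expNegInvGlue.pos_of_pos h0
  have h3 : 0 < expNegInvGlue (1 - t) := expNegInvGlue.pos_of_pos (by linarith)
  have h4 : 0 < t⁻¹ := inv_pos.2 h0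
  positivity

theorem deriv_SS_of_nonpos {t : ℝ} (h : t ≤ 0) : deriv SS t = 0 := by
  rw [funa_deriv_eq, expNegInvGlue.zero_of_nonpos h]
  simp

theorem deriv_SS_of_one_le {t : ℝ} (h : 1 ≤ t) : deriv SS t = 0 := by
  rw [funa_deriv_eq, expNegInvGlue.zero_of_nonpos (x := 1 - t) (by linarith)]
  simp

theorem funa_cont_SS : Continuous SS := contDiff_SS.continuous

theorem funa_mono_SS : Monotone SS := by
  intro x y h
  exact Real.smoothTransition.monotone h

theorem strictMonoOn_SS : StrictMonoOn SS (Icc 0 1) := by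
  apply strictMonoOn_of_deriv_pos (convex_Icc 0 1) funa_cont_SS.continuousOn
  intro x hx
  rw [interior_Icc] at hx
  exact deriv_SS_pos hx.1 hx.2

/-! ### The ball profile `bt` -/

theorem contDiff_bt : ContDiff ℝ ∞ bt := by
  unfold bt
  exact contDiff_const.mul (contDiff_SS.comp (contDiff_const.sub (contDiff_const.mul contDiff_id)))

theorem bt_nonneg (u : ℝ) : 0 ≤ bt u := by
  unfold bt
  have := SS_nonneg (1 - 100 * u)
  linarith

theorem bt_le (u : ℝ) : bt u ≤ 1 / 16 := by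
  unfold bt
  have := SS_le_one (1 - 100 * u)
  linarith

theorem bt_eq_zero {u : ℝ} (h : 1 / 100 ≤ u) : bt u = 0 := by
  unfold bt
  rw [SS_of_nonpos (by linarith), mul_zero]

theorem bt_of_nonpos {u : ℝ} (h : u ≤ 0) : bt u = 1 / 16 := by
  unfold bt
  rw [SS_of_one_le (by linarith), mul_one]

theorem bt_mid : bt (1 / 200) = 1 / 32 := by
  unfold bt
  have e : (1 : ℝ) - 100 * (1 / 200) = 1 / 2 := by norm_num
  rw [e, SS_half]
  norm_num

theorem antitone_bt : Antitone bt := by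
  intro x y h
  unfold bt
  have := funa_mono_SS (show 1 - 100 * y ≤ 1 - 100 * x by linarith)
  linarith

theorem strictAntiOn_bt : StrictAntiOn bt (Icc 0 (1 / 100)) := by
  intro x hx y hy h
  unfold bt
  have h1 : 1 - 100 * y ∈ Icc (0 : ℝ) 1 := ⟨by linarith [hy.2], by linarith [hy.1]⟩
  have h2 : 1 - 100 * x ∈ Icc (0 : ℝ) 1 := ⟨by linarith [hx.2], by linarith [hx.1]⟩
  have := strictMonoOn_SS h1 h2 (by linarith)
  linarith

theorem funa_hasDerivAt_SS (t : ℝ) : HasDerivAt SS (deriv SS t) t :=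
  (funa_deriv t).differentiableAt.hasDerivAt

theorem funa_deriv_bt (u : ℝ) : deriv bt u = - (100 / 16) * deriv SS (1 - 100 * u) := by
  have h3 : HasDerivAt (fun s : ℝ => 1 - 100 * s) (-(100 * 1)) u :=
    ((hasDerivAt_id u).const_mul 100).const_sub 1
  have h4 := ((funa_hasDerivAt_SS (1 - 100 * u)).comp u h3).const_mul (1 / 16 : ℝ)
  have h5 : deriv bt u = 1 / 16 * (deriv SS (1 - 100 * u) * -(100 * 1)) := h4.deriv
  rw [h5]
  ring

theorem deriv_bt_nonpos (u : ℝ) : deriv bt u ≤ 0 := by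
  rw [funa_deriv_bt]
  have := deriv_SS_nonneg (1 - 100 * u)
  linarith

theorem deriv_bt_neg' {u : ℝ} (h0 : 0 < u) (h1 : u < 1 / 100) : deriv bt u < 0 := by
  rw [funa_deriv_bt]
  have := deriv_SS_pos (t := 1 - 100 * u) (by linarith) (by linarith)
  linarith

/-- Where `bt` takes an intermediate value, its derivative is negative. -/
theorem deriv_bt_neg {u : ℝ} (h0 : 0 < bt u) (h1 : bt u < 1 / 16) :
    0 < u ∧ u < 1 / 100 ∧ deriv bt u < 0 := by
  have h2 : 0 < u := by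
    by_contra h
    rw [bt_of_nonpos (not_lt.1 h)] at h1
    exact lt_irrefl _ h1
  have h3 : u < 1 / 100 := by
    by_contra h
    rw [bt_eq_zero (not_lt.1 h)] at h0
    exact lt_irrefl _ h0
  exact ⟨h2, h3, deriv_bt_neg' h2 h3⟩

theorem deriv_bt_eq_zero {u : ℝ} (h : bt u = 0) : deriv bt u = 0 := by
  have h1 : SS (1 - 100 * u) = 0 := by
    unfold bt at h
    linarith
  have h2 : 1 - 100 * u ≤ 0 := by
    by_contra h3
    have := Real.smoothTransition.pos_of_pos (not_le.1 h3)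
    have h4 : 0 < SS (1 - 100 * u) := this
    rw [h1] at h4
    exact lt_irrefl _ h4
  rw [funa_deriv_bt, deriv_SS_of_nonpos h2, mul_zero]

/-! ### The band profile `Lam` -/

theorem contDiff_Lam : ContDiff ℝ ∞ Lam := by
  unfold Lam
  exact contDiff_const.mul (contDiff_SS.comp (contDiff_const.sub (contDiff_const.mul contDiff_id)))

theorem Lam_nonneg (v : ℝ) : 0 ≤ Lam v := by
  unfold Lam
  have := SS_nonneg (1 - 1000 * v)
  linarith

theorem Lam_le (v : ℝ) : Lam v ≤ 1 / 8 := by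
  unfold Lam
  have := SS_le_one (1 - 1000 * v)
  linarith

theorem funa_SS_eq_zero {t : ℝ} (h : SS t = 0) : t ≤ 0 := by
  by_contra h3
  have h4 : 0 < SS t := Real.smoothTransition.pos_of_pos (not_le.1 h3)
  rw [h] at h4
  exact lt_irrefl _ h4

theorem Lam_eq_zero_iff (v : ℝ) : Lam v = 0 ↔ 1 / 1000 ≤ v := by
  constructor
  · intro h
    have h1 : SS (1 - 1000 * v) = 0 := by
      unfold Lam at h
      linarith
    have := funa_SS_eq_zero h1
    linarith
  · intro h
    unfold Lam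
    rw [SS_of_nonpos (by linarith), mul_zero]

theorem Lam_of_nonpos {v : ℝ} (h : v ≤ 0) : Lam v = 1 / 8 := by
  unfold Lam
  rw [SS_of_one_le (by linarith), mul_one]

theorem antitone_Lam : Antitone Lam := by
  intro x y h
  unfold Lam
  have := funa_mono_SS (show 1 - 1000 * y ≤ 1 - 1000 * x by linarith)
  linarith

theorem strictAntiOn_Lam : StrictAntiOn Lam (Icc 0 (1 / 1000)) := by
  intro x hx y hy h
  unfold Lam
  have h1 : 1 - 1000 * y ∈ Icc (0 : ℝ) 1 := ⟨by linarith [hy.2], by linarith [hy.1]⟩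
  have h2 : 1 - 1000 * x ∈ Icc (0 : ℝ) 1 := ⟨by linarith [hx.2], by linarith [hx.1]⟩
  have := strictMonoOn_SS h1 h2 (by linarith)
  linarith

/-- `Lam v ≤ 1/10` forces `v > 3/10000`. -/
theorem lt_of_Lam_le {v : ℝ} (h : Lam v ≤ 1 / 10) : 3 / 10000 < v := by
  by_contra hv
  rw [not_lt] at hv
  have h1 := funa_mono_SS (show 7 / 10 ≤ 1 - 1000 * v by linarith)
  have h2 := SS_gt
  unfold Lam at h
  linarith

theorem funa_deriv_Lam (u : ℝ) : deriv Lam u = - (1000 / 8) * deriv SS (1 - 1000 * u) := by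
  have h3 : HasDerivAt (fun s : ℝ => 1 - 1000 * s) (-(1000 * 1)) u :=
    ((hasDerivAt_id u).const_mul 1000).const_sub 1
  have h4 := ((funa_hasDerivAt_SS (1 - 1000 * u)).comp u h3).const_mul (1 / 8 : ℝ)
  have h5 : deriv Lam u = 1 / 8 * (deriv SS (1 - 1000 * u) * -(1000 * 1)) := h4.deriv
  rw [h5]
  ring

theorem deriv_Lam_nonpos (v : ℝ) : deriv Lam v ≤ 0 := by
  rw [funa_deriv_Lam]
  have := deriv_SS_nonneg (1 - 1000 * v)
  linarith

theorem deriv_Lam_neg {v : ℝ} (h0 : 0 < Lam v) (h1 : Lam v < 1 / 8) :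
    0 < v ∧ v < 1 / 1000 ∧ deriv Lam v < 0 := by
  have h2 : 0 < v := by
    by_contra h
    rw [Lam_of_nonpos (not_lt.1 h)] at h1
    exact lt_irrefl _ h1
  have h3 : v < 1 / 1000 := by
    by_contra h
    rw [(Lam_eq_zero_iff v).2 (not_lt.1 h)] at h0
    exact lt_irrefl _ h0
  refine ⟨h2, h3, ?_⟩
  rw [funa_deriv_Lam]
  have := deriv_SS_pos (t := 1 - 1000 * v) (by linarith) (by linarith)
  linarith

theorem deriv_Lam_eq_zero {v : ℝ} (h : Lam v = 0) : deriv Lam v = 0 := by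
  have h1 := (Lam_eq_zero_iff v).1 h
  rw [funa_deriv_Lam, deriv_SS_of_nonpos (by linarith), mul_zero]

end Pool.Agent.Tri
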