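import Mathlib
import Pool.Agent.H.MP_5efd29_gt.FunA

open scoped ContDiff Topology
open Set

noncomputable section

namespace Pool.Agent.Tri

/-! ### The cutoffs -/

private theorem funa2_SS_mono : Monotone SS := Real.smoothTransition.monotone

private theorem funa2_SS_eq_zero (t : ℝ) : SS t = 0 ↔ t ≤ 0 :=
  Real.smoothTransition.zero_iff_nonpos

private theorem funa2_hasDerivAt_comp (a : ℝ) (h : ℝ) :
    HasDerivAt (fun x : ℝ => SS (2 - a * x ^ 2)) (deriv SS (2 - a * h ^ 2) * (-(a * (2 * h)))) h := by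
  have h1 : HasDerivAt (fun x : ℝ => 2 - a * x ^ 2) (-(a * (2 * h))) h := by
    have h2 := ((hasDerivAt_pow 2 h).const_mul a).const_sub 2
    simpa using h2
  have hd : DifferentiableAt ℝ SS (2 - a * h ^ 2) :=
    (contDiff_SS.differentiable (by simp)) _
  exact hd.hasDerivAt.comp h h1

private theorem funa2_deriv_eta (h : ℝ) :
    deriv eta h = deriv SS (2 - 128 * h ^ 2) * (-(128 * (2 * h))) :=
  (funa2_hasDerivAt_comp 128 h).deriv

private theorem funa2_deriv_cc (h : ℝ) :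
    deriv cc h = deriv SS (2 - 4 * h ^ 2) * (-(4 * (2 * h))) :=
  (funa2_hasDerivAt_comp 4 h).deriv

theorem contDiff_eta : ContDiff ℝ ∞ eta := by
  unfold eta
  exact contDiff_SS.comp (contDiff_const.sub (contDiff_const.mul (contDiff_id.pow 2)))

theorem eta_nonneg (h : ℝ) : 0 ≤ eta h := SS_nonneg _

theorem eta_le_one (h : ℝ) : eta h ≤ 1 := SS_le_one _

theorem eta_of_small {h : ℝ} (hh : 128 * h ^ 2 ≤ 1) : eta h = 1 :=
  SS_of_one_le (by linarith)

theorem eta_eq_zero_iff (h : ℝ) : eta h = 0 ↔ 1 ≤ 64 * h ^ 2 := by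
  unfold eta
  rw [funa2_SS_eq_zero]
  constructor <;> intro H <;> linarith

theorem eta_neg (h : ℝ) : eta (-h) = eta h := by
  unfold eta
  rw [neg_sq]

theorem mul_deriv_eta_nonpos (h : ℝ) : h * deriv eta h ≤ 0 := by
  rw [funa2_deriv_eta]
  have h1 := deriv_SS_nonneg (2 - 128 * h ^ 2)
  have h2 : 0 ≤ h ^ 2 := sq_nonneg h
  have h3 : 0 ≤ deriv SS (2 - 128 * h ^ 2) * h ^ 2 := mul_nonneg h1 h2
  nlinarith

theorem deriv_eta_of_small {h : ℝ} (hh : 128 * h ^ 2 ≤ 1) : deriv eta h = 0 := by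
  rw [funa2_deriv_eta, deriv_SS_of_one_le (by linarith), zero_mul]

theorem exists_bound_deriv_eta : ∃ C : ℝ, 0 < C ∧ ∀ h, |deriv eta h| ≤ C := by
  have hc : Continuous (deriv eta) := contDiff_eta.continuous_deriv (by simp)
  obtain ⟨C, hC⟩ := (isCompact_Icc (a := (-1 : ℝ)) (b := 1)).exists_bound_of_continuousOn
    hc.continuousOn
  refine ⟨max C 1, lt_max_of_lt_right one_pos, ?_⟩
  intro h
  by_cases hh : h ∈ Icc (-1 : ℝ) 1
  · have h1 := hC h hh
    rw [Real.norm_eq_abs] at h1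
    exact h1.trans (le_max_left _ _)
  · have h2 : 1 ≤ h ^ 2 := by
      rw [mem_Icc, not_and_or, not_le, not_le] at hh
      rcases hh with hh | hh <;> nlinarith
    rw [funa2_deriv_eta, deriv_SS_of_nonpos (by linarith), zero_mul, abs_zero]
    positivity

private theorem funa2_antitoneOn (a : ℝ) (ha : 0 ≤ a) :
    AntitoneOn (fun x : ℝ => SS (2 - a * x ^ 2)) (Ici 0) := by
  intro x hx y hy hxy
  apply funa2_SS_mono
  have h1 : x ^ 2 ≤ y ^ 2 := by
    have hx0 : (0 : ℝ) ≤ x := hx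
    exact pow_le_pow_left₀ hx0 hxy 2
  have h2 : a * x ^ 2 ≤ a * y ^ 2 := mul_le_mul_of_nonneg_left h1 ha
  linarith

theorem antitoneOn_eta : AntitoneOn eta (Ici 0) := funa2_antitoneOn 128 (by norm_num)

theorem contDiff_cc : ContDiff ℝ ∞ cc := by
  unfold cc
  exact contDiff_SS.comp (contDiff_const.sub (contDiff_const.mul (contDiff_id.pow 2)))

theorem cc_nonneg (h : ℝ) : 0 ≤ cc h := SS_nonneg _

theorem cc_le_one (h : ℝ) : cc h ≤ 1 := SS_le_one _

theorem cc_of_small {h : ℝ} (hh : 4 * h ^ 2 ≤ 1) : cc h = 1 :=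
  SS_of_one_le (by linarith)

theorem cc_of_large {h : ℝ} (hh : 1 ≤ 2 * h ^ 2) : cc h = 0 :=
  SS_of_nonpos (by linarith)

theorem cc_neg (h : ℝ) : cc (-h) = cc h := by
  unfold cc
  rw [neg_sq]

theorem mul_deriv_cc_nonpos (h : ℝ) : h * deriv cc h ≤ 0 := by
  rw [funa2_deriv_cc]
  have h1 := deriv_SS_nonneg (2 - 4 * h ^ 2)
  have h2 : 0 ≤ h ^ 2 := sq_nonneg h
  have h3 : 0 ≤ deriv SS (2 - 4 * h ^ 2) * h ^ 2 := mul_nonneg h1 h2
  nlinarith

theorem antitoneOn_cc : AntitoneOn cc (Ici 0) := funa2_antitoneOn 4 (by norm_num)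

theorem deriv_cc_of_small {h : ℝ} (hh : 4 * h ^ 2 ≤ 1) : deriv cc h = 0 := by
  rw [funa2_deriv_cc, deriv_SS_of_one_le (by linarith), zero_mul]

end Pool.Agent.Tri
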