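import Mathlib
import Pool.Agent.H.MP_5efd29_gt.FunA2

open scoped ContDiff Topology
open Set

noncomputable section

namespace Pool.Agent.Tri

/-! ### Smoothness -/

theorem funb1_contDiff_re : ContDiff ℝ ∞ (fun z : ℂ => z.re) := Complex.reCLM.contDiff

theorem funb1_contDiff_im : ContDiff ℝ ∞ (fun z : ℂ => z.im) := Complex.imCLM.contDiff

theorem funb1_contDiff_ofReal : ContDiff ℝ ∞ (fun t : ℝ => (t : ℂ)) := Complex.ofRealCLM.contDiff

theorem funb1_contDiff_conj : ContDiff ℝ ∞ (fun z : ℂ => (starRingEnd ℂ) z) :=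
  Complex.conjCLE.contDiff

theorem funb1_contDiff_normSq : ContDiff ℝ ∞ (fun z : ℂ => Complex.normSq z) := by
  have h : (fun z : ℂ => Complex.normSq z) = fun z => z.re * z.re + z.im * z.im := by
    funext z
    exact Complex.normSq_apply z
  rw [h]
  exact (funb1_contDiff_re.mul funb1_contDiff_re).add (funb1_contDiff_im.mul funb1_contDiff_im)

theorem funb1_contDiff_mk {E : Type*} [NormedAddCommGroup E] [NormedSpace ℝ E] {f g : E → ℝ}
    (hf : ContDiff ℝ ∞ f) (hg : ContDiff ℝ ∞ g) :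
    ContDiff ℝ ∞ (fun e : E => (⟨f e, g e⟩ : ℂ)) := by
  have h : (fun e : E => (⟨f e, g e⟩ : ℂ)) =
      fun e => Complex.equivRealProdCLM.symm (f e, g e) := by
    funext e
    rfl
  rw [h]
  exact Complex.equivRealProdCLM.symm.contDiff.comp (hf.prodMk hg)

theorem contDiff_hgt : ContDiff ℝ ∞ hgt :=
  (funb1_contDiff_normSq.comp contDiff_snd).sub (funb1_contDiff_normSq.comp contDiff_fst)

theorem funb1_mx {h : ℝ} (hh : |h| < 1) : ContDiffAt ℝ ∞ mx h ∧ ContDiffAt ℝ ∞ my h := by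
  rw [abs_lt] at hh
  have h1 : 0 < (1 - h) / 2 := by linarith [hh.2]
  have h2 : 0 < (1 + h) / 2 := by linarith [hh.1]
  have c1 : ContDiffAt ℝ ∞ (fun h : ℝ => (1 - h) / 2) h := by fun_prop
  have c2 : ContDiffAt ℝ ∞ (fun h : ℝ => (1 + h) / 2) h := by fun_prop
  have s1 : ContDiffAt ℝ ∞ (fun h : ℝ => Real.sqrt ((1 - h) / 2)) h := c1.sqrt h1.ne'
  have s2 : ContDiffAt ℝ ∞ (fun h : ℝ => Real.sqrt ((1 + h) / 2)) h := c2.sqrt h2.ne'
  constructor
  · exact contDiffAt_const.div (s1.mul c2) (mul_pos (Real.sqrt_pos.2 h1) h2).ne'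
  · exact contDiffAt_const.div (c1.mul s2) (mul_pos h1 (Real.sqrt_pos.2 h2)).ne'

theorem funb1_phases_at {m : ℂ × ℂ} (hm : |hgt m| < 1) :
    ContDiffAt ℝ ∞ (fun m : ℂ × ℂ => (Cx m, Sx m, Cy m, Sy m)) m := by
  obtain ⟨hx, hy⟩ := funb1_mx hm
  have kx : ContDiffAt ℝ ∞ (fun m : ℂ × ℂ => mx (hgt m)) m := hx.comp m contDiff_hgt.contDiffAt
  have ky : ContDiffAt ℝ ∞ (fun m : ℂ × ℂ => my (hgt m)) m := hy.comp m contDiff_hgt.contDiffAt
  have p1 : ContDiff ℝ ∞ (fun m : ℂ × ℂ => m.1 * m.2 ^ 2) :=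
    contDiff_fst.mul (contDiff_snd.pow 2)
  have p2 : ContDiff ℝ ∞ (fun m : ℂ × ℂ => m.1 ^ 2 * (starRingEnd ℂ) m.2) :=
    (contDiff_fst.pow 2).mul (funb1_contDiff_conj.comp contDiff_snd)
  have a1 : ContDiffAt ℝ ∞ Cx m := (funb1_contDiff_re.comp p1).contDiffAt.mul kx
  have a2 : ContDiffAt ℝ ∞ Sx m := (funb1_contDiff_im.comp p1).contDiffAt.mul kx
  have a3 : ContDiffAt ℝ ∞ Cy m := (funb1_contDiff_re.comp p2).contDiffAt.mul ky
  have a4 : ContDiffAt ℝ ∞ Sy m := (funb1_contDiff_im.comp p2).contDiffAt.mul ky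
  exact a1.prodMk (a2.prodMk (a3.prodMk a4))

/-- The functions `Cx, Sx, Cy, Sy` are smooth for `|h| < 1`. -/
theorem contDiffOn_phases :
    ContDiffOn ℝ ∞ (fun m : ℂ × ℂ => (Cx m, Sx m, Cy m, Sy m)) {m | |hgt m| < 1} :=
  fun _ hm => (funb1_phases_at hm).contDiffWithinAt

theorem funb1_cutoff {E : Type*} [NormedAddCommGroup E] [NormedSpace ℝ E] (c : ℝ → ℝ)
    (hc : ContDiff ℝ ∞ c) (hc0 : ∀ h : ℝ, 1 ≤ 2 * h ^ 2 → c h = 0) (p : E → ℂ × ℂ)
    (hp : ContDiff ℝ ∞ p) (φ : E × ℝ × ℝ × ℝ × ℝ → ℝ) (hφ : ContDiff ℝ ∞ φ) :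
    ContDiff ℝ ∞ (fun e : E => c (hgt (p e)) *
      φ (e, Cx (p e), Sx (p e), Cy (p e), Sy (p e))) := by
  have hh : ContDiff ℝ ∞ (fun e : E => hgt (p e)) := contDiff_hgt.comp hp
  rw [contDiff_iff_contDiffAt]
  intro e
  by_cases he : |hgt (p e)| < 1
  · have k1 : ContDiffAt ℝ ∞ (fun e : E => (Cx (p e), Sx (p e), Cy (p e), Sy (p e))) e :=
      (funb1_phases_at he).comp e hp.contDiffAt
    have k2 : ContDiffAt ℝ ∞ (fun e : E => φ (e, Cx (p e), Sx (p e), Cy (p e), Sy (p e))) e :=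
      hφ.contDiffAt.comp e (contDiffAt_id.prodMk k1)
    exact (hc.comp hh).contDiffAt.mul k2
  · have h1 : 1 < 2 * hgt (p e) ^ 2 := by
      push Not at he
      have : 1 ≤ hgt (p e) ^ 2 := by
        rw [← sq_abs]
        nlinarith
      linarith
    have h2 : ∀ᶠ e' in 𝓝 e, 1 < 2 * hgt (p e') ^ 2 := by
      have hcont : Continuous (fun e : E => 2 * hgt (p e) ^ 2) :=
        continuous_const.mul (hh.continuous.pow 2)
      exact hcont.continuousAt.eventually (lt_mem_nhds h1)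
    have h3 : (fun e : E => c (hgt (p e)) *
        φ (e, Cx (p e), Sx (p e), Cy (p e), Sy (p e))) =ᶠ[𝓝 e] fun _ => (0 : ℝ) := by
      filter_upwards [h2] with e' he'
      rw [hc0 _ he'.le, zero_mul]
    exact contDiffAt_const.congr_of_eventuallyEq h3

/-- Smooth functions of the phases, cut off away from the cores, are smooth. -/
theorem contDiff_cutoff {E : Type*} [NormedAddCommGroup E] [NormedSpace ℝ E] (p : E → ℂ × ℂ)
    (hp : ContDiff ℝ ∞ p) (φ : E × ℝ × ℝ × ℝ × ℝ → ℝ) (hφ : ContDiff ℝ ∞ φ) :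
    ContDiff ℝ ∞ (fun e : E => cc (hgt (p e)) *
      φ (e, Cx (p e), Sx (p e), Cy (p e), Sy (p e))) :=
  funb1_cutoff cc contDiff_cc (fun _ h => cc_of_large h) p hp φ hφ

theorem contDiff_cutoff_eta {E : Type*} [NormedAddCommGroup E] [NormedSpace ℝ E] (p : E → ℂ × ℂ)
    (hp : ContDiff ℝ ∞ p) (φ : E × ℝ × ℝ × ℝ × ℝ → ℝ) (hφ : ContDiff ℝ ∞ φ) :
    ContDiff ℝ ∞ (fun e : E => eta (hgt (p e)) *
      φ (e, Cx (p e), Sx (p e), Cy (p e), Sy (p e))) :=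
  funb1_cutoff eta contDiff_eta (fun h hh => (eta_eq_zero_iff h).2 (by linarith)) p hp φ hφ

theorem contDiff_rho : ContDiff ℝ ∞ rho := by
  have hφ : ContDiff ℝ ∞ (fun q : (ℂ × ℂ) × ℝ × ℝ × ℝ × ℝ => bt (2 - q.2.1 - q.2.2.2.1)) :=
    contDiff_bt.comp (by fun_prop)
  have h := contDiff_cutoff (fun m : ℂ × ℂ => m) contDiff_id _ hφ
  exact ((contDiff_hgt.pow 2).add contDiff_const).sub h

theorem contDiff_lam (i : Fin 3) : ContDiff ℝ ∞ (lam i) := by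
  have h0 : ContDiff ℝ ∞ (fun q : (ℂ × ℂ) × ℝ × ℝ × ℝ × ℝ => Lam (1 - q.2.2.2.1)) :=
    contDiff_Lam.comp (by fun_prop)
  have h1 : ContDiff ℝ ∞ (fun q : (ℂ × ℂ) × ℝ × ℝ × ℝ × ℝ =>
      Lam (1 - (q.2.1 * q.2.2.2.1 - q.2.2.1 * q.2.2.2.2))) :=
    contDiff_Lam.comp (by fun_prop)
  have h2 : ContDiff ℝ ∞ (fun q : (ℂ × ℂ) × ℝ × ℝ × ℝ × ℝ => Lam (1 - q.2.1)) :=
    contDiff_Lam.comp (by fun_prop)
  have k0 := contDiff_cutoff_eta (fun m : ℂ × ℂ => m) contDiff_id _ h0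
  have k1 := contDiff_cutoff_eta (fun m : ℂ × ℂ => m) contDiff_id _ h1
  have k2 := contDiff_cutoff_eta (fun m : ℂ × ℂ => m) contDiff_id _ h2
  fin_cases i
  · exact k0
  · exact k1
  · exact k2

theorem contDiff_pp : ContDiff ℝ ∞ pp := by
  apply ContDiff.sum
  intro i _
  exact (funb1_contDiff_ofReal.comp (contDiff_lam i)).mul contDiff_const

theorem contDiff_pr : ContDiff ℝ ∞ pr :=
  contDiff_fst.prodMk (contDiff_fst.comp contDiff_snd)

theorem funb1_sphere_eq :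
    ContDiff ℝ ∞ (fun x : C3 => Complex.normSq x.1 + Complex.normSq x.2.1 - 1) :=
  ((funb1_contDiff_normSq.comp contDiff_fst).add
    (funb1_contDiff_normSq.comp (contDiff_fst.comp contDiff_snd))).sub contDiff_const

theorem contDiff_PhiX : ContDiff ℝ ∞ PhiX := by
  apply funb1_contDiff_mk funb1_sphere_eq
  exact (funb1_contDiff_normSq.comp (contDiff_snd.comp contDiff_snd)).sub
    (contDiff_rho.comp contDiff_pr)

theorem contDiff_PhiM : ContDiff ℝ ∞ PhiM := by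
  apply funb1_contDiff_mk funb1_sphere_eq
  exact funb1_contDiff_im.comp (contDiff_snd.comp contDiff_snd)

theorem contDiff_GG : ContDiff ℝ ∞ GG :=
  (contDiff_snd.comp contDiff_snd).sub (contDiff_pp.comp contDiff_pr)

end Pool.Agent.Tri
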