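import Mathlib
import Pool.Agent.H.MP_5efd29_gt.Setup

open scoped ContDiff Topology
open Set

noncomputable section

namespace Pool.Agent.Tri

/-! ### Invariance -/

theorem funb2_zeta_ne : zeta ≠ 0 := by
  intro h
  have h1 := zeta_pow_five
  rw [h] at h1
  norm_num at h1

theorem funb2_normSq_zeta : Complex.normSq zeta = 1 := by
  have h1 : Complex.normSq zeta ^ 5 = 1 := by
    rw [← map_pow, zeta_pow_five, map_one]
  exact (pow_eq_one_iff_of_nonneg (Complex.normSq_nonneg _) (by norm_num)).1 h1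

theorem hgt_act (x : C3) : hgt (pr (act x)) = hgt (pr x) := by
  unfold hgt pr act
  simp only [map_mul, map_pow, funb2_normSq_zeta]
  ring

theorem funb2_mul (x : C3) :
    (pr (act x)).1 * (pr (act x)).2 ^ 2 = (pr x).1 * (pr x).2 ^ 2 := by
  show zeta * x.1 * (zeta ^ 2 * x.2.1) ^ 2 = x.1 * x.2.1 ^ 2
  have h := zeta_pow_five
  linear_combination (x.1 * x.2.1 ^ 2) * h

theorem funb2_mul' (x : C3) :
    (pr (act x)).1 ^ 2 * (starRingEnd ℂ) (pr (act x)).2 =
      (pr x).1 ^ 2 * (starRingEnd ℂ) (pr x).2 := by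
  show (zeta * x.1) ^ 2 * (starRingEnd ℂ) (zeta ^ 2 * x.2.1) = x.1 ^ 2 * (starRingEnd ℂ) x.2.1
  rw [map_mul, map_pow]
  have h : zeta * (starRingEnd ℂ) zeta = 1 := by
    rw [Complex.mul_conj, funb2_normSq_zeta, Complex.ofReal_one]
  have h2 : (zeta * (starRingEnd ℂ) zeta) ^ 2 = 1 := by rw [h, one_pow]
  linear_combination (x.1 ^ 2 * (starRingEnd ℂ) x.2.1) * h2

theorem phases_act (x : C3) : Cx (pr (act x)) = Cx (pr x) ∧ Sx (pr (act x)) = Sx (pr x) ∧
    Cy (pr (act x)) = Cy (pr x) ∧ Sy (pr (act x)) = Sy (pr x) := by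
  unfold Cx Sx Cy Sy
  rw [hgt_act, funb2_mul, funb2_mul']
  exact ⟨rfl, rfl, rfl, rfl⟩

theorem vv_act (i : Fin 3) (x : C3) : vv i (pr (act x)) = vv i (pr x) := by
  obtain ⟨h1, h2, h3, h4⟩ := phases_act x
  unfold vv
  rw [h1, h2, h3, h4]

theorem uu_act (x : C3) : uu (pr (act x)) = uu (pr x) := by
  obtain ⟨h1, h2, h3, h4⟩ := phases_act x
  unfold uu
  rw [h1, h3]

theorem rho_act (x : C3) : rho (pr (act x)) = rho (pr x) := by
  unfold rho
  rw [hgt_act, uu_act]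

theorem lam_act (i : Fin 3) (x : C3) : lam i (pr (act x)) = lam i (pr x) := by
  unfold lam
  rw [hgt_act, vv_act]

theorem pp_act (x : C3) : pp (pr (act x)) = pp (pr x) := by
  unfold pp
  simp only [lam_act]

theorem PhiX_act (x : C3) : PhiX (act x) = PhiX x := by
  unfold PhiX
  rw [rho_act]
  apply Complex.ext
  · show Complex.normSq (zeta * x.1) + Complex.normSq (zeta ^ 2 * x.2.1) - 1 =
      Complex.normSq x.1 + Complex.normSq x.2.1 - 1
    simp only [map_mul, map_pow, funb2_normSq_zeta]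
    ring
  · rfl

theorem PhiM_act (x : C3) : PhiM (act x) = PhiM x := by
  unfold PhiM
  apply Complex.ext
  · show Complex.normSq (zeta * x.1) + Complex.normSq (zeta ^ 2 * x.2.1) - 1 =
      Complex.normSq x.1 + Complex.normSq x.2.1 - 1
    simp only [map_mul, map_pow, funb2_normSq_zeta]
    ring
  · rfl

theorem GG_act (x : C3) : GG (act x) = GG x := by
  unfold GG
  rw [pp_act]
  rfl

/-! ### The symmetry `κ (z, w) = (w, conj z)` -/

/-- The map `(z, w) ↦ (w, conj z)`. -/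
def kap (m : ℂ × ℂ) : ℂ × ℂ := (m.2, (starRingEnd ℂ) m.1)

theorem hgt_kap (m : ℂ × ℂ) : hgt (kap m) = -hgt m := by
  unfold hgt kap
  simp only [Complex.normSq_conj]
  ring

theorem funb2_mx (h : ℝ) : mx (-h) = my h := by
  unfold mx my
  have e1 : 1 - -h = 1 + h := by ring
  have e2 : 1 + -h = 1 - h := by ring
  rw [e1, e2, mul_comm]

theorem funb2_my (h : ℝ) : my (-h) = mx h := by
  unfold mx my
  have e1 : 1 - -h = 1 + h := by ring
  have e2 : 1 + -h = 1 - h := by ring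
  rw [e1, e2, mul_comm]

theorem phases_kap (m : ℂ × ℂ) : Cx (kap m) = Cy m ∧ Sx (kap m) = -Sy m ∧
    Cy (kap m) = Cx m ∧ Sy (kap m) = Sx m := by
  have e1 : (kap m).1 * (kap m).2 ^ 2 = (starRingEnd ℂ) (m.1 ^ 2 * (starRingEnd ℂ) m.2) := by
    show m.2 * ((starRingEnd ℂ) m.1) ^ 2 = _
    rw [map_mul, map_pow, Complex.conj_conj, mul_comm]
  have e2 : (kap m).1 ^ 2 * (starRingEnd ℂ) (kap m).2 = m.1 * m.2 ^ 2 := by
    show m.2 ^ 2 * (starRingEnd ℂ) ((starRingEnd ℂ) m.1) = _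
    rw [Complex.conj_conj, mul_comm]
  unfold Cx Sx Cy Sy
  rw [hgt_kap, e1, e2, funb2_mx, funb2_my, Complex.conj_re, Complex.conj_im]
  exact ⟨rfl, by ring, rfl, rfl⟩

theorem funb2_cc (h : ℝ) : cc (-h) = cc h := by
  unfold cc
  rw [neg_sq]

theorem funb2_eta (h : ℝ) : eta (-h) = eta h := by
  unfold eta
  rw [neg_sq]

theorem uu_kap (m : ℂ × ℂ) : uu (kap m) = uu m := by
  obtain ⟨h1, h2, h3, h4⟩ := phases_kap m
  unfold uu
  rw [h1, h3]
  ring

theorem rho_kap (m : ℂ × ℂ) : rho (kap m) = rho m := by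
  unfold rho
  rw [uu_kap, hgt_kap, funb2_cc, neg_sq]

theorem lam_kap (m : ℂ × ℂ) : lam 0 (kap m) = lam 2 m ∧ lam 2 (kap m) = lam 0 m := by
  obtain ⟨h1, h2, h3, h4⟩ := phases_kap m
  have e0 : vv 0 (kap m) = vv 2 m := by
    show 1 - Cy (kap m) = 1 - Cx m
    rw [h3]
  have e2 : vv 2 (kap m) = vv 0 m := by
    show 1 - Cx (kap m) = 1 - Cy m
    rw [h1]
  unfold lam
  rw [hgt_kap, funb2_eta, e0, e2]
  exact ⟨rfl, rfl⟩

end Pool.Agent.Tri
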