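import Mathlib
import Pool.Agent.H.MP_5efd29_gt.Setup

open scoped ContDiff Topology
open Set

noncomputable section

namespace Pool.Agent.Tri

/-! ### Angular coordinates -/

private lemma funb3_normSq (a t : ℝ) (ha : 0 ≤ a) :
    Complex.normSq ((Real.sqrt a : ℂ) * Complex.exp (t * Complex.I)) = a := by
  rw [Complex.normSq_eq_norm_sq, norm_mul, Complex.norm_exp_ofReal_mul_I, mul_one,
    Complex.norm_real, Real.norm_eq_abs, sq_abs, Real.sq_sqrt ha]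

theorem normSq_angxy {h : ℝ} (x y : ℝ) (hh : |h| ≤ 1) :
    Complex.normSq (angxy h x y).1 = (1 - h) / 2 ∧
      Complex.normSq (angxy h x y).2 = (1 + h) / 2 := by
  rw [abs_le] at hh
  unfold angxy ang
  exact ⟨funb3_normSq _ _ (by linarith), funb3_normSq _ _ (by linarith)⟩

theorem hgt_angxy {h : ℝ} (x y : ℝ) (hh : |h| ≤ 1) : hgt (angxy h x y) = h := by
  unfold hgt
  rw [(normSq_angxy x y hh).1, (normSq_angxy x y hh).2]
  ring

private lemma funb3_exp (t : ℝ) : Complex.exp (t * Complex.I) = ⟨Real.cos t, Real.sin t⟩ := by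
  apply Complex.ext
  · rw [Complex.exp_ofReal_mul_I_re]
  · rw [Complex.exp_ofReal_mul_I_im]

private lemma funb3_prod1 (a b x y : ℝ) :
    ((a : ℂ) * Complex.exp ((((x + 2 * y) / 5 : ℝ) : ℂ) * Complex.I)) *
      ((b : ℂ) * Complex.exp ((((2 * x - y) / 5 : ℝ) : ℂ) * Complex.I)) ^ 2 =
      ((a * b ^ 2 : ℝ) : ℂ) * Complex.exp ((x : ℂ) * Complex.I) := by
  rw [mul_pow, ← Complex.exp_nat_mul]
  have : (a : ℂ) * Complex.exp ((((x + 2 * y) / 5 : ℝ) : ℂ) * Complex.I) *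
      ((b : ℂ) ^ 2 * Complex.exp (((2 : ℕ) : ℂ) * ((((2 * x - y) / 5 : ℝ) : ℂ) * Complex.I))) =
      ((a * b ^ 2 : ℝ) : ℂ) * (Complex.exp ((((x + 2 * y) / 5 : ℝ) : ℂ) * Complex.I) *
        Complex.exp (((2 : ℕ) : ℂ) * ((((2 * x - y) / 5 : ℝ) : ℂ) * Complex.I))) := by
    push_cast; ring
  rw [this, ← Complex.exp_add]
  congr 2
  push_cast; ring

private lemma funb3_prod2 (a b x y : ℝ) :
    ((a : ℂ) * Complex.exp ((((x + 2 * y) / 5 : ℝ) : ℂ) * Complex.I)) ^ 2 *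
      (starRingEnd ℂ) ((b : ℂ) * Complex.exp ((((2 * x - y) / 5 : ℝ) : ℂ) * Complex.I)) =
      ((a ^ 2 * b : ℝ) : ℂ) * Complex.exp ((y : ℂ) * Complex.I) := by
  rw [mul_pow, ← Complex.exp_nat_mul, map_mul, Complex.conj_ofReal, ← Complex.exp_conj, map_mul,
    Complex.conj_ofReal, Complex.conj_I]
  have : (a : ℂ) ^ 2 * Complex.exp (((2 : ℕ) : ℂ) * ((((x + 2 * y) / 5 : ℝ) : ℂ) * Complex.I)) *
      ((b : ℂ) * Complex.exp ((((2 * x - y) / 5 : ℝ) : ℂ) * -Complex.I)) =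
      ((a ^ 2 * b : ℝ) : ℂ) * (Complex.exp (((2 : ℕ) : ℂ) * ((((x + 2 * y) / 5 : ℝ) : ℂ) * Complex.I)) *
        Complex.exp ((((2 * x - y) / 5 : ℝ) : ℂ) * -Complex.I)) := by
    push_cast; ring
  rw [this, ← Complex.exp_add]
  congr 2
  push_cast; ring

theorem phases_angxy {h : ℝ} (x y : ℝ) (hh : |h| < 1) :
    Cx (angxy h x y) = Real.cos x ∧ Sx (angxy h x y) = Real.sin x ∧
      Cy (angxy h x y) = Real.cos y ∧ Sy (angxy h x y) = Real.sin y := by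
  have hgt0 := hgt_angxy x y hh.le
  rw [abs_lt] at hh
  have ha : 0 < (1 - h) / 2 := by linarith
  have hb : 0 < (1 + h) / 2 := by linarith
  have hsa : 0 < Real.sqrt ((1 - h) / 2) := Real.sqrt_pos.2 ha
  have hsb : 0 < Real.sqrt ((1 + h) / 2) := Real.sqrt_pos.2 hb
  have e1 : (angxy h x y).1 * (angxy h x y).2 ^ 2 =
      ((Real.sqrt ((1 - h) / 2) * ((1 + h) / 2) : ℝ) : ℂ) * ⟨Real.cos x, Real.sin x⟩ := by
    unfold angxy ang
    rw [← funb3_exp]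
    have := funb3_prod1 (Real.sqrt ((1 - h) / 2)) (Real.sqrt ((1 + h) / 2)) x y
    rw [Real.sq_sqrt hb.le] at this
    exact this
  have e2 : (angxy h x y).1 ^ 2 * (starRingEnd ℂ) (angxy h x y).2 =
      (((1 - h) / 2 * Real.sqrt ((1 + h) / 2) : ℝ) : ℂ) * ⟨Real.cos y, Real.sin y⟩ := by
    unfold angxy ang
    rw [← funb3_exp]
    have := funb3_prod2 (Real.sqrt ((1 - h) / 2)) (Real.sqrt ((1 + h) / 2)) x y
    rw [Real.sq_sqrt ha.le] at this
    exact this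
  have c1 : Real.sqrt ((1 - h) / 2) * ((1 + h) / 2) ≠ 0 := (mul_pos hsa hb).ne'
  have c2 : (1 - h) / 2 * Real.sqrt ((1 + h) / 2) ≠ 0 := (mul_pos ha hsb).ne'
  unfold Cx Sx Cy Sy
  rw [hgt0, e1, e2]
  unfold mx my
  rw [Complex.re_ofReal_mul, Complex.im_ofReal_mul, Complex.re_ofReal_mul, Complex.im_ofReal_mul]
  refine ⟨?_, ?_, ?_, ?_⟩
  · show Real.sqrt ((1 - h) / 2) * ((1 + h) / 2) * Real.cos x *
      (1 / (Real.sqrt ((1 - h) / 2) * ((1 + h) / 2))) = Real.cos x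
    rw [mul_comm _ (Real.cos x), mul_assoc, mul_one_div_cancel c1, mul_one]
  · show Real.sqrt ((1 - h) / 2) * ((1 + h) / 2) * Real.sin x *
      (1 / (Real.sqrt ((1 - h) / 2) * ((1 + h) / 2))) = Real.sin x
    rw [mul_comm _ (Real.sin x), mul_assoc, mul_one_div_cancel c1, mul_one]
  · show (1 - h) / 2 * Real.sqrt ((1 + h) / 2) * Real.cos y *
      (1 / ((1 - h) / 2 * Real.sqrt ((1 + h) / 2))) = Real.cos y
    rw [mul_comm _ (Real.cos y), mul_assoc, mul_one_div_cancel c2, mul_one]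
  · show (1 - h) / 2 * Real.sqrt ((1 + h) / 2) * Real.sin y *
      (1 / ((1 - h) / 2 * Real.sqrt ((1 + h) / 2))) = Real.sin y
    rw [mul_comm _ (Real.sin y), mul_assoc, mul_one_div_cancel c2, mul_one]

theorem vv_angxy (i : Fin 3) {h : ℝ} (x y : ℝ) (hh : |h| < 1) :
    vv i (angxy h x y) = 1 - Real.cos (ll i x y) := by
  obtain ⟨h1, h2, h3, h4⟩ := phases_angxy x y hh
  unfold vv ll
  rw [h1, h2, h3, h4]
  fin_cases i
  · rfl
  · show 1 - (Real.cos x * Real.cos y - Real.sin x * Real.sin y) = 1 - Real.cos (x + y)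
    rw [Real.cos_add]
  · rfl

theorem uu_angxy {h : ℝ} (x y : ℝ) (hh : |h| < 1) :
    uu (angxy h x y) = 2 - Real.cos x - Real.cos y := by
  obtain ⟨h1, h2, h3, h4⟩ := phases_angxy x y hh
  unfold uu
  rw [h1, h3]

private lemma funb3_norm (z : ℂ) : ‖z‖ = Real.sqrt (Complex.normSq z) := by
  rw [Complex.normSq_eq_norm_sq, Real.sqrt_sq (norm_nonneg z)]

/-- Every point of the 3-sphere off the two cores has angular coordinates. -/
theorem exists_angxy {m : ℂ × ℂ} (hm : Complex.normSq m.1 + Complex.normSq m.2 = 1)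
    (hh : |hgt m| < 1) : ∃ x y : ℝ, m = angxy (hgt m) x y := by
  refine ⟨Complex.arg m.1 + 2 * Complex.arg m.2, 2 * Complex.arg m.1 - Complex.arg m.2, ?_⟩
  have e1 : (1 - hgt m) / 2 = Complex.normSq m.1 := by unfold hgt; linarith
  have e2 : (1 + hgt m) / 2 = Complex.normSq m.2 := by unfold hgt; linarith
  unfold angxy ang
  rw [e1, e2, ← funb3_norm, ← funb3_norm]
  have e3 : (Complex.arg m.1 + 2 * Complex.arg m.2 +
      2 * (2 * Complex.arg m.1 - Complex.arg m.2)) / 5 = Complex.arg m.1 := by ring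
  have e4 : (2 * (Complex.arg m.1 + 2 * Complex.arg m.2) -
      (2 * Complex.arg m.1 - Complex.arg m.2)) / 5 = Complex.arg m.2 := by ring
  rw [e3, e4, Complex.norm_mul_exp_arg_mul_I, Complex.norm_mul_exp_arg_mul_I]

theorem abs_hgt_le {m : ℂ × ℂ} (hm : Complex.normSq m.1 + Complex.normSq m.2 = 1) :
    |hgt m| ≤ 1 := by
  have h1 := Complex.normSq_nonneg m.1
  have h2 := Complex.normSq_nonneg m.2
  unfold hgt
  rw [abs_le]
  constructor <;> linarith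

/-- Smoothness of the parametrisation. -/
theorem contDiffAt_angxy {h : ℝ} (x y : ℝ) (hh : |h| < 1) :
    ContDiffAt ℝ ∞ (fun q : ℝ × ℝ × ℝ => angxy q.1 q.2.1 q.2.2) (h, x, y) := by
  rw [abs_lt] at hh
  have ha : (1 - h) / 2 ≠ 0 := by
    have : 0 < (1 - h) / 2 := by linarith
    exact this.ne'
  have hb : (1 + h) / 2 ≠ 0 := by
    have : 0 < (1 + h) / 2 := by linarith
    exact this.ne'
  have hof : ContDiff ℝ ∞ (fun t : ℝ => (t : ℂ)) := Complex.ofRealCLM.contDiff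
  have hexp : ContDiff ℝ ∞ (fun z : ℂ => Complex.exp z) := Complex.contDiff_exp
  have s1 : ContDiffAt ℝ ∞ (fun q : ℝ × ℝ × ℝ => Real.sqrt ((1 - q.1) / 2)) (h, x, y) := by
    have hd : ContDiffAt ℝ ∞ (fun q : ℝ × ℝ × ℝ => (1 - q.1) / 2) (h, x, y) :=
      ((contDiff_const.sub contDiff_fst).div_const 2).contDiffAt
    exact hd.sqrt ha
  have s2 : ContDiffAt ℝ ∞ (fun q : ℝ × ℝ × ℝ => Real.sqrt ((1 + q.1) / 2)) (h, x, y) := by
    have hd : ContDiffAt ℝ ∞ (fun q : ℝ × ℝ × ℝ => (1 + q.1) / 2) (h, x, y) :=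
      ((contDiff_const.add contDiff_fst).div_const 2).contDiffAt
    exact hd.sqrt hb
  have l1 : ContDiff ℝ ∞ (fun q : ℝ × ℝ × ℝ => (q.2.1 + 2 * q.2.2) / 5) := by fun_prop
  have l2 : ContDiff ℝ ∞ (fun q : ℝ × ℝ × ℝ => (2 * q.2.1 - q.2.2) / 5) := by fun_prop
  have e1 : ContDiff ℝ ∞ (fun q : ℝ × ℝ × ℝ =>
      Complex.exp ((((q.2.1 + 2 * q.2.2) / 5 : ℝ) : ℂ) * Complex.I)) :=
    hexp.comp ((hof.comp l1).mul contDiff_const)
  have e2 : ContDiff ℝ ∞ (fun q : ℝ × ℝ × ℝ =>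
      Complex.exp ((((2 * q.2.1 - q.2.2) / 5 : ℝ) : ℂ) * Complex.I)) :=
    hexp.comp ((hof.comp l2).mul contDiff_const)
  have c1 : ContDiffAt ℝ ∞ (fun q : ℝ × ℝ × ℝ => ((Real.sqrt ((1 - q.1) / 2) : ℝ) : ℂ)) (h, x, y) :=
    hof.contDiffAt.comp (h, x, y) s1
  have c2 : ContDiffAt ℝ ∞ (fun q : ℝ × ℝ × ℝ => ((Real.sqrt ((1 + q.1) / 2) : ℝ) : ℂ)) (h, x, y) :=
    hof.contDiffAt.comp (h, x, y) s2
  exact (c1.mul e1.contDiffAt).prodMk (c2.mul e2.contDiffAt)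

end Pool.Agent.Tri
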