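import Mathlib
import Pool.Agent.H.MP_5efd29_gt.FunA
import Pool.Agent.H.MP_5efd29_gt.FunA2
import Pool.Agent.H.MP_5efd29_gt.FunB1
import Pool.Agent.H.MP_5efd29_gt.FunB2
import Pool.Agent.H.MP_5efd29_gt.FunB3
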