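import Mathlib
import Pool.Agent.H.MP_5efd29_gt.FunA2
import Pool.Agent.H.MP_5efd29_gt.FunB2
import Pool.Agent.H.MP_5efd29_gt.FunB3

open scoped ContDiff Topology
open Set

noncomputable section

namespace Pool.Agent.Tri

/-- Some directional derivative of the function `f` of two variables is non-zero. -/
def Dir2 (f : ℝ → ℝ → ℝ) (x y : ℝ) : Prop :=
  ∃ a b c : ℝ, c ≠ 0 ∧ HasDerivAt (fun t : ℝ => f (x + t * a) (y + t * b)) c 0

theorem func_lt_of_ne {v : ℝ} (h : Lam v ≠ 0) : v < 1 / 1000 := by
  by_contra h1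
  exact h ((Lam_eq_zero_iff v).2 (not_lt.1 h1))

theorem func_ll0 (x y : ℝ) : ll 0 x y = y := rfl

theorem func_ll1 (x y : ℝ) : ll 1 x y = x + y := rfl

theorem func_ll2 (x y : ℝ) : ll 2 x y = x := rfl

theorem func_fin3 (P : Fin 3 → Prop) (h0 : P 0) (h1 : P 1) (h2 : P 2) (i : Fin 3) : P i := by
  fin_cases i
  · exact h0
  · exact h1
  · exact h2

/-- The parallelogram inequality. -/
theorem func_par (A B : ℝ) :
    1 - Real.cos (A - B) ≤ 2 * (1 - Real.cos A) + 2 * (1 - Real.cos B) := by
  rw [Real.cos_sub]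
  have h1 := Real.sin_sq_add_cos_sq A
  have h2 := Real.sin_sq_add_cos_sq B
  have h3 := sq_nonneg (Real.cos A - 1 + (Real.cos B - 1))
  have h4 := sq_nonneg (Real.sin A + Real.sin B)
  nlinarith

theorem func_bands01 {x y : ℝ} (h0 : 1 - Real.cos y < 1 / 1000)
    (h1 : 1 - Real.cos (x + y) < 1 / 1000) : 2 - Real.cos x - Real.cos y < 1 / 200 := by
  have h := func_par (x + y) y
  have e : x + y - y = x := by ring
  rw [e] at h
  linarith

theorem func_bands12 {x y : ℝ} (h0 : 1 - Real.cos x < 1 / 1000)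
    (h1 : 1 - Real.cos (x + y) < 1 / 1000) : 2 - Real.cos x - Real.cos y < 1 / 200 := by
  have h := func_par (x + y) x
  have e : x + y - x = y := by ring
  rw [e] at h
  linarith

/-- Two bands meet only near the centre. -/
theorem bands_disjoint {i j : Fin 3} (hij : i ≠ j) {x y : ℝ}
    (hi : Lam (1 - Real.cos (ll i x y)) ≠ 0) (hj : Lam (1 - Real.cos (ll j x y)) ≠ 0) :
    2 - Real.cos x - Real.cos y < 1 / 200 := by
  have h1 := func_lt_of_ne hi
  have h2 := func_lt_of_ne hj
  suffices key : ∀ i j : Fin 3, i ≠ j → 1 - Real.cos (ll i x y) < 1 / 1000 →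
      1 - Real.cos (ll j x y) < 1 / 1000 → 2 - Real.cos x - Real.cos y < 1 / 200 from
    key i j hij h1 h2
  clear h1 h2 hi hj hij
  refine func_fin3 _ ?_ ?_ ?_
  · refine func_fin3 _ ?_ ?_ ?_
    · intro h; exact absurd rfl h
    · intro _ h1 h2
      rw [func_ll0] at h1
      rw [func_ll1] at h2
      exact func_bands01 h1 h2
    · intro _ h1 h2
      rw [func_ll0] at h1
      rw [func_ll2] at h2
      linarith
  · refine func_fin3 _ ?_ ?_ ?_
    · intro _ h1 h2
      rw [func_ll1] at h1
      rw [func_ll0] at h2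
      exact func_bands01 h2 h1
    · intro h; exact absurd rfl h
    · intro _ h1 h2
      rw [func_ll1] at h1
      rw [func_ll2] at h2
      exact func_bands12 h2 h1
  · refine func_fin3 _ ?_ ?_ ?_
    · intro _ h1 h2
      rw [func_ll2] at h1
      rw [func_ll0] at h2
      linarith
    · intro _ h1 h2
      rw [func_ll2] at h1
      rw [func_ll1] at h2
      exact func_bands12 h1 h2
    · intro h; exact absurd rfl h

/-- Where two of the functions `lam` are non-zero, `rho` is negative. -/
theorem rho_neg_of_lam {i j : Fin 3} (hij : i ≠ j) {m : ℂ × ℂ}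
    (hm : Complex.normSq m.1 + Complex.normSq m.2 = 1) (hi : lam i m ≠ 0) (hj : lam j m ≠ 0) :
    rho m < 0 := by
  unfold lam at hi hj
  have he : eta (hgt m) ≠ 0 := left_ne_zero_of_mul hi
  have h1 : 64 * hgt m ^ 2 < 1 := by
    by_contra h
    exact he ((eta_eq_zero_iff _).2 (not_lt.1 h))
  have hh : |hgt m| < 1 := by
    rw [← sq_lt_one_iff_abs_lt_one]
    nlinarith [sq_nonneg (hgt m)]
  obtain ⟨x, y, e⟩ := exists_angxy hm hh
  have v1 := vv_angxy i x y hh
  have v2 := vv_angxy j x y hh
  have u1 := uu_angxy x y hh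
  rw [← e] at v1 v2 u1
  have l1 := right_ne_zero_of_mul hi
  have l2 := right_ne_zero_of_mul hj
  rw [v1] at l1
  rw [v2] at l2
  have hu := bands_disjoint hij l1 l2
  have hb : bt (1 / 200) ≤ bt (uu m) := antitone_bt (by rw [u1]; exact hu.le)
  rw [bt_mid] at hb
  unfold rho
  rw [cc_of_small (by linarith), one_mul]
  linarith

theorem func_ll_line (i : Fin 3) (x y a b t : ℝ) :
    ll i (x + t * a) (y + t * b) = ll i x y + t * ll i a b := by
  refine func_fin3 (fun i => ll i (x + t * a) (y + t * b) = ll i x y + t * ll i a b) ?_ ?_ ?_ i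
  · rfl
  · show x + t * a + (y + t * b) = x + y + t * (a + b)
    ring
  · rfl

theorem func_line (x a : ℝ) : HasDerivAt (fun t : ℝ => x + t * a) a 0 := by
  simpa using ((hasDerivAt_id (0 : ℝ)).mul_const a).const_add x

theorem func_cos (x a : ℝ) :
    HasDerivAt (fun t : ℝ => Real.cos (x + t * a)) (-(a * Real.sin x)) 0 := by
  have h := (func_line x a).cos
  have e : x + 0 * a = x := by ring
  rw [e] at h
  have e2 : -(a * Real.sin x) = -Real.sin x * a := by ring
  rw [e2]
  exact h

theorem func_bt (x y a b τ : ℝ) :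
    HasDerivAt (fun t : ℝ => bt (2 - Real.cos (x + t * a) - Real.cos (y + t * b) + τ))
      (deriv bt (2 - Real.cos x - Real.cos y + τ) * (a * Real.sin x + b * Real.sin y)) 0 := by
  have h1 : HasDerivAt (fun t : ℝ => 2 - Real.cos (x + t * a) - Real.cos (y + t * b) + τ)
      (a * Real.sin x + b * Real.sin y) 0 := by
    have h2 := (((func_cos x a).const_sub 2).sub (func_cos y b)).add_const τ
    have e : a * Real.sin x + b * Real.sin y = - -(a * Real.sin x) - -(b * Real.sin y) := by ring
    rw [e]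
    exact h2
  have hd : DifferentiableAt ℝ bt (2 - Real.cos x - Real.cos y + τ) :=
    (contDiff_bt.differentiable (by simp)) _
  have h3 : HasDerivAt bt (deriv bt (2 - Real.cos x - Real.cos y + τ))
      (2 - Real.cos (x + 0 * a) - Real.cos (y + 0 * b) + τ) := by
    rw [zero_mul, zero_mul, add_zero, add_zero]
    exact hd.hasDerivAt
  have h4 := h3.comp (0 : ℝ) h1
  exact h4

theorem func_Lam (i : Fin 3) (x y a b : ℝ) :
    HasDerivAt (fun t : ℝ => Lam (1 - Real.cos (ll i (x + t * a) (y + t * b))))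
      (deriv Lam (1 - Real.cos (ll i x y)) * (ll i a b * Real.sin (ll i x y))) 0 := by
  have e : (fun t : ℝ => Lam (1 - Real.cos (ll i (x + t * a) (y + t * b)))) =
      fun t : ℝ => Lam (1 - Real.cos (ll i x y + t * ll i a b)) := by
    funext t
    rw [func_ll_line]
  rw [e]
  have h1 : HasDerivAt (fun t : ℝ => 1 - Real.cos (ll i x y + t * ll i a b))
      (ll i a b * Real.sin (ll i x y)) 0 := by
    have h2 := (func_cos (ll i x y) (ll i a b)).const_sub 1
    rw [neg_neg] at h2
    exact h2
  have hd : DifferentiableAt ℝ Lam (1 - Real.cos (ll i x y)) :=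
    (contDiff_Lam.differentiable (by simp)) _
  have h3 : HasDerivAt Lam (deriv Lam (1 - Real.cos (ll i x y)))
      (1 - Real.cos (ll i x y + 0 * ll i a b)) := by
    rw [zero_mul, add_zero]
    exact hd.hasDerivAt
  have h4 := h3.comp (0 : ℝ) h1
  exact h4

theorem func_deriv (i : Fin 3) (x y a b τ σ : ℝ) :
    HasDerivAt (fun t : ℝ => bt (2 - Real.cos (x + t * a) - Real.cos (y + t * b) + τ) +
        (Lam (1 - Real.cos (ll i (x + t * a) (y + t * b))) + σ) ^ 2)
      (deriv bt (2 - Real.cos x - Real.cos y + τ) * (a * Real.sin x + b * Real.sin y) +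
        2 * (Lam (1 - Real.cos (ll i x y)) + σ) *
          (deriv Lam (1 - Real.cos (ll i x y)) * (ll i a b * Real.sin (ll i x y)))) 0 := by
  have h1 := func_bt x y a b τ
  have h2 := ((func_Lam i x y a b).add_const σ).pow 2
  have h3 := h1.add h2
  have e : deriv bt (2 - Real.cos x - Real.cos y + τ) * (a * Real.sin x + b * Real.sin y) +
        2 * (Lam (1 - Real.cos (ll i x y)) + σ) *
          (deriv Lam (1 - Real.cos (ll i x y)) * (ll i a b * Real.sin (ll i x y))) =
      deriv bt (2 - Real.cos x - Real.cos y + τ) * (a * Real.sin x + b * Real.sin y) +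
        ((2 : ℕ) : ℝ) * (Lam (1 - Real.cos (ll i (x + 0 * a) (y + 0 * b))) + σ) ^ (2 - 1) *
          (deriv Lam (1 - Real.cos (ll i x y)) * (ll i a b * Real.sin (ll i x y))) := by
    rw [zero_mul, zero_mul, add_zero, add_zero]
    norm_num
  rw [e]
  exact h3

theorem func_sin_ne {z : ℝ} (h0 : 0 < 1 - Real.cos z) (h1 : 1 - Real.cos z < 1) :
    Real.sin z ≠ 0 := by
  intro h
  have h2 := Real.sin_sq_add_cos_sq z
  rw [h] at h2
  nlinarith

theorem func_v_pos (i : Fin 3) {x y : ℝ} (h : 0 < 1 - Real.cos (ll i x y)) :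
    0 < 2 - Real.cos x - Real.cos y := by
  by_contra hu
  rw [not_lt] at hu
  have c1 := Real.cos_le_one x
  have c2 := Real.cos_le_one y
  have e1 : Real.cos x = 1 := by linarith
  have e2 : Real.cos y = 1 := by linarith
  have s1 : Real.sin x = 0 := by
    have := Real.sin_sq_add_cos_sq x
    rw [e1] at this
    nlinarith
  have key : ∀ i : Fin 3, Real.cos (ll i x y) = 1 := by
    refine func_fin3 _ ?_ ?_ ?_
    · exact e2
    · rw [func_ll1, Real.cos_add, e1, e2, s1]
      ring
    · exact e1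
  rw [key i] at h
  linarith

/-- The two-dimensional non-degeneracy lemma for one band. -/
theorem L2D (i : Fin 3) {τ σ : ℝ} (hτ : 0 ≤ τ) (hσ : 0 ≤ σ) (hσ' : σ < 1 / 10) {x y : ℝ}
    (h0 : bt (2 - Real.cos x - Real.cos y + τ) + (Lam (1 - Real.cos (ll i x y)) + σ) ^ 2
      = 1 / 100) :
    Dir2 (fun x y => bt (2 - Real.cos x - Real.cos y + τ) +
      (Lam (1 - Real.cos (ll i x y)) + σ) ^ 2) x y := by
  have hb0 := bt_nonneg (2 - Real.cos x - Real.cos y + τ)
  have hL0 := Lam_nonneg (1 - Real.cos (ll i x y))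
  have hLs : Lam (1 - Real.cos (ll i x y)) + σ ≤ 1 / 10 := by
    nlinarith
  have hv := lt_of_Lam_le (v := 1 - Real.cos (ll i x y)) (by linarith)
  have hu := func_v_pos i (x := x) (y := y) (by linarith)
  have c1 := Real.cos_le_one x
  have c2 := Real.cos_le_one y
  have s1 := Real.sin_sq_add_cos_sq x
  have s2 := Real.sin_sq_add_cos_sq y
  rcases hb0.lt_or_eq with hb | hb
  · have hb1 : bt (2 - Real.cos x - Real.cos y + τ) < 1 / 16 := by
      nlinarith [sq_nonneg (Lam (1 - Real.cos (ll i x y)) + σ)]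
    obtain ⟨-, hu2, hd⟩ := deriv_bt_neg hb hb1
    have hcx : 0 < Real.cos x := by linarith
    have hcy : 0 < Real.cos y := by linarith
    refine ⟨Real.sin x, Real.sin y, _, ?_, func_deriv i x y (Real.sin x) (Real.sin y) τ σ⟩
    have k1 : 0 < Real.sin x * Real.sin x + Real.sin y * Real.sin y := by
      nlinarith
    have k2 : ∀ i : Fin 3, 0 ≤ ll i (Real.sin x) (Real.sin y) * Real.sin (ll i x y) := by
      refine func_fin3 _ ?_ ?_ ?_
      · show 0 ≤ Real.sin y * Real.sin y
        exact mul_self_nonneg _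
      · show 0 ≤ (Real.sin x + Real.sin y) * Real.sin (x + y)
        have e : (Real.sin x + Real.sin y) * Real.sin (x + y) =
            (1 - Real.cos (x + y)) * (Real.cos x + Real.cos y) := by
          rw [Real.sin_add, Real.cos_add]
          linear_combination Real.cos y * s1 + Real.cos x * s2
        rw [e]
        have := Real.cos_le_one (x + y)
        have e3 : 0 ≤ 1 - Real.cos (x + y) := by linarith
        positivity
      · show 0 ≤ Real.sin x * Real.sin x
        exact mul_self_nonneg _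
    have k3 : deriv bt (2 - Real.cos x - Real.cos y + τ) *
        (Real.sin x * Real.sin x + Real.sin y * Real.sin y) < 0 := mul_neg_of_neg_of_pos hd k1
    have k4 : 2 * (Lam (1 - Real.cos (ll i x y)) + σ) *
          (deriv Lam (1 - Real.cos (ll i x y)) *
            (ll i (Real.sin x) (Real.sin y) * Real.sin (ll i x y))) ≤ 0 := by
      have k5 := mul_nonpos_of_nonpos_of_nonneg
        (deriv_Lam_nonpos (1 - Real.cos (ll i x y))) (k2 i)
      have k6 : 0 ≤ 2 * (Lam (1 - Real.cos (ll i x y)) + σ) := by linarith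
      exact mul_nonpos_of_nonneg_of_nonpos k6 k5
    linarith
  · have hb' : bt (2 - Real.cos x - Real.cos y + τ) = 0 := hb.symm
    have hd := deriv_bt_eq_zero hb'
    rw [hb', zero_add] at h0
    have hL1 : Lam (1 - Real.cos (ll i x y)) + σ = 1 / 10 := by
      nlinarith
    have hL2 : 0 < Lam (1 - Real.cos (ll i x y)) := by linarith
    obtain ⟨v0, v1, hL3⟩ := deriv_Lam_neg hL2 (by linarith)
    have hs := func_sin_ne v0 (by linarith)
    refine ⟨1, 1, _, ?_, func_deriv i x y 1 1 τ σ⟩
    rw [hd, hL1, zero_mul, zero_add]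
    have k1 : ∀ i : Fin 3, ll i 1 1 ≠ 0 := by
      refine func_fin3 _ ?_ ?_ ?_
      · show (1 : ℝ) ≠ 0
        norm_num
      · show (1 : ℝ) + 1 ≠ 0
        norm_num
      · show (1 : ℝ) ≠ 0
        norm_num
    have k2 : (2 * (1 / 10) : ℝ) ≠ 0 := by norm_num
    exact mul_ne_zero k2 (mul_ne_zero hL3.ne (mul_ne_zero (k1 i) hs))

theorem func_dir (i : Fin 3) : (dir i).re ^ 2 + (dir i).im ^ 2 = 1 := by
  have h : ‖dir i‖ = 1 := by
    unfold dir
    have e : (2 * Real.pi * Complex.I * ((i : ℕ) : ℂ) / 3 : ℂ) =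
        ((2 * Real.pi * ((i : ℕ) : ℝ) / 3 : ℝ) : ℂ) * Complex.I := by
      push_cast
      ring
    rw [e, Complex.norm_exp_ofReal_mul_I]
  have h2 := Complex.sq_norm (dir i)
  rw [h, Complex.normSq_apply] at h2
  nlinarith

theorem func_normSq (L : Fin 3 → ℝ) :
    Complex.normSq (∑ i, (L i : ℂ) * dir i) =
      (∑ i, L i * (dir i).re) ^ 2 + (∑ i, L i * (dir i).im) ^ 2 := by
  rw [Complex.normSq_apply, Complex.re_sum, Complex.im_sum]
  simp only [Complex.re_ofReal_mul, Complex.im_ofReal_mul]
  ring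

/-- The two-dimensional non-degeneracy lemma for the three bands together. -/
theorem L2D_tot {x y : ℝ}
    (h0 : bt (2 - Real.cos x - Real.cos y) +
      Complex.normSq (∑ i, (Lam (1 - Real.cos (ll i x y)) : ℂ) * dir i) = 1 / 100) :
    Dir2 (fun x y => bt (2 - Real.cos x - Real.cos y) +
      Complex.normSq (∑ i, (Lam (1 - Real.cos (ll i x y)) : ℂ) * dir i)) x y := by
  have hone : ∃ i : Fin 3, ∀ j, j ≠ i → Lam (1 - Real.cos (ll j x y)) = 0 := by
    by_cases hz : ∀ j, Lam (1 - Real.cos (ll j x y)) = 0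
    · exact ⟨0, fun j _ => hz j⟩
    · push Not at hz
      obtain ⟨i, hi⟩ := hz
      refine ⟨i, fun j hj => ?_⟩
      by_contra hne
      have hu := bands_disjoint hj hne hi
      have hb : bt (1 / 200) ≤ bt (2 - Real.cos x - Real.cos y) := antitone_bt hu.le
      rw [bt_mid] at hb
      have := Complex.normSq_nonneg (∑ i, (Lam (1 - Real.cos (ll i x y)) : ℂ) * dir i)
      linarith
  obtain ⟨i, hi⟩ := hone
  have hsum : ∀ c : Fin 3 → ℝ, (∑ j, Lam (1 - Real.cos (ll j x y)) * c j) =
      Lam (1 - Real.cos (ll i x y)) * c i := by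
    intro c
    apply Finset.sum_eq_single i
    · intro j _ hj
      rw [hi j hj, zero_mul]
    · intro h
      exact absurd (Finset.mem_univ i) h
  have hdi := func_dir i
  have h1 : bt (2 - Real.cos x - Real.cos y + 0) + (Lam (1 - Real.cos (ll i x y)) + 0) ^ 2
      = 1 / 100 := by
    rw [func_normSq (fun i => Lam (1 - Real.cos (ll i x y)))] at h0
    rw [hsum, hsum] at h0
    rw [add_zero, add_zero, ← h0]
    linear_combination (-(Lam (1 - Real.cos (ll i x y))) ^ 2) * hdi
  obtain ⟨a, b, c, hc, hder⟩ := L2D i le_rfl le_rfl (by norm_num) h1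
  have huniq := hder.unique (func_deriv i x y a b 0 0)
  refine ⟨a, b, c, hc, ?_⟩
  have e : (fun t : ℝ => (fun x y => bt (2 - Real.cos x - Real.cos y) +
      Complex.normSq (∑ i, (Lam (1 - Real.cos (ll i x y)) : ℂ) * dir i)) (x + t * a) (y + t * b)) =
      fun t : ℝ => bt (2 - Real.cos (x + t * a) - Real.cos (y + t * b) + 0) +
        ((∑ j, Lam (1 - Real.cos (ll j (x + t * a) (y + t * b))) * (dir j).re) ^ 2 +
          (∑ j, Lam (1 - Real.cos (ll j (x + t * a) (y + t * b))) * (dir j).im) ^ 2) := by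
    funext t
    show bt (2 - Real.cos (x + t * a) - Real.cos (y + t * b)) +
      Complex.normSq (∑ i, (Lam (1 - Real.cos (ll i (x + t * a) (y + t * b))) : ℂ) * dir i) = _
    rw [func_normSq (fun i => Lam (1 - Real.cos (ll i (x + t * a) (y + t * b)))), add_zero]
  rw [e]
  have hD : ∀ c : Fin 3 → ℝ, HasDerivAt
      (fun t : ℝ => ∑ j, Lam (1 - Real.cos (ll j (x + t * a) (y + t * b))) * c j)
      (deriv Lam (1 - Real.cos (ll i x y)) * (ll i a b * Real.sin (ll i x y)) * c i) 0 := by
    intro c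
    have h2 : HasDerivAt
      (fun t : ℝ => ∑ j, Lam (1 - Real.cos (ll j (x + t * a) (y + t * b))) * c j)
      (∑ j, deriv Lam (1 - Real.cos (ll j x y)) * (ll j a b * Real.sin (ll j x y)) * c j) 0 := by
      apply HasDerivAt.fun_sum
      intro j _
      exact (func_Lam j x y a b).mul_const (c j)
    have h3 : (∑ j, deriv Lam (1 - Real.cos (ll j x y)) *
        (ll j a b * Real.sin (ll j x y)) * c j) =
        deriv Lam (1 - Real.cos (ll i x y)) * (ll i a b * Real.sin (ll i x y)) * c i := by
      apply Finset.sum_eq_single i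
      · intro j _ hj
        rw [deriv_Lam_eq_zero (hi j hj), zero_mul, zero_mul]
      · intro h
        exact absurd (Finset.mem_univ i) h
    rw [h3] at h2
    exact h2
  have h4 := (func_bt x y a b 0).add
    (((hD fun j => (dir j).re).pow 2).add ((hD fun j => (dir j).im).pow 2))
  have e5 : ∀ j : Fin 3, ll j (x + 0 * a) (y + 0 * b) = ll j x y := by
    intro j
    rw [zero_mul, zero_mul, add_zero, add_zero]
  simp only [e5] at h4
  rw [hsum, hsum] at h4
  have e6 : c = deriv bt (2 - Real.cos x - Real.cos y + 0) * (a * Real.sin x + b * Real.sin y) +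
      (((2 : ℕ) : ℝ) * (Lam (1 - Real.cos (ll i x y)) * (dir i).re) ^ (2 - 1) *
        (deriv Lam (1 - Real.cos (ll i x y)) * (ll i a b * Real.sin (ll i x y)) * (dir i).re) +
      ((2 : ℕ) : ℝ) * (Lam (1 - Real.cos (ll i x y)) * (dir i).im) ^ (2 - 1) *
        (deriv Lam (1 - Real.cos (ll i x y)) * (ll i a b * Real.sin (ll i x y)) * (dir i).im)) := by
    rw [huniq]
    norm_num
    linear_combination (-2 * Lam (1 - Real.cos (ll i x y)) *
      (deriv Lam (1 - Real.cos (ll i x y)) * (ll i a b * Real.sin (ll i x y)))) * hdi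
  rw [e6]
  exact h4

/-- Near the foot of a band there is a direction along the band which changes the distance to the
centre. -/
theorem foot (j : Fin 3) {x y : ℝ} (h1 : 1 / 200 < 2 - Real.cos x - Real.cos y)
    (h2 : 2 - Real.cos x - Real.cos y < 1 / 100) (h3 : Lam (1 - Real.cos (ll j x y)) ≠ 0) :
    ∃ a b : ℝ, ll j a b = 0 ∧ a * Real.sin x + b * Real.sin y ≠ 0 := by
  have h4 := func_lt_of_ne h3
  clear h3
  have c1 := Real.cos_le_one x
  have c2 := Real.cos_le_one y
  revert h4
  refine func_fin3 (fun j => 1 - Real.cos (ll j x y) < 1 / 1000 →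
    ∃ a b : ℝ, ll j a b = 0 ∧ a * Real.sin x + b * Real.sin y ≠ 0) ?_ ?_ ?_ j
  · intro h
    rw [func_ll0] at h
    refine ⟨1, 0, rfl, ?_⟩
    have := func_sin_ne (z := x) (by linarith) (by linarith)
    rw [one_mul, zero_mul, add_zero]
    exact this
  · intro h
    rw [func_ll1] at h
    refine ⟨1, -1, ?_, ?_⟩
    · show (1 : ℝ) + -1 = 0
      norm_num
    · intro hs
      have hs' : Real.sin x - Real.sin y = 0 := by linarith
      have s1 := Real.sin_sq_add_cos_sq x
      have s2 := Real.sin_sq_add_cos_sq y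
      have e : (Real.cos x + Real.cos y) ^ 2 + (Real.sin x - Real.sin y) ^ 2 =
          2 + 2 * Real.cos (x + y) := by
        rw [Real.cos_add]
        linear_combination s1 + s2
      rw [hs'] at e
      nlinarith
  · intro h
    rw [func_ll2] at h
    refine ⟨0, 1, rfl, ?_⟩
    have := func_sin_ne (z := y) (by linarith) (by linarith)
    rw [one_mul, zero_mul, zero_add]
    exact this

end Pool.Agent.Tri
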