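import Mathlib
import Pool.Agent.H.MP_5efd29_gt.FunB3

open scoped ContDiff Topology
open Set

noncomputable section

namespace Pool.Agent.Tri

theorem rho_angxy {h : ℝ} (x y : ℝ) (hh : |h| < 1) :
    rho (angxy h x y) = h ^ 2 + 1 / 100 - cc h * bt (2 - Real.cos x - Real.cos y) := by
  unfold rho
  rw [hgt_angxy x y hh.le, uu_angxy x y hh]

theorem lam_angxy (i : Fin 3) {h : ℝ} (x y : ℝ) (hh : |h| < 1) :
    lam i (angxy h x y) = eta h * Lam (1 - Real.cos (ll i x y)) := by
  unfold lam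
  rw [hgt_angxy x y hh.le, vv_angxy i x y hh]

theorem pp_angxy {h : ℝ} (x y : ℝ) (hh : |h| < 1) :
    pp (angxy h x y) =
      (eta h : ℂ) * ∑ i, (Lam (1 - Real.cos (ll i x y)) : ℂ) * dir i := by
  unfold pp
  rw [Finset.mul_sum]
  refine Finset.sum_congr rfl fun i _ => ?_
  rw [lam_angxy i x y hh]
  push_cast
  ring

/-- The curve in the direction of `h`. -/
theorem curve_h {h : ℝ} (x y : ℝ) (hh : |h| < 1) :
    DifferentiableAt ℝ (fun t : ℝ => angxy (h + t) x y) 0 ∧ angxy (h + 0) x y = angxy h x y ∧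
      ∀ᶠ t in 𝓝 (0 : ℝ), |h + t| < 1 ∧
        Complex.normSq (angxy (h + t) x y).1 + Complex.normSq (angxy (h + t) x y).2 = 1 := by
  refine ⟨?_, by rw [add_zero], ?_⟩
  · have h1 : DifferentiableAt ℝ (fun q : ℝ × ℝ × ℝ => angxy q.1 q.2.1 q.2.2) (h + 0, x, y) := by
      rw [add_zero]
      exact (contDiffAt_angxy x y hh).differentiableAt (by simp)
    have h2 : DifferentiableAt ℝ (fun t : ℝ => ((h + t, x, y) : ℝ × ℝ × ℝ)) 0 := by fun_prop
    exact DifferentiableAt.comp (0 : ℝ) h1 h2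
  · have hc : Continuous (fun t : ℝ => |h + t|) := by fun_prop
    have h3 : |h + 0| < 1 := by rwa [add_zero]
    have h4 : ∀ᶠ t in 𝓝 (0 : ℝ), |h + t| < 1 := hc.continuousAt.eventually (gt_mem_nhds h3)
    filter_upwards [h4] with t ht
    refine ⟨ht, ?_⟩
    obtain ⟨e1, e2⟩ := normSq_angxy x y ht.le
    rw [e1, e2]
    ring

/-- The curves in the tori of constant `h`. -/
theorem curve_xy {h : ℝ} (x y a b : ℝ) (hh : |h| < 1) :
    DifferentiableAt ℝ (fun t : ℝ => angxy h (x + t * a) (y + t * b)) 0 ∧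
      angxy h (x + 0 * a) (y + 0 * b) = angxy h x y ∧
      ∀ t : ℝ, Complex.normSq (angxy h (x + t * a) (y + t * b)).1 +
        Complex.normSq (angxy h (x + t * a) (y + t * b)).2 = 1 := by
  refine ⟨?_, by rw [zero_mul, zero_mul, add_zero, add_zero], ?_⟩
  · have h1 : DifferentiableAt ℝ (fun q : ℝ × ℝ × ℝ => angxy q.1 q.2.1 q.2.2)
        (h, x + 0 * a, y + 0 * b) := by
      rw [zero_mul, zero_mul, add_zero, add_zero]
      exact (contDiffAt_angxy x y hh).differentiableAt (by simp)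
    have h2 : DifferentiableAt ℝ (fun t : ℝ => ((h, x + t * a, y + t * b) : ℝ × ℝ × ℝ)) 0 := by
      fun_prop
    exact DifferentiableAt.comp (0 : ℝ) h1 h2
  · intro t
    obtain ⟨e1, e2⟩ := normSq_angxy (x + t * a) (y + t * b) hh.le
    rw [e1, e2]
    ring

/-- On the cores of the two solid tori. -/
theorem values_core {m : ℂ × ℂ} (hh : 1 ≤ |hgt m|) :
    rho m = hgt m ^ 2 + 1 / 100 ∧ (∀ i, lam i m = 0) ∧ pp m = 0 := by
  have h1 : 1 ≤ hgt m ^ 2 := by
    rw [← sq_abs]
    nlinarith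
  have h2 : cc (hgt m) = 0 := by
    unfold cc SS
    exact Real.smoothTransition.zero_of_nonpos (by linarith)
  have h3 : eta (hgt m) = 0 := by
    unfold eta SS
    exact Real.smoothTransition.zero_of_nonpos (by linarith)
  have h4 : ∀ i, lam i m = 0 := by
    intro i
    unfold lam
    rw [h3, zero_mul]
  refine ⟨?_, h4, ?_⟩
  · unfold rho
    rw [h2, zero_mul, sub_zero]
  · unfold pp
    simp only [h4, Complex.ofReal_zero, zero_mul, Finset.sum_const_zero]

end Pool.Agent.Tri
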