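import Mathlib
import Pool.Agent.H.MP_5efd29_gt.LensB

open scoped ContDiff Topology
open Set

noncomputable section

namespace Pool.Agent.Tri

/-- Four-dimensional space. -/
abbrev LenseR4 : Type := EuclideanSpace ℝ (Fin 4)

lemma lense_finrank : Module.finrank ℝ C3 = Module.finrank ℝ (ℂ × LenseR4) := by
  simp [Module.finrank_prod]

/-- A fixed identification. -/
def lenseB : C3 ≃L[ℝ] (ℂ × LenseR4) := ContinuousLinearEquiv.ofFinrankEq lense_finrank

/-- Determinant relative to the fixed identification. -/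
def lenseDet (L : C3 →L[ℝ] ℂ × LenseR4) : ℝ :=
  ((lenseB.symm : (ℂ × LenseR4) →L[ℝ] C3).comp L).det

lemma lense_continuous : Continuous lenseDet := by
  unfold lenseDet
  exact ContinuousLinearMap.continuous_det.comp (continuous_const.clm_comp continuous_id)

lemma lense_comp (L : C3 →L[ℝ] ℂ × LenseR4) (g : C3 →L[ℝ] C3) :
    lenseDet (L.comp g) = lenseDet L * g.det := by
  unfold lenseDet
  rw [← ContinuousLinearMap.comp_assoc]
  simp only [ContinuousLinearMap.det]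
  exact LinearMap.det_comp _ _

lemma lense_comp_left (L : C3 →L[ℝ] ℂ × LenseR4) (N : (ℂ × LenseR4) →L[ℝ] (ℂ × LenseR4)) :
    lenseDet (N.comp L) = N.det * lenseDet L := by
  unfold lenseDet
  have h1 : (lenseB.symm : (ℂ × LenseR4) →L[ℝ] C3).comp (N.comp L) =
      (((lenseB.symm : (ℂ × LenseR4) →L[ℝ] C3).comp N).comp (lenseB : C3 →L[ℝ] (ℂ × LenseR4))).comp
        ((lenseB.symm : (ℂ × LenseR4) →L[ℝ] C3).comp L) := by
    ext x <;> simp
  rw [h1]
  simp only [ContinuousLinearMap.det]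
  refine (LinearMap.det_comp _ _).trans ?_
  congr 1
  exact LinearMap.det_conj (N : (ℂ × LenseR4) →ₗ[ℝ] (ℂ × LenseR4)) lenseB.symm.toLinearEquiv

lemma lense_equiv {L : C3 →L[ℝ] ℂ × LenseR4} (h : lenseDet L ≠ 0) :
    ∃ e : C3 ≃L[ℝ] ℂ × LenseR4, (e : C3 →L[ℝ] ℂ × LenseR4) = L := by
  refine ⟨(ContinuousLinearMap.toContinuousLinearEquivOfDetNeZero _ h).trans lenseB, ?_⟩
  ext x <;> simp

lemma lense_block (N : (ℂ × LenseR4) →ₗ[ℝ] (ℂ × LenseR4)) (T : LenseR4 →ₗ[ℝ] LenseR4)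
    (h1 : ∀ q, (N q).1 = q.1) (h2 : ∀ u, N (0, u) = (0, T u)) :
    LinearMap.det N = LinearMap.det T := by
  classical
  let b := Module.finBasis ℝ ℂ
  let b' := Module.finBasis ℝ LenseR4
  rw [← LinearMap.det_toMatrix (b.prod b'), ← LinearMap.det_toMatrix b']
  have : LinearMap.toMatrix (b.prod b') (b.prod b') N = Matrix.fromBlocks 1 0
      (Matrix.of fun i j => b'.repr (N (b j, 0)).2 i) (LinearMap.toMatrix b' b' T) := by
    ext (i | i) (j | j)
    · simp [LinearMap.toMatrix_apply, h1, Matrix.one_apply, Finsupp.single_apply, eq_comm]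
    · simp [LinearMap.toMatrix_apply, h1]
    · simp [LinearMap.toMatrix_apply]
    · simp [LinearMap.toMatrix_apply, h2]
  rw [this, Matrix.det_fromBlocks_zero₁₂, Matrix.det_one, one_mul]

/-- Choice of complementary coordinates. -/
lemma lense_choice (D : C3 →L[ℝ] ℂ) (hD : Function.Surjective D) :
    ∃ p : C3 →L[ℝ] LenseR4, 0 < lenseDet (D.prod p) := by
  classical
  have hK : Module.finrank ℝ (LinearMap.ker (D : C3 →ₗ[ℝ] ℂ)) = Module.finrank ℝ LenseR4 := by
    have := LinearMap.finrank_range_add_finrank_ker (D : C3 →ₗ[ℝ] ℂ)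
    rw [LinearMap.range_eq_top.2 hD] at this
    simp [Module.finrank_prod] at this ⊢
    omega
  obtain ⟨π, hπ⟩ := (LinearMap.ker (D : C3 →ₗ[ℝ] ℂ)).subtype.exists_leftInverse_of_injective
    (Submodule.ker_subtype _)
  let ι := LinearEquiv.ofFinrankEq _ _ hK
  let p0 : C3 →L[ℝ] LenseR4 := LinearMap.toContinuousLinearMap (ι.toLinearMap ∘ₗ π)
  have hne : lenseDet (D.prod p0) ≠ 0 := by
    unfold lenseDet
    rw [ContinuousLinearMap.det]
    intro h0
    have := LinearMap.bot_lt_ker_of_det_eq_zero h0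
    obtain ⟨v, hv, hv0⟩ := Submodule.exists_mem_ne_zero_of_ne_bot this.ne'
    apply hv0
    rw [LinearMap.mem_ker] at hv
    have hv2 : (D.prod p0) v = 0 := by
      have : lenseB.symm ((D.prod p0) v) = 0 := hv
      simpa using this
    have hv3 : D v = 0 := congrArg Prod.fst hv2
    have hv4 : ι (π v) = 0 := congrArg Prod.snd hv2
    have hv5 : π v = 0 := by simpa using hv4
    have hv6 := LinearMap.congr_fun hπ ⟨v, hv3⟩
    simp only [LinearMap.comp_apply, Submodule.subtype_apply, LinearMap.id_apply] at hv6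
    rw [hv5] at hv6
    exact (congrArg Subtype.val hv6).symm
  rcases lt_or_gt_of_ne hne with h | h
  · let bb := (EuclideanSpace.basisFun (Fin 4) ℝ).toBasis
    let r0 : LenseR4 →ₗ[ℝ] LenseR4 := Matrix.toLin bb bb (Matrix.diagonal ![-1, 1, 1, 1])
    have hr : LinearMap.det r0 = -1 := by
      simp [r0, LinearMap.det_toLin, Matrix.det_diagonal, Fin.prod_univ_four]
    let r : LenseR4 →L[ℝ] LenseR4 := LinearMap.toContinuousLinearMap r0
    refine ⟨r.comp p0, ?_⟩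
    have h1 : D.prod (r.comp p0) =
        ((ContinuousLinearMap.id ℝ ℂ).prodMap r).comp (D.prod p0) := by
      ext x <;> simp
    rw [h1, lense_comp_left]
    have h2 : ((ContinuousLinearMap.id ℝ ℂ).prodMap r).det = -1 := by
      rw [← hr, ContinuousLinearMap.det]
      apply lense_block
      · intro q; simp
      · intro u; simp [r]
    rw [h2]
    linarith
  · exact ⟨p0, h⟩

/-- The iterates of `act` as linear maps. -/
def lenseAct (k : ℕ) : C3 →L[ℝ] C3 :=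
  LinearMap.toContinuousLinearMap
    { toFun := fun x => (zeta ^ k * x.1, zeta ^ (2 * k) * x.2.1, x.2.2)
      map_add' := by intro x y; ext <;> simp [mul_add]
      map_smul' := by
        intro c x
        ext <;> simp <;> ring }

lemma lenseAct_apply (k : ℕ) (x : C3) : lenseAct k x = act^[k] x := by
  rw [act_iterate]
  rfl

lemma lenseAct_det (k : ℕ) : 0 < (lenseAct k).det := by
  have h5 : (lenseAct k : C3 →ₗ[ℝ] C3) ^ 5 = 1 := by
    have hz : ∀ z : ℂ, zeta ^ k * (zeta ^ k * (zeta ^ k * (zeta ^ k * (zeta ^ k * z)))) = z := by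
      intro z
      have : zeta ^ k * (zeta ^ k * (zeta ^ k * (zeta ^ k * (zeta ^ k * z)))) =
          (zeta ^ 5) ^ k * z := by ring
      rw [this, zeta_pow_five, one_pow, one_mul]
    have hz2 : ∀ z : ℂ, zeta ^ (2 * k) * (zeta ^ (2 * k) * (zeta ^ (2 * k) * (zeta ^ (2 * k) *
        (zeta ^ (2 * k) * z)))) = z := by
      intro z
      have : zeta ^ (2 * k) * (zeta ^ (2 * k) * (zeta ^ (2 * k) * (zeta ^ (2 * k) *
          (zeta ^ (2 * k) * z)))) = (zeta ^ 5) ^ (2 * k) * z := by ring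
      rw [this, zeta_pow_five, one_pow, one_mul]
    refine LinearMap.ext fun x => ?_
    rw [Module.End.pow_apply]
    simp only [Function.iterate_succ, Function.iterate_zero, Function.comp_apply, id_eq,
      Module.End.one_apply]
    change lenseAct k (lenseAct k (lenseAct k (lenseAct k (lenseAct k x)))) = x
    have e : ∀ y : C3, lenseAct k y = (zeta ^ k * y.1, zeta ^ (2 * k) * y.2.1, y.2.2) :=
      fun y => rfl
    simp only [e, hz, hz2]
  have h : ((lenseAct k).det) ^ 5 = 1 := by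
    rw [ContinuousLinearMap.det, ← map_pow, h5, map_one]
  by_contra hneg
  push Not at hneg
  have : ((lenseAct k).det) ^ 5 ≤ 0 := by
    have := Odd.pow_nonpos (n := 5) (by decide) hneg
    exact this
  linarith

/-- The transition maps have positive Jacobian. -/
lemma lense_trans (Φ : C3 → ℂ) (hΦ : ContDiff ℝ ∞ Φ) (hInv : Inv {x | Φ x = 0})
    (ψ χ : LocalParam (JJ '' {x | Φ x = 0}) 4) {x : C3} (hx : Φ x = 0)
    {u v : LenseR4} (hu : u ∈ ψ.dom) (hv : v ∈ χ.dom) (h1 : ψ.map u = JJ x)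
    (h2 : χ.map v = JJ x)
    (hψ : 0 < lenseDet ((fderiv ℝ Φ x).prod (fderiv ℝ (fun y => ψ.inv (JJ y)) x)))
    (hχ : 0 < lenseDet ((fderiv ℝ Φ x).prod (fderiv ℝ (fun y => χ.inv (JJ y)) x))) :
    0 < (fderiv ℝ (fun y => χ.inv (ψ.map y)) u).det := by
  have hxM : x ∈ {x | Φ x = 0} := hx
  obtain ⟨O, s, U, hO, hU, hxU, hs, hsU⟩ := JJ_section (hInv.1 hxM)
  obtain ⟨O1, hO1, hO1'⟩ := JJ_proper hInv hxM (hU.mem_nhds hxU)
  have hmapd : ContDiffAt ℝ ∞ ψ.map u := ψ.smooth_map.contDiffAt (ψ.isOpen_dom.mem_nhds hu)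
  have hsx : ContDiffAt ℝ ∞ s (ψ.map u) := by
    rw [h1]; exact hs.contDiffAt (hO.mem_nhds (hsU x hxU).1)
  have hγ : ContDiffAt ℝ ∞ (fun w => s (ψ.map w)) u := hsx.comp u hmapd
  have hγu : s (ψ.map u) = x := by rw [h1]; exact (hsU x hxU).2
  have hev : ∀ᶠ w in 𝓝 u, Φ (s (ψ.map w)) = 0 ∧ JJ (s (ψ.map w)) = ψ.map w ∧ w ∈ ψ.dom := by
    have e1 : ∀ᶠ w in 𝓝 u, ψ.map w ∈ O1 := hmapd.continuousAt (by rw [h1]; exact hO1)
    filter_upwards [e1, ψ.isOpen_dom.mem_nhds hu] with w hw1 hw2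
    have hw3 : ψ.map w ∈ JJ '' {x | Φ x = 0} := by
      have : ψ.map w ∈ ψ.map '' ψ.dom := mem_image_of_mem _ hw2
      rw [ψ.image_eq] at this
      exact this.1
    obtain ⟨y, hy, hyw⟩ := hO1' _ ⟨hw3, hw1⟩
    have hy2 : s (ψ.map w) = y := by rw [← hyw]; exact (hsU y hy.2).2
    rw [hy2]
    exact ⟨hy.1, hyw, hw2⟩
  have hnψ : JJ x ∈ ψ.nbhd := by
    have : ψ.map u ∈ ψ.map '' ψ.dom := mem_image_of_mem _ hu
    rw [ψ.image_eq, h1] at this
    exact this.2
  have hnχ : JJ x ∈ χ.nbhd := by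
    have : χ.map v ∈ χ.map '' χ.dom := mem_image_of_mem _ hv
    rw [χ.image_eq, h2] at this
    exact this.2
  have dγ : HasFDerivAt (fun w => s (ψ.map w)) (fderiv ℝ (fun w => s (ψ.map w)) u) u :=
    (hγ.differentiableAt (by simp)).hasFDerivAt
  have dΦ : HasFDerivAt Φ (fderiv ℝ Φ x) (s (ψ.map u)) := by
    rw [hγu]; exact (hΦ.contDiffAt.differentiableAt (by simp)).hasFDerivAt
  have dψ : HasFDerivAt (fun y => ψ.inv (JJ y)) (fderiv ℝ (fun y => ψ.inv (JJ y)) x)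
      (s (ψ.map u)) := by
    rw [hγu]
    have : ContDiffAt ℝ ∞ (fun y => ψ.inv (JJ y)) x :=
      (ψ.smooth_inv.contDiffAt (ψ.isOpen_nbhd.mem_nhds hnψ)).comp x contDiff_JJ.contDiffAt
    exact (this.differentiableAt (by simp)).hasFDerivAt
  have dχ : HasFDerivAt (fun y => χ.inv (JJ y)) (fderiv ℝ (fun y => χ.inv (JJ y)) x)
      (s (ψ.map u)) := by
    rw [hγu]
    have : ContDiffAt ℝ ∞ (fun y => χ.inv (JJ y)) x :=
      (χ.smooth_inv.contDiffAt (χ.isOpen_nbhd.mem_nhds hnχ)).comp x contDiff_JJ.contDiffAt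
    exact (this.differentiableAt (by simp)).hasFDerivAt
  set Dγ := fderiv ℝ (fun w => s (ψ.map w)) u with hDγ
  have k1 : (fderiv ℝ Φ x).comp Dγ = 0 := by
    have a1 := dΦ.comp u dγ
    have a2 : HasFDerivAt (fun _ : LenseR4 => (0 : ℂ)) (0 : LenseR4 →L[ℝ] ℂ) u :=
      hasFDerivAt_const _ _
    refine a1.unique (a2.congr_of_eventuallyEq ?_)
    filter_upwards [hev] with w hw
    exact hw.1
  have k2 : (fderiv ℝ (fun y => ψ.inv (JJ y)) x).comp Dγ = ContinuousLinearMap.id ℝ LenseR4 := by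
    have a1 := dψ.comp u dγ
    have a2 : HasFDerivAt (fun w : LenseR4 => w) (ContinuousLinearMap.id ℝ LenseR4) u :=
      hasFDerivAt_id u
    refine a1.unique (a2.congr_of_eventuallyEq ?_)
    filter_upwards [hev] with w hw
    simp only [Function.comp_apply]
    rw [hw.2.1]
    exact ψ.left_inv w hw.2.2
  have k3 : (fderiv ℝ (fun y => χ.inv (JJ y)) x).comp Dγ =
      fderiv ℝ (fun y => χ.inv (ψ.map y)) u := by
    have a1 := dχ.comp u dγ
    have a2 : HasFDerivAt (fun y => χ.inv (ψ.map y))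
        ((fderiv ℝ (fun y => χ.inv (JJ y)) x).comp Dγ) u := by
      refine a1.congr_of_eventuallyEq ?_
      filter_upwards [hev] with w hw
      simp only [Function.comp_apply]
      rw [hw.2.1]
    exact a2.fderiv.symm
  obtain ⟨e, he⟩ := lense_equiv hψ.ne'
  set E1 := (fderiv ℝ Φ x).prod (fderiv ℝ (fun y => ψ.inv (JJ y)) x) with hE1
  set E2 := (fderiv ℝ Φ x).prod (fderiv ℝ (fun y => χ.inv (JJ y)) x) with hE2
  set N : (ℂ × LenseR4) →L[ℝ] (ℂ × LenseR4) := E2.comp (e.symm : (ℂ × LenseR4) →L[ℝ] C3) with hN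
  have heE : ∀ y, e y = E1 y := fun y => by rw [← he]; rfl
  have hdet : LinearMap.det (N : (ℂ × LenseR4) →ₗ[ℝ] (ℂ × LenseR4)) =
      LinearMap.det (fderiv ℝ (fun y => χ.inv (ψ.map y)) u : LenseR4 →ₗ[ℝ] LenseR4) := by
    apply lense_block
    · intro q
      have : (E1 (e.symm q)).1 = q.1 := by rw [← heE, e.apply_symm_apply]
      exact this
    · intro w
      have hw : e.symm (0, w) = Dγ w := by
        rw [e.symm_apply_eq, heE]
        refine Prod.ext ?_ ?_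
        · exact (congrArg (fun L : LenseR4 →L[ℝ] ℂ => L w) k1).symm
        · exact (congrArg (fun L : LenseR4 →L[ℝ] LenseR4 => L w) k2).symm
      change E2 (e.symm (0, w)) = _
      rw [hw]
      refine Prod.ext ?_ ?_
      · exact congrArg (fun L : LenseR4 →L[ℝ] ℂ => L w) k1
      · exact congrArg (fun L : LenseR4 →L[ℝ] LenseR4 => L w) k3
  have hE : E2 = N.comp E1 := by
    have : ∀ y, E2 y = N (E1 y) := by
      intro y
      change E2 y = E2 (e.symm (E1 y))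
      rw [← heE, e.symm_apply_apply]
    exact ContinuousLinearMap.ext this
  rw [hE, lense_comp_left] at hχ
  have hNd : N.det = (fderiv ℝ (fun y => χ.inv (ψ.map y)) u).det := hdet
  rw [← hNd]
  exact (mul_pos_iff_of_pos_right hψ).1 hχ

lemma lense_iter {F : Type*} {f : C3 → F} (h : ∀ x, f (act x) = f x) (k : ℕ) (x : C3) :
    f (act^[k] x) = f x := by
  induction k generalizing x with
  | zero => rfl
  | succ n ih => rw [Function.iterate_succ_apply, ih, h]

/-- Construction of a positively oriented local parametrisation. -/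
lemma lense_param (Φ : C3 → ℂ) (hΦ : ContDiff ℝ ∞ Φ) (hinv : ∀ x, Φ (act x) = Φ x)
    (hInv : Inv {x | Φ x = 0}) {x₀ : C3} (hx₀ : Φ x₀ = 0)
    (hreg : Function.Surjective (fderiv ℝ Φ x₀)) :
    ∃ ψ : LocalParam (JJ '' {x | Φ x = 0}) 4, JJ x₀ ∈ ψ.nbhd ∧ ∀ x, Φ x = 0 → JJ x ∈ ψ.nbhd →
      0 < lenseDet ((fderiv ℝ Φ x).prod (fderiv ℝ (fun y => ψ.inv (JJ y)) x)) := by
  have hx₀M : x₀ ∈ {x | Φ x = 0} := hx₀
  obtain ⟨p, hp⟩ := lense_choice (fderiv ℝ Φ x₀) hreg
  set Ψ : C3 → ℂ × LenseR4 := fun x => (Φ x, p x) with hΨdef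
  have hΨ : ContDiff ℝ ∞ Ψ := hΦ.prodMk p.contDiff
  have hdΦ : ∀ x, HasFDerivAt Φ (fderiv ℝ Φ x) x := fun x =>
    (hΦ.contDiffAt.differentiableAt (by simp)).hasFDerivAt
  have hDΨ : ∀ x, HasFDerivAt Ψ ((fderiv ℝ Φ x).prod p) x := fun x =>
    (hdΦ x).prodMk p.hasFDerivAt
  obtain ⟨e0, he0⟩ := lense_equiv hp.ne'
  have hD0 : HasFDerivAt Ψ (e0 : C3 →L[ℝ] ℂ × LenseR4) x₀ := he0 ▸ hDΨ x₀
  set e := (hΨ.contDiffAt (x := x₀)).toOpenPartialHomeomorph Ψ hD0 (by simp) with hedef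
  have hec : ∀ x, e x = Ψ x := fun x => rfl
  have hxe : x₀ ∈ e.source :=
    ContDiffAt.mem_toOpenPartialHomeomorph_source (hΨ.contDiffAt (x := x₀)) hD0 (by simp)
  obtain ⟨O, s, U, hO, hU, hx₀U, hs, hsU⟩ := JJ_section (hInv.1 hx₀M)
  have hfc : Continuous (fun x => lenseDet ((fderiv ℝ Φ x).prod p)) := by
    apply lense_continuous.comp
    have h1 : Continuous (fderiv ℝ Φ) := hΦ.continuous_fderiv (by simp)
    have h2 : Continuous (fun q : (C3 →L[ℝ] ℂ) × (C3 →L[ℝ] LenseR4) => q.1.prod q.2) :=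
      (ContinuousLinearMap.prodₗᵢ ℝ : ((C3 →L[ℝ] ℂ) × (C3 →L[ℝ] LenseR4)) ≃ₗᵢ[ℝ]
        (C3 →L[ℝ] ℂ × LenseR4)).continuous
    exact h2.comp (h1.prodMk continuous_const)
  set U1 : Set C3 := (e.source ∩ U) ∩ {x | 0 < lenseDet ((fderiv ℝ Φ x).prod p)} with hU1def
  have hU1o : IsOpen U1 := (e.open_source.inter hU).inter (isOpen_lt continuous_const hfc)
  have hx₀U1 : x₀ ∈ U1 := ⟨⟨hxe, hx₀U⟩, hp⟩
  obtain ⟨O1, hO1, hO1'⟩ := JJ_proper hInv hx₀M (hU1o.mem_nhds hx₀U1)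
  set O2 : Set C5 := interior O1 ∩ O with hO2def
  have hO2 : IsOpen O2 := isOpen_interior.inter hO
  set nb : Set C5 := O2 ∩ s ⁻¹' U1 with hnbdef
  have hnb : IsOpen nb :=
    (hs.continuousOn.mono inter_subset_right).isOpen_inter_preimage hO2 hU1o
  set W0 : Set LenseR4 := (fun u : LenseR4 => ((0 : ℂ), u)) ⁻¹' e.target with hW0def
  have hj : Continuous (fun u : LenseR4 => ((0 : ℂ), u)) := by fun_prop
  have hW0 : IsOpen W0 := e.open_target.preimage hj
  have hcs : ContinuousOn (fun u : LenseR4 => e.symm ((0 : ℂ), u)) W0 :=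
    e.continuousOn_symm.comp hj.continuousOn (fun u hu => hu)
  set W1 : Set LenseR4 := W0 ∩ (fun u : LenseR4 => e.symm ((0 : ℂ), u)) ⁻¹' U1 with hW1def
  have hW1 : IsOpen W1 := hcs.isOpen_inter_preimage hW0 hU1o
  have hcJ : ContinuousOn (fun u : LenseR4 => JJ (e.symm ((0 : ℂ), u))) W1 :=
    contDiff_JJ.continuous.comp_continuousOn (hcs.mono inter_subset_left)
  set dm : Set LenseR4 := W1 ∩ (fun u : LenseR4 => JJ (e.symm ((0 : ℂ), u))) ⁻¹' nb with hdmdef
  have hdm : IsOpen dm := hcJ.isOpen_inter_preimage hW1 hnb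
  have hzero : ∀ u ∈ W0, Φ (e.symm ((0 : ℂ), u)) = 0 ∧ p (e.symm ((0 : ℂ), u)) = u := by
    intro u hu
    have h1 : Ψ (e.symm ((0 : ℂ), u)) = ((0 : ℂ), u) := by
      rw [← hec]; exact e.right_inv hu
    exact ⟨congrArg Prod.fst h1, congrArg Prod.snd h1⟩
  have hsmooth : ContDiffOn ℝ ∞ (fun u : LenseR4 => JJ (e.symm ((0 : ℂ), u))) dm := by
    intro u hu
    apply ContDiffAt.contDiffWithinAt
    have hu1 : e.symm ((0 : ℂ), u) ∈ U1 := hu.1.2
    obtain ⟨f0, hf0⟩ := lense_equiv hu1.2.ne'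
    have hd : HasFDerivAt e (f0 : C3 →L[ℝ] ℂ × LenseR4) (e.symm ((0 : ℂ), u)) := by
      rw [hf0]; exact hDΨ _
    have h1 : ContDiffAt ℝ ∞ e.symm ((0 : ℂ), u) :=
      e.contDiffAt_symm hu.1.1 hd hΨ.contDiffAt
    have h2 : ContDiffAt ℝ ∞ (fun u : LenseR4 => ((0 : ℂ), u)) u :=
      contDiffAt_const.prodMk contDiffAt_id
    exact contDiff_JJ.contDiffAt.comp u (h1.comp u h2)
  have hsm2 : ContDiffOn ℝ ∞ (fun a => p (s a)) nb :=
    p.contDiff.comp_contDiffOn (hs.mono (inter_subset_left.trans inter_subset_right))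
  -- points of the image in the neighbourhood
  have hpt : ∀ x, Φ x = 0 → JJ x ∈ nb → Φ (s (JJ x)) = 0 ∧ JJ (s (JJ x)) = JJ x := by
    intro x hx hxn
    obtain ⟨y, hy, hyx⟩ := hO1' (JJ x) ⟨mem_image_of_mem _ hx, interior_subset hxn.1.1⟩
    have hy2 : s (JJ x) = y := by rw [← hyx]; exact (hsU y hy.2.1.2).2
    rw [hy2]
    exact ⟨hy.1, hyx⟩
  refine ⟨⟨dm, fun u => JJ (e.symm ((0 : ℂ), u)), nb, fun a => p (s a), hdm, hnb, hsmooth, hsm2,
    ?_, ?_⟩, ?_, ?_⟩
  · apply Subset.antisymm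
    · rintro _ ⟨u, hu, rfl⟩
      exact ⟨mem_image_of_mem _ (hzero u hu.1.1).1, hu.2⟩
    · rintro _ ⟨⟨x, hx, rfl⟩, hxn⟩
      have h1 := hpt x hx hxn
      have hyU : s (JJ x) ∈ U1 := hxn.2
      set y := s (JJ x) with hy
      have h2 : e y = ((0 : ℂ), p y) := by
        rw [hec]; exact Prod.ext h1.1 rfl
      have h3 : ((0 : ℂ), p y) ∈ e.target := by rw [← h2]; exact e.map_source hyU.1.1
      have h4 : e.symm ((0 : ℂ), p y) = y := by rw [← h2]; exact e.left_inv hyU.1.1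
      refine ⟨p y, ⟨⟨h3, ?_⟩, ?_⟩, ?_⟩
      · rw [mem_preimage, h4]; exact hyU
      · rw [mem_preimage, h4, h1.2]; exact hxn
      · simp only
        rw [h4, h1.2]
  · intro u hu
    have hu1 : e.symm ((0 : ℂ), u) ∈ U1 := hu.1.2
    rw [(hsU _ hu1.1.2).2]
    exact (hzero u hu.1.1).2
  · refine ⟨⟨mem_interior_iff_mem_nhds.2 hO1, (hsU x₀ hx₀U).1⟩, ?_⟩
    rw [mem_preimage, (hsU x₀ hx₀U).2]
    exact hx₀U1
  · intro x hx hxn
    have h1 := hpt x hx hxn
    have hyU : s (JJ x) ∈ U1 := hxn.2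
    obtain ⟨k, _, hk⟩ := JJ_fibre (hInv.1 (show x ∈ {x | Φ x = 0} from hx))
      (hInv.1 (show s (JJ x) ∈ {x | Φ x = 0} from h1.1)) h1.2.symm
    have hJk : ∀ z, JJ (act^[k] z) = JJ z := lense_iter JJ_act k
    have hΦk : ∀ z, Φ (act^[k] z) = Φ z := lense_iter hinv k
    set y := s (JJ x) with hy
    have hgx : lenseAct k x = y := by rw [lenseAct_apply]; exact hk.symm
    -- the derivative of `Φ`
    have d1 : fderiv ℝ Φ x = (fderiv ℝ Φ y).comp (lenseAct k) := by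
      have a1 : HasFDerivAt (fun z => Φ (lenseAct k z)) ((fderiv ℝ Φ y).comp (lenseAct k)) x := by
        have := hdΦ (lenseAct k x)
        rw [hgx] at this
        exact HasFDerivAt.comp x (by rw [hgx]; exact this) (lenseAct k).hasFDerivAt
      have a2 : (fun z => Φ (lenseAct k z)) = Φ := by
        funext z; rw [lenseAct_apply, hΦk]
      rw [a2] at a1
      exact a1.fderiv
    have d2 : fderiv ℝ (fun z => p (s (JJ z))) x = p.comp (lenseAct k) := by
      have a1 : HasFDerivAt (fun z => p (lenseAct k z)) (p.comp (lenseAct k)) x :=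
        (p.comp (lenseAct k)).hasFDerivAt
      have a2 : (fun z => p (s (JJ z))) =ᶠ[𝓝 x] (fun z => p (lenseAct k z)) := by
        have hUn : ∀ᶠ z in 𝓝 x, lenseAct k z ∈ U :=
          (lenseAct k).continuous.continuousAt (by
            rw [hgx]; exact hU.mem_nhds hyU.1.2)
        filter_upwards [hUn] with z hz
        have := (hsU _ hz).2
        rw [lenseAct_apply, hJk] at this
        rw [lenseAct_apply, this]
      exact (a1.congr_of_eventuallyEq a2).fderiv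
    rw [d1, d2]
    have h3 : ((fderiv ℝ Φ y).comp (lenseAct k)).prod (p.comp (lenseAct k)) =
        ((fderiv ℝ Φ y).prod p).comp (lenseAct k) := by
      ext z <;> simp
    rw [h3, lense_comp]
    exact mul_pos hyU.2 (lenseAct_det k)

/-- Quotients of regular level sets are closed orientable manifolds. -/
theorem closedOrientable_image (Φ : C3 → ℂ) (hΦ : ContDiff ℝ ∞ Φ)
    (hinv : ∀ x, Φ (act x) = Φ x) (hs : ∀ x, Φ x = 0 → x ∈ sph)
    (hc : IsCompact {x | Φ x = 0}) (hne : {x | Φ x = 0}.Nonempty)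
    (reg : ∀ x, Φ x = 0 → Function.Surjective (fderiv ℝ Φ x)) :
    ClosedOrientableManifold (JJ '' {x | Φ x = 0}) 4 := by
  have hInv : Inv {x | Φ x = 0} :=
    ⟨fun x hx => hs x hx, fun x hx => by
      have hx' : Φ x = 0 := hx
      exact (hinv x).trans hx'⟩
  refine ⟨hc.image contDiff_JJ.continuous, hne.image _,
    {ψ | ∀ x, Φ x = 0 → JJ x ∈ ψ.nbhd →
      0 < lenseDet ((fderiv ℝ Φ x).prod (fderiv ℝ (fun y => ψ.inv (JJ y)) x))}, ?_, ?_⟩
  · rintro _ ⟨x₀, hx₀, rfl⟩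
    obtain ⟨ψ, h1, h2⟩ := lense_param Φ hΦ hinv hInv hx₀ (reg x₀ hx₀)
    exact ⟨ψ, h2, h1⟩
  · intro ψ hψ χ hχ u hu v hv huv
    have hmem : ψ.map u ∈ JJ '' {x | Φ x = 0} ∩ ψ.nbhd := by
      rw [← ψ.image_eq]; exact mem_image_of_mem _ hu
    have hmem2 : χ.map v ∈ JJ '' {x | Φ x = 0} ∩ χ.nbhd := by
      rw [← χ.image_eq]; exact mem_image_of_mem _ hv
    obtain ⟨⟨x, hx, hxu⟩, hn⟩ := hmem
    refine lense_trans Φ hΦ hInv ψ χ hx hu hv hxu.symm (huv.symm.trans hxu.symm) ?_ ?_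
    · exact hψ x hx (by rw [hxu]; exact hn)
    · exact hχ x hx (by rw [hxu, huv]; exact hmem2.2)

end Pool.Agent.Tri
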