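import Mathlib
import Pool.Agent.H.MP_5efd29_gt.FunB
import Pool.Agent.H.MP_5efd29_gt.FunC
import Pool.Agent.H.MP_5efd29_gt.FunD
import Pool.Agent.H.MP_5efd29_gt.LensE

open scoped ContDiff Topology
open Set

noncomputable section

namespace Pool.Agent.Tri

/-- The pair `(Φ, F)` is a submersion at `x`. -/
def RegAt {Q : Type*} [NormedAddCommGroup Q] [NormedSpace ℝ Q] (Φ : C3 → ℂ) (F : C3 → Q)
    (x : C3) : Prop :=
  Function.Surjective (fun v : C3 => (fderiv ℝ Φ x v, fderiv ℝ F x v))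

private theorem regx_of_vec {Φ : C3 → ℂ} {F : C3 → ℝ} {x : C3}
    (hs : Function.Surjective (fderiv ℝ Φ x)) {v1 : C3} (hA : fderiv ℝ Φ x v1 = 0) {c : ℝ}
    (hc : c ≠ 0) (hB : fderiv ℝ F x v1 = c) : RegAt Φ F x := by
  rintro ⟨p, q⟩
  obtain ⟨v0, hv0⟩ := hs p
  refine ⟨v0 + ((q - fderiv ℝ F x v0) / c) • v1, ?_⟩
  have h1 : fderiv ℝ Φ x (v0 + ((q - fderiv ℝ F x v0) / c) • v1) = p := by
    rw [map_add, map_smul, hA, smul_zero, add_zero, hv0]
  have h2 : fderiv ℝ F x (v0 + ((q - fderiv ℝ F x v0) / c) • v1) = q := by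
    rw [map_add, map_smul, hB, smul_eq_mul]
    field_simp
    ring
  exact Prod.ext h1 h2

private theorem regx_comp {Q : Type*} [NormedAddCommGroup Q] [NormedSpace ℝ Q] {Φ : C3 → Q}
    {x : C3} (hΦ : DifferentiableAt ℝ Φ x) {γ : ℝ → C3} (hγ : DifferentiableAt ℝ γ 0)
    (hγ0 : γ 0 = x) :
    HasDerivAt (fun t => Φ (γ t)) (fderiv ℝ Φ x (deriv γ 0)) 0 := by
  have hΦf : HasFDerivAt Φ (fderiv ℝ Φ x) (γ 0) := by
    rw [hγ0]
    exact hΦ.hasFDerivAt
  exact hΦf.comp_hasDerivAt 0 hγ.hasDerivAt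

private theorem regx_re {Φ : C3 → ℂ} {x : C3} (hΦ : DifferentiableAt ℝ Φ x) {γ : ℝ → C3}
    (hγ : DifferentiableAt ℝ γ 0) (hγ0 : γ 0 = x) :
    HasDerivAt (fun t => (Φ (γ t)).re) (fderiv ℝ Φ x (deriv γ 0)).re 0 :=
  Complex.reCLM.hasFDerivAt.comp_hasDerivAt 0 (regx_comp hΦ hγ hγ0)

private theorem regx_im {Φ : C3 → ℂ} {x : C3} (hΦ : DifferentiableAt ℝ Φ x) {γ : ℝ → C3}
    (hγ : DifferentiableAt ℝ γ 0) (hγ0 : γ 0 = x) :
    HasDerivAt (fun t => (Φ (γ t)).im) (fderiv ℝ Φ x (deriv γ 0)).im 0 :=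
  Complex.imCLM.hasFDerivAt.comp_hasDerivAt 0 (regx_comp hΦ hγ hγ0)

private theorem regx_quad (a b c : ℝ) :
    HasDerivAt (fun t : ℝ => a + 2 * t * b + t ^ 2 * c) (2 * b) 0 := by
  have h := ((hasDerivAt_const (0 : ℝ) a).add
    (((hasDerivAt_id (0 : ℝ)).const_mul (2 : ℝ)).mul_const b)).add
    ((hasDerivAt_pow 2 (0 : ℝ)).mul_const c)
  refine HasDerivAt.congr_deriv (f := fun t : ℝ => a + 2 * t * b + t ^ 2 * c) h ?_
  simp

private theorem regx_normSq (ξ η : ℂ) :
    HasDerivAt (fun t : ℝ => Complex.normSq (ξ + t * η)) (2 * ((starRingEnd ℂ) ξ * η).re) 0 := by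
  have h := regx_quad (Complex.normSq ξ) ((starRingEnd ℂ) ξ * η).re (Complex.normSq η)
  refine h.congr_of_eventuallyEq (Filter.Eventually.of_forall fun t => ?_)
  simp only [Complex.normSq_apply, Complex.add_re, Complex.add_im, Complex.mul_re, Complex.mul_im,
    Complex.ofReal_re, Complex.ofReal_im, Complex.conj_re, Complex.conj_im]
  ring

private theorem regx_surj (D : C3 →L[ℝ] ℂ) {v1 v2 : C3} (h1 : (D v1).re ≠ 0)
    (h2 : (D v2).re = 0) (h3 : (D v2).im ≠ 0) : Function.Surjective D := by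
  intro p
  refine ⟨(p.re / (D v1).re) • v1 + ((p.im - p.re / (D v1).re * (D v1).im) / (D v2).im) • v2, ?_⟩
  rw [map_add, map_smul, map_smul]
  apply Complex.ext
  · rw [Complex.add_re, Complex.smul_re, Complex.smul_re, h2, smul_zero, add_zero, smul_eq_mul]
    field_simp
  · rw [Complex.add_im, Complex.smul_im, Complex.smul_im, smul_eq_mul, smul_eq_mul]
    field_simp
    ring

/-- Criterion for real-valued functions. -/
theorem regAt_of_curve {Φ : C3 → ℂ} {F : C3 → ℝ} {x : C3} (hΦ : DifferentiableAt ℝ Φ x)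
    (hF : DifferentiableAt ℝ F x) (hs : Function.Surjective (fderiv ℝ Φ x))
    (γ : ℝ → C3) (hγ : DifferentiableAt ℝ γ 0) (hγ0 : γ 0 = x)
    (h1 : ∀ᶠ t in 𝓝 (0 : ℝ), Φ (γ t) = Φ x) {c : ℝ} (hc : c ≠ 0)
    (h2 : HasDerivAt (fun t => F (γ t)) c 0) : RegAt Φ F x := by
  have h4 : HasDerivAt (fun t => Φ (γ t)) 0 0 :=
    (hasDerivAt_const (0 : ℝ) (Φ x)).congr_of_eventuallyEq h1
  exact regx_of_vec hs ((regx_comp hΦ hγ hγ0).unique h4) hc
    ((regx_comp hF hγ hγ0).unique h2)

theorem mem_Xt_iff (x : C3) : x ∈ Xt ↔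
    Complex.normSq x.1 + Complex.normSq x.2.1 = 1 ∧ Complex.normSq x.2.2 = rho (pr x) := by
  change PhiX x = 0 ↔ _
  unfold PhiX
  rw [Complex.ext_iff]
  simp only [Complex.zero_re, Complex.zero_im, sub_eq_zero]

theorem inv_Xt : Inv Xt := by
  refine ⟨fun x hx => ?_, fun x hx => ?_⟩
  · have h := ((mem_Xt_iff x).1 hx).1
    change ‖x.1‖ ^ 2 + ‖x.2.1‖ ^ 2 = 1
    rw [← Complex.normSq_eq_norm_sq, ← Complex.normSq_eq_norm_sq]
    exact h
  · change PhiX (act x) = 0
    rw [PhiX_act]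
    exact hx

private theorem regx_norm_le {z : ℂ} (h : Complex.normSq z ≤ 100) : ‖z‖ ≤ 10 := by
  rw [Complex.normSq_eq_norm_sq] at h
  nlinarith [norm_nonneg z]

private theorem regx_bdd {x : C3} (hx : ‖PhiX x‖ ≤ 1) : ‖x‖ ≤ 10 := by
  have h1 := (Complex.abs_re_le_norm (PhiX x)).trans hx
  have h2 := (Complex.abs_im_le_norm (PhiX x)).trans hx
  have h3 : (PhiX x).re = Complex.normSq x.1 + Complex.normSq x.2.1 - 1 := rfl
  have h4 : (PhiX x).im = Complex.normSq x.2.2 - rho (pr x) := rfl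
  rw [h3, abs_le] at h1
  rw [h4, abs_le] at h2
  have hz := Complex.normSq_nonneg x.1
  have hw := Complex.normSq_nonneg x.2.1
  have hr : rho (pr x) ≤ 5 := by
    have h5 : rho (pr x) = hgt (pr x) ^ 2 + 1 / 100 - cc (hgt (pr x)) * bt (uu (pr x)) := rfl
    have h6 : hgt (pr x) = Complex.normSq x.2.1 - Complex.normSq x.1 := rfl
    have h7 := mul_nonneg (cc_nonneg (hgt (pr x))) (bt_nonneg (uu (pr x)))
    have h8 : hgt (pr x) ^ 2 ≤ 4 := by
      rw [h6]
      nlinarith
    rw [h5]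
    linarith
  rw [norm_prod_le_iff, norm_prod_le_iff]
  exact ⟨regx_norm_le (by linarith), regx_norm_le (by linarith), regx_norm_le (by linarith)⟩

theorem isCompact_Xt : IsCompact Xt := by
  apply Metric.isCompact_of_isClosed_isBounded
  · exact isClosed_singleton.preimage contDiff_PhiX.continuous
  · refine (Metric.isBounded_closedBall (x := (0 : C3)) (r := 10)).subset ?_
    intro x hx
    rw [mem_closedBall_zero_iff]
    apply regx_bdd
    have h : PhiX x = 0 := hx
    rw [h, norm_zero]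
    exact zero_le_one

theorem nonempty_Xt : Xt.Nonempty := by
  refine ⟨(1, 0, (Real.sqrt (101 / 100) : ℂ)), ?_⟩
  rw [mem_Xt_iff]
  have h1 : hgt (pr ((1, 0, (Real.sqrt (101 / 100) : ℂ)) : C3)) = -1 := by
    change Complex.normSq 0 - Complex.normSq 1 = -1
    simp
  have h2 := (values_core (m := pr ((1, 0, (Real.sqrt (101 / 100) : ℂ)) : C3))
    (by rw [h1]; norm_num)).1
  refine ⟨by simp, ?_⟩
  rw [h2, h1]
  change Complex.normSq (Real.sqrt (101 / 100) : ℂ) = _
  rw [Complex.normSq_ofReal, Real.mul_self_sqrt (by norm_num)]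
  norm_num

private theorem regx_diff_PhiX (x : C3) : DifferentiableAt ℝ PhiX x :=
  contDiff_PhiX.contDiffAt.differentiableAt (by simp)

private theorem regx_diff_PhiM (x : C3) : DifferentiableAt ℝ PhiM x :=
  contDiff_PhiM.contDiffAt.differentiableAt (by simp)

/-- The scaling curve. -/
private theorem regx_scale (x : C3) : DifferentiableAt ℝ
    (fun t : ℝ => (((x.1 + t * x.1 : ℂ), (x.2.1 + t * x.2.1 : ℂ), x.2.2) : C3)) 0 ∧
    (((x.1 + ((0 : ℝ) : ℂ) * x.1 : ℂ), (x.2.1 + ((0 : ℝ) : ℂ) * x.2.1 : ℂ), x.2.2) : C3) = x := by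
  constructor
  · have h : Differentiable ℝ (fun t : ℝ => (t : ℂ)) := Complex.ofRealCLM.differentiable
    fun_prop
  · simp

private theorem regx_normSq' (ξ : ℂ) :
    HasDerivAt (fun t : ℝ => Complex.normSq (ξ + t * ξ)) (2 * Complex.normSq ξ) 0 := by
  have h := regx_normSq ξ ξ
  have h2 : ((starRingEnd ℂ) ξ * ξ).re = Complex.normSq ξ := by
    rw [mul_comm, Complex.mul_conj, Complex.ofReal_re]
  rwa [h2] at h

private theorem regx_scale_deriv (x : C3) (h : Complex.normSq x.1 + Complex.normSq x.2.1 = 1) :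
    HasDerivAt (fun t : ℝ => Complex.normSq (x.1 + t * x.1) + Complex.normSq (x.2.1 + t * x.2.1)
      - 1) 2 0 := by
  have h1 := ((regx_normSq' x.1).add (regx_normSq' x.2.1)).sub_const 1
  have h2 : 2 * Complex.normSq x.1 + 2 * Complex.normSq x.2.1 = 2 := by linarith
  rw [h2] at h1
  exact h1

private theorem regx_rho_curve {x : C3} (h0 : x.2.2 = 0) (hx : PhiX x = 0)
    (μ : ℝ → ℂ × ℂ) (hμ : DifferentiableAt ℝ μ 0) (hμ0 : μ 0 = pr x)
    (hμS : ∀ᶠ t in 𝓝 (0 : ℝ), Complex.normSq (μ t).1 + Complex.normSq (μ t).2 = 1)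
    {r : ℝ} (hr : HasDerivAt (fun t => rho (μ t)) r 0) :
    (fderiv ℝ PhiX x (deriv (fun t : ℝ => (((μ t).1, (μ t).2, 0) : C3)) 0)).re = 0 ∧
    (fderiv ℝ PhiX x (deriv (fun t : ℝ => (((μ t).1, (μ t).2, 0) : C3)) 0)).im = -r := by
  have hγ : DifferentiableAt ℝ (fun t : ℝ => (((μ t).1, (μ t).2, 0) : C3)) 0 := by
    fun_prop
  have hγ0 : (fun t : ℝ => (((μ t).1, (μ t).2, 0) : C3)) 0 = x := by
    have : ((μ 0).1, (μ 0).2, (0 : ℂ)) = x := by
      rw [hμ0, ← h0]
      rfl
    exact this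
  constructor
  · refine (regx_re (regx_diff_PhiX x) hγ hγ0).unique ?_
    refine (hasDerivAt_const (0 : ℝ) (0 : ℝ)).congr_of_eventuallyEq ?_
    filter_upwards [hμS] with t ht
    change Complex.normSq (μ t).1 + Complex.normSq (μ t).2 - 1 = 0
    rw [ht, sub_self]
  · refine (regx_im (regx_diff_PhiX x) hγ hγ0).unique ?_
    have h2 := hr.neg
    refine h2.congr_of_eventuallyEq (Filter.Eventually.of_forall fun t => ?_)
    change Complex.normSq 0 - rho ((μ t).1, (μ t).2) = - rho (μ t)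
    rw [map_zero, zero_sub]

theorem reg_PhiX (x : C3) (hx : PhiX x = 0) : Function.Surjective (fderiv ℝ PhiX x) := by
  have hx' := (mem_Xt_iff x).1 hx
  have hv1 : (fderiv ℝ PhiX x (deriv (fun t : ℝ =>
      (((x.1 + t * x.1 : ℂ), (x.2.1 + t * x.2.1 : ℂ), x.2.2) : C3)) 0)).re = 2 :=
    (regx_re (regx_diff_PhiX x) (regx_scale x).1 (regx_scale x).2).unique
      (regx_scale_deriv x hx'.1)
  have hv1' : (fderiv ℝ PhiX x (deriv (fun t : ℝ =>
      (((x.1 + t * x.1 : ℂ), (x.2.1 + t * x.2.1 : ℂ), x.2.2) : C3)) 0)).re ≠ 0 := by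
    rw [hv1]
    norm_num
  by_cases hξ : x.2.2 = 0
  · have hρ : rho (pr x) = 0 := by
      rw [← hx'.2, hξ, map_zero]
    have hh : |hgt (pr x)| < 1 := by
      by_contra hcon
      rw [not_lt] at hcon
      have h1 := (values_core hcon).1
      rw [hρ] at h1
      nlinarith [sq_nonneg (hgt (pr x))]
    obtain ⟨a, b, hab⟩ := exists_angxy (m := pr x) hx'.1 hh
    set h := hgt (pr x) with hdef
    have hρ2 := rho_angxy a b hh
    rw [← hab, hρ] at hρ2
    by_cases h0 : h = 0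
    · -- the direction of the torus
      have hc0 : cc h = 1 := cc_of_small (by rw [h0]; norm_num)
      rw [hc0, h0] at hρ2
      have hbt : bt (2 - Real.cos a - Real.cos b) = 1 / 100 := by
        have : (0 : ℝ) ^ 2 + 1 / 100 - 1 * bt (2 - Real.cos a - Real.cos b) = 0 := hρ2.symm
        linarith
      obtain ⟨hu0, hu1, hbt'⟩ := deriv_bt_neg (u := 2 - Real.cos a - Real.cos b)
        (by rw [hbt]; norm_num) (by rw [hbt]; norm_num)
      obtain ⟨hd, hd0, hd1⟩ := curve_xy a b (Real.sin a) (Real.sin b) hh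
      have hr : HasDerivAt (fun t : ℝ => rho (angxy h (a + t * Real.sin a) (b + t * Real.sin b)))
          (-(deriv bt (2 - Real.cos a - Real.cos b) * (Real.sin a ^ 2 + Real.sin b ^ 2))) 0 := by
        have e1 : HasDerivAt (fun t : ℝ => 2 - Real.cos (a + t * Real.sin a) -
            Real.cos (b + t * Real.sin b)) (Real.sin a ^ 2 + Real.sin b ^ 2) 0 := by
          have e2 : HasDerivAt (fun t : ℝ => a + t * Real.sin a) (Real.sin a) 0 := by
            simpa using ((hasDerivAt_id (0 : ℝ)).mul_const (Real.sin a)).const_add a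
          have e3 : HasDerivAt (fun t : ℝ => b + t * Real.sin b) (Real.sin b) 0 := by
            simpa using ((hasDerivAt_id (0 : ℝ)).mul_const (Real.sin b)).const_add b
          have e4 := ((e2.cos).const_sub 2).sub e3.cos
          refine HasDerivAt.congr_deriv (f := fun t : ℝ => 2 - Real.cos (a + t * Real.sin a) -
            Real.cos (b + t * Real.sin b)) e4 ?_
          simp only [zero_mul, add_zero]
          ring
        have e5 : HasDerivAt bt (deriv bt (2 - Real.cos a - Real.cos b))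
            ((fun t : ℝ => 2 - Real.cos (a + t * Real.sin a) -
            Real.cos (b + t * Real.sin b)) 0) := by
          have : (fun t : ℝ => 2 - Real.cos (a + t * Real.sin a) -
            Real.cos (b + t * Real.sin b)) 0 = 2 - Real.cos a - Real.cos b := by
            simp
          rw [this]
          exact (contDiff_bt.contDiffAt.differentiableAt (by simp)).hasDerivAt
        have e6 := (e5.comp 0 e1).neg.const_add (h ^ 2 + 1 / 100)
        refine e6.congr_of_eventuallyEq (Filter.Eventually.of_forall fun t => ?_)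
        change rho (angxy h (a + t * Real.sin a) (b + t * Real.sin b)) =
          h ^ 2 + 1 / 100 + -(bt (2 - Real.cos (a + t * Real.sin a) -
            Real.cos (b + t * Real.sin b)))
        rw [rho_angxy _ _ hh, hc0]
        ring
      have hμ0 : (fun t : ℝ => angxy h (a + t * Real.sin a) (b + t * Real.sin b)) 0 = pr x := by
        rw [hab]
        exact hd0
      obtain ⟨k1, k2⟩ := regx_rho_curve hξ hx _ hd hμ0 (Filter.Eventually.of_forall hd1) hr
      refine regx_surj _ hv1' k1 ?_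
      rw [k2, neg_neg]
      apply mul_ne_zero hbt'.ne
      intro hsum
      have hsa : Real.sin a = 0 := by nlinarith [sq_nonneg (Real.sin a), sq_nonneg (Real.sin b)]
      have hsb : Real.sin b = 0 := by nlinarith [sq_nonneg (Real.sin a), sq_nonneg (Real.sin b)]
      have ca := Real.sin_sq_add_cos_sq a
      have cb := Real.sin_sq_add_cos_sq b
      rw [hsa] at ca
      rw [hsb] at cb
      have la := Real.cos_le_one a
      have lb := Real.cos_le_one b
      have ca1 : Real.cos a = 1 := by nlinarith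
      have cb1 : Real.cos b = 1 := by nlinarith
      rw [ca1, cb1] at hu0
      norm_num at hu0
    · -- the direction of the height
      obtain ⟨hd, hd0, hd1⟩ := curve_h a b hh
      have hr : HasDerivAt (fun t : ℝ => rho (angxy (h + t) a b))
          (2 * h - deriv cc h * bt (2 - Real.cos a - Real.cos b)) 0 := by
        have e1 : HasDerivAt (fun t : ℝ => h + t) 1 0 := by
          simpa using (hasDerivAt_id (0 : ℝ)).const_add h
        have e2 : HasDerivAt cc (deriv cc h) ((fun t : ℝ => h + t) 0) := by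
          have : (fun t : ℝ => h + t) 0 = h := by simp
          rw [this]
          exact (contDiff_cc.contDiffAt.differentiableAt (by simp)).hasDerivAt
        have e3 := (((e1.pow 2).add_const (1 / 100)).sub
          ((e2.comp 0 e1).mul_const (bt (2 - Real.cos a - Real.cos b))))
        have e4 : HasDerivAt (fun t : ℝ => (h + t) ^ 2 + 1 / 100 -
            cc (h + t) * bt (2 - Real.cos a - Real.cos b))
            (2 * h - deriv cc h * bt (2 - Real.cos a - Real.cos b)) 0 := by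
          refine HasDerivAt.congr_deriv (f := fun t : ℝ => (h + t) ^ 2 + 1 / 100 -
            cc (h + t) * bt (2 - Real.cos a - Real.cos b)) e3 ?_
          simp
        refine e4.congr_of_eventuallyEq ?_
        filter_upwards [hd1] with t ht
        exact rho_angxy a b ht.1
      have hμ0 : (fun t : ℝ => angxy (h + t) a b) 0 = pr x := by
        rw [hab]
        exact hd0
      obtain ⟨k1, k2⟩ := regx_rho_curve hξ hx _ hd hμ0 (hd1.mono fun t ht => ht.2) hr
      refine regx_surj _ hv1' k1 ?_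
      rw [k2]
      intro h1
      have h2 := mul_deriv_cc_nonpos h
      have h3 := bt_nonneg (2 - Real.cos a - Real.cos b)
      have h4 : 0 < h ^ 2 := by positivity
      have h5 : h * (2 * h - deriv cc h * bt (2 - Real.cos a - Real.cos b)) = 0 := by
        have : 2 * h - deriv cc h * bt (2 - Real.cos a - Real.cos b) = 0 := by linarith
        rw [this, mul_zero]
      nlinarith [mul_nonneg (neg_nonneg.2 h2) h3]
  · -- the direction of the third coordinate
    have hγ : DifferentiableAt ℝ (fun t : ℝ => ((x.1, x.2.1, (x.2.2 + t * x.2.2 : ℂ)) : C3)) 0 := by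
      have h : Differentiable ℝ (fun t : ℝ => (t : ℂ)) := Complex.ofRealCLM.differentiable
      fun_prop
    have hγ0 : (fun t : ℝ => ((x.1, x.2.1, (x.2.2 + t * x.2.2 : ℂ)) : C3)) 0 = x := by
      simp
    refine regx_surj _ (v2 := deriv (fun t : ℝ =>
      ((x.1, x.2.1, (x.2.2 + t * x.2.2 : ℂ)) : C3)) 0) hv1' ?_ ?_
    · refine (regx_re (regx_diff_PhiX x) hγ hγ0).unique ?_
      exact hasDerivAt_const (0 : ℝ) (Complex.normSq x.1 + Complex.normSq x.2.1 - 1)
    · have h1 : (fderiv ℝ PhiX x (deriv (fun t : ℝ =>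
          ((x.1, x.2.1, (x.2.2 + t * x.2.2 : ℂ)) : C3)) 0)).im = 2 * Complex.normSq x.2.2 := by
        refine (regx_im (regx_diff_PhiX x) hγ hγ0).unique ?_
        exact (regx_normSq' x.2.2).sub_const (rho (pr x))
      rw [h1]
      exact mul_ne_zero two_ne_zero (fun h => hξ (Complex.normSq_eq_zero.1 h))

theorem reg_PhiM (x : C3) (hx : PhiM x = 0) : Function.Surjective (fderiv ℝ PhiM x) := by
  have hx1 : Complex.normSq x.1 + Complex.normSq x.2.1 = 1 := by
    have h : (PhiM x).re = 0 := by rw [hx]; rfl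
    have h2 : Complex.normSq x.1 + Complex.normSq x.2.1 - 1 = 0 := h
    linarith
  have hv1 : (fderiv ℝ PhiM x (deriv (fun t : ℝ =>
      (((x.1 + t * x.1 : ℂ), (x.2.1 + t * x.2.1 : ℂ), x.2.2) : C3)) 0)).re = 2 :=
    (regx_re (regx_diff_PhiM x) (regx_scale x).1 (regx_scale x).2).unique
      (regx_scale_deriv x hx1)
  have hγ : DifferentiableAt ℝ (fun t : ℝ =>
      ((x.1, x.2.1, (x.2.2 + t * Complex.I : ℂ)) : C3)) 0 := by
    have h : Differentiable ℝ (fun t : ℝ => (t : ℂ)) := Complex.ofRealCLM.differentiable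
    fun_prop
  have hγ0 : (fun t : ℝ => ((x.1, x.2.1, (x.2.2 + t * Complex.I : ℂ)) : C3)) 0 = x := by
    simp
  refine regx_surj _ (v2 := deriv (fun t : ℝ =>
    ((x.1, x.2.1, (x.2.2 + t * Complex.I : ℂ)) : C3)) 0) (by rw [hv1]; norm_num) ?_ ?_
  · refine (regx_re (regx_diff_PhiM x) hγ hγ0).unique ?_
    exact hasDerivAt_const (0 : ℝ) (Complex.normSq x.1 + Complex.normSq x.2.1 - 1)
  · have h1 : (fderiv ℝ PhiM x (deriv (fun t : ℝ =>
        ((x.1, x.2.1, (x.2.2 + t * Complex.I : ℂ)) : C3)) 0)).im = 1 := by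
      refine (regx_im (regx_diff_PhiM x) hγ hγ0).unique ?_
      refine ((hasDerivAt_id (0 : ℝ)).const_add x.2.2.im).congr_of_eventuallyEq
        (Filter.Eventually.of_forall fun t => ?_)
      change (x.2.2 + t * Complex.I).im = x.2.2.im + t
      simp
    rw [h1]
    exact one_ne_zero

/-- The manifold `X`. -/
theorem closedOrientable_XX : ClosedOrientableManifold XX 4 :=
  closedOrientable_image PhiX contDiff_PhiX PhiX_act (fun _ hx => inv_Xt.1 hx) isCompact_Xt
    nonempty_Xt reg_PhiX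

/-- Points with bounded `PhiX` are bounded. -/
theorem bdd_PhiX {x : C3} (hx : ‖PhiX x‖ ≤ 1) : ‖x‖ ≤ 10 := regx_bdd hx

/-- Bound of the first two coordinates. -/
theorem bdd_PhiM {x : C3} (hx : ‖PhiM x‖ ≤ 1) :
    Complex.normSq x.1 + Complex.normSq x.2.1 ≤ 2 ∧ |x.2.2.im| ≤ 1 := by
  have h1 := (Complex.abs_re_le_norm (PhiM x)).trans hx
  have h2 := (Complex.abs_im_le_norm (PhiM x)).trans hx
  have h3 : (PhiM x).re = Complex.normSq x.1 + Complex.normSq x.2.1 - 1 := rfl
  have h4 : (PhiM x).im = x.2.2.im := rfl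
  rw [h3, abs_le] at h1
  rw [h4] at h2
  exact ⟨by linarith, h2⟩

private theorem regx_curve {x : C3} (μ : ℝ → ℂ × ℂ) (hμ : DifferentiableAt ℝ μ 0)
    (hμ0 : μ 0 = pr x) (η : ℂ) :
    DifferentiableAt ℝ (fun t : ℝ => (((μ t).1, (μ t).2, (x.2.2 + t * η : ℂ)) : C3)) 0 ∧
    (fun t : ℝ => (((μ t).1, (μ t).2, (x.2.2 + t * η : ℂ)) : C3)) 0 = x := by
  constructor
  · have h : Differentiable ℝ (fun t : ℝ => (t : ℂ)) := Complex.ofRealCLM.differentiable
    fun_prop
  · have h1 : ((μ 0).1, (μ 0).2, x.2.2 + ((0 : ℝ) : ℂ) * η) = x := by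
      rw [hμ0, Complex.ofReal_zero, zero_mul, add_zero]
      rfl
    exact h1

/-- Criterion for real-valued functions on `Xt`: a curve `μ` in the 3-sphere together with a
direction `η` for the third coordinate. -/
theorem regX_of_data {F : C3 → ℝ} {x : C3} (hx : PhiX x = 0) (hF : DifferentiableAt ℝ F x)
    (μ : ℝ → ℂ × ℂ) (hμ : DifferentiableAt ℝ μ 0) (hμ0 : μ 0 = pr x)
    (hμS : ∀ᶠ t in 𝓝 (0 : ℝ), Complex.normSq (μ t).1 + Complex.normSq (μ t).2 = 1)
    (η : ℂ) {r : ℝ} (hr : HasDerivAt (fun t => rho (μ t)) r 0)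
    (hη : 2 * ((starRingEnd ℂ) x.2.2 * η).re = r) {c : ℝ} (hc : c ≠ 0)
    (hFc : HasDerivAt (fun t : ℝ => F ((μ t).1, (μ t).2, x.2.2 + t * η)) c 0) :
    RegAt PhiX F x := by
  obtain ⟨hγ, hγ0⟩ := regx_curve μ hμ hμ0 η
  refine regx_of_vec (reg_PhiX x hx) (v1 := deriv (fun t : ℝ =>
    (((μ t).1, (μ t).2, (x.2.2 + t * η : ℂ)) : C3)) 0) ?_ hc ((regx_comp hF hγ hγ0).unique hFc)
  apply Complex.ext
  · refine (regx_re (regx_diff_PhiX x) hγ hγ0).unique ?_
    refine (hasDerivAt_const (0 : ℝ) (0 : ℝ)).congr_of_eventuallyEq ?_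
    filter_upwards [hμS] with t ht
    change Complex.normSq (μ t).1 + Complex.normSq (μ t).2 - 1 = 0
    rw [ht, sub_self]
  · refine (regx_im (regx_diff_PhiX x) hγ hγ0).unique ?_
    have h2 := (regx_normSq x.2.2 η).sub hr
    rw [hη, sub_self] at h2
    exact h2

/-- Criterion for real-valued functions on `S³ × ℝ`. -/
theorem regM_of_data {F : C3 → ℝ} {x : C3} (hx : PhiM x = 0) (hF : DifferentiableAt ℝ F x)
    (μ : ℝ → ℂ × ℂ) (hμ : DifferentiableAt ℝ μ 0) (hμ0 : μ 0 = pr x)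
    (hμS : ∀ᶠ t in 𝓝 (0 : ℝ), Complex.normSq (μ t).1 + Complex.normSq (μ t).2 = 1)
    (η : ℝ) {c : ℝ} (hc : c ≠ 0)
    (hFc : HasDerivAt (fun t : ℝ => F ((μ t).1, (μ t).2, x.2.2 + t * η)) c 0) :
    RegAt PhiM F x := by
  obtain ⟨hγ, hγ0⟩ := regx_curve μ hμ hμ0 (η : ℂ)
  refine regx_of_vec (reg_PhiM x hx) (v1 := deriv (fun t : ℝ =>
    (((μ t).1, (μ t).2, (x.2.2 + t * η : ℂ)) : C3)) 0) ?_ hc ((regx_comp hF hγ hγ0).unique hFc)
  apply Complex.ext
  · refine (regx_re (regx_diff_PhiM x) hγ hγ0).unique ?_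
    refine (hasDerivAt_const (0 : ℝ) (0 : ℝ)).congr_of_eventuallyEq ?_
    filter_upwards [hμS] with t ht
    change Complex.normSq (μ t).1 + Complex.normSq (μ t).2 - 1 = 0
    rw [ht, sub_self]
  · refine (regx_im (regx_diff_PhiM x) hγ hγ0).unique ?_
    refine (hasDerivAt_const (0 : ℝ) x.2.2.im).congr_of_eventuallyEq
      (Filter.Eventually.of_forall fun t => ?_)
    change (x.2.2 + t * (η : ℂ)).im = x.2.2.im
    simp

end Pool.Agent.Tri
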