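import Mathlib
import Pool.Agent.H.MP_5efd29_gt.RegX
import Pool.Agent.H.MP_5efd29_gt.HdA2

open scoped ContDiff Topology
open Set

noncomputable section

namespace Pool.Agent.Tri

private lemma conn_norm (z : ℂ) : ‖z‖ = Real.sqrt (Complex.normSq z) := by
  rw [Complex.normSq_eq_norm_sq, Real.sqrt_sq (norm_nonneg z)]

private theorem conn_exists_angxy {m : ℂ × ℂ}
    (hm : Complex.normSq m.1 + Complex.normSq m.2 = 1) :
    ∃ x y : ℝ, m = angxy (hgt m) x y := by
  refine ⟨Complex.arg m.1 + 2 * Complex.arg m.2, 2 * Complex.arg m.1 - Complex.arg m.2, ?_⟩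
  have e1 : (1 - hgt m) / 2 = Complex.normSq m.1 := by unfold hgt; linarith
  have e2 : (1 + hgt m) / 2 = Complex.normSq m.2 := by unfold hgt; linarith
  unfold angxy ang
  rw [e1, e2, ← conn_norm, ← conn_norm]
  have e3 : (Complex.arg m.1 + 2 * Complex.arg m.2 +
      2 * (2 * Complex.arg m.1 - Complex.arg m.2)) / 5 = Complex.arg m.1 := by ring
  have e4 : (2 * (Complex.arg m.1 + 2 * Complex.arg m.2) -
      (2 * Complex.arg m.1 - Complex.arg m.2)) / 5 = Complex.arg m.2 := by ring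
  rw [e3, e4, Complex.norm_mul_exp_arg_mul_I, Complex.norm_mul_exp_arg_mul_I]

/-- The radius function in angular coordinates. -/
private def connPsi (q : ℝ × (ℝ × ℝ)) : ℝ :=
  q.1 ^ 2 + 1 / 100 - cc q.1 * bt (2 - Real.cos q.2.1 - Real.cos q.2.2)

private lemma conn_continuous_psi : Continuous connPsi := by
  unfold connPsi
  have h1 := contDiff_cc.continuous
  have h2 := contDiff_bt.continuous
  fun_prop

private lemma conn_mono (p : ℝ × ℝ) : StrictMonoOn (fun h => connPsi (h, p)) (Icc 0 1) := by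
  intro a ha b hb hab
  have h1 : cc b ≤ cc a := antitoneOn_cc ha.1 hb.1 hab.le
  have h2 := bt_nonneg (2 - Real.cos p.1 - Real.cos p.2)
  have h3 : a ^ 2 < b ^ 2 := by nlinarith [ha.1]
  have h4 := mul_le_mul_of_nonneg_right h1 h2
  show a ^ 2 + 1 / 100 - cc a * bt (2 - Real.cos p.1 - Real.cos p.2) <
    b ^ 2 + 1 / 100 - cc b * bt (2 - Real.cos p.1 - Real.cos p.2)
  linarith

private lemma conn_one (p : ℝ × ℝ) : 0 < connPsi (1, p) := by
  show (0 : ℝ) < 1 ^ 2 + 1 / 100 - cc 1 * bt (2 - Real.cos p.1 - Real.cos p.2)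
  rw [cc_of_large (by norm_num)]
  norm_num

private lemma conn_rho {h : ℝ} (x y : ℝ) (hh : |h| ≤ 1) :
    rho (angxy h x y) = connPsi (h, (x, y)) := by
  rcases lt_or_eq_of_le hh with h1 | h1
  · exact rho_angxy x y h1
  · have h2 : 1 ≤ |hgt (angxy h x y)| := by rw [hgt_angxy x y hh, h1]
    rw [(values_core h2).1, hgt_angxy x y hh]
    show _ = h ^ 2 + 1 / 100 - cc h * bt (2 - Real.cos x - Real.cos y)
    have h3 : h ^ 2 = 1 := by rw [← sq_abs, h1]; norm_num
    rw [cc_of_large (by rw [h3]; norm_num)]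
    ring

private lemma conn_psi_neg (h : ℝ) (p : ℝ × ℝ) : connPsi (-h, p) = connPsi (h, p) := by
  unfold connPsi
  rw [cc_neg]
  ring

private lemma conn_psi_sgn {σ : ℝ} (hσ : σ = 1 ∨ σ = -1) (h : ℝ) (p : ℝ × ℝ) :
    connPsi (σ * h, p) = connPsi (h, p) := by
  rcases hσ with rfl | rfl
  · rw [one_mul]
  · rw [neg_one_mul, conn_psi_neg]

private lemma conn_continuous_angxy :
    Continuous fun q : ℝ × ℝ × ℝ => angxy q.1 q.2.1 q.2.2 := by
  unfold angxy ang
  have h1 := Complex.continuous_ofReal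
  have h2 := Complex.continuous_exp
  fun_prop

private lemma conn_half {σ : ℝ} (hσ : σ = 1 ∨ σ = -1) :
    IsPreconnected {x : C3 | x ∈ Xt ∧ 0 ≤ σ * hgt (pr x)} := by
  obtain ⟨H, hHc, hH0, hH1, hHi, -⟩ :=
    exists_root connPsi conn_continuous_psi conn_mono conn_one
  have hσσ : σ * σ = 1 := by rcases hσ with rfl | rfl <;> norm_num
  have hσa : |σ| = 1 := by rcases hσ with rfl | rfl <;> simp
  set hf : ℝ × (ℝ × ℝ) → ℝ := fun q => H q.2 + q.1 * (1 - H q.2) with hhf
  have hhfc : Continuous hf := by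
    rw [hhf]
    fun_prop
  set F : ℝ × (ℝ × ℝ) × ℝ → C3 := fun q =>
    ((angxy (σ * hf (q.1, q.2.1)) q.2.1.1 q.2.1.2).1, (angxy (σ * hf (q.1, q.2.1)) q.2.1.1 q.2.1.2).2,
      (Real.sqrt (connPsi (hf (q.1, q.2.1), q.2.1)) : ℂ) * Complex.exp (q.2.2 * Complex.I)) with hF
  have hFc : Continuous F := by
    have e1 : Continuous fun q : ℝ × (ℝ × ℝ) × ℝ => σ * hf (q.1, q.2.1) :=
      continuous_const.mul (hhfc.comp (by fun_prop))
    have e2 : Continuous fun q : ℝ × (ℝ × ℝ) × ℝ =>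
        angxy (σ * hf (q.1, q.2.1)) q.2.1.1 q.2.1.2 :=
      conn_continuous_angxy.comp (e1.prodMk (by fun_prop))
    have e3 : Continuous fun q : ℝ × (ℝ × ℝ) × ℝ => connPsi (hf (q.1, q.2.1), q.2.1) :=
      conn_continuous_psi.comp ((hhfc.comp (by fun_prop)).prodMk (by fun_prop))
    have e4 := Complex.continuous_ofReal
    have e5 := Complex.continuous_exp
    have e6 : Continuous fun q : ℝ × (ℝ × ℝ) × ℝ =>
        (Real.sqrt (connPsi (hf (q.1, q.2.1), q.2.1)) : ℂ) * Complex.exp (q.2.2 * Complex.I) :=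
      (e4.comp (Real.continuous_sqrt.comp e3)).mul (e5.comp (by fun_prop))
    exact (continuous_fst.comp e2).prodMk ((continuous_snd.comp e2).prodMk e6)
  have himg : {x : C3 | x ∈ Xt ∧ 0 ≤ σ * hgt (pr x)} = F '' (Icc (0 : ℝ) 1 ×ˢ univ) := by
    ext x
    constructor
    · rintro ⟨hx, hx0⟩
      rw [mem_Xt_iff] at hx
      obtain ⟨hx1, hx2⟩ := hx
      have hpr : Complex.normSq (pr x).1 + Complex.normSq (pr x).2 = 1 := hx1
      obtain ⟨a, b, hab⟩ := conn_exists_angxy hpr
      have hle := abs_hgt_le hpr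
      set h : ℝ := hgt (pr x) with hh
      have hh1 : σ * h ≤ 1 := by
        calc σ * h ≤ |σ * h| := le_abs_self _
          _ = |h| := by rw [abs_mul, hσa, one_mul]
          _ ≤ 1 := hle
      have hpsi : rho (pr x) = connPsi (σ * h, (a, b)) := by
        rw [conn_psi_sgn hσ, hab]
        have : hgt (angxy h a b) = h := hgt_angxy a b hle
        exact conn_rho a b hle
      have hnn : 0 ≤ connPsi (σ * h, (a, b)) := by
        rw [← hpsi, ← hx2]
        exact Complex.normSq_nonneg _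
      have hHle : H (a, b) ≤ σ * h := (hHi (a, b) _ ⟨hx0, hh1⟩).2 hnn
      have hpos : 0 < 1 - H (a, b) := by linarith [hH1 (a, b)]
      have hs : hf ((σ * h - H (a, b)) / (1 - H (a, b)), (a, b)) = σ * h := by
        show H (a, b) + (σ * h - H (a, b)) / (1 - H (a, b)) * (1 - H (a, b)) = σ * h
        rw [div_mul_cancel₀ _ hpos.ne']
        ring
      refine ⟨((σ * h - H (a, b)) / (1 - H (a, b)), (a, b), Complex.arg x.2.2), ⟨⟨?_, ?_⟩, mem_univ _⟩, ?_⟩
      · exact div_nonneg (by linarith) hpos.le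
      · rw [div_le_one hpos]
        linarith
      · rw [hF]
        simp only
        rw [hs, ← mul_assoc, hσσ, one_mul, ← hpsi, ← hx2, ← conn_norm,
          Complex.norm_mul_exp_arg_mul_I, ← hab]
        rfl
    · rintro ⟨⟨s, ⟨a, b⟩, φ⟩, ⟨⟨hs0, hs1⟩, -⟩, rfl⟩
      simp only at hs0 hs1
      set h : ℝ := hf (s, (a, b)) with hh
      have hhe : h = H (a, b) + s * (1 - H (a, b)) := rfl
      have hpos : 0 < 1 - H (a, b) := by linarith [hH1 (a, b)]
      have hmul : 0 ≤ s * (1 - H (a, b)) := mul_nonneg hs0 hpos.le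
      have hmul' : s * (1 - H (a, b)) ≤ 1 * (1 - H (a, b)) :=
        mul_le_mul_of_nonneg_right hs1 hpos.le
      have h0 : 0 ≤ h := by linarith [hH0 (a, b)]
      have h1 : h ≤ 1 := by linarith
      have hab : |σ * h| ≤ 1 := by
        rw [abs_mul, hσa, one_mul, abs_of_nonneg h0]
        exact h1
      have hnn : 0 ≤ connPsi (h, (a, b)) :=
        (hHi (a, b) h ⟨h0, h1⟩).1 (by linarith)
      have hprF : pr (F (s, (a, b), φ)) = angxy (σ * h) a b := rfl
      refine ⟨?_, ?_⟩
      · rw [mem_Xt_iff]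
        constructor
        · show Complex.normSq (angxy (σ * h) a b).1 + Complex.normSq (angxy (σ * h) a b).2 = 1
          obtain ⟨e1, e2⟩ := normSq_angxy a b hab
          rw [e1, e2]
          ring
        · rw [hprF, conn_rho a b hab, conn_psi_sgn hσ]
          show Complex.normSq ((Real.sqrt (connPsi (h, (a, b))) : ℂ) * Complex.exp (φ * Complex.I)) = _
          rw [Complex.normSq_eq_norm_sq, norm_mul, Complex.norm_exp_ofReal_mul_I, mul_one,
            Complex.norm_real, Real.norm_eq_abs, sq_abs, Real.sq_sqrt hnn]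
      · rw [hprF, hgt_angxy a b hab, ← mul_assoc, hσσ, one_mul]
        exact h0
  rw [himg]
  exact (isPreconnected_Icc.prod isPreconnected_univ).image F hFc.continuousOn

/-- The manifold `X` is connected. -/
theorem isConnected_XX : IsConnected XX := by
  have hz : (0 : ℝ) ^ 2 + 1 / 100 - cc 0 * bt (2 - Real.cos Real.pi - Real.cos Real.pi) = 1 / 100 := by
    rw [Real.cos_pi, bt_eq_zero (by norm_num)]
    norm_num
  have hab : |(0 : ℝ)| ≤ 1 := by norm_num
  set p : C3 := ((angxy 0 Real.pi Real.pi).1, (angxy 0 Real.pi Real.pi).2, ((1 / 10 : ℝ) : ℂ)) with hp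
  have hprp : pr p = angxy 0 Real.pi Real.pi := rfl
  have hpX : p ∈ Xt := by
    rw [mem_Xt_iff]
    constructor
    · show Complex.normSq (angxy 0 Real.pi Real.pi).1 + Complex.normSq (angxy 0 Real.pi Real.pi).2 = 1
      obtain ⟨e1, e2⟩ := normSq_angxy Real.pi Real.pi hab
      rw [e1, e2]
      norm_num
    · rw [hprp, rho_angxy Real.pi Real.pi (by norm_num), hz]
      show Complex.normSq ((1 / 10 : ℝ) : ℂ) = 1 / 100
      rw [Complex.normSq_ofReal]
      norm_num
  have hp0 : hgt (pr p) = 0 := by rw [hprp, hgt_angxy _ _ hab]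
  have hu : Xt = {x : C3 | x ∈ Xt ∧ 0 ≤ (1 : ℝ) * hgt (pr x)} ∪
      {x : C3 | x ∈ Xt ∧ 0 ≤ (-1 : ℝ) * hgt (pr x)} := by
    ext x
    constructor
    · intro hx
      rcases le_total 0 (hgt (pr x)) with h | h
      · exact Or.inl ⟨hx, by linarith⟩
      · exact Or.inr ⟨hx, by linarith⟩
    · rintro (h | h)
      · exact h.1
      · exact h.1
  have hc : IsPreconnected Xt := by
    rw [hu]
    refine IsPreconnected.union p ⟨hpX, ?_⟩ ⟨hpX, ?_⟩ (conn_half (Or.inl rfl)) (conn_half (Or.inr rfl))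
    · rw [hp0]; norm_num
    · rw [hp0]; norm_num
  have hcx : IsConnected Xt := ⟨⟨p, hpX⟩, hc⟩
  exact hcx.image JJ contDiff_JJ.continuous.continuousOn

end Pool.Agent.Tri
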