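import Mathlib
import Pool.Agent.H.MP_5efd29_gt.RegX

open scoped ContDiff Topology
open Set

noncomputable section

namespace Pool.Agent.Tri

/-- `g` is regular at the point `m` of the 3-sphere. -/
def RegS (g : ℂ × ℂ → ℝ) (m : ℂ × ℂ) : Prop :=
  ∃ μ : ℝ → ℂ × ℂ, DifferentiableAt ℝ μ 0 ∧ μ 0 = m ∧
    (∀ᶠ t in 𝓝 (0 : ℝ), Complex.normSq (μ t).1 + Complex.normSq (μ t).2 = 1) ∧
    ∃ c : ℝ, c ≠ 0 ∧ HasDerivAt (fun t => g (μ t)) c 0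

/-- `A` and `B` correspond to each other under an equivariant diffeomorphism preserving
`PhiX`. -/
def CoreEquiv (A B : Set C3) : Prop :=
  ∃ Θ Ξ : C3 → C3, ContDiff ℝ ∞ Θ ∧ ContDiff ℝ ∞ Ξ ∧ (∀ x, Ξ (Θ x) = x) ∧ (∀ x, Θ (Ξ x) = x) ∧
    (∀ x, PhiX (Θ x) = PhiX x) ∧ (∀ x, Θ (act x) = act (Θ x)) ∧
    ∀ x, PhiX x = 0 → (Θ x ∈ B ↔ x ∈ A)

theorem CoreEquiv.trans {A B C : Set C3} (h : CoreEquiv A B) (h' : CoreEquiv B C) :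
    CoreEquiv A C := by
  obtain ⟨Θ, Ξ, h1, h2, h3, h4, h5, h6, h7⟩ := h
  obtain ⟨Θ', Ξ', k1, k2, k3, k4, k5, k6, k7⟩ := h'
  refine ⟨fun x => Θ' (Θ x), fun x => Ξ (Ξ' x), k1.comp h1, h2.comp k2, fun x => ?_, fun x => ?_,
    fun x => ?_, fun x => ?_, fun x hx => ?_⟩
  · show Ξ (Ξ' (Θ' (Θ x))) = x
    rw [k3, h3]
  · show Θ' (Θ (Ξ (Ξ' x))) = x
    rw [h4, k4]
  · show PhiX (Θ' (Θ x)) = PhiX x
    rw [k5, h5]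
  · show Θ' (Θ (act x)) = act (Θ' (Θ x))
    rw [h6, k6]
  · show Θ' (Θ x) ∈ C ↔ x ∈ A
    rw [k7 _ (by rw [h5, hx]), h7 x hx]

/-- The part with positive third coordinate of the surface `f = 0`. -/
def SH (f : ℂ × ℂ → ℝ) : Set C3 :=
  {x | PhiX x = 0 ∧ x.2.2.im = 0 ∧ 0 < x.2.2.re ∧ f (pr x) = 0}

/-- The section with rotated directions. -/
def PG (t : ℝ) (m : ℂ × ℂ) : ℂ :=
  ∑ j : Fin 3, (lam j m : ℂ) *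
    Complex.exp ((((1 - t) * (2 * Real.pi * ((j : ℕ) : ℝ) / 3) : ℝ) : ℂ) * Complex.I)

/-- The real section. -/
def PR (t : ℝ) (m : ℂ × ℂ) : ℝ := ∑ j, lam j m + t / 20

def f0 (m : ℂ × ℂ) : ℝ := rho m - (∑ j, lam j m + 1 / 20) ^ 2

def fA (m : ℂ × ℂ) : ℝ :=
  hgt m ^ 2 - 65 / 1000 + cc (hgt m) * (1 / 50 * (vv 0 m * vv 1 m * vv 2 m))

def bump (t : ℝ) : ℝ := SS (1 - 10 * t)

/-- Squared distance of the phases from `(a, b)`. -/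
def DD (a b : ℝ) (m : ℂ × ℂ) : ℝ :=
  2 - (Cx m * Real.cos a + Sx m * Real.sin a) - (Cy m * Real.cos b + Sy m * Real.sin b)

def fB (a₁ b₁ a₂ b₂ : ℝ) (m : ℂ × ℂ) : ℝ :=
  hgt m ^ 2 - 65 / 1000 + cc (hgt m) * (7 / 100 * (bump (DD a₁ b₁ m) + bump (DD a₂ b₂ m)))

def f1 (t : ℝ) (m : ℂ × ℂ) : ℝ := (1 - t) * f0 m + t * fA m

def f2 (t : ℝ) (m : ℂ × ℂ) : ℝ :=
  (1 - t) * fA m + t * fB (2 * Real.pi / 3) (2 * Real.pi / 3) (4 * Real.pi / 3) (4 * Real.pi / 3) m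

def f3 (t : ℝ) (m : ℂ × ℂ) : ℝ :=
  fB (2 * Real.pi / 3 + t * Real.pi / 3) (2 * Real.pi / 3 * (1 - t))
    (4 * Real.pi / 3 + 2 * Real.pi * t / 3) (4 * Real.pi / 3 - Real.pi * t / 3) m

end Pool.Agent.Tri
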