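import Mathlib
import Pool.Agent.H.MP_5efd29_gt.CorDefs
import Pool.Agent.H.MP_5efd29_gt.IsoC

open scoped ContDiff Topology
open Set

noncomputable section

namespace Pool.Agent.Tri

/-- Derivative of the squared modulus. -/
def cora_N (a : ℂ) : ℂ →L[ℝ] ℝ := (2 * a.re) • Complex.reCLM + (2 * a.im) • Complex.imCLM

theorem cora_N_apply (a b : ℂ) : cora_N a b = 2 * (a.re * b.re + a.im * b.im) := by
  change 2 * a.re * b.re + 2 * a.im * b.im = _
  ring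

theorem cora_normSq (a : ℂ) : HasFDerivAt (fun z : ℂ => Complex.normSq z) (cora_N a) a := by
  have h : (fun z : ℂ => Complex.normSq z) = fun z => z.re * z.re + z.im * z.im := by
    funext z
    exact Complex.normSq_apply z
  rw [h]
  have h1 : HasFDerivAt (fun z : ℂ => z.re) Complex.reCLM a := Complex.reCLM.hasFDerivAt
  have h2 : HasFDerivAt (fun z : ℂ => z.im) Complex.imCLM a := Complex.imCLM.hasFDerivAt
  have h3 := (h1.mul h1).add (h2.mul h2)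
  refine h3.congr_fderiv ?_
  ext b
  rw [cora_N_apply]
  change a.re * b.re + a.re * b.re + (a.im * b.im + a.im * b.im) = _
  ring

/-- The first two coordinates as a continuous linear map. -/
def cora_pr : C3 →L[ℝ] ℂ × ℂ :=
  (ContinuousLinearMap.fst ℝ ℂ (ℂ × ℂ)).prod
    ((ContinuousLinearMap.fst ℝ ℂ ℂ).comp (ContinuousLinearMap.snd ℝ ℂ (ℂ × ℂ)))

theorem cora_hasFDerivAt_pr (x : C3) : HasFDerivAt pr cora_pr x := cora_pr.hasFDerivAt

/-- The third coordinate as a continuous linear map. -/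
def cora_th : C3 →L[ℝ] ℂ :=
  (ContinuousLinearMap.snd ℝ ℂ ℂ).comp (ContinuousLinearMap.snd ℝ ℂ (ℂ × ℂ))

theorem cora_hasFDerivAt_th (x : C3) : HasFDerivAt (fun y : C3 => y.2.2) cora_th x :=
  cora_th.hasFDerivAt

theorem cora_fst (x : C3) : HasFDerivAt (fun y : C3 => y.1)
    (ContinuousLinearMap.fst ℝ ℂ (ℂ × ℂ)) x := (ContinuousLinearMap.fst ℝ ℂ (ℂ × ℂ)).hasFDerivAt

theorem cora_snd (x : C3) : HasFDerivAt (fun y : C3 => y.2.1)
    ((ContinuousLinearMap.fst ℝ ℂ ℂ).comp (ContinuousLinearMap.snd ℝ ℂ (ℂ × ℂ))) x :=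
  ((ContinuousLinearMap.fst ℝ ℂ ℂ).comp (ContinuousLinearMap.snd ℝ ℂ (ℂ × ℂ))).hasFDerivAt

theorem cora_rho (m : ℂ × ℂ) : HasFDerivAt rho (fderiv ℝ rho m) m :=
  (contDiff_rho.differentiable (by simp) m).hasFDerivAt

theorem cora_fderiv_PhiX (x v : C3) :
    (fderiv ℝ PhiX x v).re = 2 * (x.1.re * v.1.re + x.1.im * v.1.im) +
      2 * (x.2.1.re * v.2.1.re + x.2.1.im * v.2.1.im) ∧
    (fderiv ℝ PhiX x v).im = 2 * (x.2.2.re * v.2.2.re + x.2.2.im * v.2.2.im) -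
      fderiv ℝ rho (pr x) (pr v) := by
  have h0 : HasFDerivAt PhiX (fderiv ℝ PhiX x) x :=
    (contDiff_PhiX.differentiable (by simp) x).hasFDerivAt
  constructor
  · have h1 : HasFDerivAt (fun y : C3 => (PhiX y).re)
        (Complex.reCLM.comp (fderiv ℝ PhiX x)) x := Complex.reCLM.hasFDerivAt.comp x h0
    have h2 : HasFDerivAt (fun y : C3 => Complex.normSq y.1 + Complex.normSq y.2.1 - 1)
        ((cora_N x.1).comp (ContinuousLinearMap.fst ℝ ℂ (ℂ × ℂ)) +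
          (cora_N x.2.1).comp ((ContinuousLinearMap.fst ℝ ℂ ℂ).comp
            (ContinuousLinearMap.snd ℝ ℂ (ℂ × ℂ)))) x :=
      (((cora_normSq x.1).comp x (cora_fst x)).add
        ((cora_normSq x.2.1).comp x (cora_snd x))).sub_const 1
    have h3 := congrArg (fun L : C3 →L[ℝ] ℝ => L v) (h1.unique h2)
    change (fderiv ℝ PhiX x v).re = cora_N x.1 v.1 + cora_N x.2.1 v.2.1 at h3
    rw [h3, cora_N_apply, cora_N_apply]
  · have h1 : HasFDerivAt (fun y : C3 => (PhiX y).im)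
        (Complex.imCLM.comp (fderiv ℝ PhiX x)) x := Complex.imCLM.hasFDerivAt.comp x h0
    have h2 : HasFDerivAt (fun y : C3 => Complex.normSq y.2.2 - rho (pr y))
        ((cora_N x.2.2).comp cora_th - (fderiv ℝ rho (pr x)).comp cora_pr) x :=
      ((cora_normSq x.2.2).comp x (cora_hasFDerivAt_th x)).sub
        ((cora_rho (pr x)).comp x (cora_hasFDerivAt_pr x))
    have h3 := congrArg (fun L : C3 →L[ℝ] ℝ => L v) (h1.unique h2)
    change (fderiv ℝ PhiX x v).im = cora_N x.2.2 v.2.2 - fderiv ℝ rho (pr x) (pr v) at h3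
    rw [h3, cora_N_apply]

/-- The tangent vector of a regular point. -/
theorem cora_regS {g : ℂ × ℂ → ℝ} {m : ℂ × ℂ} (hg : DifferentiableAt ℝ g m) (h : RegS g m) :
    ∃ V : ℂ × ℂ, m.1.re * V.1.re + m.1.im * V.1.im + (m.2.re * V.2.re + m.2.im * V.2.im) = 0 ∧
      fderiv ℝ g m V ≠ 0 := by
  obtain ⟨μ, hμ, hμ0, hμS, c, hc, hgc⟩ := h
  have hμ' : HasDerivAt μ (deriv μ 0) 0 := hμ.hasDerivAt
  refine ⟨deriv μ 0, ?_, ?_⟩
  · have h1 : HasFDerivAt (fun q : ℂ × ℂ => Complex.normSq q.1 + Complex.normSq q.2)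
        ((cora_N (μ 0).1).comp (ContinuousLinearMap.fst ℝ ℂ ℂ) +
          (cora_N (μ 0).2).comp (ContinuousLinearMap.snd ℝ ℂ ℂ)) (μ 0) :=
      ((cora_normSq (μ 0).1).comp (μ 0) (ContinuousLinearMap.fst ℝ ℂ ℂ).hasFDerivAt).add
        ((cora_normSq (μ 0).2).comp (μ 0) (ContinuousLinearMap.snd ℝ ℂ ℂ).hasFDerivAt)
    have h2 := h1.comp_hasDerivAt (0 : ℝ) hμ'
    have h3 : HasDerivAt ((fun q : ℂ × ℂ => Complex.normSq q.1 + Complex.normSq q.2) ∘ μ)
        (0 : ℝ) 0 := by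
      refine (hasDerivAt_const (0 : ℝ) (1 : ℝ)).congr_of_eventuallyEq ?_
      filter_upwards [hμS] with t ht
      exact ht
    have h4 := h2.unique h3
    change cora_N (μ 0).1 (deriv μ 0).1 + cora_N (μ 0).2 (deriv μ 0).2 = 0 at h4
    rw [cora_N_apply, cora_N_apply, hμ0] at h4
    linarith
  · have h1 : HasFDerivAt g (fderiv ℝ g m) (μ 0) := by
      rw [hμ0]
      exact hg.hasFDerivAt
    have h2 := h1.comp_hasDerivAt (0 : ℝ) hμ'
    rw [h2.unique hgc]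
    exact hc

/-- Regularity of graphs in `Xt`. -/
theorem reg_section (P : ℂ × ℂ → ℂ) (hP : ContDiff ℝ ∞ P) {x : C3} (hx : PhiX x = 0)
    (h : x.2.2 = P (pr x)) (hr : RegS (fun m => rho m - Complex.normSq (P m)) (pr x)) :
    RegAt PhiX (fun y : C3 => y.2.2 - P (pr y)) x := by
  have hm : Complex.normSq x.1 + Complex.normSq x.2.1 = 1 := ((mem_Xt_iff x).1 hx).1
  have hPd : HasFDerivAt P (fderiv ℝ P (pr x)) (pr x) :=
    (hP.differentiable (by simp) (pr x)).hasFDerivAt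
  have hg : HasFDerivAt (fun m => rho m - Complex.normSq (P m))
      (fderiv ℝ rho (pr x) - (cora_N (P (pr x))).comp (fderiv ℝ P (pr x))) (pr x) :=
    (cora_rho (pr x)).sub ((cora_normSq (P (pr x))).comp (pr x) hPd)
  obtain ⟨V₀, hV1, hV2⟩ := cora_regS hg.differentiableAt hr
  have hF : HasFDerivAt (fun y : C3 => y.2.2 - P (pr y))
      (cora_th - (fderiv ℝ P (pr x)).comp cora_pr) x :=
    (cora_hasFDerivAt_th x).sub (hPd.comp x (cora_hasFDerivAt_pr x))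
  have hgV : ∀ V : ℂ × ℂ, fderiv ℝ (fun m => rho m - Complex.normSq (P m)) (pr x) V =
      fderiv ℝ rho (pr x) V - 2 * (x.2.2.re * (fderiv ℝ P (pr x) V).re +
        x.2.2.im * (fderiv ℝ P (pr x) V).im) := by
    intro V
    rw [hg.fderiv, h, ← cora_N_apply]
    rfl
  set c := fderiv ℝ (fun m => rho m - Complex.normSq (P m)) (pr x) V₀ with hc
  rintro ⟨w, q⟩
  set s : ℝ := (2 * (x.2.2.re * q.re + x.2.2.im * q.im) - (w.re / 2) *
    fderiv ℝ (fun m => rho m - Complex.normSq (P m)) (pr x) (pr x) - w.im) / c with hs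
  have hsc : s * c = 2 * (x.2.2.re * q.re + x.2.2.im * q.im) - (w.re / 2) *
      fderiv ℝ (fun m => rho m - Complex.normSq (P m)) (pr x) (pr x) - w.im := by
    rw [hs, div_mul_cancel₀ _ hV2]
  set V : ℂ × ℂ := (w.re / 2) • pr x + s • V₀ with hV
  have e1 : fderiv ℝ (fun m => rho m - Complex.normSq (P m)) (pr x) V =
      (w.re / 2) * fderiv ℝ (fun m => rho m - Complex.normSq (P m)) (pr x) (pr x) + s * c := by
    rw [hV, map_add, map_smul, map_smul, smul_eq_mul, smul_eq_mul]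
  refine ⟨(V.1, V.2, q + fderiv ℝ P (pr x) V), ?_⟩
  obtain ⟨k1, k2⟩ := cora_fderiv_PhiX x (V.1, V.2, q + fderiv ℝ P (pr x) V)
  refine Prod.ext (Complex.ext ?_ ?_) ?_
  · change (fderiv ℝ PhiX x (V.1, V.2, q + fderiv ℝ P (pr x) V)).re = w.re
    rw [k1]
    have v1 : V.1.re = (w.re / 2) * x.1.re + s * V₀.1.re := by
      rw [hV]; simp [pr]
    have v2 : V.1.im = (w.re / 2) * x.1.im + s * V₀.1.im := by
      rw [hV]; simp [pr]
    have v3 : V.2.re = (w.re / 2) * x.2.1.re + s * V₀.2.re := by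
      rw [hV]; simp [pr]
    have v4 : V.2.im = (w.re / 2) * x.2.1.im + s * V₀.2.im := by
      rw [hV]; simp [pr]
    change 2 * (x.1.re * V.1.re + x.1.im * V.1.im) + 2 * (x.2.1.re * V.2.re + x.2.1.im * V.2.im)
      = w.re
    rw [v1, v2, v3, v4]
    rw [Complex.normSq_apply, Complex.normSq_apply] at hm
    change x.1.re * V₀.1.re + x.1.im * V₀.1.im + (x.2.1.re * V₀.2.re + x.2.1.im * V₀.2.im) = 0
      at hV1
    linear_combination w.re * hm + 2 * s * hV1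
  · change (fderiv ℝ PhiX x (V.1, V.2, q + fderiv ℝ P (pr x) V)).im = w.im
    rw [k2]
    have e2 := hgV V
    rw [e1, hsc] at e2
    change 2 * (x.2.2.re * (q + fderiv ℝ P (pr x) V).re + x.2.2.im * (q + fderiv ℝ P (pr x) V).im)
      - fderiv ℝ rho (pr x) V = w.im
    rw [Complex.add_re, Complex.add_im]
    linear_combination e2
  · change fderiv ℝ (fun y : C3 => y.2.2 - P (pr y)) x (V.1, V.2, q + fderiv ℝ P (pr x) V) = q
    rw [hF.fderiv]
    change q + fderiv ℝ P (pr x) V - fderiv ℝ P (pr x) V = q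
    ring

/-- Isotopy of graphs in `Xt`. -/
theorem section_path (P : ℝ → ℂ × ℂ → ℂ) (hP : ContDiff ℝ ∞ (fun q : ℝ × (ℂ × ℂ) => P q.1 q.2))
    (hPa : ∀ t x, P t (pr (act x)) = P t (pr x))
    (reg : ∀ t ∈ Icc (0 : ℝ) 1, ∀ m : ℂ × ℂ, Complex.normSq m.1 + Complex.normSq m.2 = 1 →
      rho m = Complex.normSq (P t m) → RegS (fun m => rho m - Complex.normSq (P t m)) m) :
    CoreEquiv {x | PhiX x = 0 ∧ x.2.2 = P 0 (pr x)} {x | PhiX x = 0 ∧ x.2.2 = P 1 (pr x)} := by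
  have hPt : ∀ t, ContDiff ℝ ∞ (P t) := fun t =>
    hP.comp (contDiff_const.prodMk contDiff_id)
  have hF : ContDiff ℝ ∞ (fun q : ℝ × C3 => q.2.2.2 - P q.1 (pr q.2)) := by
    have h1 : ContDiff ℝ ∞ (fun q : ℝ × C3 => q.2.2.2) :=
      contDiff_snd.comp (contDiff_snd.comp contDiff_snd)
    have h2 : ContDiff ℝ ∞ (fun q : ℝ × C3 => P q.1 (pr q.2)) :=
      hP.comp (contDiff_fst.prodMk (contDiff_pr.comp contDiff_snd))
    exact h1.sub h2
  obtain ⟨Θ, Ξ, hΘ, hΞ, h0, h1, h2, h3, h4, h5⟩ := isotopy_C3 PhiX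
    (fun q : ℝ × C3 => q.2.2.2 - P q.1 (pr q.2)) contDiff_PhiX hF PhiX_act
    (fun t x => by
      change (act x).2.2 - P t (pr (act x)) = x.2.2 - P t (pr x)
      rw [hPa]
      rfl)
    ⟨10, fun t _ x hx _ => bdd_PhiX hx⟩
    (fun t ht x hx hFx => by
      have hx2 : x.2.2 = P t (pr x) := sub_eq_zero.1 hFx
      obtain ⟨hm, hr⟩ := (mem_Xt_iff x).1 hx
      exact reg_section (P t) (hPt t) hx hx2 (reg t ht (pr x) hm (by rw [← hr, hx2])))
  refine ⟨fun x => Θ (1, x), fun x => Ξ (1, x), hΘ.comp (contDiff_const.prodMk contDiff_id),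
    hΞ.comp (contDiff_const.prodMk contDiff_id), h1 1, h2 1, h3 1, h5 1, ?_⟩
  intro x hx
  have h6 := h4 1 x hx
  rw [Real.smoothTransition.one] at h6
  change (Θ (1, x)).2.2 - P 1 (pr (Θ (1, x))) = 0 ↔ x.2.2 - P 0 (pr x) = 0 at h6
  rw [sub_eq_zero, sub_eq_zero] at h6
  change (PhiX (Θ (1, x)) = 0 ∧ (Θ (1, x)).2.2 = P 1 (pr (Θ (1, x)))) ↔
    (PhiX x = 0 ∧ x.2.2 = P 0 (pr x))
  rw [h3, h6]

theorem cora_reg_sheet (g : ℂ × ℂ → ℝ) (hg : ContDiff ℝ ∞ g) {x : C3} (hx : PhiX x = 0)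
    (him : x.2.2.im = 0) (hpos : 0 < rho (pr x)) (hr : RegS g (pr x)) :
    RegAt PhiX (fun y : C3 => (⟨g (pr y), y.2.2.im⟩ : ℂ)) x := by
  obtain ⟨hm, hm2⟩ := (mem_Xt_iff x).1 hx
  have hξ : x.2.2.re ≠ 0 := by
    intro h0
    rw [Complex.normSq_apply, h0, him] at hm2
    rw [← hm2] at hpos
    norm_num at hpos
  have hgd : HasFDerivAt g (fderiv ℝ g (pr x)) (pr x) :=
    (hg.differentiable (by simp) (pr x)).hasFDerivAt
  obtain ⟨V₀, hV1, hV2⟩ := cora_regS hgd.differentiableAt hr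
  have hFc : ContDiff ℝ ∞ (fun y : C3 => (⟨g (pr y), y.2.2.im⟩ : ℂ)) :=
    funb1_contDiff_mk (hg.comp contDiff_pr)
      (funb1_contDiff_im.comp (contDiff_snd.comp contDiff_snd))
  have hF0 : HasFDerivAt (fun y : C3 => (⟨g (pr y), y.2.2.im⟩ : ℂ))
      (fderiv ℝ (fun y : C3 => (⟨g (pr y), y.2.2.im⟩ : ℂ)) x) x :=
    (hFc.differentiable (by simp) x).hasFDerivAt
  have hFre : ∀ v : C3, (fderiv ℝ (fun y : C3 => (⟨g (pr y), y.2.2.im⟩ : ℂ)) x v).re =
      fderiv ℝ g (pr x) (pr v) := by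
    intro v
    have k1 : HasFDerivAt (fun y : C3 => g (pr y))
        (Complex.reCLM.comp (fderiv ℝ (fun y : C3 => (⟨g (pr y), y.2.2.im⟩ : ℂ)) x)) x :=
      Complex.reCLM.hasFDerivAt.comp x hF0
    have k2 : HasFDerivAt (fun y : C3 => g (pr y)) ((fderiv ℝ g (pr x)).comp cora_pr) x :=
      hgd.comp x (cora_hasFDerivAt_pr x)
    exact congrArg (fun L : C3 →L[ℝ] ℝ => L v) (k1.unique k2)
  have hFim : ∀ v : C3, (fderiv ℝ (fun y : C3 => (⟨g (pr y), y.2.2.im⟩ : ℂ)) x v).im =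
      v.2.2.im := by
    intro v
    have k0 := (Complex.imCLM.hasFDerivAt (x := (⟨g (pr x), x.2.2.im⟩ : ℂ))).comp x hF0
    have k1 : HasFDerivAt (fun y : C3 => y.2.2.im)
        (Complex.imCLM.comp (fderiv ℝ (fun y : C3 => (⟨g (pr y), y.2.2.im⟩ : ℂ)) x)) x := k0
    have k2 : HasFDerivAt (fun y : C3 => y.2.2.im) (Complex.imCLM.comp cora_th) x :=
      (Complex.imCLM.comp cora_th).hasFDerivAt
    exact congrArg (fun L : C3 →L[ℝ] ℝ => L v) (k1.unique k2)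
  set c := fderiv ℝ g (pr x) V₀ with hc
  rintro ⟨w, q⟩
  set s : ℝ := (q.re - (w.re / 2) * fderiv ℝ g (pr x) (pr x)) / c with hs
  have hsc : s * c = q.re - (w.re / 2) * fderiv ℝ g (pr x) (pr x) := by
    rw [hs, div_mul_cancel₀ _ hV2]
  set V : ℂ × ℂ := (w.re / 2) • pr x + s • V₀ with hV
  have e1 : fderiv ℝ g (pr x) V = q.re := by
    rw [hV, map_add, map_smul, map_smul, smul_eq_mul, smul_eq_mul, ← hc, hsc]
    ring
  set η : ℂ := ⟨(w.im + fderiv ℝ rho (pr x) V) / (2 * x.2.2.re), q.im⟩ with hη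
  have hη1 : x.2.2.re * η.re = (w.im + fderiv ℝ rho (pr x) V) / 2 := by
    rw [hη]
    field_simp
  refine ⟨(V.1, V.2, η), ?_⟩
  obtain ⟨k1, k2⟩ := cora_fderiv_PhiX x (V.1, V.2, η)
  refine Prod.ext (Complex.ext ?_ ?_) (Complex.ext ?_ ?_)
  · change (fderiv ℝ PhiX x (V.1, V.2, η)).re = w.re
    rw [k1]
    have v1 : V.1.re = (w.re / 2) * x.1.re + s * V₀.1.re := by
      rw [hV]; simp [pr]
    have v2 : V.1.im = (w.re / 2) * x.1.im + s * V₀.1.im := by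
      rw [hV]; simp [pr]
    have v3 : V.2.re = (w.re / 2) * x.2.1.re + s * V₀.2.re := by
      rw [hV]; simp [pr]
    have v4 : V.2.im = (w.re / 2) * x.2.1.im + s * V₀.2.im := by
      rw [hV]; simp [pr]
    change 2 * (x.1.re * V.1.re + x.1.im * V.1.im) + 2 * (x.2.1.re * V.2.re + x.2.1.im * V.2.im)
      = w.re
    rw [v1, v2, v3, v4]
    rw [Complex.normSq_apply, Complex.normSq_apply] at hm
    change x.1.re * V₀.1.re + x.1.im * V₀.1.im + (x.2.1.re * V₀.2.re + x.2.1.im * V₀.2.im) = 0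
      at hV1
    linear_combination w.re * hm + 2 * s * hV1
  · change (fderiv ℝ PhiX x (V.1, V.2, η)).im = w.im
    rw [k2]
    change 2 * (x.2.2.re * η.re + x.2.2.im * η.im) - fderiv ℝ rho (pr x) V = w.im
    rw [hη1, him]
    ring
  · change (fderiv ℝ (fun y : C3 => (⟨g (pr y), y.2.2.im⟩ : ℂ)) x (V.1, V.2, η)).re = q.re
    rw [hFre]
    exact e1
  · change (fderiv ℝ (fun y : C3 => (⟨g (pr y), y.2.2.im⟩ : ℂ)) x (V.1, V.2, η)).im = q.im
    rw [hFim]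

/-- Isotopy of surfaces contained in a sheet of `Im ξ = 0`. -/
theorem sheet_path (f : ℝ → ℂ × ℂ → ℝ) (hf : ContDiff ℝ ∞ (fun q : ℝ × (ℂ × ℂ) => f q.1 q.2))
    (hfa : ∀ t x, f t (pr (act x)) = f t (pr x))
    (pos : ∀ t ∈ Icc (0 : ℝ) 1, ∀ m : ℂ × ℂ, Complex.normSq m.1 + Complex.normSq m.2 = 1 →
      f t m = 0 → 0 < rho m)
    (reg : ∀ t ∈ Icc (0 : ℝ) 1, ∀ m : ℂ × ℂ, Complex.normSq m.1 + Complex.normSq m.2 = 1 →
      f t m = 0 → RegS (f t) m) :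
    CoreEquiv (SH (f 0)) (SH (f 1)) := by
  have hft : ∀ t, ContDiff ℝ ∞ (f t) := fun t =>
    hf.comp (contDiff_const.prodMk contDiff_id)
  have hF : ContDiff ℝ ∞ (fun q : ℝ × C3 => (⟨f q.1 (pr q.2), q.2.2.2.im⟩ : ℂ)) :=
    funb1_contDiff_mk (hf.comp (contDiff_fst.prodMk (contDiff_pr.comp contDiff_snd)))
      (funb1_contDiff_im.comp (contDiff_snd.comp (contDiff_snd.comp contDiff_snd)))
  have hzero : ∀ (t : ℝ) (x : C3), (⟨f t (pr x), x.2.2.im⟩ : ℂ) = 0 ↔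
      f t (pr x) = 0 ∧ x.2.2.im = 0 := by
    intro t x
    rw [Complex.ext_iff]
    rfl
  obtain ⟨Θ, Ξ, hΘ, hΞ, h0, h1, h2, h3, h4, h5⟩ := isotopy_C3 PhiX
    (fun q : ℝ × C3 => (⟨f q.1 (pr q.2), q.2.2.2.im⟩ : ℂ)) contDiff_PhiX hF PhiX_act
    (fun t x => by
      change (⟨f t (pr (act x)), (act x).2.2.im⟩ : ℂ) = ⟨f t (pr x), x.2.2.im⟩
      rw [hfa]
      rfl)
    ⟨10, fun t _ x hx _ => bdd_PhiX hx⟩
    (fun t ht x hx hFx => by
      obtain ⟨hx1, hx2⟩ := (hzero t x).1 hFx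
      obtain ⟨hm, hr⟩ := (mem_Xt_iff x).1 hx
      exact cora_reg_sheet (f t) (hft t) hx hx2 (pos t ht (pr x) hm hx1) (reg t ht (pr x) hm hx1))
  refine ⟨fun x => Θ (1, x), fun x => Ξ (1, x), hΘ.comp (contDiff_const.prodMk contDiff_id),
    hΞ.comp (contDiff_const.prodMk contDiff_id), h1 1, h2 1, h3 1, h5 1, ?_⟩
  intro x hx
  have h6 : ∀ t, (f (Real.smoothTransition t) (pr (Θ (t, x))) = 0 ∧ (Θ (t, x)).2.2.im = 0) ↔
      (f 0 (pr x) = 0 ∧ x.2.2.im = 0) := by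
    intro t
    rw [← hzero, ← hzero]
    exact h4 t x hx
  have hcont : Continuous (fun t : ℝ => (Θ (t, x)).2.2.re) :=
    Complex.continuous_re.comp (continuous_snd.comp (continuous_snd.comp
      (hΘ.continuous.comp (continuous_id.prodMk continuous_const))))
  have hne : f 0 (pr x) = 0 → x.2.2.im = 0 → ∀ t : ℝ, (Θ (t, x)).2.2.re ≠ 0 := by
    intro e1 e2 t e3
    obtain ⟨k1, k2⟩ := (h6 t).2 ⟨e1, e2⟩
    have k3 : PhiX (Θ (t, x)) = 0 := by rw [h3, hx]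
    obtain ⟨k4, k5⟩ := (mem_Xt_iff _).1 k3
    have k6 := pos (Real.smoothTransition t)
      ⟨Real.smoothTransition.nonneg t, Real.smoothTransition.le_one t⟩ _ k4 k1
    rw [Complex.normSq_apply, e3, k2] at k5
    rw [← k5] at k6
    norm_num at k6
  have hsign : f 0 (pr x) = 0 → x.2.2.im = 0 →
      (0 < (Θ (1, x)).2.2.re ↔ 0 < x.2.2.re) := by
    intro e1 e2
    have e0 : (Θ (0, x)).2.2.re = x.2.2.re := by rw [h0]
    rw [← e0]
    constructor
    · intro hp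
      by_contra hn
      push Not at hn
      obtain ⟨t, _, ht⟩ := intermediate_value_Icc (zero_le_one (α := ℝ)) hcont.continuousOn
        ⟨hn, hp.le⟩
      exact hne e1 e2 t ht
    · intro hp
      by_contra hn
      push Not at hn
      obtain ⟨t, _, ht⟩ := intermediate_value_Icc' (zero_le_one (α := ℝ)) hcont.continuousOn
        ⟨hn, hp.le⟩
      exact hne e1 e2 t ht
  have h7 := h6 1
  rw [Real.smoothTransition.one] at h7
  change (PhiX (Θ (1, x)) = 0 ∧ (Θ (1, x)).2.2.im = 0 ∧ 0 < (Θ (1, x)).2.2.re ∧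
    f 1 (pr (Θ (1, x))) = 0) ↔ (PhiX x = 0 ∧ x.2.2.im = 0 ∧ 0 < x.2.2.re ∧ f 0 (pr x) = 0)
  constructor
  · rintro ⟨-, k2, k3, k4⟩
    obtain ⟨e1, e2⟩ := h7.1 ⟨k4, k2⟩
    exact ⟨hx, e2, (hsign e1 e2).1 k3, e1⟩
  · rintro ⟨-, e2, e3, e1⟩
    obtain ⟨k4, k2⟩ := h7.2 ⟨e1, e2⟩
    exact ⟨by rw [h3, hx], k2, (hsign e1 e2).2 e3, k4⟩

end Pool.Agent.Tri
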