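import Mathlib
import Pool.Agent.H.MP_5efd29_gt.CorDefs

open scoped ContDiff Topology
open Set

noncomputable section

namespace Pool.Agent.Tri

theorem contDiff_PG : ContDiff ℝ ∞ (fun q : ℝ × (ℂ × ℂ) => PG q.1 q.2) := by
  unfold PG
  apply ContDiff.sum
  intro j _
  have h1 : ContDiff ℝ ∞ (fun q : ℝ × (ℂ × ℂ) => ((lam j q.2 : ℝ) : ℂ)) :=
    funb1_contDiff_ofReal.comp ((contDiff_lam j).comp contDiff_snd)
  have h2 : ContDiff ℝ ∞ (fun q : ℝ × (ℂ × ℂ) =>
      (1 - q.1) * (2 * Real.pi * ((j : ℕ) : ℝ) / 3)) :=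
    (contDiff_const.sub contDiff_fst).mul contDiff_const
  have h3 : ContDiff ℝ ∞ (fun q : ℝ × (ℂ × ℂ) =>
      (((1 - q.1) * (2 * Real.pi * ((j : ℕ) : ℝ) / 3) : ℝ) : ℂ) * Complex.I) :=
    (funb1_contDiff_ofReal.comp h2).mul contDiff_const
  exact h1.mul (Complex.contDiff_exp.comp h3)

theorem contDiff_PR : ContDiff ℝ ∞ (fun q : ℝ × (ℂ × ℂ) => PR q.1 q.2) := by
  unfold PR
  apply ContDiff.add
  · apply ContDiff.sum
    intro j _
    exact (contDiff_lam j).comp contDiff_snd
  · exact contDiff_fst.div_const 20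

theorem PG_act (t : ℝ) (x : C3) : PG t (pr (act x)) = PG t (pr x) := by
  unfold PG
  simp only [lam_act]

theorem PR_act (t : ℝ) (x : C3) : PR t (pr (act x)) = PR t (pr x) := by
  unfold PR
  simp only [lam_act]

theorem PG_zero (m : ℂ × ℂ) : PG 0 m = pp m := by
  unfold PG pp
  refine Finset.sum_congr rfl fun j _ => ?_
  congr 1
  unfold dir
  congr 1
  push_cast
  ring

theorem PG_one (m : ℂ × ℂ) : PG 1 m = ((PR 0 m : ℝ) : ℂ) := by
  unfold PG PR
  rw [zero_div, add_zero, Complex.ofReal_sum]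
  refine Finset.sum_congr rfl fun j _ => ?_
  rw [sub_self, zero_mul, Complex.ofReal_zero, zero_mul, Complex.exp_zero, mul_one]

/-- The squared length of the section with general directions and a shift. -/
def corbN (c s : Fin 3 → ℝ) (σ : ℝ) (L : Fin 3 → ℝ) : ℝ :=
  (∑ j, L j * c j + σ) ^ 2 + (∑ j, L j * s j) ^ 2

theorem corb_N_nonneg (c s : Fin 3 → ℝ) (σ : ℝ) (L : Fin 3 → ℝ) : 0 ≤ corbN c s σ L := by
  unfold corbN
  positivity

/-- The two-dimensional non-degeneracy lemma for general directions. -/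
theorem corb_L2D {c s : Fin 3 → ℝ} {σ : ℝ} (hσ : 0 ≤ σ) (hσ' : σ < 1 / 10)
    (hcs : ∀ j, c j ^ 2 + s j ^ 2 = 1) (hσc : ∀ j, σ * c j = σ) {x y : ℝ}
    (h0 : bt (2 - Real.cos x - Real.cos y) +
      corbN c s σ (fun j => Lam (1 - Real.cos (ll j x y))) = 1 / 100) :
    Dir2 (fun x y => bt (2 - Real.cos x - Real.cos y) +
      corbN c s σ (fun j => Lam (1 - Real.cos (ll j x y)))) x y := by
  have hone : ∃ i : Fin 3, ∀ j, j ≠ i → Lam (1 - Real.cos (ll j x y)) = 0 := by
    by_cases hz : ∀ j, Lam (1 - Real.cos (ll j x y)) = 0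
    · exact ⟨0, fun j _ => hz j⟩
    · push Not at hz
      obtain ⟨i, hi⟩ := hz
      refine ⟨i, fun j hj => ?_⟩
      by_contra hne
      have hu := bands_disjoint hj hne hi
      have hb : bt (1 / 200) ≤ bt (2 - Real.cos x - Real.cos y) := antitone_bt hu.le
      rw [bt_mid] at hb
      have := corb_N_nonneg c s σ (fun j => Lam (1 - Real.cos (ll j x y)))
      linarith
  obtain ⟨i, hi⟩ := hone
  have hsum : ∀ c : Fin 3 → ℝ, (∑ j, Lam (1 - Real.cos (ll j x y)) * c j) =
      Lam (1 - Real.cos (ll i x y)) * c i := by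
    intro c
    apply Finset.sum_eq_single i
    · intro j _ hj
      rw [hi j hj, zero_mul]
    · intro h
      exact absurd (Finset.mem_univ i) h
  have hdi := hcs i
  have hsi := hσc i
  have h1 : bt (2 - Real.cos x - Real.cos y + 0) + (Lam (1 - Real.cos (ll i x y)) + σ) ^ 2
      = 1 / 100 := by
    unfold corbN at h0
    rw [hsum, hsum] at h0
    rw [add_zero, ← h0]
    linear_combination (-(Lam (1 - Real.cos (ll i x y))) ^ 2) * hdi -
      2 * Lam (1 - Real.cos (ll i x y)) * hsi
  obtain ⟨a, b, d, hd, hder⟩ := L2D i le_rfl hσ hσ' h1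
  have huniq := hder.unique (func_deriv i x y a b 0 σ)
  refine ⟨a, b, d, hd, ?_⟩
  have e : (fun t : ℝ => (fun x y => bt (2 - Real.cos x - Real.cos y) +
      corbN c s σ (fun j => Lam (1 - Real.cos (ll j x y)))) (x + t * a) (y + t * b)) =
      fun t : ℝ => bt (2 - Real.cos (x + t * a) - Real.cos (y + t * b) + 0) +
        ((∑ j, Lam (1 - Real.cos (ll j (x + t * a) (y + t * b))) * c j + σ) ^ 2 +
          (∑ j, Lam (1 - Real.cos (ll j (x + t * a) (y + t * b))) * s j) ^ 2) := by
    funext t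
    show bt (2 - Real.cos (x + t * a) - Real.cos (y + t * b)) +
      corbN c s σ (fun j => Lam (1 - Real.cos (ll j (x + t * a) (y + t * b)))) = _
    unfold corbN
    rw [add_zero]
  rw [e]
  have hD : ∀ c : Fin 3 → ℝ, HasDerivAt
      (fun t : ℝ => ∑ j, Lam (1 - Real.cos (ll j (x + t * a) (y + t * b))) * c j)
      (deriv Lam (1 - Real.cos (ll i x y)) * (ll i a b * Real.sin (ll i x y)) * c i) 0 := by
    intro c
    have h2 : HasDerivAt
      (fun t : ℝ => ∑ j, Lam (1 - Real.cos (ll j (x + t * a) (y + t * b))) * c j)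
      (∑ j, deriv Lam (1 - Real.cos (ll j x y)) * (ll j a b * Real.sin (ll j x y)) * c j) 0 := by
      apply HasDerivAt.fun_sum
      intro j _
      exact (func_Lam j x y a b).mul_const (c j)
    have h3 : (∑ j, deriv Lam (1 - Real.cos (ll j x y)) *
        (ll j a b * Real.sin (ll j x y)) * c j) =
        deriv Lam (1 - Real.cos (ll i x y)) * (ll i a b * Real.sin (ll i x y)) * c i := by
      apply Finset.sum_eq_single i
      · intro j _ hj
        rw [deriv_Lam_eq_zero (hi j hj), zero_mul, zero_mul]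
      · intro h
        exact absurd (Finset.mem_univ i) h
    rw [h3] at h2
    exact h2
  have h4 := (func_bt x y a b 0).add
    ((((hD c).add_const σ).pow 2).add ((hD s).pow 2))
  have e5 : ∀ j : Fin 3, ll j (x + 0 * a) (y + 0 * b) = ll j x y := by
    intro j
    rw [zero_mul, zero_mul, add_zero, add_zero]
  simp only [e5] at h4
  rw [hsum, hsum] at h4
  have e6 : d = deriv bt (2 - Real.cos x - Real.cos y + 0) * (a * Real.sin x + b * Real.sin y) +
      (((2 : ℕ) : ℝ) * (Lam (1 - Real.cos (ll i x y)) * c i + σ) ^ (2 - 1) *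
        (deriv Lam (1 - Real.cos (ll i x y)) * (ll i a b * Real.sin (ll i x y)) * c i) +
      ((2 : ℕ) : ℝ) * (Lam (1 - Real.cos (ll i x y)) * s i) ^ (2 - 1) *
        (deriv Lam (1 - Real.cos (ll i x y)) * (ll i a b * Real.sin (ll i x y)) * s i)) := by
    rw [huniq]
    norm_num
    linear_combination (-2 * Lam (1 - Real.cos (ll i x y)) *
      (deriv Lam (1 - Real.cos (ll i x y)) * (ll i a b * Real.sin (ll i x y)))) * hdi -
      (2 * (deriv Lam (1 - Real.cos (ll i x y)) * (ll i a b * Real.sin (ll i x y)))) * hsi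
  rw [e6]
  exact h4

theorem corb_lam_angxy (c s : Fin 3 → ℝ) (σ : ℝ) {h : ℝ} (x y : ℝ) (hh : |h| < 1) :
    corbN c s σ (fun j => lam j (angxy h x y)) =
      (eta h * (∑ j, Lam (1 - Real.cos (ll j x y)) * c j) + σ) ^ 2 +
        (eta h * (∑ j, Lam (1 - Real.cos (ll j x y)) * s j)) ^ 2 := by
  unfold corbN
  rw [Finset.mul_sum, Finset.mul_sum]
  congr 2
  · congr 1
    refine Finset.sum_congr rfl fun j _ => ?_
    show lam j (angxy h x y) * c j = _
    rw [lam_angxy j x y hh]
    ring
  · refine Finset.sum_congr rfl fun j _ => ?_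
    show lam j (angxy h x y) * s j = _
    rw [lam_angxy j x y hh]
    ring

/-- The general regularity statement. -/
theorem corb_reg {c s : Fin 3 → ℝ} {σ : ℝ} (hσ : 0 ≤ σ) (hσ' : σ < 1 / 10)
    (hcs : ∀ j, c j ^ 2 + s j ^ 2 = 1) (hσc : ∀ j, σ * c j = σ) (m : ℂ × ℂ)
    (hm : Complex.normSq m.1 + Complex.normSq m.2 = 1)
    (h : rho m = corbN c s σ (fun j => lam j m)) :
    RegS (fun m => rho m - corbN c s σ (fun j => lam j m)) m := by
  by_cases hh : 1 ≤ |hgt m|
  · exfalso
    obtain ⟨h1, h2, -⟩ := values_core hh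
    have h3 : corbN c s σ (fun j => lam j m) = σ ^ 2 := by
      unfold corbN
      simp only [h2, zero_mul, Finset.sum_const_zero, zero_add]
      ring
    rw [h1, h3] at h
    have h4 : 1 ≤ hgt m ^ 2 := by
      rw [← sq_abs]
      nlinarith
    nlinarith
  rw [not_le] at hh
  obtain ⟨a, b, hab⟩ := exists_angxy hm hh
  set H := hgt m with hH
  clear_value H
  subst hab
  have hrho := h
  by_cases h0 : H = 0
  · subst h0
    have hc0 : cc 0 = 1 := cc_of_small (by norm_num)
    have he0 : eta 0 = 1 := eta_of_small (by norm_num)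
    have hN : ∀ x y : ℝ, corbN c s σ (fun j => lam j (angxy 0 x y)) =
        corbN c s σ (fun j => Lam (1 - Real.cos (ll j x y))) := by
      intro x y
      rw [corb_lam_angxy c s σ x y hh, he0, one_mul, one_mul]
      rfl
    rw [rho_angxy a b hh, hc0, hN] at hrho
    obtain ⟨u, v, d, hd, hder⟩ := corb_L2D hσ hσ' hcs hσc (x := a) (y := b) (by linarith)
    obtain ⟨k1, k2, k3⟩ := curve_xy a b u v hh
    refine ⟨_, k1, k2, Filter.Eventually.of_forall k3, -d, neg_ne_zero.2 hd, ?_⟩
    have e1 : (fun t : ℝ => rho (angxy 0 (a + t * u) (b + t * v)) -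
        corbN c s σ (fun j => lam j (angxy 0 (a + t * u) (b + t * v)))) = fun t : ℝ =>
        1 / 100 - (bt (2 - Real.cos (a + t * u) - Real.cos (b + t * v)) +
          corbN c s σ (fun j => Lam (1 - Real.cos (ll j (a + t * u) (b + t * v))))) := by
      funext t
      rw [rho_angxy _ _ hh, hN, hc0]
      ring
    show HasDerivAt (fun t : ℝ => rho (angxy 0 (a + t * u) (b + t * v)) -
        corbN c s σ (fun j => lam j (angxy 0 (a + t * u) (b + t * v)))) (-d) 0
    rw [e1]
    exact hder.const_sub _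
  · obtain ⟨k1, k2, k3⟩ := curve_h a b hh
    set u := 2 - Real.cos a - Real.cos b with hu
    set S := ∑ j, Lam (1 - Real.cos (ll j a b)) * c j with hS
    set T := ∑ j, Lam (1 - Real.cos (ll j a b)) * s j with hT
    have hσS : 0 ≤ σ * S := by
      rw [hS, Finset.mul_sum]
      apply Finset.sum_nonneg
      intro j _
      rw [mul_left_comm, hσc j]
      exact mul_nonneg (Lam_nonneg _) hσ
    have d1 : HasDerivAt (fun t : ℝ => H + t) 1 0 := (hasDerivAt_id (0 : ℝ)).const_add H
    have d2 : HasDerivAt (fun t : ℝ => cc (H + t)) (deriv cc H) 0 := by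
      have h1 : HasDerivAt cc (deriv cc H) (H + 0) := by
        rw [add_zero]
        exact ((contDiff_cc.differentiable (by simp)) H).hasDerivAt
      have h2 := h1.comp (0 : ℝ) d1
      rwa [mul_one] at h2
    have d3 : HasDerivAt (fun t : ℝ => eta (H + t)) (deriv eta H) 0 := by
      have h1 : HasDerivAt eta (deriv eta H) (H + 0) := by
        rw [add_zero]
        exact ((contDiff_eta.differentiable (by simp)) H).hasDerivAt
      have h2 := h1.comp (0 : ℝ) d1
      rwa [mul_one] at h2
    have d4 : HasDerivAt (fun t : ℝ => ((H + t) ^ 2 + 1 / 100 - cc (H + t) * bt u) -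
        ((eta (H + t) * S + σ) ^ 2 + (eta (H + t) * T) ^ 2))
        (2 * H - deriv cc H * bt u - (2 * (eta H * S + σ) * (deriv eta H * S) +
          2 * (eta H * T) * (deriv eta H * T))) 0 := by
      have h1 := (((d1.pow 2).add_const (1 / 100 : ℝ)).sub (d2.mul_const (bt u))).sub
        ((((d3.mul_const S).add_const σ).pow 2).add ((d3.mul_const T).pow 2))
      exact h1.congr_deriv (by simp)
    have hne : 2 * H - deriv cc H * bt u - (2 * (eta H * S + σ) * (deriv eta H * S) +
          2 * (eta H * T) * (deriv eta H * T)) ≠ 0 := by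
      intro h1
      have m1 := mul_deriv_eta_nonpos H
      have m2 := mul_deriv_cc_nonpos H
      have m3 : 0 ≤ eta H * (S ^ 2 + T ^ 2) + σ * S := by
        have := mul_nonneg (eta_nonneg H) (add_nonneg (sq_nonneg S) (sq_nonneg T))
        linarith
      have m4 := mul_nonneg m3 (neg_nonneg.2 m1)
      have m5 := mul_nonneg (bt_nonneg u) (neg_nonneg.2 m2)
      have m6 : 0 < H ^ 2 := by positivity
      have m7 : H * (2 * H - deriv cc H * bt u - (2 * (eta H * S + σ) * (deriv eta H * S) +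
          2 * (eta H * T) * (deriv eta H * T))) = 0 := by
        rw [h1, mul_zero]
      nlinarith
    refine ⟨_, k1, k2, ?_, _, hne, ?_⟩
    · filter_upwards [k3] with t ht using ht.2
    · apply d4.congr_of_eventuallyEq
      filter_upwards [k3] with t ht
      show rho (angxy (H + t) a b) - corbN c s σ (fun j => lam j (angxy (H + t) a b)) = _
      rw [rho_angxy _ _ ht.1, corb_lam_angxy c s σ a b ht.1]

theorem corb_PG (t : ℝ) (m : ℂ × ℂ) : Complex.normSq (PG t m) =
    corbN (fun j => Real.cos ((1 - t) * (2 * Real.pi * ((j : ℕ) : ℝ) / 3)))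
      (fun j => Real.sin ((1 - t) * (2 * Real.pi * ((j : ℕ) : ℝ) / 3))) 0
      (fun j => lam j m) := by
  unfold PG corbN
  rw [Complex.normSq_apply, Complex.re_sum, Complex.im_sum]
  simp only [Complex.re_ofReal_mul, Complex.im_ofReal_mul, Complex.exp_ofReal_mul_I_re,
    Complex.exp_ofReal_mul_I_im]
  ring

theorem corb_PR (t : ℝ) (m : ℂ × ℂ) : PR t m ^ 2 =
    corbN (fun _ => 1) (fun _ => 0) (t / 20) (fun j => lam j m) := by
  unfold PR corbN
  simp only [mul_one, mul_zero, Finset.sum_const_zero]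
  ring

/-- The rotation of the directions is regular. -/
theorem reg_PG (t : ℝ) (m : ℂ × ℂ) (hm : Complex.normSq m.1 + Complex.normSq m.2 = 1)
    (h : rho m = Complex.normSq (PG t m)) :
    RegS (fun m => rho m - Complex.normSq (PG t m)) m := by
  simp only [corb_PG] at h ⊢
  apply corb_reg le_rfl (by norm_num) _ _ m hm h
  · intro j
    exact Real.cos_sq_add_sin_sq _
  · intro j
    rw [zero_mul]

/-- The shift is regular. -/
theorem reg_PR (t : ℝ) (ht : t ∈ Icc (0 : ℝ) 1) (m : ℂ × ℂ)
    (hm : Complex.normSq m.1 + Complex.normSq m.2 = 1) (h : rho m = PR t m ^ 2) :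
    RegS (fun m => rho m - PR t m ^ 2) m := by
  simp only [corb_PR] at h ⊢
  apply corb_reg (by linarith [ht.1]) (by linarith [ht.2]) _ _ m hm h
  · intro j
    norm_num
  · intro j
    rw [mul_one]

end Pool.Agent.Tri
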