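import Mathlib
import Pool.Agent.H.MP_5efd29_gt.CorB

open scoped ContDiff Topology
open Set

noncomputable section

namespace Pool.Agent.Tri

/-- The sign of the radial derivative of one factor. -/
theorem corc_key {a : ℝ} (h0 : 0 < a) (h1 : a < 2 * Real.pi) :
    Real.sqrt 3 * ((a - 2 * Real.pi / 3) * Real.sin a) ≤
      (a - 2 * Real.pi / 3) * (1 - Real.cos a) ∧
    (a ≠ 2 * Real.pi / 3 → Real.sqrt 3 * ((a - 2 * Real.pi / 3) * Real.sin a) <
      (a - 2 * Real.pi / 3) * (1 - Real.cos a)) := by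
  have hpi := Real.pi_pos
  set b := a / 2 with hb
  have hab : a = 2 * b := by rw [hb]; ring
  have hb0 : 0 < b := by linarith
  have hb1 : b < Real.pi := by linarith
  have hsb : 0 < Real.sin b := Real.sin_pos_of_pos_of_lt_pi hb0 hb1
  have h3 : Real.sqrt 3 ^ 2 = 3 := Real.sq_sqrt (by norm_num)
  have e1 : Real.sin (Real.pi / 3 - b) =
      Real.sqrt 3 / 2 * Real.cos b - 1 / 2 * Real.sin b := by
    rw [Real.sin_sub, Real.sin_pi_div_three, Real.cos_pi_div_three]
  have e2 : Real.sqrt 3 * Real.sin a - (1 - Real.cos a) =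
      4 * Real.sin b * Real.sin (Real.pi / 3 - b) := by
    have hs2 : Real.sin a = 2 * Real.sin b * Real.cos b := by rw [hab, Real.sin_two_mul]
    have hc2 : Real.cos a = 1 - 2 * Real.sin b ^ 2 := by
      rw [hab, Real.cos_two_mul']
      have := Real.sin_sq_add_cos_sq b
      linarith
    rw [hs2, hc2, e1]
    ring
  have e3 : Real.sqrt 3 * ((a - 2 * Real.pi / 3) * Real.sin a) -
      (a - 2 * Real.pi / 3) * (1 - Real.cos a) =
      -(8 * Real.sin b * ((Real.pi / 3 - b) * Real.sin (Real.pi / 3 - b))) := by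
    have : Real.sqrt 3 * ((a - 2 * Real.pi / 3) * Real.sin a) -
      (a - 2 * Real.pi / 3) * (1 - Real.cos a) =
      (a - 2 * Real.pi / 3) * (Real.sqrt 3 * Real.sin a - (1 - Real.cos a)) := by ring
    rw [this, e2, hab]
    ring
  have e4 : 0 ≤ (Real.pi / 3 - b) * Real.sin (Real.pi / 3 - b) ∧
      (Real.pi / 3 - b ≠ 0 → 0 < (Real.pi / 3 - b) * Real.sin (Real.pi / 3 - b)) := by
    rcases lt_trichotomy (Real.pi / 3 - b) 0 with h | h | h
    · have : Real.sin (Real.pi / 3 - b) < 0 :=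
        Real.sin_neg_of_neg_of_neg_pi_lt h (by linarith)
      have h5 := mul_pos_of_neg_of_neg h this
      exact ⟨h5.le, fun _ => h5⟩
    · rw [h]; simp
    · have : 0 < Real.sin (Real.pi / 3 - b) := Real.sin_pos_of_pos_of_lt_pi h (by linarith)
      have h5 := mul_pos h this
      exact ⟨h5.le, fun _ => h5⟩
  constructor
  · have := mul_nonneg hsb.le e4.1
    nlinarith
  · intro hne
    have h5 : Real.pi / 3 - b ≠ 0 := by
      intro h
      apply hne
      rw [hab]
      linarith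
    have := mul_pos hsb (e4.2 h5)
    nlinarith

theorem corc_one_sub_cos_pos {a : ℝ} (h0 : 0 < a) (h1 : a < 2 * Real.pi) :
    0 < 1 - Real.cos a := by
  have hb0 : 0 < a / 2 := by linarith
  have hb1 : a / 2 < Real.pi := by linarith
  have hsb : 0 < Real.sin (a / 2) := Real.sin_pos_of_pos_of_lt_pi hb0 hb1
  have hc2 : Real.cos a = 1 - 2 * Real.sin (a / 2) ^ 2 := by
    have h2 : a = 2 * (a / 2) := by ring
    conv_lhs => rw [h2, Real.cos_two_mul']
    have := Real.sin_sq_add_cos_sq (a / 2)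
    linarith
  rw [hc2]
  have : 0 < Real.sin (a / 2) ^ 2 := by positivity
  linarith

theorem corc_hasDerivAt_cos (x d : ℝ) :
    HasDerivAt (fun t : ℝ => 1 - Real.cos (x + t * d)) (Real.sin x * d) 0 := by
  have h1 : HasDerivAt (fun t : ℝ => x + t * d) d 0 := by
    simpa using ((hasDerivAt_id (0 : ℝ)).mul_const d).const_add x
  have h2 : HasDerivAt Real.cos (-Real.sin x) (x + 0 * d) := by
    have := Real.hasDerivAt_cos (x + 0 * d)
    rwa [zero_mul, add_zero] at this ⊢
  have h3 := (h2.comp (0 : ℝ) h1).const_sub 1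
  have h4 : -(-Real.sin x * d) = Real.sin x * d := by ring
  rw [h4] at h3
  exact h3

/-- In an open triangle the product `v₀ v₁ v₂` decreases away from the centroid. -/
theorem triangle_radial {x y : ℝ} (hx : 0 < x) (hy : 0 < y) (hxy : x + y < 2 * Real.pi)
    (hne : x ≠ 2 * Real.pi / 3 ∨ y ≠ 2 * Real.pi / 3) :
    ∃ c : ℝ, c < 0 ∧ HasDerivAt (fun t : ℝ =>
      (1 - Real.cos (y + t * (y - 2 * Real.pi / 3))) *
        (1 - Real.cos (x + y + t * (x + y - 4 * Real.pi / 3))) *
        (1 - Real.cos (x + t * (x - 2 * Real.pi / 3)))) c 0 := by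
  have hpi := Real.pi_pos
  have d0 := corc_hasDerivAt_cos y (y - 2 * Real.pi / 3)
  have d1 := corc_hasDerivAt_cos (x + y) (x + y - 4 * Real.pi / 3)
  have d2 := corc_hasDerivAt_cos x (x - 2 * Real.pi / 3)
  have h := (d0.mul d1).mul d2
  refine ⟨_, ?_, h⟩
  simp only [Pi.mul_apply, zero_mul, add_zero]
  set a1 := 2 * Real.pi - x - y with ha1
  have ha10 : 0 < a1 := by rw [ha1]; linarith
  have ha12 : a1 < 2 * Real.pi := by rw [ha1]; linarith
  have hx2 : x < 2 * Real.pi := by linarith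
  have hy2 : y < 2 * Real.pi := by linarith
  have s1 : Real.sin (x + y) = -Real.sin a1 := by
    have : x + y = 2 * Real.pi - a1 := by rw [ha1]; ring
    rw [this, Real.sin_two_pi_sub]
  have c1 : Real.cos (x + y) = Real.cos a1 := by
    have : x + y = 2 * Real.pi - a1 := by rw [ha1]; ring
    rw [this, Real.cos_two_pi_sub]
  have e1 : x + y - 4 * Real.pi / 3 = -(a1 - 2 * Real.pi / 3) := by rw [ha1]; ring
  rw [s1, c1, e1]
  have A0 := corc_one_sub_cos_pos hy hy2
  have A1 := corc_one_sub_cos_pos ha10 ha12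
  have A2 := corc_one_sub_cos_pos hx hx2
  have k0 := corc_key hy hy2
  have k1 := corc_key ha10 ha12
  have k2 := corc_key hx hx2
  have hsum : (y - 2 * Real.pi / 3) + (a1 - 2 * Real.pi / 3) + (x - 2 * Real.pi / 3) = 0 := by
    rw [ha1]; ring
  generalize Real.cos y = cy at *
  generalize Real.cos a1 = ca at *
  generalize Real.cos x = cx at *
  generalize Real.sin y = sy at *
  generalize Real.sin a1 = sa at *
  generalize Real.sin x = sx at *
  generalize hD0 : y - 2 * Real.pi / 3 = D0 at *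
  generalize hD1 : a1 - 2 * Real.pi / 3 = D1 at *
  generalize hD2 : x - 2 * Real.pi / 3 = D2 at *
  have h3 : 0 < Real.sqrt 3 := Real.sqrt_pos.2 (by norm_num)
  have P12 : 0 < (1 - ca) * (1 - cx) := mul_pos A1 A2
  have P02 : 0 < (1 - cy) * (1 - cx) := mul_pos A0 A2
  have P01 : 0 < (1 - cy) * (1 - ca) := mul_pos A0 A1
  have t0 := mul_le_mul_of_nonneg_right k0.1 P12.le
  have t1 := mul_le_mul_of_nonneg_right k1.1 P02.le
  have t2 := mul_le_mul_of_nonneg_right k2.1 P01.le
  have tot : D0 * (1 - cy) * ((1 - ca) * (1 - cx)) + D1 * (1 - ca) * ((1 - cy) * (1 - cx)) +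
      D2 * (1 - cx) * ((1 - cy) * (1 - ca)) = 0 := by
    have : D0 * (1 - cy) * ((1 - ca) * (1 - cx)) + D1 * (1 - ca) * ((1 - cy) * (1 - cx)) +
      D2 * (1 - cx) * ((1 - cy) * (1 - ca)) =
      (1 - cy) * (1 - ca) * (1 - cx) * (D0 + D1 + D2) := by ring
    rw [this, hsum, mul_zero]
  have goal : Real.sqrt 3 * ((sy * D0 * (1 - ca) + (1 - cy) * (-sa * -D1)) * (1 - cx) +
      (1 - cy) * (1 - ca) * (sx * D2)) < 0 := by
    have ex : Real.sqrt 3 * ((sy * D0 * (1 - ca) + (1 - cy) * (-sa * -D1)) * (1 - cx) +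
      (1 - cy) * (1 - ca) * (sx * D2)) =
      Real.sqrt 3 * (D0 * sy) * ((1 - ca) * (1 - cx)) +
      Real.sqrt 3 * (D1 * sa) * ((1 - cy) * (1 - cx)) +
      Real.sqrt 3 * (D2 * sx) * ((1 - cy) * (1 - ca)) := by ring
    rw [ex]
    rcases hne with hn | hn
    · have t2' := mul_lt_mul_of_pos_right (k2.2 hn) P01
      linarith
    · have t0' := mul_lt_mul_of_pos_right (k0.2 hn) P12
      linarith
  by_contra hcon
  push Not at hcon
  have := mul_nonneg h3.le hcon
  linarith

/-- Reduction to the first triangle. -/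
theorem triangle_reduce {x y : ℝ} (h0 : Real.cos y ≠ 1) (h1 : Real.cos (x + y) ≠ 1)
    (h2 : Real.cos x ≠ 1) : ∃ s : ℝ, (s = 1 ∨ s = -1) ∧ ∃ k l : ℤ,
      0 < s * x + k * (2 * Real.pi) ∧ 0 < s * y + l * (2 * Real.pi) ∧
      (s * x + k * (2 * Real.pi)) + (s * y + l * (2 * Real.pi)) < 2 * Real.pi := by
  have hpi := Real.two_pi_pos
  have red : ∀ z : ℝ, Real.cos z ≠ 1 → ∃ n : ℤ, 0 < z - n * (2 * Real.pi) ∧
      z - n * (2 * Real.pi) < 2 * Real.pi := by
    intro z hz
    refine ⟨⌊z / (2 * Real.pi)⌋, ?_, ?_⟩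
    · have h3 := Int.floor_le (z / (2 * Real.pi))
      rw [le_div_iff₀ hpi] at h3
      rcases h3.lt_or_eq with h | h
      · linarith
      · exfalso
        apply hz
        rw [← h, Real.cos_int_mul_two_pi]
    · have h3 := Int.lt_floor_add_one (z / (2 * Real.pi))
      rw [div_lt_iff₀ hpi] at h3
      linarith
  obtain ⟨n, hn0, hn1⟩ := red x h2
  obtain ⟨m, hm0, hm1⟩ := red y h0
  have hne : (x - n * (2 * Real.pi)) + (y - m * (2 * Real.pi)) ≠ 2 * Real.pi := by
    intro h
    apply h1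
    have : x + y = ((n + m + 1 : ℤ) : ℝ) * (2 * Real.pi) := by push_cast; linarith
    rw [this, Real.cos_int_mul_two_pi]
  rcases lt_or_gt_of_ne hne with h | h
  · refine ⟨1, Or.inl rfl, -n, -m, ?_, ?_, ?_⟩ <;> push_cast <;> linarith
  · refine ⟨-1, Or.inr rfl, n + 1, m + 1, ?_, ?_, ?_⟩ <;> push_cast <;> linarith

theorem corc_contDiff_fA : ContDiff ℝ ∞ fA := by
  have hφ : ContDiff ℝ ∞ (fun q : (ℂ × ℂ) × ℝ × ℝ × ℝ × ℝ =>
      1 / 50 * ((1 - q.2.2.2.1) * (1 - (q.2.1 * q.2.2.2.1 - q.2.2.1 * q.2.2.2.2)) *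
        (1 - q.2.1))) := by fun_prop
  have h := contDiff_cutoff (fun m : ℂ × ℂ => m) contDiff_id _ hφ
  exact ((contDiff_hgt.pow 2).sub contDiff_const).add h

theorem corc_contDiff_f0 : ContDiff ℝ ∞ f0 := by
  unfold f0
  have h : ContDiff ℝ ∞ (fun m : ℂ × ℂ => ∑ j, lam j m) := ContDiff.sum fun i _ => contDiff_lam i
  exact contDiff_rho.sub ((h.add contDiff_const).pow 2)

theorem contDiff_f1 : ContDiff ℝ ∞ (fun q : ℝ × (ℂ × ℂ) => f1 q.1 q.2) := by
  unfold f1
  exact ((contDiff_const.sub contDiff_fst).mul (corc_contDiff_f0.comp contDiff_snd)).add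
    (contDiff_fst.mul (corc_contDiff_fA.comp contDiff_snd))

theorem corc_f0_act (x : C3) : f0 (pr (act x)) = f0 (pr x) := by
  unfold f0
  simp only [rho_act, lam_act]

theorem corc_fA_act (x : C3) : fA (pr (act x)) = fA (pr x) := by
  unfold fA
  simp only [hgt_act, vv_act]

theorem f1_act (t : ℝ) (x : C3) : f1 t (pr (act x)) = f1 t (pr x) := by
  unfold f1
  rw [corc_f0_act, corc_fA_act]

/-- The values of the functions on the tori. -/
theorem corc_f0_angxy {h : ℝ} (x y : ℝ) (hh : |h| < 1) :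
    f0 (angxy h x y) = h ^ 2 + 1 / 100 - cc h * bt (2 - Real.cos x - Real.cos y) -
      (eta h * (Lam (1 - Real.cos y) + Lam (1 - Real.cos (x + y)) + Lam (1 - Real.cos x)) +
        1 / 20) ^ 2 := by
  unfold f0
  rw [rho_angxy x y hh, Fin.sum_univ_three, lam_angxy 0 x y hh, lam_angxy 1 x y hh,
    lam_angxy 2 x y hh]
  have e0 : ll 0 x y = y := rfl
  have e1 : ll 1 x y = x + y := rfl
  have e2 : ll 2 x y = x := rfl
  rw [e0, e1, e2]
  ring

theorem corc_fA_angxy {h : ℝ} (x y : ℝ) (hh : |h| < 1) :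
    fA (angxy h x y) = h ^ 2 - 65 / 1000 + cc h * (1 / 50 *
      ((1 - Real.cos y) * (1 - Real.cos (x + y)) * (1 - Real.cos x))) := by
  unfold fA
  rw [hgt_angxy x y hh.le, vv_angxy 0 x y hh, vv_angxy 1 x y hh, vv_angxy 2 x y hh]
  rfl

theorem corc_bt_pos {u : ℝ} (h : 0 < bt u) : u < 1 / 100 := by
  by_contra hcon
  rw [bt_eq_zero (not_lt.1 hcon)] at h
  exact lt_irrefl _ h

/-- Where `rho ≤ 0` the point is close to the centre. -/
theorem corc_rho_nonpos {m : ℂ × ℂ} (hm : Complex.normSq m.1 + Complex.normSq m.2 = 1)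
    (h : rho m ≤ 0) : ∃ a x y : ℝ, |a| < 1 ∧ m = angxy a x y ∧ a ^ 2 ≤ 525 / 10000 ∧
      (1 - Real.cos x) + (1 - Real.cos y) < 1 / 100 := by
  by_cases hh : |hgt m| < 1
  · obtain ⟨x, y, hxy⟩ := exists_angxy hm hh
    refine ⟨hgt m, x, y, hh, hxy, ?_, ?_⟩
    · rw [hxy, rho_angxy x y hh] at h
      have h1 := cc_nonneg (hgt m)
      have h2 := cc_le_one (hgt m)
      have h3 := bt_nonneg (2 - Real.cos x - Real.cos y)
      have h4 := bt_le (2 - Real.cos x - Real.cos y)
      have h5 : cc (hgt m) * bt (2 - Real.cos x - Real.cos y) ≤ 1 * (1 / 16) :=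
        mul_le_mul h2 h4 h3 zero_le_one
      linarith
    · rw [hxy, rho_angxy x y hh] at h
      have h1 := cc_nonneg (hgt m)
      have h3 := bt_nonneg (2 - Real.cos x - Real.cos y)
      have h6 : 0 < bt (2 - Real.cos x - Real.cos y) := by
        rcases h3.lt_or_eq with h7 | h7
        · exact h7
        · exfalso
          rw [← h7, mul_zero] at h
          nlinarith [sq_nonneg (hgt m)]
      have := corc_bt_pos h6
      linarith
  · exfalso
    rw [(values_core (not_lt.1 hh)).1] at h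
    nlinarith [sq_nonneg (hgt m)]

theorem corc_fA_neg {m : ℂ × ℂ} (hm : Complex.normSq m.1 + Complex.normSq m.2 = 1)
    (h : rho m ≤ 0) : fA m < 0 := by
  obtain ⟨a, x, y, ha, rfl, ha2, hxy⟩ := corc_rho_nonpos hm h
  rw [corc_fA_angxy x y ha]
  have c0 : 0 ≤ 1 - Real.cos y := by linarith [Real.cos_le_one y]
  have c1 : 0 ≤ 1 - Real.cos (x + y) := by linarith [Real.cos_le_one (x + y)]
  have c1' : 1 - Real.cos (x + y) ≤ 2 := by linarith [Real.neg_one_le_cos (x + y)]
  have c2 : 0 ≤ 1 - Real.cos x := by linarith [Real.cos_le_one x]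
  have hc0 := cc_nonneg a
  have hc1 := cc_le_one a
  have p1 : (1 - Real.cos y) * (1 - Real.cos (x + y)) ≤ 1 / 100 * 2 :=
    mul_le_mul (by linarith) c1' c1 (by norm_num)
  have p2 : (1 - Real.cos y) * (1 - Real.cos (x + y)) * (1 - Real.cos x) ≤
      1 / 100 * 2 * (1 / 100) :=
    mul_le_mul p1 (by linarith) c2 (by norm_num)
  have p0 : 0 ≤ (1 - Real.cos y) * (1 - Real.cos (x + y)) * (1 - Real.cos x) :=
    mul_nonneg (mul_nonneg c0 c1) c2
  have p3 : cc a * (1 / 50 * ((1 - Real.cos y) * (1 - Real.cos (x + y)) * (1 - Real.cos x))) ≤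
      1 * (1 / 50 * (1 / 100 * 2 * (1 / 100))) :=
    mul_le_mul hc1 (by linarith) (by positivity) zero_le_one
  linarith

theorem corc_lam_nonneg (i : Fin 3) (m : ℂ × ℂ) : 0 ≤ lam i m :=
  mul_nonneg (eta_nonneg _) (Lam_nonneg _)

theorem pos_f1 (t : ℝ) (ht : t ∈ Icc (0 : ℝ) 1) (m : ℂ × ℂ)
    (hm : Complex.normSq m.1 + Complex.normSq m.2 = 1) (h : f1 t m = 0) : 0 < rho m := by
  by_contra hcon
  push Not at hcon
  have h1 := corc_fA_neg hm hcon
  have h2 : f0 m < 0 := by
    unfold f0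
    have h3 : 0 ≤ ∑ j, lam j m := Finset.sum_nonneg fun j _ => corc_lam_nonneg j m
    have h4 : 0 < (∑ j, lam j m + 1 / 20) ^ 2 := by positivity
    linarith
  have h5 : f1 t m < 0 := by
    unfold f1
    rcases ht.1.lt_or_eq with h6 | h6
    · have := mul_nonneg (sub_nonneg.2 ht.2) (neg_nonneg.2 h2.le)
      have := mul_pos h6 (neg_pos.2 h1)
      nlinarith
    · rw [← h6]; linarith
  linarith

/-! ### Regularity criteria -/

theorem corc_regS_h {g : ℂ × ℂ → ℝ} {h x y c : ℝ} (hh : |h| < 1) (hc : c ≠ 0)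
    (hd : HasDerivAt (fun t => g (angxy (h + t) x y)) c 0) : RegS g (angxy h x y) := by
  obtain ⟨h1, h2, h3⟩ := curve_h x y hh
  exact ⟨fun t => angxy (h + t) x y, h1, h2, h3.mono fun t ht => ht.2, c, hc, hd⟩

theorem corc_regS_xy {g : ℂ × ℂ → ℝ} {h x y : ℝ} (a b : ℝ) {c : ℝ} (hh : |h| < 1) (hc : c ≠ 0)
    (hd : HasDerivAt (fun t => g (angxy h (x + t * a) (y + t * b))) c 0) :
    RegS g (angxy h x y) := by
  obtain ⟨h1, h2, h3⟩ := curve_xy x y a b hh
  exact ⟨fun t => angxy h (x + t * a) (y + t * b), h1, h2, Filter.Eventually.of_forall h3,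
    c, hc, hd⟩

theorem corc_dLam (v : ℝ) : HasDerivAt Lam (deriv Lam v) v :=
  ((contDiff_Lam.differentiable (by simp)) v).hasDerivAt

theorem corc_dbt (v : ℝ) : HasDerivAt bt (deriv bt v) v :=
  ((contDiff_bt.differentiable (by simp)) v).hasDerivAt

theorem corc_deta (v : ℝ) : HasDerivAt eta (deriv eta v) v :=
  ((contDiff_eta.differentiable (by simp)) v).hasDerivAt

/-- Near the boundary of the triangle the factors decrease. -/
theorem corc_sign {a : ℝ} (h0 : 0 < a) (h1 : a < 2 * Real.pi) (hc : 0 < Real.cos a) :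
    Real.sin a * (a - 2 * Real.pi / 3) ≤ 0 := by
  have hpi := Real.pi_pos
  by_cases h2 : a < Real.pi / 2
  · have : 0 ≤ Real.sin a := Real.sin_nonneg_of_nonneg_of_le_pi h0.le (by linarith)
    exact mul_nonpos_of_nonneg_of_nonpos this (by linarith)
  · push Not at h2
    have h3 : 3 * Real.pi / 2 < a := by
      by_contra hcon
      push Not at hcon
      have : Real.cos a ≤ 0 :=
        Real.cos_nonpos_of_pi_div_two_le_of_le h2 (by linarith)
      linarith
    have h4 : Real.sin a ≤ 0 := by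
      have h5 : Real.sin (a - 2 * Real.pi) ≤ 0 :=
        Real.sin_nonpos_of_nonpos_of_neg_pi_le (by linarith) (by linarith)
      rwa [Real.sin_sub_two_pi] at h5
    exact mul_nonpos_of_nonpos_of_nonneg h4 (by linarith)

theorem corc_Lam_sign {a : ℝ} (h0 : 0 < a) (h1 : a < 2 * Real.pi) :
    0 ≤ deriv Lam (1 - Real.cos a) * (Real.sin a * (a - 2 * Real.pi / 3)) := by
  by_cases h : Lam (1 - Real.cos a) = 0
  · rw [deriv_Lam_eq_zero h, zero_mul]
  · have h2 : ¬ (1 / 1000 ≤ 1 - Real.cos a) := fun h3 => h ((Lam_eq_zero_iff _).2 h3)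
    push Not at h2
    exact mul_nonneg_of_nonpos_of_nonpos (deriv_Lam_nonpos _) (corc_sign h0 h1 (by linarith))

/-- Away from the middle both functions are positive. -/
theorem corc_big {m : ℂ × ℂ} (hm : Complex.normSq m.1 + Complex.normSq m.2 = 1)
    (hb : 1 / 2 ≤ |hgt m|) : 0 < f0 m ∧ 0 < fA m := by
  have hsq : 1 / 4 ≤ hgt m ^ 2 := by
    rw [← sq_abs]; nlinarith
  by_cases hh : |hgt m| < 1
  · obtain ⟨x, y, hxy⟩ := exists_angxy hm hh
    have e0 := corc_f0_angxy x y hh
    have eA := corc_fA_angxy x y hh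
    rw [← hxy] at e0 eA
    have he : eta (hgt m) = 0 := (eta_eq_zero_iff _).2 (by linarith)
    rw [he] at e0
    have h1 := cc_nonneg (hgt m)
    have h2 := cc_le_one (hgt m)
    have h3 := bt_nonneg (2 - Real.cos x - Real.cos y)
    have h4 := bt_le (2 - Real.cos x - Real.cos y)
    have h5 : cc (hgt m) * bt (2 - Real.cos x - Real.cos y) ≤ 1 * (1 / 16) :=
      mul_le_mul h2 h4 h3 zero_le_one
    have c0 : 0 ≤ 1 - Real.cos y := by linarith [Real.cos_le_one y]
    have c1 : 0 ≤ 1 - Real.cos (x + y) := by linarith [Real.cos_le_one (x + y)]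
    have c2 : 0 ≤ 1 - Real.cos x := by linarith [Real.cos_le_one x]
    have h6 : 0 ≤ cc (hgt m) * (1 / 50 *
        ((1 - Real.cos y) * (1 - Real.cos (x + y)) * (1 - Real.cos x))) := by positivity
    constructor
    · rw [e0]; norm_num; linarith
    · rw [eA]; linarith
  · obtain ⟨r1, r2, _⟩ := values_core (not_lt.1 hh)
    constructor
    · unfold f0
      rw [r1]
      simp only [r2, Finset.sum_const_zero]
      norm_num; linarith
    · unfold fA
      have hsq1 : 1 ≤ hgt m ^ 2 := by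
        rw [← sq_abs]; nlinarith
      rw [cc_of_large (by linarith)]
      linarith

theorem corc_cos {s : ℝ} (hs : s = 1 ∨ s = -1) (k : ℤ) (x d t : ℝ) :
    Real.cos (x + t * (s * d)) = Real.cos (s * x + k * (2 * Real.pi) + t * d) := by
  have e1 : s * x + k * (2 * Real.pi) + t * d = (s * x + t * d) + k * (2 * Real.pi) := by ring
  rw [e1, Real.cos_add_int_mul_two_pi]
  rcases hs with h | h
  · rw [h]; congr 1; ring
  · rw [h, ← Real.cos_neg]; congr 1; ring

/-- The derivative in the direction of the height. -/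
theorem corc_deriv_h (t : ℝ) {h : ℝ} (x y : ℝ) (hh : |h| < 1 / 2) :
    HasDerivAt (fun τ => f1 t (angxy (h + τ) x y))
      ((1 - t) * (2 * h - 2 * (eta h * (Lam (1 - Real.cos y) + Lam (1 - Real.cos (x + y)) +
        Lam (1 - Real.cos x)) + 1 / 20) * (deriv eta h * (Lam (1 - Real.cos y) +
        Lam (1 - Real.cos (x + y)) + Lam (1 - Real.cos x)))) + t * (2 * h)) 0 := by
  set S := Lam (1 - Real.cos y) + Lam (1 - Real.cos (x + y)) + Lam (1 - Real.cos x) with hS
  set B := bt (2 - Real.cos x - Real.cos y) with hB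
  set P := (1 - Real.cos y) * (1 - Real.cos (x + y)) * (1 - Real.cos x) with hP
  have dH : HasDerivAt (fun τ : ℝ => h + τ) 1 0 := by
    simpa using (hasDerivAt_id (0 : ℝ)).const_add h
  have dsq : HasDerivAt (fun τ : ℝ => (h + τ) ^ 2) (2 * h) 0 := by
    have h1 := dH.fun_pow 2
    simpa using h1
  have deta : HasDerivAt (fun τ : ℝ => eta (h + τ)) (deriv eta h) 0 := by
    have h1 := (corc_deta (h + 0)).comp (0 : ℝ) dH
    rw [add_zero, mul_one] at h1
    exact h1
  have dS : HasDerivAt (fun τ : ℝ => (eta (h + τ) * S + 1 / 20) ^ 2)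
      (2 * (eta h * S + 1 / 20) * (deriv eta h * S)) 0 := by
    have h1 := ((deta.mul_const S).add_const (1 / 20)).fun_pow 2
    simpa using h1
  have dE := ((((dsq.add_const (1 / 100)).sub_const B).sub dS).const_mul (1 - t)).add
    (((dsq.sub_const (65 / 1000)).add_const (1 / 50 * P)).const_mul t)
  refine dE.congr_of_eventuallyEq ?_
  have hev : ∀ᶠ τ in 𝓝 (0 : ℝ), |h + τ| < 1 / 2 := by
    have hcont : Continuous (fun τ : ℝ => |h + τ|) := by fun_prop
    have : |h + 0| < 1 / 2 := by rwa [add_zero]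
    exact hcont.continuousAt.eventually (gt_mem_nhds this)
  filter_upwards [hev] with τ hτ
  have hτ1 : |h + τ| < 1 := by linarith
  have hsq : 4 * (h + τ) ^ 2 ≤ 1 := by
    rw [← sq_abs]
    nlinarith [abs_nonneg (h + τ)]
  unfold f1
  rw [corc_f0_angxy x y hτ1, corc_fA_angxy x y hτ1, cc_of_small hsq]
  simp only [Pi.add_apply, Pi.sub_apply, one_mul, hS, hB, hP]

/-- The derivative in the radial direction of a triangle. -/
theorem corc_deriv_xy (t : ℝ) {X Y c : ℝ} (hc : HasDerivAt (fun t : ℝ =>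
      (1 - Real.cos (Y + t * (Y - 2 * Real.pi / 3))) *
        (1 - Real.cos (X + Y + t * (X + Y - 4 * Real.pi / 3))) *
        (1 - Real.cos (X + t * (X - 2 * Real.pi / 3)))) c 0) :
    HasDerivAt (fun τ => f1 t (angxy 0 (X + τ * (X - 2 * Real.pi / 3))
        (Y + τ * (Y - 2 * Real.pi / 3))))
      ((1 - t) * (-(deriv bt (2 - Real.cos X - Real.cos Y) *
          (Real.sin X * (X - 2 * Real.pi / 3) + Real.sin Y * (Y - 2 * Real.pi / 3))) -
        2 * (Lam (1 - Real.cos Y) + Lam (1 - Real.cos (X + Y)) + Lam (1 - Real.cos X) + 1 / 20) *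
        (deriv Lam (1 - Real.cos Y) * (Real.sin Y * (Y - 2 * Real.pi / 3)) +
         deriv Lam (1 - Real.cos (X + Y)) * (Real.sin (X + Y) * (X + Y - 4 * Real.pi / 3)) +
         deriv Lam (1 - Real.cos X) * (Real.sin X * (X - 2 * Real.pi / 3)))) +
        t * (1 / 50 * c)) 0 := by
  have d0 := corc_hasDerivAt_cos Y (Y - 2 * Real.pi / 3)
  have d1 := corc_hasDerivAt_cos (X + Y) (X + Y - 4 * Real.pi / 3)
  have d2 := corc_hasDerivAt_cos X (X - 2 * Real.pi / 3)
  have l0 : HasDerivAt (fun τ : ℝ => Lam (1 - Real.cos (Y + τ * (Y - 2 * Real.pi / 3))))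
      (deriv Lam (1 - Real.cos Y) * (Real.sin Y * (Y - 2 * Real.pi / 3))) 0 := by
    have h1 := (corc_dLam (1 - Real.cos (Y + 0 * (Y - 2 * Real.pi / 3)))).comp (0 : ℝ) d0
    rw [zero_mul, add_zero] at h1
    exact h1
  have l1 : HasDerivAt (fun τ : ℝ => Lam (1 - Real.cos (X + Y + τ * (X + Y - 4 * Real.pi / 3))))
      (deriv Lam (1 - Real.cos (X + Y)) * (Real.sin (X + Y) * (X + Y - 4 * Real.pi / 3))) 0 := by
    have h1 := (corc_dLam (1 - Real.cos (X + Y + 0 * (X + Y - 4 * Real.pi / 3)))).comp (0 : ℝ) d1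
    rw [zero_mul, add_zero] at h1
    exact h1
  have l2 : HasDerivAt (fun τ : ℝ => Lam (1 - Real.cos (X + τ * (X - 2 * Real.pi / 3))))
      (deriv Lam (1 - Real.cos X) * (Real.sin X * (X - 2 * Real.pi / 3))) 0 := by
    have h1 := (corc_dLam (1 - Real.cos (X + 0 * (X - 2 * Real.pi / 3)))).comp (0 : ℝ) d2
    rw [zero_mul, add_zero] at h1
    exact h1
  have du : HasDerivAt (fun τ : ℝ => 2 - Real.cos (X + τ * (X - 2 * Real.pi / 3)) -
      Real.cos (Y + τ * (Y - 2 * Real.pi / 3)))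
      (Real.sin X * (X - 2 * Real.pi / 3) + Real.sin Y * (Y - 2 * Real.pi / 3)) 0 := by
    refine (d2.add d0).congr_of_eventuallyEq (Filter.Eventually.of_forall fun τ => ?_)
    simp only [Pi.add_apply]
    ring
  have db : HasDerivAt (fun τ : ℝ => bt (2 - Real.cos (X + τ * (X - 2 * Real.pi / 3)) -
      Real.cos (Y + τ * (Y - 2 * Real.pi / 3))))
      (deriv bt (2 - Real.cos X - Real.cos Y) *
      (Real.sin X * (X - 2 * Real.pi / 3) + Real.sin Y * (Y - 2 * Real.pi / 3))) 0 := by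
    have h1 := (corc_dbt (2 - Real.cos (X + 0 * (X - 2 * Real.pi / 3)) -
      Real.cos (Y + 0 * (Y - 2 * Real.pi / 3)))).comp (0 : ℝ) du
    simp only [zero_mul, add_zero] at h1
    exact h1
  have dS : HasDerivAt (fun τ : ℝ => (Lam (1 - Real.cos (Y + τ * (Y - 2 * Real.pi / 3))) +
      Lam (1 - Real.cos (X + Y + τ * (X + Y - 4 * Real.pi / 3))) +
      Lam (1 - Real.cos (X + τ * (X - 2 * Real.pi / 3))) + 1 / 20) ^ 2)
      (2 * (Lam (1 - Real.cos Y) + Lam (1 - Real.cos (X + Y)) + Lam (1 - Real.cos X) + 1 / 20) *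
        (deriv Lam (1 - Real.cos Y) * (Real.sin Y * (Y - 2 * Real.pi / 3)) +
         deriv Lam (1 - Real.cos (X + Y)) * (Real.sin (X + Y) * (X + Y - 4 * Real.pi / 3)) +
         deriv Lam (1 - Real.cos X) * (Real.sin X * (X - 2 * Real.pi / 3)))) 0 := by
    have h1 := (((l0.fun_add l1).fun_add l2).add_const (1 / 20)).fun_pow 2
    simpa using h1
  have dE := (((db.neg.const_add (1 / 100)).sub dS).const_mul (1 - t)).add
    (((hc.const_mul (1 / 50)).const_add (-(65 / 1000))).const_mul t)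
  refine dE.congr_of_eventuallyEq (Filter.Eventually.of_forall fun τ => ?_)
  have h0 : |(0 : ℝ)| < 1 := by norm_num
  unfold f1
  simp only
  rw [corc_f0_angxy _ _ h0, corc_fA_angxy _ _ h0, cc_of_small (by norm_num),
    eta_of_small (by norm_num)]
  have e1 : X + τ * (X - 2 * Real.pi / 3) + (Y + τ * (Y - 2 * Real.pi / 3)) =
      X + Y + τ * (X + Y - 4 * Real.pi / 3) := by ring
  rw [e1]
  simp only [Pi.add_apply, Pi.sub_apply, Pi.neg_apply]
  ring

theorem corc_neg (t : ℝ) (ht0 : 0 < t) (ht1 : t ≤ 1) {X Y c : ℝ} (hX : 0 < X) (hY : 0 < Y)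
    (hXY : X + Y < 2 * Real.pi) (hc : c < 0) :
      ((1 - t) * (-(deriv bt (2 - Real.cos X - Real.cos Y) *
          (Real.sin X * (X - 2 * Real.pi / 3) + Real.sin Y * (Y - 2 * Real.pi / 3))) -
        2 * (Lam (1 - Real.cos Y) + Lam (1 - Real.cos (X + Y)) + Lam (1 - Real.cos X) + 1 / 20) *
        (deriv Lam (1 - Real.cos Y) * (Real.sin Y * (Y - 2 * Real.pi / 3)) +
         deriv Lam (1 - Real.cos (X + Y)) * (Real.sin (X + Y) * (X + Y - 4 * Real.pi / 3)) +
         deriv Lam (1 - Real.cos X) * (Real.sin X * (X - 2 * Real.pi / 3)))) +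
        t * (1 / 50 * c)) < 0 := by
  have hpi := Real.pi_pos
  have hX2 : X < 2 * Real.pi := by linarith
  have hY2 : Y < 2 * Real.pi := by linarith
  have s0 := corc_Lam_sign hY hY2
  have s2 := corc_Lam_sign hX hX2
  have s1 : 0 ≤ deriv Lam (1 - Real.cos (X + Y)) *
      (Real.sin (X + Y) * (X + Y - 4 * Real.pi / 3)) := by
    have h := corc_Lam_sign (a := 2 * Real.pi - X - Y) (by linarith) (by linarith)
    have e1 : Real.sin (2 * Real.pi - X - Y) = -Real.sin (X + Y) := by
      rw [← Real.sin_two_pi_sub]; congr 1; ring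
    have e2 : Real.cos (2 * Real.pi - X - Y) = Real.cos (X + Y) := by
      rw [← Real.cos_two_pi_sub]; congr 1; ring
    rw [e1, e2] at h
    have e3 : deriv Lam (1 - Real.cos (X + Y)) *
        (Real.sin (X + Y) * (X + Y - 4 * Real.pi / 3)) = deriv Lam (1 - Real.cos (X + Y)) *
        (-Real.sin (X + Y) * (2 * Real.pi - X - Y - 2 * Real.pi / 3)) := by ring
    rw [e3]
    exact h
  have sb : 0 ≤ deriv bt (2 - Real.cos X - Real.cos Y) *
      (Real.sin X * (X - 2 * Real.pi / 3) + Real.sin Y * (Y - 2 * Real.pi / 3)) := by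
    by_cases h : bt (2 - Real.cos X - Real.cos Y) = 0
    · rw [deriv_bt_eq_zero h, zero_mul]
    · have h2 : 2 - Real.cos X - Real.cos Y < 1 / 100 :=
        corc_bt_pos (lt_of_le_of_ne (bt_nonneg _) (Ne.symm h))
      have h3 := Real.cos_le_one X
      have h4 := Real.cos_le_one Y
      have h5 := corc_sign hX hX2 (by linarith)
      have h6 := corc_sign hY hY2 (by linarith)
      exact mul_nonneg_of_nonpos_of_nonpos (deriv_bt_nonpos _) (by linarith)
  have n0 := Lam_nonneg (1 - Real.cos Y)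
  have n1 := Lam_nonneg (1 - Real.cos (X + Y))
  have n2 := Lam_nonneg (1 - Real.cos X)
  have hSp : 0 ≤ 2 * (Lam (1 - Real.cos Y) + Lam (1 - Real.cos (X + Y)) +
      Lam (1 - Real.cos X) + 1 / 20) := by linarith
  have hmul := mul_nonneg hSp (add_nonneg (add_nonneg s0 s1) s2)
  have h1t : 0 ≤ 1 - t := by linarith
  have hmm := mul_nonneg h1t (add_nonneg sb hmul)
  have htc : t * (1 / 50 * c) < 0 := mul_neg_of_pos_of_neg ht0 (by linarith)
  linarith

theorem reg_f1 (t : ℝ) (ht : t ∈ Icc (0 : ℝ) 1) (m : ℂ × ℂ)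
    (hm : Complex.normSq m.1 + Complex.normSq m.2 = 1) (h : f1 t m = 0) : RegS (f1 t) m := by
  rcases ht.1.lt_or_eq with ht0 | ht0
  swap
  · have e : f1 0 = fun m => rho m - PR 1 m ^ 2 := by
      funext m
      unfold f1 f0 PR
      ring
    rw [← ht0] at h ⊢
    rw [e] at h ⊢
    exact reg_PR 1 ⟨zero_le_one, le_rfl⟩ m hm (by linarith)
  by_cases hb : 1 / 2 ≤ |hgt m|
  · exfalso
    obtain ⟨h1, h2⟩ := corc_big hm hb
    have h3 := mul_nonneg (sub_nonneg.2 ht.2) h1.le
    have h4 := mul_pos ht0 h2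
    unfold f1 at h
    linarith
  push Not at hb
  have hh : |hgt m| < 1 := by linarith
  obtain ⟨x, y, hxy⟩ := exists_angxy hm hh
  generalize hgt m = a at *
  subst hxy
  by_cases ha : a = 0
  · subst ha
    have h0 : |(0 : ℝ)| < 1 := by norm_num
    have hval : f1 t (angxy 0 x y) = (1 - t) * (1 / 100 - bt (2 - Real.cos x - Real.cos y) -
        (Lam (1 - Real.cos y) + Lam (1 - Real.cos (x + y)) + Lam (1 - Real.cos x) + 1 / 20) ^ 2) +
        t * (-(65 / 1000) + 1 / 50 * ((1 - Real.cos y) * (1 - Real.cos (x + y)) *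
          (1 - Real.cos x))) := by
      unfold f1
      rw [corc_f0_angxy _ _ h0, corc_fA_angxy _ _ h0, cc_of_small (by norm_num),
        eta_of_small (by norm_num)]
      ring
    rw [hval] at h
    have n0 := Lam_nonneg (1 - Real.cos y)
    have n1 := Lam_nonneg (1 - Real.cos (x + y))
    have n2 := Lam_nonneg (1 - Real.cos x)
    have nb := bt_nonneg (2 - Real.cos x - Real.cos y)
    have h1t : 0 ≤ 1 - t := by linarith [ht.2]
    -- contradiction if one of the factors vanishes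
    have key : ∀ S : ℝ, 1 / 8 ≤ S → (1 - t) * (1 / 100 - bt (2 - Real.cos x - Real.cos y) -
        (S + 1 / 20) ^ 2) ≤ 0 := by
      intro S hS
      apply mul_nonpos_of_nonneg_of_nonpos h1t
      nlinarith
    have hz0 : Real.cos y ≠ 1 := by
      intro hc
      rw [hc, sub_self, Lam_of_nonpos le_rfl] at h
      have := key (1 / 8 + Lam (1 - Real.cos (x + y)) + Lam (1 - Real.cos x)) (by linarith)
      rw [hc] at this
      simp only [zero_mul, mul_zero, add_zero] at h
      nlinarith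
    have hz1 : Real.cos (x + y) ≠ 1 := by
      intro hc
      rw [hc, sub_self, Lam_of_nonpos le_rfl] at h
      have := key (Lam (1 - Real.cos y) + 1 / 8 + Lam (1 - Real.cos x)) (by linarith)
      simp only [zero_mul, mul_zero, add_zero] at h
      nlinarith
    have hz2 : Real.cos x ≠ 1 := by
      intro hc
      rw [hc, sub_self, Lam_of_nonpos le_rfl] at h
      have := key (Lam (1 - Real.cos y) + Lam (1 - Real.cos (x + y)) + 1 / 8) (by linarith)
      rw [hc] at this
      simp only [zero_mul, mul_zero, add_zero] at h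
      nlinarith
    obtain ⟨s, hs, k, l, hX, hY, hXY⟩ := triangle_reduce hz0 hz1 hz2
    set X := s * x + k * (2 * Real.pi) with hXd
    set Y := s * y + l * (2 * Real.pi) with hYd
    have cx : ∀ τ d : ℝ, Real.cos (x + τ * (s * d)) = Real.cos (X + τ * d) := fun τ d =>
      corc_cos hs k x d τ
    have cy : ∀ τ d : ℝ, Real.cos (y + τ * (s * d)) = Real.cos (Y + τ * d) := fun τ d =>
      corc_cos hs l y d τ
    have cxy : ∀ τ d e : ℝ, Real.cos (x + τ * (s * d) + (y + τ * (s * e))) =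
        Real.cos (X + τ * d + (Y + τ * e)) := by
      intro τ d e
      have h1 := corc_cos hs (k + l) (x + y) (d + e) τ
      have e1 : x + τ * (s * d) + (y + τ * (s * e)) = x + y + τ * (s * (d + e)) := by ring
      have e2 : X + τ * d + (Y + τ * e) =
          s * (x + y) + ((k + l : ℤ) : ℝ) * (2 * Real.pi) + τ * (d + e) := by
        rw [hXd, hYd]; push_cast; ring
      rw [e1, e2, h1]
    have hfun : ∀ τ d e : ℝ, f1 t (angxy 0 (x + τ * (s * d)) (y + τ * (s * e))) =
        f1 t (angxy 0 (X + τ * d) (Y + τ * e)) := by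
      intro τ d e
      unfold f1
      rw [corc_f0_angxy _ _ h0, corc_fA_angxy _ _ h0, corc_f0_angxy _ _ h0,
        corc_fA_angxy _ _ h0, cx, cy, cxy]
    by_cases hcen : X = 2 * Real.pi / 3 ∧ Y = 2 * Real.pi / 3
    · exfalso
      have hx0 : Real.cos x = -(1 / 2) := by
        have := cx 0 0
        rw [zero_mul, add_zero, zero_mul, add_zero, hcen.1] at this
        rw [this]
        have e : 2 * Real.pi / 3 = Real.pi - Real.pi / 3 := by ring
        rw [e, Real.cos_pi_sub, Real.cos_pi_div_three]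
      have hy0 : Real.cos y = -(1 / 2) := by
        have := cy 0 0
        rw [zero_mul, add_zero, zero_mul, add_zero, hcen.2] at this
        rw [this]
        have e : 2 * Real.pi / 3 = Real.pi - Real.pi / 3 := by ring
        rw [e, Real.cos_pi_sub, Real.cos_pi_div_three]
      have hxy0 : Real.cos (x + y) = -(1 / 2) := by
        have := cxy 0 0 0
        simp only [zero_mul, add_zero] at this
        rw [hcen.1, hcen.2] at this
        rw [this]
        have e : 2 * Real.pi / 3 + 2 * Real.pi / 3 = Real.pi / 3 + Real.pi := by ring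
        rw [e, Real.cos_add_pi, Real.cos_pi_div_three]
      rw [hx0, hy0, hxy0, bt_eq_zero (by norm_num), (Lam_eq_zero_iff _).2 (by norm_num)] at h
      nlinarith
    · have hne : X ≠ 2 * Real.pi / 3 ∨ Y ≠ 2 * Real.pi / 3 := by
        by_contra hcon
        push Not at hcon
        exact hcen hcon
      obtain ⟨c, hc, hdc⟩ := triangle_radial hX hY hXY hne
      have hD := corc_deriv_xy t hdc
      have hneg := corc_neg t ht0 ht.2 hX hY hXY hc
      refine corc_regS_xy (s * (X - 2 * Real.pi / 3)) (s * (Y - 2 * Real.pi / 3)) h0 hneg.ne ?_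
      refine hD.congr_of_eventuallyEq (Filter.Eventually.of_forall fun τ => ?_)
      exact hfun τ _ _
  · have hD := corc_deriv_h t x y hb
    refine corc_regS_h hh ?_ hD
    have n0 := Lam_nonneg (1 - Real.cos y)
    have n1 := Lam_nonneg (1 - Real.cos (x + y))
    have n2 := Lam_nonneg (1 - Real.cos x)
    have he := eta_nonneg a
    have hde := mul_deriv_eta_nonpos a
    have h1t : 0 ≤ 1 - t := by linarith [ht.2]
    set S := Lam (1 - Real.cos y) + Lam (1 - Real.cos (x + y)) + Lam (1 - Real.cos x) with hS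
    have hS0 : 0 ≤ S := by linarith
    intro h0
    have h1 : a * ((1 - t) * (2 * a - 2 * (eta a * S + 1 / 20) * (deriv eta a * S)) +
        t * (2 * a)) = 2 * a ^ 2 + 2 * ((1 - t) * (eta a * S + 1 / 20) * S *
          (-(a * deriv eta a))) := by ring
    rw [h0, mul_zero] at h1
    have h2 : 0 ≤ (1 - t) * (eta a * S + 1 / 20) * S * (-(a * deriv eta a)) := by
      have : 0 ≤ -(a * deriv eta a) := by linarith
      positivity
    have h3 : 0 < a ^ 2 := by positivity
    linarith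

end Pool.Agent.Tri
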