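import Mathlib
import Pool.Agent.H.MP_5efd29_gt.CorC

open scoped ContDiff Topology
open Set

noncomputable section

namespace Pool.Agent.Tri

/-! ### The bump -/

theorem cord_contDiff_bump : ContDiff ℝ ∞ bump := by
  unfold bump
  exact contDiff_SS.comp (contDiff_const.sub (contDiff_const.mul contDiff_id))

theorem cord_bump_nonneg (t : ℝ) : 0 ≤ bump t := SS_nonneg _

theorem cord_bump_eq_zero {t : ℝ} (h : 1 / 10 ≤ t) : bump t = 0 := by
  unfold bump
  exact SS_of_nonpos (by linarith)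

theorem cord_bump_zero : bump 0 = 1 := by
  unfold bump
  exact SS_of_one_le (by linarith)

theorem cord_dSS (t : ℝ) : HasDerivAt SS (deriv SS t) t :=
  ((contDiff_SS.differentiable (by simp)) t).hasDerivAt

theorem cord_dbump (t : ℝ) : HasDerivAt bump (-(10 * deriv SS (1 - 10 * t))) t := by
  have h3 : HasDerivAt (fun s : ℝ => 1 - 10 * s) (-(10 * 1)) t :=
    ((hasDerivAt_id t).const_mul 10).const_sub 1
  have h4 := (cord_dSS (1 - 10 * t)).comp t h3
  have h5 : -(10 * deriv SS (1 - 10 * t)) = deriv SS (1 - 10 * t) * -(10 * 1) := by ring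
  rw [h5]
  exact h4

/-! ### Angles -/

theorem cord_two_pi_three : Real.cos (2 * Real.pi / 3) = -(1 / 2) ∧
    Real.sin (2 * Real.pi / 3) = Real.sqrt 3 / 2 := by
  have e : 2 * Real.pi / 3 = Real.pi - Real.pi / 3 := by ring
  rw [e, Real.cos_pi_sub, Real.sin_pi_sub, Real.cos_pi_div_three, Real.sin_pi_div_three]
  exact ⟨rfl, rfl⟩

theorem cord_four_pi_three : Real.cos (4 * Real.pi / 3) = -(1 / 2) ∧
    Real.sin (4 * Real.pi / 3) = -(Real.sqrt 3 / 2) := by
  have e : 4 * Real.pi / 3 = Real.pi / 3 + Real.pi := by ring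
  rw [e, Real.cos_add_pi, Real.sin_add_pi, Real.cos_pi_div_three, Real.sin_pi_div_three]
  exact ⟨rfl, rfl⟩

theorem cord_far {x : ℝ} (h : 99 / 100 < Real.cos x) :
    Real.cos (x - 2 * Real.pi / 3) ≤ 0 ∧ Real.cos (x - 4 * Real.pi / 3) ≤ 0 := by
  have h1 := Real.sin_sq_add_cos_sq x
  have h3 : Real.sqrt 3 ^ 2 = 3 := Real.sq_sqrt (by norm_num)
  have h4 : |Real.sin x * Real.sqrt 3| ≤ |Real.cos x| := by
    apply sq_le_sq.1
    rw [mul_pow, h3]
    nlinarith
  rw [abs_of_pos (by linarith : 0 < Real.cos x)] at h4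
  have h5 := abs_le.1 h4
  constructor
  · rw [Real.cos_sub, cord_two_pi_three.1, cord_two_pi_three.2]
    linarith [h5.2]
  · rw [Real.cos_sub, cord_four_pi_three.1, cord_four_pi_three.2]
    linarith [h5.1]

theorem cord_at_zero {x : ℝ} (h : Real.cos x = 1) :
    Real.cos (x - 2 * Real.pi / 3) = -(1 / 2) ∧ Real.cos (x - 4 * Real.pi / 3) = -(1 / 2) := by
  have h1 := Real.sin_sq_add_cos_sq x
  have h2 : Real.sin x = 0 := by
    rw [h] at h1
    have : Real.sin x ^ 2 = 0 := by linarith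
    exact pow_eq_zero_iff (two_ne_zero) |>.1 this
  constructor
  · rw [Real.cos_sub, cord_two_pi_three.1, h, h2]
    ring
  · rw [Real.cos_sub, cord_four_pi_three.1, h, h2]
    ring

theorem cord_add_pos {a b : ℝ} (h : 2 - Real.cos a - Real.cos b < 1 / 10) :
    0 < Real.cos (a + b) := by
  have ha := Real.cos_le_one a
  have hb := Real.cos_le_one b
  have ha1 := Real.sin_sq_add_cos_sq a
  have hb1 := Real.sin_sq_add_cos_sq b
  rw [Real.cos_add]
  have h1 : Real.sin a * Real.sin b ≤ (Real.sin a ^ 2 + Real.sin b ^ 2) / 2 := by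
    nlinarith [sq_nonneg (Real.sin a - Real.sin b)]
  have h2 : 9 / 10 < Real.cos a := by linarith
  have h3 : 9 / 10 < Real.cos b := by linarith
  have h4 : 9 / 10 * (9 / 10) < Real.cos a * Real.cos b :=
    mul_lt_mul'' h2 h3 (by norm_num) (by norm_num)
  nlinarith

theorem cord_cos_le {z : ℝ} (h1 : Real.pi / 3 ≤ z) (h2 : z ≤ 5 * Real.pi / 3) :
    Real.cos z ≤ 1 / 2 := by
  have hpi := Real.pi_pos
  by_cases h : z ≤ Real.pi
  · rw [← Real.cos_pi_div_three]
    exact Real.cos_le_cos_of_nonneg_of_le_pi (by linarith) h h1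
  · push Not at h
    rw [← Real.cos_pi_div_three, ← Real.cos_two_pi_sub]
    exact Real.cos_le_cos_of_nonneg_of_le_pi (by linarith) (by linarith) (by linarith)

/-- `a` is in `(-2π/3, 4π/3)` and its cosine is large. -/
theorem cord_mul_sin {a : ℝ} (h1 : -(2 * Real.pi / 3) < a) (h2 : a < 4 * Real.pi / 3)
    (h : 1 / 2 < Real.cos a) : 0 ≤ Real.sin a * a ∧ (a ≠ 0 → 0 < Real.sin a * a) := by
  have hpi := Real.pi_pos
  have h3 : a < Real.pi / 3 := by
    by_contra hcon
    push Not at hcon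
    have := cord_cos_le hcon (by linarith)
    linarith
  have h4 : -(Real.pi / 3) < a := by
    by_contra hcon
    push Not at hcon
    have := cord_cos_le (z := -a) (by linarith) (by linarith)
    rw [Real.cos_neg] at this
    linarith
  rcases lt_trichotomy a 0 with h5 | h5 | h5
  · have : Real.sin a < 0 := Real.sin_neg_of_neg_of_neg_pi_lt h5 (by linarith)
    have h6 := mul_pos_of_neg_of_neg this h5
    exact ⟨h6.le, fun _ => h6⟩
  · rw [h5]; simp
  · have : 0 < Real.sin a := Real.sin_pos_of_pos_of_lt_pi h5 (by linarith)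
    have h6 := mul_pos this h5
    exact ⟨h6.le, fun _ => h6⟩

/-- The second centre is far from the first triangle. -/
theorem cord_second {X Y : ℝ} (hX : 0 < X) (hY : 0 < Y) (hXY : X + Y < 2 * Real.pi) :
    1 / 10 ≤ 2 - Real.cos (X - 4 * Real.pi / 3) - Real.cos (Y - 4 * Real.pi / 3) := by
  have hpi := Real.pi_pos
  by_contra hcon
  push Not at hcon
  have h1 := Real.cos_le_one (X - 4 * Real.pi / 3)
  have h2 := Real.cos_le_one (Y - 4 * Real.pi / 3)
  have h3 : Real.pi < X := by
    by_contra h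
    push Not at h
    have := cord_cos_le (z := -(X - 4 * Real.pi / 3)) (by linarith) (by linarith)
    rw [Real.cos_neg] at this
    linarith
  have h4 : Real.pi < Y := by
    by_contra h
    push Not at h
    have := cord_cos_le (z := -(Y - 4 * Real.pi / 3)) (by linarith) (by linarith)
    rw [Real.cos_neg] at this
    linarith
  linarith

theorem cord_cos {s : ℝ} (hs : s = 1 ∨ s = -1) (k : ℤ) (z : ℝ) :
    Real.cos (s * z + k * (2 * Real.pi)) = Real.cos z := by
  rw [Real.cos_add_int_mul_two_pi]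
  rcases hs with h | h
  · rw [h, one_mul]
  · rw [h, neg_one_mul, Real.cos_neg]

theorem cord_cos_one (k : ℤ) (z : ℝ) (c : ℝ) :
    Real.cos (1 * z + k * (2 * Real.pi) - c) = Real.cos (z - c) := by
  have e : 1 * z + k * (2 * Real.pi) - c = (z - c) + k * (2 * Real.pi) := by ring
  rw [e, Real.cos_add_int_mul_two_pi]

theorem cord_cos_neg (k : ℤ) (z : ℝ) :
    Real.cos (-1 * z + k * (2 * Real.pi) - 2 * Real.pi / 3) = Real.cos (z - 4 * Real.pi / 3) ∧
    Real.cos (-1 * z + k * (2 * Real.pi) - 4 * Real.pi / 3) = Real.cos (z - 2 * Real.pi / 3) := by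
  constructor
  · have e : -1 * z + k * (2 * Real.pi) - 2 * Real.pi / 3 =
        -(z - 4 * Real.pi / 3) + ((k - 1 : ℤ) : ℝ) * (2 * Real.pi) := by push_cast; ring
    rw [e, Real.cos_add_int_mul_two_pi, Real.cos_neg]
  · have e : -1 * z + k * (2 * Real.pi) - 4 * Real.pi / 3 =
        -(z - 2 * Real.pi / 3) + ((k - 1 : ℤ) : ℝ) * (2 * Real.pi) := by push_cast; ring
    rw [e, Real.cos_add_int_mul_two_pi, Real.cos_neg]

/-! ### Smoothness, equivariance and values -/

theorem cord_contDiff_fB (a₁ b₁ a₂ b₂ : ℝ) : ContDiff ℝ ∞ (fB a₁ b₁ a₂ b₂) := by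
  have h1 : ContDiff ℝ ∞ (fun q : (ℂ × ℂ) × ℝ × ℝ × ℝ × ℝ =>
      2 - (q.2.1 * Real.cos a₁ + q.2.2.1 * Real.sin a₁) -
        (q.2.2.2.1 * Real.cos b₁ + q.2.2.2.2 * Real.sin b₁)) := by fun_prop
  have h2 : ContDiff ℝ ∞ (fun q : (ℂ × ℂ) × ℝ × ℝ × ℝ × ℝ =>
      2 - (q.2.1 * Real.cos a₂ + q.2.2.1 * Real.sin a₂) -
        (q.2.2.2.1 * Real.cos b₂ + q.2.2.2.2 * Real.sin b₂)) := by fun_prop
  have hφ : ContDiff ℝ ∞ (fun q : (ℂ × ℂ) × ℝ × ℝ × ℝ × ℝ => 7 / 100 *
      (bump (2 - (q.2.1 * Real.cos a₁ + q.2.2.1 * Real.sin a₁) -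
        (q.2.2.2.1 * Real.cos b₁ + q.2.2.2.2 * Real.sin b₁)) +
       bump (2 - (q.2.1 * Real.cos a₂ + q.2.2.1 * Real.sin a₂) -
        (q.2.2.2.1 * Real.cos b₂ + q.2.2.2.2 * Real.sin b₂)))) :=
    contDiff_const.mul ((cord_contDiff_bump.comp h1).add (cord_contDiff_bump.comp h2))
  have h := contDiff_cutoff (fun m : ℂ × ℂ => m) contDiff_id _ hφ
  exact ((contDiff_hgt.pow 2).sub contDiff_const).add h

theorem contDiff_f2 : ContDiff ℝ ∞ (fun q : ℝ × (ℂ × ℂ) => f2 q.1 q.2) := by
  unfold f2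
  exact ((contDiff_const.sub contDiff_fst).mul (corc_contDiff_fA.comp contDiff_snd)).add
    (contDiff_fst.mul ((cord_contDiff_fB _ _ _ _).comp contDiff_snd))

theorem cord_fB_act (a₁ b₁ a₂ b₂ : ℝ) (x : C3) :
    fB a₁ b₁ a₂ b₂ (pr (act x)) = fB a₁ b₁ a₂ b₂ (pr x) := by
  obtain ⟨h1, h2, h3, h4⟩ := phases_act x
  unfold fB DD
  rw [h1, h2, h3, h4, hgt_act]

theorem f2_act (t : ℝ) (x : C3) : f2 t (pr (act x)) = f2 t (pr x) := by
  unfold f2
  rw [corc_fA_act, cord_fB_act]

theorem cord_fB_angxy (a₁ b₁ a₂ b₂ : ℝ) {h : ℝ} (x y : ℝ) (hh : |h| < 1) :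
    fB a₁ b₁ a₂ b₂ (angxy h x y) = h ^ 2 - 65 / 1000 + cc h * (7 / 100 *
      (bump (2 - Real.cos (x - a₁) - Real.cos (y - b₁)) +
       bump (2 - Real.cos (x - a₂) - Real.cos (y - b₂)))) := by
  obtain ⟨h1, h2, h3, h4⟩ := phases_angxy x y hh
  unfold fB DD
  rw [h1, h2, h3, h4, hgt_angxy x y hh.le, ← Real.cos_sub, ← Real.cos_sub, ← Real.cos_sub,
    ← Real.cos_sub]

theorem cord_fB_neg {m : ℂ × ℂ} (hm : Complex.normSq m.1 + Complex.normSq m.2 = 1)
    (h : rho m ≤ 0) :
    fB (2 * Real.pi / 3) (2 * Real.pi / 3) (4 * Real.pi / 3) (4 * Real.pi / 3) m < 0 := by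
  obtain ⟨a, x, y, ha, rfl, ha2, hxy⟩ := corc_rho_nonpos hm h
  rw [cord_fB_angxy _ _ _ _ x y ha]
  have hy := Real.cos_le_one y
  obtain ⟨f1, f2⟩ := cord_far (x := x) (by linarith)
  have g1 := Real.cos_le_one (y - 2 * Real.pi / 3)
  have g2 := Real.cos_le_one (y - 4 * Real.pi / 3)
  rw [cord_bump_eq_zero (by linarith), cord_bump_eq_zero (by linarith)]
  linarith

theorem pos_f2 (t : ℝ) (ht : t ∈ Icc (0 : ℝ) 1) (m : ℂ × ℂ)
    (hm : Complex.normSq m.1 + Complex.normSq m.2 = 1) (h : f2 t m = 0) : 0 < rho m := by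
  by_contra hcon
  push Not at hcon
  have h1 := corc_fA_neg hm hcon
  have h2 := cord_fB_neg hm hcon
  unfold f2 at h
  rcases ht.1.lt_or_eq with h6 | h6
  · have := mul_nonneg (sub_nonneg.2 ht.2) (neg_nonneg.2 h1.le)
    have := mul_pos h6 (neg_pos.2 h2)
    nlinarith
  · rw [← h6] at h; linarith

theorem cord_big {m : ℂ × ℂ} (hm : Complex.normSq m.1 + Complex.normSq m.2 = 1)
    (hb : 1 / 2 ≤ |hgt m|) (a₁ b₁ a₂ b₂ : ℝ) : 0 < fB a₁ b₁ a₂ b₂ m := by
  have hsq : 1 / 4 ≤ hgt m ^ 2 := by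
    rw [← sq_abs]; nlinarith
  unfold fB
  have h1 := cc_nonneg (hgt m)
  have h2 := cord_bump_nonneg (DD a₁ b₁ m)
  have h3 := cord_bump_nonneg (DD a₂ b₂ m)
  have h4 : 0 ≤ cc (hgt m) * (7 / 100 * (bump (DD a₁ b₁ m) + bump (DD a₂ b₂ m))) := by positivity
  linarith

/-- The value at height zero. -/
def cord_val (t x y : ℝ) : ℝ :=
  (1 - t) * (-(65 / 1000) + 1 / 50 *
    ((1 - Real.cos y) * (1 - Real.cos (x + y)) * (1 - Real.cos x))) +
  t * (-(65 / 1000) + 7 / 100 *
    (bump (2 - Real.cos (x - 2 * Real.pi / 3) - Real.cos (y - 2 * Real.pi / 3)) +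
     bump (2 - Real.cos (x - 4 * Real.pi / 3) - Real.cos (y - 4 * Real.pi / 3))))

theorem cord_f2_zero (t x y : ℝ) : f2 t (angxy 0 x y) = cord_val t x y := by
  have h0 : |(0 : ℝ)| < 1 := by norm_num
  unfold f2 cord_val
  rw [corc_fA_angxy _ _ h0, cord_fB_angxy _ _ _ _ _ _ h0, cc_of_small (by norm_num)]
  ring

theorem cord_val_inv (t : ℝ) {s : ℝ} (hs : s = 1 ∨ s = -1) (k l : ℤ) (x y : ℝ) :
    cord_val t (s * x + k * (2 * Real.pi)) (s * y + l * (2 * Real.pi)) = cord_val t x y := by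
  unfold cord_val
  have exy : s * x + k * (2 * Real.pi) + (s * y + l * (2 * Real.pi)) =
      s * (x + y) + ((k + l : ℤ) : ℝ) * (2 * Real.pi) := by push_cast; ring
  rw [exy, cord_cos hs, cord_cos hs, cord_cos hs]
  rcases hs with h | h
  · subst h
    rw [cord_cos_one, cord_cos_one, cord_cos_one, cord_cos_one]
  · subst h
    rw [(cord_cos_neg k x).1, (cord_cos_neg k x).2, (cord_cos_neg l y).1, (cord_cos_neg l y).2,
      add_comm (bump (2 - Real.cos (x - 4 * Real.pi / 3) - Real.cos (y - 4 * Real.pi / 3)))]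

theorem cord_deriv (t : ℝ) {X Y c : ℝ} (hX : 0 < X) (hY : 0 < Y) (hXY : X + Y < 2 * Real.pi)
    (hc : HasDerivAt (fun t : ℝ =>
      (1 - Real.cos (Y + t * (Y - 2 * Real.pi / 3))) *
        (1 - Real.cos (X + Y + t * (X + Y - 4 * Real.pi / 3))) *
        (1 - Real.cos (X + t * (X - 2 * Real.pi / 3)))) c 0) :
    HasDerivAt (fun τ => cord_val t (X + τ * (X - 2 * Real.pi / 3))
        (Y + τ * (Y - 2 * Real.pi / 3)))
      ((1 - t) * (1 / 50 * c) + t * (7 / 100 * (-(10 * deriv SS (1 - 10 *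
        (2 - Real.cos (X - 2 * Real.pi / 3) - Real.cos (Y - 2 * Real.pi / 3)))) *
        (Real.sin (X - 2 * Real.pi / 3) * (X - 2 * Real.pi / 3) +
         Real.sin (Y - 2 * Real.pi / 3) * (Y - 2 * Real.pi / 3))))) 0 := by
  have dd : ∀ a : ℝ, HasDerivAt (fun τ : ℝ => bump (2 -
      Real.cos (X + τ * (X - 2 * Real.pi / 3) - a) - Real.cos (Y + τ * (Y - 2 * Real.pi / 3) - a)))
      (-(10 * deriv SS (1 - 10 * (2 - Real.cos (X - a) - Real.cos (Y - a)))) *
      (Real.sin (X - a) * (X - 2 * Real.pi / 3) + Real.sin (Y - a) * (Y - 2 * Real.pi / 3))) 0 := by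
    intro a
    have d2 := corc_hasDerivAt_cos (X - a) (X - 2 * Real.pi / 3)
    have d0 := corc_hasDerivAt_cos (Y - a) (Y - 2 * Real.pi / 3)
    have du : HasDerivAt (fun τ : ℝ => 2 - Real.cos (X + τ * (X - 2 * Real.pi / 3) - a) -
        Real.cos (Y + τ * (Y - 2 * Real.pi / 3) - a))
        (Real.sin (X - a) * (X - 2 * Real.pi / 3) + Real.sin (Y - a) * (Y - 2 * Real.pi / 3)) 0 := by
      refine (d2.add d0).congr_of_eventuallyEq (Filter.Eventually.of_forall fun τ => ?_)
      simp only [Pi.add_apply]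
      have e1 : X + τ * (X - 2 * Real.pi / 3) - a = X - a + τ * (X - 2 * Real.pi / 3) := by ring
      have e2 : Y + τ * (Y - 2 * Real.pi / 3) - a = Y - a + τ * (Y - 2 * Real.pi / 3) := by ring
      rw [e1, e2]
      ring
    have h1 := (cord_dbump (2 - Real.cos (X + 0 * (X - 2 * Real.pi / 3) - a) -
      Real.cos (Y + 0 * (Y - 2 * Real.pi / 3) - a))).comp (0 : ℝ) du
    simp only [zero_mul, add_zero] at h1
    exact h1
  have d1 := dd (2 * Real.pi / 3)
  have d2 := dd (4 * Real.pi / 3)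
  have hz : deriv SS (1 - 10 * (2 - Real.cos (X - 4 * Real.pi / 3) -
      Real.cos (Y - 4 * Real.pi / 3))) = 0 := by
    apply deriv_SS_of_nonpos
    have := cord_second hX hY hXY
    linarith
  rw [hz, mul_zero, neg_zero, zero_mul] at d2
  have dE := (((hc.const_mul (1 / 50)).const_add (-(65 / 1000))).const_mul (1 - t)).add
    ((((d1.add d2).const_mul (7 / 100)).const_add (-(65 / 1000))).const_mul t)
  rw [add_zero] at dE
  refine dE.congr_of_eventuallyEq (Filter.Eventually.of_forall fun τ => ?_)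
  unfold cord_val
  have e1 : X + τ * (X - 2 * Real.pi / 3) + (Y + τ * (Y - 2 * Real.pi / 3)) =
      X + Y + τ * (X + Y - 4 * Real.pi / 3) := by ring
  simp only [Pi.add_apply]
  rw [e1]

theorem reg_f2 (t : ℝ) (ht : t ∈ Icc (0 : ℝ) 1) (m : ℂ × ℂ)
    (hm : Complex.normSq m.1 + Complex.normSq m.2 = 1) (h : f2 t m = 0) : RegS (f2 t) m := by
  by_cases hb : 1 / 2 ≤ |hgt m|
  · exfalso
    have h1 := (corc_big hm hb).2
    have h2 := cord_big hm hb (2 * Real.pi / 3) (2 * Real.pi / 3) (4 * Real.pi / 3)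
      (4 * Real.pi / 3)
    unfold f2 at h
    rcases ht.1.lt_or_eq with h6 | h6
    · have := mul_nonneg (sub_nonneg.2 ht.2) h1.le
      have := mul_pos h6 h2
      linarith
    · rw [← h6] at h; linarith
  push Not at hb
  have hh : |hgt m| < 1 := by linarith
  obtain ⟨x, y, hxy⟩ := exists_angxy hm hh
  generalize hgt m = a at *
  subst hxy
  by_cases ha : a = 0
  · subst ha
    have h0 : |(0 : ℝ)| < 1 := by norm_num
    rw [cord_f2_zero] at h
    have hy1 := Real.cos_le_one y
    have hx1 := Real.cos_le_one x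
    have gx2 := Real.cos_le_one (x - 2 * Real.pi / 3)
    have gx4 := Real.cos_le_one (x - 4 * Real.pi / 3)
    have gy2 := Real.cos_le_one (y - 2 * Real.pi / 3)
    have gy4 := Real.cos_le_one (y - 4 * Real.pi / 3)
    have hz0 : Real.cos y ≠ 1 := by
      intro hc
      obtain ⟨k1, k2⟩ := cord_at_zero hc
      unfold cord_val at h
      rw [cord_bump_eq_zero (by linarith), cord_bump_eq_zero (by linarith), hc] at h
      linarith
    have hz2 : Real.cos x ≠ 1 := by
      intro hc
      obtain ⟨k1, k2⟩ := cord_at_zero hc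
      unfold cord_val at h
      rw [cord_bump_eq_zero (by linarith), cord_bump_eq_zero (by linarith), hc] at h
      linarith
    have hz1 : Real.cos (x + y) ≠ 1 := by
      intro hc
      obtain ⟨k1, k2⟩ := cord_at_zero hc
      have j1 : 1 / 10 ≤ 2 - Real.cos (x - 2 * Real.pi / 3) - Real.cos (y - 2 * Real.pi / 3) := by
        by_contra hcon
        push Not at hcon
        have := cord_add_pos hcon
        have e : x - 2 * Real.pi / 3 + (y - 2 * Real.pi / 3) = x + y - 4 * Real.pi / 3 := by ring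
        rw [e, k2] at this
        linarith
      have j2 : 1 / 10 ≤ 2 - Real.cos (x - 4 * Real.pi / 3) - Real.cos (y - 4 * Real.pi / 3) := by
        by_contra hcon
        push Not at hcon
        have := cord_add_pos hcon
        have e : x - 4 * Real.pi / 3 + (y - 4 * Real.pi / 3) =
          x + y - 2 * Real.pi / 3 - 2 * Real.pi := by ring
        rw [e, Real.cos_sub_two_pi, k1] at this
        linarith
      unfold cord_val at h
      rw [cord_bump_eq_zero j1, cord_bump_eq_zero j2, hc] at h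
      linarith
    obtain ⟨s, hs, k, l, hX, hY, hXY⟩ := triangle_reduce hz0 hz1 hz2
    have hval := cord_val_inv t hs k l x y
    rw [h] at hval
    have hss : s * s = 1 := by
      rcases hs with h | h <;> rw [h] <;> norm_num
    set X := s * x + k * (2 * Real.pi) with hXd
    set Y := s * y + l * (2 * Real.pi) with hYd
    have hfun : ∀ τ d e : ℝ, f2 t (angxy 0 (x + τ * (s * d)) (y + τ * (s * e))) =
        cord_val t (X + τ * d) (Y + τ * e) := by
      intro τ d e
      rw [cord_f2_zero, ← cord_val_inv t hs k l (x + τ * (s * d)) (y + τ * (s * e))]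
      have e1 : s * (x + τ * (s * d)) + k * (2 * Real.pi) = X + τ * d := by
        have : s * (x + τ * (s * d)) = s * x + τ * ((s * s) * d) := by ring
        rw [this, hss, one_mul, hXd]
        ring
      have e2 : s * (y + τ * (s * e)) + l * (2 * Real.pi) = Y + τ * e := by
        have : s * (y + τ * (s * e)) = s * y + τ * ((s * s) * e) := by ring
        rw [this, hss, one_mul, hYd]
        ring
      rw [e1, e2]
    have hsec := cord_second hX hY hXY
    by_cases hcen : X = 2 * Real.pi / 3 ∧ Y = 2 * Real.pi / 3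
    · exfalso
      unfold cord_val at hval
      rw [cord_bump_eq_zero hsec, hcen.1, hcen.2, sub_self, Real.cos_zero] at hval
      have e : 2 * Real.pi / 3 + 2 * Real.pi / 3 = 4 * Real.pi / 3 := by ring
      have e2 : (2 : ℝ) - 1 - 1 = 0 := by norm_num
      rw [e, cord_two_pi_three.1, cord_four_pi_three.1, e2, cord_bump_zero] at hval
      nlinarith [ht.1, ht.2]
    · have hne : X ≠ 2 * Real.pi / 3 ∨ Y ≠ 2 * Real.pi / 3 := by
        by_contra hcon
        push Not at hcon
        exact hcen hcon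
      obtain ⟨c, hc, hdc⟩ := triangle_radial hX hY hXY hne
      have hD := cord_deriv t hX hY hXY hdc
      refine corc_regS_xy (s * (X - 2 * Real.pi / 3)) (s * (Y - 2 * Real.pi / 3)) h0 ?_
        (hD.congr_of_eventuallyEq (Filter.Eventually.of_forall fun τ => hfun τ _ _))
      apply ne_of_lt
      -- the sign of the second term
      have hder := deriv_SS_nonneg (1 - 10 *
        (2 - Real.cos (X - 2 * Real.pi / 3) - Real.cos (Y - 2 * Real.pi / 3)))
      have hcX := Real.cos_le_one (X - 2 * Real.pi / 3)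
      have hcY := Real.cos_le_one (Y - 2 * Real.pi / 3)
      have hpi := Real.pi_pos
      have hE : 0 < 1 - 10 * (2 - Real.cos (X - 2 * Real.pi / 3) -
          Real.cos (Y - 2 * Real.pi / 3)) → 0 < Real.sin (X - 2 * Real.pi / 3) *
          (X - 2 * Real.pi / 3) + Real.sin (Y - 2 * Real.pi / 3) * (Y - 2 * Real.pi / 3) := by
        intro hp
        obtain ⟨p1, p2⟩ := cord_mul_sin (a := X - 2 * Real.pi / 3) (by linarith) (by linarith)
          (by linarith)
        obtain ⟨q1, q2⟩ := cord_mul_sin (a := Y - 2 * Real.pi / 3) (by linarith) (by linarith)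
          (by linarith)
        rcases hne with hn | hn
        · have := p2 (sub_ne_zero.2 hn)
          linarith
        · have := q2 (sub_ne_zero.2 hn)
          linarith
      have hsecond : 0 ≤ deriv SS (1 - 10 * (2 - Real.cos (X - 2 * Real.pi / 3) -
          Real.cos (Y - 2 * Real.pi / 3))) * (Real.sin (X - 2 * Real.pi / 3) *
          (X - 2 * Real.pi / 3) + Real.sin (Y - 2 * Real.pi / 3) * (Y - 2 * Real.pi / 3)) := by
        by_cases hp : 0 < 1 - 10 * (2 - Real.cos (X - 2 * Real.pi / 3) -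
          Real.cos (Y - 2 * Real.pi / 3))
        · exact mul_nonneg hder (hE hp).le
        · rw [deriv_SS_of_nonpos (not_lt.1 hp), zero_mul]
      rcases ht.2.lt_or_eq with ht1 | ht1
      · have h3 := mul_pos_of_neg_of_neg (a := -(1 - t)) (b := c) (by linarith) hc
        have h4 := mul_nonneg ht.1 hsecond
        nlinarith
      · subst ht1
        have hv : bump (2 - Real.cos (X - 2 * Real.pi / 3) -
            Real.cos (Y - 2 * Real.pi / 3)) = 13 / 14 := by
          unfold cord_val at hval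
          rw [cord_bump_eq_zero hsec] at hval
          linarith
        unfold bump at hv
        have s1 : 0 < 1 - 10 * (2 - Real.cos (X - 2 * Real.pi / 3) -
            Real.cos (Y - 2 * Real.pi / 3)) := by
          by_contra hcon
          rw [SS_of_nonpos (not_lt.1 hcon)] at hv
          norm_num at hv
        have s2 : 1 - 10 * (2 - Real.cos (X - 2 * Real.pi / 3) -
            Real.cos (Y - 2 * Real.pi / 3)) < 1 := by
          by_contra hcon
          rw [SS_of_one_le (not_lt.1 hcon)] at hv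
          norm_num at hv
        have h5 := mul_pos (deriv_SS_pos s1 s2) (hE s1)
        linarith
  · have hD : HasDerivAt (fun τ => f2 t (angxy (a + τ) x y)) (2 * a) 0 := by
      have dH : HasDerivAt (fun τ : ℝ => a + τ) 1 0 := by
        simpa using (hasDerivAt_id (0 : ℝ)).const_add a
      have dsq : HasDerivAt (fun τ : ℝ => (a + τ) ^ 2) (2 * a) 0 := by
        have h1 := dH.fun_pow 2
        simpa using h1
      have dE := dsq.add_const ((1 - t) * (-(65 / 1000) + 1 / 50 *
        ((1 - Real.cos y) * (1 - Real.cos (x + y)) * (1 - Real.cos x))) +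
        t * (-(65 / 1000) + 7 / 100 *
        (bump (2 - Real.cos (x - 2 * Real.pi / 3) - Real.cos (y - 2 * Real.pi / 3)) +
         bump (2 - Real.cos (x - 4 * Real.pi / 3) - Real.cos (y - 4 * Real.pi / 3)))))
      refine dE.congr_of_eventuallyEq ?_
      have hev : ∀ᶠ τ in 𝓝 (0 : ℝ), |a + τ| < 1 / 2 := by
        have hcont : Continuous (fun τ : ℝ => |a + τ|) := by fun_prop
        have : |a + 0| < 1 / 2 := by rwa [add_zero]
        exact hcont.continuousAt.eventually (gt_mem_nhds this)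
      filter_upwards [hev] with τ hτ
      have hτ1 : |a + τ| < 1 := by linarith
      have hsq : 4 * (a + τ) ^ 2 ≤ 1 := by
        rw [← sq_abs]
        nlinarith [abs_nonneg (a + τ)]
      unfold f2
      rw [corc_fA_angxy x y hτ1, cord_fB_angxy _ _ _ _ x y hτ1, cc_of_small hsq]
      ring
    exact corc_regS_h hh (mul_ne_zero two_ne_zero ha) hD

end Pool.Agent.Tri
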