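import Mathlib
import Pool.Agent.H.MP_5efd29_gt.CorB

open scoped ContDiff Topology
open Set

noncomputable section

namespace Pool.Agent.Tri

theorem core_contDiff_bump : ContDiff ℝ ∞ bump := by
  unfold bump
  exact contDiff_SS.comp (contDiff_const.sub (contDiff_const.mul contDiff_id))

theorem core_bump_nonneg (t : ℝ) : 0 ≤ bump t := SS_nonneg _

theorem core_bump_zero {t : ℝ} (h : 1 / 10 ≤ t) : bump t = 0 := by
  unfold bump
  exact SS_of_nonpos (by linarith)

theorem core_hasDerivAt_bump (t : ℝ) :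
    HasDerivAt bump (deriv SS (1 - 10 * t) * (-(10 * 1))) t := by
  have h3 : HasDerivAt (fun s : ℝ => 1 - 10 * s) (-(10 * 1)) t :=
    ((hasDerivAt_id t).const_mul 10).const_sub 1
  exact (funa_hasDerivAt_SS (1 - 10 * t)).comp t h3

theorem core_cos_le {a : ℝ} (h1 : 2 * Real.pi / 3 ≤ a) (h2 : a ≤ Real.pi) :
    Real.cos a ≤ -(1 / 2) := by
  have h3 : Real.cos (2 * Real.pi / 3) = -(1 / 2) := by
    have : 2 * Real.pi / 3 = Real.pi - Real.pi / 3 := by ring
    rw [this, Real.cos_pi_sub, Real.cos_pi_div_three]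
  rw [← h3]
  exact Real.cos_le_cos_of_nonneg_of_le_pi (by positivity) h2 h1

theorem core_cos_le' {a : ℝ} (h1 : Real.pi ≤ a) (h2 : a ≤ 4 * Real.pi / 3) :
    Real.cos a ≤ -(1 / 2) := by
  rw [← Real.cos_two_pi_sub]
  exact core_cos_le (by linarith) (by linarith)

theorem core_DD_angxy {h : ℝ} (a b x y : ℝ) (hh : |h| < 1) :
    DD a b (angxy h x y) = 2 - Real.cos (x - a) - Real.cos (y - b) := by
  obtain ⟨h1, h2, h3, h4⟩ := phases_angxy x y hh
  unfold DD
  rw [h1, h2, h3, h4, Real.cos_sub, Real.cos_sub]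

theorem core_fB_angxy {h : ℝ} (a₁ b₁ a₂ b₂ x y : ℝ) (hh : |h| < 1) :
    fB a₁ b₁ a₂ b₂ (angxy h x y) = h ^ 2 - 65 / 1000 + cc h * (7 / 100 *
      (bump (2 - Real.cos (x - a₁) - Real.cos (y - b₁)) +
        bump (2 - Real.cos (x - a₂) - Real.cos (y - b₂)))) := by
  unfold fB
  rw [core_DD_angxy _ _ _ _ hh, core_DD_angxy _ _ _ _ hh, hgt_angxy x y hh.le]

/-- the two bumps are disjoint -/
theorem core_disj {a₁ b₁ a₂ b₂ x y : ℝ} (hc : Real.cos (a₂ - a₁) ≤ -(1 / 2)) :
    1 / 10 ≤ 2 - Real.cos (x - a₁) - Real.cos (y - b₁) ∨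
      1 / 10 ≤ 2 - Real.cos (x - a₂) - Real.cos (y - b₂) := by
  by_contra hcon
  push Not at hcon
  obtain ⟨h1, h2⟩ := hcon
  have c1 := Real.cos_le_one (y - b₁)
  have c2 := Real.cos_le_one (y - b₂)
  have e1 : 9 / 10 < Real.cos (x - a₁) := by linarith
  have e2 : 9 / 10 < Real.cos (x - a₂) := by linarith
  have e3 : Real.cos (a₂ - a₁) = Real.cos (x - a₁) * Real.cos (x - a₂) +
      Real.sin (x - a₁) * Real.sin (x - a₂) := by
    rw [← Real.cos_sub]
    congr 1
    ring
  have s1 := Real.sin_sq_add_cos_sq (x - a₁)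
  have s2 := Real.sin_sq_add_cos_sq (x - a₂)
  nlinarith [sq_nonneg (Real.sin (x - a₁) + Real.sin (x - a₂))]

/-- derivative of the bump along a line in the torus -/
theorem core_hasDerivAt_line (a b x y u v : ℝ) :
    HasDerivAt (fun t : ℝ => bump (2 - Real.cos (x + t * u - a) - Real.cos (y + t * v - b)))
      (deriv SS (1 - 10 * (2 - Real.cos (x - a) - Real.cos (y - b))) * (-(10 * 1)) *
        (Real.sin (x - a) * u + Real.sin (y - b) * v)) 0 := by
  have h1 : HasDerivAt (fun t : ℝ => x + t * u - a) u 0 := by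
    have := (((hasDerivAt_id (0 : ℝ)).mul_const u).const_add x).sub_const a
    simpa using this
  have h2 : HasDerivAt (fun t : ℝ => y + t * v - b) v 0 := by
    have := (((hasDerivAt_id (0 : ℝ)).mul_const v).const_add y).sub_const b
    simpa using this
  have h3 := h1.cos
  have h4 := h2.cos
  have h5 := (h3.const_sub 2).sub h4
  have h6 : (fun t : ℝ => 2 - Real.cos (x + t * u - a) - Real.cos (y + t * v - b)) 0
      = 2 - Real.cos (x - a) - Real.cos (y - b) := by
    simp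
  have h7 : HasDerivAt (fun t : ℝ => 2 - Real.cos (x + t * u - a) - Real.cos (y + t * v - b))
      (Real.sin (x - a) * u + Real.sin (y - b) * v) 0 := by
    exact h5.congr_deriv (by simp)
  have h8 := core_hasDerivAt_bump (2 - Real.cos (x - a) - Real.cos (y - b))
  rw [← h6] at h8
  have h9 := h8.comp (0 : ℝ) h7
  rw [h6] at h9
  exact h9

theorem core_reg_aux {a₁ b₁ a₂ b₂ : ℝ} {x y : ℝ}
    (h2 : 1 / 10 ≤ 2 - Real.cos (x - a₂) - Real.cos (y - b₂))
    (h : bump (2 - Real.cos (x - a₁) - Real.cos (y - b₁)) +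
      bump (2 - Real.cos (x - a₂) - Real.cos (y - b₂)) = 13 / 14) :
    RegS (fB a₁ b₁ a₂ b₂) (angxy 0 x y) := by
  have h01 : |(0 : ℝ)| < 1 := by simp
  rw [core_bump_zero h2, add_zero] at h
  set D := 2 - Real.cos (x - a₁) - Real.cos (y - b₁) with hD
  have hD1 : 0 < 1 - 10 * D := by
    by_contra hcon
    unfold bump at h
    rw [SS_of_nonpos (not_lt.mp hcon)] at h
    norm_num at h
  have hD2 : 1 - 10 * D < 1 := by
    by_contra hcon
    unfold bump at h
    rw [SS_of_one_le (not_lt.mp hcon)] at h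
    norm_num at h
  obtain ⟨k1, k2, k3⟩ := curve_xy x y (Real.sin (x - a₁)) (Real.sin (y - b₁)) h01
  refine ⟨fun t : ℝ => angxy 0 (x + t * Real.sin (x - a₁)) (y + t * Real.sin (y - b₁)), k1,
    by simp, Filter.Eventually.of_forall k3, ?_⟩
  have hs : 0 < Real.sin (x - a₁) * Real.sin (x - a₁) + Real.sin (y - b₁) * Real.sin (y - b₁) := by
    by_contra hcon
    have e1 : Real.sin (x - a₁) = 0 := by nlinarith [mul_self_nonneg (Real.sin (x - a₁)), mul_self_nonneg (Real.sin (y - b₁))]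
    have e2 : Real.sin (y - b₁) = 0 := by nlinarith [mul_self_nonneg (Real.sin (x - a₁)), mul_self_nonneg (Real.sin (y - b₁))]
    have c1 := Real.cos_le_one (x - a₁)
    have c2 := Real.cos_le_one (y - b₁)
    have s1 := Real.sin_sq_add_cos_sq (x - a₁)
    have s2 := Real.sin_sq_add_cos_sq (y - b₁)
    rw [e1] at s1
    rw [e2] at s2
    have g1 : Real.cos (x - a₁) = 1 := by nlinarith
    have g2 : Real.cos (y - b₁) = 1 := by nlinarith
    rw [g1, g2] at hD
    linarith
  refine ⟨7 / 100 * (deriv SS (1 - 10 * D) * (-(10 * 1)) *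
        (Real.sin (x - a₁) * Real.sin (x - a₁) + Real.sin (y - b₁) * Real.sin (y - b₁)) +
      deriv SS (1 - 10 * (2 - Real.cos (x - a₂) - Real.cos (y - b₂))) * (-(10 * 1)) *
        (Real.sin (x - a₂) * Real.sin (x - a₁) + Real.sin (y - b₂) * Real.sin (y - b₁))), ?_, ?_⟩
  · rw [deriv_SS_of_nonpos (t := 1 - 10 * (2 - Real.cos (x - a₂) - Real.cos (y - b₂)))
      (by linarith)]
    have := deriv_SS_pos hD1 hD2
    have h3 : 0 < deriv SS (1 - 10 * D) * (Real.sin (x - a₁) * Real.sin (x - a₁) +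
      Real.sin (y - b₁) * Real.sin (y - b₁)) := mul_pos this hs
    nlinarith
  · have h5 := (core_hasDerivAt_line a₁ b₁ x y (Real.sin (x - a₁)) (Real.sin (y - b₁))).add
      (core_hasDerivAt_line a₂ b₂ x y (Real.sin (x - a₁)) (Real.sin (y - b₁)))
    have h6 := (h5.const_mul (7 / 100 : ℝ)).const_add (-(65 / 1000) : ℝ)
    refine h6.congr_of_eventuallyEq (Filter.Eventually.of_forall fun t => ?_)
    show fB a₁ b₁ a₂ b₂ (angxy 0 (x + t * Real.sin (x - a₁)) (y + t * Real.sin (y - b₁))) = _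
    rw [core_fB_angxy _ _ _ _ _ _ h01, cc_of_small (by norm_num)]
    simp only [Pi.add_apply]
    ring

theorem core_fB_symm (a₁ b₁ a₂ b₂ : ℝ) : fB a₁ b₁ a₂ b₂ = fB a₂ b₂ a₁ b₁ := by
  funext m
  unfold fB
  rw [add_comm (bump (DD a₁ b₁ m))]

theorem core_reg_fB {a₁ b₁ a₂ b₂ : ℝ} (hc : Real.cos (a₂ - a₁) ≤ -(1 / 2)) (m : ℂ × ℂ)
    (hm : Complex.normSq m.1 + Complex.normSq m.2 = 1) (h : fB a₁ b₁ a₂ b₂ m = 0) :
    RegS (fB a₁ b₁ a₂ b₂) m := by
  by_cases hh : |hgt m| < 1 / 2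
  · have hh1 : |hgt m| < 1 := by linarith
    obtain ⟨x, y, hxy⟩ := exists_angxy hm hh1
    set k := hgt m with hk
    rw [hxy] at h ⊢
    rw [core_fB_angxy _ _ _ _ _ _ hh1] at h
    have hcc : ∀ s : ℝ, |s| < 1 / 2 → cc s = 1 := by
      intro s hs
      apply cc_of_small
      rw [abs_lt] at hs
      nlinarith [hs.1, hs.2]
    by_cases h0 : k = 0
    · rw [h0] at h ⊢
      rw [hcc 0 (by norm_num)] at h
      have h5 : bump (2 - Real.cos (x - a₁) - Real.cos (y - b₁)) +
          bump (2 - Real.cos (x - a₂) - Real.cos (y - b₂)) = 13 / 14 := by linarith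
      rcases core_disj (x := x) (y := y) (b₁ := b₁) (b₂ := b₂) hc with h6 | h6
      · rw [core_fB_symm]
        exact core_reg_aux h6 (by linarith)
      · exact core_reg_aux h6 h5
    · obtain ⟨k1, k2, k3⟩ := curve_h x y hh1
      refine ⟨fun t : ℝ => angxy (k + t) x y, k1, k2, k3.mono fun t ht => ht.2, 2 * k,
        by simpa using h0, ?_⟩
      set K : ℝ := 7 / 100 * (bump (2 - Real.cos (x - a₁) - Real.cos (y - b₁)) +
          bump (2 - Real.cos (x - a₂) - Real.cos (y - b₂))) with hK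
      have h5 : HasDerivAt (fun t : ℝ => (k + t) ^ 2 - 65 / 1000 + K) (2 * k) 0 := by
        have h6 : HasDerivAt (fun t : ℝ => k + t) 1 0 := by
          simpa using (hasDerivAt_id (0 : ℝ)).const_add k
        have h7 := ((h6.pow 2).sub_const (65 / 1000)).add_const K
        exact h7.congr_deriv (by simp)
      have hnear : ∀ᶠ t in 𝓝 (0 : ℝ), |k + t| < 1 / 2 := by
        have hcont : ContinuousAt (fun t : ℝ => |k + t|) 0 := by fun_prop
        have : (fun t : ℝ => |k + t|) 0 < 1 / 2 := by simpa using hh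
        exact hcont.eventually_lt continuousAt_const this
      refine h5.congr_of_eventuallyEq (hnear.mono fun t ht => ?_)
      show fB a₁ b₁ a₂ b₂ (angxy (k + t) x y) = _
      rw [core_fB_angxy _ _ _ _ _ _ (by linarith), hcc _ ht, ← hK]
      ring
  · exfalso
    push Not at hh
    unfold fB at h
    have h1 : 1 / 4 ≤ hgt m ^ 2 := by
      rw [← sq_abs]
      nlinarith
    have h2 := cc_nonneg (hgt m)
    have h3 := core_bump_nonneg (DD a₁ b₁ m)
    have h4 := core_bump_nonneg (DD a₂ b₂ m)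
    have h5 : 0 ≤ cc (hgt m) * (7 / 100 * (bump (DD a₁ b₁ m) + bump (DD a₂ b₂ m))) := by
      positivity
    linarith

theorem core_pos_fB {a₁ b₁ a₂ b₂ : ℝ} (h1 : Real.cos a₁ ≤ -(1 / 2)) (h2 : Real.cos b₂ ≤ -(1 / 2))
    (m : ℂ × ℂ) (hm : Complex.normSq m.1 + Complex.normSq m.2 = 1) (h : fB a₁ b₁ a₂ b₂ m = 0) :
    0 < rho m := by
  by_contra hr
  push Not at hr
  by_cases hh : |hgt m| < 1
  · obtain ⟨x, y, hxy⟩ := exists_angxy hm hh
    set k := hgt m with hk
    rw [hxy] at h hr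
    rw [core_fB_angxy _ _ _ _ _ _ hh] at h
    rw [rho_angxy _ _ hh] at hr
    have g1 := cc_nonneg k
    have g2 := cc_le_one k
    have g3 := bt_nonneg (2 - Real.cos x - Real.cos y)
    have g4 := bt_le (2 - Real.cos x - Real.cos y)
    have g5 : cc k * bt (2 - Real.cos x - Real.cos y) ≤ bt (2 - Real.cos x - Real.cos y) := by
      nlinarith
    have hu : 2 - Real.cos x - Real.cos y < 1 / 100 := by
      by_contra hcon
      rw [bt_eq_zero (not_lt.mp hcon)] at g5 hr
      nlinarith [sq_nonneg k]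
    have c1 := Real.cos_le_one x
    have c2 := Real.cos_le_one y
    have s1 := Real.sin_sq_add_cos_sq x
    have s2 := Real.sin_sq_add_cos_sq y
    have hx : 99 / 100 < Real.cos x := by linarith
    have hy : 99 / 100 < Real.cos y := by linarith
    have hsx : |Real.sin x| ≤ 15 / 100 := by
      apply abs_le_of_sq_le_sq _ (by norm_num)
      nlinarith
    have hsy : |Real.sin y| ≤ 15 / 100 := by
      apply abs_le_of_sq_le_sq _ (by norm_num)
      nlinarith
    have key : ∀ {x a : ℝ}, 99 / 100 < Real.cos x → |Real.sin x| ≤ 15 / 100 →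
        Real.cos a ≤ -(1 / 2) → Real.cos (x - a) ≤ 0 := by
      intro x a hx hs ha
      rw [Real.cos_sub]
      have t1 : Real.sin x * Real.sin a ≤ 15 / 100 := by
        have := abs_mul (Real.sin x) (Real.sin a)
        have t2 := Real.abs_sin_le_one a
        have t3 : |Real.sin x| * |Real.sin a| ≤ 15 / 100 := by
          have := abs_nonneg (Real.sin x)
          have := abs_nonneg (Real.sin a)
          nlinarith
        linarith [le_abs_self (Real.sin x * Real.sin a)]
      nlinarith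
    have hD1 := key hx hsx h1
    have hD2 := key hy hsy h2
    have c3 := Real.cos_le_one (y - b₁)
    have c4 := Real.cos_le_one (x - a₂)
    rw [core_bump_zero (by linarith), core_bump_zero (by linarith)] at h
    nlinarith
  · push Not at hh
    rw [(values_core hh).1] at hr
    nlinarith [sq_nonneg (hgt m)]

theorem contDiff_f3 : ContDiff ℝ ∞ (fun q : ℝ × (ℂ × ℂ) => f3 q.1 q.2) := by
  have h1 := contDiff_cutoff (E := ℝ × (ℂ × ℂ)) (fun q => q.2) contDiff_snd
    (fun q => 7 / 100 * (bump (2 - (q.2.1 * Real.cos (2 * Real.pi / 3 + q.1.1 * Real.pi / 3) +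
        q.2.2.1 * Real.sin (2 * Real.pi / 3 + q.1.1 * Real.pi / 3)) -
        (q.2.2.2.1 * Real.cos (2 * Real.pi / 3 * (1 - q.1.1)) +
          q.2.2.2.2 * Real.sin (2 * Real.pi / 3 * (1 - q.1.1)))) +
      bump (2 - (q.2.1 * Real.cos (4 * Real.pi / 3 + 2 * Real.pi * q.1.1 / 3) +
        q.2.2.1 * Real.sin (4 * Real.pi / 3 + 2 * Real.pi * q.1.1 / 3)) -
        (q.2.2.2.1 * Real.cos (4 * Real.pi / 3 - Real.pi * q.1.1 / 3) +
          q.2.2.2.2 * Real.sin (4 * Real.pi / 3 - Real.pi * q.1.1 / 3))))) (by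
      refine contDiff_const.mul (ContDiff.add (core_contDiff_bump.comp ?_)
        (core_contDiff_bump.comp ?_)) <;> fun_prop)
  have h2 : ContDiff ℝ ∞ (fun q : ℝ × (ℂ × ℂ) => hgt q.2 ^ 2 - 65 / 1000) :=
    ((contDiff_hgt.comp contDiff_snd).pow 2).sub contDiff_const
  exact h2.add h1

theorem f3_act (t : ℝ) (x : C3) : f3 t (pr (act x)) = f3 t (pr x) := by
  obtain ⟨h1, h2, h3, h4⟩ := phases_act x
  unfold f3 fB DD
  rw [h1, h2, h3, h4, hgt_act]

theorem pos_f3 (t : ℝ) (ht : t ∈ Icc (0 : ℝ) 1) (m : ℂ × ℂ)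
    (hm : Complex.normSq m.1 + Complex.normSq m.2 = 1) (h : f3 t m = 0) : 0 < rho m := by
  obtain ⟨h0, h1⟩ := ht
  have hp := Real.pi_pos
  refine core_pos_fB ?_ ?_ m hm h
  · apply core_cos_le
    · have : 0 ≤ t * Real.pi := by positivity
      linarith
    · nlinarith
  · apply core_cos_le'
    · nlinarith
    · have : 0 ≤ Real.pi * t := by positivity
      linarith

theorem reg_f3 (t : ℝ) (ht : t ∈ Icc (0 : ℝ) 1) (m : ℂ × ℂ)
    (hm : Complex.normSq m.1 + Complex.normSq m.2 = 1) (h : f3 t m = 0) : RegS (f3 t) m := by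
  obtain ⟨h0, h1⟩ := ht
  have hp := Real.pi_pos
  refine core_reg_fB ?_ m hm h
  apply core_cos_le
  · have : 0 ≤ Real.pi * t := by positivity
    linarith
  · nlinarith

/-- The end of the path is symmetric. -/
theorem f3_one_kap (m : ℂ × ℂ) : f3 1 (kap m) = f3 1 m := by
  obtain ⟨h1, h2, h3, h4⟩ := phases_kap m
  have e1 : 2 * Real.pi / 3 + 1 * Real.pi / 3 = Real.pi := by ring
  have e2 : 2 * Real.pi / 3 * (1 - 1) = 0 := by ring
  have e3 : 4 * Real.pi / 3 + 2 * Real.pi * 1 / 3 = 2 * Real.pi := by ring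
  have e4 : 4 * Real.pi / 3 - Real.pi * 1 / 3 = Real.pi := by ring
  unfold f3 fB
  rw [e1, e2, e3, e4, hgt_kap, cc_neg]
  have k1 : DD Real.pi 0 (kap m) = DD (2 * Real.pi) Real.pi m := by
    unfold DD
    rw [h1, h2, h3, h4, Real.cos_pi, Real.sin_pi, Real.cos_zero, Real.sin_zero, Real.cos_two_pi,
      Real.sin_two_pi]
    ring
  have k2 : DD (2 * Real.pi) Real.pi (kap m) = DD Real.pi 0 m := by
    unfold DD
    rw [h1, h2, h3, h4, Real.cos_pi, Real.sin_pi, Real.cos_zero, Real.sin_zero, Real.cos_two_pi,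
      Real.sin_two_pi]
    ring
  rw [k1, k2]
  ring

end Pool.Agent.Tri
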