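import Mathlib
import Pool.Agent.H.MP_5efd29_gt.CorA
import Pool.Agent.H.MP_5efd29_gt.CorD
import Pool.Agent.H.MP_5efd29_gt.CorE

open scoped ContDiff Topology
open Set

noncomputable section

namespace Pool.Agent.Tri

theorem corf_lam_nonneg (j : Fin 3) (m : ℂ × ℂ) : 0 ≤ lam j m := by
  unfold lam
  exact mul_nonneg (eta_nonneg _) (Lam_nonneg _)

theorem corf_set0 : {x : C3 | PhiX x = 0 ∧ GG x = 0} =
    {x : C3 | PhiX x = 0 ∧ x.2.2 = PG 0 (pr x)} := by
  ext x
  simp only [mem_ofPred_eq, GG, PG_zero, sub_eq_zero]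

theorem corf_set1 : {x : C3 | PhiX x = 0 ∧ x.2.2 = PG 1 (pr x)} =
    {x : C3 | PhiX x = 0 ∧ x.2.2 = ((PR 0 (pr x) : ℝ) : ℂ)} := by
  ext x
  simp only [mem_ofPred_eq, PG_one]

theorem corf_PR_one (m : ℂ × ℂ) : PR 1 m = ∑ j, lam j m + 1 / 20 := rfl

theorem corf_PR_pos (m : ℂ × ℂ) : 0 < PR 1 m := by
  rw [corf_PR_one]
  have : 0 ≤ ∑ j, lam j m := Finset.sum_nonneg fun j _ => corf_lam_nonneg j m
  linarith

theorem corf_PhiX_rho {x : C3} (hx : PhiX x = 0) : Complex.normSq x.2.2 = rho (pr x) := by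
  have h := congrArg Complex.im hx
  have h2 : Complex.normSq x.2.2 - rho (pr x) = 0 := h
  linarith

theorem corf_set2 : {x : C3 | PhiX x = 0 ∧ x.2.2 = ((PR 1 (pr x) : ℝ) : ℂ)} = SH f0 := by
  ext x
  simp only [mem_ofPred_eq, SH]
  constructor
  · rintro ⟨h1, h2⟩
    have h3 := corf_PhiX_rho h1
    rw [h2] at h3 ⊢
    refine ⟨h1, Complex.ofReal_im _, ?_, ?_⟩
    · rw [Complex.ofReal_re]
      exact corf_PR_pos _
    · unfold f0
      rw [Complex.normSq_ofReal, corf_PR_one] at h3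
      rw [← h3]
      ring
  · rintro ⟨h1, h2, h3, h4⟩
    refine ⟨h1, ?_⟩
    have h5 := corf_PhiX_rho h1
    unfold f0 at h4
    rw [← corf_PR_one, ← h5, Complex.normSq_apply, h2] at h4
    have h6 := corf_PR_pos (pr x)
    have h7 : x.2.2.re = PR 1 (pr x) := by
      have h8 : (x.2.2.re - PR 1 (pr x)) * (x.2.2.re + PR 1 (pr x)) = 0 := by
        linear_combination h4
      rcases mul_eq_zero.mp h8 with h9 | h9
      · linarith
      · linarith
    apply Complex.ext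
    · rw [Complex.ofReal_re]; exact h7
    · rw [Complex.ofReal_im]; exact h2

theorem corf_f1_zero : f1 0 = f0 := by
  funext m
  unfold f1
  ring

theorem corf_f1_one : f1 1 = fA := by
  funext m
  unfold f1
  ring

theorem corf_f2_zero : f2 0 = fA := by
  funext m
  unfold f2
  ring

theorem corf_f2_one : f2 1 = f3 0 := by
  funext m
  unfold f2 f3
  have e1 : 2 * Real.pi / 3 + 0 * Real.pi / 3 = 2 * Real.pi / 3 := by ring
  have e2 : 2 * Real.pi / 3 * (1 - 0) = 2 * Real.pi / 3 := by ring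
  have e3 : 4 * Real.pi / 3 + 2 * Real.pi * 0 / 3 = 4 * Real.pi / 3 := by ring
  have e4 : 4 * Real.pi / 3 - Real.pi * 0 / 3 = 4 * Real.pi / 3 := by ring
  rw [e1, e2, e3, e4]
  ring

theorem corf_path_G : CoreEquiv {x : C3 | PhiX x = 0 ∧ x.2.2 = PG 0 (pr x)}
    {x : C3 | PhiX x = 0 ∧ x.2.2 = PG 1 (pr x)} :=
  section_path PG contDiff_PG PG_act (fun t _ m hm h => reg_PG t m hm h)

theorem corf_path_R : CoreEquiv {x : C3 | PhiX x = 0 ∧ x.2.2 = ((PR 0 (pr x) : ℝ) : ℂ)}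
    {x : C3 | PhiX x = 0 ∧ x.2.2 = ((PR 1 (pr x) : ℝ) : ℂ)} := by
  refine section_path (fun t m => ((PR t m : ℝ) : ℂ)) (funb1_contDiff_ofReal.comp contDiff_PR)
    (fun t x => by simp only [PR_act]) (fun t ht m hm h => ?_)
  have e : ∀ m : ℂ × ℂ, Complex.normSq ((PR t m : ℝ) : ℂ) = PR t m ^ 2 := by
    intro m
    rw [Complex.normSq_ofReal]
    ring
  have e2 : (fun m : ℂ × ℂ => rho m - Complex.normSq ((PR t m : ℝ) : ℂ)) =
      (fun m => rho m - PR t m ^ 2) := by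
    funext m
    rw [e]
  rw [e2]
  exact reg_PR t ht m hm (by rw [← e]; exact h)

/-- The isotopy of the core to a symmetric position. -/
theorem core_path : CoreEquiv {x | PhiX x = 0 ∧ GG x = 0} (SH (f3 1)) := by
  have h1 := corf_path_G
  rw [← corf_set0, corf_set1] at h1
  have h2 := corf_path_R
  rw [corf_set2, ← corf_f1_zero] at h2
  have h3 := sheet_path f1 contDiff_f1 f1_act pos_f1 reg_f1
  have h4 := sheet_path f2 contDiff_f2 f2_act pos_f2 reg_f2
  rw [corf_f2_zero, ← corf_f1_one, corf_f2_one] at h4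
  have h5 := sheet_path f3 contDiff_f3 f3_act pos_f3 reg_f3
  exact (((h1.trans h2).trans h3).trans h4).trans h5

/-- the symmetry of the covering -/
def corf_psi (x : C3) : C3 := (x.2.1, (starRingEnd ℂ) x.1, (starRingEnd ℂ) x.2.2)

def corf_psi' (x : C3) : C3 := ((starRingEnd ℂ) x.2.1, x.1, (starRingEnd ℂ) x.2.2)

theorem corf_contDiff_psi : ContDiff ℝ ∞ corf_psi := by
  unfold corf_psi
  refine ContDiff.prodMk (contDiff_fst.comp contDiff_snd) (ContDiff.prodMk
    (funb1_contDiff_conj.comp contDiff_fst) (funb1_contDiff_conj.comp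
      (contDiff_snd.comp contDiff_snd)))

theorem corf_contDiff_psi' : ContDiff ℝ ∞ corf_psi' := by
  unfold corf_psi'
  refine ContDiff.prodMk (funb1_contDiff_conj.comp (contDiff_fst.comp contDiff_snd))
    (ContDiff.prodMk contDiff_fst (funb1_contDiff_conj.comp
      (contDiff_snd.comp contDiff_snd)))

theorem corf_left (x : C3) : corf_psi' (corf_psi x) = x := by
  unfold corf_psi' corf_psi
  simp

theorem corf_right (x : C3) : corf_psi (corf_psi' x) = x := by
  unfold corf_psi' corf_psi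
  simp

theorem corf_pr (x : C3) : pr (corf_psi x) = kap (pr x) := rfl

theorem corf_PhiX (x : C3) : PhiX (corf_psi x) = PhiX x := by
  unfold PhiX
  rw [corf_pr, rho_kap]
  unfold corf_psi
  simp only [Complex.normSq_conj]
  congr 1
  ring

theorem corf_conj_zeta : (starRingEnd ℂ) zeta = zeta ^ 4 := by
  have h1 : zeta * (starRingEnd ℂ) zeta = 1 := by
    rw [Complex.mul_conj, funb2_normSq_zeta]
    simp
  have h2 : zeta * zeta ^ 4 = 1 := by
    rw [← pow_succ', zeta_pow_five]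
  exact mul_left_cancel₀ funb2_zeta_ne (h1.trans h2.symm)

theorem corf_act (x : C3) : corf_psi (act x) = act (act (corf_psi x)) := by
  unfold corf_psi act
  simp only [map_mul, corf_conj_zeta]
  have h := zeta_pow_five
  refine Prod.ext ?_ (Prod.ext ?_ rfl)
  · show zeta ^ 2 * x.2.1 = zeta * (zeta * x.2.1)
    ring
  · show zeta ^ 4 * (starRingEnd ℂ) x.1 = zeta ^ 2 * (zeta ^ 2 * (starRingEnd ℂ) x.1)
    ring

theorem corf_SH (y : C3) : corf_psi y ∈ SH (f3 1) ↔ y ∈ SH (f3 1) := by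
  have e1 : (corf_psi y).2.2 = (starRingEnd ℂ) y.2.2 := rfl
  simp only [SH, mem_ofPred_eq, corf_PhiX, corf_pr, f3_one_kap, e1, Complex.conj_im,
    Complex.conj_re, neg_eq_zero]

/-- A diffeomorphism of the covering which has weight two and preserves the core. -/
theorem exists_core_map : ∃ P Q : C3 → C3, ContDiff ℝ ∞ P ∧ ContDiff ℝ ∞ Q ∧
    (∀ x, Q (P x) = x) ∧ (∀ x, P (Q x) = x) ∧ (∀ x, PhiX (P x) = PhiX x) ∧
    (∀ x, P (act x) = act (act (P x))) ∧ ∀ x, PhiX x = 0 → (GG (P x) = 0 ↔ GG x = 0) := by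
  obtain ⟨Θ, Ξ, h1, h2, h3, h4, h5, h6, h7⟩ := core_path
  have h5' : ∀ y, PhiX (Ξ y) = PhiX y := by
    intro y
    rw [← h5 (Ξ y), h4]
  have h6' : ∀ y, Ξ (act y) = act (Ξ y) := by
    intro y
    have h8 : Θ (act (Ξ y)) = act y := by rw [h6, h4]
    rw [← h8, h3]
  have hP : ∀ x, PhiX (Ξ (corf_psi (Θ x))) = PhiX x := by
    intro x
    rw [h5', corf_PhiX, h5]
  refine ⟨fun x => Ξ (corf_psi (Θ x)), fun x => Ξ (corf_psi' (Θ x)),
    h2.comp (corf_contDiff_psi.comp h1), h2.comp (corf_contDiff_psi'.comp h1), fun x => ?_,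
    fun x => ?_, hP, fun x => ?_, fun x hx => ?_⟩
  · show Ξ (corf_psi' (Θ (Ξ (corf_psi (Θ x))))) = x
    rw [h4, corf_left, h3]
  · show Ξ (corf_psi (Θ (Ξ (corf_psi' (Θ x))))) = x
    rw [h4, corf_right, h3]
  · show Ξ (corf_psi (Θ (act x))) = act (act (Ξ (corf_psi (Θ x))))
    rw [h6, corf_act, h6', h6']
  · have k1 := h7 (Ξ (corf_psi (Θ x))) (by rw [hP, hx])
    have k2 := h7 x hx
    rw [h4, corf_SH] at k1
    have k3 : Ξ (corf_psi (Θ x)) ∈ {x : C3 | PhiX x = 0 ∧ GG x = 0} ↔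
        GG (Ξ (corf_psi (Θ x))) = 0 := by
      simp only [mem_ofPred_eq, hP, hx, true_and]
    have k4 : x ∈ {x : C3 | PhiX x = 0 ∧ GG x = 0} ↔ GG x = 0 := by
      simp only [mem_ofPred_eq, hx, true_and]
    exact k3.symm.trans (k1.symm.trans (k2.trans k4))

end Pool.Agent.Tri
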