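import Mathlib

open scoped Topology
open Set

noncomputable section

namespace Pool.Agent.Tri

/-- `θ` is a generator of the group of homotopy classes of maps from `A` to the circle, and this
group is infinite cyclic. -/
def GenOn {α : Type*} [TopologicalSpace α] (A : Set α) (θ : α → Circle) : Prop :=
  ContinuousOn θ A ∧
    (∀ f : α → Circle, ContinuousOn f A → ∃ n : ℤ, ∃ u : α → ℝ, ContinuousOn u A ∧
      ∀ x ∈ A, f x = θ x ^ n * Circle.exp (u x)) ∧
    ∀ (n : ℤ) (u : α → ℝ), ContinuousOn u A → (∀ x ∈ A, θ x ^ n = Circle.exp (u x)) → n = 0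

/-- The identity generates for the circle: existence. -/
theorem dega_circle_exists (f : Circle → Circle) (hf : Continuous f) :
    ∃ n : ℤ, ∃ u : Circle → ℝ, Continuous u ∧ ∀ x, f x = x ^ n * Circle.exp (u x) := by
  obtain ⟨e0, he0⟩ := Circle.exp_surjective (f (Circle.exp 0))
  obtain ⟨G, ⟨-, hG2⟩, -⟩ := Circle.isCoveringMap_exp.existsUnique_continuousMap_lifts
    (⟨fun t : ℝ => f (Circle.exp t), by fun_prop⟩ : C(ℝ, Circle)) 0 e0 he0
  have hG : ∀ t : ℝ, Circle.exp (G t) = f (Circle.exp t) := fun t => congrFun hG2 t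
  have h1 : Circle.exp (G (2 * Real.pi)) = Circle.exp (G 0) := by
    rw [hG, hG, Circle.exp_two_pi, Circle.exp_zero]
  obtain ⟨n, hn⟩ := Circle.exp_eq_exp.1 h1
  have hper : (fun t : ℝ => G (t + 2 * Real.pi)) = fun t : ℝ => G t + n * (2 * Real.pi) := by
    apply Circle.isCoveringMap_exp.eq_of_comp_eq (by fun_prop) (by fun_prop) _ (0 : ℝ) _
    · funext t
      show Circle.exp (G (t + 2 * Real.pi)) = Circle.exp (G t + n * (2 * Real.pi))
      rw [hG, Circle.exp_add_two_pi, ← hG t]
      exact Circle.exp_eq_exp.2 ⟨-n, by push_cast; ring⟩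
    · show G (0 + 2 * Real.pi) = G 0 + n * (2 * Real.pi)
      rw [zero_add, hn]
  have hper' : ∀ t : ℝ, G (t + 2 * Real.pi) = G t + n * (2 * Real.pi) := fun t => congrFun hper t
  have hu0 : Function.Periodic (fun t : ℝ => G t - n * t) (2 * Real.pi) := by
    intro t
    show G (t + 2 * Real.pi) - n * (t + 2 * Real.pi) = G t - n * t
    rw [hper' t]
    ring
  have hdesc : ∀ t : ℝ, (fun t : ℝ => G t - n * t) (Complex.arg (Circle.exp t : ℂ)) =
      (fun t : ℝ => G t - n * t) t := by
    intro t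
    obtain ⟨m, hm⟩ := Circle.exp_eq_exp.1 (Circle.exp_arg (Circle.exp t))
    have h2 := (hu0.int_mul m) t
    rw [← hm] at h2
    exact h2
  refine ⟨n, fun x => (fun t : ℝ => G t - n * t) (Complex.arg (x : ℂ)), ?_, ?_⟩
  · rw [Circle.isAddQuotientCoveringMap_exp.toIsQuotientMap.continuous_iff]
    have h3 : (fun x : Circle => (fun t : ℝ => G t - n * t) (Complex.arg (x : ℂ))) ∘ Circle.exp =
        fun t : ℝ => G t - n * t := funext hdesc
    rw [h3]
    fun_prop
  · intro x
    obtain ⟨t, rfl⟩ := Circle.exp_surjective x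
    rw [hdesc t, ← hG t, ← Circle.exp_intCast_mul, ← Circle.exp_add]
    congr 1
    ring

/-- The identity generates for the circle: uniqueness. -/
theorem dega_circle_unique (n : ℤ) (u : Circle → ℝ) (hu : Continuous u)
    (h : ∀ x : Circle, x ^ n = Circle.exp (u x)) : n = 0 := by
  have h1 : (fun t : ℝ => n * t - u (Circle.exp t)) = fun _ : ℝ => n * 0 - u (Circle.exp 0) := by
    apply Circle.isCoveringMap_exp.eq_of_comp_eq (by fun_prop) (by fun_prop) _ (0 : ℝ) _
    · funext t
      show Circle.exp (n * t - u (Circle.exp t)) = Circle.exp (n * 0 - u (Circle.exp 0))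
      rw [Circle.exp_sub, Circle.exp_sub, ← h, ← h, Circle.exp_intCast_mul,
        Circle.exp_intCast_mul, div_self', div_self']
    · rfl
  have h2 : (n : ℝ) * (2 * Real.pi) - u (Circle.exp (2 * Real.pi)) = n * 0 - u (Circle.exp 0) :=
    congrFun h1 (2 * Real.pi)
  rw [Circle.exp_two_pi, Circle.exp_zero] at h2
  have h3 : (n : ℝ) * (2 * Real.pi) = 0 := by linarith
  rcases mul_eq_zero.1 h3 with h4 | h4
  · exact_mod_cast h4
  · exact absurd h4 (by positivity)

/-- The identity generates for the circle. -/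
theorem genOn_circle : GenOn (univ : Set Circle) (fun x => x) := by
  refine ⟨continuousOn_id, ?_, ?_⟩
  · intro f hf
    obtain ⟨n, u, hu, h⟩ := dega_circle_exists f (continuousOn_univ.1 hf)
    exact ⟨n, u, hu.continuousOn, fun x _ => h x⟩
  · intro n u hu h
    exact dega_circle_unique n u (continuousOn_univ.1 hu) fun x => h x (mem_univ x)

/-- Products with a convex set. -/
theorem genOn_circle_prod {V : Type*} [NormedAddCommGroup V] [NormedSpace ℝ V] (B : Set V)
    (hB : Convex ℝ B) (h0 : B.Nonempty) :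
    GenOn ((univ : Set Circle) ×ˢ B) (fun x => x.1) := by
  obtain ⟨b0, hb0⟩ := h0
  refine ⟨continuous_fst.continuousOn, ?_, ?_⟩
  · intro f hf
    have hf' : Continuous (fun a : ((univ : Set Circle) ×ˢ B : Set (Circle × V)) => f a) :=
      continuousOn_iff_continuous_domRestrict.1 hf
    have hmem : ∀ (t : unitInterval) (a : ((univ : Set Circle) ×ˢ B : Set (Circle × V))),
        (a.1.1, (1 - (t : ℝ)) • b0 + (t : ℝ) • a.1.2) ∈ ((univ : Set Circle) ×ˢ B) := by
      intro t a
      exact ⟨mem_univ _, hB hb0 a.2.2 (by have := t.2.2; linarith) t.2.1 (by ring)⟩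
    have hmem0 : ∀ x : Circle, (x, b0) ∈ ((univ : Set Circle) ×ˢ B) := fun x =>
      ⟨mem_univ _, hb0⟩
    have hfb : Continuous (fun x : Circle => f (x, b0)) := by
      have h1 : Continuous (fun x : Circle =>
          (⟨(x, b0), hmem0 x⟩ : ((univ : Set Circle) ×ˢ B : Set (Circle × V)))) := by
        fun_prop
      exact hf'.comp h1
    obtain ⟨n, w, hw, hnw⟩ := dega_circle_exists (fun x => f (x, b0)) hfb
    have hH : Continuous (fun q : unitInterval × ((univ : Set Circle) ×ˢ B : Set (Circle × V)) =>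
        f (q.2.1.1, (1 - (q.1 : ℝ)) • b0 + (q.1 : ℝ) • q.2.1.2) / f (q.2.1.1, b0)) := by
      apply Continuous.div'
      · have h1 : Continuous (fun q : unitInterval ×
            ((univ : Set Circle) ×ˢ B : Set (Circle × V)) =>
            (⟨(q.2.1.1, (1 - (q.1 : ℝ)) • b0 + (q.1 : ℝ) • q.2.1.2), hmem q.1 q.2⟩ :
              ((univ : Set Circle) ×ˢ B : Set (Circle × V)))) := by
          fun_prop
        exact hf'.comp h1
      · exact hfb.comp (by fun_prop)
    let H : C(unitInterval × ((univ : Set Circle) ×ˢ B : Set (Circle × V)), Circle) := ⟨_, hH⟩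
    have hH0 : ∀ a, H (0, a) = Circle.exp
        ((ContinuousMap.const ((univ : Set Circle) ×ˢ B : Set (Circle × V)) (0 : ℝ)) a) := by
      intro a
      show f (a.1.1, (1 - ((0 : unitInterval) : ℝ)) • b0 + ((0 : unitInterval) : ℝ) • a.1.2) /
        f (a.1.1, b0) = Circle.exp 0
      simp
    have hK := Circle.isCoveringMap_exp.liftHomotopy_lifts H _ hH0
    set K := Circle.isCoveringMap_exp.liftHomotopy H _ hH0 with hKdef
    have hK1 : ∀ a : ((univ : Set Circle) ×ˢ B : Set (Circle × V)),
        Circle.exp (K (1, a)) = f a / f (a.1.1, b0) := by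
      intro a
      have h2 := congrFun hK (1, a)
      have h3 : H (1, a) = f (a.1.1, (1 - ((1 : unitInterval) : ℝ)) • b0 +
        ((1 : unitInterval) : ℝ) • a.1.2) / f (a.1.1, b0) := rfl
      rw [h3] at h2
      simpa using h2
    classical
    refine ⟨n, fun p => if hp : p ∈ ((univ : Set Circle) ×ˢ B) then K (1, ⟨p, hp⟩) + w p.1 else 0,
      ?_, ?_⟩
    · rw [continuousOn_iff_continuous_domRestrict]
      have h4 : ((univ : Set Circle) ×ˢ B).domRestrict (fun p => if hp : p ∈
          ((univ : Set Circle) ×ˢ B) then K (1, ⟨p, hp⟩) + w p.1 else 0) =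
          fun a => K (1, a) + w a.1.1 := by
        funext a
        rw [Set.domRestrict_apply, dif_pos a.2]
      rw [h4]
      fun_prop
    · intro p hp
      show f p = p.1 ^ n * Circle.exp (dite _ _ _)
      rw [dif_pos hp, Circle.exp_add, hK1 ⟨p, hp⟩]
      have h5 := hnw p.1
      show f p = p.1 ^ n * (f p / f (p.1, b0) * Circle.exp (w p.1))
      rw [h5, div_mul_eq_mul_div, mul_comm (p.1 ^ n) _, div_mul_eq_mul_div, mul_assoc,
        mul_comm (Circle.exp (w p.1)), mul_div_assoc, div_self', mul_one]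
  · intro n u hu h
    have hmem0 : ∀ x : Circle, (x, b0) ∈ ((univ : Set Circle) ×ˢ B) := fun x =>
      ⟨mem_univ _, hb0⟩
    have hub : Continuous (fun x : Circle => u (x, b0)) := by
      have h1 : Continuous (fun x : Circle =>
          (⟨(x, b0), hmem0 x⟩ : ((univ : Set Circle) ×ˢ B : Set (Circle × V)))) := by
        fun_prop
      exact (continuousOn_iff_continuous_domRestrict.1 hu).comp h1
    exact dega_circle_unique n _ hub fun x => h (x, b0) (hmem0 x)

/-- Transport of a generator along a homeomorphism. -/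
theorem GenOn.transport {α β : Type*} [TopologicalSpace α] [TopologicalSpace β] {A : Set α}
    {B : Set β} {θ : β → Circle} (h : GenOn B θ) (f : α → β) (g : β → α)
    (hf : ContinuousOn f A) (hg : ContinuousOn g B) (hfm : MapsTo f A B) (hgm : MapsTo g B A)
    (hgf : ∀ x ∈ A, g (f x) = x) (hfg : ∀ y ∈ B, f (g y) = y) :
    GenOn A (fun x => θ (f x)) := by
  refine ⟨h.1.comp hf hfm, ?_, ?_⟩
  · intro k hk
    obtain ⟨n, u, hu, hn⟩ := h.2.1 (fun y => k (g y)) (hk.comp hg hgm)
    refine ⟨n, fun x => u (f x), hu.comp hf hfm, fun x hx => ?_⟩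
    have h1 := hn (f x) (hfm hx)
    simp only [hgf x hx] at h1
    exact h1
  · intro n u hu hn
    refine h.2.2 n (fun y => u (g y)) (hu.comp hg hgm) fun y hy => ?_
    have h1 := hn (g y) (hgm hy)
    simp only [hfg y hy] at h1
    exact h1

/-- Two generators differ by a sign and a homotopy. -/
theorem GenOn.unique {α : Type*} [TopologicalSpace α] {A : Set α} {θ θ' : α → Circle}
    (h : GenOn A θ) (h' : GenOn A θ') :
    ∃ n : ℤ, (n = 1 ∨ n = -1) ∧ ∃ u : α → ℝ, ContinuousOn u A ∧
      ∀ x ∈ A, θ' x = θ x ^ n * Circle.exp (u x) := by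
  obtain ⟨n, u, hu, hn⟩ := h.2.1 θ' h'.1
  obtain ⟨m, v, hv, hm⟩ := h'.2.1 θ h.1
  have h1 : n * m - 1 = 0 := by
    refine h.2.2 (n * m - 1) (fun x => -(m * u x + v x)) (by fun_prop) fun x hx => ?_
    have h2 := hm x hx
    rw [hn x hx, mul_zpow, ← zpow_mul, ← Circle.exp_intCast_mul] at h2
    show θ x ^ (n * m - 1) = Circle.exp (-(m * u x + v x))
    rw [zpow_sub, zpow_one, Circle.exp_neg, Circle.exp_add]
    have h3 : θ x ^ (n * m) = θ x * (Circle.exp (m * u x) * Circle.exp (v x))⁻¹ := by
      rw [eq_mul_inv_iff_mul_eq, ← mul_assoc]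
      exact h2.symm
    rw [h3, mul_inv_cancel_comm]
  have h4 : n = 1 ∨ n = -1 := Int.eq_one_or_neg_one_of_mul_eq_one (by linarith : n * m = 1)
  exact ⟨n, h4, u, hu, hn⟩

end Pool.Agent.Tri
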