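import Mathlib
import Pool.Agent.H.MP_5efd29_gt.DegA

open scoped Topology
open Set

noncomputable section

namespace Pool.Agent.Tri

/-- Homotopic maps from a compact set to the circle differ by the exponential of a real
function. -/
theorem exists_log_of_homotopy {α : Type*} [TopologicalSpace α] {A : Set α} (hA : IsCompact A)
    (h : ℝ × α → Circle) (hh : ContinuousOn h (Icc (0 : ℝ) 1 ×ˢ A)) :
    ∃ u : α → ℝ, ContinuousOn u A ∧ ∀ x ∈ A, h (1, x) = h (0, x) * Circle.exp (u x) := by
  classical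
  have hc1 : Continuous fun q : unitInterval × A => h ((q.1 : ℝ), (q.2 : α)) :=
    hh.comp_continuous (by fun_prop) fun q => ⟨q.1.2, q.2.2⟩
  have hc0 : Continuous fun q : unitInterval × A => h ((0 : ℝ), (q.2 : α)) :=
    hh.comp_continuous (by fun_prop) fun q => ⟨left_mem_Icc.2 zero_le_one, q.2.2⟩
  let H : C(unitInterval × A, Circle) :=
    ⟨fun q => h ((q.1 : ℝ), (q.2 : α)) / h ((0 : ℝ), (q.2 : α)), hc1.div' hc0⟩
  have H0 : ∀ a : A, H (0, a) = Circle.exp ((ContinuousMap.const A (0 : ℝ)) a) := by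
    intro a
    change h ((0 : ℝ), (a : α)) / h ((0 : ℝ), (a : α)) = Circle.exp 0
    rw [div_self', Circle.exp_zero]
  let K := Circle.isCoveringMap_exp.liftHomotopy H (ContinuousMap.const A (0 : ℝ)) H0
  have hK : ∀ q, Circle.exp (K q) = H q := fun q =>
    congrFun (Circle.isCoveringMap_exp.liftHomotopy_lifts H (ContinuousMap.const A (0 : ℝ)) H0) q
  refine ⟨fun x => if hx : x ∈ A then K (1, ⟨x, hx⟩) else 0, ?_, ?_⟩
  · rw [continuousOn_iff_continuous_domRestrict]
    have h1 : A.domRestrict (fun x => if hx : x ∈ A then K (1, ⟨x, hx⟩) else 0) =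
        fun a : A => K (1, a) := by
      funext a
      rw [domRestrict_apply, dif_pos a.2]
    rw [h1]
    exact K.continuous.comp (by fun_prop)
  · intro x hx
    simp only [hx, dite_true]
    rw [hK]
    change h (1, x) = h (0, x) * (h ((1 : ℝ), x) / h (0, x))
    rw [mul_div_cancel]

/-- Comparison of weights: `a` is a map of period five on the connected set `A`. -/
theorem weight_eq {α : Type*} [TopologicalSpace α] {A : Set α} (hA : IsPreconnected A)
    (hne : A.Nonempty) (a : α → α) (ha : ContinuousOn a A) (ham : MapsTo a A A)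
    (ha5 : ∀ x ∈ A, a (a (a (a (a x)))) = x) (θ f : α → Circle) (c d : Circle) (n : ℤ)
    (u : α → ℝ) (hu : ContinuousOn u A) (hθ : ∀ x ∈ A, θ (a x) = c * θ x)
    (hf : ∀ x ∈ A, f (a x) = d * f x) (hfe : ∀ x ∈ A, f x = θ x ^ n * Circle.exp (u x)) :
    d = c ^ n := by
  obtain ⟨x0, hx0⟩ := hne
  have key : ∀ x ∈ A, Circle.exp (u (a x) - u x) = d / c ^ n := by
    intro x hx
    have h1 := hfe (a x) (ham hx)
    rw [hf x hx, hfe x hx, hθ x hx, mul_zpow] at h1
    rw [Circle.exp_sub, div_eq_div_iff_mul_eq_mul]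
    have h2 : θ x ^ n * (Circle.exp (u (a x)) * c ^ n) = θ x ^ n * (d * Circle.exp (u x)) := by
      calc θ x ^ n * (Circle.exp (u (a x)) * c ^ n)
          = c ^ n * θ x ^ n * Circle.exp (u (a x)) := by
            rw [mul_comm (Circle.exp (u (a x))), ← mul_assoc, mul_comm (θ x ^ n)]
        _ = d * (θ x ^ n * Circle.exp (u x)) := h1.symm
        _ = θ x ^ n * (d * Circle.exp (u x)) := by
            rw [← mul_assoc, mul_comm d, mul_assoc]
    exact mul_left_cancel h2
  have hw : ContinuousOn (fun x => u (a x) - u x) A := (hu.comp ha ham).sub hu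
  have hd : IsDiscrete (Circle.exp ⁻¹' {d / c ^ n} : Set ℝ) :=
    isDiscrete_iff_discreteTopology.2 (Circle.isCoveringMap_exp (d / c ^ n)).1
  have hconst : ∀ x ∈ A, u (a x) - u x = u (a x0) - u x0 := by
    intro x hx
    exact hA.constant_of_mapsTo hd hw (fun y hy => key y hy) hx hx0
  have e0 := hconst x0 hx0
  have m1 := ham hx0
  have m2 := ham m1
  have m3 := ham m2
  have m4 := ham m3
  have e1 := hconst _ m1
  have e2 := hconst _ m2
  have e3 := hconst _ m3
  have e4 := hconst _ m4
  rw [ha5 x0 hx0] at e4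
  have hz : u (a x0) - u x0 = 0 := by linarith
  have h3 := key x0 hx0
  rw [hz, Circle.exp_zero] at h3
  exact (div_eq_one.1 h3.symm)

end Pool.Agent.Tri
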