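import Mathlib
import Pool.Agent.H.MP_5efd29_gt.Setup

open scoped ContDiff Topology
open Set

noncomputable section

namespace Pool.Agent.Tri

/-! ### The pieces and the families of functions -/

/-- The smoothed pieces upstairs. -/
def RR (i : Fin 3) (ε : ℝ) : Set C3 := {x | PhiX x = 0 ∧ GG x ∈ smoothSector i ε}

/-- The coordinate of family A (at time `t` the other two functions `lam` are multiplied by
`1 - t`). -/
def uA (i : Fin 3) (q : ℝ × C3) : ℂ :=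
  (starRingEnd ℂ) (dir i) * (q.2.2.2 - ∑ j, (((if j = i then 1 else 1 - q.1) * lam j (pr q.2) : ℝ) : ℂ) * dir j)

def FA (i : Fin 3) (e : ℝ) (q : ℝ × C3) : ℝ :=
  (uA i q).re - Real.sqrt ((uA i q).im ^ 2 / 3 + e)

/-- The family in the parameter `ε`. -/
def FAe (i : Fin 3) (a b : ℝ) (q : ℝ × C3) : ℝ :=
  (uA i (0, q.2)).re - Real.sqrt ((uA i (0, q.2)).im ^ 2 / 3 + Real.exp ((1 - q.1) * a + q.1 * b))

def FB (j : Fin 3) (e : ℝ) (q : ℝ × C3) : ℝ :=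
  hgt (pr q.2) ^ 2 + 1 / 100 - cc (hgt (pr q.2)) * bt (uu (pr q.2) + q.1) - q.2.2.2.re ^ 2 -
    (lam j (pr q.2) + Real.sqrt (q.2.2.2.re ^ 2 / 3 + e)) ^ 2

def FC (j : Fin 3) (e : ℝ) (q : ℝ × C3) : ℝ :=
  hgt (pr q.2) ^ 2 + 1 / 100 - q.2.2.2.re ^ 2 -
    (lam j (pr q.2) + (1 - q.1) * Real.sqrt (q.2.2.2.re ^ 2 / 3 + e)) ^ 2

def QQ (j : Fin 3) (κ : ℝ) (x : C3) : ℝ :=
  if j = 0 then (x.1 ^ 2 * (starRingEnd ℂ) x.2.1).re * Real.exp (κ * Complex.normSq x.2.1)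
  else (x.1 ^ 3 * x.2.1).re * Real.exp (2 * κ * Complex.normSq x.2.1)

def FD (j : Fin 3) (q : ℝ × C3) : ℝ :=
  (1 - q.1) * (hgt (pr q.2) ^ 2 + 1 / 100 - q.2.2.2.re ^ 2 - lam j (pr q.2) ^ 2) +
    q.1 * (3 / 10 - QQ j 1 q.2 - q.2.2.2.re ^ 2)

def FE (j : Fin 3) (q : ℝ × C3) : ℝ := 3 / 10 - QQ j (1 - q.1) q.2 - q.2.2.2.re ^ 2

def FF (j : Fin 3) (q : ℝ × C3) : ℝ :=
  3 / 10 - ((1 - q.1) * QQ j 0 q.2 + q.1 * Complex.normSq q.2.1) - q.2.2.2.re ^ 2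

/-- The weights of the three pieces. -/
def ee (i : Fin 3) : ℕ := ![1, 1, 2] i

end Pool.Agent.Tri
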