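import Mathlib
import Pool.Agent.H.MP_5efd29_gt.FamDefs
import Pool.Agent.H.MP_5efd29_gt.FunB

open scoped ContDiff Topology
open Set

noncomputable section

namespace Pool.Agent.Tri

theorem fama1_sum (i : Fin 3) : ContDiff ℝ ∞ (fun q : ℝ × C3 =>
    ∑ j, (((if j = i then 1 else 1 - q.1) * lam j (pr q.2) : ℝ) : ℂ) * dir j) := by
  apply ContDiff.sum
  intro j _
  have h1 : ContDiff ℝ ∞ (fun q : ℝ × C3 => (if j = i then (1 : ℝ) else 1 - q.1)) := by
    by_cases h : j = i
    · simp only [h, if_true]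
      exact contDiff_const
    · simp only [h, if_false]
      exact contDiff_const.sub contDiff_fst
  have h2 : ContDiff ℝ ∞ (fun q : ℝ × C3 => lam j (pr q.2)) :=
    (contDiff_lam j).comp (contDiff_pr.comp contDiff_snd)
  exact (funb1_contDiff_ofReal.comp (h1.mul h2)).mul contDiff_const

theorem fama1_dir (i : Fin 3) : (starRingEnd ℂ) (dir i) * dir i = 1 := by
  have h : dir i = Complex.exp (((2 * Real.pi * ((i : ℕ) : ℝ) / 3 : ℝ) : ℂ) * Complex.I) := by
    unfold dir
    congr 1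
    push_cast
    ring
  have h1 : ‖dir i‖ = 1 := by
    rw [h]
    exact Complex.norm_exp_ofReal_mul_I _
  rw [mul_comm, Complex.mul_conj, Complex.normSq_eq_norm_sq, h1]
  norm_num

theorem contDiff_uA (i : Fin 3) : ContDiff ℝ ∞ (uA i) := by
  have h := (contDiff_snd.comp (contDiff_snd.comp contDiff_snd)).sub (fama1_sum i)
  exact contDiff_const.mul h

theorem fama1_re (i : Fin 3) : ContDiff ℝ ∞ (fun q : ℝ × C3 => (uA i q).re) :=
  funb1_contDiff_re.comp (contDiff_uA i)

theorem fama1_im (i : Fin 3) : ContDiff ℝ ∞ (fun q : ℝ × C3 => (uA i q).im) :=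
  funb1_contDiff_im.comp (contDiff_uA i)

theorem contDiff_FA (i : Fin 3) {e : ℝ} (he : 0 < e) : ContDiff ℝ ∞ (FA i e) := by
  have h : ContDiff ℝ ∞ (fun q : ℝ × C3 => Real.sqrt ((uA i q).im ^ 2 / 3 + e)) := by
    apply ContDiff.sqrt
    · exact (((fama1_im i).pow 2).div_const 3).add contDiff_const
    · intro q
      positivity
  exact (fama1_re i).sub h

theorem contDiff_FAe (i : Fin 3) (a b : ℝ) : ContDiff ℝ ∞ (FAe i a b) := by
  have hz : ContDiff ℝ ∞ (fun q : ℝ × C3 => ((0 : ℝ), q.2)) := contDiff_const.prodMk contDiff_snd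
  have he : ContDiff ℝ ∞ (fun q : ℝ × C3 => Real.exp ((1 - q.1) * a + q.1 * b)) := by
    apply ContDiff.exp
    exact ((contDiff_const.sub contDiff_fst).mul contDiff_const).add
      (contDiff_fst.mul contDiff_const)
  have hre : ContDiff ℝ ∞ (fun q : ℝ × C3 => (uA i (0, q.2)).re) := (fama1_re i).comp hz
  have him : ContDiff ℝ ∞ (fun q : ℝ × C3 => (uA i (0, q.2)).im) := (fama1_im i).comp hz
  have h : ContDiff ℝ ∞ (fun q : ℝ × C3 =>
      Real.sqrt ((uA i (0, q.2)).im ^ 2 / 3 + Real.exp ((1 - q.1) * a + q.1 * b))) := by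
    apply ContDiff.sqrt
    · exact ((him.pow 2).div_const 3).add he
    · intro q
      positivity
  exact hre.sub h

theorem uA_act (i : Fin 3) (t : ℝ) (x : C3) : uA i (t, act x) = uA i (t, x) := by
  unfold uA
  simp only [lam_act]
  rfl

theorem FA_act (i : Fin 3) (e t : ℝ) (x : C3) : FA i e (t, act x) = FA i e (t, x) := by
  unfold FA
  rw [uA_act]

theorem FAe_act (i : Fin 3) (a b t : ℝ) (x : C3) :
    FAe i a b (t, act x) = FAe i a b (t, x) := by
  unfold FAe
  simp only [uA_act]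

theorem uA_zero (i : Fin 3) (x : C3) : uA i (0, x) = (starRingEnd ℂ) (dir i) * GG x := by
  unfold uA GG pp
  congr 2
  apply Finset.sum_congr rfl
  intro j _
  have h : (if j = i then (1 : ℝ) else 1 - ((0 : ℝ), x).1) = 1 := by
    by_cases h : j = i
    · rw [if_pos h]
    · rw [if_neg h]
      show (1 : ℝ) - 0 = 1
      ring
  rw [h, one_mul]

theorem uA_one (i : Fin 3) (x : C3) :
    uA i (1, x) = (starRingEnd ℂ) (dir i) * x.2.2 - (lam i (pr x) : ℂ) := by
  unfold uA
  have h : ∑ j, (((if j = i then 1 else 1 - ((1 : ℝ), x).1) * lam j (pr ((1 : ℝ), x).2) : ℝ) : ℂ) *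
      dir j = (lam i (pr x) : ℂ) * dir i := by
    rw [Finset.sum_eq_single i]
    · rw [if_pos rfl, one_mul]
    · intro j _ hj
      rw [if_neg hj]
      have : (1 : ℝ) - ((1 : ℝ), x).1 = 0 := sub_self _
      rw [this, zero_mul, Complex.ofReal_zero, zero_mul]
    · intro h
      exact absurd (Finset.mem_univ i) h
  rw [h, mul_sub]
  have h2 := fama1_dir i
  have h3 : (starRingEnd ℂ) (dir i) * ((lam i (pr x) : ℂ) * dir i) = (lam i (pr x) : ℂ) := by
    linear_combination (lam i (pr x) : ℂ) * h2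
  rw [h3]

theorem FAe_eq (i : Fin 3) (a b t : ℝ) (x : C3) :
    FAe i a b (t, x) = FA i (Real.exp ((1 - t) * a + t * b)) (0, x) := rfl

/-- The smoothed sectors are the non-negativity regions of the functions `FA` at time zero. -/
theorem mem_smoothSector_iff (i : Fin 3) {ε : ℝ} (hε : 0 < ε) (x : C3) :
    GG x ∈ smoothSector i ε ↔ 0 ≤ FA i (ε ^ 2) (0, x) := by
  have h : uA i (0, x) = rot i (GG x) := uA_zero i x
  unfold FA smoothSector
  rw [h, mem_setOf_eq, sub_nonneg, Real.sqrt_le_iff]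
  constructor
  · rintro ⟨h1, h2⟩
    exact ⟨h1, by linarith⟩
  · rintro ⟨h1, h2⟩
    exact ⟨h1, by linarith⟩

end Pool.Agent.Tri
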