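import Mathlib
import Pool.Agent.H.MP_5efd29_gt.RegX

open scoped ContDiff Topology
open Set

noncomputable section

namespace Pool.Agent.Tri

/-! ### Directional derivatives through curves -/

theorem regg_deriv {Q : Type*} [NormedAddCommGroup Q] [NormedSpace ℝ Q] {F : C3 → Q} {x : C3}
    (hF : DifferentiableAt ℝ F x) {γ : ℝ → C3} (hγ : DifferentiableAt ℝ γ 0) (hγ0 : γ 0 = x) :
    HasDerivAt (fun t => F (γ t)) (fderiv ℝ F x (deriv γ 0)) 0 := by
  subst hγ0
  exact hF.hasFDerivAt.comp_hasDerivAt 0 hγ.hasDerivAt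

theorem regg_re {F : C3 → ℂ} {x : C3}
    (hF : DifferentiableAt ℝ F x) {γ : ℝ → C3} (hγ : DifferentiableAt ℝ γ 0) (hγ0 : γ 0 = x)
    {c : ℝ} (h : HasDerivAt (fun t => (F (γ t)).re) c 0) :
    (fderiv ℝ F x (deriv γ 0)).re = c :=
  (Complex.reCLM.hasFDerivAt.comp_hasDerivAt 0 (regg_deriv hF hγ hγ0)).unique h

theorem regg_im {F : C3 → ℂ} {x : C3}
    (hF : DifferentiableAt ℝ F x) {γ : ℝ → C3} (hγ : DifferentiableAt ℝ γ 0) (hγ0 : γ 0 = x)
    {c : ℝ} (h : HasDerivAt (fun t => (F (γ t)).im) c 0) :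
    (fderiv ℝ F x (deriv γ 0)).im = c :=
  (Complex.imCLM.hasFDerivAt.comp_hasDerivAt 0 (regg_deriv hF hγ hγ0)).unique h

theorem regg_dPhiX (x : C3) : DifferentiableAt ℝ PhiX x :=
  (contDiff_PhiX.differentiable (by simp)) x

theorem regg_dGG (x : C3) : DifferentiableAt ℝ GG x :=
  (contDiff_GG.differentiable (by simp)) x

/-! ### Three directions -/

theorem regg_A (x : C3) (q : ℂ) :
    ∃ v : C3, (fderiv ℝ PhiX x v).re = 0 ∧ fderiv ℝ GG x v = q := by
  let γ : ℝ → C3 := fun t => (x.1, x.2.1, x.2.2 + t * q)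
  have h1 : HasDerivAt (fun t : ℝ => x.2.2 + t * q) q 0 := by
    have h2 : HasDerivAt (fun t : ℝ => (t : ℂ)) 1 0 := Complex.ofRealCLM.hasDerivAt
    have h3 := (h2.mul_const q).const_add x.2.2
    rwa [one_mul] at h3
  have hγ : DifferentiableAt ℝ γ 0 :=
    (differentiableAt_const _).prodMk ((differentiableAt_const _).prodMk h1.differentiableAt)
  have hγ0 : γ 0 = x := by
    change (x.1, x.2.1, x.2.2 + ((0 : ℝ) : ℂ) * q) = x
    rw [Complex.ofReal_zero, zero_mul, add_zero]
  refine ⟨deriv γ 0, regg_re (regg_dPhiX x) hγ hγ0 ?_, ?_⟩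
  · exact hasDerivAt_const (0 : ℝ) (Complex.normSq x.1 + Complex.normSq x.2.1 - 1)
  refine (regg_deriv (regg_dGG x) hγ hγ0).unique ?_
  exact h1.sub_const (pp (pr x))

theorem regg_B {x : C3} (hx : PhiX x = 0) :
    ∃ v : C3, (fderiv ℝ PhiX x v).re = 2 := by
  let γ : ℝ → C3 := fun t => (((1 + t : ℝ) : ℂ) * x.1, ((1 + t : ℝ) : ℂ) * x.2.1, x.2.2)
  have h1 : HasDerivAt (fun t : ℝ => ((1 + t : ℝ) : ℂ)) 1 0 := by
    have h2 : HasDerivAt (fun t : ℝ => 1 + t) 1 0 := (hasDerivAt_id (0 : ℝ)).const_add 1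
    have h3 := h2.ofReal_comp
    simpa using h3
  have hγ : DifferentiableAt ℝ γ 0 :=
    (h1.differentiableAt.mul_const _).prodMk
      ((h1.differentiableAt.mul_const _).prodMk (differentiableAt_const _))
  have hγ0 : γ 0 = x := by
    change (((1 + 0 : ℝ) : ℂ) * x.1, ((1 + 0 : ℝ) : ℂ) * x.2.1, x.2.2) = x
    rw [add_zero, Complex.ofReal_one, one_mul, one_mul]
  refine ⟨deriv γ 0, regg_re (regg_dPhiX x) hγ hγ0 ?_⟩
  have h3 : Complex.normSq x.1 + Complex.normSq x.2.1 = 1 := ((mem_Xt_iff x).1 hx).1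
  have h4 : (fun t => (PhiX (γ t)).re) = fun t : ℝ => (1 + t) ^ 2 - 1 := by
    funext t
    change Complex.normSq (((1 + t : ℝ) : ℂ) * x.1) + Complex.normSq (((1 + t : ℝ) : ℂ) * x.2.1) - 1
      = _
    rw [Complex.normSq_mul, Complex.normSq_mul, Complex.normSq_ofReal, ← mul_add, h3]
    ring
  rw [h4]
  have h5 := (((hasDerivAt_id (0 : ℝ)).const_add 1).pow 2).sub_const 1
  simpa using h5

theorem regg_C {x : C3} (h : GG x = 0) {μ : ℝ → ℂ × ℂ}
    (hμ : DifferentiableAt ℝ μ 0) (hμ0 : μ 0 = pr x)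
    (hμS : ∀ᶠ t in 𝓝 (0 : ℝ), Complex.normSq (μ t).1 + Complex.normSq (μ t).2 = 1) {c : ℝ}
    (hd : HasDerivAt (fun t => Complex.normSq (pp (μ t)) - rho (μ t)) c 0) :
    ∃ v : C3, (fderiv ℝ PhiX x v).re = 0 ∧ (fderiv ℝ PhiX x v).im = c ∧
      fderiv ℝ GG x v = 0 := by
  let γ : ℝ → C3 := fun t => ((μ t).1, (μ t).2, pp (μ t))
  have hpp : DifferentiableAt ℝ (fun t => pp (μ t)) 0 :=
    ((contDiff_pp.differentiable (by simp)) (μ 0)).comp 0 hμ
  have hγ : DifferentiableAt ℝ γ 0 := hμ.fst.prodMk (hμ.snd.prodMk hpp)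
  have hξ : x.2.2 = pp (pr x) := by
    unfold GG at h
    exact sub_eq_zero.1 h
  have hγ0 : γ 0 = x := by
    change ((μ 0).1, (μ 0).2, pp (μ 0)) = x
    rw [hμ0, ← hξ]
    rfl
  refine ⟨deriv γ 0, regg_re (regg_dPhiX x) hγ hγ0 ?_, regg_im (regg_dPhiX x) hγ hγ0 hd, ?_⟩
  · have h1 : (fun t => (PhiX (γ t)).re) =ᶠ[𝓝 0] fun _ => (0 : ℝ) := by
      filter_upwards [hμS] with t ht
      change Complex.normSq (μ t).1 + Complex.normSq (μ t).2 - 1 = 0
      rw [ht, sub_self]
    exact (hasDerivAt_const (0 : ℝ) (0 : ℝ)).congr_of_eventuallyEq h1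
  · refine (regg_deriv (regg_dGG x) hγ hγ0).unique ?_
    have h1 : (fun t => GG (γ t)) = fun _ => (0 : ℂ) := by
      funext t
      change pp (μ t) - pp (μ t) = 0
      rw [sub_self]
    rw [h1]
    exact hasDerivAt_const _ _

theorem regg_surj {x : C3} (hx : PhiX x = 0) {c : ℝ} (hc : c ≠ 0)
    (hC : ∃ v : C3, (fderiv ℝ PhiX x v).re = 0 ∧ (fderiv ℝ PhiX x v).im = c ∧
      fderiv ℝ GG x v = 0) : RegAt PhiX GG x := by
  obtain ⟨vC, hC1, hC2, hC3⟩ := hC
  obtain ⟨vB, hB⟩ := regg_B hx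
  rintro ⟨a, q⟩
  obtain ⟨vA, hA1, hA2⟩ := regg_A x (q - ((a.re / 2 : ℝ) : ℂ) * fderiv ℝ GG x vB)
  set s : ℝ := (a.im - (a.re / 2) * (fderiv ℝ PhiX x vB).im - (fderiv ℝ PhiX x vA).im) / c with hs
  refine ⟨(a.re / 2) • vB + vA + s • vC, ?_⟩
  simp only [map_add, map_smul]
  apply Prod.ext
  · apply Complex.ext
    · simp only [Complex.add_re, Complex.smul_re, smul_eq_mul, hB, hA1, hC1]
      ring
    · simp only [Complex.add_im, Complex.smul_im, smul_eq_mul, hC2]
      rw [hs]
      field_simp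
      ring
  · simp only [hA2, hC3, smul_zero, add_zero, Complex.real_smul]
    ring

/-- The map `GG` is a submersion of `Xt` along its zero set. -/
theorem reg_GG (x : C3) (hx : PhiX x = 0) (h : GG x = 0) : RegAt PhiX GG x := by
  have hX := (mem_Xt_iff x).1 hx
  have hξ : x.2.2 = pp (pr x) := by
    unfold GG at h
    exact sub_eq_zero.1 h
  have hm : Complex.normSq (pr x).1 + Complex.normSq (pr x).2 = 1 := hX.1
  have hrho : Complex.normSq (pp (pr x)) = rho (pr x) := by
    rw [← hξ]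
    exact hX.2
  by_cases hh : 1 ≤ |hgt (pr x)|
  · exfalso
    obtain ⟨h1, -, h2⟩ := values_core hh
    rw [h1, h2, map_zero] at hrho
    have := sq_nonneg (hgt (pr x))
    linarith
  rw [not_le] at hh
  obtain ⟨a, b, hab⟩ := exists_angxy hm hh
  set H := hgt (pr x) with hH
  by_cases h0 : H = 0
  · rw [h0] at hab hh
    have hr0 := rho_angxy a b hh
    have hp0 := pp_angxy a b hh
    have hc0 : cc 0 = 1 := cc_of_small (by norm_num)
    have he0 : eta 0 = 1 := eta_of_small (by norm_num)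
    rw [hc0] at hr0
    rw [he0] at hp0
    rw [hab, hr0, hp0, Complex.ofReal_one, one_mul] at hrho
    obtain ⟨u, v, c, hc, hd⟩ := L2D_tot (x := a) (y := b) (by linarith)
    obtain ⟨k1, k2, k3⟩ := curve_xy a b u v hh
    apply regg_surj hx hc
    apply regg_C h k1
    · rw [hab]
      exact k2
    · exact Filter.Eventually.of_forall k3
    · have e1 : (fun t : ℝ => Complex.normSq (pp (angxy 0 (a + t * u) (b + t * v))) -
          rho (angxy 0 (a + t * u) (b + t * v))) = fun t : ℝ =>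
          (bt (2 - Real.cos (a + t * u) - Real.cos (b + t * v)) +
            Complex.normSq (∑ i, (Lam (1 - Real.cos (ll i (a + t * u) (b + t * v))) : ℂ) * dir i))
              - 1 / 100 := by
        funext t
        rw [rho_angxy _ _ hh, pp_angxy _ _ hh, hc0, he0, Complex.ofReal_one, one_mul]
        ring
      rw [e1]
      exact hd.sub_const _
  · obtain ⟨k1, k2, k3⟩ := curve_h a b hh
    set u := 2 - Real.cos a - Real.cos b with hu
    set P := Complex.normSq (∑ i, (Lam (1 - Real.cos (ll i a b)) : ℂ) * dir i) with hP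
    have hP0 : 0 ≤ P := Complex.normSq_nonneg _
    have d1 : HasDerivAt (fun t : ℝ => H + t) 1 0 := (hasDerivAt_id (0 : ℝ)).const_add H
    have d2 : HasDerivAt (fun t : ℝ => cc (H + t)) (deriv cc H) 0 := by
      have h1 : HasDerivAt cc (deriv cc H) (H + 0) := by
        rw [add_zero]
        exact ((contDiff_cc.differentiable (by simp)) H).hasDerivAt
      have h2 := h1.comp (0 : ℝ) d1
      rwa [mul_one] at h2
    have d3 : HasDerivAt (fun t : ℝ => eta (H + t)) (deriv eta H) 0 := by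
      have h1 : HasDerivAt eta (deriv eta H) (H + 0) := by
        rw [add_zero]
        exact ((contDiff_eta.differentiable (by simp)) H).hasDerivAt
      have h2 := h1.comp (0 : ℝ) d1
      rwa [mul_one] at h2
    have d4 : HasDerivAt (fun t : ℝ => eta (H + t) ^ 2 * P -
        ((H + t) ^ 2 + 1 / 100 - cc (H + t) * bt u))
        (2 * eta H * deriv eta H * P - (2 * H - deriv cc H * bt u)) 0 := by
      have h1 := ((d3.pow 2).mul_const P).sub
        (((d1.pow 2).add_const (1 / 100 : ℝ)).sub (d2.mul_const (bt u)))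
      exact h1.congr_deriv (by simp)
    have hne : 2 * eta H * deriv eta H * P - (2 * H - deriv cc H * bt u) ≠ 0 := by
      intro h1
      have m1 := mul_deriv_eta_nonpos H
      have m2 := mul_deriv_cc_nonpos H
      have m3 : 0 ≤ eta H * P := mul_nonneg (eta_nonneg H) hP0
      have m4 := mul_nonneg m3 (neg_nonneg.2 m1)
      have m5 := mul_nonneg (bt_nonneg u) (neg_nonneg.2 m2)
      have m6 : 0 < H ^ 2 := by positivity
      have m7 : H * (2 * eta H * deriv eta H * P - (2 * H - deriv cc H * bt u)) = 0 := by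
        rw [h1, mul_zero]
      nlinarith
    apply regg_surj hx hne
    apply regg_C h k1
    · rw [hab]
      exact k2
    · filter_upwards [k3] with t ht using ht.2
    · apply d4.congr_of_eventuallyEq
      filter_upwards [k3] with t ht
      rw [rho_angxy _ _ ht.1, pp_angxy _ _ ht.1, Complex.normSq_mul, Complex.normSq_ofReal]
      ring

/-! ### The walls -/

theorem regg_dir (i j : Fin 3) :
    ((starRingEnd ℂ) (dir i) * dir j).re = if i = j then 1 else -(1 / 2) := by
  have h3 : Real.sqrt 3 ^ 2 = 3 := Real.sq_sqrt (by norm_num)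
  have hd : ∀ k : Fin 3, dir k = ⟨Real.cos (2 * Real.pi * ((k : ℕ) : ℝ) / 3),
      Real.sin (2 * Real.pi * ((k : ℕ) : ℝ) / 3)⟩ := by
    intro k
    have h1 : dir k = Complex.exp (((2 * Real.pi * ((k : ℕ) : ℝ) / 3 : ℝ) : ℂ) * Complex.I) := by
      unfold dir
      congr 1
      push_cast
      ring
    rw [h1]
    apply Complex.ext
    · rw [Complex.exp_ofReal_mul_I_re]
    · rw [Complex.exp_ofReal_mul_I_im]
  have c1 : Real.cos (2 * Real.pi * ((1 : ℕ) : ℝ) / 3) = -(1 / 2) := by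
    have : 2 * Real.pi * ((1 : ℕ) : ℝ) / 3 = Real.pi - Real.pi / 3 := by push_cast; ring
    rw [this, Real.cos_pi_sub, Real.cos_pi_div_three]
  have s1 : Real.sin (2 * Real.pi * ((1 : ℕ) : ℝ) / 3) = Real.sqrt 3 / 2 := by
    have : 2 * Real.pi * ((1 : ℕ) : ℝ) / 3 = Real.pi - Real.pi / 3 := by push_cast; ring
    rw [this, Real.sin_pi_sub, Real.sin_pi_div_three]
  have c2 : Real.cos (2 * Real.pi * ((2 : ℕ) : ℝ) / 3) = -(1 / 2) := by
    have : 2 * Real.pi * ((2 : ℕ) : ℝ) / 3 = Real.pi / 3 + Real.pi := by push_cast; ring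
    rw [this, Real.cos_add_pi, Real.cos_pi_div_three]
  have s2 : Real.sin (2 * Real.pi * ((2 : ℕ) : ℝ) / 3) = -(Real.sqrt 3 / 2) := by
    have : 2 * Real.pi * ((2 : ℕ) : ℝ) / 3 = Real.pi / 3 + Real.pi := by push_cast; ring
    rw [this, Real.sin_add_pi, Real.sin_pi_div_three]
  have e0 : dir 0 = ⟨1, 0⟩ := by
    rw [hd]
    simp
  have e1 : dir 1 = ⟨-(1 / 2), Real.sqrt 3 / 2⟩ := by
    rw [hd, ← c1, ← s1]
    rfl
  have e2 : dir 2 = ⟨-(1 / 2), -(Real.sqrt 3 / 2)⟩ := by
    rw [hd, ← c2, ← s2]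
    rfl
  rw [Complex.mul_re, Complex.conj_re, Complex.conj_im]
  fin_cases i <;> fin_cases j <;>
    first
    | (rw [if_pos rfl]
       simp only [Fin.zero_eta, Fin.mk_one, Fin.reduceFinMk, e0, e1, e2]
       nlinarith)
    | (rw [if_neg (by decide)]
       simp only [Fin.zero_eta, Fin.mk_one, Fin.reduceFinMk, e0, e1, e2]
       nlinarith)

theorem regg_normSq_dir (i : Fin 3) : Complex.normSq (dir i) = 1 := by
  have h := regg_dir i i
  rw [if_pos rfl, mul_comm, Complex.mul_conj, Complex.ofReal_re] at h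
  exact h

theorem regg_conj_dir (i : Fin 3) : (starRingEnd ℂ) (dir i) * dir i = 1 := by
  rw [mul_comm, Complex.mul_conj, regg_normSq_dir, Complex.ofReal_one]

theorem regg_data {x : C3} (hx : PhiX x = 0) (i : Fin 3) (η : ℂ)
    (hη : ((starRingEnd ℂ) x.2.2 * η).re = 0) (hc : ((starRingEnd ℂ) (dir i) * η).im ≠ 0) :
    RegAt PhiX (fun y => (rot i (GG y)).im) x := by
  have hF : DifferentiableAt ℝ (fun y => (rot i (GG y)).im) x := by
    unfold rot
    exact Complex.imCLM.differentiableAt.comp x ((regg_dGG x).const_mul _)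
  refine regX_of_data hx hF (fun _ => pr x) (differentiableAt_const _) rfl
    (Filter.Eventually.of_forall fun _ => ((mem_Xt_iff x).1 hx).1) η (r := 0)
    (hasDerivAt_const _ _) (by rw [hη, mul_zero]) hc ?_
  have e1 : (fun t : ℝ => (rot i (GG ((pr x).1, (pr x).2, x.2.2 + t * η))).im) = fun t : ℝ =>
      t * ((starRingEnd ℂ) (dir i) * η).im + (rot i (GG x)).im := by
    funext t
    have e2 : rot i (GG ((pr x).1, (pr x).2, x.2.2 + t * η)) =
        (t : ℂ) * ((starRingEnd ℂ) (dir i) * η) + rot i (GG x) := by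
      unfold rot GG
      change (starRingEnd ℂ) (dir i) * (x.2.2 + t * η - pp (pr x)) = _
      ring
    rw [e2, Complex.add_im, Complex.im_ofReal_mul]
  rw [e1]
  have h5 := ((hasDerivAt_id (0 : ℝ)).mul_const ((starRingEnd ℂ) (dir i) * η).im).add_const
    (rot i (GG x)).im
  rwa [one_mul] at h5

/-- The walls are regular. -/
theorem reg_wall (i : Fin 3) (x : C3) (hx : PhiX x = 0) (h : GG x ∈ wall i) :
    RegAt PhiX (fun y => (rot i (GG y)).im) x := by
  have hX := (mem_Xt_iff x).1 hx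
  have hm : Complex.normSq (pr x).1 + Complex.normSq (pr x).2 = 1 := hX.1
  have hrho : 0 ≤ rho (pr x) := by
    rw [← hX.2]
    exact Complex.normSq_nonneg _
  obtain ⟨hw1, hw2⟩ := h
  by_cases h1 : ((starRingEnd ℂ) (dir i) * x.2.2).re = 0
  · have hlam : ∀ l, 0 ≤ lam l (pr x) := fun l => mul_nonneg (eta_nonneg _) (Lam_nonneg _)
    have hG : rot i (GG x) = (starRingEnd ℂ) (dir i) * x.2.2 -
        (starRingEnd ℂ) (dir i) * pp (pr x) := by
      unfold rot GG
      ring
    rw [hG] at hw1 hw2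
    rw [Complex.sub_re, h1] at hw1
    have hz : ((starRingEnd ℂ) (dir i) * pp (pr x)).re =
        ∑ l, lam l (pr x) * (if i = l then 1 else -(1 / 2)) := by
      unfold pp
      rw [Finset.mul_sum, Complex.re_sum]
      refine Finset.sum_congr rfl fun l _ => ?_
      rw [mul_left_comm, Complex.re_ofReal_mul, regg_dir]
    have hl : ∀ l, l ≠ i → lam l (pr x) = 0 := by
      intro l hli
      by_contra hl0
      have hi0 : lam i (pr x) = 0 := by
        by_contra hi0
        exact absurd (rho_neg_of_lam hli hm hl0 hi0) (not_lt.2 hrho)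
      have hneg : ((starRingEnd ℂ) (dir i) * pp (pr x)).re ≤ 0 := by
        rw [hz]
        apply Finset.sum_nonpos
        intro k _
        by_cases hk : i = k
        · rw [← hk, hi0, zero_mul]
        · rw [if_neg hk]
          have := hlam k
          linarith
      linarith
    have hp : pp (pr x) = (lam i (pr x) : ℂ) * dir i := by
      unfold pp
      apply Finset.sum_eq_single i
      · intro l _ hli
        rw [hl l hli, Complex.ofReal_zero, zero_mul]
      · intro hi
        exact absurd (Finset.mem_univ i) hi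
    have h2 : ((starRingEnd ℂ) (dir i) * x.2.2).im = 0 := by
      rw [Complex.sub_im, hp, mul_left_comm, regg_conj_dir, mul_one, Complex.ofReal_im,
        sub_zero] at hw2
      exact hw2
    have h3 : (starRingEnd ℂ) (dir i) * x.2.2 = 0 := Complex.ext h1 h2
    have h4 : x.2.2 = 0 := by
      have h5 : dir i * ((starRingEnd ℂ) (dir i) * x.2.2) = 0 := by rw [h3, mul_zero]
      rw [← mul_assoc, mul_comm (dir i), regg_conj_dir, one_mul] at h5
      exact h5
    apply regg_data hx i (Complex.I * dir i)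
    · rw [h4, map_zero, zero_mul, Complex.zero_re]
    · rw [mul_left_comm, regg_conj_dir, mul_one, Complex.I_im]
      exact one_ne_zero
  · apply regg_data hx i (Complex.I * x.2.2)
    · rw [mul_left_comm, mul_comm ((starRingEnd ℂ) x.2.2), Complex.mul_conj, mul_comm,
        Complex.re_ofReal_mul, Complex.I_re, mul_zero]
    · rw [mul_left_comm, Complex.I_mul_im]
      exact h1

end Pool.Agent.Tri
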