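import Mathlib
import Pool.Agent.H.MP_5efd29_gt.FamA1
import Pool.Agent.H.MP_5efd29_gt.RegG

open scoped ContDiff Topology
open Set

noncomputable section

namespace Pool.Agent.Tri

/-- The algebraic inequality behind the case of a foreign band. -/
theorem foreign_band {T S l : ℝ} (hT : 0 < T) (hS : S ^ 2 < 3 * T ^ 2) (hl : 0 < l)
    (h : 8 * T * S + 3 * Real.sqrt 3 * T * l - l * S = 0) :
    (T - l / 2) ^ 2 + (S + Real.sqrt 3 / 2 * l) ^ 2 ≤ 4 / 3 * (T ^ 2 - S ^ 2 / 3) ∧
      0 < T - l / 2 := by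
  have hr : Real.sqrt 3 ^ 2 = 3 := Real.sq_sqrt (by norm_num)
  have hr0 : 0 < Real.sqrt 3 := Real.sqrt_pos.2 (by norm_num)
  obtain ⟨a, ha⟩ : ∃ a, a = Real.sqrt 3 * T := ⟨_, rfl⟩
  obtain ⟨σ, hσ⟩ : ∃ σ, σ = -S := ⟨_, rfl⟩
  have ha0 : 0 < a := ha ▸ mul_pos hr0 hT
  have ha2 : a ^ 2 = 3 * T ^ 2 := by rw [ha, mul_pow, hr]
  have hS' : S = -σ := by rw [hσ, neg_neg]
  have hσa : |σ| < a := by
    apply abs_lt_of_sq_lt_sq _ ha0.le
    rw [ha2, hσ]; linarith [neg_sq S]
  obtain ⟨h1, h2⟩ := abs_lt.mp hσa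
  have hp : 0 < 3 * a + σ := by linarith
  have hkey : l * (3 * a + σ) = 8 * T * σ := by
    rw [ha, hσ]; linarith
  have hσ0 : 0 < σ := by
    have h3 : 0 < 8 * T * σ := hkey ▸ mul_pos hl hp
    by_contra h4
    push Not at h4
    nlinarith
  have hl' : l = 8 * T * σ / (3 * a + σ) := by
    rw [eq_div_iff hp.ne', hkey]
  have e1 : T - l / 2 = 3 * T * (a - σ) / (3 * a + σ) := by
    rw [hl']; field_simp; ring
  have e2 : S + Real.sqrt 3 / 2 * l = σ * (a - σ) / (3 * a + σ) := by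
    have : Real.sqrt 3 / 2 * l = 4 * a * σ / (3 * a + σ) := by
      rw [hl', ha]; field_simp; ring
    rw [this, hS']
    field_simp
    ring
  constructor
  · have e3 : (T - l / 2) ^ 2 + (S + Real.sqrt 3 / 2 * l) ^ 2
        = (a - σ) ^ 2 * (3 * a ^ 2 + σ ^ 2) / (3 * a + σ) ^ 2 := by
      rw [e1, e2, ha2]; field_simp
    have e4 : 4 / 3 * (T ^ 2 - S ^ 2 / 3) = 4 / 9 * ((a - σ) * (a + σ)) := by
      rw [hS']; linear_combination (-4 / 9) * ha2
    rw [e3, e4, div_le_iff₀ (by positivity)]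
    have h5 : 0 < a - σ := by linarith
    have h6 : 0 ≤ 9 * a ^ 3 + 87 * a ^ 2 * σ + 19 * a * σ ^ 2 + 13 * σ ^ 3 := by positivity
    have h7 : 4 / 9 * ((a - σ) * (a + σ)) * (3 * a + σ) ^ 2
        - (a - σ) ^ 2 * (3 * a ^ 2 + σ ^ 2)
        = (a - σ) / 9 * (9 * a ^ 3 + 87 * a ^ 2 * σ + 19 * a * σ ^ 2 + 13 * σ ^ 3) := by ring
    have h8 : 0 ≤ (a - σ) / 9 * (9 * a ^ 3 + 87 * a ^ 2 * σ + 19 * a * σ ^ 2 + 13 * σ ^ 3) :=
      mul_nonneg (by linarith) h6
    linarith
  · rw [e1]
    exact div_pos (mul_pos (by linarith) (by linarith)) hp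

theorem fama2_exp (θ : ℝ) (z : ℂ) (hz : z = θ * Complex.I) :
    Complex.exp z = ⟨Real.cos θ, Real.sin θ⟩ := by
  rw [hz, Complex.exp_mul_I]
  apply Complex.ext <;> simp [Complex.cos_ofReal_re, Complex.sin_ofReal_re]

theorem fama2_dir0 : dir 0 = 1 := by
  unfold dir
  simp

theorem fama2_dir1 : dir 1 = ⟨-(1 / 2), Real.sqrt 3 / 2⟩ := by
  unfold dir
  rw [fama2_exp (Real.pi - Real.pi / 3)]
  · rw [Real.cos_pi_sub, Real.sin_pi_sub, Real.cos_pi_div_three, Real.sin_pi_div_three]
  · push_cast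
    simp
    ring

theorem fama2_dir2 : dir 2 = ⟨-(1 / 2), -(Real.sqrt 3 / 2)⟩ := by
  unfold dir
  rw [fama2_exp (Real.pi / 3 + Real.pi)]
  · rw [Real.cos_add_pi, Real.sin_add_pi, Real.cos_pi_div_three, Real.sin_pi_div_three]
  · push_cast
    simp
    ring

theorem fama2_self (i : Fin 3) : (starRingEnd ℂ) (dir i) * dir i = 1 := by
  have hr : Real.sqrt 3 * Real.sqrt 3 = 3 := Real.mul_self_sqrt (by norm_num)
  fin_cases i
  · show (starRingEnd ℂ) (dir 0) * dir 0 = 1
    rw [fama2_dir0]; simp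
  · show (starRingEnd ℂ) (dir 1) * dir 1 = 1
    rw [fama2_dir1]
    apply Complex.ext
    · simp only [Complex.mul_re, Complex.conj_re, Complex.conj_im, Complex.one_re]; linarith
    · simp only [Complex.mul_im, Complex.conj_re, Complex.conj_im, Complex.one_im]; ring
  · show (starRingEnd ℂ) (dir 2) * dir 2 = 1
    rw [fama2_dir2]
    apply Complex.ext
    · simp only [Complex.mul_re, Complex.conj_re, Complex.conj_im, Complex.one_re]; linarith
    · simp only [Complex.mul_im, Complex.conj_re, Complex.conj_im, Complex.one_im]; ring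

theorem fama2_pair {i j : Fin 3} (hij : i ≠ j) : ∃ s : ℝ, s ^ 2 = 1 ∧
    (starRingEnd ℂ) (dir i) * dir j = ⟨-(1 / 2), s * (Real.sqrt 3 / 2)⟩ := by
  have hr : Real.sqrt 3 * Real.sqrt 3 = 3 := Real.mul_self_sqrt (by norm_num)
  fin_cases i <;> fin_cases j
  · exact absurd rfl hij
  · refine ⟨1, by norm_num, ?_⟩
    show (starRingEnd ℂ) (dir 0) * dir 1 = _
    rw [fama2_dir0, fama2_dir1]; simp
  · refine ⟨-1, by norm_num, ?_⟩
    show (starRingEnd ℂ) (dir 0) * dir 2 = _
    rw [fama2_dir0, fama2_dir2]; simp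
  · refine ⟨-1, by norm_num, ?_⟩
    show (starRingEnd ℂ) (dir 1) * dir 0 = _
    rw [fama2_dir0, fama2_dir1]
    apply Complex.ext
    · simp
    · simp
  · exact absurd rfl hij
  · refine ⟨1, by norm_num, ?_⟩
    show (starRingEnd ℂ) (dir 1) * dir 2 = _
    rw [fama2_dir2, fama2_dir1]
    apply Complex.ext
    · simp only [Complex.mul_re, Complex.conj_re, Complex.conj_im]; linarith
    · simp only [Complex.mul_im, Complex.conj_re, Complex.conj_im]; ring
  · refine ⟨1, by norm_num, ?_⟩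
    show (starRingEnd ℂ) (dir 2) * dir 0 = _
    rw [fama2_dir0, fama2_dir2]
    apply Complex.ext
    · simp
    · simp
  · refine ⟨-1, by norm_num, ?_⟩
    show (starRingEnd ℂ) (dir 2) * dir 1 = _
    rw [fama2_dir2, fama2_dir1]
    apply Complex.ext
    · simp only [Complex.mul_re, Complex.conj_re, Complex.conj_im]; linarith
    · simp only [Complex.mul_im, Complex.conj_re, Complex.conj_im]; ring
  · exact absurd rfl hij

theorem fama2_U (i : Fin 3) (t : ℝ) (ξ : ℂ) (μ : ℝ → ℂ × ℂ) {ell : Fin 3 → ℝ}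
    (hell : ∀ j, HasDerivAt (fun s => lam j (μ s)) (ell j) 0) (η : ℂ) :
    HasDerivAt (fun s : ℝ => uA i (t, ((μ s).1, (μ s).2, ξ + s * (dir i * η))))
      (η - ∑ j, (((if j = i then 1 else 1 - t) * ell j : ℝ) : ℂ) *
        ((starRingEnd ℂ) (dir i) * dir j)) 0 := by
  have h1 : ∀ j : Fin 3, HasDerivAt (fun s : ℝ =>
      (((if j = i then 1 else 1 - t) * lam j (μ s) : ℝ) : ℂ) * dir j)
      ((((if j = i then 1 else 1 - t) * ell j : ℝ) : ℂ) * dir j) 0 := fun j =>
    (((hell j).const_mul (if j = i then 1 else 1 - t)).ofReal_comp).mul_const (dir j)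
  have h2 : HasDerivAt (fun s : ℝ => ∑ j,
      (((if j = i then 1 else 1 - t) * lam j (μ s) : ℝ) : ℂ) * dir j)
      (∑ j, (((if j = i then 1 else 1 - t) * ell j : ℝ) : ℂ) * dir j) 0 :=
    HasDerivAt.fun_sum (fun j _ => h1 j)
  have h3 : HasDerivAt (fun s : ℝ => ξ + (s : ℂ) * (dir i * η)) (dir i * η) 0 := by
    have h4 : HasDerivAt (fun s : ℝ => (s : ℂ)) 1 0 := Complex.ofRealCLM.hasDerivAt
    have h5 := (h4.mul_const (dir i * η)).const_add ξ
    simpa using h5
  have h4 := (h3.sub h2).const_mul ((starRingEnd ℂ) (dir i))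
  have h5 : (starRingEnd ℂ) (dir i) * (dir i * η -
      ∑ j, (((if j = i then 1 else 1 - t) * ell j : ℝ) : ℂ) * dir j)
      = η - ∑ j, (((if j = i then 1 else 1 - t) * ell j : ℝ) : ℂ) *
        ((starRingEnd ℂ) (dir i) * dir j) := by
    rw [mul_sub, ← mul_assoc, fama2_self, one_mul, Finset.mul_sum]
    congr 1
    apply Finset.sum_congr rfl
    intro j _
    ring
  rw [h5] at h4
  exact h4

/-- Regularity from a curve. -/
theorem fama2_key (i : Fin 3) {e t : ℝ} (he : 0 < e) {x : C3} (hx : PhiX x = 0)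
    (hF : FA i e (t, x) = 0) (μ : ℝ → ℂ × ℂ) (hμ : DifferentiableAt ℝ μ 0) (hμ0 : μ 0 = pr x)
    (hμS : ∀ᶠ s in 𝓝 (0 : ℝ), Complex.normSq (μ s).1 + Complex.normSq (μ s).2 = 1)
    {r : ℝ} (hr : HasDerivAt (fun s => rho (μ s)) r 0)
    {ell : Fin 3 → ℝ} (hell : ∀ j, HasDerivAt (fun s => lam j (μ s)) (ell j) 0) (η : ℂ)
    (hη : 2 * ((starRingEnd ℂ) ((starRingEnd ℂ) (dir i) * x.2.2) * η).re = r)
    {D : ℂ} (hD : D = η - ∑ j, (((if j = i then 1 else 1 - t) * ell j : ℝ) : ℂ) *
        ((starRingEnd ℂ) (dir i) * dir j))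
    (hc : D.re - (uA i (t, x)).im / (3 * (uA i (t, x)).re) * D.im ≠ 0) :
    RegAt PhiX (fun y => FA i e (t, y)) x := by
  have hdiff : DifferentiableAt ℝ (fun y => FA i e (t, y)) x := by
    have h1 : ContDiff ℝ ∞ (fun y : C3 => FA i e (t, y)) :=
      (contDiff_FA i he).comp (contDiff_const.prodMk contDiff_id)
    exact (h1.differentiable (by simp)) x
  refine regX_of_data hx hdiff μ hμ hμ0 hμS (dir i * η) hr ?_ hc ?_
  · rw [← hη, map_mul, Complex.conj_conj]
    congr 2
    ring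
  · have hU := fama2_U i t x.2.2 μ hell η
    rw [← hD] at hU
    have h0 : ((μ 0).1, (μ 0).2, x.2.2 + ((0 : ℝ) : ℂ) * (dir i * η)) = x := by
      rw [hμ0]
      simp [pr]
    have hre : HasDerivAt (fun s : ℝ =>
        (uA i (t, ((μ s).1, (μ s).2, x.2.2 + s * (dir i * η)))).re) D.re 0 :=
      Complex.reCLM.hasFDerivAt.comp_hasDerivAt 0 hU
    have him : HasDerivAt (fun s : ℝ =>
        (uA i (t, ((μ s).1, (μ s).2, x.2.2 + s * (dir i * η)))).im) D.im 0 :=
      Complex.imCLM.hasFDerivAt.comp_hasDerivAt 0 hU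
    have hT : Real.sqrt ((uA i (t, x)).im ^ 2 / 3 + e) = (uA i (t, x)).re := by
      have : (uA i (t, x)).re - Real.sqrt ((uA i (t, x)).im ^ 2 / 3 + e) = 0 := hF
      linarith
    have hpos : 0 < (uA i (t, x)).im ^ 2 / 3 + e := by positivity
    have hT0 : 0 < (uA i (t, x)).re := by
      rw [← hT]; exact Real.sqrt_pos.2 hpos
    have hsq := (((him.pow 2).div_const 3).add_const e).sqrt (by
      simp only [Pi.pow_apply]
      rw [h0]
      exact hpos.ne')
    have h6 := hre.sub hsq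
    simp only [Pi.pow_apply] at h6
    rw [h0, hT] at h6
    have h7 : D.re - (uA i (t, x)).im / (3 * (uA i (t, x)).re) * D.im
        = D.re - ((2 : ℕ) : ℝ) * (uA i (t, x)).im ^ (2 - 1) * D.im / 3 / (2 * (uA i (t, x)).re) := by
      field_simp
      norm_num
      ring
    rw [h7]
    exact h6

theorem fama2_lam_nonneg (j : Fin 3) (m : ℂ × ℂ) : 0 ≤ lam j m :=
  mul_nonneg (eta_nonneg _) (Lam_nonneg _)

theorem fama2_min (j : Fin 3) {μ : ℝ → ℂ × ℂ} {a : ℝ}
    (h : HasDerivAt (fun s => lam j (μ s)) a 0) (h0 : lam j (μ 0) = 0) : a = 0 := by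
  have h1 : IsLocalMin (fun s => lam j (μ s)) 0 := by
    apply Filter.Eventually.of_forall
    intro s
    show lam j (μ 0) ≤ lam j (μ s)
    rw [h0]
    exact fama2_lam_nonneg _ _
  exact h1.hasDerivAt_eq_zero h

theorem fama2_ell (j : Fin 3) {μ : ℝ → ℂ × ℂ} (hμ : DifferentiableAt ℝ μ 0) :
    HasDerivAt (fun s => lam j (μ s)) (deriv (fun s => lam j (μ s)) 0) 0 := by
  have h1 : DifferentiableAt ℝ (lam j) (μ 0) := ((contDiff_lam j).differentiable (by simp)) _
  exact (h1.comp 0 hμ).hasDerivAt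

theorem fama2_r {μ : ℝ → ℂ × ℂ} (hμ : DifferentiableAt ℝ μ 0) :
    HasDerivAt (fun s => rho (μ s)) (deriv (fun s => rho (μ s)) 0) 0 := by
  have h1 : DifferentiableAt ℝ rho (μ 0) := (contDiff_rho.differentiable (by simp)) _
  exact (h1.comp 0 hμ).hasDerivAt

theorem fama2_xi (i : Fin 3) (t : ℝ) (x : C3) :
    (starRingEnd ℂ) (dir i) * x.2.2 = uA i (t, x) +
      ∑ j, (((if j = i then 1 else 1 - t) * lam j (pr x) : ℝ) : ℂ) *
        ((starRingEnd ℂ) (dir i) * dir j) := by
  unfold uA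
  rw [mul_sub, Finset.mul_sum, sub_add]
  have : ∀ a b : ℂ, b = 0 → a = a - b := fun a b h => by rw [h, sub_zero]
  apply this
  rw [sub_eq_zero]
  apply Finset.sum_congr rfl
  intro j _
  ring

theorem fama2_phi {x : C3} (hx : PhiX x = 0) :
    Complex.normSq (pr x).1 + Complex.normSq (pr x).2 = 1 ∧
      Complex.normSq x.2.2 = rho (pr x) := by
  have h1 := congrArg Complex.re hx
  have h2 := congrArg Complex.im hx
  simp only [PhiX, Complex.zero_re, Complex.zero_im] at h1 h2
  exact ⟨by simp only [pr]; linarith, by linarith⟩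

theorem fama2_normSq_dir (i : Fin 3) : Complex.normSq (dir i) = 1 := by
  have h := fama2_self i
  rw [Complex.normSq_eq_conj_mul_self.symm] at h
  exact_mod_cast h

theorem fama2_T (i : Fin 3) {e t : ℝ} (he : 0 < e) {x : C3} (hF : FA i e (t, x) = 0) :
    0 < (uA i (t, x)).re ∧ (uA i (t, x)).re ^ 2 = (uA i (t, x)).im ^ 2 / 3 + e := by
  have hT : (uA i (t, x)).re = Real.sqrt ((uA i (t, x)).im ^ 2 / 3 + e) := by
    have : (uA i (t, x)).re - Real.sqrt ((uA i (t, x)).im ^ 2 / 3 + e) = 0 := hF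
    linarith
  have hpos : 0 < (uA i (t, x)).im ^ 2 / 3 + e := by positivity
  refine ⟨by rw [hT]; exact Real.sqrt_pos.2 hpos, ?_⟩
  rw [hT, Real.sq_sqrt hpos.le]

/-- Regularity by the rotation. -/
theorem fama2_rot (i : Fin 3) {e t : ℝ} (he : 0 < e) {x : C3} (hx : PhiX x = 0)
    (hF : FA i e (t, x) = 0)
    (hrot : ((starRingEnd ℂ) (dir i) * x.2.2).im + (uA i (t, x)).im / (3 * (uA i (t, x)).re) *
      ((starRingEnd ℂ) (dir i) * x.2.2).re ≠ 0) :
    RegAt PhiX (fun y => FA i e (t, y)) x := by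
  refine fama2_key i he hx hF (fun _ => pr x) (differentiableAt_const _) rfl ?_
    (r := 0) (hasDerivAt_const _ _) (ell := fun _ => 0) (fun j => hasDerivAt_const _ _)
    (Complex.I * ((starRingEnd ℂ) (dir i) * x.2.2)) ?_
    (D := Complex.I * ((starRingEnd ℂ) (dir i) * x.2.2)) ?_ ?_
  · exact Filter.Eventually.of_forall (fun _ => (fama2_phi hx).1)
  · generalize (starRingEnd ℂ) (dir i) * x.2.2 = z
    simp only [Complex.mul_re, Complex.mul_im, Complex.conj_re, Complex.conj_im, Complex.I_re,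
      Complex.I_im]
    ring
  · simp
  · generalize (starRingEnd ℂ) (dir i) * x.2.2 = z at *
    rw [Complex.I_mul_re, Complex.I_mul_im]
    intro h
    apply hrot
    linarith

/-- The curve for the first case. -/
theorem fama2_claim (i : Fin 3) {σ : ℝ} (hσ : 0 ≤ σ) (hσ' : σ < 1 / 10) {h x y : ℝ}
    (hh : |h| < 1) (h0 : rho (angxy h x y) = (lam i (angxy h x y) + σ) ^ 2) :
    ∃ μ : ℝ → ℂ × ℂ, DifferentiableAt ℝ μ 0 ∧ μ 0 = angxy h x y ∧
      (∀ᶠ s in 𝓝 (0 : ℝ), Complex.normSq (μ s).1 + Complex.normSq (μ s).2 = 1) ∧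
      ∃ c : ℝ, c ≠ 0 ∧ HasDerivAt (fun s => rho (μ s) - (lam i (μ s) + σ) ^ 2) c 0 := by
  by_cases hh0 : h = 0
  · subst hh0
    have hc0 : cc 0 = 1 := cc_of_small (by norm_num)
    have he0 : eta 0 = 1 := eta_of_small (by norm_num)
    rw [rho_angxy x y hh, lam_angxy i x y hh, hc0, he0] at h0
    obtain ⟨a, b, c, hc, hd⟩ := L2D i (τ := 0) le_rfl hσ hσ' (x := x) (y := y) (by
      rw [add_zero]; linarith)
    obtain ⟨g1, g2, g3⟩ := curve_xy x y a b hh
    refine ⟨fun t : ℝ => angxy 0 (x + t * a) (y + t * b), g1, g2,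
      Filter.Eventually.of_forall g3, -c, neg_ne_zero.mpr hc, ?_⟩
    have h1 := hd.const_sub (1 / 100)
    have h2 : (fun s : ℝ => rho (angxy 0 (x + s * a) (y + s * b)) -
        (lam i (angxy 0 (x + s * a) (y + s * b)) + σ) ^ 2)
        = fun t : ℝ => 1 / 100 - ((bt (2 - Real.cos (x + t * a) - Real.cos (y + t * b) + 0) +
          (Lam (1 - Real.cos (ll i (x + t * a) (y + t * b))) + σ) ^ 2)) := by
      funext s
      rw [rho_angxy _ _ hh, lam_angxy i _ _ hh, hc0, he0, add_zero]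
      ring
    rw [h2]
    exact h1
  · obtain ⟨g1, g2, g3⟩ := curve_h x y hh
    have hcc : HasDerivAt cc (deriv cc h) h :=
      ((contDiff_cc.differentiable (by simp)) h).hasDerivAt
    have hee : HasDerivAt eta (deriv eta h) h :=
      ((contDiff_eta.differentiable (by simp)) h).hasDerivAt
    have hadd : HasDerivAt (fun s : ℝ => h + s) 1 0 := (hasDerivAt_id 0).const_add h
    have hcc' : HasDerivAt (fun s : ℝ => cc (h + s)) (deriv cc h) 0 := by
      have := HasDerivAt.comp (h₂ := cc) (0 : ℝ) (by rw [add_zero]; exact hcc) hadd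
      rw [mul_one] at this
      exact this
    have hee' : HasDerivAt (fun s : ℝ => eta (h + s)) (deriv eta h) 0 := by
      have := HasDerivAt.comp (h₂ := eta) (0 : ℝ) (by rw [add_zero]; exact hee) hadd
      rw [mul_one] at this
      exact this
    set B : ℝ := bt (2 - Real.cos x - Real.cos y) with hB
    set L : ℝ := Lam (1 - Real.cos (ll i x y)) with hL
    have hB0 : 0 ≤ B := bt_nonneg _
    have hL0 : 0 ≤ L := Lam_nonneg _
    have h1 := ((((hadd.pow 2).add_const (1 / 100)).sub (hcc'.mul_const B)).sub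
      (((hee'.mul_const L).add_const σ).pow 2))
    refine ⟨fun t : ℝ => angxy (h + t) x y, g1, g2, g3.mono (fun t ht => ht.2), _, ?_,
      h1.congr_of_eventuallyEq ?_⟩
    · have h2 := mul_deriv_cc_nonpos h
      have h3 := mul_deriv_eta_nonpos h
      have h4 := eta_nonneg h
      have h5 : 0 < h ^ 2 := by positivity
      intro h6
      rw [add_zero] at h6
      have h7 : h * (((2 : ℕ) : ℝ) * h ^ (2 - 1) * 1 - deriv cc h * B -
          ((2 : ℕ) : ℝ) * (eta h * L + σ) ^ (2 - 1) * (deriv eta h * L)) = 0 := by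
        rw [h6, mul_zero]
      have h8 : 2 * h ^ 2 + (-(h * deriv cc h)) * B
          + 2 * (eta h * L + σ) * ((-(h * deriv eta h)) * L) = 0 := by
        rw [← h7]
        norm_num
        ring
      have h9 : 0 ≤ (-(h * deriv cc h)) * B := mul_nonneg (by linarith) hB0
      have h10 : 0 ≤ 2 * (eta h * L + σ) * ((-(h * deriv eta h)) * L) := by
        apply mul_nonneg
        · have := mul_nonneg h4 hL0
          linarith
        · exact mul_nonneg (by linarith) hL0
      linarith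
    · filter_upwards [g3] with s hs
      rw [rho_angxy x y hs.1, lam_angxy i x y hs.1]
      rfl

/-- No foreign band. -/
theorem fama2_case1 (i : Fin 3) {e t : ℝ} (he : 0 < e) (he' : e < 1 / 1000) {x : C3}
    (hx : PhiX x = 0) (hF : FA i e (t, x) = 0)
    (hz : ∀ j, j ≠ i → (1 - t) * lam j (pr x) = 0)
    (hrot : ((starRingEnd ℂ) (dir i) * x.2.2).im + (uA i (t, x)).im / (3 * (uA i (t, x)).re) *
      ((starRingEnd ℂ) (dir i) * x.2.2).re = 0) :
    RegAt PhiX (fun y => FA i e (t, y)) x := by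
  obtain ⟨hT0, hT2⟩ := fama2_T i he hF
  obtain ⟨hsph, hns⟩ := fama2_phi hx
  have hxi := fama2_xi i t x
  have hsum : (∑ j, (((if j = i then 1 else 1 - t) * lam j (pr x) : ℝ) : ℂ) *
        ((starRingEnd ℂ) (dir i) * dir j)) = ((lam i (pr x) : ℝ) : ℂ) := by
    rw [Finset.sum_eq_single i]
    · rw [if_pos rfl, one_mul, fama2_self, mul_one]
    · intro j _ hj
      rw [if_neg hj, hz j hj]
      simp
    · intro h; exact absurd (Finset.mem_univ i) h
  rw [hsum] at hxi
  have hl0 := fama2_lam_nonneg i (pr x)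
  have hxre : ((starRingEnd ℂ) (dir i) * x.2.2).re = (uA i (t, x)).re + lam i (pr x) := by
    rw [hxi]; simp
  have hxim : ((starRingEnd ℂ) (dir i) * x.2.2).im = (uA i (t, x)).im := by
    rw [hxi]; simp
  -- S = 0
  have hS : (uA i (t, x)).im = 0 := by
    rw [hxre, hxim] at hrot
    have h1 : (uA i (t, x)).im *
        (1 + ((uA i (t, x)).re + lam i (pr x)) / (3 * (uA i (t, x)).re)) = 0 := by
      rw [← hrot]; ring
    have h2 : 0 < 1 + ((uA i (t, x)).re + lam i (pr x)) / (3 * (uA i (t, x)).re) := by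
      positivity
    exact (mul_eq_zero.mp h1).resolve_right h2.ne'
  have hTe : (uA i (t, x)).re = Real.sqrt e := by
    rw [hS] at hT2
    rw [← Real.sqrt_sq hT0.le, hT2]
    congr 1
    ring
  have hσ0 : 0 < Real.sqrt e := Real.sqrt_pos.2 he
  have hσ1 : Real.sqrt e < 1 / 10 := by
    rw [Real.sqrt_lt' (by norm_num)]
    linarith
  have hrho : rho (pr x) = (lam i (pr x) + Real.sqrt e) ^ 2 := by
    have h1 : Complex.normSq ((starRingEnd ℂ) (dir i) * x.2.2) = rho (pr x) := by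
      rw [Complex.normSq_mul, Complex.normSq_conj, fama2_normSq_dir, one_mul, hns]
    rw [← h1, Complex.normSq_apply, hxre, hxim, hS, hTe]
    ring
  have hh : |hgt (pr x)| < 1 := by
    by_contra hcon
    obtain ⟨h1, h2, _⟩ := values_core (not_lt.mp hcon)
    rw [h1, h2 i, zero_add, Real.sq_sqrt he.le] at hrho
    have h3 : 1 ≤ hgt (pr x) ^ 2 := by
      rw [← sq_abs]
      have := not_lt.mp hcon
      nlinarith
    linarith
  obtain ⟨a, b, hab⟩ := exists_angxy hsph hh
  obtain ⟨μ, m1, m2, m3, c, hc, hd⟩ := fama2_claim i hσ0.le hσ1 (h := hgt (pr x)) (x := a)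
    (y := b) hh (by rw [← hab]; exact hrho)
  rw [← hab] at m2
  -- the data
  have hr := fama2_r m1
  have hell := fun j => fama2_ell j m1
  set r := deriv (fun s => rho (μ s)) 0 with hrdef
  have hcr : c = r - 2 * (lam i (pr x) + Real.sqrt e) * deriv (fun s => lam i (μ s)) 0 := by
    have h1 := hr.sub (((hell i).add_const (Real.sqrt e)).pow 2)
    have h2 := hd.unique h1
    rw [h2]
    simp only [m2]
    norm_num
  have hden : 0 < 2 * (Real.sqrt e + lam i (pr x)) := by positivity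
  have hellz : ∀ j, j ≠ i → (1 - t) * deriv (fun s => lam j (μ s)) 0 = 0 := by
    intro j hj
    rcases mul_eq_zero.mp (hz j hj) with h1 | h1
    · rw [h1, zero_mul]
    · rw [fama2_min j (hell j) (by rw [m2]; exact h1), mul_zero]
  have hsum2 : (∑ j, (((if j = i then 1 else 1 - t) * deriv (fun s => lam j (μ s)) 0 : ℝ) : ℂ) *
        ((starRingEnd ℂ) (dir i) * dir j)) = ((deriv (fun s => lam i (μ s)) 0 : ℝ) : ℂ) := by
    rw [Finset.sum_eq_single i]
    · rw [if_pos rfl, one_mul, fama2_self, mul_one]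
    · intro j _ hj
      rw [if_neg hj, hellz j hj]
      simp
    · intro h; exact absurd (Finset.mem_univ i) h
  refine fama2_key i he hx hF μ m1 m2 m3 hr hell
    ((r / (2 * (Real.sqrt e + lam i (pr x))) : ℝ) : ℂ) ?_
    (D := ((r / (2 * (Real.sqrt e + lam i (pr x))) - deriv (fun s => lam i (μ s)) 0 : ℝ) : ℂ))
    ?_ ?_
  · rw [Complex.re_mul_ofReal, Complex.conj_re, hxre, hTe]
    field_simp
  · rw [hsum2]; push_cast; ring
  · rw [hS, Complex.ofReal_re, zero_div, zero_mul, sub_zero]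
    intro h
    apply hc
    rw [hcr]
    have h1 : r = (r / (2 * (Real.sqrt e + lam i (pr x)))) * (2 * (Real.sqrt e + lam i (pr x))) := by
      field_simp
    have h2 : r / (2 * (Real.sqrt e + lam i (pr x))) = deriv (fun s => lam i (μ s)) 0 := by
      linarith
    rw [h2] at h1
    linarith

theorem fama2_ll (j : Fin 3) (x y a b κ s : ℝ) (h : ll j a b = 0) :
    ll j (x + s * (κ * a)) (y + s * (κ * b)) = ll j x y := by
  have h1 : ll j (x + s * (κ * a)) (y + s * (κ * b)) = ll j x y + s * κ * ll j a b := by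
    unfold ll
    fin_cases j
    · show y + s * (κ * b) = y + s * κ * b
      ring
    · show x + s * (κ * a) + (y + s * (κ * b)) = x + y + s * κ * (a + b)
      ring
    · show x + s * (κ * a) = x + s * κ * a
      ring
  rw [h1, h, mul_zero, add_zero]

/-- The curve for the case of a foreign band. -/
theorem fama2_curve2 (j : Fin 3) {C : ℝ} (hC0 : 0 < C) (hC : ∀ h, |deriv eta h| ≤ C)
    {t0 e h x y : ℝ} (ht0 : 0 < t0) (ht1 : t0 ^ 2 ≤ 4 / 3 * e) (he : e < 1 / 1000)
    (hCe : 3 * C ^ 2 * e < 1) (hh : 64 * h ^ 2 < 1) (hlam : lam j (angxy h x y) ≠ 0)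
    (hr0 : 0 ≤ rho (angxy h x y)) (hr1 : rho (angxy h x y) ≤ 4 / 3 * e) :
    ∃ μ : ℝ → ℂ × ℂ, DifferentiableAt ℝ μ 0 ∧ μ 0 = angxy h x y ∧
      (∀ᶠ s in 𝓝 (0 : ℝ), Complex.normSq (μ s).1 + Complex.normSq (μ s).2 = 1) ∧
      HasDerivAt (fun s => rho (μ s)) (2 * t0) 0 ∧
      ∃ w : ℝ, HasDerivAt (fun s => lam j (μ s)) w 0 ∧ |w| < 1 := by
  have hh1 : |h| < 1 := by
    apply abs_lt_of_sq_lt_sq _ zero_le_one
    linarith
  have hLam : Lam (1 - Real.cos (ll j x y)) ≠ 0 := by
    intro h1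
    apply hlam
    rw [lam_angxy j x y hh1, h1, mul_zero]
  by_cases hh0 : h = 0
  · subst hh0
    have hc0 : cc 0 = 1 := cc_of_small (by norm_num)
    rw [rho_angxy x y hh1, hc0] at hr0 hr1
    set u : ℝ := 2 - Real.cos x - Real.cos y with hu
    have hu1 : u < 1 / 100 := by
      by_contra hcon
      rw [bt_eq_zero (not_lt.mp hcon)] at hr1
      linarith
    have hu2 : 1 / 200 < u := by
      by_contra hcon
      have h1 := antitone_bt (not_lt.mp hcon)
      rw [bt_mid] at h1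
      linarith
    obtain ⟨a, b, hab, hne⟩ := foot j hu2 hu1 hLam
    have hbt := deriv_bt_neg' (by linarith : 0 < u) hu1
    set κ : ℝ := 2 * t0 / (-(deriv bt u * (a * Real.sin x + b * Real.sin y))) with hκ
    obtain ⟨g1, g2, g3⟩ := curve_xy x y (κ * a) (κ * b) hh1
    refine ⟨fun t : ℝ => angxy 0 (x + t * (κ * a)) (y + t * (κ * b)), g1, g2,
      Filter.Eventually.of_forall g3, ?_, 0, ?_, by norm_num⟩
    · have hx1 : HasDerivAt (fun s : ℝ => x + s * (κ * a)) (κ * a) 0 := by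
        have := ((hasDerivAt_id (0 : ℝ)).mul_const (κ * a)).const_add x
        simpa using this
      have hy1 : HasDerivAt (fun s : ℝ => y + s * (κ * b)) (κ * b) 0 := by
        have := ((hasDerivAt_id (0 : ℝ)).mul_const (κ * b)).const_add y
        simpa using this
      have h2 := (hx1.cos.const_sub 2).sub hy1.cos
      have hbd : HasDerivAt bt (deriv bt u) (2 - Real.cos (x + 0 * (κ * a)) -
          Real.cos (y + 0 * (κ * b))) := by
        have h3 : 2 - Real.cos (x + 0 * (κ * a)) - Real.cos (y + 0 * (κ * b)) = u := by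
          rw [hu]; simp
        rw [h3]
        exact ((contDiff_bt.differentiable (by simp)) u).hasDerivAt
      have h4 := (hbd.comp (0 : ℝ) h2).const_sub (1 / 100)
      have h5 : (fun s : ℝ => rho (angxy 0 (x + s * (κ * a)) (y + s * (κ * b))))
          = fun s : ℝ => 1 / 100 - bt (2 - Real.cos (x + s * (κ * a)) -
            Real.cos (y + s * (κ * b))) := by
        funext s
        rw [rho_angxy _ _ hh1, hc0]
        ring
      rw [h5]
      refine HasDerivAt.congr_deriv h4 ?_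
      simp only [zero_mul, add_zero]
      have h6 : deriv bt u * (a * Real.sin x + b * Real.sin y) ≠ 0 := mul_ne_zero hbt.ne hne
      have h7 : κ * (-(deriv bt u * (a * Real.sin x + b * Real.sin y))) = 2 * t0 := by
        rw [hκ, div_mul_cancel₀]
        exact neg_ne_zero.mpr h6
      rw [← h7]
      ring
    · have h5 : (fun s : ℝ => lam j (angxy 0 (x + s * (κ * a)) (y + s * (κ * b))))
          = fun s : ℝ => eta 0 * Lam (1 - Real.cos (ll j x y)) := by
        funext s
        rw [lam_angxy j _ _ hh1, fama2_ll j x y a b κ s hab]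
      rw [h5]
      exact hasDerivAt_const _ _
  · obtain ⟨g1, g2, g3⟩ := curve_h x y hh1
    set κ : ℝ := t0 / h with hκ
    have hκh : κ * h = t0 := by rw [hκ]; field_simp
    have hcc : HasDerivAt cc (deriv cc h) h :=
      ((contDiff_cc.differentiable (by simp)) h).hasDerivAt
    have hee : HasDerivAt eta (deriv eta h) h :=
      ((contDiff_eta.differentiable (by simp)) h).hasDerivAt
    have hmul : HasDerivAt (fun s : ℝ => κ * s) κ 0 := by
      simpa using (hasDerivAt_id (0 : ℝ)).const_mul κ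
    have hadd : HasDerivAt (fun s : ℝ => h + κ * s) κ 0 := hmul.const_add h
    have hcc' : HasDerivAt (fun s : ℝ => cc (h + κ * s)) (deriv cc h * κ) 0 :=
      HasDerivAt.comp (h₂ := cc) (0 : ℝ) (by rw [mul_zero, add_zero]; exact hcc) hadd
    have hee' : HasDerivAt (fun s : ℝ => eta (h + κ * s)) (deriv eta h * κ) 0 :=
      HasDerivAt.comp (h₂ := eta) (0 : ℝ) (by rw [mul_zero, add_zero]; exact hee) hadd
    have hdc : deriv cc h = 0 := deriv_cc_of_small (by linarith)
    set B : ℝ := bt (2 - Real.cos x - Real.cos y) with hB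
    set L : ℝ := Lam (1 - Real.cos (ll j x y)) with hL
    have hL0 : 0 ≤ L := Lam_nonneg _
    have hL1 : L ≤ 1 / 8 := Lam_le _
    have htend : Filter.Tendsto (fun s : ℝ => κ * s) (𝓝 0) (𝓝 0) := by
      have := hmul.continuousAt.tendsto
      simpa using this
    have g3' := htend.eventually g3
    have h1 := (((hadd.pow 2).add_const (1 / 100)).sub (hcc'.mul_const B))
    refine ⟨fun s : ℝ => angxy (h + κ * s) x y, ?_, ?_, g3'.mono (fun s hs => hs.2), ?_,
      deriv eta h * κ * L, ?_, ?_⟩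
    · exact DifferentiableAt.comp (g := fun t : ℝ => angxy (h + t) x y) (0 : ℝ)
        (by rw [mul_zero]; exact g1) hmul.differentiableAt
    · show angxy (h + κ * 0) x y = angxy h x y
      rw [mul_zero, add_zero]
    · have h2 := h1.congr_of_eventuallyEq (f₁ := fun s : ℝ => rho (angxy (h + κ * s) x y)) (by
        filter_upwards [g3'] with s hs
        rw [rho_angxy x y hs.1]
        rfl)
      refine HasDerivAt.congr_deriv h2 ?_
      rw [hdc, mul_zero, add_zero]
      norm_num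
      linarith
    · refine (hee'.mul_const L).congr_of_eventuallyEq ?_
      filter_upwards [g3'] with s hs
      rw [lam_angxy j x y hs.1]
    · by_cases h128 : 128 * h ^ 2 ≤ 1
      · rw [deriv_eta_of_small h128]
        simp
      · have h3 : 1 / 12 < |h| := by
          apply lt_of_pow_lt_pow_left₀ 2 (abs_nonneg h)
          rw [sq_abs]
          linarith [not_le.mp h128]
        have hhp : 0 < |h| := by linarith
        have h4 : |κ| < 12 * t0 := by
          rw [hκ, abs_div, abs_of_pos ht0, div_lt_iff₀ hhp]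
          nlinarith
        have h5 : |deriv eta h * κ * L| ≤ C * (12 * t0) * (1 / 8) := by
          rw [abs_mul, abs_mul, abs_of_nonneg hL0]
          have := hC h
          gcongr
        have h6 : C * (12 * t0) * (1 / 8) < 1 := by
          apply lt_of_pow_lt_pow_left₀ 2 zero_le_one
          have h7 : (C * (12 * t0) * (1 / 8)) ^ 2 = 9 / 4 * C ^ 2 * t0 ^ 2 := by ring
          rw [h7, one_pow]
          have h8 : 9 / 4 * C ^ 2 * t0 ^ 2 ≤ 9 / 4 * C ^ 2 * (4 / 3 * e) :=
            mul_le_mul_of_nonneg_left ht1 (by positivity)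
          linarith
        linarith

/-- A foreign band. -/
theorem fama2_case2 (i j : Fin 3) (hji : j ≠ i) {C : ℝ} (hC0 : 0 < C)
    (hC : ∀ h, |deriv eta h| ≤ C) {e t : ℝ} (he : 0 < e) (he' : e < 1 / 1000)
    (hCe : 3 * C ^ 2 * e < 1) (ht : t ∈ Icc (0 : ℝ) 1) {x : C3}
    (hx : PhiX x = 0) (hF : FA i e (t, x) = 0) (hl : 0 < (1 - t) * lam j (pr x))
    (hrot : ((starRingEnd ℂ) (dir i) * x.2.2).im + (uA i (t, x)).im / (3 * (uA i (t, x)).re) *
      ((starRingEnd ℂ) (dir i) * x.2.2).re = 0) :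
    RegAt PhiX (fun y => FA i e (t, y)) x := by
  obtain ⟨hT0, hT2⟩ := fama2_T i he hF
  obtain ⟨hsph, hns⟩ := fama2_phi hx
  have hxi := fama2_xi i t x
  have hlj : lam j (pr x) ≠ 0 := by
    intro h; rw [h, mul_zero] at hl; exact lt_irrefl _ hl
  have hrho0 : 0 ≤ rho (pr x) := hns ▸ Complex.normSq_nonneg _
  have hothers : ∀ k, k ≠ j → lam k (pr x) = 0 := by
    intro k hk
    by_contra hcon
    exact absurd (rho_neg_of_lam hk hsph hcon hlj) (not_lt.mpr hrho0)
  obtain ⟨s, hs2, hpair⟩ := fama2_pair hji.symm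
  have hsum : (∑ k, (((if k = i then 1 else 1 - t) * lam k (pr x) : ℝ) : ℂ) *
        ((starRingEnd ℂ) (dir i) * dir k)) =
        (((1 - t) * lam j (pr x) : ℝ) : ℂ) * ⟨-(1 / 2), s * (Real.sqrt 3 / 2)⟩ := by
    rw [Finset.sum_eq_single j]
    · rw [if_neg hji, hpair]
    · intro k _ hk
      rw [hothers k hk]
      simp
    · intro h; exact absurd (Finset.mem_univ j) h
  rw [hsum] at hxi
  set l : ℝ := (1 - t) * lam j (pr x) with hldef
  set T : ℝ := (uA i (t, x)).re with hTdef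
  set S : ℝ := (uA i (t, x)).im with hSdef
  have hxre : ((starRingEnd ℂ) (dir i) * x.2.2).re = T - l / 2 := by
    rw [hxi, Complex.add_re, Complex.re_ofReal_mul]
    simp only [hTdef]
    ring
  have hxim : ((starRingEnd ℂ) (dir i) * x.2.2).im = S + s * (Real.sqrt 3 / 2) * l := by
    rw [hxi, Complex.add_im, Complex.im_ofReal_mul]
    simp only [hSdef]
    ring
  rw [hxre, hxim] at hrot
  have hSS : (s * S) ^ 2 = S ^ 2 := by rw [mul_pow, hs2, one_mul]
  have hrot2 : 8 * T * (s * S) + 3 * Real.sqrt 3 * T * l - l * (s * S) = 0 := by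
    have h1 : 6 * T * s * (S + s * (Real.sqrt 3 / 2) * l + S / (3 * T) * (T - l / 2)) = 0 := by
      rw [hrot, mul_zero]
    have h2 : 6 * T * s * (S + s * (Real.sqrt 3 / 2) * l + S / (3 * T) * (T - l / 2))
        = 8 * T * (s * S) + 3 * Real.sqrt 3 * T * l * s ^ 2 - l * (s * S) := by
      field_simp
      ring
    rw [h2, hs2, mul_one] at h1
    exact h1
  obtain ⟨hfb, ht0⟩ := foreign_band hT0 (by rw [hSS]; linarith) hl hrot2
  have hTe : T ^ 2 - (s * S) ^ 2 / 3 = e := by rw [hSS, hT2]; ring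
  rw [hTe] at hfb
  have hrho : rho (pr x) = (T - l / 2) ^ 2 + (s * S + Real.sqrt 3 / 2 * l) ^ 2 := by
    have h1 : Complex.normSq ((starRingEnd ℂ) (dir i) * x.2.2) = rho (pr x) := by
      rw [Complex.normSq_mul, Complex.normSq_conj, fama2_normSq_dir, one_mul, hns]
    rw [← h1, Complex.normSq_apply, hxre, hxim]
    linear_combination (-S ^ 2 + (Real.sqrt 3 / 2 * l) ^ 2) * hs2
  have hh64 : 64 * hgt (pr x) ^ 2 < 1 := by
    by_contra hcon
    apply hlj
    unfold lam
    rw [(eta_eq_zero_iff _).mpr (not_lt.mp hcon), zero_mul]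
  have hh : |hgt (pr x)| < 1 := by
    apply abs_lt_of_sq_lt_sq _ zero_le_one
    linarith [sq_nonneg (hgt (pr x))]
  obtain ⟨a, b, hab⟩ := exists_angxy hsph hh
  have hsq0 : (T - l / 2) ^ 2 ≤ 4 / 3 * e := by
    have := sq_nonneg (s * S + Real.sqrt 3 / 2 * l)
    linarith
  obtain ⟨μ, m1, m2, m3, hr, w, hw, hw1⟩ := fama2_curve2 j hC0 hC ht0 hsq0 he' hCe hh64
    (x := a) (y := b) (by rw [← hab]; exact hlj) (by rw [← hab]; exact hrho0)
    (by rw [← hab, hrho]; exact hfb)
  rw [← hab] at m2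
  have hell : ∀ k, HasDerivAt (fun s => lam k (μ s)) (if k = j then w else 0) 0 := by
    intro k
    by_cases hk : k = j
    · rw [if_pos hk, hk]; exact hw
    · rw [if_neg hk]
      have h1 := fama2_ell k m1
      rwa [fama2_min k h1 (by rw [m2]; exact hothers k hk)] at h1
  have hsum2 : (∑ k, (((if k = i then 1 else 1 - t) * (if k = j then w else 0) : ℝ) : ℂ) *
        ((starRingEnd ℂ) (dir i) * dir k)) =
        (((1 - t) * w : ℝ) : ℂ) * ⟨-(1 / 2), s * (Real.sqrt 3 / 2)⟩ := by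
    rw [Finset.sum_eq_single j]
    · rw [if_neg hji, if_pos rfl, hpair]
    · intro k _ hk
      rw [if_neg hk]
      simp
    · intro h; exact absurd (Finset.mem_univ j) h
  refine fama2_key i he hx hF μ m1 m2 m3 hr hell 1 ?_
    (D := 1 - (((1 - t) * w : ℝ) : ℂ) * ⟨-(1 / 2), s * (Real.sqrt 3 / 2)⟩) (by rw [hsum2]) ?_
  · rw [mul_one, Complex.conj_re, hxre]
  · rw [Complex.sub_re, Complex.sub_im, Complex.re_ofReal_mul, Complex.im_ofReal_mul,
      Complex.one_re, Complex.one_im]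
    rw [← hTdef, ← hSdef]
    simp only []
    set W : ℝ := (1 - t) * w with hW
    have hW1 : |W| < 1 := by
      rw [hW, abs_mul]
      have h1 : |1 - t| ≤ 1 := by
        rw [abs_le]; constructor <;> linarith [ht.1, ht.2]
      calc |1 - t| * |w| ≤ 1 * |w| := mul_le_mul_of_nonneg_right h1 (abs_nonneg _)
        _ < 1 := by rw [one_mul]; exact hw1
    set q : ℝ := S / (3 * T) * (s * (Real.sqrt 3 / 2)) with hq
    have hr3 : Real.sqrt 3 ^ 2 = 3 := Real.sq_sqrt (by norm_num)
    have hq1 : |q| < 1 / 2 := by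
      apply abs_lt_of_sq_lt_sq _ (by norm_num)
      have h1 : q ^ 2 = S ^ 2 / (12 * T ^ 2) := by
        rw [hq, mul_pow, mul_pow, div_pow, div_pow, hs2, hr3]
        field_simp
        ring
      rw [h1, div_lt_iff₀ (by positivity)]
      linarith
    have h2 : |W * (1 / 2 + q)| < 1 := by
      rw [abs_mul]
      have h3 : |1 / 2 + q| ≤ 1 := by
        rw [abs_le]
        have := abs_lt.mp hq1
        constructor <;> linarith [this.1, this.2]
      calc |W| * |1 / 2 + q| ≤ |W| * 1 := mul_le_mul_of_nonneg_left h3 (abs_nonneg _)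
        _ < 1 := by rw [mul_one]; exact hW1
    have h4 := (abs_lt.mp h2).1
    have h5 : 1 - W * -(1 / 2) - S / (3 * T) * (0 - W * (s * (Real.sqrt 3 / 2)))
        = 1 + W * (1 / 2 + q) := by
      rw [hq]; ring
    rw [h5]
    linarith

/-- Family A is regular for small `e`. -/
theorem reg_FA (i : Fin 3) : ∃ e₀ > 0, ∀ e, 0 < e → e < e₀ → ∀ t ∈ Icc (0 : ℝ) 1, ∀ x : C3,
    PhiX x = 0 → FA i e (t, x) = 0 → RegAt PhiX (fun y => FA i e (t, y)) x := by
  obtain ⟨C, hC0, hC⟩ := exists_bound_deriv_eta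
  refine ⟨min (1 / 1000) (1 / (4 * (C ^ 2 + 1))), by positivity, ?_⟩
  intro e he hee t ht x hx hF
  have he1 : e < 1 / 1000 := lt_of_lt_of_le hee (min_le_left _ _)
  have he2 : e < 1 / (4 * (C ^ 2 + 1)) := lt_of_lt_of_le hee (min_le_right _ _)
  have hCe : 3 * C ^ 2 * e < 1 := by
    rw [lt_div_iff₀ (by positivity)] at he2
    nlinarith
  by_cases hrot : ((starRingEnd ℂ) (dir i) * x.2.2).im +
      (uA i (t, x)).im / (3 * (uA i (t, x)).re) * ((starRingEnd ℂ) (dir i) * x.2.2).re = 0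
  · by_cases hz : ∀ j, j ≠ i → (1 - t) * lam j (pr x) = 0
    · exact fama2_case1 i he he1 hx hF hz hrot
    · push Not at hz
      obtain ⟨j, hji, hj⟩ := hz
      have hl : 0 < (1 - t) * lam j (pr x) := by
        apply lt_of_le_of_ne _ (Ne.symm hj)
        exact mul_nonneg (by linarith [ht.2]) (fama2_lam_nonneg _ _)
      exact fama2_case2 i j hji hC0 hC he he1 hCe ht hx hF hl hrot
  · exact fama2_rot i he hx hF hrot

end Pool.Agent.Tri
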