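import Mathlib
import Pool.Agent.H.MP_5efd29_gt.FamDefs
import Pool.Agent.H.MP_5efd29_gt.LensB
import Pool.Agent.H.MP_5efd29_gt.RegX

open scoped ContDiff Topology
open Set

noncomputable section

namespace Pool.Agent.Tri

/-- A regular family gives an equivariant diffeomorphism of the regions at the two ends. -/
theorem eqDiffeo_family (Φ : C3 → ℂ) (F : ℝ × C3 → ℝ) (hΦ : ContDiff ℝ ∞ Φ) (hF : ContDiff ℝ ∞ F)
    (hΦa : ∀ x, Φ (act x) = Φ x) (hFa : ∀ t x, F (t, act x) = F (t, x))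
    (bdd : ∃ R : ℝ, ∀ t ∈ Icc (0 : ℝ) 1, ∀ x, ‖Φ x‖ ≤ 1 → |F (t, x)| ≤ 1 → ‖x‖ ≤ R)
    (reg : ∀ t ∈ Icc (0 : ℝ) 1, ∀ x, Φ x = 0 → F (t, x) = 0 → RegAt Φ (fun y => F (t, y)) x) :
    EqDiffeo 1 {x | Φ x = 0 ∧ 0 ≤ F (0, x)} {x | Φ x = 0 ∧ 0 ≤ F (1, x)} := by
  obtain ⟨Θ, Ξ, hΘ, hΞ, h0, h1, h2, h3, h4, h5⟩ := isotopy_C3_real Φ F hΦ hF hΦa hFa bdd reg
  have hin : ContDiff ℝ ∞ (fun x : C3 => ((1 : ℝ), x)) := contDiff_const.prodMk contDiff_id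
  refine ⟨fun x => Θ (1, x), fun x => Ξ (1, x), ⟨smoothOnSet_of_contDiff (hΘ.comp hin) _,
    smoothOnSet_of_contDiff (hΞ.comp hin) _, ?_, ?_, fun x _ => h1 1 x, fun x _ => h2 1 x⟩,
    fun x _ => h5 1 x⟩
  · rintro x ⟨hx1, hx2⟩
    refine ⟨(h3 1 x).trans hx1, ?_⟩
    have h6 := (h4 1 x hx1).2 hx2
    rwa [Real.smoothTransition.one] at h6
  · rintro y ⟨hy1, hy2⟩
    have h7 : Φ (Ξ (1, y)) = 0 := by
      rw [← h3 1 (Ξ (1, y)), h2]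
      exact hy1
    refine ⟨h7, ?_⟩
    have h6 := (h4 1 (Ξ (1, y)) h7).1
    rw [Real.smoothTransition.one, h2] at h6
    exact h6 hy2

/-- Regions in `S³ × ℝ` cut out by functions bounded above by `C - s²`. -/
theorem eqDiffeo_family_M (F : ℝ × C3 → ℝ) (hF : ContDiff ℝ ∞ F)
    (hFa : ∀ t x, F (t, act x) = F (t, x)) (C : ℝ)
    (hC : ∀ t ∈ Icc (0 : ℝ) 1, ∀ x : C3, Complex.normSq x.1 + Complex.normSq x.2.1 ≤ 2 →
      F (t, x) ≤ C - x.2.2.re ^ 2)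
    (reg : ∀ t ∈ Icc (0 : ℝ) 1, ∀ x, PhiM x = 0 → F (t, x) = 0 →
      RegAt PhiM (fun y => F (t, y)) x) :
    EqDiffeo 1 {x | PhiM x = 0 ∧ 0 ≤ F (0, x)} {x | PhiM x = 0 ∧ 0 ≤ F (1, x)} := by
  apply eqDiffeo_family PhiM F contDiff_PhiM hF PhiM_act hFa _ reg
  refine ⟨3 + |C|, ?_⟩
  intro t ht x hx1 hx2
  obtain ⟨h1, h2⟩ := bdd_PhiM hx1
  have h3 := hC t ht x h1
  have h4 := (abs_le.1 hx2).1
  have hC0 := abs_nonneg C
  have hC1 := le_abs_self C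
  have h5 : x.2.2.re ^ 2 ≤ (|C| + 1) ^ 2 := by nlinarith
  have h6 : |x.2.2.re| ≤ |C| + 1 := by
    have := Real.sqrt_le_sqrt h5
    rwa [Real.sqrt_sq_eq_abs, Real.sqrt_sq (by linarith)] at this
  have n1 := Complex.normSq_nonneg x.1
  have n2 := Complex.normSq_nonneg x.2.1
  rw [Complex.normSq_eq_norm_sq, Complex.normSq_eq_norm_sq] at h1
  have m1 := norm_nonneg x.1
  have m2 := norm_nonneg x.2.1
  have k1 : ‖x.1‖ ≤ 2 := by nlinarith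
  have k2 : ‖x.2.1‖ ≤ 2 := by nlinarith
  have k3 : ‖x.2.2‖ ≤ |x.2.2.re| + |x.2.2.im| := Complex.norm_le_abs_re_add_abs_im _
  rw [Prod.norm_def, Prod.norm_def]
  exact max_le (by linarith) (max_le (by linarith) (by linarith))

theorem inv_region_M (f : C3 → ℝ) (hf : ∀ x, f (act x) = f x) :
    Inv {x | PhiM x = 0 ∧ 0 ≤ f x} := by
  constructor
  · rintro x ⟨hx, _⟩
    have h1 : (PhiM x).re = 0 := by rw [hx]; rfl
    have h2 : Complex.normSq x.1 + Complex.normSq x.2.1 - 1 = 0 := h1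
    rw [Complex.normSq_eq_norm_sq, Complex.normSq_eq_norm_sq] at h2
    show ‖x.1‖ ^ 2 + ‖x.2.1‖ ^ 2 = 1
    linarith
  · rintro x ⟨hx, hx2⟩
    refine ⟨(PhiM_act x).trans hx, ?_⟩
    rw [hf]
    exact hx2

theorem inv_region_X (f : C3 → ℝ) (hf : ∀ x, f (act x) = f x) :
    Inv {x | PhiX x = 0 ∧ 0 ≤ f x} := by
  constructor
  · rintro x ⟨hx, _⟩
    have h1 : (PhiX x).re = 0 := by rw [hx]; rfl
    have h2 : Complex.normSq x.1 + Complex.normSq x.2.1 - 1 = 0 := h1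
    rw [Complex.normSq_eq_norm_sq, Complex.normSq_eq_norm_sq] at h2
    show ‖x.1‖ ^ 2 + ‖x.2.1‖ ^ 2 = 1
    linarith
  · rintro x ⟨hx, hx2⟩
    refine ⟨(PhiX_act x).trans hx, ?_⟩
    rw [hf]
    exact hx2

end Pool.Agent.Tri
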