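import Mathlib
import Pool.Agent.H.MP_5efd29_gt.FamA2
import Pool.Agent.H.MP_5efd29_gt.FamO

open scoped ContDiff Topology
open Set

noncomputable section

namespace Pool.Agent.Tri

theorem RR_eq (i : Fin 3) {ε : ℝ} (hε : 0 < ε) :
    RR i ε = {x | PhiX x = 0 ∧ 0 ≤ FA i (ε ^ 2) (0, x)} := by
  ext x
  exact and_congr_right fun _ => mem_smoothSector_iff i hε x

theorem inv_RR (i : Fin 3) (ε : ℝ) : Inv (RR i ε) := by
  refine ⟨fun x hx => inv_Xt.1 hx.1, fun x hx => ⟨?_, ?_⟩⟩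
  · rw [PhiX_act]
    exact hx.1
  · rw [GG_act]
    exact hx.2

theorem isCompact_RR (i : Fin 3) (ε : ℝ) : IsCompact (RR i ε) := by
  have hsec : IsClosed (smoothSector i ε) := by
    have hr : Continuous (rot i) := continuous_const.mul continuous_id
    exact (isClosed_le continuous_const (Complex.continuous_re.comp hr)).inter
      (isClosed_le (((Complex.continuous_im.comp hr).pow 2).add continuous_const)
        (continuous_const.mul ((Complex.continuous_re.comp hr).pow 2)))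
  have h : RR i ε = Xt ∩ GG ⁻¹' smoothSector i ε := rfl
  rw [h]
  exact isCompact_Xt.inter_right (hsec.preimage contDiff_GG.continuous)

theorem RR_mono (i : Fin 3) {ε ε' : ℝ} (h0 : 0 ≤ ε') (h : ε' ≤ ε) : RR i ε ⊆ RR i ε' := by
  rintro x ⟨h1, h2, h3⟩
  refine ⟨h1, h2, ?_⟩
  have h4 : ε' ^ 2 ≤ ε ^ 2 := pow_le_pow_left₀ h0 h 2
  exact le_trans (by linarith) h3

theorem fama3_lt {e₀ ε : ℝ} (he₀ : 0 < e₀) (hε : 0 < ε) (hε' : ε < Real.sqrt e₀) :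
    ε ^ 2 < e₀ := by
  calc ε ^ 2 < Real.sqrt e₀ ^ 2 := pow_lt_pow_left₀ hε' hε.le two_ne_zero
    _ = e₀ := Real.sq_sqrt he₀.le

theorem fama3_mono (i : Fin 3) {e e' : ℝ} (h : e' ≤ e) (q : ℝ × C3) : FA i e q ≤ FA i e' q := by
  unfold FA
  exact sub_le_sub_left (Real.sqrt_le_sqrt (by linarith)) _

/-- Erasing the other two bands. -/
theorem eqDiffeo_A (i : Fin 3) : ∃ ε₀ > 0, ∀ ε, 0 < ε → ε < ε₀ →
    EqDiffeo 1 (RR i ε) {x | PhiX x = 0 ∧ 0 ≤ FA i (ε ^ 2) (1, x)} := by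
  obtain ⟨e₀, he₀, h⟩ := reg_FA i
  refine ⟨Real.sqrt e₀, Real.sqrt_pos.2 he₀, fun ε hε hε' => ?_⟩
  have h2 : ε ^ 2 < e₀ := fama3_lt he₀ hε hε'
  have h3 : 0 < ε ^ 2 := by positivity
  rw [RR_eq i hε]
  exact eqDiffeo_family PhiX (FA i (ε ^ 2)) contDiff_PhiX (contDiff_FA i h3) PhiX_act
    (fun t x => FA_act i _ t x) ⟨10, fun t _ x hx _ => bdd_PhiX hx⟩ (h (ε ^ 2) h3 h2)

/-- The inclusions between the smoothed pieces are homotopic to homeomorphisms. -/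
theorem isotopy_RR (i : Fin 3) : ∃ ε₀ > 0, ∀ ε ε' : ℝ, 0 < ε' → ε' ≤ ε → ε < ε₀ →
    ∃ Θ Ξ : ℝ × C3 → C3, Continuous Θ ∧ Continuous Ξ ∧ (∀ x, Θ (0, x) = x) ∧
      (∀ t ∈ Icc (0 : ℝ) 1, ∀ x ∈ RR i ε, Θ (t, x) ∈ RR i ε') ∧
      (∀ x, Ξ (1, Θ (1, x)) = x) ∧ (∀ x, Θ (1, Ξ (1, x)) = x) ∧
      ∀ x ∈ RR i ε', Ξ (1, x) ∈ RR i ε := by
  obtain ⟨e₀, he₀, h⟩ := reg_FA i
  refine ⟨Real.sqrt e₀, Real.sqrt_pos.2 he₀, fun ε ε' hε' hle hεlt => ?_⟩
  have hε : 0 < ε := lt_of_lt_of_le hε' hle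
  have h2 : ε ^ 2 < e₀ := fama3_lt he₀ hε hεlt
  have hp : 0 < ε ^ 2 := by positivity
  have hp' : 0 < ε' ^ 2 := by positivity
  obtain ⟨a, ha⟩ : ∃ a, a = Real.log (ε ^ 2) := ⟨_, rfl⟩
  obtain ⟨b, hb⟩ : ∃ b, b = Real.log (ε' ^ 2) := ⟨_, rfl⟩
  have hea : Real.exp a = ε ^ 2 := by rw [ha, Real.exp_log hp]
  have heb : Real.exp b = ε' ^ 2 := by rw [hb, Real.exp_log hp']
  have hba : b ≤ a := by
    rw [ha, hb]
    exact Real.log_le_log hp' (pow_le_pow_left₀ hε'.le hle 2)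
  have hup : ∀ t ∈ Icc (0 : ℝ) 1, Real.exp ((1 - t) * a + t * b) ≤ ε ^ 2 := by
    intro t ht
    rw [← hea]
    apply Real.exp_le_exp.2
    nlinarith [ht.1, ht.2]
  have hlo : ∀ t ∈ Icc (0 : ℝ) 1, ε' ^ 2 ≤ Real.exp ((1 - t) * a + t * b) := by
    intro t ht
    rw [← heb]
    apply Real.exp_le_exp.2
    nlinarith [ht.1, ht.2]
  have hst : ∀ t : ℝ, Real.smoothTransition t ∈ Icc (0 : ℝ) 1 := fun t =>
    ⟨Real.smoothTransition.nonneg t, Real.smoothTransition.le_one t⟩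
  have hzero : ∀ x, FAe i a b (0, x) = FA i (ε ^ 2) (0, x) := by
    intro x
    rw [FAe_eq]
    congr 2
    rw [← hea]
    congr 1
    ring
  have hone : ∀ x, FAe i a b (1, x) = FA i (ε' ^ 2) (0, x) := by
    intro x
    rw [FAe_eq]
    congr 2
    rw [← heb]
    congr 1
    ring
  have hreg : ∀ t ∈ Icc (0 : ℝ) 1, ∀ x, PhiX x = 0 → FAe i a b (t, x) = 0 →
      Function.Surjective (fun v : C3 =>
        (fderiv ℝ PhiX x v, fderiv ℝ (fun y => FAe i a b (t, y)) x v)) := by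
    intro t ht x hx hF
    have e1 : (fun y => FAe i a b (t, y)) =
        fun y => FA i (Real.exp ((1 - t) * a + t * b)) (0, y) := by
      funext y
      exact FAe_eq i a b t y
    rw [e1]
    rw [FAe_eq] at hF
    exact h _ (Real.exp_pos _) (lt_of_le_of_lt (hup t ht) h2) 0 ⟨le_refl _, zero_le_one⟩ x hx hF
  obtain ⟨Θ, Ξ, hΘ, hΞ, h0, k1, k2, k3, k4, -⟩ := isotopy_C3_real PhiX (FAe i a b) contDiff_PhiX
    (contDiff_FAe i a b) PhiX_act (fun t x => FAe_act i a b t x)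
    ⟨10, fun t _ x hx _ => bdd_PhiX hx⟩ hreg
  refine ⟨Θ, Ξ, hΘ.continuous, hΞ.continuous, h0, ?_, fun x => k1 1 x, fun x => k2 1 x, ?_⟩
  · intro t _ x hx
    rw [RR_eq i hε] at hx
    rw [RR_eq i hε']
    obtain ⟨hx1, hx2⟩ := hx
    refine ⟨(k3 t x).trans hx1, ?_⟩
    have h3 : 0 ≤ FAe i a b (0, x) := by
      rw [hzero]
      exact hx2
    have h4 := (k4 t x hx1).2 h3
    rw [FAe_eq] at h4
    exact h4.trans (fama3_mono i (hlo _ (hst t)) _)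
  · intro x hx
    rw [RR_eq i hε'] at hx
    rw [RR_eq i hε]
    obtain ⟨hx1, hx2⟩ := hx
    have hy : PhiX (Ξ (1, x)) = 0 := by
      have h3 := k3 1 (Ξ (1, x))
      rw [k2] at h3
      rw [← h3]
      exact hx1
    refine ⟨hy, ?_⟩
    have h4 := k4 1 (Ξ (1, x)) hy
    rw [k2, Real.smoothTransition.one, hone, hzero] at h4
    exact h4.1 hx2

end Pool.Agent.Tri
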