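import Mathlib
import Pool.Agent.H.MP_5efd29_gt.FamO
import Pool.Agent.H.MP_5efd29_gt.FunB

open scoped ContDiff Topology
open Set

noncomputable section

namespace Pool.Agent.Tri

/-! ### The common form of the two families -/

/-- The common form of the families B and C, at a fixed time. -/
def famb_G (j : Fin 3) (e β τ r : ℝ) (x : C3) : ℝ :=
  hgt (pr x) ^ 2 + 1 / 100 - β * (cc (hgt (pr x)) * bt (uu (pr x) + τ)) - x.2.2.re ^ 2 -
    (lam j (pr x) + r * Real.sqrt (x.2.2.re ^ 2 / 3 + e)) ^ 2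

theorem famb_FB (j : Fin 3) (e t : ℝ) : (fun y => FB j e (t, y)) = famb_G j e 1 t 1 := by
  funext y
  unfold FB famb_G
  rw [one_mul, one_mul]

theorem famb_FC (j : Fin 3) (e t : ℝ) : (fun y => FC j e (t, y)) = famb_G j e 0 1 (1 - t) := by
  funext y
  unfold FC famb_G
  rw [zero_mul, sub_zero]

theorem famb_sqrt {E : Type*} [NormedAddCommGroup E] [NormedSpace ℝ E] {s : E → ℝ}
    (hs : ContDiff ℝ ∞ s) {e : ℝ} (he : 0 < e) :
    ContDiff ℝ ∞ (fun q : E => Real.sqrt (s q ^ 2 / 3 + e)) := by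
  have h1 : ContDiff ℝ ∞ (fun q : E => s q ^ 2 / 3 + e) := ((hs.pow 2).div_const 3).add contDiff_const
  apply h1.sqrt
  intro q
  have : 0 ≤ s q ^ 2 := sq_nonneg _
  have h2 : 0 < s q ^ 2 / 3 + e := by linarith
  exact h2.ne'

theorem famb_re : ContDiff ℝ ∞ (fun q : ℝ × C3 => q.2.2.2.re) :=
  funb1_contDiff_re.comp (contDiff_snd.comp (contDiff_snd.comp contDiff_snd))

theorem famb_pr : ContDiff ℝ ∞ (fun q : ℝ × C3 => pr q.2) := contDiff_pr.comp contDiff_snd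

theorem famb_hgt : ContDiff ℝ ∞ (fun q : ℝ × C3 => hgt (pr q.2)) := contDiff_hgt.comp famb_pr

theorem famb_lam (j : Fin 3) : ContDiff ℝ ∞ (fun q : ℝ × C3 => lam j (pr q.2)) :=
  (contDiff_lam j).comp famb_pr

theorem contDiff_FB (j : Fin 3) {e : ℝ} (he : 0 < e) : ContDiff ℝ ∞ (FB j e) := by
  have hφ : ContDiff ℝ ∞ (fun z : (ℝ × C3) × ℝ × ℝ × ℝ × ℝ =>
      bt (2 - z.2.1 - z.2.2.2.1 + z.1.1)) :=
    contDiff_bt.comp (by fun_prop)
  have h1 := contDiff_cutoff (fun q : ℝ × C3 => pr q.2) famb_pr _ hφ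
  have h2 := famb_sqrt famb_re he
  exact ((((famb_hgt.pow 2).add contDiff_const).sub h1).sub (famb_re.pow 2)).sub
    (((famb_lam j).add h2).pow 2)

theorem FB_act (j : Fin 3) (e t : ℝ) (x : C3) : FB j e (t, act x) = FB j e (t, x) := by
  unfold FB
  simp only [hgt_act, uu_act, lam_act]
  rfl

theorem contDiff_FC (j : Fin 3) {e : ℝ} (he : 0 < e) : ContDiff ℝ ∞ (FC j e) := by
  have h2 := famb_sqrt famb_re he
  have h3 : ContDiff ℝ ∞ (fun q : ℝ × C3 => 1 - q.1) := contDiff_const.sub contDiff_fst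
  exact (((famb_hgt.pow 2).add contDiff_const).sub (famb_re.pow 2)).sub
    (((famb_lam j).add (h3.mul h2)).pow 2)

theorem FC_act (j : Fin 3) (e t : ℝ) (x : C3) : FC j e (t, act x) = FC j e (t, x) := by
  unfold FC
  simp only [hgt_act, lam_act]
  rfl

theorem famb_PhiM {x : C3} (hx : PhiM x = 0) :
    Complex.normSq x.1 + Complex.normSq x.2.1 = 1 ∧ x.2.2.im = 0 := by
  have h1 := congrArg Complex.re hx
  have h2 := congrArg Complex.im hx
  unfold PhiM at h1 h2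
  simp only [Complex.zero_re, Complex.zero_im] at h1 h2
  exact ⟨by linarith, h2⟩

theorem famb_lam_nonneg (j : Fin 3) (m : ℂ × ℂ) : 0 ≤ lam j m :=
  mul_nonneg (eta_nonneg _) (Lam_nonneg _)

theorem famb_sqrt_lt {e : ℝ} (he : 0 < e) (he' : e < 1 / 100) : Real.sqrt e < 1 / 10 := by
  rw [Real.sqrt_lt' (by norm_num)]
  norm_num at he' ⊢
  linarith

/-- The case `s ≠ 0`. -/
theorem famb_reg_s (j : Fin 3) {e β τ r : ℝ} (he : 0 < e) (hr : 0 ≤ r) {x : C3}
    (hx : PhiM x = 0) (hd : DifferentiableAt ℝ (famb_G j e β τ r) x) (hs : x.2.2.re ≠ 0) :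
    RegAt PhiM (famb_G j e β τ r) x := by
  obtain ⟨hx1, hx2⟩ := famb_PhiM hx
  have hS : 0 < Real.sqrt (x.2.2.re ^ 2 / 3 + e) := by
    apply Real.sqrt_pos.2
    have : 0 ≤ x.2.2.re ^ 2 := sq_nonneg _
    linarith
  have hl := famb_lam_nonneg j (pr x)
  have hc : -(2 * x.2.2.re) - 2 * (lam j (pr x) + r * Real.sqrt (x.2.2.re ^ 2 / 3 + e)) *
      (r * (2 * x.2.2.re / 3 / (2 * Real.sqrt (x.2.2.re ^ 2 / 3 + e)))) ≠ 0 := by
    have h1 : -(2 * x.2.2.re) - 2 * (lam j (pr x) + r * Real.sqrt (x.2.2.re ^ 2 / 3 + e)) *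
      (r * (2 * x.2.2.re / 3 / (2 * Real.sqrt (x.2.2.re ^ 2 / 3 + e)))) =
      -x.2.2.re * (2 + 2 * (lam j (pr x) + r * Real.sqrt (x.2.2.re ^ 2 / 3 + e)) *
      (r * (2 / 3 / (2 * Real.sqrt (x.2.2.re ^ 2 / 3 + e))))) := by
      ring
    rw [h1]
    apply mul_ne_zero (neg_ne_zero.2 hs)
    have h2 : 0 ≤ 2 * (lam j (pr x) + r * Real.sqrt (x.2.2.re ^ 2 / 3 + e)) *
      (r * (2 / 3 / (2 * Real.sqrt (x.2.2.re ^ 2 / 3 + e)))) := by positivity
    have h3 : 0 < 2 + 2 * (lam j (pr x) + r * Real.sqrt (x.2.2.re ^ 2 / 3 + e)) *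
      (r * (2 / 3 / (2 * Real.sqrt (x.2.2.re ^ 2 / 3 + e)))) := by linarith
    exact h3.ne'
  refine regM_of_data hx hd (fun _ => pr x) (differentiableAt_const _) rfl
    (Filter.Eventually.of_forall fun _ => hx1) 1 hc ?_
  have hfun : (fun t : ℝ => famb_G j e β τ r (((fun _ : ℝ => pr x) t).1,
      ((fun _ : ℝ => pr x) t).2, x.2.2 + (t : ℂ) * ((1 : ℝ) : ℂ))) =
      fun t : ℝ => hgt (pr x) ^ 2 + 1 / 100 - β * (cc (hgt (pr x)) * bt (uu (pr x) + τ)) -
        (x.2.2.re + t) ^ 2 -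
        (lam j (pr x) + r * Real.sqrt ((x.2.2.re + t) ^ 2 / 3 + e)) ^ 2 := by
    funext t
    unfold famb_G
    have h1 : pr ((pr x).1, (pr x).2, x.2.2 + (t : ℂ) * ((1 : ℝ) : ℂ)) = pr x := rfl
    have h2 : (x.2.2 + (t : ℂ) * ((1 : ℝ) : ℂ)).re = x.2.2.re + t := by
      simp
    simp only [h1, h2]
  rw [hfun]
  have d1 : HasDerivAt (fun t : ℝ => (x.2.2.re + t) ^ 2) (2 * x.2.2.re) 0 := by
    have h := ((hasDerivAt_id (0 : ℝ)).const_add x.2.2.re).pow 2
    have h2 : (2 : ℕ) * (x.2.2.re + id (0 : ℝ)) ^ (2 - 1) * 1 = 2 * x.2.2.re := by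
      simp
    rw [← h2]
    exact h
  have d2 : HasDerivAt (fun t : ℝ => (x.2.2.re + t) ^ 2 / 3 + e) (2 * x.2.2.re / 3) 0 :=
    (d1.div_const 3).add_const e
  have d3 : HasDerivAt (fun t : ℝ => Real.sqrt ((x.2.2.re + t) ^ 2 / 3 + e))
      (2 * x.2.2.re / 3 / (2 * Real.sqrt (x.2.2.re ^ 2 / 3 + e))) 0 := by
    have h := d2.sqrt (by
      rw [add_zero]
      have : 0 ≤ x.2.2.re ^ 2 := sq_nonneg _
      have h2 : 0 < x.2.2.re ^ 2 / 3 + e := by linarith
      exact h2.ne')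
    rw [add_zero] at h
    exact h
  have d4 : HasDerivAt (fun t : ℝ => (lam j (pr x) + r * Real.sqrt ((x.2.2.re + t) ^ 2 / 3 + e)) ^ 2)
      (2 * (lam j (pr x) + r * Real.sqrt (x.2.2.re ^ 2 / 3 + e)) *
      (r * (2 * x.2.2.re / 3 / (2 * Real.sqrt (x.2.2.re ^ 2 / 3 + e))))) 0 := by
    have h := ((d3.const_mul r).const_add (lam j (pr x))).pow 2
    have h2 : (2 : ℕ) * (lam j (pr x) + r * Real.sqrt ((x.2.2.re + (0 : ℝ)) ^ 2 / 3 + e)) ^ (2 - 1) *
      (r * (2 * x.2.2.re / 3 / (2 * Real.sqrt (x.2.2.re ^ 2 / 3 + e)))) =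
      2 * (lam j (pr x) + r * Real.sqrt (x.2.2.re ^ 2 / 3 + e)) *
      (r * (2 * x.2.2.re / 3 / (2 * Real.sqrt (x.2.2.re ^ 2 / 3 + e)))) := by
      rw [add_zero]
      norm_num
    rw [← h2]
    exact h
  have d5 := (d1.const_sub (hgt (pr x) ^ 2 + 1 / 100 -
    β * (cc (hgt (pr x)) * bt (uu (pr x) + τ)))).sub d4
  exact d5

/-- Values on the sphere for `s = 0`. -/
theorem famb_val (j : Fin 3) {e β τ r : ℝ} {h : ℝ} (hh : |h| < 1) (x0 y0 : ℝ) (z : ℂ)
    (hz : z.re = 0) :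
    famb_G j e β τ r ((angxy h x0 y0).1, (angxy h x0 y0).2, z) =
      h ^ 2 + 1 / 100 - β * (cc h * bt (2 - Real.cos x0 - Real.cos y0 + τ)) -
        (eta h * Lam (1 - Real.cos (ll j x0 y0)) + r * Real.sqrt e) ^ 2 := by
  unfold famb_G
  have h1 : pr ((angxy h x0 y0).1, (angxy h x0 y0).2, z) = angxy h x0 y0 := rfl
  rw [h1, hgt_angxy x0 y0 hh.le, uu_angxy x0 y0 hh, lam_angxy j x0 y0 hh]
  have h2 : (((angxy h x0 y0).1, (angxy h x0 y0).2, z) : C3).2.2.re = 0 := hz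
  rw [h2]
  have h3 : (0 : ℝ) ^ 2 / 3 + e = e := by norm_num
  rw [h3]
  ring

/-- The families are regular. -/
theorem famb_reg (j : Fin 3) {e β τ r : ℝ} (he : 0 < e) (he' : e < 1 / 100) (hβ : 0 ≤ β)
    (hτ : 0 ≤ τ) (hβτ : ∀ x y : ℝ, β * bt (2 - Real.cos x - Real.cos y + τ) =
      bt (2 - Real.cos x - Real.cos y + τ)) (hr : 0 ≤ r) (hr1 : r ≤ 1) {x : C3}
    (hx : PhiM x = 0) (hd : DifferentiableAt ℝ (famb_G j e β τ r) x)
    (h0 : famb_G j e β τ r x = 0) :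
    RegAt PhiM (famb_G j e β τ r) x := by
  by_cases hs : x.2.2.re = 0
  swap
  · exact famb_reg_s j he hr hx hd hs
  obtain ⟨hx1, hx2⟩ := famb_PhiM hx
  have hre : r * Real.sqrt e < 1 / 10 := by
    have h1 := famb_sqrt_lt he he'
    have h2 := Real.sqrt_nonneg e
    nlinarith
  have hre0 : 0 ≤ r * Real.sqrt e := mul_nonneg hr (Real.sqrt_nonneg e)
  by_cases hh1 : 1 ≤ |hgt (pr x)|
  · exfalso
    obtain ⟨_, hl, _⟩ := values_core hh1
    have hsq : 1 ≤ hgt (pr x) ^ 2 := by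
      rw [← sq_abs]
      nlinarith
    have hcc : cc (hgt (pr x)) = 0 := cc_of_large (by linarith)
    unfold famb_G at h0
    rw [hcc, hl j, hs] at h0
    have h3 : (0 : ℝ) ^ 2 / 3 + e = e := by norm_num
    rw [h3] at h0
    nlinarith
  rw [not_le] at hh1
  obtain ⟨x0, y0, hxy⟩ := exists_angxy (m := pr x) hx1 hh1
  obtain ⟨h, hh⟩ : ∃ h, h = hgt (pr x) := ⟨_, rfl⟩
  rw [← hh] at hh1 hxy
  have hxe : x = ((angxy h x0 y0).1, (angxy h x0 y0).2, x.2.2) := by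
    rw [← hxy]
    rfl
  have h0' := h0
  rw [hxe] at h0'
  rw [famb_val j hh1 x0 y0 _ hs] at h0'
  obtain ⟨L, hL⟩ : ∃ L, L = Lam (1 - Real.cos (ll j x0 y0)) := ⟨_, rfl⟩
  obtain ⟨B, hB⟩ : ∃ B, B = bt (2 - Real.cos x0 - Real.cos y0 + τ) := ⟨_, rfl⟩
  have hL0 : 0 ≤ L := by rw [hL]; exact Lam_nonneg _
  have hB0 : 0 ≤ B := by rw [hB]; exact bt_nonneg _
  by_cases hz : h = 0
  · -- the torus `h = 0`
    subst hz
    have hcc0 : cc 0 = 1 := cc_of_small (by norm_num)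
    have heta0 : eta 0 = 1 := eta_of_small (by norm_num)
    rw [hcc0, heta0, one_mul, one_mul, hβτ] at h0'
    obtain ⟨a, b, c, hc, hder⟩ := L2D j (τ := τ) (σ := r * Real.sqrt e) hτ hre0 hre (x := x0)
      (y := y0) (by linarith)
    obtain ⟨g1, g2, g3⟩ := curve_xy x0 y0 a b hh1
    refine regM_of_data hx hd (fun t => angxy 0 (x0 + t * a) (y0 + t * b)) g1
      (g2.trans hxy.symm) (Filter.Eventually.of_forall g3) 0 (neg_ne_zero.2 hc) ?_
    have hfun : (fun t : ℝ => famb_G j e β τ r (((fun t : ℝ => angxy 0 (x0 + t * a)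
        (y0 + t * b)) t).1, ((fun t : ℝ => angxy 0 (x0 + t * a) (y0 + t * b)) t).2,
        x.2.2 + (t : ℂ) * ((0 : ℝ) : ℂ))) =
        fun t : ℝ => 1 / 100 - ((fun x y => bt (2 - Real.cos x - Real.cos y + τ) +
      (Lam (1 - Real.cos (ll j x y)) + r * Real.sqrt e) ^ 2) (x0 + t * a) (y0 + t * b)) := by
      funext t
      have h1 := famb_val j (e := e) (β := β) (τ := τ) (r := r) hh1 (x0 + t * a) (y0 + t * b)
        (x.2.2 + (t : ℂ) * ((0 : ℝ) : ℂ)) (by simp [hs])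
      rw [hcc0, heta0, one_mul, one_mul, hβτ] at h1
      show famb_G j e β τ r ((angxy 0 (x0 + t * a) (y0 + t * b)).1,
        (angxy 0 (x0 + t * a) (y0 + t * b)).2, x.2.2 + (t : ℂ) * ((0 : ℝ) : ℂ)) = _
      rw [h1]
      ring
    rw [hfun]
    exact hder.const_sub (1 / 100)
  · -- the direction of `h`
    obtain ⟨g1, g2, g3⟩ := curve_h x0 y0 hh1
    have hcD : HasDerivAt cc (deriv cc h) h :=
      ((contDiff_cc.differentiable (by simp)) h).hasDerivAt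
    have heD : HasDerivAt eta (deriv eta h) h :=
      ((contDiff_eta.differentiable (by simp)) h).hasDerivAt
    have hc : 2 * h - β * (deriv cc h * B) -
        2 * (eta h * L + r * Real.sqrt e) * (deriv eta h * L) ≠ 0 := by
      intro hcon
      have k1 := mul_deriv_cc_nonpos h
      have k2 := mul_deriv_eta_nonpos h
      have k3 : 0 < h ^ 2 := by positivity
      have k4 : 0 ≤ β * B := mul_nonneg hβ hB0
      have k5 : 0 ≤ (eta h * L + r * Real.sqrt e) * L := by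
        have := eta_nonneg h
        positivity
      have k6 : h * (2 * h - β * (deriv cc h * B) -
        2 * (eta h * L + r * Real.sqrt e) * (deriv eta h * L)) =
        2 * h ^ 2 - (β * B) * (h * deriv cc h) -
          2 * ((eta h * L + r * Real.sqrt e) * L) * (h * deriv eta h) := by ring
      rw [hcon, mul_zero] at k6
      nlinarith
    refine regM_of_data hx hd (fun t => angxy (h + t) x0 y0) g1
      (g2.trans hxy.symm) (g3.mono fun t ht => ht.2) 0 hc ?_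
    have hev : (fun t : ℝ => famb_G j e β τ r (((fun t : ℝ => angxy (h + t) x0 y0) t).1,
        ((fun t : ℝ => angxy (h + t) x0 y0) t).2, x.2.2 + (t : ℂ) * ((0 : ℝ) : ℂ))) =ᶠ[𝓝 0]
        fun t : ℝ => (h + t) ^ 2 + 1 / 100 - β * (cc (h + t) * B) -
          (eta (h + t) * L + r * Real.sqrt e) ^ 2 := by
      filter_upwards [g3] with t ht
      rw [hL, hB]
      exact famb_val j ht.1 x0 y0 _ (by simp [hs])
    refine HasDerivAt.congr_of_eventuallyEq ?_ hev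
    have e0 : HasDerivAt (fun t : ℝ => h + t) 1 0 := (hasDerivAt_id (0 : ℝ)).const_add h
    have hcD' : HasDerivAt cc (deriv cc h) (h + 0) := by rw [add_zero]; exact hcD
    have heD' : HasDerivAt eta (deriv eta h) (h + 0) := by rw [add_zero]; exact heD
    have e1 : HasDerivAt (fun t : ℝ => cc (h + t)) (deriv cc h * 1) 0 :=
      HasDerivAt.comp (h₂ := cc) (h := fun t : ℝ => h + t) (0 : ℝ) hcD' e0
    have e2 : HasDerivAt (fun t : ℝ => eta (h + t)) (deriv eta h * 1) 0 :=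
      HasDerivAt.comp (h₂ := eta) (h := fun t : ℝ => h + t) (0 : ℝ) heD' e0
    have e3 : HasDerivAt (fun t : ℝ => (h + t) ^ 2) (2 * h) 0 := by
      have h1 := e0.pow 2
      have h2 : (2 : ℕ) * (h + (0 : ℝ)) ^ (2 - 1) * 1 = 2 * h := by simp
      rw [← h2]
      exact h1
    have e4 : HasDerivAt (fun t : ℝ => (eta (h + t) * L + r * Real.sqrt e) ^ 2)
        (2 * (eta h * L + r * Real.sqrt e) * (deriv eta h * L)) 0 := by
      have h1 := ((e2.mul_const L).add_const (r * Real.sqrt e)).pow 2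
      have h2 : (2 : ℕ) * (eta (h + (0 : ℝ)) * L + r * Real.sqrt e) ^ (2 - 1) *
          (deriv eta h * 1 * L) = 2 * (eta h * L + r * Real.sqrt e) * (deriv eta h * L) := by
        rw [add_zero, mul_one]
        norm_num
      rw [← h2]
      exact h1
    have e5 : HasDerivAt (fun t : ℝ => β * (cc (h + t) * B)) (β * (deriv cc h * B)) 0 := by
      have h1 := (e1.mul_const B).const_mul β
      rw [mul_one] at h1
      exact h1
    exact ((e3.add_const (1 / 100)).sub e5).sub e4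

theorem famb_bt_one (x y : ℝ) : bt (2 - Real.cos x - Real.cos y + 1) = 0 := by
  apply bt_eq_zero
  have h1 := Real.cos_le_one x
  have h2 := Real.cos_le_one y
  linarith

theorem famb_diff {F : ℝ × C3 → ℝ} (hF : ContDiff ℝ ∞ F) (t : ℝ) (x : C3) :
    DifferentiableAt ℝ (fun y => F (t, y)) x := by
  have h1 : ContDiff ℝ ∞ (fun y : C3 => (t, y)) := contDiff_const.prodMk contDiff_id
  exact ((hF.comp h1).differentiable (by simp)) x

theorem reg_FB (j : Fin 3) {e : ℝ} (he : 0 < e) (he' : e < 1 / 100) (t : ℝ)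
    (ht : t ∈ Icc (0 : ℝ) 1) (x : C3) (hx : PhiM x = 0) (h : FB j e (t, x) = 0) :
    RegAt PhiM (fun y => FB j e (t, y)) x := by
  have hd := famb_diff (contDiff_FB j he) t x
  have h0 : (fun y => FB j e (t, y)) x = 0 := h
  rw [famb_FB] at hd h0 ⊢
  exact famb_reg j he he' zero_le_one ht.1 (fun x y => by rw [one_mul]) zero_le_one le_rfl hx hd h0

theorem reg_FC (j : Fin 3) {e : ℝ} (he : 0 < e) (he' : e < 1 / 100) (t : ℝ)
    (ht : t ∈ Icc (0 : ℝ) 1) (x : C3) (hx : PhiM x = 0) (h : FC j e (t, x) = 0) :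
    RegAt PhiM (fun y => FC j e (t, y)) x := by
  have hd := famb_diff (contDiff_FC j he) t x
  have h0 : (fun y => FC j e (t, y)) x = 0 := h
  rw [famb_FC] at hd h0 ⊢
  exact famb_reg j he he' le_rfl zero_le_one (fun x y => by rw [famb_bt_one, mul_zero])
    (by linarith [ht.2]) (by linarith [ht.1]) hx hd h0

theorem FB_one_eq (j : Fin 3) (e : ℝ) (x : C3) (hx : PhiM x = 0) :
    FB j e (1, x) = FC j e (0, x) := by
  obtain ⟨hx1, _⟩ := famb_PhiM hx
  have key : cc (hgt (pr x)) * bt (uu (pr x) + 1) = 0 := by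
    by_cases hh : |hgt (pr x)| < 1
    · obtain ⟨x0, y0, hxy⟩ := exists_angxy (m := pr x) hx1 hh
      have h1 : uu (pr x) = 2 - Real.cos x0 - Real.cos y0 := by
        rw [hxy]
        exact uu_angxy x0 y0 hh
      rw [h1, famb_bt_one, mul_zero]
    · rw [not_lt] at hh
      have hsq : 1 ≤ hgt (pr x) ^ 2 := by
        rw [← sq_abs]
        nlinarith
      rw [cc_of_large (by linarith), zero_mul]
  unfold FB FC
  show hgt (pr x) ^ 2 + 1 / 100 - cc (hgt (pr x)) * bt (uu (pr x) + 1) - x.2.2.re ^ 2 -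
    (lam j (pr x) + Real.sqrt (x.2.2.re ^ 2 / 3 + e)) ^ 2 =
    hgt (pr x) ^ 2 + 1 / 100 - x.2.2.re ^ 2 -
    (lam j (pr x) + (1 - 0) * Real.sqrt (x.2.2.re ^ 2 / 3 + e)) ^ 2
  rw [key]
  ring

theorem famb_hgt_sq {x : C3} (hx : Complex.normSq x.1 + Complex.normSq x.2.1 ≤ 2) :
    hgt (pr x) ^ 2 ≤ 4 := by
  have h1 := Complex.normSq_nonneg x.1
  have h2 := Complex.normSq_nonneg x.2.1
  have h3 : hgt (pr x) = Complex.normSq x.2.1 - Complex.normSq x.1 := rfl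
  rw [h3]
  nlinarith

/-- Erasing the centre and the smoothing term. -/
theorem eqDiffeo_BC (j : Fin 3) {e : ℝ} (he : 0 < e) (he' : e < 1 / 100) :
    EqDiffeo 1 {x | PhiM x = 0 ∧ 0 ≤ FB j e (0, x)} {x | PhiM x = 0 ∧ 0 ≤ FC j e (1, x)} := by
  have hB : EqDiffeo 1 {x | PhiM x = 0 ∧ 0 ≤ FB j e (0, x)}
      {x | PhiM x = 0 ∧ 0 ≤ FB j e (1, x)} := by
    refine eqDiffeo_family_M (FB j e) (contDiff_FB j he) (FB_act j e) 5 ?_ (reg_FB j he he')
    intro t _ x hx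
    have h1 := famb_hgt_sq hx
    have h2 := mul_nonneg (cc_nonneg (hgt (pr x))) (bt_nonneg (uu (pr x) + t))
    have h3 := sq_nonneg (lam j (pr x) + Real.sqrt (x.2.2.re ^ 2 / 3 + e))
    show hgt (pr x) ^ 2 + 1 / 100 - cc (hgt (pr x)) * bt (uu (pr x) + t) - x.2.2.re ^ 2 -
      (lam j (pr x) + Real.sqrt (x.2.2.re ^ 2 / 3 + e)) ^ 2 ≤ 5 - x.2.2.re ^ 2
    linarith
  have hC : EqDiffeo 1 {x | PhiM x = 0 ∧ 0 ≤ FC j e (0, x)}
      {x | PhiM x = 0 ∧ 0 ≤ FC j e (1, x)} := by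
    refine eqDiffeo_family_M (FC j e) (contDiff_FC j he) (FC_act j e) 5 ?_ (reg_FC j he he')
    intro t _ x hx
    have h1 := famb_hgt_sq hx
    have h3 := sq_nonneg (lam j (pr x) + (1 - t) * Real.sqrt (x.2.2.re ^ 2 / 3 + e))
    show hgt (pr x) ^ 2 + 1 / 100 - x.2.2.re ^ 2 -
      (lam j (pr x) + (1 - t) * Real.sqrt (x.2.2.re ^ 2 / 3 + e)) ^ 2 ≤ 5 - x.2.2.re ^ 2
    linarith
  have hmid : {x | PhiM x = 0 ∧ 0 ≤ FB j e (1, x)} = {x | PhiM x = 0 ∧ 0 ≤ FC j e (0, x)} := by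
    ext x
    constructor
    · rintro ⟨h1, h2⟩
      exact ⟨h1, by rw [← FB_one_eq j e x h1]; exact h2⟩
    · rintro ⟨h1, h2⟩
      exact ⟨h1, by rw [FB_one_eq j e x h1]; exact h2⟩
  rw [hmid] at hB
  have hinv : Inv {x | PhiM x = 0 ∧ 0 ≤ FC j e (0, x)} :=
    inv_region_M (fun x => FC j e (0, x)) (fun x => FC_act j e 0 x)
  have h := hB.trans hinv hC
  rw [mul_one] at h
  exact h

end Pool.Agent.Tri
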