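import Mathlib
import Pool.Agent.H.MP_5efd29_gt.FamO
import Pool.Agent.H.MP_5efd29_gt.FunB

open scoped ContDiff Topology
open Set

noncomputable section

namespace Pool.Agent.Tri

/-! ### The function `QQ` -/

theorem famd_contDiff_QQ (j : Fin 3) (κ : ℝ) : ContDiff ℝ ∞ (QQ j κ) := by
  have hw : ContDiff ℝ ∞ (fun x : C3 => x.2.1) := contDiff_fst.comp contDiff_snd
  have hz : ContDiff ℝ ∞ (fun x : C3 => x.1) := contDiff_fst
  have hn : ContDiff ℝ ∞ (fun x : C3 => Complex.normSq x.2.1) := funb1_contDiff_normSq.comp hw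
  unfold QQ
  by_cases h : j = 0
  · simp only [if_pos h]
    exact (funb1_contDiff_re.comp ((hz.pow 2).mul (funb1_contDiff_conj.comp hw))).mul
      (Real.contDiff_exp.comp (contDiff_const.mul hn))
  · simp only [if_neg h]
    exact (funb1_contDiff_re.comp ((hz.pow 3).mul hw)).mul
      (Real.contDiff_exp.comp (contDiff_const.mul hn))

theorem famd_QQ_act (j : Fin 3) (κ : ℝ) (x : C3) : QQ j κ (act x) = QQ j κ x := by
  have h0 : (act x).1 ^ 2 * (starRingEnd ℂ) (act x).2.1 = x.1 ^ 2 * (starRingEnd ℂ) x.2.1 :=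
    funb2_mul' x
  have h1 : (act x).1 ^ 3 * (act x).2.1 = x.1 ^ 3 * x.2.1 := by
    show (zeta * x.1) ^ 3 * (zeta ^ 2 * x.2.1) = x.1 ^ 3 * x.2.1
    have h := zeta_pow_five
    linear_combination (x.1 ^ 3 * x.2.1) * h
  have h2 : Complex.normSq (act x).2.1 = Complex.normSq x.2.1 := by
    show Complex.normSq (zeta ^ 2 * x.2.1) = _
    rw [map_mul, map_pow, funb2_normSq_zeta, one_pow, one_mul]
  unfold QQ
  rw [h0, h1, h2]

/-- `z² conj w` and `z³ w` in angular coordinates. -/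
theorem famd_products {h : ℝ} (a b : ℝ) (hh : |h| < 1) {z w : ℂ} (hm : (z, w) = angxy h a b) :
    (z ^ 2 * (starRingEnd ℂ) w).re = Real.cos b * ((1 - h) / 2 * Real.sqrt ((1 + h) / 2)) ∧
    (z ^ 3 * w).re = Real.cos (a + b) *
      ((1 - h) / 2 * Real.sqrt ((1 - h) / 2) * Real.sqrt ((1 + h) / 2)) := by
  obtain ⟨h1, h2, h3, h4⟩ := phases_angxy a b hh
  have hg := hgt_angxy a b hh.le
  have hn := (normSq_angxy a b hh.le).2
  rw [← hm] at h1 h2 h3 h4 hg hn
  rw [abs_lt] at hh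
  have ha : 0 < (1 - h) / 2 := by linarith
  have hb : 0 < (1 + h) / 2 := by linarith
  have hsa : 0 < Real.sqrt ((1 - h) / 2) := Real.sqrt_pos.2 ha
  have hsb : 0 < Real.sqrt ((1 + h) / 2) := Real.sqrt_pos.2 hb
  have c1 : 0 < Real.sqrt ((1 - h) / 2) * ((1 + h) / 2) := mul_pos hsa hb
  have c2 : 0 < (1 - h) / 2 * Real.sqrt ((1 + h) / 2) := mul_pos ha hsb
  unfold Cx at h1
  unfold Sx at h2
  unfold Cy at h3
  unfold Sy at h4
  rw [hg] at h1 h2 h3 h4
  unfold mx at h1 h2
  unfold my at h3 h4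
  simp only at h1 h2 h3 h4 hn
  rw [mul_one_div, div_eq_iff c1.ne'] at h1 h2
  rw [mul_one_div, div_eq_iff c2.ne'] at h3 h4
  refine ⟨h3, ?_⟩
  have hAB : (z * w ^ 2) * (z ^ 2 * (starRingEnd ℂ) w) = (z ^ 3 * w) * (Complex.normSq w : ℂ) := by
    rw [← Complex.mul_conj]
    ring
  have hre := congrArg Complex.re hAB
  rw [Complex.mul_re, h1, h2, h3, h4, Complex.re_mul_ofReal, hn] at hre
  have hsq := Real.sq_sqrt ha.le
  have : ((z ^ 3 * w).re - Real.cos (a + b) *
      ((1 - h) / 2 * Real.sqrt ((1 - h) / 2) * Real.sqrt ((1 + h) / 2))) * ((1 + h) / 2) = 0 := by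
    rw [Real.cos_add]
    linear_combination -hre
  rcases mul_eq_zero.1 this with h5 | h5
  · linarith
  · exact absurd h5 hb.ne'

/-- The profile of `QQ`. -/
private def fq (j : Fin 3) (h : ℝ) : ℝ :=
  if j = 0 then (1 - h) / 2 * Real.sqrt ((1 + h) / 2) * Real.exp ((1 + h) / 2)
  else (1 - h) / 2 * Real.sqrt ((1 - h) / 2) * Real.sqrt ((1 + h) / 2) *
    Real.exp (2 * ((1 + h) / 2))

private theorem famd_QQ (j : Fin 3) (hj : j ≠ 2) {h : ℝ} (a b : ℝ) (hh : |h| < 1) (x : C3)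
    (hm : pr x = angxy h a b) : QQ j 1 x = Real.cos (ll j a b) * fq j h := by
  obtain ⟨p1, p2⟩ := famd_products (z := x.1) (w := x.2.1) a b hh hm
  have hn := (normSq_angxy a b hh.le).2
  rw [← hm] at hn
  have hn' : Complex.normSq x.2.1 = (1 + h) / 2 := hn
  unfold QQ fq
  by_cases h0 : j = 0
  · subst h0
    rw [if_pos rfl, if_pos rfl, p1, hn', one_mul]
    show _ = Real.cos b * _
    ring
  · rw [if_neg h0, if_neg h0, p2, hn', mul_one]
    have h1 : j = 1 := by
      fin_cases j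
      · exact absurd rfl h0
      · rfl
      · exact absurd rfl hj
    subst h1
    show _ = Real.cos (a + b) * _
    ring

private theorem famd_fq_pos (j : Fin 3) {h : ℝ} (hh : |h| < 1) : 0 < fq j h := by
  rw [abs_lt] at hh
  have ha : 0 < (1 - h) / 2 := by linarith
  have hb : 0 < (1 + h) / 2 := by linarith
  have hsa : 0 < Real.sqrt ((1 - h) / 2) := Real.sqrt_pos.2 ha
  have hsb : 0 < Real.sqrt ((1 + h) / 2) := Real.sqrt_pos.2 hb
  unfold fq
  split_ifs <;> positivity

private theorem famd_fq_zero (j : Fin 3) : 1 / 2 < fq j 0 := by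
  unfold fq
  have h2 : Real.sqrt (1 / 2) ^ 2 = 1 / 2 := Real.sq_sqrt (by norm_num)
  have h3 : 0 ≤ Real.sqrt (1 / 2) := Real.sqrt_nonneg _
  split_ifs
  · norm_num only [sub_zero, add_zero]
    have h1 := Real.quadratic_le_exp_of_nonneg (x := 1 / 2) (by norm_num)
    have h4 : 7 / 10 < Real.sqrt (1 / 2) := by
      by_contra hcon
      rw [not_lt] at hcon
      nlinarith
    have h5 : (1.625 : ℝ) ≤ Real.exp (1 / 2) := by
      norm_num at h1 ⊢
      linarith
    nlinarith
  · norm_num only [sub_zero, add_zero]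
    have h1 := Real.quadratic_le_exp_of_nonneg (x := 1) (by norm_num)
    have h5 : (2.5 : ℝ) ≤ Real.exp 1 := by
      norm_num at h1 ⊢
      linarith
    nlinarith

/-- The derivative of the profile is `-h` times a positive number. -/
private theorem famd_fq_deriv (j : Fin 3) {h : ℝ} (hh : |h| < 1) :
    ∃ r : ℝ, 0 < r ∧ HasDerivAt (fq j) (-h * r) h := by
  rw [abs_lt] at hh
  have ha : 0 < (1 - h) / 2 := by linarith
  have hb : 0 < (1 + h) / 2 := by linarith
  have hsa : 0 < Real.sqrt ((1 - h) / 2) := Real.sqrt_pos.2 ha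
  have hsb : 0 < Real.sqrt ((1 + h) / 2) := Real.sqrt_pos.2 hb
  have hsqa := Real.sq_sqrt ha.le
  have hsqb := Real.sq_sqrt hb.le
  have d1 : HasDerivAt (fun h : ℝ => (1 - h) / 2) (-1 / 2) h :=
    ((hasDerivAt_id h).const_sub 1).div_const 2
  have d2 : HasDerivAt (fun h : ℝ => (1 + h) / 2) (1 / 2) h :=
    ((hasDerivAt_id h).const_add 1).div_const 2
  have d3 := d1.sqrt ha.ne'
  have d4 := d2.sqrt hb.ne'
  unfold fq
  by_cases h0 : j = 0
  · simp only [if_pos h0]
    have d5 := (d1.mul d4).mul d2.exp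
    refine ⟨(1 + (1 + h) / 2) * Real.exp ((1 + h) / 2) / (4 * Real.sqrt ((1 + h) / 2)),
      by positivity, ?_⟩
    refine HasDerivAt.congr_deriv d5 ?_
    simp only [Pi.mul_apply]
    set v := Real.sqrt ((1 + h) / 2) with hv
    have hh2 : h = 2 * v ^ 2 - 1 := by linarith
    set w := Real.exp ((1 + h) / 2) with hw
    clear_value w v
    clear hsqa hsa
    subst hh2
    field_simp
    ring
  · simp only [if_neg h0]
    have d5 := ((d1.mul d3).mul d4).mul (d2.const_mul 2).exp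
    refine ⟨(1 + 2 * ((1 + h) / 2)) * Real.sqrt ((1 - h) / 2) * Real.exp (2 * ((1 + h) / 2)) /
      (4 * Real.sqrt ((1 + h) / 2)), by positivity, ?_⟩
    refine HasDerivAt.congr_deriv d5 ?_
    simp only [Pi.mul_apply]
    set v := Real.sqrt ((1 + h) / 2) with hv
    set u := Real.sqrt ((1 - h) / 2) with hu
    have hh2 : h = 2 * v ^ 2 - 1 := by linarith
    have huv : u ^ 2 = 1 - v ^ 2 := by linarith
    set w := Real.exp (2 * ((1 + h) / 2)) with hw
    clear_value w v u
    clear hsqa hsqb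
    subst hh2
    have e : (1 - (2 * v ^ 2 - 1)) / 2 = u ^ 2 := by rw [huv]; ring
    have e3 : (1 + (2 * v ^ 2 - 1)) / 2 = v ^ 2 := by ring
    rw [e, e3]
    field_simp
    linear_combination (4 * w + 16 * v ^ 2 * w) * huv

/-! ### Family D -/

theorem contDiff_FD (j : Fin 3) : ContDiff ℝ ∞ (FD j) := by
  have ht : ContDiff ℝ ∞ (fun q : ℝ × C3 => q.1) := contDiff_fst
  have hs : ContDiff ℝ ∞ (fun q : ℝ × C3 => q.2.2.2.re) :=
    funb1_contDiff_re.comp (contDiff_snd.comp (contDiff_snd.comp contDiff_snd))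
  have hp : ContDiff ℝ ∞ (fun q : ℝ × C3 => pr q.2) := contDiff_pr.comp contDiff_snd
  have hh : ContDiff ℝ ∞ (fun q : ℝ × C3 => hgt (pr q.2)) := contDiff_hgt.comp hp
  have hl : ContDiff ℝ ∞ (fun q : ℝ × C3 => lam j (pr q.2)) := (contDiff_lam j).comp hp
  have hQ : ContDiff ℝ ∞ (fun q : ℝ × C3 => QQ j 1 q.2) :=
    (famd_contDiff_QQ j 1).comp contDiff_snd
  unfold FD
  exact ((contDiff_const.sub ht).mul ((((hh.pow 2).add contDiff_const).sub (hs.pow 2)).sub
    (hl.pow 2))).add (ht.mul ((contDiff_const.sub hQ).sub (hs.pow 2)))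

theorem FD_act (j : Fin 3) (t : ℝ) (x : C3) : FD j (t, act x) = FD j (t, x) := by
  unfold FD
  simp only [hgt_act, lam_act, famd_QQ_act]
  rfl

private theorem famd_FD_eq (j : Fin 3) (t : ℝ) (y : C3) : FD j (t, y) =
    (1 - t) * (hgt (pr y) ^ 2 + 1 / 100 - lam j (pr y) ^ 2) + t * (3 / 10 - QQ j 1 y) -
      y.2.2.re ^ 2 := by
  unfold FD
  ring

private theorem famd_FD_ang (j : Fin 3) (hj : j ≠ 2) (t : ℝ) {k : ℝ} (a b : ℝ) (hk : |k| < 1)
    (y : C3) (hy : pr y = angxy k a b) : FD j (t, y) =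
    (1 - t) * (k ^ 2 + 1 / 100 - (eta k * Lam (1 - Real.cos (ll j a b))) ^ 2) +
      t * (3 / 10 - Real.cos (ll j a b) * fq j k) - y.2.2.re ^ 2 := by
  rw [famd_FD_eq, famd_QQ j hj a b hk y hy, hy, hgt_angxy a b hk.le, lam_angxy j a b hk]

theorem reg_FD (j : Fin 3) (hj : j ≠ 2) (t : ℝ) (ht : t ∈ Icc (0 : ℝ) 1) (x : C3)
    (hx : PhiM x = 0) (h : FD j (t, x) = 0) : RegAt PhiM (fun y => FD j (t, y)) x := by
  have hdiff : DifferentiableAt ℝ (fun y => FD j (t, y)) x := by
    have hc : ContDiff ℝ ∞ (fun y : C3 => FD j (t, y)) :=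
      (contDiff_FD j).comp (contDiff_const.prodMk contDiff_id)
    exact (hc.differentiable (by simp)) x
  have hx' := Complex.ext_iff.1 hx
  have hsph : Complex.normSq x.1 + Complex.normSq x.2.1 = 1 := by
    have h1 : Complex.normSq x.1 + Complex.normSq x.2.1 - 1 = 0 := hx'.1
    linarith
  obtain ⟨ht0, ht1⟩ := ht
  by_cases hs : x.2.2.re = 0
  swap
  · refine regM_of_data hx hdiff (fun _ => pr x) (differentiableAt_const _) rfl
      (Filter.Eventually.of_forall fun _ => hsph) 1 (c := -2 * x.2.2.re)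
      (mul_ne_zero (by norm_num) hs) ?_
    have h1 : (fun τ : ℝ => FD j (t, ((pr x).1, (pr x).2, x.2.2 + (τ : ℂ) * ((1 : ℝ) : ℂ)))) =
        fun τ : ℝ => ((1 - t) * (hgt (pr x) ^ 2 + 1 / 100 - lam j (pr x) ^ 2) +
          t * (3 / 10 - QQ j 1 x)) - (x.2.2.re + τ) ^ 2 := by
      funext τ
      rw [famd_FD_eq]
      show _ - (x.2.2 + (τ : ℂ) * ((1 : ℝ) : ℂ)).re ^ 2 = _
      have h2 : (x.2.2 + (τ : ℂ) * ((1 : ℝ) : ℂ)).re = x.2.2.re + τ := by simp
      rw [h2]
      rfl
    show HasDerivAt (fun τ : ℝ =>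
      FD j (t, ((pr x).1, (pr x).2, x.2.2 + (τ : ℂ) * ((1 : ℝ) : ℂ)))) _ 0
    rw [h1]
    have h3 : HasDerivAt (fun τ : ℝ => (x.2.2.re + τ) ^ 2) (2 * (x.2.2.re + 0) ^ (2 - 1) * 1) 0 :=
      ((hasDerivAt_id (0 : ℝ)).const_add x.2.2.re).pow 2
    refine HasDerivAt.congr_deriv (h3.const_sub _) ?_
    norm_num
  by_cases hh : |hgt (pr x)| < 1
  swap
  · exfalso
    obtain ⟨-, hl, -⟩ := values_core (not_lt.1 hh)
    have h1 : |hgt (pr x)| = 1 := le_antisymm (abs_hgt_le hsph) (not_lt.1 hh)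
    have h2 : hgt (pr x) ^ 2 = 1 := by rw [← sq_abs, h1, one_pow]
    have h3 : hgt (pr x) = Complex.normSq x.2.1 - Complex.normSq x.1 := rfl
    have h4 : x.1 = 0 ∨ x.2.1 = 0 := by
      have h5 : Complex.normSq x.1 * Complex.normSq x.2.1 = 0 := by
        rw [h3] at h2
        nlinarith
      rcases mul_eq_zero.1 h5 with h6 | h6
      · exact Or.inl (Complex.normSq_eq_zero.1 h6)
      · exact Or.inr (Complex.normSq_eq_zero.1 h6)
    have h7 : QQ j 1 x = 0 := by
      unfold QQ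
      rcases h4 with h4 | h4 <;> rw [h4] <;> simp
    rw [famd_FD_eq, hl, h7, h2, hs] at h
    nlinarith
  obtain ⟨a, b, hab⟩ := exists_angxy hsph hh
  have hab' : pr x = angxy (hgt (pr x)) a b := hab
  set k := hgt (pr x) with hk
  have hF := famd_FD_ang j hj t a b hh x hab'
  rw [h, hs] at hF
  set l := ll j a b with hl
  have hq := famd_fq_pos j hh
  have hc : 0 < Real.cos l := by
    by_contra hcon
    rw [not_lt] at hcon
    have h1 : Lam (1 - Real.cos l) = 0 := (Lam_eq_zero_iff _).2 (by linarith)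
    rw [h1, mul_zero] at hF
    have h2 : 0 ≤ t * (-(Real.cos l * fq j k)) :=
      mul_nonneg ht0 (by nlinarith)
    have h3 : 0 ≤ (1 - t) * k ^ 2 := mul_nonneg (by linarith) (sq_nonneg k)
    nlinarith
  by_cases hk0 : k = 0
  · -- height zero
    rw [hk0] at hh hF hab' hq
    have he : eta 0 = 1 := eta_of_small (by norm_num)
    have hq0 := famd_fq_zero j
    set q := fq j 0 with hqdef
    set L := Lam (1 - Real.cos l) with hL
    rw [he, one_mul] at hF
    have hsin : Real.sin l ≠ 0 := by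
      intro hsin
      have h1 := Real.sin_sq_add_cos_sq l
      rw [hsin] at h1
      have h2 : Real.cos l = 1 := by nlinarith
      have h3 : L = 1 / 8 := by
        rw [hL, h2]
        exact Lam_of_nonpos (by norm_num)
      rw [h3, h2] at hF
      nlinarith
    have hLn : 0 ≤ L := Lam_nonneg _
    have hLd := deriv_Lam_nonpos (1 - Real.cos l)
    have hbr : 0 < -(2 * (1 - t) * L * deriv Lam (1 - Real.cos l)) + t * q := by
      have h1 : 0 ≤ (1 - t) * L * (-deriv Lam (1 - Real.cos l)) :=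
        mul_nonneg (mul_nonneg (by linarith) hLn) (by linarith)
      rcases ht0.lt_or_eq with h2 | h2
      · have h3 : 0 < t * q := mul_pos h2 (by linarith)
        linarith
      · rw [← h2] at hF ⊢
        have h4 : L ^ 2 = (1 / 10) ^ 2 := by linarith
        have h5 : L = 1 / 10 := by
          have h6 : (L - 1 / 10) * (L + 1 / 10) = 0 := by linarith
          rcases mul_eq_zero.1 h6 with h7 | h7
          · linarith
          · linarith
        have h8 := (deriv_Lam_neg (v := 1 - Real.cos l) (by rw [← hL, h5]; norm_num)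
          (by rw [← hL, h5]; norm_num)).2.2
        rw [h5]
        linarith
    obtain ⟨c1, c2, c3⟩ := curve_xy (h := (0 : ℝ)) a b 0 1 (by simp)
    refine regM_of_data hx hdiff (fun τ => angxy 0 (a + τ * 0) (b + τ * 1)) c1
      (by rw [hab']; exact c2) (Filter.Eventually.of_forall c3) 0
      (c := Real.sin l * (-(2 * (1 - t) * L * deriv Lam (1 - Real.cos l)) + t * q))
      (mul_ne_zero hsin hbr.ne') ?_
    have hll : ∀ τ : ℝ, ll j (a + τ * 0) (b + τ * 1) = l + τ := by
      intro τ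
      rw [hl]
      fin_cases j
      · show b + τ * 1 = b + τ
        ring
      · show a + τ * 0 + (b + τ * 1) = a + b + τ
        ring
      · exact absurd rfl hj
    have h1 : (fun τ : ℝ => FD j (t, ((angxy 0 (a + τ * 0) (b + τ * 1)).1,
        (angxy 0 (a + τ * 0) (b + τ * 1)).2, x.2.2 + (τ : ℂ) * ((0 : ℝ) : ℂ)))) =
        fun τ : ℝ => (1 - t) * (1 / 100 - Lam (1 - Real.cos (l + τ)) ^ 2) +
          t * (3 / 10 - Real.cos (l + τ) * q) := by
      funext τ
      rw [famd_FD_ang j hj t (a + τ * 0) (b + τ * 1) (by simp : |(0 : ℝ)| < 1) _ rfl, hll τ, he]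
      have h2 : (x.2.2 + (τ : ℂ) * ((0 : ℝ) : ℂ)).re = 0 := by simp [hs]
      rw [h2]
      ring
    show HasDerivAt (fun τ : ℝ => FD j (t, ((angxy 0 (a + τ * 0) (b + τ * 1)).1,
        (angxy 0 (a + τ * 0) (b + τ * 1)).2, x.2.2 + (τ : ℂ) * ((0 : ℝ) : ℂ)))) _ 0
    rw [h1]
    have d0 : HasDerivAt (fun τ : ℝ => l + τ) 1 0 := (hasDerivAt_id (0 : ℝ)).const_add l
    have d1 : HasDerivAt (fun τ : ℝ => Real.cos (l + τ)) (-Real.sin (l + 0) * 1) 0 := d0.cos
    have d2 : HasDerivAt (fun τ : ℝ => 1 - Real.cos (l + τ)) (-(-Real.sin (l + 0) * 1)) 0 :=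
      d1.const_sub 1
    have d3 : HasDerivAt Lam (deriv Lam (1 - Real.cos (l + 0))) (1 - Real.cos (l + 0)) :=
      ((contDiff_Lam.differentiable (by simp)) _).hasDerivAt
    have d4 : HasDerivAt (Lam ∘ fun τ : ℝ => 1 - Real.cos (l + τ))
        (deriv Lam (1 - Real.cos (l + 0)) * (-(-Real.sin (l + 0) * 1))) 0 :=
      HasDerivAt.comp (0 : ℝ) d3 d2
    have d5 := (((d4.pow 2).const_sub (1 / 100)).const_mul (1 - t)).add
      (((d1.mul_const q).const_sub (3 / 10)).const_mul t)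
    refine HasDerivAt.congr_deriv d5 ?_
    rw [add_zero]
    norm_num
    rw [← hL]
    ring
  · -- non-zero height
    obtain ⟨r, hr, hd⟩ := famd_fq_deriv j hh
    obtain ⟨c1, c2, c3⟩ := curve_h (h := k) a b hh
    set L := Lam (1 - Real.cos l) with hL
    have hdeta : HasDerivAt eta (deriv eta k) k :=
      ((contDiff_eta.differentiable (by simp)) k).hasDerivAt
    have hG : HasDerivAt (fun u : ℝ => (1 - t) * (u ^ 2 + 1 / 100 - (eta u * L) ^ 2) +
        t * (3 / 10 - Real.cos l * fq j u))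
        ((1 - t) * (2 * k - 2 * (eta k * L) * (deriv eta k * L)) +
          t * (-(Real.cos l * (-k * r)))) k := by
      have d1 : HasDerivAt (fun u : ℝ => u ^ 2 + 1 / 100) (2 * k) k := by
        have := (hasDerivAt_pow 2 k).add_const (1 / 100 : ℝ)
        simpa using this
      have d2 := (hdeta.mul_const L).pow 2
      have d3 := ((d1.sub d2).const_mul (1 - t)).add
        (((hd.const_mul (Real.cos l)).const_sub (3 / 10)).const_mul t)
      refine HasDerivAt.congr_deriv d3 ?_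
      norm_num
    have hcne : (1 - t) * (2 * k - 2 * (eta k * L) * (deriv eta k * L)) +
          t * (-(Real.cos l * (-k * r))) ≠ 0 := by
      intro hzero
      have h1 : k * ((1 - t) * (2 * k - 2 * (eta k * L) * (deriv eta k * L)) +
          t * (-(Real.cos l * (-k * r)))) = 0 := by rw [hzero, mul_zero]
      have h2 := mul_deriv_eta_nonpos k
      have h3 := eta_nonneg k
      have h4 : 0 < k ^ 2 := by positivity
      have h5 : 0 ≤ (1 - t) * (eta k * L ^ 2 * (-(k * deriv eta k))) :=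
        mul_nonneg (by linarith) (mul_nonneg (mul_nonneg h3 (sq_nonneg L)) (by linarith))
      have h6 : 0 < Real.cos l * r * k ^ 2 := by positivity
      have h7 : 0 < (1 - t) * (2 * k ^ 2) + t * (Real.cos l * r * k ^ 2) := by
        rcases ht0.lt_or_eq with h8 | h8
        · have h9 : 0 < t * (Real.cos l * r * k ^ 2) := mul_pos h8 h6
          have h10 : 0 ≤ (1 - t) * (2 * k ^ 2) := mul_nonneg (by linarith) (by linarith)
          linarith
        · rw [← h8]
          linarith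
      nlinarith
    refine regM_of_data hx hdiff (fun τ => angxy (k + τ) a b) c1
      (by rw [hab']; exact c2) (c3.mono fun τ hτ => hτ.2) 0
      (c := (1 - t) * (2 * k - 2 * (eta k * L) * (deriv eta k * L)) +
          t * (-(Real.cos l * (-k * r)))) hcne ?_
    have hG0 : HasDerivAt (fun τ : ℝ => (1 - t) * ((k + τ) ^ 2 + 1 / 100 -
        (eta (k + τ) * L) ^ 2) + t * (3 / 10 - Real.cos l * fq j (k + τ)))
        ((1 - t) * (2 * k - 2 * (eta k * L) * (deriv eta k * L)) +
          t * (-(Real.cos l * (-k * r)))) 0 := by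
      rw [← add_zero k] at hG
      have := HasDerivAt.comp_const_add k 0 hG
      simpa using this
    refine hG0.congr_of_eventuallyEq ?_
    filter_upwards [c3] with τ hτ
    show FD j (t, ((angxy (k + τ) a b).1, (angxy (k + τ) a b).2,
      x.2.2 + (τ : ℂ) * ((0 : ℝ) : ℂ))) = _
    rw [famd_FD_ang j hj t a b hτ.1 _ rfl]
    have h2 : (x.2.2 + (τ : ℂ) * ((0 : ℝ) : ℂ)).re = 0 := by simp [hs]
    rw [h2]
    ring

private theorem famd_QQ_bound (j : Fin 3) (x : C3)
    (hx : Complex.normSq x.1 + Complex.normSq x.2.1 ≤ 2) : |QQ j 1 x| ≤ 8 * Real.exp 4 := by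
  rw [Complex.normSq_eq_norm_sq, Complex.normSq_eq_norm_sq] at hx
  have hz0 := norm_nonneg x.1
  have hw0 := norm_nonneg x.2.1
  have hz : ‖x.1‖ ≤ 2 := by nlinarith
  have hw : ‖x.2.1‖ ≤ 2 := by nlinarith
  have hz2 : ‖x.1‖ ^ 2 ≤ 2 := by nlinarith
  have hw2 : ‖x.2.1‖ ^ 2 ≤ 2 := by nlinarith
  unfold QQ
  split_ifs
  · rw [abs_mul, abs_of_pos (Real.exp_pos _)]
    apply mul_le_mul _ _ (Real.exp_pos _).le (by norm_num)
    · refine (Complex.abs_re_le_norm _).trans ?_
      rw [norm_mul, norm_pow, RCLike.norm_conj]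
      nlinarith
    · rw [Real.exp_le_exp, Complex.normSq_eq_norm_sq]
      linarith
  · rw [abs_mul, abs_of_pos (Real.exp_pos _)]
    apply mul_le_mul _ _ (Real.exp_pos _).le (by norm_num)
    · refine (Complex.abs_re_le_norm _).trans ?_
      rw [norm_mul, norm_pow]
      have h1 : ‖x.1‖ ^ 3 * ‖x.2.1‖ = ‖x.1‖ ^ 2 * (‖x.1‖ * ‖x.2.1‖) := by ring
      rw [h1]
      have h2 : ‖x.1‖ * ‖x.2.1‖ ≤ 4 := by nlinarith
      have h3 : 0 ≤ ‖x.1‖ * ‖x.2.1‖ := mul_nonneg hz0 hw0
      nlinarith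
    · rw [Real.exp_le_exp, Complex.normSq_eq_norm_sq]
      linarith

/-- From the cut off functions to the algebraic ones. -/
theorem eqDiffeo_D (j : Fin 3) (hj : j ≠ 2) :
    EqDiffeo 1 {x | PhiM x = 0 ∧ 0 ≤ FD j (0, x)} {x | PhiM x = 0 ∧ 0 ≤ FD j (1, x)} := by
  refine eqDiffeo_family_M (FD j) (contDiff_FD j) (fun t x => FD_act j t x)
    (5 + 8 * Real.exp 4) ?_ (fun t ht x hx h => reg_FD j hj t ht x hx h)
  rintro t ⟨ht0, ht1⟩ x hx
  rw [famd_FD_eq]
  have h1 := famd_QQ_bound j x hx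
  rw [abs_le] at h1
  have h2 : hgt (pr x) ^ 2 ≤ 4 := by
    have h3 : hgt (pr x) = Complex.normSq x.2.1 - Complex.normSq x.1 := rfl
    have h4 := Complex.normSq_nonneg x.1
    have h5 := Complex.normSq_nonneg x.2.1
    rw [h3]
    nlinarith
  have h6 : hgt (pr x) ^ 2 + 1 / 100 - lam j (pr x) ^ 2 ≤ 5 + 8 * Real.exp 4 := by
    have := sq_nonneg (lam j (pr x))
    have := Real.exp_pos 4
    linarith
  have h7 : 3 / 10 - QQ j 1 x ≤ 5 + 8 * Real.exp 4 := by linarith
  nlinarith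

end Pool.Agent.Tri
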