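import Mathlib
import Pool.Agent.H.MP_5efd29_gt.FamO
import Pool.Agent.H.MP_5efd29_gt.FunB

open scoped ContDiff Topology
open Set

noncomputable section

namespace Pool.Agent.Tri

theorem contDiff_FE (j : Fin 3) : ContDiff ℝ ∞ (FE j) := by
  have c1 : ContDiff ℝ ∞ (fun q : ℝ × C3 => q.2.1) := contDiff_fst.comp contDiff_snd
  have c2 : ContDiff ℝ ∞ (fun q : ℝ × C3 => q.2.2.1) :=
    contDiff_fst.comp (contDiff_snd.comp contDiff_snd)
  have c3 : ContDiff ℝ ∞ (fun q : ℝ × C3 => q.2.2.2) :=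
    contDiff_snd.comp (contDiff_snd.comp contDiff_snd)
  have n2 : ContDiff ℝ ∞ (fun q : ℝ × C3 => Complex.normSq q.2.2.1) :=
    funb1_contDiff_normSq.comp c2
  have k : ContDiff ℝ ∞ (fun q : ℝ × C3 => 1 - q.1) := contDiff_const.sub contDiff_fst
  have r3 : ContDiff ℝ ∞ (fun q : ℝ × C3 => q.2.2.2.re ^ 2) :=
    (funb1_contDiff_re.comp c3).pow 2
  have hq : ContDiff ℝ ∞ (fun q : ℝ × C3 => QQ j (1 - q.1) q.2) := by
    unfold QQ
    by_cases hj : j = 0
    · simp only [if_pos hj]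
      exact (funb1_contDiff_re.comp ((c1.pow 2).mul (funb1_contDiff_conj.comp c2))).mul
        (Real.contDiff_exp.comp (k.mul n2))
    · simp only [if_neg hj]
      exact (funb1_contDiff_re.comp ((c1.pow 3).mul c2)).mul
        (Real.contDiff_exp.comp ((contDiff_const.mul k).mul n2))
  exact (contDiff_const.sub hq).sub r3

theorem FE_act (j : Fin 3) (t : ℝ) (x : C3) : FE j (t, act x) = FE j (t, x) := by
  have h1 : (act x).1 ^ 2 * (starRingEnd ℂ) (act x).2.1 = x.1 ^ 2 * (starRingEnd ℂ) x.2.1 :=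
    funb2_mul' x
  have h2 : (act x).1 ^ 3 * (act x).2.1 = x.1 ^ 3 * x.2.1 := by
    show (zeta * x.1) ^ 3 * (zeta ^ 2 * x.2.1) = x.1 ^ 3 * x.2.1
    have h := zeta_pow_five
    linear_combination (x.1 ^ 3 * x.2.1) * h
  have h3 : Complex.normSq (act x).2.1 = Complex.normSq x.2.1 := by
    show Complex.normSq (zeta ^ 2 * x.2.1) = Complex.normSq x.2.1
    rw [map_mul, map_pow, funb2_normSq_zeta, one_pow, one_mul]
  have h4 : (act x).2.2 = x.2.2 := rfl
  show 3 / 10 - QQ j (1 - t) (act x) - (act x).2.2.re ^ 2 = 3 / 10 - QQ j (1 - t) x - x.2.2.re ^ 2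
  unfold QQ
  rw [h1, h2, h3, h4]

/-- The function `QQ` as a function of the first two coordinates. -/
def fame_Q (j : Fin 3) (κ : ℝ) (m : ℂ × ℂ) : ℝ := QQ j κ (m.1, m.2, 0)

theorem fame_FE (j : Fin 3) (t : ℝ) (m : ℂ × ℂ) (ξ : ℂ) :
    FE j (t, m.1, m.2, ξ) = 3 / 10 - fame_Q j (1 - t) m - ξ.re ^ 2 := rfl

/-- The square of the radial factor. -/
def fame_G (j : Fin 3) (κ h : ℝ) : ℝ :=
  if j = 0 then ((1 - h) / 2) ^ 2 * ((1 + h) / 2) * Real.exp (κ * (1 + h))
  else ((1 - h) / 2) ^ 3 * ((1 + h) / 2) * Real.exp (2 * κ * (1 + h))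

theorem fame_G_pos (j : Fin 3) (κ : ℝ) {h : ℝ} (hh : |h| < 1) : 0 < fame_G j κ h := by
  rw [abs_lt] at hh
  have ha : 0 < (1 - h) / 2 := by linarith
  have hb : 0 < (1 + h) / 2 := by linarith
  unfold fame_G
  split_ifs
  · positivity
  · positivity

theorem fame_Q_ang0 (κ : ℝ) {h : ℝ} (x y : ℝ) (hh : |h| < 1) :
    fame_Q 0 κ (angxy h x y) = Real.cos y * Real.sqrt (fame_G 0 κ h) := by
  obtain ⟨-, -, p3, -⟩ := phases_angxy x y hh
  have hg := hgt_angxy x y hh.le
  have hn := (normSq_angxy x y hh.le).2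
  rw [abs_lt] at hh
  have ha : 0 < (1 - h) / 2 := by linarith
  have hb : 0 < (1 + h) / 2 := by linarith
  have hsb : 0 < Real.sqrt ((1 + h) / 2) := Real.sqrt_pos.2 hb
  have c2 : (1 - h) / 2 * Real.sqrt ((1 + h) / 2) ≠ 0 := (mul_pos ha hsb).ne'
  unfold Cy at p3
  rw [hg] at p3
  unfold my at p3
  rw [mul_one_div, div_eq_iff c2] at p3
  have e1 : Real.sqrt (fame_G 0 κ h) =
      (1 - h) / 2 * Real.sqrt ((1 + h) / 2) * Real.exp (κ * ((1 + h) / 2)) := by
    have e2 : fame_G 0 κ h =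
        ((1 - h) / 2 * Real.sqrt ((1 + h) / 2) * Real.exp (κ * ((1 + h) / 2))) ^ 2 := by
      unfold fame_G
      rw [if_pos rfl, mul_pow, mul_pow, Real.sq_sqrt hb.le, ← Real.exp_nat_mul]
      congr 2
      push_cast
      ring
    rw [e2, Real.sqrt_sq (by positivity)]
  show (if (0 : Fin 3) = 0 then ((angxy h x y).1 ^ 2 * (starRingEnd ℂ) (angxy h x y).2).re *
      Real.exp (κ * Complex.normSq (angxy h x y).2)
    else ((angxy h x y).1 ^ 3 * (angxy h x y).2).re *
      Real.exp (2 * κ * Complex.normSq (angxy h x y).2)) = _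
  rw [if_pos rfl, p3, hn, e1]
  ring

theorem fame_Q_ang1 (κ : ℝ) {h : ℝ} (x y : ℝ) (hh : |h| < 1) :
    fame_Q 1 κ (angxy h x y) = Real.cos (x + y) * Real.sqrt (fame_G 1 κ h) := by
  obtain ⟨p1, p2, p3, p4⟩ := phases_angxy x y hh
  have hg := hgt_angxy x y hh.le
  have hn := (normSq_angxy x y hh.le).2
  rw [abs_lt] at hh
  have ha : 0 < (1 - h) / 2 := by linarith
  have hb : 0 < (1 + h) / 2 := by linarith
  have hsa : 0 < Real.sqrt ((1 - h) / 2) := Real.sqrt_pos.2 ha
  have hsb : 0 < Real.sqrt ((1 + h) / 2) := Real.sqrt_pos.2 hb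
  have c1 : Real.sqrt ((1 - h) / 2) * ((1 + h) / 2) ≠ 0 := (mul_pos hsa hb).ne'
  have c2 : (1 - h) / 2 * Real.sqrt ((1 + h) / 2) ≠ 0 := (mul_pos ha hsb).ne'
  unfold Cx at p1
  unfold Sx at p2
  unfold Cy at p3
  unfold Sy at p4
  rw [hg] at p1 p2 p3 p4
  unfold mx at p1 p2
  unfold my at p3 p4
  rw [mul_one_div, div_eq_iff c1] at p1 p2
  rw [mul_one_div, div_eq_iff c2] at p3 p4
  have e0 : (angxy h x y).1 ^ 3 * (angxy h x y).2 * ((Complex.normSq (angxy h x y).2 : ℝ) : ℂ) =
      ((angxy h x y).1 * (angxy h x y).2 ^ 2) *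
        ((angxy h x y).1 ^ 2 * (starRingEnd ℂ) (angxy h x y).2) := by
    rw [← Complex.mul_conj]
    ring
  have e3 : ((angxy h x y).1 ^ 3 * (angxy h x y).2).re * ((1 + h) / 2) =
      Real.cos (x + y) * (Real.sqrt ((1 - h) / 2) * ((1 + h) / 2) *
        ((1 - h) / 2 * Real.sqrt ((1 + h) / 2))) := by
    have e4 := congrArg Complex.re e0
    rw [Complex.re_mul_ofReal, Complex.mul_re ((angxy h x y).1 * (angxy h x y).2 ^ 2), p1, p2, p3,
      p4, hn] at e4
    rw [e4, Real.cos_add]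
    ring
  have e5 : ((angxy h x y).1 ^ 3 * (angxy h x y).2).re =
      Real.cos (x + y) * (Real.sqrt ((1 - h) / 2) * ((1 - h) / 2) * Real.sqrt ((1 + h) / 2)) := by
    apply mul_right_cancel₀ hb.ne'
    rw [e3]
    ring
  have e1 : Real.sqrt (fame_G 1 κ h) =
      Real.sqrt ((1 - h) / 2) * ((1 - h) / 2) * Real.sqrt ((1 + h) / 2) *
        Real.exp (2 * κ * ((1 + h) / 2)) := by
    have e2 : fame_G 1 κ h =
        (Real.sqrt ((1 - h) / 2) * ((1 - h) / 2) * Real.sqrt ((1 + h) / 2) *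
        Real.exp (2 * κ * ((1 + h) / 2))) ^ 2 := by
      unfold fame_G
      rw [if_neg (by decide), mul_pow, mul_pow, mul_pow, Real.sq_sqrt hb.le, Real.sq_sqrt ha.le,
        ← Real.exp_nat_mul]
      have e6 : ((2 : ℕ) : ℝ) * (2 * κ * ((1 + h) / 2)) = 2 * κ * (1 + h) := by
        push_cast
        ring
      rw [e6]
      ring
    rw [e2, Real.sqrt_sq (by positivity)]
  show (if (1 : Fin 3) = 0 then ((angxy h x y).1 ^ 2 * (starRingEnd ℂ) (angxy h x y).2).re *
      Real.exp (κ * Complex.normSq (angxy h x y).2)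
    else ((angxy h x y).1 ^ 3 * (angxy h x y).2).re *
      Real.exp (2 * κ * Complex.normSq (angxy h x y).2)) = _
  rw [if_neg (by decide), e5, hn, e1]
  ring

theorem fame_Q_ang (j : Fin 3) (hj : j ≠ 2) (κ : ℝ) {h : ℝ} (x y : ℝ) (hh : |h| < 1) :
    fame_Q j κ (angxy h x y) = Real.cos (ll j x y) * Real.sqrt (fame_G j κ h) := by
  have h3 : j = 0 ∨ j = 1 := by
    revert hj
    revert j
    decide
  rcases h3 with rfl | rfl
  · exact fame_Q_ang0 κ x y hh
  · exact fame_Q_ang1 κ x y hh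

/-- The derivative of `fame_G` and its non-vanishing. -/
theorem fame_key (j : Fin 3) {κ h : ℝ} (hh : |h| < 1) (hκ : 0 ≤ κ) (hκ1 : κ ≤ 1)
    (hG : fame_G j κ h = 9 / 100) : ∃ c : ℝ, c ≠ 0 ∧ HasDerivAt (fame_G j κ) c h := by
  rw [abs_lt] at hh
  have ha : 0 < (1 - h) / 2 := by linarith
  have hb : 0 < (1 + h) / 2 := by linarith
  have d1 : HasDerivAt (fun h : ℝ => (1 - h) / 2) (-1 / 2) h :=
    ((hasDerivAt_id h).const_sub 1).div_const 2
  have d2 : HasDerivAt (fun h : ℝ => (1 + h) / 2) (1 / 2) h :=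
    ((hasDerivAt_id h).const_add 1).div_const 2
  by_cases hj : j = 0
  · have d3 : HasDerivAt (fun h : ℝ => κ * (1 + h)) (κ * 1) h :=
      ((hasDerivAt_id h).const_add 1).const_mul κ
    have d4 := ((d1.pow 2).mul d2).mul d3.exp
    have hf : fame_G j κ = fun h => ((1 - h) / 2) ^ 2 * ((1 + h) / 2) * Real.exp (κ * (1 + h)) := by
      funext h
      unfold fame_G
      rw [if_pos hj]
    rw [hf] at hG ⊢
    simp only at hG
    refine ⟨_, ?_, d4⟩
    intro h0
    have h1 : Real.exp (κ * (1 + h)) * ((1 - h) / 2) * (1 / 2) *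
        (1 - 3 * ((1 + h) / 2) + 2 * κ * ((1 + h) / 2) * ((1 - h) / 2)) = 0 := by
      rw [← h0]
      simp only [Pi.mul_apply, Pi.pow_apply]
      push_cast
      ring
    have h2 : 1 - 3 * ((1 + h) / 2) + 2 * κ * ((1 + h) / 2) * ((1 - h) / 2) = 0 := by
      have hE := Real.exp_pos (κ * (1 + h))
      have hne : Real.exp (κ * (1 + h)) * ((1 - h) / 2) * (1 / 2) ≠ 0 := by positivity
      exact (mul_eq_zero.1 h1).resolve_left hne
    set a := (1 + h) / 2 with hadef
    have ha1 : (1 - h) / 2 = 1 - a := by rw [hadef]; ring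
    rw [ha1] at h2 hG ha
    have hb3 : 1 / 3 ≤ a := by
      have : 0 ≤ 2 * κ * a * (1 - a) := by positivity
      linarith
    have hexp : (1 + κ * a) ^ 2 ≤ Real.exp (κ * (1 + h)) := by
      have e1 : κ * (1 + h) = (2 : ℕ) * (κ * a) := by
        rw [hadef]
        push_cast
        ring
      rw [e1, Real.exp_nat_mul]
      have e2 := Real.add_one_le_exp (κ * a)
      have e3 : 0 ≤ κ * a := by positivity
      exact pow_le_pow_left₀ (by linarith) (by linarith) 2
    have h5 : (1 - a) * (1 + κ * a) = (1 + a) / 2 := by linear_combination (1 / 2) * h2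
    have h6 : (1 - a) ^ 2 * a * (1 + κ * a) ^ 2 ≤ 9 / 100 := by
      rw [← hG]
      exact mul_le_mul_of_nonneg_left hexp (by positivity)
    have h7 : (1 - a) ^ 2 * a * (1 + κ * a) ^ 2 = a * ((1 + a) / 2) ^ 2 := by
      rw [← h5]
      ring
    rw [h7] at h6
    nlinarith
  · have d3 : HasDerivAt (fun h : ℝ => 2 * κ * (1 + h)) (2 * κ * 1) h :=
      ((hasDerivAt_id h).const_add 1).const_mul (2 * κ)
    have d4 := ((d1.pow 3).mul d2).mul d3.exp
    have hf : fame_G j κ = fun h => ((1 - h) / 2) ^ 3 * ((1 + h) / 2) *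
        Real.exp (2 * κ * (1 + h)) := by
      funext h
      unfold fame_G
      rw [if_neg hj]
    rw [hf] at hG ⊢
    simp only at hG
    refine ⟨_, ?_, d4⟩
    intro h0
    have h1 : Real.exp (2 * κ * (1 + h)) * ((1 - h) / 2) ^ 2 * (1 / 2) *
        (1 - 4 * ((1 + h) / 2) + 4 * κ * ((1 + h) / 2) * ((1 - h) / 2)) = 0 := by
      rw [← h0]
      simp only [Pi.mul_apply, Pi.pow_apply]
      push_cast
      ring
    have h2 : 1 - 4 * ((1 + h) / 2) + 4 * κ * ((1 + h) / 2) * ((1 - h) / 2) = 0 := by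
      have hE := Real.exp_pos (2 * κ * (1 + h))
      have hne : Real.exp (2 * κ * (1 + h)) * ((1 - h) / 2) ^ 2 * (1 / 2) ≠ 0 := by positivity
      exact (mul_eq_zero.1 h1).resolve_left hne
    set a := (1 + h) / 2 with hadef
    have ha1 : (1 - h) / 2 = 1 - a := by rw [hadef]; ring
    rw [ha1] at h2 hG ha
    have hb3 : 1 / 4 ≤ a := by
      have : 0 ≤ 4 * κ * a * (1 - a) := by positivity
      linarith
    have hb4 : a ≤ 1 / 2 := by
      have h8 : κ * (a * (1 - a)) ≤ 1 * (a * (1 - a)) :=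
        mul_le_mul_of_nonneg_right hκ1 (by positivity)
      nlinarith
    have hexp : (1 + 2 * κ * a) ^ 2 ≤ Real.exp (2 * κ * (1 + h)) := by
      have e1 : 2 * κ * (1 + h) = (2 : ℕ) * (2 * κ * a) := by
        rw [hadef]
        push_cast
        ring
      rw [e1, Real.exp_nat_mul]
      have e2 := Real.add_one_le_exp (2 * κ * a)
      have e3 : 0 ≤ 2 * κ * a := by positivity
      exact pow_le_pow_left₀ (by linarith) (by linarith) 2
    have h5 : (1 - a) * (1 + 2 * κ * a) = (1 + 2 * a) / 2 := by linear_combination (1 / 2) * h2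
    have h6 : (1 - a) ^ 3 * a * (1 + 2 * κ * a) ^ 2 ≤ 9 / 100 := by
      rw [← hG]
      exact mul_le_mul_of_nonneg_left hexp (by positivity)
    have h7 : (1 - a) ^ 3 * a * (1 + 2 * κ * a) ^ 2 = (1 - a) * a * ((1 + 2 * a) / 2) ^ 2 := by
      rw [← h5]
      ring
    rw [h7] at h6
    have h9 : 3 / 16 ≤ (1 - a) * a := by nlinarith
    have h10 : 9 / 16 ≤ ((1 + 2 * a) / 2) ^ 2 := by nlinarith
    nlinarith [mul_le_mul h9 h10 (by norm_num) (by positivity)]

theorem reg_FE (j : Fin 3) (hj : j ≠ 2) (t : ℝ) (ht : t ∈ Icc (0 : ℝ) 1) (x : C3)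
    (hx : PhiM x = 0) (h : FE j (t, x) = 0) : RegAt PhiM (fun y => FE j (t, y)) x := by
  have hF : DifferentiableAt ℝ (fun y => FE j (t, y)) x := by
    have h1 : ContDiff ℝ ∞ (fun y : C3 => FE j (t, y)) :=
      (contDiff_FE j).comp (contDiff_const.prodMk contDiff_id)
    exact (h1.differentiable (by simp)) x
  have hS : Complex.normSq (pr x).1 + Complex.normSq (pr x).2 = 1 := by
    have h1 := congrArg Complex.re hx
    have h2 : Complex.normSq x.1 + Complex.normSq x.2.1 - 1 = 0 := h1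
    show Complex.normSq x.1 + Complex.normSq x.2.1 = 1
    linarith
  have hval : 3 / 10 - fame_Q j (1 - t) (pr x) - x.2.2.re ^ 2 = 0 := h
  by_cases hs : x.2.2.re = 0
  · have hQ : fame_Q j (1 - t) (pr x) = 3 / 10 := by
      rw [hs] at hval
      linarith
    by_cases hh : |hgt (pr x)| < 1
    · obtain ⟨X, Y, hXY⟩ := exists_angxy hS hh
      set u := hgt (pr x) with hu
      have hQ2 : Real.cos (ll j X Y) * Real.sqrt (fame_G j (1 - t) u) = 3 / 10 := by
        rw [← fame_Q_ang j hj (1 - t) X Y hh, ← hXY]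
        exact hQ
      have hsq : 0 < Real.sqrt (fame_G j (1 - t) u) := Real.sqrt_pos.2 (fame_G_pos j _ hh)
      have hcos : 0 < Real.cos (ll j X Y) := by
        by_contra h0
        have : Real.cos (ll j X Y) * Real.sqrt (fame_G j (1 - t) u) ≤ 0 :=
          mul_nonpos_of_nonpos_of_nonneg (not_lt.1 h0) hsq.le
        linarith
      by_cases hsin : Real.sin (ll j X Y) = 0
      · -- the direction of `h`
        have hcos1 : Real.cos (ll j X Y) = 1 := by
          have h1 := Real.sin_sq_add_cos_sq (ll j X Y)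
          rw [hsin] at h1
          nlinarith
        rw [hcos1, one_mul] at hQ2
        have hG : fame_G j (1 - t) u = 9 / 100 := by
          have h1 := Real.sq_sqrt (fame_G_pos j (1 - t) hh).le
          rw [hQ2] at h1
          linarith
        obtain ⟨c, hc0, hc⟩ := fame_key j hh (by linarith [ht.2]) (by linarith [ht.1]) hG
        obtain ⟨g1, g2, g3⟩ := curve_h X Y hh
        have hcne : -(c / (2 * Real.sqrt (fame_G j (1 - t) u))) ≠ 0 :=
          neg_ne_zero.2 (div_ne_zero hc0 (by positivity))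
        refine regM_of_data hx hF (fun s => angxy (u + s) X Y) g1 (g2.trans hXY.symm)
          (g3.mono fun _ hs => hs.2) 0 hcne ?_
        have hc' : HasDerivAt (fun s : ℝ => fame_G j (1 - t) (u + s)) c 0 := by
          have h1 : HasDerivAt (fun s : ℝ => u + s) 1 0 := (hasDerivAt_id (0 : ℝ)).const_add u
          have h2 : HasDerivAt (fame_G j (1 - t)) c (u + 0) := by rw [add_zero]; exact hc
          have h3 := h2.comp (0 : ℝ) h1
          rw [mul_one] at h3
          exact h3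
        have h4 := (hc'.sqrt (by rw [add_zero]; exact (fame_G_pos j _ hh).ne')).const_sub (3 / 10)
        rw [add_zero] at h4
        refine h4.congr_of_eventuallyEq ?_
        filter_upwards [g3] with s hs'
        show FE j (t, (angxy (u + s) X Y).1, (angxy (u + s) X Y).2, x.2.2 + s * ((0 : ℝ) : ℂ)) = _
        rw [fame_FE, fame_Q_ang j hj (1 - t) X Y hs'.1, hcos1, one_mul]
        have h5 : (x.2.2 + s * ((0 : ℝ) : ℂ)).re = 0 := by
          simp [hs]
        rw [h5]
        ring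
      · -- the direction of the linear form
        obtain ⟨g1, g2, g3⟩ := curve_xy X Y 0 1 hh
        have hcne : Real.sin (ll j X Y) * Real.sqrt (fame_G j (1 - t) u) ≠ 0 :=
          mul_ne_zero hsin hsq.ne'
        refine regM_of_data hx hF (fun s => angxy u (X + s * 0) (Y + s * 1)) g1
          (g2.trans hXY.symm) (Filter.Eventually.of_forall g3) 0 hcne ?_
        have hl : ∀ s : ℝ, ll j (X + s * 0) (Y + s * 1) = ll j X Y + s := by
          intro s
          have h3 : j = 0 ∨ j = 1 := by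
            revert hj
            clear * -
            revert j
            decide
          rcases h3 with rfl | rfl
          · show Y + s * 1 = Y + s
            ring
          · show X + s * 0 + (Y + s * 1) = X + Y + s
            ring
        have h1 : HasDerivAt (fun s : ℝ => ll j X Y + s) 1 0 :=
          (hasDerivAt_id (0 : ℝ)).const_add _
        have h2 : HasDerivAt (fun s : ℝ => Real.cos (ll j X Y + s))
            (-Real.sin (ll j X Y + 0) * 1) 0 := h1.cos
        have h3 := (h2.mul_const (Real.sqrt (fame_G j (1 - t) u))).const_sub (3 / 10)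
        have h4 : -(-Real.sin (ll j X Y + 0) * 1 * Real.sqrt (fame_G j (1 - t) u)) =
            Real.sin (ll j X Y) * Real.sqrt (fame_G j (1 - t) u) := by
          rw [add_zero]
          ring
        rw [h4] at h3
        refine h3.congr_of_eventuallyEq (Filter.Eventually.of_forall ?_)
        intro s
        show FE j (t, (angxy u (X + s * 0) (Y + s * 1)).1, (angxy u (X + s * 0) (Y + s * 1)).2,
          x.2.2 + s * ((0 : ℝ) : ℂ)) = _
        rw [fame_FE, fame_Q_ang j hj (1 - t) _ _ hh, hl]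
        have h5 : (x.2.2 + s * ((0 : ℝ) : ℂ)).re = 0 := by
          simp [hs]
        rw [h5]
        ring
    · -- the cores
      exfalso
      have h1 := Complex.normSq_nonneg (pr x).1
      have h2 := Complex.normSq_nonneg (pr x).2
      have h3 : (pr x).1 = 0 ∨ (pr x).2 = 0 := by
        rw [not_lt] at hh
        unfold hgt at hh
        rcases le_abs.1 hh with h4 | h4
        · left
          apply Complex.normSq_eq_zero.1
          linarith
        · right
          apply Complex.normSq_eq_zero.1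
          linarith
      have h4 : fame_Q j (1 - t) (pr x) = 0 := by
        show (if j = 0 then ((pr x).1 ^ 2 * (starRingEnd ℂ) (pr x).2).re *
            Real.exp ((1 - t) * Complex.normSq (pr x).2)
          else ((pr x).1 ^ 3 * (pr x).2).re *
            Real.exp (2 * (1 - t) * Complex.normSq (pr x).2)) = 0
        rcases h3 with h3 | h3
        · rw [h3]
          simp
        · rw [h3]
          simp
      rw [h4] at hQ
      norm_num at hQ
  · have hcne : -(2 * x.2.2.re) ≠ 0 := neg_ne_zero.2 (mul_ne_zero two_ne_zero hs)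
    refine regM_of_data hx hF (fun _ => pr x) (differentiableAt_const _) rfl
      (Filter.Eventually.of_forall fun _ => hS) 1 hcne ?_
    have h1 : HasDerivAt (fun s : ℝ => x.2.2.re + s) 1 0 := (hasDerivAt_id (0 : ℝ)).const_add _
    have h2 := (h1.pow 2).const_sub (3 / 10 - fame_Q j (1 - t) (pr x))
    have h3 : -((2 : ℕ) * (x.2.2.re + 0) ^ (2 - 1) * 1) = -(2 * x.2.2.re) := by
      norm_num
    rw [h3] at h2
    refine h2.congr_of_eventuallyEq (Filter.Eventually.of_forall ?_)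
    intro s
    show FE j (t, (pr x).1, (pr x).2, x.2.2 + s * ((1 : ℝ) : ℂ)) = _
    rw [fame_FE]
    have h5 : (x.2.2 + s * ((1 : ℝ) : ℂ)).re = x.2.2.re + s := by
      simp
    rw [h5]
    rfl

theorem fame_bound (j : Fin 3) {κ : ℝ} (hκ : 0 ≤ κ) (hκ1 : κ ≤ 1) (x : C3)
    (hx : Complex.normSq x.1 + Complex.normSq x.2.1 ≤ 2) : -QQ j κ x ≤ 200 := by
  rw [Complex.normSq_eq_norm_sq, Complex.normSq_eq_norm_sq] at hx
  have n1 := norm_nonneg x.1
  have n2 := norm_nonneg x.2.1
  have q1 : ‖x.1‖ ^ 2 ≤ 2 := by nlinarith [sq_nonneg ‖x.2.1‖]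
  have q2 : ‖x.2.1‖ ^ 2 ≤ 2 := by nlinarith [sq_nonneg ‖x.1‖]
  have q3 : ‖x.1‖ * ‖x.2.1‖ ≤ 1 := by nlinarith [sq_nonneg (‖x.1‖ - ‖x.2.1‖)]
  have q4 : ‖x.2.1‖ ≤ 2 := by nlinarith
  have hexp4 : Real.exp 4 ≤ 81 := by
    have h1 : Real.exp 4 = Real.exp 1 ^ 4 := by
      rw [← Real.exp_nat_mul]
      norm_num
    rw [h1]
    have h2 : Real.exp 1 ≤ 3 := by linarith [Real.exp_one_lt_d9]
    calc Real.exp 1 ^ 4 ≤ 3 ^ 4 := pow_le_pow_left₀ (Real.exp_pos 1).le h2 4
      _ = 81 := by norm_num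
  have hn : Complex.normSq x.2.1 ≤ 2 := by
    rw [Complex.normSq_eq_norm_sq]
    exact q2
  have hn0 := Complex.normSq_nonneg x.2.1
  unfold QQ
  split_ifs with hj
  · have e1 : Real.exp (κ * Complex.normSq x.2.1) ≤ 81 := by
      refine (Real.exp_le_exp.2 ?_).trans hexp4
      nlinarith
    have e2 : |(x.1 ^ 2 * (starRingEnd ℂ) x.2.1).re| ≤ 4 / 2 := by
      refine (Complex.abs_re_le_norm _).trans ?_
      rw [norm_mul, norm_pow, Complex.norm_conj]
      have q5 : ‖x.1‖ ≤ 3 / 2 := by nlinarith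
      nlinarith
    have e3 := Real.exp_pos (κ * Complex.normSq x.2.1)
    have e4 := abs_le.1 e2
    nlinarith
  · have e1 : Real.exp (2 * κ * Complex.normSq x.2.1) ≤ 81 := by
      refine (Real.exp_le_exp.2 ?_).trans hexp4
      nlinarith
    have e2 : |(x.1 ^ 3 * x.2.1).re| ≤ 2 := by
      refine (Complex.abs_re_le_norm _).trans ?_
      rw [norm_mul, norm_pow]
      calc ‖x.1‖ ^ 3 * ‖x.2.1‖ = ‖x.1‖ ^ 2 * (‖x.1‖ * ‖x.2.1‖) := by ring
        _ ≤ 2 * 1 := mul_le_mul q1 q3 (by positivity) (by norm_num)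
        _ = 2 := by norm_num
    have e3 := Real.exp_pos (2 * κ * Complex.normSq x.2.1)
    have e4 := abs_le.1 e2
    nlinarith

/-- Removing the exponential factor. -/
theorem eqDiffeo_E (j : Fin 3) (hj : j ≠ 2) :
    EqDiffeo 1 {x | PhiM x = 0 ∧ 0 ≤ FE j (0, x)} {x | PhiM x = 0 ∧ 0 ≤ FE j (1, x)} := by
  refine eqDiffeo_family_M (FE j) (contDiff_FE j) (FE_act j) 300 ?_ ?_
  · intro t ht x hx
    have h1 := fame_bound j (κ := 1 - t) (by linarith [ht.2]) (by linarith [ht.1]) x hx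
    show 3 / 10 - QQ j (1 - t) x - x.2.2.re ^ 2 ≤ 300 - x.2.2.re ^ 2
    linarith
  · intro t ht x hx h
    exact reg_FE j hj t ht x hx h

end Pool.Agent.Tri
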