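import Mathlib
import Pool.Agent.H.MP_5efd29_gt.FamO
import Pool.Agent.H.MP_5efd29_gt.FunB

open scoped ContDiff Topology
open Set

noncomputable section

namespace Pool.Agent.Tri

theorem contDiff_FF (j : Fin 3) : ContDiff ℝ ∞ (FF j) := by
  have c1 : ContDiff ℝ ∞ (fun q : ℝ × C3 => q.2.1) := contDiff_fst.comp contDiff_snd
  have c2 : ContDiff ℝ ∞ (fun q : ℝ × C3 => q.2.2.1) :=
    contDiff_fst.comp (contDiff_snd.comp contDiff_snd)
  have c3 : ContDiff ℝ ∞ (fun q : ℝ × C3 => q.2.2.2) :=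
    contDiff_snd.comp (contDiff_snd.comp contDiff_snd)
  have n1 : ContDiff ℝ ∞ (fun q : ℝ × C3 => Complex.normSq q.2.1) :=
    funb1_contDiff_normSq.comp c1
  have n2 : ContDiff ℝ ∞ (fun q : ℝ × C3 => Complex.normSq q.2.2.1) :=
    funb1_contDiff_normSq.comp c2
  have r3 : ContDiff ℝ ∞ (fun q : ℝ × C3 => q.2.2.2.re ^ 2) :=
    (funb1_contDiff_re.comp c3).pow 2
  have hq : ContDiff ℝ ∞ (fun q : ℝ × C3 => QQ j 0 q.2) := by
    unfold QQ
    by_cases hj : j = 0
    · simp only [if_pos hj]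
      exact (funb1_contDiff_re.comp ((c1.pow 2).mul (funb1_contDiff_conj.comp c2))).mul
        (Real.contDiff_exp.comp (contDiff_const.mul n2))
    · simp only [if_neg hj]
      exact (funb1_contDiff_re.comp ((c1.pow 3).mul c2)).mul
        (Real.contDiff_exp.comp (contDiff_const.mul n2))
  exact (contDiff_const.sub (((contDiff_const.sub contDiff_fst).mul hq).add
    (contDiff_fst.mul n1))).sub r3

theorem FF_act (j : Fin 3) (t : ℝ) (x : C3) : FF j (t, act x) = FF j (t, x) := by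
  have h1 : (act x).1 ^ 2 * (starRingEnd ℂ) (act x).2.1 = x.1 ^ 2 * (starRingEnd ℂ) x.2.1 :=
    funb2_mul' x
  have h2 : (act x).1 ^ 3 * (act x).2.1 = x.1 ^ 3 * x.2.1 := by
    show (zeta * x.1) ^ 3 * (zeta ^ 2 * x.2.1) = x.1 ^ 3 * x.2.1
    have h := zeta_pow_five
    linear_combination (x.1 ^ 3 * x.2.1) * h
  have h3 : Complex.normSq (act x).2.1 = Complex.normSq x.2.1 := by
    show Complex.normSq (zeta ^ 2 * x.2.1) = Complex.normSq x.2.1
    rw [map_mul, map_pow, funb2_normSq_zeta, one_pow, one_mul]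
  have h5 : Complex.normSq (act x).1 = Complex.normSq x.1 := by
    show Complex.normSq (zeta * x.1) = Complex.normSq x.1
    rw [map_mul, funb2_normSq_zeta, one_mul]
  have h4 : (act x).2.2 = x.2.2 := rfl
  show 3 / 10 - ((1 - t) * QQ j 0 (act x) + t * Complex.normSq (act x).1) -
    (act x).2.2.re ^ 2 = 3 / 10 - ((1 - t) * QQ j 0 x + t * Complex.normSq x.1) - x.2.2.re ^ 2
  unfold QQ
  rw [h1, h2, h3, h4, h5]

/-! ### The two calculus facts -/

theorem famf_key0 {a b t : ℝ} (ht0 : 0 ≤ t) (ht1 : t ≤ 1) (hp : 0 < 1 - a ^ 2 - b ^ 2)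
    (hG : (1 - a ^ 2 - b ^ 2) * ((1 - t) * a + t) = 3 / 10)
    (h1 : -(2 * a) * ((1 - t) * a + t) + (1 - a ^ 2 - b ^ 2) * (1 - t) = 0)
    (h2 : -(2 * b) * ((1 - t) * a + t) = 0) : False := by
  have hk : 0 < (1 - t) * a + t := by
    by_contra hcon
    push Not at hcon
    have := mul_nonpos_of_nonneg_of_nonpos hp.le hcon
    linarith
  have hb : b = 0 := by
    rcases mul_eq_zero.1 h2 with h | h
    · linarith
    · exact absurd h hk.ne'
  subst hb
  have hq : 0 ≤ 1 - t := by linarith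
  rcases lt_trichotomy a 0 with ha | ha | ha
  · have h3 := mul_pos_of_neg_of_neg (a := a) (b := -((1 - t) * a + t)) ha (by linarith)
    have h4 := mul_nonneg hp.le hq
    nlinarith
  · subst ha
    nlinarith
  · have e1 : (1 - t) * (1 - a) * (1 + 3 * a) = 2 * a := by nlinarith
    have e2 : ((1 - t) * a + t) * (1 + 3 * a) = 1 + a := by nlinarith
    have ha1 : a < 1 := by nlinarith
    have e3 : 3 * a ^ 2 ≤ 1 := by
      have h5 : (1 - t) * ((1 - a) * (1 + 3 * a)) ≤ 1 * ((1 - a) * (1 + 3 * a)) :=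
        mul_le_mul_of_nonneg_right (by linarith) (mul_nonneg (by linarith) (by linarith))
      nlinarith
    have e4 : 3 / 10 * (1 + 3 * a) = (1 - a ^ 2) * (1 + a) := by
      rw [← hG, ← e2]; ring
    have e5 : 2 / 3 * (1 + a) ≤ (1 - a ^ 2) * (1 + a) :=
      mul_le_mul_of_nonneg_right (by linarith) (by linarith)
    linarith

theorem famf_key1 {a b t r : ℝ} (ht0 : 0 ≤ t) (ht1 : t ≤ 1) (hr : 0 < r)
    (hr2 : r ^ 2 = 1 - a ^ 2 - b ^ 2)
    (hG : (1 - t) * (r ^ 3 * a) + t * r ^ 2 = 3 / 10)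
    (h1 : (1 - t) * r ^ 3 - a * (3 * (1 - t) * r * a + 2 * t) = 0)
    (h2 : b * (3 * (1 - t) * r * a + 2 * t) = 0) : False := by
  have hq : 0 ≤ 1 - t := by linarith
  have hr3 : 0 < r ^ 3 := by positivity
  have hb : b = 0 := by
    rcases mul_eq_zero.1 h2 with h | h
    · exact h
    · exfalso
      rw [h, mul_zero, sub_zero] at h1
      rcases mul_eq_zero.1 h1 with h3 | h3
      · rw [h3] at h
        linarith
      · exact hr3.ne' h3
  subst hb
  have e0 : r ^ 2 = 1 - a ^ 2 := by linarith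
  have e0' : r ^ 3 = r * (1 - a ^ 2) := by rw [← e0]; ring
  have e1 : (1 - t) * r * (1 - 4 * a ^ 2) = 2 * t * a := by
    rw [e0'] at h1
    linarith
  have e2 : (1 - t) * (r ^ 3 * (1 - 2 * a ^ 2)) = 6 / 10 * a := by
    have h3 : (1 - t) * (r ^ 3 * (1 - 2 * a ^ 2)) = 2 * a * ((1 - t) * (r ^ 3 * a) + t * r ^ 2) +
        r ^ 2 * ((1 - t) * r * (1 - 4 * a ^ 2) - 2 * t * a) := by ring
    rw [h3, hG, e1]
    ring
  have ha2 : a ^ 2 < 1 := by nlinarith
  rcases lt_trichotomy a 0 with ha | ha | ha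
  · -- negative
    have h3 : 1 - 2 * a ^ 2 < 0 := by
      by_contra hcon
      push Not at hcon
      have := mul_nonneg hq (mul_nonneg hr3.le hcon)
      linarith
    have h4 : a < -(7 / 10) := by nlinarith
    have hr1 : r ≤ 1 := by nlinarith
    have h5 : r ^ 3 * (2 * a ^ 2 - 1) ≤ 1 / 8 := by
      have h6 : r ^ 3 * (2 * a ^ 2 - 1) = r * (r ^ 2 * (1 - 2 * r ^ 2)) := by
        rw [e0]; rw [e0']; ring
      have h7 : r ^ 2 * (1 - 2 * r ^ 2) ≤ 1 / 8 := by nlinarith [sq_nonneg (r ^ 2 - 1 / 4)]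
      have h8 : 0 ≤ r ^ 2 * (1 - 2 * r ^ 2) := by
        apply mul_nonneg (by positivity)
        rw [e0]; linarith
      rw [h6]
      nlinarith
    have h9 : (1 - t) * (r ^ 3 * (2 * a ^ 2 - 1)) ≤ 1 * (1 / 8) :=
      mul_le_mul (by linarith) h5 (mul_nonneg hr3.le (by linarith)) zero_le_one
    linarith
  · subst ha
    have h3 : (1 - t) * r = 0 := by linarith
    rcases mul_eq_zero.1 h3 with h | h
    · rw [h] at hG
      have : t = 1 := by linarith
      rw [this, e0] at hG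
      norm_num at hG
    · exact hr.ne' h
  · -- positive
    have hq0 : 0 < 1 - t := by
      rcases hq.lt_or_eq with h | h
      · exact h
      · exfalso
        rw [← h] at e2
        linarith
    have h3 : 0 ≤ 1 - 4 * a ^ 2 := by
      by_contra hcon
      push Not at hcon
      have h4 := mul_neg_of_pos_of_neg (mul_pos hq0 hr) hcon
      have h5 : 0 ≤ 2 * t * a := by positivity
      linarith
    have h4 : a ≤ 1 / 2 := by nlinarith
    have hr1 : r ≤ 1 := by nlinarith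
    have hr86 : 86 / 100 ≤ r := by nlinarith
    -- the two expressions
    have e3 : (1 - t) * (r * (1 - 4 * a ^ 2) + 2 * a) = 2 * a := by linarith
    have e4 : (1 - t) * (r ^ 3 * (1 - 2 * a ^ 2) - 3 / 10 * (r * (1 - 4 * a ^ 2) + 2 * a)) = 0 := by
      linarith
    have e5 : r ^ 3 * (1 - 2 * a ^ 2) = 3 / 10 * (r * (1 - 4 * a ^ 2) + 2 * a) := by
      rcases mul_eq_zero.1 e4 with h | h
      · exact absurd h hq0.ne'
      · linarith
    have h5 : 0 ≤ (1 - a ^ 2) * (1 - 2 * a ^ 2) :=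
      mul_nonneg (by linarith) (by linarith)
    have h6 : 86 / 100 * ((1 - a ^ 2) * (1 - 2 * a ^ 2)) ≤ r ^ 3 * (1 - 2 * a ^ 2) := by
      rw [e0', mul_assoc]
      exact mul_le_mul_of_nonneg_right hr86 h5
    have h7 : r * (1 - 4 * a ^ 2) ≤ 1 * (1 - 4 * a ^ 2) :=
      mul_le_mul_of_nonneg_right hr1 h3
    have h8 : a / 2 - 3 / 16 ≤ a ^ 4 := by
      nlinarith [sq_nonneg (a ^ 2 - 1 / 4), sq_nonneg (a - 1 / 2)]
    have h9 : a ^ 2 ≤ a / 2 := by nlinarith
    nlinarith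

/-! ### The curves -/

/-- The square of the radius along a line in the disc. -/
def famf_p (a b v w τ : ℝ) : ℝ := 1 - (a + τ * v) ^ 2 - (b + τ * w) ^ 2

theorem famf_p_zero (a b v w : ℝ) : famf_p a b v w 0 = 1 - a ^ 2 - b ^ 2 := by
  unfold famf_p
  ring

theorem famf_dp (a b v w : ℝ) : HasDerivAt (famf_p a b v w) (-(2 * a * v) - 2 * b * w) 0 := by
  have h1 : HasDerivAt (fun τ : ℝ => a + τ * v) v 0 := by
    simpa using ((hasDerivAt_id (0 : ℝ)).mul_const v).const_add a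
  have h2 : HasDerivAt (fun τ : ℝ => b + τ * w) w 0 := by
    simpa using ((hasDerivAt_id (0 : ℝ)).mul_const w).const_add b
  have h3 := ((h1.fun_pow 2).const_sub 1).fun_sub (h2.fun_pow 2)
  refine h3.congr_deriv ?_
  simp

theorem famf_p_pos {a b : ℝ} (v w : ℝ) (hp : 0 < 1 - a ^ 2 - b ^ 2) :
    ∀ᶠ τ in 𝓝 (0 : ℝ), 0 < famf_p a b v w τ := by
  have hc : ContinuousAt (famf_p a b v w) 0 := (famf_dp a b v w).continuousAt
  have h0 : 0 < famf_p a b v w 0 := by rwa [famf_p_zero]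
  exact hc.eventually (lt_mem_nhds h0)

/-- The curve in the 3-sphere. -/
def famf_mu (a b v w : ℝ) (u e : ℂ) (τ : ℝ) : ℂ × ℂ :=
  (((Real.sqrt (famf_p a b v w τ) : ℝ) : ℂ) * u,
    (((a + τ * v : ℝ) : ℂ) + ((b + τ * w : ℝ) : ℂ) * Complex.I) * e)

theorem famf_mu_normSq (a b v w : ℝ) {u e : ℂ} (hu : Complex.normSq u = 1)
    (he : Complex.normSq e = 1) {τ : ℝ} (hp : 0 < famf_p a b v w τ) :
    Complex.normSq (famf_mu a b v w u e τ).1 = famf_p a b v w τ ∧
      Complex.normSq (famf_mu a b v w u e τ).2 = (a + τ * v) ^ 2 + (b + τ * w) ^ 2 := by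
  constructor
  · show Complex.normSq (((Real.sqrt (famf_p a b v w τ) : ℝ) : ℂ) * u) = _
    rw [map_mul, hu, mul_one, Complex.normSq_ofReal, Real.mul_self_sqrt hp.le]
  · show Complex.normSq ((((a + τ * v : ℝ) : ℂ) + ((b + τ * w : ℝ) : ℂ) * Complex.I) * e) = _
    rw [map_mul, he, mul_one, Complex.normSq_add_mul_I]

theorem famf_mu_sphere (a b v w : ℝ) {u e : ℂ} (hu : Complex.normSq u = 1)
    (he : Complex.normSq e = 1) (hp : 0 < 1 - a ^ 2 - b ^ 2) :
    ∀ᶠ τ in 𝓝 (0 : ℝ), Complex.normSq (famf_mu a b v w u e τ).1 +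
      Complex.normSq (famf_mu a b v w u e τ).2 = 1 := by
  filter_upwards [famf_p_pos v w hp] with τ hτ
  obtain ⟨h1, h2⟩ := famf_mu_normSq a b v w hu he hτ
  rw [h1, h2]
  unfold famf_p
  ring

theorem famf_dsqrt {a b : ℝ} (v w : ℝ) (hp : 0 < 1 - a ^ 2 - b ^ 2) :
    HasDerivAt (fun τ => Real.sqrt (famf_p a b v w τ))
      ((-(2 * a * v) - 2 * b * w) / (2 * Real.sqrt (1 - a ^ 2 - b ^ 2))) 0 := by
  have h := (famf_dp a b v w).sqrt (by rw [famf_p_zero]; exact hp.ne')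
  rwa [famf_p_zero] at h

theorem famf_mu_diff {a b : ℝ} (v w : ℝ) (u e : ℂ) (hp : 0 < 1 - a ^ 2 - b ^ 2) :
    DifferentiableAt ℝ (famf_mu a b v w u e) 0 := by
  have h1 : DifferentiableAt ℝ (fun τ : ℝ => ((Real.sqrt (famf_p a b v w τ) : ℝ) : ℂ) * u) 0 :=
    ((famf_dsqrt v w hp).ofReal_comp.differentiableAt).mul_const u
  have h2 : DifferentiableAt ℝ (fun τ : ℝ => (((a + τ * v : ℝ) : ℂ) +
      ((b + τ * w : ℝ) : ℂ) * Complex.I) * e) 0 := by
    have h3 : HasDerivAt (fun τ : ℝ => a + τ * v) v 0 := by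
      simpa using ((hasDerivAt_id (0 : ℝ)).mul_const v).const_add a
    have h4 : HasDerivAt (fun τ : ℝ => b + τ * w) w 0 := by
      simpa using ((hasDerivAt_id (0 : ℝ)).mul_const w).const_add b
    exact ((h3.ofReal_comp.differentiableAt).add
      ((h4.ofReal_comp.differentiableAt).mul_const Complex.I)).mul_const e
  exact h1.prodMk h2

theorem famf_FF (j : Fin 3) (t : ℝ) (m : ℂ × ℂ) (ξ : ℂ) :
    FF j (t, m.1, m.2, ξ) = 3 / 10 - ((1 - t) * QQ j 0 (m.1, m.2, ξ) +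
      t * Complex.normSq m.1) - ξ.re ^ 2 := rfl

theorem famf_conj_pow {u : ℂ} (hu : Complex.normSq u = 1) : u * (starRingEnd ℂ) u = 1 := by
  rw [Complex.mul_conj, hu, Complex.ofReal_one]

theorem famf_Q0 (a b v w : ℝ) {u : ℂ} (hu : Complex.normSq u = 1) {τ : ℝ}
    (hp : 0 < famf_p a b v w τ) (ξ : ℂ) :
    QQ 0 0 ((famf_mu a b v w u (u ^ 2) τ).1, (famf_mu a b v w u (u ^ 2) τ).2, ξ) =
      famf_p a b v w τ * (a + τ * v) := by
  show (if (0 : Fin 3) = 0 then _ else _) = _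
  rw [if_pos rfl, zero_mul, Real.exp_zero, mul_one]
  show ((((Real.sqrt (famf_p a b v w τ) : ℝ) : ℂ) * u) ^ 2 * (starRingEnd ℂ)
    ((((a + τ * v : ℝ) : ℂ) + ((b + τ * w : ℝ) : ℂ) * Complex.I) * u ^ 2)).re = _
  have h1 := famf_conj_pow hu
  have h2 : (((Real.sqrt (famf_p a b v w τ) : ℝ) : ℂ) * u) ^ 2 * (starRingEnd ℂ)
      ((((a + τ * v : ℝ) : ℂ) + ((b + τ * w : ℝ) : ℂ) * Complex.I) * u ^ 2) =
      ((famf_p a b v w τ : ℝ) : ℂ) * (((a + τ * v : ℝ) : ℂ) -
        ((b + τ * w : ℝ) : ℂ) * Complex.I) := by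
    have h3 : (((Real.sqrt (famf_p a b v w τ) : ℝ) : ℂ)) ^ 2 = ((famf_p a b v w τ : ℝ) : ℂ) := by
      rw [← Complex.ofReal_pow, Real.sq_sqrt hp.le]
    rw [mul_pow, h3, map_mul, map_pow, map_add, map_mul, Complex.conj_ofReal, Complex.conj_ofReal,
      Complex.conj_I]
    have h4 : u ^ 2 * (starRingEnd ℂ) u ^ 2 = 1 := by rw [← mul_pow, h1, one_pow]
    linear_combination ((famf_p a b v w τ : ℝ) : ℂ) * (((a + τ * v : ℝ) : ℂ) -
        ((b + τ * w : ℝ) : ℂ) * Complex.I) * h4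
  rw [h2, Complex.re_ofReal_mul]
  simp

theorem famf_Q1 (a b v w : ℝ) {u : ℂ} (hu : Complex.normSq u = 1) {τ : ℝ} (ξ : ℂ) :
    QQ 1 0 ((famf_mu a b v w u ((starRingEnd ℂ) u ^ 3) τ).1,
      (famf_mu a b v w u ((starRingEnd ℂ) u ^ 3) τ).2, ξ) =
      Real.sqrt (famf_p a b v w τ) ^ 3 * (a + τ * v) := by
  show (if (1 : Fin 3) = 0 then _ else _) = _
  rw [if_neg (by decide), mul_zero, zero_mul, Real.exp_zero, mul_one]
  show ((((Real.sqrt (famf_p a b v w τ) : ℝ) : ℂ) * u) ^ 3 *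
    ((((a + τ * v : ℝ) : ℂ) + ((b + τ * w : ℝ) : ℂ) * Complex.I) * (starRingEnd ℂ) u ^ 3)).re = _
  have h1 := famf_conj_pow hu
  have h2 : (((Real.sqrt (famf_p a b v w τ) : ℝ) : ℂ) * u) ^ 3 *
      ((((a + τ * v : ℝ) : ℂ) + ((b + τ * w : ℝ) : ℂ) * Complex.I) * (starRingEnd ℂ) u ^ 3) =
      ((Real.sqrt (famf_p a b v w τ) ^ 3 : ℝ) : ℂ) * (((a + τ * v : ℝ) : ℂ) +
        ((b + τ * w : ℝ) : ℂ) * Complex.I) := by
    have h4 : u ^ 3 * (starRingEnd ℂ) u ^ 3 = 1 := by rw [← mul_pow, h1, one_pow]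
    rw [mul_pow, Complex.ofReal_pow]
    linear_combination (((Real.sqrt (famf_p a b v w τ) : ℝ) : ℂ)) ^ 3 *
      (((a + τ * v : ℝ) : ℂ) + ((b + τ * w : ℝ) : ℂ) * Complex.I) * h4
  rw [h2, Complex.re_ofReal_mul]
  simp

theorem famf_two : FF 2 = FF 1 := rfl

theorem famf_reg (j : Fin 3) (hj : j = 0 ∨ j = 1) (t : ℝ) (ht : t ∈ Icc (0 : ℝ) 1) (x : C3)
    (hx : PhiM x = 0) (h : FF j (t, x) = 0) : RegAt PhiM (fun y => FF j (t, y)) x := by
  have hF : DifferentiableAt ℝ (fun y => FF j (t, y)) x := by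
    have h1 : ContDiff ℝ ∞ (fun y : C3 => FF j (t, y)) :=
      (contDiff_FF j).comp (contDiff_const.prodMk contDiff_id)
    exact (h1.differentiable (by simp)) x
  have hS : Complex.normSq x.1 + Complex.normSq x.2.1 = 1 := by
    have h1 := congrArg Complex.re hx
    have h2 : Complex.normSq x.1 + Complex.normSq x.2.1 - 1 = 0 := h1
    linarith
  have hval : 3 / 10 - ((1 - t) * QQ j 0 x + t * Complex.normSq x.1) - x.2.2.re ^ 2 = 0 := h
  by_cases hs : x.2.2.re = 0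
  swap
  · have hcne : -(2 * x.2.2.re) ≠ 0 := neg_ne_zero.2 (mul_ne_zero two_ne_zero hs)
    refine regM_of_data hx hF (fun _ => pr x) (differentiableAt_const _) rfl
      (Filter.Eventually.of_forall fun _ => hS) 1 hcne ?_
    have h1 : HasDerivAt (fun s : ℝ => x.2.2.re + s) 1 0 := (hasDerivAt_id (0 : ℝ)).const_add _
    have h2 := (h1.fun_pow 2).const_sub (3 / 10 - ((1 - t) * QQ j 0 x + t * Complex.normSq x.1))
    have h3 : -((2 : ℕ) * (x.2.2.re + 0) ^ (2 - 1) * 1) = -(2 * x.2.2.re) := by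
      norm_num
    rw [h3] at h2
    refine h2.congr_of_eventuallyEq (Filter.Eventually.of_forall ?_)
    intro s
    show 3 / 10 - ((1 - t) * QQ j 0 x + t * Complex.normSq x.1) -
      (x.2.2 + s * ((1 : ℝ) : ℂ)).re ^ 2 = _
    have h5 : (x.2.2 + s * ((1 : ℝ) : ℂ)).re = x.2.2.re + s := by
      simp
    rw [h5]
  -- the polar form
  have hg : (1 - t) * QQ j 0 x + t * Complex.normSq x.1 = 3 / 10 := by
    rw [hs] at hval
    linarith
  have hx1 : x.1 ≠ 0 := by
    intro h0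
    unfold QQ at hg
    rw [h0] at hg
    simp at hg
    norm_num at hg
  set R := ‖x.1‖ with hR
  have hRpos : 0 < R := norm_pos_iff.2 hx1
  set u : ℂ := x.1 / (R : ℂ) with hu
  have hRne : (R : ℂ) ≠ 0 := Complex.ofReal_ne_zero.2 hRpos.ne'
  have hxu : x.1 = (R : ℂ) * u := by
    rw [hu, mul_div_cancel₀ _ hRne]
  have hun : Complex.normSq u = 1 := by
    rw [hu, map_div₀, Complex.normSq_ofReal, Complex.normSq_eq_norm_sq, ← hR, ← sq,
      div_self (by positivity)]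
  have hcu := famf_conj_pow hun
  have hRsq : Complex.normSq x.1 = R ^ 2 := by rw [Complex.normSq_eq_norm_sq]
  have hxi : ∀ τ : ℝ, (x.2.2 + τ * ((0 : ℝ) : ℂ)).re = 0 := by
    intro τ
    simp [hs]
  -- the two cases
  have main0 : j = 0 → RegAt PhiM (fun y => FF j (t, y)) x := by
    intro hj
    subst hj
    set ζ : ℂ := x.2.1 * (starRingEnd ℂ) u ^ 2 with hζ
    have hw : x.2.1 = ((ζ.re : ℂ) + (ζ.im : ℂ) * Complex.I) * u ^ 2 := by
      rw [Complex.re_add_im, hζ, mul_assoc, ← mul_pow, mul_comm _ u, hcu, one_pow, mul_one]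
    have he : Complex.normSq (u ^ 2) = 1 := by rw [map_pow, hun, one_pow]
    have hn : Complex.normSq x.2.1 = ζ.re ^ 2 + ζ.im ^ 2 := by
      rw [hw, map_mul, he, mul_one, Complex.normSq_add_mul_I]
    generalize ζ.re = a at *
    generalize ζ.im = b at *
    have hp2 : 1 - a ^ 2 - b ^ 2 = R ^ 2 := by rw [← hRsq]; linarith
    have hp : 0 < 1 - a ^ 2 - b ^ 2 := by rw [hp2]; positivity
    have hsq : Real.sqrt (1 - a ^ 2 - b ^ 2) = R := by rw [hp2, Real.sqrt_sq hRpos.le]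
    have hmu0 : ∀ v w : ℝ, famf_mu a b v w u (u ^ 2) 0 = pr x := by
      intro v w
      unfold famf_mu
      rw [famf_p_zero, hsq]
      refine Prod.ext ?_ ?_
      · exact hxu.symm
      · show (((a + 0 * v : ℝ) : ℂ) + ((b + 0 * w : ℝ) : ℂ) * Complex.I) * u ^ 2 = x.2.1
        rw [hw]
        simp
    have hG : (1 - a ^ 2 - b ^ 2) * ((1 - t) * a + t) = 3 / 10 := by
      have h1 := famf_Q0 a b 0 0 hun (τ := 0) (by rw [famf_p_zero]; exact hp) x.2.2
      rw [hmu0, famf_p_zero] at h1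
      have h2 : QQ 0 0 x = (1 - a ^ 2 - b ^ 2) * (a + 0 * 0) := h1
      rw [h2, hRsq, ← hp2] at hg
      linarith
    have hder : ∀ v w : ℝ, HasDerivAt (fun τ : ℝ => FF 0 (t, (famf_mu a b v w u (u ^ 2) τ).1,
        (famf_mu a b v w u (u ^ 2) τ).2, x.2.2 + τ * ((0 : ℝ) : ℂ)))
        (-((-(2 * a * v) - 2 * b * w) * ((1 - t) * a + t) +
          (1 - a ^ 2 - b ^ 2) * ((1 - t) * v))) 0 := by
      intro v w
      have h3 : HasDerivAt (fun τ : ℝ => a + τ * v) v 0 := by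
        simpa using ((hasDerivAt_id (0 : ℝ)).mul_const v).const_add a
      have h4 := ((famf_dp a b v w).fun_mul ((h3.const_mul (1 - t)).add_const t)).const_sub
        (3 / 10)
      rw [famf_p_zero, zero_mul, add_zero] at h4
      refine h4.congr_of_eventuallyEq ?_
      filter_upwards [famf_p_pos v w hp] with τ hτ
      rw [famf_FF, famf_Q0 a b v w hun hτ, (famf_mu_normSq a b v w hun he hτ).1, hxi]
      ring
    by_contra hcon
    apply famf_key0 ht.1 ht.2 hp hG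
    · by_contra hne
      apply hcon
      refine regM_of_data hx hF (famf_mu a b 1 0 u (u ^ 2)) (famf_mu_diff 1 0 u _ hp) (hmu0 1 0)
        (famf_mu_sphere a b 1 0 hun he hp) 0 ?_ (hder 1 0)
      intro h0
      apply hne
      linarith
    · by_contra hne
      apply hcon
      refine regM_of_data hx hF (famf_mu a b 0 1 u (u ^ 2)) (famf_mu_diff 0 1 u _ hp) (hmu0 0 1)
        (famf_mu_sphere a b 0 1 hun he hp) 0 ?_ (hder 0 1)
      intro h0
      apply hne
      linarith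
  have main1 : j = 1 → RegAt PhiM (fun y => FF j (t, y)) x := by
    intro hj
    subst hj
    set e : ℂ := (starRingEnd ℂ) u ^ 3 with hedef
    set ζ : ℂ := x.2.1 * u ^ 3 with hζ
    have hw : x.2.1 = ((ζ.re : ℂ) + (ζ.im : ℂ) * Complex.I) * e := by
      rw [Complex.re_add_im, hζ, hedef, mul_assoc, ← mul_pow, hcu, one_pow, mul_one]
    have he : Complex.normSq e = 1 := by
      rw [hedef, map_pow, Complex.normSq_conj, hun, one_pow]
    have hn : Complex.normSq x.2.1 = ζ.re ^ 2 + ζ.im ^ 2 := by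
      rw [hw, map_mul, he, mul_one, Complex.normSq_add_mul_I]
    generalize ζ.re = a at *
    generalize ζ.im = b at *
    have hp2 : 1 - a ^ 2 - b ^ 2 = R ^ 2 := by rw [← hRsq]; linarith
    have hp : 0 < 1 - a ^ 2 - b ^ 2 := by rw [hp2]; positivity
    have hsq : Real.sqrt (1 - a ^ 2 - b ^ 2) = R := by rw [hp2, Real.sqrt_sq hRpos.le]
    have hmu0 : ∀ v w : ℝ, famf_mu a b v w u e 0 = pr x := by
      intro v w
      unfold famf_mu
      rw [famf_p_zero, hsq]
      refine Prod.ext ?_ ?_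
      · exact hxu.symm
      · show (((a + 0 * v : ℝ) : ℂ) + ((b + 0 * w : ℝ) : ℂ) * Complex.I) * e = x.2.1
        rw [hw]
        simp
    have hG : (1 - t) * (R ^ 3 * a) + t * R ^ 2 = 3 / 10 := by
      have h1 := famf_Q1 a b 0 0 hun (τ := 0) x.2.2
      rw [← hedef, hmu0, famf_p_zero, hsq] at h1
      have h2 : QQ 1 0 x = R ^ 3 * (a + 0 * 0) := h1
      rw [h2, hRsq] at hg
      linarith
    have hder : ∀ v w : ℝ, HasDerivAt (fun τ : ℝ => FF 1 (t, (famf_mu a b v w u e τ).1,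
        (famf_mu a b v w u e τ).2, x.2.2 + τ * ((0 : ℝ) : ℂ)))
        (-((1 - t) * (3 * R ^ 2 * ((-(2 * a * v) - 2 * b * w) / (2 * R)) * a + R ^ 3 * v) +
          t * (-(2 * a * v) - 2 * b * w))) 0 := by
      intro v w
      have h3 : HasDerivAt (fun τ : ℝ => a + τ * v) v 0 := by
        simpa using ((hasDerivAt_id (0 : ℝ)).mul_const v).const_add a
      have h5 := (famf_dsqrt v w hp).fun_pow 3
      have h4 := (((h5.fun_mul h3).const_mul (1 - t)).fun_add
        ((famf_dp a b v w).const_mul t)).const_sub (3 / 10)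
      rw [famf_p_zero, zero_mul, add_zero, hsq] at h4
      refine (h4.congr_of_eventuallyEq ?_).congr_deriv ?_
      · filter_upwards [famf_p_pos v w hp] with τ hτ
        rw [famf_FF, hedef, famf_Q1 a b v w hun, ← hedef,
          (famf_mu_normSq a b v w hun he hτ).1, hxi]
        ring
      · norm_num
    by_contra hcon
    apply famf_key1 ht.1 ht.2 hRpos hp2.symm hG
    · by_contra hne
      apply hcon
      refine regM_of_data hx hF (famf_mu a b 1 0 u e) (famf_mu_diff 1 0 u _ hp) (hmu0 1 0)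
        (famf_mu_sphere a b 1 0 hun he hp) 0 ?_ (hder 1 0)
      intro h0
      apply hne
      have h6 : 3 * R ^ 2 * ((-(2 * a * 1) - 2 * b * 0) / (2 * R)) = -(3 * R * a) := by
        field_simp
        ring
      rw [h6] at h0
      linarith
    · by_contra hne
      apply hcon
      refine regM_of_data hx hF (famf_mu a b 0 1 u e) (famf_mu_diff 0 1 u _ hp) (hmu0 0 1)
        (famf_mu_sphere a b 0 1 hun he hp) 0 ?_ (hder 0 1)
      intro h0
      apply hne
      have h6 : 3 * R ^ 2 * ((-(2 * a * 0) - 2 * b * 1) / (2 * R)) = -(3 * R * b) := by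
        field_simp
        ring
      rw [h6] at h0
      linarith
  rcases hj with h3 | h3
  · exact main0 h3
  · exact main1 h3

theorem reg_FF (j : Fin 3) (t : ℝ) (ht : t ∈ Icc (0 : ℝ) 1) (x : C3)
    (hx : PhiM x = 0) (h : FF j (t, x) = 0) : RegAt PhiM (fun y => FF j (t, y)) x := by
  by_cases hj : j = 0 ∨ j = 1
  · exact famf_reg j hj t ht x hx h
  · have h3 : j = 2 := by
      clear * - hj
      revert j
      decide
    subst h3
    rw [famf_two] at h ⊢
    exact famf_reg 1 (Or.inr rfl) t ht x hx h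

theorem famf_bound (j : Fin 3) (x : C3)
    (hx : Complex.normSq x.1 + Complex.normSq x.2.1 ≤ 2) : -QQ j 0 x ≤ 2 := by
  rw [Complex.normSq_eq_norm_sq, Complex.normSq_eq_norm_sq] at hx
  have n1 := norm_nonneg x.1
  have n2 := norm_nonneg x.2.1
  have q1 : ‖x.1‖ ^ 2 ≤ 2 := by nlinarith [sq_nonneg ‖x.2.1‖]
  have q3 : ‖x.1‖ * ‖x.2.1‖ ≤ 1 := by nlinarith [sq_nonneg (‖x.1‖ - ‖x.2.1‖)]
  unfold QQ
  split_ifs with hj
  · rw [zero_mul, Real.exp_zero, mul_one]
    have e2 : |(x.1 ^ 2 * (starRingEnd ℂ) x.2.1).re| ≤ 4 / 2 := by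
      refine (Complex.abs_re_le_norm _).trans ?_
      rw [norm_mul, norm_pow, Complex.norm_conj]
      have q5 : ‖x.1‖ ≤ 3 / 2 := by nlinarith
      nlinarith
    have e4 := abs_le.1 e2
    linarith
  · rw [mul_zero, zero_mul, Real.exp_zero, mul_one]
    have e2 : |(x.1 ^ 3 * x.2.1).re| ≤ 2 := by
      refine (Complex.abs_re_le_norm _).trans ?_
      rw [norm_mul, norm_pow]
      calc ‖x.1‖ ^ 3 * ‖x.2.1‖ = ‖x.1‖ ^ 2 * (‖x.1‖ * ‖x.2.1‖) := by ring
        _ ≤ 2 * 1 := mul_le_mul q1 q3 (by positivity) (by norm_num)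
        _ = 2 := by norm_num
    have e4 := abs_le.1 e2
    linarith

/-- Straightening of the core. -/
theorem eqDiffeo_F (j : Fin 3) :
    EqDiffeo 1 {x | PhiM x = 0 ∧ 0 ≤ FF j (0, x)} {x | PhiM x = 0 ∧ 0 ≤ FF j (1, x)} := by
  refine eqDiffeo_family_M (FF j) (contDiff_FF j) (FF_act j) 300 ?_ ?_
  · intro t ht x hx
    have h1 := famf_bound j x hx
    have h2 : (1 - t) * (-QQ j 0 x) ≤ (1 - t) * 2 :=
      mul_le_mul_of_nonneg_left h1 (by linarith [ht.2])
    have h3 : 0 ≤ t * Complex.normSq x.1 := mul_nonneg ht.1 (Complex.normSq_nonneg _)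
    show 3 / 10 - ((1 - t) * QQ j 0 x + t * Complex.normSq x.1) - x.2.2.re ^ 2 ≤
      300 - x.2.2.re ^ 2
    nlinarith [ht.1, ht.2]
  · intro t ht x hx h
    exact reg_FF j t ht x hx h

end Pool.Agent.Tri
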