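import Mathlib
import Pool.Agent.H.MP_5efd29_gt.FamO
import Pool.Agent.H.MP_5efd29_gt.FamA1

open scoped ContDiff Topology
open Set

noncomputable section

namespace Pool.Agent.Tri

private theorem famg_normSq_dir (i : Fin 3) : Complex.normSq (dir i) = 1 := by
  unfold dir
  have h : (2 * Real.pi * Complex.I * ((i : ℕ) : ℂ) / 3 : ℂ)
      = ((2 * Real.pi * ((i : ℕ) : ℝ) / 3 : ℝ) : ℂ) * Complex.I := by
    push_cast
    ring
  rw [h, Complex.normSq_eq_norm_sq, Complex.norm_exp_ofReal_mul_I, one_pow]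

private theorem famg_dir_conj (i : Fin 3) (z : ℂ) : dir i * ((starRingEnd ℂ) (dir i) * z) = z := by
  rw [← mul_assoc, Complex.mul_conj, famg_normSq_dir, Complex.ofReal_one, one_mul]

private theorem famg_conj_dir (i : Fin 3) (z : ℂ) : (starRingEnd ℂ) (dir i) * (dir i * z) = z := by
  rw [← mul_assoc, mul_comm ((starRingEnd ℂ) (dir i)), Complex.mul_conj, famg_normSq_dir,
    Complex.ofReal_one, one_mul]

private theorem famg_normSq_conj_dir (i : Fin 3) (z : ℂ) :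
    Complex.normSq ((starRingEnd ℂ) (dir i) * z) = Complex.normSq z := by
  rw [map_mul, Complex.normSq_conj, famg_normSq_dir, one_mul]

private theorem famg_PhiX_iff (x : C3) : PhiX x = 0 ↔
    Complex.normSq x.1 + Complex.normSq x.2.1 = 1 ∧ Complex.normSq x.2.2 = rho (pr x) := by
  rw [Complex.ext_iff]
  show (Complex.normSq x.1 + Complex.normSq x.2.1 - 1 = 0 ∧
    Complex.normSq x.2.2 - rho (pr x) = 0) ↔ _
  rw [sub_eq_zero, sub_eq_zero]

private theorem famg_PhiM_iff (x : C3) : PhiM x = 0 ↔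
    Complex.normSq x.1 + Complex.normSq x.2.1 = 1 ∧ x.2.2.im = 0 := by
  rw [Complex.ext_iff]
  show (Complex.normSq x.1 + Complex.normSq x.2.1 - 1 = 0 ∧ x.2.2.im = 0) ↔ _
  rw [sub_eq_zero]

private theorem famg_FB (j : Fin 3) (e : ℝ) (x : C3) :
    FB j e (0, x) = rho (pr x) - x.2.2.re ^ 2 -
      (lam j (pr x) + Real.sqrt (x.2.2.re ^ 2 / 3 + e)) ^ 2 := by
  unfold FB rho
  simp only [add_zero]

private def gf (i : Fin 3) (x : C3) : C3 :=
  (x.1, x.2.1, ((((starRingEnd ℂ) (dir i) * x.2.2).im : ℝ) : ℂ))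

private def gg (i : Fin 3) (x : C3) : C3 :=
  (x.1, x.2.1, dir i *
    (((Real.sqrt (rho (pr x) - x.2.2.re ^ 2) : ℝ) : ℂ) + ((x.2.2.re : ℝ) : ℂ) * Complex.I))

private theorem famg_lam_nonneg (i : Fin 3) (m : ℂ × ℂ) : 0 ≤ lam i m :=
  mul_nonneg (eta_nonneg _) (Lam_nonneg _)

private theorem famg_re (a b : ℝ) : ((a : ℂ) + (b : ℂ) * Complex.I).re = a := by simp

private theorem famg_im (a b : ℝ) : ((a : ℂ) + (b : ℂ) * Complex.I).im = b := by simp

private theorem famg_contDiff_f (i : Fin 3) : ContDiff ℝ ∞ (gf i) := by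
  unfold gf
  refine contDiff_fst.prodMk ((contDiff_fst.comp contDiff_snd).prodMk ?_)
  exact funb1_contDiff_ofReal.comp (funb1_contDiff_im.comp
    (contDiff_const.mul (contDiff_snd.comp contDiff_snd)))

private theorem famg_contDiff_s : ContDiff ℝ ∞ (fun x : C3 => rho (pr x) - x.2.2.re ^ 2) :=
  (contDiff_rho.comp contDiff_pr).sub
    ((funb1_contDiff_re.comp (contDiff_snd.comp contDiff_snd)).pow 2)

private theorem famg_contDiff_g (i : Fin 3) :
    ContDiffOn ℝ ∞ (gg i) {x | 0 < rho (pr x) - x.2.2.re ^ 2} := by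
  unfold gg
  refine contDiff_fst.contDiffOn.prodMk
    ((contDiff_fst.comp contDiff_snd).contDiffOn.prodMk ?_)
  refine contDiffOn_const.mul (ContDiffOn.add ?_ ?_)
  · exact funb1_contDiff_ofReal.comp_contDiffOn
      (famg_contDiff_s.contDiffOn.sqrt (fun x hx => (ne_of_gt hx)))
  · exact ((funb1_contDiff_ofReal.comp
      (funb1_contDiff_re.comp (contDiff_snd.comp contDiff_snd))).mul contDiff_const).contDiffOn

/-- From `X` to `S³ × ℝ`. -/
theorem eqDiffeo_graph (i : Fin 3) {e : ℝ} (he : 0 < e) :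
    EqDiffeo 1 {x | PhiX x = 0 ∧ 0 ≤ FA i e (1, x)} {x | PhiM x = 0 ∧ 0 ≤ FB i e (0, x)} := by
  have hpos : ∀ s : ℝ, 0 < s ^ 2 / 3 + e := fun s => by positivity
  have hB : ∀ x ∈ {x : C3 | PhiM x = 0 ∧ 0 ≤ FB i e (0, x)},
      0 < rho (pr x) - x.2.2.re ^ 2 := by
    rintro x ⟨-, hx⟩
    rw [famg_FB] at hx
    have h1 : Real.sqrt (x.2.2.re ^ 2 / 3 + e) ≤
        lam i (pr x) + Real.sqrt (x.2.2.re ^ 2 / 3 + e) := by
      linarith [famg_lam_nonneg i (pr x)]
    have h2 : 0 < Real.sqrt (x.2.2.re ^ 2 / 3 + e) := Real.sqrt_pos.2 (hpos _)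
    nlinarith
  -- facts on A
  have hA : ∀ x : C3, PhiX x = 0 → 0 ≤ FA i e (1, x) →
      lam i (pr x) + Real.sqrt (((starRingEnd ℂ) (dir i) * x.2.2).im ^ 2 / 3 + e) ≤
        ((starRingEnd ℂ) (dir i) * x.2.2).re ∧
      rho (pr x) - ((starRingEnd ℂ) (dir i) * x.2.2).im ^ 2 =
        ((starRingEnd ℂ) (dir i) * x.2.2).re ^ 2 := by
    intro x hx h
    constructor
    · unfold FA at h
      rw [uA_one, Complex.sub_re, Complex.sub_im, Complex.ofReal_re, Complex.ofReal_im,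
        sub_zero] at h
      linarith
    · rw [← ((famg_PhiX_iff x).1 hx).2, ← famg_normSq_conj_dir i x.2.2, Complex.normSq_apply]
      ring
  refine ⟨gf i, gg i, ⟨smoothOnSet_of_contDiff (famg_contDiff_f i) _,
    smoothOnSet_of_contDiffOn ?_ (famg_contDiff_g i) hB, ?_, ?_, ?_, ?_⟩, ?_⟩
  · exact isOpen_lt continuous_const famg_contDiff_s.continuous
  · rintro x ⟨hx, h⟩
    obtain ⟨h1, h2⟩ := hA x hx h
    refine ⟨?_, ?_⟩
    · rw [famg_PhiM_iff]
      exact ⟨((famg_PhiX_iff x).1 hx).1, Complex.ofReal_im _⟩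
    · rw [famg_FB]
      show 0 ≤ rho (pr x) - ((starRingEnd ℂ) (dir i) * x.2.2).im ^ 2 -
        (lam i (pr x) + Real.sqrt (((starRingEnd ℂ) (dir i) * x.2.2).im ^ 2 / 3 + e)) ^ 2
      rw [h2]
      have h3 := famg_lam_nonneg i (pr x)
      have h4 := Real.sqrt_nonneg (((starRingEnd ℂ) (dir i) * x.2.2).im ^ 2 / 3 + e)
      have h5 := pow_le_pow_left₀ (add_nonneg h3 h4) h1 2
      linarith
  · intro x hx
    have hx0 := hB x hx
    obtain ⟨hx1, hx2⟩ := hx
    obtain ⟨k1, k2⟩ := (famg_PhiM_iff x).1 hx1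
    rw [famg_FB] at hx2
    have hsq := Real.sq_sqrt hx0.le
    refine ⟨?_, ?_⟩
    · rw [famg_PhiX_iff]
      refine ⟨k1, ?_⟩
      show Complex.normSq (dir i * _) = rho (pr x)
      rw [map_mul, famg_normSq_dir, one_mul, Complex.normSq_apply, famg_re, famg_im]
      linarith
    · unfold FA
      rw [uA_one]
      show 0 ≤ ((starRingEnd ℂ) (dir i) * (dir i * _) - (lam i (pr x) : ℂ)).re -
        Real.sqrt (((starRingEnd ℂ) (dir i) * (dir i * _) - (lam i (pr x) : ℂ)).im ^ 2 / 3 + e)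
      rw [famg_conj_dir, Complex.sub_re, Complex.sub_im, Complex.ofReal_re, Complex.ofReal_im,
        sub_zero, famg_re, famg_im]
      have h6 : lam i (pr x) + Real.sqrt (x.2.2.re ^ 2 / 3 + e) ≤
          Real.sqrt (rho (pr x) - x.2.2.re ^ 2) := Real.le_sqrt_of_sq_le (by linarith)
      linarith
  · rintro x ⟨hx, h⟩
    obtain ⟨h1, h2⟩ := hA x hx h
    show (x.1, x.2.1, dir i * (((Real.sqrt (rho (pr x) -
      ((starRingEnd ℂ) (dir i) * x.2.2).im ^ 2) : ℝ) : ℂ) +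
        ((((starRingEnd ℂ) (dir i) * x.2.2).im : ℝ) : ℂ) * Complex.I)) = x
    have h3 := famg_lam_nonneg i (pr x)
    have h4 := Real.sqrt_nonneg (((starRingEnd ℂ) (dir i) * x.2.2).im ^ 2 / 3 + e)
    rw [h2, Real.sqrt_sq (by linarith), Complex.re_add_im, famg_dir_conj]
  · rintro x ⟨hx1, -⟩
    obtain ⟨k1, k2⟩ := (famg_PhiM_iff x).1 hx1
    show (x.1, x.2.1, ((((starRingEnd ℂ) (dir i) * (dir i *
      (((Real.sqrt (rho (pr x) - x.2.2.re ^ 2) : ℝ) : ℂ) +
        ((x.2.2.re : ℝ) : ℂ) * Complex.I))).im : ℝ) : ℂ)) = x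
    rw [famg_conj_dir, famg_im]
    have : ((x.2.2.re : ℝ) : ℂ) = x.2.2 := Complex.ext (by simp) (by simp [k2])
    rw [this]
  · intro x _
    rfl

private def kf (x : C3) : C3 := (x.2.1, (starRingEnd ℂ) x.1, x.2.2)

private def kg (x : C3) : C3 := ((starRingEnd ℂ) x.2.1, x.1, x.2.2)

private theorem famg_kf_kg (x : C3) : kf (kg x) = x := by
  show (x.1, (starRingEnd ℂ) ((starRingEnd ℂ) x.2.1), x.2.2) = x
  rw [Complex.conj_conj]

private theorem famg_kg_kf (x : C3) : kg (kf x) = x := by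
  show ((starRingEnd ℂ) ((starRingEnd ℂ) x.1), x.2.1, x.2.2) = x
  rw [Complex.conj_conj]

private theorem famg_PhiM_kf (x : C3) : PhiM (kf x) = PhiM x := by
  apply Complex.ext
  · show Complex.normSq x.2.1 + Complex.normSq ((starRingEnd ℂ) x.1) - 1 =
      Complex.normSq x.1 + Complex.normSq x.2.1 - 1
    rw [Complex.normSq_conj]
    ring
  · rfl

private theorem famg_FB_kf (e : ℝ) (x : C3) : FB 0 e (0, kf x) = FB 2 e (0, x) := by
  rw [famg_FB, famg_FB]
  have h : pr (kf x) = kap (pr x) := rfl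
  have h2 : (kf x).2.2 = x.2.2 := rfl
  rw [h, h2, rho_kap, (lam_kap (pr x)).1]

private theorem famg_conj_zeta : (starRingEnd ℂ) zeta = zeta ^ 4 := by
  have h : zeta * (starRingEnd ℂ) zeta = 1 := by
    rw [Complex.mul_conj, funb2_normSq_zeta, Complex.ofReal_one]
  have h5 := zeta_pow_five
  linear_combination (-((starRingEnd ℂ) zeta)) * h5 + zeta ^ 4 * h

/-- The symmetry exchanging the third and the first piece. -/
theorem eqDiffeo_kap (e : ℝ) :
    EqDiffeo 2 {x | PhiM x = 0 ∧ 0 ≤ FB 2 e (0, x)} {x | PhiM x = 0 ∧ 0 ≤ FB 0 e (0, x)} := by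
  have c1 : ContDiff ℝ ∞ kf :=
    (contDiff_fst.comp contDiff_snd).prodMk
      ((funb1_contDiff_conj.comp contDiff_fst).prodMk (contDiff_snd.comp contDiff_snd))
  have c2 : ContDiff ℝ ∞ kg :=
    (funb1_contDiff_conj.comp (contDiff_fst.comp contDiff_snd)).prodMk
      (contDiff_fst.prodMk (contDiff_snd.comp contDiff_snd))
  refine ⟨kf, kg, ⟨smoothOnSet_of_contDiff c1 _, smoothOnSet_of_contDiff c2 _, ?_, ?_,
    fun x _ => famg_kg_kf x, fun x _ => famg_kf_kg x⟩, ?_⟩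
  · rintro x ⟨h1, h2⟩
    exact ⟨by rw [famg_PhiM_kf]; exact h1, by rw [famg_FB_kf]; exact h2⟩
  · rintro x ⟨h1, h2⟩
    refine ⟨?_, ?_⟩
    · rw [← famg_PhiM_kf, famg_kf_kg]
      exact h1
    · rw [← famg_FB_kf, famg_kf_kg]
      exact h2
  · intro x _
    show (zeta ^ 2 * x.2.1, (starRingEnd ℂ) (zeta * x.1), x.2.2) =
      (zeta * (zeta * x.2.1), zeta ^ 2 * (zeta ^ 2 * (starRingEnd ℂ) x.1), x.2.2)
    rw [map_mul, famg_conj_zeta]
    refine Prod.ext ?_ (Prod.ext ?_ rfl)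
    · show zeta ^ 2 * x.2.1 = zeta * (zeta * x.2.1)
      ring
    · show zeta ^ 4 * (starRingEnd ℂ) x.1 = zeta ^ 2 * (zeta ^ 2 * (starRingEnd ℂ) x.1)
      ring

end Pool.Agent.Tri
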