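import Mathlib
import Pool.Agent.H.MP_5efd29_gt.LensB
import Pool.Agent.H.MP_5efd29_gt.DegA

open scoped ContDiff Topology
open Set

noncomputable section

namespace Pool.Agent.Tri

/-- The model domain upstairs: a neighbourhood of the circle `z = 0`, thickened. -/
def Dfin : Set C3 := {x | x ∈ sph ∧ x.2.2.im = 0 ∧ ‖x.1‖ ^ 2 + x.2.2.re ^ 2 ≤ 3 / 10}

theorem inv_Dfin : Inv Dfin := by
  refine ⟨fun x hx => hx.1, fun x hx => ⟨act_mem_sph.2 hx.1, hx.2.1, ?_⟩⟩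
  have h := hx.2.2
  show ‖zeta * x.1‖ ^ 2 + x.2.2.re ^ 2 ≤ 3 / 10
  rw [norm_mul, norm_zeta, one_mul]
  exact h

private def kap : ℝ := √(15 / 32)

private theorem kap_pos : 0 < kap := Real.sqrt_pos.2 (by norm_num)

private theorem kap_sq : kap ^ 2 = 15 / 32 := Real.sq_sqrt (by norm_num)

/-- parametrisation upstairs -/
private def pm (q : ℂ) (s : ℝ) (v : ℂ) : C3 :=
  (q * (starRingEnd ℂ) v ^ 2, (√(1 - ‖q‖ ^ 2) : ℝ) * v, (s : ℂ))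

/-- parametrisation of the quotient -/
private def gg (q : ℂ) (s : ℝ) (u : ℂ) : C5 :=
  (q ^ 5 * (starRingEnd ℂ) u ^ 2, ((√(1 - ‖q‖ ^ 2) ^ 5 : ℝ) : ℂ) * u,
    q * ((√(1 - ‖q‖ ^ 2) ^ 2 : ℝ) : ℂ),
    q ^ 2 * ((√(1 - ‖q‖ ^ 2) : ℝ) : ℂ) * (starRingEnd ℂ) u, (s : ℂ))

/-- parametrisation of the model -/
private def hh (q : ℂ) (s : ℝ) (u : ℂ) : ℂ × ℂ :=
  (((√(5 / 8 + kap * q.re) : ℝ) : ℂ) * u, ((kap * q.im : ℝ) : ℂ) + ((kap * s : ℝ) : ℂ) * Complex.I)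

private theorem conj_mul_self' {v : ℂ} (hv : ‖v‖ = 1) : v * (starRingEnd ℂ) v = 1 := by
  rw [Complex.mul_conj, Complex.normSq_eq_norm_sq, hv]
  norm_num

private theorem pm_of_mem {x : C3} (hx : x ∈ Dfin) :
    ∃ (q : ℂ) (s : ℝ) (v : ℂ), ‖v‖ = 1 ∧ ‖q‖ ^ 2 + s ^ 2 ≤ 3 / 10 ∧ x = pm q s v := by
  obtain ⟨hs, him, hle⟩ := hx
  have hs' : ‖x.1‖ ^ 2 + ‖x.2.1‖ ^ 2 = 1 := hs
  have hr : 0 < ‖x.2.1‖ := by
    by_contra hcon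
    have h0 : ‖x.2.1‖ = 0 := le_antisymm (not_lt.1 hcon) (norm_nonneg _)
    rw [h0] at hs'
    nlinarith [sq_nonneg x.2.2.re]
  set r := ‖x.2.1‖ with hrdef
  have hrne : (r : ℂ) ≠ 0 := by exact_mod_cast hr.ne'
  have hv : ‖(x.2.1 / (r : ℂ))‖ = 1 := by
    rw [norm_div, Complex.norm_real, Real.norm_eq_abs, abs_of_pos hr, ← hrdef, div_self hr.ne']
  have hc := conj_mul_self' hv
  have hq : ‖x.1 * (x.2.1 / (r : ℂ)) ^ 2‖ = ‖x.1‖ := by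
    rw [norm_mul, norm_pow, hv, one_pow, mul_one]
  refine ⟨x.1 * (x.2.1 / (r : ℂ)) ^ 2, x.2.2.re, x.2.1 / (r : ℂ), hv, ?_, ?_⟩
  · rw [hq]; exact hle
  · have ht : √(1 - ‖x.1 * (x.2.1 / (r : ℂ)) ^ 2‖ ^ 2) = r := by
      rw [hq]
      have : 1 - ‖x.1‖ ^ 2 = r ^ 2 := by linarith
      rw [this, Real.sqrt_sq hr.le]
    unfold pm
    rw [ht]
    refine Prod.ext ?_ (Prod.ext ?_ ?_)
    · show x.1 = x.1 * (x.2.1 / (r : ℂ)) ^ 2 * (starRingEnd ℂ) (x.2.1 / (r : ℂ)) ^ 2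
      rw [mul_assoc, ← mul_pow, hc, one_pow, mul_one]
    · show x.2.1 = (r : ℂ) * (x.2.1 / (r : ℂ))
      rw [mul_div_cancel₀ _ hrne]
    · show x.2.2 = (x.2.2.re : ℂ)
      apply Complex.ext
      · simp
      · simp [him]

private theorem norm_lt_of {q : ℂ} {s : ℝ} (h : ‖q‖ ^ 2 + s ^ 2 ≤ 3 / 10) :
    0 < 1 - ‖q‖ ^ 2 := by nlinarith [sq_nonneg s]

private theorem pm_mem {q : ℂ} {s : ℝ} {v : ℂ} (hv : ‖v‖ = 1) (h : ‖q‖ ^ 2 + s ^ 2 ≤ 3 / 10) :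
    pm q s v ∈ Dfin := by
  have h1 := norm_lt_of h
  have hn : ‖q * (starRingEnd ℂ) v ^ 2‖ = ‖q‖ := by
    rw [norm_mul, norm_pow, Complex.norm_conj, hv, one_pow, mul_one]
  refine ⟨?_, ?_, ?_⟩
  · show ‖q * (starRingEnd ℂ) v ^ 2‖ ^ 2 + ‖((√(1 - ‖q‖ ^ 2) : ℝ) : ℂ) * v‖ ^ 2 = 1
    rw [hn, norm_mul, hv, mul_one, Complex.norm_real, Real.norm_eq_abs, sq_abs,
      Real.sq_sqrt h1.le]
    ring
  · show ((s : ℂ)).im = 0
    exact Complex.ofReal_im s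
  · show ‖q * (starRingEnd ℂ) v ^ 2‖ ^ 2 + ((s : ℂ)).re ^ 2 ≤ 3 / 10
    rw [hn, Complex.ofReal_re]
    exact h

private theorem JJ_pm {q : ℂ} {s : ℝ} {v : ℂ} (hv : ‖v‖ = 1) :
    JJ (pm q s v) = gg q s (v ^ 5) := by
  have hc := conj_mul_self' hv
  unfold JJ pm gg
  refine Prod.ext ?_ (Prod.ext ?_ (Prod.ext ?_ (Prod.ext ?_ rfl)))
  · show (q * (starRingEnd ℂ) v ^ 2) ^ 5 = q ^ 5 * (starRingEnd ℂ) (v ^ 5) ^ 2
    rw [map_pow]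
    ring
  · show (((√(1 - ‖q‖ ^ 2) : ℝ) : ℂ) * v) ^ 5 = ((√(1 - ‖q‖ ^ 2) ^ 5 : ℝ) : ℂ) * v ^ 5
    push_cast
    ring
  · show q * (starRingEnd ℂ) v ^ 2 * (((√(1 - ‖q‖ ^ 2) : ℝ) : ℂ) * v) ^ 2 =
      q * ((√(1 - ‖q‖ ^ 2) ^ 2 : ℝ) : ℂ)
    push_cast
    calc q * (starRingEnd ℂ) v ^ 2 * (((√(1 - ‖q‖ ^ 2) : ℝ) : ℂ) * v) ^ 2
        = q * ((√(1 - ‖q‖ ^ 2) : ℝ) : ℂ) ^ 2 * (v * (starRingEnd ℂ) v) ^ 2 := by ring
      _ = _ := by rw [hc]; ring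
  · show (q * (starRingEnd ℂ) v ^ 2) ^ 2 * (starRingEnd ℂ) (((√(1 - ‖q‖ ^ 2) : ℝ) : ℂ) * v) =
      q ^ 2 * ((√(1 - ‖q‖ ^ 2) : ℝ) : ℂ) * (starRingEnd ℂ) (v ^ 5)
    rw [map_mul, map_pow, Complex.conj_ofReal]
    ring

/-- the quotient map in coordinates -/
private def ff (a : C5) : ℂ × ℂ :=
  (((‖a.2.1‖⁻¹ * √(5 / 8 + kap * (a.2.2.1.re * ‖a.2.1‖ ^ (-2 / 5 : ℝ))) : ℝ) : ℂ) * a.2.1,
    ((kap * (a.2.2.1.im * ‖a.2.1‖ ^ (-2 / 5 : ℝ)) : ℝ) : ℂ) +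
      ((kap * a.2.2.2.2.re : ℝ) : ℂ) * Complex.I)

/-- the inverse map -/
private def gi (b : ℂ × ℂ) : C5 :=
  gg ((((‖b.1‖ ^ 2 - 5 / 8) * kap⁻¹ : ℝ) : ℂ) + ((b.2.re * kap⁻¹ : ℝ) : ℂ) * Complex.I)
    (b.2.im * kap⁻¹) (((‖b.1‖⁻¹ : ℝ) : ℂ) * b.1)

private theorem kap_bound {q : ℂ} {s : ℝ} (h : ‖q‖ ^ 2 + s ^ 2 ≤ 3 / 10) :
    (kap * q.re) ^ 2 + (kap * q.im) ^ 2 + (kap * s) ^ 2 ≤ 9 / 64 := by
  have h1 : ‖q‖ ^ 2 = q.re ^ 2 + q.im ^ 2 := by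
    rw [Complex.sq_norm, Complex.normSq_apply]; ring
  rw [h1] at h
  have h2 := kap_sq
  nlinarith [h2, h]

private theorem rad_pos {q : ℂ} {s : ℝ} (h : ‖q‖ ^ 2 + s ^ 2 ≤ 3 / 10) :
    1 / 4 ≤ 5 / 8 + kap * q.re ∧ 5 / 8 + kap * q.re ≤ 1 := by
  have h1 := kap_bound h
  have h2 : (kap * q.re) ^ 2 ≤ (3 / 8) ^ 2 := by
    nlinarith [sq_nonneg (kap * q.im), sq_nonneg (kap * s)]
  have h3 := abs_le_of_sq_le_sq' h2 (by norm_num)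
  constructor <;> linarith [h3.1, h3.2]

private theorem ff_gg {q : ℂ} {s : ℝ} {u : ℂ} (hu : ‖u‖ = 1) (h : ‖q‖ ^ 2 + s ^ 2 ≤ 3 / 10) :
    ff (gg q s u) = hh q s u := by
  have h1 := norm_lt_of h
  set t := √(1 - ‖q‖ ^ 2) with ht
  have htpos : 0 < t := Real.sqrt_pos.2 h1
  have hn : ‖((t ^ 5 : ℝ) : ℂ) * u‖ = t ^ 5 := by
    rw [norm_mul, hu, mul_one, Complex.norm_real, Real.norm_eq_abs, abs_of_pos (by positivity)]
  have hpow : (t ^ 5) ^ (-2 / 5 : ℝ) = (t ^ 2)⁻¹ := by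
    rw [← Real.rpow_natCast t 5, ← Real.rpow_mul htpos.le]
    norm_num
  have hre : (q * ((t ^ 2 : ℝ) : ℂ)).re * (t ^ 2)⁻¹ = q.re := by
    rw [Complex.re_mul_ofReal]
    field_simp
  have him : (q * ((t ^ 2 : ℝ) : ℂ)).im * (t ^ 2)⁻¹ = q.im := by
    rw [Complex.im_mul_ofReal]
    field_simp
  unfold ff gg hh
  simp only
  rw [← ht, hn, hpow, hre, him]
  refine Prod.ext ?_ ?_
  · show (((t ^ 5)⁻¹ * √(5 / 8 + kap * q.re) : ℝ) : ℂ) * (((t ^ 5 : ℝ) : ℂ) * u) =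
      ((√(5 / 8 + kap * q.re) : ℝ) : ℂ) * u
    have htne : ((t : ℝ) : ℂ) ≠ 0 := by exact_mod_cast htpos.ne'
    push_cast
    field_simp
  · show ((kap * q.im : ℝ) : ℂ) + ((kap * ((s : ℂ)).re : ℝ) : ℂ) * Complex.I = _
    rw [Complex.ofReal_re]

private theorem gi_hh {q : ℂ} {s : ℝ} {u : ℂ} (hu : ‖u‖ = 1) (h : ‖q‖ ^ 2 + s ^ 2 ≤ 3 / 10) :
    gi (hh q s u) = gg q s u := by
  have hr := rad_pos h
  have hk := kap_pos
  set ρ := √(5 / 8 + kap * q.re) with hρ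
  have hρpos : 0 < ρ := Real.sqrt_pos.2 (by linarith [hr.1])
  have hρsq : ρ ^ 2 = 5 / 8 + kap * q.re := Real.sq_sqrt (by linarith [hr.1])
  have hn : ‖((ρ : ℝ) : ℂ) * u‖ = ρ := by
    rw [norm_mul, hu, mul_one, Complex.norm_real, Real.norm_eq_abs, abs_of_pos hρpos]
  have hre : (((kap * q.im : ℝ) : ℂ) + ((kap * s : ℝ) : ℂ) * Complex.I).re = kap * q.im := by
    simp
  have him : (((kap * q.im : ℝ) : ℂ) + ((kap * s : ℝ) : ℂ) * Complex.I).im = kap * s := by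
    simp
  unfold gi hh
  simp only
  rw [← hρ, hn, hre, him, hρsq]
  have e1 : ((((5 / 8 + kap * q.re - 5 / 8) * kap⁻¹ : ℝ) : ℂ) +
      ((kap * q.im * kap⁻¹ : ℝ) : ℂ) * Complex.I) = q := by
    have a1 : (5 / 8 + kap * q.re - 5 / 8) * kap⁻¹ = q.re := by field_simp; ring
    have a2 : kap * q.im * kap⁻¹ = q.im := by field_simp
    rw [a1, a2]
    exact Complex.re_add_im q
  have e2 : kap * s * kap⁻¹ = s := by field_simp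
  have e3 : ((ρ⁻¹ : ℝ) : ℂ) * (((ρ : ℝ) : ℂ) * u) = u := by
    have hne : ((ρ : ℝ) : ℂ) ≠ 0 := by exact_mod_cast hρpos.ne'
    rw [Complex.ofReal_inv, inv_mul_cancel_left₀ hne]
  rw [e1, e2, e3]

private theorem mem_hb {b : ℂ × ℂ} : b ∈ handlebody4 1 ↔
    ‖b.1‖ ≤ 1 ∧ 1 / 2 ≤ ‖b.1‖ ∧ ‖b.2‖ ^ 2 ≤ (1 - ‖b.1‖ ^ 2) * (‖b.1‖ ^ 2 - 1 / 4) := by
  have h0 : holeCentre 1 0 = 0 := by
    unfold holeCentre
    norm_num
  have h1 : holeRadius 1 = 1 / 2 := by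
    unfold holeRadius
    norm_num
  unfold handlebody4
  rw [mem_setOf_eq, Finset.prod_range_one, h0, h1, sub_zero]
  constructor
  · rintro ⟨a1, a2, a3⟩
    refine ⟨a1, ?_, ?_⟩
    · have := a2 0 one_pos
      rwa [h0, sub_zero] at this
    · have e : (1 / 2 : ℝ) ^ 2 = 1 / 4 := by norm_num
      rwa [e] at a3
  · rintro ⟨a1, a2, a3⟩
    refine ⟨a1, ?_, ?_⟩
    · intro j hj
      have : j = 0 := by omega
      subst this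
      rwa [h0, sub_zero]
    · have e : (1 / 2 : ℝ) ^ 2 = 1 / 4 := by norm_num
      rwa [e]

private theorem hh_mem {q : ℂ} {s : ℝ} {u : ℂ} (hu : ‖u‖ = 1) (h : ‖q‖ ^ 2 + s ^ 2 ≤ 3 / 10) :
    hh q s u ∈ handlebody4 1 := by
  have hr := rad_pos h
  have hb := kap_bound h
  have hn : ‖((√(5 / 8 + kap * q.re) : ℝ) : ℂ) * u‖ = √(5 / 8 + kap * q.re) := by
    rw [norm_mul, hu, mul_one, Complex.norm_real, Real.norm_eq_abs,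
      abs_of_nonneg (Real.sqrt_nonneg _)]
  have hsq : √(5 / 8 + kap * q.re) ^ 2 = 5 / 8 + kap * q.re := Real.sq_sqrt (by linarith [hr.1])
  rw [mem_hb]
  show ‖((√(5 / 8 + kap * q.re) : ℝ) : ℂ) * u‖ ≤ 1 ∧
    1 / 2 ≤ ‖((√(5 / 8 + kap * q.re) : ℝ) : ℂ) * u‖ ∧
    ‖((kap * q.im : ℝ) : ℂ) + ((kap * s : ℝ) : ℂ) * Complex.I‖ ^ 2 ≤
      (1 - ‖((√(5 / 8 + kap * q.re) : ℝ) : ℂ) * u‖ ^ 2) *
      (‖((√(5 / 8 + kap * q.re) : ℝ) : ℂ) * u‖ ^ 2 - 1 / 4)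
  rw [hn, hsq]
  refine ⟨?_, ?_, ?_⟩
  · rw [Real.sqrt_le_iff]
    exact ⟨by norm_num, by rw [one_pow]; exact hr.2⟩
  · apply Real.le_sqrt_of_sq_le
    norm_num
    linarith [hr.1]
  · rw [Complex.sq_norm, Complex.normSq_add_mul_I]
    nlinarith [hb]

private theorem hh_surj {b : ℂ × ℂ} (hb : b ∈ handlebody4 1) :
    ∃ (q : ℂ) (s : ℝ) (u : ℂ), ‖u‖ = 1 ∧ ‖q‖ ^ 2 + s ^ 2 ≤ 3 / 10 ∧ b = hh q s u := by
  rw [mem_hb] at hb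
  obtain ⟨h1, h2, h3⟩ := hb
  have hk := kap_pos
  have hk2 := kap_sq
  have hpos : 0 < ‖b.1‖ := by linarith
  have hne : ((‖b.1‖ : ℝ) : ℂ) ≠ 0 := by exact_mod_cast hpos.ne'
  refine ⟨⟨(‖b.1‖ ^ 2 - 5 / 8) * kap⁻¹, b.2.re * kap⁻¹⟩, b.2.im * kap⁻¹,
    b.1 / ((‖b.1‖ : ℝ) : ℂ), ?_, ?_, ?_⟩
  · rw [norm_div, Complex.norm_real, norm_norm, div_self hpos.ne']
  · have hb2 : ‖b.2‖ ^ 2 = b.2.re ^ 2 + b.2.im ^ 2 := by
      rw [Complex.sq_norm, Complex.normSq_apply]; ring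
    rw [Complex.sq_norm, Complex.normSq_apply]
    show (‖b.1‖ ^ 2 - 5 / 8) * kap⁻¹ * ((‖b.1‖ ^ 2 - 5 / 8) * kap⁻¹) +
      b.2.re * kap⁻¹ * (b.2.re * kap⁻¹) + (b.2.im * kap⁻¹) ^ 2 ≤ 3 / 10
    have e : (‖b.1‖ ^ 2 - 5 / 8) * kap⁻¹ * ((‖b.1‖ ^ 2 - 5 / 8) * kap⁻¹) +
      b.2.re * kap⁻¹ * (b.2.re * kap⁻¹) + (b.2.im * kap⁻¹) ^ 2 =
      ((‖b.1‖ ^ 2 - 5 / 8) ^ 2 + b.2.re ^ 2 + b.2.im ^ 2) * (kap ^ 2)⁻¹ := by
      field_simp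
    rw [e, hk2]
    rw [hb2] at h3
    nlinarith [h3]
  · refine Prod.ext ?_ ?_
    · show b.1 = ((√(5 / 8 + kap * ((‖b.1‖ ^ 2 - 5 / 8) * kap⁻¹)) : ℝ) : ℂ) *
        (b.1 / ((‖b.1‖ : ℝ) : ℂ))
      have e : 5 / 8 + kap * ((‖b.1‖ ^ 2 - 5 / 8) * kap⁻¹) = ‖b.1‖ ^ 2 := by
        field_simp
        ring
      rw [e, Real.sqrt_sq hpos.le, mul_div_cancel₀ _ hne]
    · show b.2 = ((kap * (b.2.re * kap⁻¹) : ℝ) : ℂ) + ((kap * (b.2.im * kap⁻¹) : ℝ) : ℂ) *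
        Complex.I
      have e1 : kap * (b.2.re * kap⁻¹) = b.2.re := by field_simp
      have e2 : kap * (b.2.im * kap⁻¹) = b.2.im := by field_simp
      rw [e1, e2, Complex.re_add_im]

private theorem gg_mem {q : ℂ} {s : ℝ} {u : ℂ} (hu : ‖u‖ = 1) (h : ‖q‖ ^ 2 + s ^ 2 ≤ 3 / 10) :
    gg q s u ∈ JJ '' Dfin := by
  obtain ⟨v, hv⟩ := IsAlgClosed.exists_pow_nat_eq u (n := 5) (by norm_num)
  have hv1 : ‖v‖ = 1 := by
    have h1 : ‖v‖ ^ 5 = 1 := by rw [← norm_pow, hv, hu]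
    exact (pow_eq_one_iff_of_nonneg (norm_nonneg v) (by norm_num)).1 h1
  exact ⟨pm q s v, pm_mem hv1 h, by rw [JJ_pm hv1, hv]⟩

private theorem gg_surj {a : C5} (ha : a ∈ JJ '' Dfin) :
    ∃ (q : ℂ) (s : ℝ) (u : ℂ), ‖u‖ = 1 ∧ ‖q‖ ^ 2 + s ^ 2 ≤ 3 / 10 ∧ a = gg q s u := by
  obtain ⟨x, hx, rfl⟩ := ha
  obtain ⟨q, s, v, hv, hqs, rfl⟩ := pm_of_mem hx
  exact ⟨q, s, v ^ 5, by rw [norm_pow, hv, one_pow], hqs, JJ_pm hv⟩

private theorem smooth_ff : SmoothOnSet ff (JJ '' Dfin) := by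
  set U0 : Set C5 := {a | a.2.1 ≠ 0} with hU0
  have hU0o : IsOpen U0 := isOpen_ne_fun (by fun_prop) continuous_const
  have hn : ContDiffOn ℝ ∞ (fun a : C5 => ‖a.2.1‖) U0 :=
    ContDiffOn.norm ℝ (by fun_prop) fun a ha => ha
  have hn0 : ∀ a ∈ U0, ‖a.2.1‖ ≠ 0 := fun a ha => norm_ne_zero_iff.2 ha
  have hp : ContDiffOn ℝ ∞ (fun a : C5 => ‖a.2.1‖ ^ (-2 / 5 : ℝ)) U0 :=
    hn.rpow_const_of_ne hn0
  have hi : ContDiffOn ℝ ∞ (fun a : C5 => ‖a.2.1‖⁻¹) U0 := hn.inv hn0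
  have hre : ContDiffOn ℝ ∞ (fun a : C5 => a.2.2.1.re) U0 :=
    (Complex.reCLM.contDiff.comp (by fun_prop : ContDiff ℝ ∞ fun a : C5 => a.2.2.1)).contDiffOn
  have him : ContDiffOn ℝ ∞ (fun a : C5 => a.2.2.1.im) U0 :=
    (Complex.imCLM.contDiff.comp (by fun_prop : ContDiff ℝ ∞ fun a : C5 => a.2.2.1)).contDiffOn
  have hse : ContDiffOn ℝ ∞ (fun a : C5 => a.2.2.2.2.re) U0 :=
    (Complex.reCLM.contDiff.comp (by fun_prop : ContDiff ℝ ∞ fun a : C5 => a.2.2.2.2)).contDiffOn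
  have hrad : ContDiffOn ℝ ∞
      (fun a : C5 => 5 / 8 + kap * (a.2.2.1.re * ‖a.2.1‖ ^ (-2 / 5 : ℝ))) U0 :=
    contDiffOn_const.add (contDiffOn_const.mul (hre.mul hp))
  set U1 : Set C5 := U0 ∩ (fun a : C5 =>
    5 / 8 + kap * (a.2.2.1.re * ‖a.2.1‖ ^ (-2 / 5 : ℝ))) ⁻¹' (Ioi 0) with hU1
  have hU1o : IsOpen U1 := hrad.continuousOn.isOpen_inter_preimage hU0o isOpen_Ioi
  have hsub : U1 ⊆ U0 := inter_subset_left
  have hof : ∀ {f : C5 → ℝ}, ContDiffOn ℝ ∞ f U1 → ContDiffOn ℝ ∞ (fun a => ((f a : ℝ) : ℂ)) U1 :=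
    fun hf => Complex.ofRealCLM.contDiff.comp_contDiffOn hf
  refine smoothOnSet_of_contDiffOn hU1o ?_ ?_
  · refine ContDiffOn.prodMk ?_ ?_
    · refine (hof ?_).mul (by fun_prop)
      exact (hi.mono hsub).mul ((hrad.mono hsub).sqrt fun a ha => (ne_of_gt ha.2))
    · refine (hof ?_).add ((hof ?_).mul contDiffOn_const)
      · exact contDiffOn_const.mul ((him.mono hsub).mul (hp.mono hsub))
      · exact contDiffOn_const.mul (hse.mono hsub)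
  · intro a ha
    obtain ⟨q, s, u, hu, hqs, rfl⟩ := gg_surj ha
    have h1 := norm_lt_of hqs
    have htpos : 0 < √(1 - ‖q‖ ^ 2) := Real.sqrt_pos.2 h1
    have hne : (gg q s u).2.1 ≠ 0 := by
      show ((√(1 - ‖q‖ ^ 2) ^ 5 : ℝ) : ℂ) * u ≠ 0
      refine mul_ne_zero ?_ (norm_ne_zero_iff.1 (by rw [hu]; exact one_ne_zero))
      exact_mod_cast (pow_pos htpos 5).ne'
    refine ⟨hne, ?_⟩
    show 0 < 5 / 8 + kap * ((gg q s u).2.2.1.re * ‖(gg q s u).2.1‖ ^ (-2 / 5 : ℝ))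
    have hn : ‖(gg q s u).2.1‖ = √(1 - ‖q‖ ^ 2) ^ 5 := by
      show ‖((√(1 - ‖q‖ ^ 2) ^ 5 : ℝ) : ℂ) * u‖ = _
      rw [norm_mul, hu, mul_one, Complex.norm_real, Real.norm_eq_abs, abs_of_pos (by positivity)]
    have hpow : (√(1 - ‖q‖ ^ 2) ^ 5) ^ (-2 / 5 : ℝ) = (√(1 - ‖q‖ ^ 2) ^ 2)⁻¹ := by
      rw [← Real.rpow_natCast _ 5, ← Real.rpow_mul htpos.le]
      norm_num
    have hq : (gg q s u).2.2.1.re * (√(1 - ‖q‖ ^ 2) ^ 2)⁻¹ = q.re := by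
      show (q * ((√(1 - ‖q‖ ^ 2) ^ 2 : ℝ) : ℂ)).re * (√(1 - ‖q‖ ^ 2) ^ 2)⁻¹ = q.re
      rw [Complex.re_mul_ofReal]
      field_simp
    rw [hn, hpow, hq]
    linarith [(rad_pos hqs).1]

private theorem smooth_gi : SmoothOnSet gi (handlebody4 1) := by
  set U0 : Set (ℂ × ℂ) := {b | b.1 ≠ 0} with hU0
  have hU0o : IsOpen U0 := isOpen_ne_fun (by fun_prop) continuous_const
  have hn : ContDiffOn ℝ ∞ (fun b : ℂ × ℂ => ‖b.1‖) U0 :=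
    ContDiffOn.norm ℝ (by fun_prop) fun a ha => ha
  have hn0 : ∀ b ∈ U0, ‖b.1‖ ≠ 0 := fun a ha => norm_ne_zero_iff.2 ha
  have hi : ContDiffOn ℝ ∞ (fun b : ℂ × ℂ => ‖b.1‖⁻¹) U0 := hn.inv hn0
  have hre : ContDiffOn ℝ ∞ (fun b : ℂ × ℂ => b.2.re) U0 :=
    (Complex.reCLM.contDiff.comp (by fun_prop : ContDiff ℝ ∞ fun b : ℂ × ℂ => b.2)).contDiffOn
  have him : ContDiffOn ℝ ∞ (fun b : ℂ × ℂ => b.2.im) U0 :=
    (Complex.imCLM.contDiff.comp (by fun_prop : ContDiff ℝ ∞ fun b : ℂ × ℂ => b.2)).contDiffOn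
  have hof : ∀ {f : ℂ × ℂ → ℝ} {U : Set (ℂ × ℂ)}, ContDiffOn ℝ ∞ f U →
      ContDiffOn ℝ ∞ (fun a => ((f a : ℝ) : ℂ)) U :=
    fun hf => Complex.ofRealCLM.contDiff.comp_contDiffOn hf
  set Q : ℂ × ℂ → ℂ := fun b => (((‖b.1‖ ^ 2 - 5 / 8) * kap⁻¹ : ℝ) : ℂ) +
    ((b.2.re * kap⁻¹ : ℝ) : ℂ) * Complex.I with hQ
  have hQs : ContDiffOn ℝ ∞ Q U0 := by
    refine (hof ?_).add ((hof ?_).mul contDiffOn_const)
    · exact ((hn.pow 2).sub contDiffOn_const).mul contDiffOn_const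
    · exact hre.mul contDiffOn_const
  have hQn : ContDiffOn ℝ ∞ (fun b => 1 - ‖Q b‖ ^ 2) U0 :=
    contDiffOn_const.sub (hQs.norm_sq ℝ)
  set U1 : Set (ℂ × ℂ) := U0 ∩ (fun b => 1 - ‖Q b‖ ^ 2) ⁻¹' (Ioi 0) with hU1
  have hU1o : IsOpen U1 := hQn.continuousOn.isOpen_inter_preimage hU0o isOpen_Ioi
  have hsub : U1 ⊆ U0 := inter_subset_left
  have hT : ContDiffOn ℝ ∞ (fun b => √(1 - ‖Q b‖ ^ 2)) U1 :=
    (hQn.mono hsub).sqrt fun a ha => (ne_of_gt ha.2)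
  set Uu : ℂ × ℂ → ℂ := fun b => ((‖b.1‖⁻¹ : ℝ) : ℂ) * b.1 with hUu
  have hUs : ContDiffOn ℝ ∞ Uu U1 := (hof (hi.mono hsub)).mul (by fun_prop)
  have hUc : ContDiffOn ℝ ∞ (fun b => (starRingEnd ℂ) (Uu b)) U1 :=
    Complex.conjCLE.contDiff.comp_contDiffOn hUs
  have hQ1 := hQs.mono hsub
  refine smoothOnSet_of_contDiffOn hU1o ?_ ?_
  · show ContDiffOn ℝ ∞ (fun b => (Q b ^ 5 * (starRingEnd ℂ) (Uu b) ^ 2,
      ((√(1 - ‖Q b‖ ^ 2) ^ 5 : ℝ) : ℂ) * Uu b, Q b * ((√(1 - ‖Q b‖ ^ 2) ^ 2 : ℝ) : ℂ),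
      Q b ^ 2 * ((√(1 - ‖Q b‖ ^ 2) : ℝ) : ℂ) * (starRingEnd ℂ) (Uu b),
      ((b.2.im * kap⁻¹ : ℝ) : ℂ))) U1
    refine ContDiffOn.prodMk ?_ (ContDiffOn.prodMk ?_ (ContDiffOn.prodMk ?_
      (ContDiffOn.prodMk ?_ ?_)))
    · exact (hQ1.pow 5).mul (hUc.pow 2)
    · exact (hof (hT.pow 5)).mul hUs
    · exact hQ1.mul (hof (hT.pow 2))
    · exact ((hQ1.pow 2).mul (hof hT)).mul hUc
    · exact hof ((him.mono hsub).mul contDiffOn_const)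
  · intro b hb
    obtain ⟨q, s, u, hu, hqs, rfl⟩ := hh_surj hb
    have hr := rad_pos hqs
    have hk := kap_pos
    have hρpos : 0 < √(5 / 8 + kap * q.re) := Real.sqrt_pos.2 (by linarith [hr.1])
    have hρsq : √(5 / 8 + kap * q.re) ^ 2 = 5 / 8 + kap * q.re :=
      Real.sq_sqrt (by linarith [hr.1])
    have hn1 : ‖(hh q s u).1‖ = √(5 / 8 + kap * q.re) := by
      show ‖((√(5 / 8 + kap * q.re) : ℝ) : ℂ) * u‖ = _
      rw [norm_mul, hu, mul_one, Complex.norm_real, Real.norm_eq_abs, abs_of_pos hρpos]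
    refine ⟨?_, ?_⟩
    · show (hh q s u).1 ≠ 0
      rw [← norm_ne_zero_iff, hn1]
      exact hρpos.ne'
    · have hQq : Q (hh q s u) = q := by
        have hre' : (hh q s u).2.re = kap * q.im := by simp [hh]
        show (((‖(hh q s u).1‖ ^ 2 - 5 / 8) * kap⁻¹ : ℝ) : ℂ) +
          (((hh q s u).2.re * kap⁻¹ : ℝ) : ℂ) * Complex.I = q
        rw [hn1, hρsq, hre']
        have a1 : (5 / 8 + kap * q.re - 5 / 8) * kap⁻¹ = q.re := by field_simp; ring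
        have a2 : kap * q.im * kap⁻¹ = q.im := by field_simp
        rw [a1, a2]
        exact Complex.re_add_im q
      show 0 < 1 - ‖Q (hh q s u)‖ ^ 2
      rw [hQq]
      exact norm_lt_of hqs

/-- The quotient of the model domain is `S¹ × B³`. -/
theorem Dfin_model : Diffeomorphic (JJ '' Dfin) (handlebody4 1) := by
  refine ⟨ff, gi, smooth_ff, smooth_gi, ?_, ?_, ?_, ?_⟩
  · intro a ha
    obtain ⟨q, s, u, hu, hqs, rfl⟩ := gg_surj ha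
    rw [ff_gg hu hqs]
    exact hh_mem hu hqs
  · intro b hb
    obtain ⟨q, s, u, hu, hqs, rfl⟩ := hh_surj hb
    rw [gi_hh hu hqs]
    exact gg_mem hu hqs
  · intro a ha
    obtain ⟨q, s, u, hu, hqs, rfl⟩ := gg_surj ha
    rw [ff_gg hu hqs, gi_hh hu hqs]
  · intro b hb
    obtain ⟨q, s, u, hu, hqs, rfl⟩ := hh_surj hb
    rw [gi_hh hu hqs, ff_gg hu hqs]

/-- The phase of `w`, as an element of the circle. -/
def phW (x : C3) : Circle := Circle.exp (Complex.arg x.2.1)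

private theorem coe_phW (x : C3) : (phW x : ℂ) = x.2.1 / ((‖x.2.1‖ : ℝ) : ℂ) ∨ x.2.1 = 0 := by
  by_cases h : x.2.1 = 0
  · right; exact h
  · left
    have hne : ((‖x.2.1‖ : ℝ) : ℂ) ≠ 0 := by exact_mod_cast norm_ne_zero_iff.2 h
    rw [phW, Circle.coe_exp, eq_div_iff hne, mul_comm]
    exact Complex.norm_mul_exp_arg_mul_I x.2.1

private theorem w_ne {x : C3} (hx : x ∈ Dfin) : x.2.1 ≠ 0 := by
  intro h
  have hs : ‖x.1‖ ^ 2 + ‖x.2.1‖ ^ 2 = 1 := hx.1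
  have hle := hx.2.2
  rw [h, norm_zero] at hs
  nlinarith [sq_nonneg x.2.2.re]

private theorem continuousOn_phW : ContinuousOn phW Dfin := by
  have hind : Topology.IsInducing (fun z : Circle => (z : ℂ)) := Topology.IsInducing.subtypeVal
  rw [hind.continuousOn_iff]
  have h1 : ContinuousOn (fun x : C3 => x.2.1 / ((‖x.2.1‖ : ℝ) : ℂ)) Dfin := by
    refine ContinuousOn.div (by fun_prop) ?_ ?_
    · exact (Complex.continuous_ofReal.comp (by fun_prop : Continuous fun x : C3 =>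
        ‖x.2.1‖)).continuousOn
    · intro x hx
      exact_mod_cast norm_ne_zero_iff.2 (w_ne hx)
  refine h1.congr fun x hx => ?_
  rcases coe_phW x with h | h
  · exact h
  · exact absurd h (w_ne hx)

/-- the ball -/
private def BB : Set (ℂ × ℝ) := {p | ‖p.1‖ ^ 2 + p.2 ^ 2 ≤ 3 / 10}

private theorem convex_BB : Convex ℝ BB := by
  intro p hp q hq a b ha hb hab
  have hp' : ‖p.1‖ ^ 2 + p.2 ^ 2 ≤ 3 / 10 := hp
  have hq' : ‖q.1‖ ^ 2 + q.2 ^ 2 ≤ 3 / 10 := hq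
  show ‖a • p.1 + b • q.1‖ ^ 2 + (a • p.2 + b • q.2) ^ 2 ≤ 3 / 10
  have h1 : ‖a • p.1 + b • q.1‖ ≤ a * ‖p.1‖ + b * ‖q.1‖ := by
    refine (norm_add_le _ _).trans ?_
    rw [norm_smul, norm_smul, Real.norm_eq_abs, Real.norm_eq_abs, abs_of_nonneg ha,
      abs_of_nonneg hb]
  have h2 : ‖a • p.1 + b • q.1‖ ^ 2 ≤ (a * ‖p.1‖ + b * ‖q.1‖) ^ 2 :=
    pow_le_pow_left₀ (norm_nonneg _) h1 2
  have h3 : ∀ X Y : ℝ, (a * X + b * Y) ^ 2 ≤ a * X ^ 2 + b * Y ^ 2 := by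
    intro X Y
    have e : a * X ^ 2 + b * Y ^ 2 - (a * X + b * Y) ^ 2 = a * b * (X - Y) ^ 2 := by
      have hb' : b = 1 - a := by linarith
      rw [hb']; ring
    have : 0 ≤ a * b * (X - Y) ^ 2 := by positivity
    linarith
  have h4 := h3 ‖p.1‖ ‖q.1‖
  have h5 := h3 p.2 q.2
  rw [smul_eq_mul, smul_eq_mul]
  have h6 : a * (‖p.1‖ ^ 2 + p.2 ^ 2) + b * (‖q.1‖ ^ 2 + q.2 ^ 2) ≤ 3 / 10 := by
    calc a * (‖p.1‖ ^ 2 + p.2 ^ 2) + b * (‖q.1‖ ^ 2 + q.2 ^ 2)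
        ≤ a * (3 / 10) + b * (3 / 10) := by gcongr
      _ = 3 / 10 := by rw [← add_mul, hab, one_mul]
  nlinarith [h2, h4, h5, h6]

/-- the inverse of the trivialisation -/
private def tri (p : Circle × (ℂ × ℝ)) : C3 :=
  (p.2.1, ((√(1 - ‖p.2.1‖ ^ 2) : ℝ) : ℂ) * (p.1 : ℂ), ((p.2.2 : ℝ) : ℂ))

private theorem continuous_tri : Continuous tri := by
  unfold tri
  have h1 : Continuous (fun p : Circle × (ℂ × ℝ) => (p.1 : ℂ)) :=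
    (Topology.IsInducing.subtypeVal.continuous : Continuous (fun z : Circle => (z : ℂ))).comp
      continuous_fst
  have h2 : Continuous (fun p : Circle × (ℂ × ℝ) => ((√(1 - ‖p.2.1‖ ^ 2) : ℝ) : ℂ)) :=
    Complex.continuous_ofReal.comp (Real.continuous_sqrt.comp (by fun_prop))
  have h3 : Continuous (fun p : Circle × (ℂ × ℝ) => ((p.2.2 : ℝ) : ℂ)) :=
    Complex.continuous_ofReal.comp (by fun_prop)
  exact (by fun_prop : Continuous fun p : Circle × (ℂ × ℝ) => p.2.1).prodMk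
    ((h2.mul h1).prodMk h3)

private theorem tri_mem {p : Circle × (ℂ × ℝ)} (hp : p ∈ (univ : Set Circle) ×ˢ BB) :
    tri p ∈ Dfin := by
  have h : ‖p.2.1‖ ^ 2 + p.2.2 ^ 2 ≤ 3 / 10 := hp.2
  have h1 := norm_lt_of h
  refine ⟨?_, ?_, ?_⟩
  · show ‖p.2.1‖ ^ 2 + ‖((√(1 - ‖p.2.1‖ ^ 2) : ℝ) : ℂ) * (p.1 : ℂ)‖ ^ 2 = 1
    rw [norm_mul, Circle.norm_coe, mul_one, Complex.norm_real, Real.norm_eq_abs, sq_abs,
      Real.sq_sqrt h1.le]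
    ring
  · exact Complex.ofReal_im _
  · show ‖p.2.1‖ ^ 2 + (((p.2.2 : ℝ) : ℂ)).re ^ 2 ≤ 3 / 10
    rw [Complex.ofReal_re]
    exact h

private theorem tri_left {x : C3} (hx : x ∈ Dfin) : tri (phW x, (x.1, x.2.2.re)) = x := by
  have hne := w_ne hx
  have hs : ‖x.1‖ ^ 2 + ‖x.2.1‖ ^ 2 = 1 := hx.1
  have hpos : 0 < ‖x.2.1‖ := norm_pos_iff.2 hne
  have hw : (phW x : ℂ) = x.2.1 / ((‖x.2.1‖ : ℝ) : ℂ) := by
    rcases coe_phW x with h | h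
    · exact h
    · exact absurd h hne
  have ht : √(1 - ‖x.1‖ ^ 2) = ‖x.2.1‖ := by
    have : 1 - ‖x.1‖ ^ 2 = ‖x.2.1‖ ^ 2 := by linarith
    rw [this, Real.sqrt_sq hpos.le]
  unfold tri
  refine Prod.ext rfl (Prod.ext ?_ ?_)
  · show ((√(1 - ‖x.1‖ ^ 2) : ℝ) : ℂ) * (phW x : ℂ) = x.2.1
    rw [ht, hw, mul_div_cancel₀]
    exact_mod_cast hpos.ne'
  · show ((x.2.2.re : ℝ) : ℂ) = x.2.2
    apply Complex.ext
    · simp
    · simp [hx.2.1]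

private theorem phW_tri {p : Circle × (ℂ × ℝ)} (hp : p ∈ (univ : Set Circle) ×ˢ BB) :
    phW (tri p) = p.1 := by
  have hmem := tri_mem hp
  have h : ‖p.2.1‖ ^ 2 + p.2.2 ^ 2 ≤ 3 / 10 := hp.2
  have htpos : 0 < √(1 - ‖p.2.1‖ ^ 2) := Real.sqrt_pos.2 (norm_lt_of h)
  apply Circle.ext
  rcases coe_phW (tri p) with h1 | h1
  · rw [h1]
    show ((√(1 - ‖p.2.1‖ ^ 2) : ℝ) : ℂ) * (p.1 : ℂ) /
      ((‖((√(1 - ‖p.2.1‖ ^ 2) : ℝ) : ℂ) * (p.1 : ℂ)‖ : ℝ) : ℂ) = (p.1 : ℂ)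
    rw [norm_mul, Circle.norm_coe, mul_one, Complex.norm_real, Real.norm_eq_abs,
      abs_of_pos htpos, mul_div_cancel_left₀]
    exact_mod_cast htpos.ne'
  · exact absurd h1 (w_ne hmem)

theorem genOn_Dfin : GenOn Dfin phW := by
  have h := genOn_circle_prod BB convex_BB ⟨0, by show ‖(0 : ℂ)‖ ^ 2 + (0 : ℝ) ^ 2 ≤ 3 / 10; norm_num⟩
  refine h.transport (A := Dfin) (fun x : C3 => (phW x, (x.1, x.2.2.re))) tri ?_
    continuous_tri.continuousOn ?_ (fun p hp => tri_mem hp) (fun x hx => tri_left hx) ?_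
  · refine continuousOn_phW.prodMk (ContinuousOn.prodMk (by fun_prop) ?_)
    exact (Complex.continuous_re.comp (by fun_prop : Continuous fun x : C3 =>
      x.2.2)).continuousOn
  · intro x hx
    exact ⟨mem_univ _, hx.2.2⟩
  · intro p hp
    show (phW (tri p), ((tri p).1, (tri p).2.2.re)) = p
    rw [phW_tri hp]
    refine Prod.ext rfl (Prod.ext rfl ?_)
    exact Complex.ofReal_re _

theorem phW_act {x : C3} (hx : x ∈ Dfin) :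
    phW (act x) = Circle.exp (4 * Real.pi / 5) * phW x := by
  have hmem := inv_Dfin.2 x hx
  apply Circle.ext
  have h1 : (phW (act x) : ℂ) = zeta ^ 2 * x.2.1 / ((‖zeta ^ 2 * x.2.1‖ : ℝ) : ℂ) := by
    rcases coe_phW (act x) with h | h
    · exact h
    · exact absurd h (w_ne hmem)
  have h2 : (phW x : ℂ) = x.2.1 / ((‖x.2.1‖ : ℝ) : ℂ) := by
    rcases coe_phW x with h | h
    · exact h
    · exact absurd h (w_ne hx)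
  rw [Circle.coe_mul, h1, h2, Circle.coe_exp, norm_mul, norm_pow, norm_zeta, one_pow, one_mul,
    mul_div_assoc]
  congr 1
  rw [zeta, ← Complex.exp_nat_mul]
  congr 1
  push_cast
  ring

theorem isPreconnected_Dfin : IsPreconnected Dfin := by
  have h1 : IsPreconnected (univ : Set Circle) := by
    rw [← Circle.exp_surjective.range_eq]
    exact isPreconnected_range Circle.exp.continuous
  have h2 : IsPreconnected ((univ : Set Circle) ×ˢ BB) := h1.prod convex_BB.isPreconnected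
  have h3 : Dfin = tri '' ((univ : Set Circle) ×ˢ BB) := by
    ext x
    constructor
    · intro hx
      exact ⟨(phW x, (x.1, x.2.2.re)), ⟨mem_univ _, hx.2.2⟩, tri_left hx⟩
    · rintro ⟨p, hp, rfl⟩
      exact tri_mem hp
  rw [h3]
  exact h2.image _ continuous_tri.continuousOn

end Pool.Agent.Tri
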