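import Mathlib
import Pool.Agent.H.MP_5efd29_gt.FamA3
import Pool.Agent.H.MP_5efd29_gt.FamG
import Pool.Agent.H.MP_5efd29_gt.FamB
import Pool.Agent.H.MP_5efd29_gt.FamD
import Pool.Agent.H.MP_5efd29_gt.FamE
import Pool.Agent.H.MP_5efd29_gt.FamF
import Pool.Agent.H.MP_5efd29_gt.LensD

open scoped ContDiff Topology
open Set

noncomputable section

namespace Pool.Agent.Tri

private theorem pieces_inv_B (j : Fin 3) (e t : ℝ) :
    Inv {x | PhiM x = 0 ∧ 0 ≤ FB j e (t, x)} :=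
  inv_region_M (fun x => FB j e (t, x)) (FB_act j e t)

private theorem pieces_inv_C (j : Fin 3) (e t : ℝ) :
    Inv {x | PhiM x = 0 ∧ 0 ≤ FC j e (t, x)} :=
  inv_region_M (fun x => FC j e (t, x)) (FC_act j e t)

private theorem pieces_inv_D (j : Fin 3) (t : ℝ) : Inv {x | PhiM x = 0 ∧ 0 ≤ FD j (t, x)} :=
  inv_region_M (fun x => FD j (t, x)) (FD_act j t)

private theorem pieces_inv_E (j : Fin 3) (t : ℝ) : Inv {x | PhiM x = 0 ∧ 0 ≤ FE j (t, x)} :=
  inv_region_M (fun x => FE j (t, x)) (FE_act j t)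

private theorem pieces_inv_F (j : Fin 3) (t : ℝ) : Inv {x | PhiM x = 0 ∧ 0 ≤ FF j (t, x)} :=
  inv_region_M (fun x => FF j (t, x)) (FF_act j t)

private theorem pieces_CD (j : Fin 3) (e : ℝ) :
    {x | PhiM x = 0 ∧ 0 ≤ FC j e (1, x)} = {x | PhiM x = 0 ∧ 0 ≤ FD j (0, x)} := by
  ext x
  have h : FC j e (1, x) = FD j (0, x) := by
    unfold FC FD
    ring
  rw [mem_ofPred_eq, mem_ofPred_eq, h]

private theorem pieces_DE (j : Fin 3) :
    {x | PhiM x = 0 ∧ 0 ≤ FD j (1, x)} = {x | PhiM x = 0 ∧ 0 ≤ FE j (0, x)} := by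
  ext x
  have h : FD j (1, x) = FE j (0, x) := by
    unfold FD FE
    rw [sub_zero]
    ring
  rw [mem_ofPred_eq, mem_ofPred_eq, h]

private theorem pieces_EF (j : Fin 3) :
    {x | PhiM x = 0 ∧ 0 ≤ FE j (1, x)} = {x | PhiM x = 0 ∧ 0 ≤ FF j (0, x)} := by
  ext x
  have h : FE j (1, x) = FF j (0, x) := by
    unfold FE FF
    rw [sub_self]
    ring
  rw [mem_ofPred_eq, mem_ofPred_eq, h]

private theorem pieces_Fin (j : Fin 3) :
    {x | PhiM x = 0 ∧ 0 ≤ FF j (1, x)} = Dfin := by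
  ext x
  constructor
  · rintro ⟨h1, h2⟩
    have hre : Complex.normSq x.1 + Complex.normSq x.2.1 - 1 = 0 := congrArg Complex.re h1
    have him : x.2.2.im = 0 := congrArg Complex.im h1
    have h3 : 0 ≤ 3 / 10 - ((1 - 1) * QQ j 0 x + 1 * Complex.normSq x.1) - x.2.2.re ^ 2 := h2
    rw [Complex.normSq_eq_norm_sq, Complex.normSq_eq_norm_sq] at hre
    rw [Complex.normSq_eq_norm_sq] at h3
    refine ⟨?_, him, ?_⟩
    · show ‖x.1‖ ^ 2 + ‖x.2.1‖ ^ 2 = 1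
      linarith
    · linarith
  · rintro ⟨h1, h2, h3⟩
    have h1' : ‖x.1‖ ^ 2 + ‖x.2.1‖ ^ 2 = 1 := h1
    refine ⟨Complex.ext ?_ h2, ?_⟩
    · show Complex.normSq x.1 + Complex.normSq x.2.1 - 1 = 0
      rw [Complex.normSq_eq_norm_sq, Complex.normSq_eq_norm_sq]
      linarith
    · show 0 ≤ 3 / 10 - ((1 - 1) * QQ j 0 x + 1 * Complex.normSq x.1) - x.2.2.re ^ 2
      rw [Complex.normSq_eq_norm_sq]
      linarith

/-- The first and the second piece. -/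
theorem pieces_M (j : Fin 3) (hj : j ≠ 2) {e : ℝ} (he : 0 < e) (he' : e < 1 / 100) :
    EqDiffeo 1 {x | PhiM x = 0 ∧ 0 ≤ FB j e (0, x)} Dfin := by
  have h1 := eqDiffeo_BC j he he'
  rw [pieces_CD] at h1
  have h2 := h1.trans (pieces_inv_D j 0) (eqDiffeo_D j hj)
  rw [pieces_DE] at h2
  have h3 := h2.trans (pieces_inv_E j 0) (eqDiffeo_E j hj)
  rw [pieces_EF] at h3
  have h4 := h3.trans (pieces_inv_F j 0) (eqDiffeo_F j)
  rw [pieces_Fin] at h4
  exact h4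

/-- The three pieces, with their weights. -/
theorem pieces (i : Fin 3) : ∃ ε₀ > 0, ∀ ε, 0 < ε → ε < ε₀ → EqDiffeo (ee i) (RR i ε) Dfin := by
  obtain ⟨ε₀, hε₀, h⟩ := eqDiffeo_A i
  refine ⟨min ε₀ (1 / 10), lt_min hε₀ (by norm_num), fun ε h0 h1 => ?_⟩
  have hA := h ε h0 (lt_of_lt_of_le h1 (min_le_left _ _))
  have hε : ε < 1 / 10 := lt_of_lt_of_le h1 (min_le_right _ _)
  have he : 0 < ε ^ 2 := by positivity
  have he' : ε ^ 2 < 1 / 100 := by nlinarith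
  have hB := hA.trans (inv_region_X (fun x => FA i (ε ^ 2) (1, x)) (FA_act i _ 1))
    (eqDiffeo_graph i he)
  fin_cases i
  · exact hB.trans (pieces_inv_B 0 _ 0) (pieces_M 0 (by decide) he he')
  · exact hB.trans (pieces_inv_B 1 _ 0) (pieces_M 1 (by decide) he he')
  · exact (hB.trans (pieces_inv_B 2 _ 0) (eqDiffeo_kap (ε ^ 2))).trans (pieces_inv_B 0 _ 0)
      (pieces_M 0 (by decide) he he')

/-- The pieces downstairs. -/
theorem pieces_model (i : Fin 3) : ∃ ε₀ > 0, ∀ ε, 0 < ε → ε < ε₀ →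
    Diffeomorphic (JJ '' RR i ε) (handlebody4 1) := by
  obtain ⟨ε₀, hε₀, h⟩ := pieces i
  refine ⟨ε₀, hε₀, fun ε h0 h1 => ?_⟩
  have hc : Nat.Coprime (ee i) 5 := by
    fin_cases i <;> decide
  exact ((h ε h0 h1).descend hc (inv_RR i ε) inv_Dfin).trans Dfin_model

/-- The generator of the maps to the circle on a piece, with its weight. -/
theorem pieces_gen (i : Fin 3) : ∃ ε₀ > 0, ∀ ε, 0 < ε → ε < ε₀ → ∃ θ : C3 → Circle,
    GenOn (RR i ε) θ ∧ (∀ x ∈ RR i ε, θ (act x) = Circle.exp (4 * Real.pi / 5) ^ ee i * θ x) ∧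
      IsPreconnected (RR i ε) ∧ (RR i ε).Nonempty := by
  obtain ⟨ε₀, hε₀, h⟩ := pieces i
  refine ⟨ε₀, hε₀, fun ε h0 h1 => ?_⟩
  obtain ⟨f, g, ⟨hf, hg, hfm, hgm, hgf, hfg⟩, hact⟩ := h ε h0 h1
  have himg : RR i ε = g '' Dfin := by
    ext x
    constructor
    · intro hx
      exact ⟨f x, hfm hx, hgf x hx⟩
    · rintro ⟨y, hy, rfl⟩
      exact hgm hy
  have hmem : ((0 : ℂ), ((1 : ℂ), (0 : ℂ))) ∈ Dfin := by
    refine ⟨?_, ?_, ?_⟩
    · show ‖(0 : ℂ)‖ ^ 2 + ‖(1 : ℂ)‖ ^ 2 = 1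
      norm_num
    · show (0 : ℂ).im = 0
      norm_num
    · show ‖(0 : ℂ)‖ ^ 2 + (0 : ℂ).re ^ 2 ≤ 3 / 10
      norm_num
  refine ⟨fun x => phW (f x), genOn_Dfin.transport f g hf.continuousOn hg.continuousOn hfm hgm
    hgf hfg, ?_, ?_, ?_⟩
  · intro x hx
    show phW (f (act x)) = Circle.exp (4 * Real.pi / 5) ^ ee i * phW (f x)
    rw [hact x hx]
    generalize ee i = n
    induction n with
    | zero => simp
    | succ n ih =>
      rw [Function.iterate_succ_apply', phW_act (inv_Dfin.iterate (hfm hx) n), ih, pow_succ',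
        mul_assoc]
  · rw [himg]
    exact isPreconnected_Dfin.image _ hg.continuousOn
  · exact ⟨g _, hgm hmem⟩

end Pool.Agent.Tri
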