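import Mathlib
import Pool.Agent.H.MP_5efd29_gt.Pieces
import Pool.Agent.H.MP_5efd29_gt.DegB

open scoped ContDiff Topology
open Set

noncomputable section

namespace Pool.Agent.Tri

/-- Inclusions of smoothed pieces preserve the generators up to sign. -/
theorem incl_gen (i : Fin 3) : ∃ ε₀ > 0, ∀ ε ε' : ℝ, 0 < ε' → ε' ≤ ε → ε < ε₀ →
    ∀ θ θ' : C3 → Circle, GenOn (RR i ε) θ → GenOn (RR i ε') θ' →
    ∃ n : ℤ, (n = 1 ∨ n = -1) ∧ ∃ u : C3 → ℝ, ContinuousOn u (RR i ε) ∧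
      ∀ x ∈ RR i ε, θ' x = θ x ^ n * Circle.exp (u x) := by
  obtain ⟨ε₀, hε₀, h⟩ := isotopy_RR i
  refine ⟨ε₀, hε₀, fun ε ε' h1 h2 h3 θ θ' hθ hθ' => ?_⟩
  obtain ⟨Θ, Ξ, k1, k2, k3, k4, k5, k6, k7⟩ := h ε ε' h1 h2 h3
  have c1 : Continuous fun x : C3 => Θ (1, x) := k1.comp (by fun_prop)
  have c2 : Continuous fun x : C3 => Ξ (1, x) := k2.comp (by fun_prop)
  have hθ'' : GenOn (RR i ε) (fun x => θ' (Θ (1, x))) :=
    hθ'.transport (fun x => Θ (1, x)) (fun x => Ξ (1, x)) c1.continuousOn c2.continuousOn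
      (fun x hx => k4 1 ⟨zero_le_one, le_rfl⟩ x hx) k7 (fun x _ => k5 x) (fun x _ => k6 x)
  obtain ⟨n, hn, u, hu, hnu⟩ := hθ.unique hθ''
  obtain ⟨v, hv, hvx⟩ := exists_log_of_homotopy (isCompact_RR i ε)
    (fun q : ℝ × C3 => θ' (Θ q)) (hθ'.1.comp k1.continuousOn fun q hq => k4 q.1 hq.1 q.2 hq.2)
  refine ⟨n, hn, fun x => u x - v x, hu.sub hv, fun x hx => ?_⟩
  have e1 : θ' (Θ (1, x)) = θ x ^ n * Circle.exp (u x) := hnu x hx
  have e2 : θ' (Θ (1, x)) = θ' (Θ (0, x)) * Circle.exp (v x) := hvx x hx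
  rw [k3] at e2
  rw [Circle.exp_sub, ← mul_div_assoc, ← e1, e2, mul_div_cancel_right]

theorem noniso1_pow {m : ℕ} (h : Circle.exp (4 * Real.pi / 5) ^ m = 1) : 5 ∣ m := by
  have e1 : Circle.exp (m * (4 * Real.pi / 5)) = Circle.exp 0 := by
    have h0 : ((m : ℤ) : ℝ) = (m : ℝ) := Int.cast_natCast m
    rw [Circle.exp_zero, ← h, ← h0, Circle.exp_intCast_mul, zpow_natCast]
  obtain ⟨k, hk⟩ := Circle.exp_eq_exp.1 e1
  have hpi := Real.pi_pos
  have h2 : (2 * (m : ℝ) - 5 * k) * Real.pi = 0 := by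
    have : (m : ℝ) * (4 * Real.pi / 5) * 5 = (0 + k * (2 * Real.pi)) * 5 := by rw [hk]
    linarith
  have h3 : 2 * (m : ℝ) - 5 * k = 0 := (mul_eq_zero.1 h2).resolve_right hpi.ne'
  have h4 : 2 * (m : ℤ) - 5 * k = 0 := by exact_mod_cast h3
  omega

theorem noniso1_ee (j : Fin 3) (hj : j ≠ 2) : ee j = 1 := by
  fin_cases j
  · rfl
  · rfl
  · exact absurd rfl hj

/-- The arithmetic contradiction. -/
theorem weights_absurd (σ : Equiv.Perm (Fin 3))
    (h : ∀ i, Circle.exp (4 * Real.pi / 5) ^ (3 * ee (σ i)) = Circle.exp (4 * Real.pi / 5) ^ ee i ∨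
      Circle.exp (4 * Real.pi / 5) ^ (3 * ee (σ i)) =
        (Circle.exp (4 * Real.pi / 5) ^ ee i)⁻¹) : False := by
  have key : ∀ i : Fin 3, i ≠ 2 → σ i = 2 := by
    intro i hi
    by_contra hne
    have h1 := h i
    rw [noniso1_ee i hi, noniso1_ee _ hne, mul_one, pow_one] at h1
    rcases h1 with h1 | h1
    · have h2 : Circle.exp (4 * Real.pi / 5) ^ 2 = 1 := by
        have h3 : Circle.exp (4 * Real.pi / 5) ^ 2 * Circle.exp (4 * Real.pi / 5) =
            1 * Circle.exp (4 * Real.pi / 5) := by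
          rw [← pow_succ, one_mul]
          exact h1
        exact mul_right_cancel h3
      have := noniso1_pow h2
      omega
    · have h2 : Circle.exp (4 * Real.pi / 5) ^ 4 = 1 := by
        rw [pow_succ, h1, inv_mul_cancel]
      have := noniso1_pow h2
      omega
  have h0 := key 0 (by decide)
  have h1 := key 1 (by decide)
  have h2 : (0 : Fin 3) = 1 := σ.injective (h0.trans h1.symm)
  exact absurd h2 (by decide)

end Pool.Agent.Tri
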