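import Mathlib
import Pool.Agent.H.MP_5efd29_gt.NonIso1

open scoped ContDiff Topology
open Set

noncomputable section

namespace Pool.Agent.Tri

private theorem noniso2_dir : dir 0 = ⟨1, 0⟩ ∧ dir 1 = ⟨-(1 / 2), Real.sqrt 3 / 2⟩ ∧
    dir 2 = ⟨-(1 / 2), -(Real.sqrt 3 / 2)⟩ := by
  have hd : ∀ k : Fin 3, dir k = ⟨Real.cos (2 * Real.pi * ((k : ℕ) : ℝ) / 3),
      Real.sin (2 * Real.pi * ((k : ℕ) : ℝ) / 3)⟩ := by
    intro k
    have h1 : dir k = Complex.exp (((2 * Real.pi * ((k : ℕ) : ℝ) / 3 : ℝ) : ℂ) * Complex.I) := by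
      unfold dir
      congr 1
      push_cast
      ring
    rw [h1]
    apply Complex.ext
    · rw [Complex.exp_ofReal_mul_I_re]
    · rw [Complex.exp_ofReal_mul_I_im]
  have c1 : Real.cos (2 * Real.pi * ((1 : ℕ) : ℝ) / 3) = -(1 / 2) := by
    have : 2 * Real.pi * ((1 : ℕ) : ℝ) / 3 = Real.pi - Real.pi / 3 := by push_cast; ring
    rw [this, Real.cos_pi_sub, Real.cos_pi_div_three]
  have s1 : Real.sin (2 * Real.pi * ((1 : ℕ) : ℝ) / 3) = Real.sqrt 3 / 2 := by
    have : 2 * Real.pi * ((1 : ℕ) : ℝ) / 3 = Real.pi - Real.pi / 3 := by push_cast; ring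
    rw [this, Real.sin_pi_sub, Real.sin_pi_div_three]
  have c2 : Real.cos (2 * Real.pi * ((2 : ℕ) : ℝ) / 3) = -(1 / 2) := by
    have : 2 * Real.pi * ((2 : ℕ) : ℝ) / 3 = Real.pi / 3 + Real.pi := by push_cast; ring
    rw [this, Real.cos_add_pi, Real.cos_pi_div_three]
  have s2 : Real.sin (2 * Real.pi * ((2 : ℕ) : ℝ) / 3) = -(Real.sqrt 3 / 2) := by
    have : 2 * Real.pi * ((2 : ℕ) : ℝ) / 3 = Real.pi / 3 + Real.pi := by push_cast; ring
    rw [this, Real.sin_add_pi, Real.sin_pi_div_three]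
  refine ⟨?_, ?_, ?_⟩
  · rw [hd]
    simp
  · rw [hd, ← c1, ← s1]
    rfl
  · rw [hd, ← c2, ← s2]
    rfl

/-- The sector `l` in the coordinate `rot i`. -/
private theorem noniso2_rot (i l : Fin 3) (h : l ≠ i) : ∃ s : ℝ, (s = 1 ∨ s = -1) ∧ ∀ ζ : ℂ,
    (rot l ζ).re = -(rot i ζ).re / 2 + s * (Real.sqrt 3 / 2) * (rot i ζ).im ∧
    (rot l ζ).im = -s * (Real.sqrt 3 / 2) * (rot i ζ).re - (rot i ζ).im / 2 := by
  have h3 : Real.sqrt 3 ^ 2 = 3 := Real.sq_sqrt (by norm_num)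
  obtain ⟨e0, e1, e2⟩ := noniso2_dir
  have k1 : (1 : Fin 3) - 0 = 1 := rfl
  fin_cases i <;> fin_cases l <;> first
    | exact absurd rfl h
    | (refine ⟨1, Or.inl rfl, fun ζ => ?_⟩
       simp only [Fin.zero_eta, Fin.mk_one, Fin.reduceFinMk, rot, e0, e1, e2, Complex.mul_re,
         Complex.mul_im, Complex.conj_re, Complex.conj_im]
       constructor <;> first | ring1 | linear_combination (ζ.re / 4) * h3 | linear_combination (-ζ.re / 4) * h3 | linear_combination (ζ.im / 4) * h3 | linear_combination (-ζ.im / 4) * h3)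
    | (refine ⟨-1, Or.inr rfl, fun ζ => ?_⟩
       simp only [Fin.zero_eta, Fin.mk_one, Fin.reduceFinMk, rot, e0, e1, e2, Complex.mul_re,
         Complex.mul_im, Complex.conj_re, Complex.conj_im]
       constructor <;> first | ring1 | linear_combination (ζ.re / 4) * h3 | linear_combination (-ζ.re / 4) * h3 | linear_combination (ζ.im / 4) * h3 | linear_combination (-ζ.im / 4) * h3)

/-- Both signs occur. -/
private theorem noniso2_both (i : Fin 3) (s : ℝ) (hs : s = 1 ∨ s = -1) : ∃ l, l ≠ i ∧ ∀ ζ : ℂ,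
    (rot l ζ).re = -(rot i ζ).re / 2 + s * (Real.sqrt 3 / 2) * (rot i ζ).im ∧
    (rot l ζ).im = -s * (Real.sqrt 3 / 2) * (rot i ζ).re - (rot i ζ).im / 2 := by
  have h3 : Real.sqrt 3 ^ 2 = 3 := Real.sq_sqrt (by norm_num)
  obtain ⟨e0, e1, e2⟩ := noniso2_dir
  rcases hs with rfl | rfl
  · fin_cases i
    · refine ⟨1, by decide, fun ζ => ?_⟩
      simp only [Fin.zero_eta, Fin.mk_one, Fin.reduceFinMk, rot, e0, e1, e2, Complex.mul_re,
         Complex.mul_im, Complex.conj_re, Complex.conj_im]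
      constructor <;> first | ring1 | linear_combination (ζ.re / 4) * h3 | linear_combination (-ζ.re / 4) * h3 | linear_combination (ζ.im / 4) * h3 | linear_combination (-ζ.im / 4) * h3
    · refine ⟨2, by decide, fun ζ => ?_⟩
      simp only [Fin.zero_eta, Fin.mk_one, Fin.reduceFinMk, rot, e0, e1, e2, Complex.mul_re,
         Complex.mul_im, Complex.conj_re, Complex.conj_im]
      constructor <;> first | ring1 | linear_combination (ζ.re / 4) * h3 | linear_combination (-ζ.re / 4) * h3 | linear_combination (ζ.im / 4) * h3 | linear_combination (-ζ.im / 4) * h3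
    · refine ⟨0, by decide, fun ζ => ?_⟩
      simp only [Fin.zero_eta, Fin.mk_one, Fin.reduceFinMk, rot, e0, e1, e2, Complex.mul_re,
         Complex.mul_im, Complex.conj_re, Complex.conj_im]
      constructor <;> first | ring1 | linear_combination (ζ.re / 4) * h3 | linear_combination (-ζ.re / 4) * h3 | linear_combination (ζ.im / 4) * h3 | linear_combination (-ζ.im / 4) * h3
  · fin_cases i
    · refine ⟨2, by decide, fun ζ => ?_⟩
      simp only [Fin.zero_eta, Fin.mk_one, Fin.reduceFinMk, rot, e0, e1, e2, Complex.mul_re,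
         Complex.mul_im, Complex.conj_re, Complex.conj_im]
      constructor <;> first | ring1 | linear_combination (ζ.re / 4) * h3 | linear_combination (-ζ.re / 4) * h3 | linear_combination (ζ.im / 4) * h3 | linear_combination (-ζ.im / 4) * h3
    · refine ⟨0, by decide, fun ζ => ?_⟩
      simp only [Fin.zero_eta, Fin.mk_one, Fin.reduceFinMk, rot, e0, e1, e2, Complex.mul_re,
         Complex.mul_im, Complex.conj_re, Complex.conj_im]
      constructor <;> first | ring1 | linear_combination (ζ.re / 4) * h3 | linear_combination (-ζ.re / 4) * h3 | linear_combination (ζ.im / 4) * h3 | linear_combination (-ζ.im / 4) * h3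
    · refine ⟨1, by decide, fun ζ => ?_⟩
      simp only [Fin.zero_eta, Fin.mk_one, Fin.reduceFinMk, rot, e0, e1, e2, Complex.mul_re,
         Complex.mul_im, Complex.conj_re, Complex.conj_im]
      constructor <;> first | ring1 | linear_combination (ζ.re / 4) * h3 | linear_combination (-ζ.re / 4) * h3 | linear_combination (ζ.im / 4) * h3 | linear_combination (-ζ.im / 4) * h3

private theorem noniso2_a {t x y : ℝ} (h0 : 0 < t) (h3 : t ^ 2 = 3) (hy : 0 ≤ y)
    (h : 0 < x → 3 * x ^ 2 ≤ y ^ 2) : 0 ≤ -x / 2 + 1 * (t / 2) * y := by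
  rcases le_or_gt x 0 with hx | hx
  · have := mul_nonneg h0.le hy
    linarith
  · have h1 := h hx
    have h2 : t * x ≤ y := by
      apply le_of_sq_le_sq _ hy
      nlinarith
    have h4 : t * (t * x) ≤ t * y := mul_le_mul_of_nonneg_left h2 h0.le
    nlinarith

private theorem noniso2_b {t x y : ℝ} (h0 : 0 < t) (h3 : t ^ 2 = 3) (hy : 0 ≤ y)
    (h : 0 < x → 3 * x ^ 2 ≤ y ^ 2) : 0 ≤ 2 * (y * (y - t * x)) := by
  rcases le_or_gt x 0 with hx | hx
  · have h1 : 0 ≤ t * (-x) := mul_nonneg h0.le (by linarith)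
    have h2 : 0 ≤ y - t * x := by linarith
    have := mul_nonneg hy h2
    linarith
  · have h1 := h hx
    have h2 : t * x ≤ y := by
      apply le_of_sq_le_sq _ hy
      nlinarith
    have := mul_nonneg hy (sub_nonneg.2 h2)
    linarith

private theorem noniso2_c {t x y : ℝ} (h0 : 0 < t) (h3 : t ^ 2 = 3) (hx : 0 < x)
    (hy : y ^ 2 < 3 * x ^ 2) (h1 : 0 ≤ -x / 2 + t / 2 * y) (h2 : 0 ≤ y * (y - t * x)) :
    False := by
  have h4 : 0 < y := by
    by_contra h5
    have h6 : t * y ≤ 0 := mul_nonpos_of_nonneg_of_nonpos h0.le (not_lt.1 h5)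
    linarith
  have h5 : 0 ≤ y - t * x := by
    by_contra h6
    have := mul_neg_of_pos_of_neg h4 (not_le.1 h6)
    linarith
  have h6 : (t * x) ^ 2 ≤ y ^ 2 := pow_le_pow_left₀ (mul_pos h0 hx).le (by linarith) 2
  nlinarith

/-- The open sector. -/
private theorem noniso2_open (i : Fin 3) (ζ : ℂ) : (∀ l, l ≠ i → ζ ∉ sector l) ↔
    (0 < (rot i ζ).re ∧ (rot i ζ).im ^ 2 < 3 * (rot i ζ).re ^ 2) := by
  have h3 : Real.sqrt 3 ^ 2 = 3 := Real.sq_sqrt (by norm_num)
  have h0 : 0 < Real.sqrt 3 := Real.sqrt_pos.2 (by norm_num)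
  constructor
  · intro h
    by_contra hcon
    have hcon' : 0 < (rot i ζ).re → 3 * (rot i ζ).re ^ 2 ≤ (rot i ζ).im ^ 2 := by
      intro h1
      by_contra h2
      exact hcon ⟨h1, not_le.1 h2⟩
    rcases le_total 0 (rot i ζ).im with hy | hy
    · obtain ⟨l, hl, hl'⟩ := noniso2_both i 1 (Or.inl rfl)
      apply h l hl
      obtain ⟨e1, e2⟩ := hl' ζ
      unfold sector
      refine ⟨?_, ?_⟩
      · rw [e1]
        exact noniso2_a h0 h3 hy hcon'
      · rw [e1, e2]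
        have := noniso2_b h0 h3 hy hcon'
        have key : 3 * (-(rot i ζ).re / 2 + 1 * (Real.sqrt 3 / 2) * (rot i ζ).im) ^ 2 -
            (-1 * (Real.sqrt 3 / 2) * (rot i ζ).re - (rot i ζ).im / 2) ^ 2 =
            2 * ((rot i ζ).im * ((rot i ζ).im - Real.sqrt 3 * (rot i ζ).re)) := by
          linear_combination (3 / 4 * (rot i ζ).im ^ 2 - (rot i ζ).re ^ 2 / 4) * h3
        linarith
    · obtain ⟨l, hl, hl'⟩ := noniso2_both i (-1) (Or.inr rfl)
      apply h l hl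
      obtain ⟨e1, e2⟩ := hl' ζ
      have hcon2 : 0 < (rot i ζ).re → 3 * (rot i ζ).re ^ 2 ≤ (-(rot i ζ).im) ^ 2 := by
        intro h1
        rw [neg_sq]
        exact hcon' h1
      unfold sector
      refine ⟨?_, ?_⟩
      · rw [e1]
        have := noniso2_a h0 h3 (neg_nonneg.2 hy) hcon2
        linarith
      · rw [e1, e2]
        have := noniso2_b h0 h3 (neg_nonneg.2 hy) hcon2
        have key : 3 * (-(rot i ζ).re / 2 + -1 * (Real.sqrt 3 / 2) * (rot i ζ).im) ^ 2 -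
            (- -1 * (Real.sqrt 3 / 2) * (rot i ζ).re - (rot i ζ).im / 2) ^ 2 =
            2 * (-(rot i ζ).im * (-(rot i ζ).im - Real.sqrt 3 * (rot i ζ).re)) := by
          linear_combination (3 / 4 * (rot i ζ).im ^ 2 - (rot i ζ).re ^ 2 / 4) * h3
        linarith
  · rintro ⟨hx, hy⟩ l hl hm
    obtain ⟨s, hs, hl'⟩ := noniso2_rot i l hl
    obtain ⟨e1, e2⟩ := hl' ζ
    obtain ⟨m1, m2⟩ := hm
    rw [e1] at m1
    rw [e1, e2] at m2
    rcases hs with rfl | rfl
    · refine noniso2_c h0 h3 hx hy ?_ ?_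
      · linarith
      · nlinarith [m2]
    · refine noniso2_c (y := -(rot i ζ).im) h0 h3 hx (by rw [neg_sq]; exact hy) ?_ ?_
      · linarith
      · nlinarith [m2]

/-- The points of the open sector. -/
private def noniso2_O (i : Fin 3) : Set C3 := {x | x ∈ Xt ∧ ∀ l, l ≠ i → GG x ∉ sector l}

private theorem noniso2_sub (i : Fin 3) {ε : ℝ} (hε : 0 < ε) : RR i ε ⊆ noniso2_O i := by
  rintro x ⟨hx, h1, h2⟩
  refine ⟨hx, (noniso2_open i _).2 ?_⟩
  have h3 : 0 < ε ^ 2 := by positivity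
  constructor
  · rcases h1.lt_or_eq with h | h
    · exact h
    · rw [← h] at h2
      nlinarith [sq_nonneg (rot i (GG x)).im]
  · linarith

private theorem noniso2_exh (i : Fin 3) {K : Set C3} (hK : IsCompact K)
    (hKO : K ⊆ noniso2_O i) {δ : ℝ} (hδ : 0 < δ) : ∃ ε, 0 < ε ∧ ε < δ ∧ K ⊆ RR i ε := by
  rcases K.eq_empty_or_nonempty with rfl | hne
  · exact ⟨δ / 2, by linarith, by linarith, empty_subset _⟩
  have hr : Continuous fun x : C3 => rot i (GG x) :=
    continuous_const.mul contDiff_GG.continuous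
  have hc : Continuous fun x : C3 => 3 * (rot i (GG x)).re ^ 2 - (rot i (GG x)).im ^ 2 :=
    (continuous_const.mul ((Complex.continuous_re.comp hr).pow 2)).sub
      ((Complex.continuous_im.comp hr).pow 2)
  obtain ⟨x0, hx0, hmin⟩ := hK.exists_isMinOn hne hc.continuousOn
  have h0 := (noniso2_open i _).1 (hKO hx0).2
  set m := 3 * (rot i (GG x0)).re ^ 2 - (rot i (GG x0)).im ^ 2 with hm
  have hmpos : 0 < m := by
    rw [hm]
    linarith [h0.2]
  refine ⟨min (δ / 2) (Real.sqrt (m / 3)), lt_min (by linarith) (Real.sqrt_pos.2 (by linarith)),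
    (min_le_left _ _).trans_lt (by linarith), ?_⟩
  intro x hx
  have h1 := (noniso2_open i _).1 (hKO hx).2
  have h2 : m ≤ 3 * (rot i (GG x)).re ^ 2 - (rot i (GG x)).im ^ 2 := hmin hx
  refine ⟨(hKO hx).1, h1.1.le, ?_⟩
  have h3 : (min (δ / 2) (Real.sqrt (m / 3))) ^ 2 ≤ m / 3 := by
    calc (min (δ / 2) (Real.sqrt (m / 3))) ^ 2 ≤ (Real.sqrt (m / 3)) ^ 2 :=
          pow_le_pow_left₀ (le_min (by linarith) (Real.sqrt_nonneg _)) (min_le_right _ _) 2
      _ = m / 3 := Real.sq_sqrt (by linarith)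
  linarith

private theorem noniso2_act5 (x : C3) : act (act (act (act (act x)))) = x := act_five x

/-- Comparison of the weights. -/
theorem weights_of_homeo (ψ χ : C3 → C3) (hψ : ContinuousOn ψ Xt) (hχ : ContinuousOn χ Xt)
    (hψm : MapsTo ψ Xt Xt) (hχm : MapsTo χ Xt Xt) (h1 : ∀ x ∈ Xt, χ (ψ x) = x)
    (h2 : ∀ x ∈ Xt, ψ (χ x) = x) (hact : ∀ x ∈ Xt, ψ (act x) = act^[3] (ψ x))
    (σ : Equiv.Perm (Fin 3)) (hσ : ∀ i, ∀ x ∈ Xt, GG (ψ x) ∈ sector (σ i) ↔ GG x ∈ sector i)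
    (i : Fin 3) :
    Circle.exp (4 * Real.pi / 5) ^ (3 * ee (σ i)) = Circle.exp (4 * Real.pi / 5) ^ ee i ∨
      Circle.exp (4 * Real.pi / 5) ^ (3 * ee (σ i)) =
        (Circle.exp (4 * Real.pi / 5) ^ ee i)⁻¹ := by
  set c := Circle.exp (4 * Real.pi / 5) with hc
  set j := σ i with hj
  obtain ⟨a1, ha1, hgi⟩ := pieces_gen i
  obtain ⟨a2, ha2, hgj⟩ := pieces_gen j
  obtain ⟨a3, ha3, hin⟩ := incl_gen i
  have hψO : ∀ x ∈ noniso2_O i, ψ x ∈ noniso2_O j := by
    rintro x ⟨hx, hx'⟩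
    refine ⟨hψm hx, fun l hl hm => ?_⟩
    have h3 : l = σ (σ.symm l) := (σ.apply_symm_apply l).symm
    rw [h3, hσ _ x hx] at hm
    refine hx' _ ?_ hm
    intro h4
    apply hl
    rw [h3, h4]
  have hχO : ∀ y ∈ noniso2_O j, χ y ∈ noniso2_O i := by
    rintro y ⟨hy, hy'⟩
    refine ⟨hχm hy, fun l hl hm => ?_⟩
    rw [← hσ l _ (hχm hy), h2 y hy] at hm
    refine hy' _ ?_ hm
    intro h4
    exact hl (σ.injective h4)
  obtain ⟨ε1, hε1, hε1a, hε1b⟩ : ∃ ε1 : ℝ, 0 < ε1 ∧ ε1 < a1 ∧ ε1 < a3 :=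
    ⟨min a1 a3 / 2, by positivity,
      by have := min_le_left a1 a3; linarith [lt_min ha1 ha3],
      by have := min_le_right a1 a3; linarith [lt_min ha1 ha3]⟩
  obtain ⟨θ, hθ, hθw, hpre, hne⟩ := hgi ε1 hε1 hε1a
  have hRX : ∀ (k : Fin 3) (ε : ℝ), RR k ε ⊆ Xt := fun k ε x hx => hx.1
  have hψR : ContinuousOn ψ (RR i ε1) := hψ.mono (hRX _ _)
  obtain ⟨ε2, hε2, hε2a, hsub2⟩ := noniso2_exh j ((isCompact_RR i ε1).image_of_continuousOn hψR)
    (by
      rintro _ ⟨x, hx, rfl⟩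
      exact hψO x (noniso2_sub i hε1 hx)) ha2
  obtain ⟨θ', hθ', hθw', -, -⟩ := hgj ε2 hε2 hε2a
  have hχR : ContinuousOn χ (RR j ε2) := hχ.mono (hRX _ _)
  obtain ⟨ε3, hε3, hε3a, hsub3⟩ := noniso2_exh i ((isCompact_RR j ε2).image_of_continuousOn hχR)
    (by
      rintro _ ⟨x, hx, rfl⟩
      exact hχO x (noniso2_sub j hε2 hx)) hε1
  obtain ⟨θ'', hθ'', -, -, -⟩ := hgi ε3 hε3 (hε3a.trans hε1a)
  have hm2 : MapsTo ψ (RR i ε1) (RR j ε2) := fun x hx => hsub2 ⟨x, hx, rfl⟩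
  have hm3 : MapsTo χ (RR j ε2) (RR i ε3) := fun x hx => hsub3 ⟨x, hx, rfl⟩
  obtain ⟨s, hs, w, hw, hsw⟩ := hin ε1 ε3 hε3 hε3a.le hε1b θ θ'' hθ hθ''
  obtain ⟨n, u, hu, hnu⟩ := hθ.2.1 (fun x => θ' (ψ x)) (hθ'.1.comp hψR hm2)
  obtain ⟨m, v, hv, hmv⟩ := hθ'.2.1 (fun x => θ'' (χ x)) (hθ''.1.comp hχR hm3)
  have hvψ : ContinuousOn (fun x => v (ψ x)) (RR i ε1) := hv.comp hψR hm2
  have hz : n * m - s = 0 := by
    refine hθ.2.2 (n * m - s) (fun x => w x - (m * u x + v (ψ x))) (by fun_prop) fun x hx => ?_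
    have e1 : θ'' x = (θ x ^ n * Circle.exp (u x)) ^ m * Circle.exp (v (ψ x)) := by
      have e2 := hmv (ψ x) (hm2 hx)
      rw [h1 x hx.1] at e2
      have e3 := hnu x hx
      rw [e2, e3]
    rw [hsw x hx, mul_zpow, ← zpow_mul, ← Circle.exp_intCast_mul] at e1
    rw [zpow_sub, Circle.exp_sub, Circle.exp_add, ← div_eq_mul_inv, div_eq_div_iff_mul_eq_mul]
    calc θ x ^ (n * m) * (Circle.exp (m * u x) * Circle.exp (v (ψ x)))
        = θ x ^ (n * m) * Circle.exp (m * u x) * Circle.exp (v (ψ x)) := by rw [mul_assoc]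
      _ = θ x ^ s * Circle.exp (w x) := e1.symm
      _ = Circle.exp (w x) * θ x ^ s := mul_comm _ _
  have hn : n = 1 ∨ n = -1 := by
    have h4 : n * m = s := by linarith
    rcases hs with rfl | rfl
    · exact Int.isUnit_iff.1 (IsUnit.of_mul_eq_one _ h4)
    · apply Int.isUnit_iff.1
      apply IsUnit.of_mul_eq_one (-m)
      rw [mul_neg, h4]
      rfl
  have hd := weight_eq hpre hne act contDiff_act.continuous.continuousOn (inv_RR i ε1).2
    (fun x _ => noniso2_act5 x) θ (fun x => θ' (ψ x)) (c ^ ee i) (c ^ (3 * ee j)) n u hu hθw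
    (fun x hx => by
      have k1 := hm2 hx
      have k2 := (inv_RR j ε2).2 _ k1
      have k3 := (inv_RR j ε2).2 _ k2
      have e1 : ψ (act x) = act (act (act (ψ x))) := hact x hx.1
      rw [e1, hθw' _ k3, hθw' _ k2, hθw' _ k1, ← mul_assoc, ← mul_assoc]
      congr 1
      rw [mul_comm 3 (ee j), pow_mul]
      rw [← hc]
      group)
    hnu
  rcases hn with rfl | rfl
  · left
    rw [hd, zpow_one]
  · right
    rw [hd, zpow_neg, zpow_one]

end Pool.Agent.Tri
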