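import Mathlib
import Pool.Agent.H.MP_5efd29_gt.LensB

open scoped ContDiff Topology
open Set

noncomputable section

namespace Pool.Agent.Tri

/-- The group of the covering. -/
abbrev LensgG : Type := Multiplicative (ZMod 5)

theorem lensg_iter_mod (n : ℕ) (x : C3) : act^[n % 5] x = act^[n] x := by
  have h2 : act^[5] = id := funext act_five
  conv_rhs => rw [← Nat.mod_add_div n 5, Function.iterate_add_apply, Function.iterate_mul, h2,
    Function.iterate_id]
  rfl

/-- The action of the cyclic group on an invariant set. -/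
@[reducible] def lensgAct {M : Set C3} (hM : Inv M) : MulAction LensgG M where
  smul g x := ⟨act^[(Multiplicative.toAdd g).val] x.1, hM.iterate x.2 _⟩
  one_smul x := by
    apply Subtype.ext
    show act^[(0 : ZMod 5).val] x.1 = x.1
    rw [ZMod.val_zero]
    rfl
  mul_smul g h x := by
    apply Subtype.ext
    show act^[(Multiplicative.toAdd g + Multiplicative.toAdd h).val] x.1 =
      act^[(Multiplicative.toAdd g).val] (act^[(Multiplicative.toAdd h).val] x.1)
    rw [ZMod.val_add, lensg_iter_mod, Function.iterate_add_apply]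

/-- The restriction of `JJ`. -/
def lensgP (M : Set C3) (x : M) : (JJ '' M : Set C5) := ⟨JJ x.1, mem_image_of_mem JJ x.2⟩

theorem lensg_cont (M : Set C3) : Continuous (lensgP M) :=
  (contDiff_JJ.continuous.comp continuous_subtype_val).subtype_mk _

theorem lensg_open {M : Set C3} (hM : Inv M) : IsOpenMap (lensgP M) := by
  apply IsOpenMap.of_nhds_le
  intro x S hS
  rw [Filter.mem_map, nhds_subtype_eq_comap, Filter.mem_comap] at hS
  obtain ⟨U, hU, hUS⟩ := hS
  obtain ⟨O, hO, hOa⟩ := JJ_proper hM x.2 hU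
  rw [nhds_subtype_eq_comap, Filter.mem_comap]
  refine ⟨O, hO, ?_⟩
  intro a ha
  obtain ⟨y, ⟨hyM, hyU⟩, hya⟩ := hOa a.1 ⟨a.2, ha⟩
  have h1 : lensgP M ⟨y, hyM⟩ = a := Subtype.ext hya
  have h2 : (⟨y, hyM⟩ : M) ∈ lensgP M ⁻¹' S := hUS hyU
  rw [← h1]
  exact h2

theorem lensg_covering {M : Set C3} (hM : Inv M) :
    letI := lensgAct hM
    IsQuotientCoveringMap (lensgP M) LensgG := by
  let _ := lensgAct hM
  have hsm : ∀ (g : LensgG) (x : M), (g • x).1 = act^[(Multiplicative.toAdd g).val] x.1 :=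
    fun _ _ => rfl
  have hsurj : Function.Surjective (lensgP M) := by
    rintro ⟨a, x, hx, rfl⟩
    exact ⟨⟨x, hx⟩, rfl⟩
  have hq : Topology.IsQuotientMap (lensgP M) :=
    (lensg_open hM).isQuotientMap (lensg_cont M) hsurj
  have hc : ContinuousConstSMul LensgG M := by
    constructor
    intro g
    refine Continuous.subtype_mk ?_ _
    exact (contDiff_act.continuous.iterate _).comp continuous_subtype_val
  refine { hq, hc with apply_eq_iff_mem_orbit := ?_, disjoint := ?_ }
  · intro e₁ e₂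
    constructor
    · intro h
      have h1 : JJ e₂.1 = JJ e₁.1 := congrArg Subtype.val h.symm
      obtain ⟨k, hk, hk1⟩ := JJ_fibre (hM.1 e₂.2) (hM.1 e₁.2) h1
      refine ⟨Multiplicative.ofAdd (k : ZMod 5), Subtype.ext ?_⟩
      show act^[(Multiplicative.toAdd (Multiplicative.ofAdd (k : ZMod 5))).val] e₂.1 = e₁.1
      rw [toAdd_ofAdd, ZMod.val_natCast, lensg_iter_mod, hk1]
    · rintro ⟨g, rfl⟩
      apply Subtype.ext
      exact lensb_JJ_iterate _ _
  · intro e
    obtain ⟨O, s, U, hO, hU, heU, hs, hsO⟩ := JJ_section (hM.1 e.2)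
    refine ⟨Subtype.val ⁻¹' U, (hU.preimage continuous_subtype_val).mem_nhds heU, ?_⟩
    rintro g ⟨y, ⟨x, hx, rfl⟩, hy⟩
    have h1 : (g • x).1 = x.1 := by
      rw [← (hsO _ hy).2, ← (hsO _ hx).2]
      congr 1
      exact lensb_JJ_iterate _ _
    rw [hsm] at h1
    have h2 := act_free (hM.1 x.2) h1
    have h3 : (Multiplicative.toAdd g).val < 5 := ZMod.val_lt _
    have h4 : (Multiplicative.toAdd g).val = 0 := by omega
    rw [ZMod.val_eq_zero] at h4
    exact h4

/-- Lift of a homotopy starting at the identity to the five-fold covering. -/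
theorem lift_isotopy {M : Set C3} (hM : Inv M) (H : ℝ × C5 → C5)
    (hH : ContinuousOn H (Icc (0 : ℝ) 1 ×ˢ (JJ '' M)))
    (hmap : ∀ t ∈ Icc (0 : ℝ) 1, ∀ a ∈ JJ '' M, H (t, a) ∈ JJ '' M)
    (h0 : ∀ a ∈ JJ '' M, H (0, a) = a) :
    ∃ φ : C3 → C3, ContinuousOn φ M ∧ MapsTo φ M M ∧ (∀ x ∈ M, JJ (φ x) = H (1, JJ x)) ∧
      ∀ x ∈ M, φ (act x) = act (φ x) := by
  let _ := lensgAct hM
  have hQ := lensg_covering hM
  have cov : IsCoveringMap (lensgP M) := hQ.isCoveringMap
  have := hQ.toContinuousConstSMul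
  have hHc : Continuous (fun q : unitInterval × M =>
      (⟨H ((q.1 : ℝ), JJ q.2.1), hmap _ q.1.2 _ (mem_image_of_mem JJ q.2.2)⟩ :
        (JJ '' M : Set C5))) := by
    refine Continuous.subtype_mk ?_ _
    have hc : Continuous (fun q : unitInterval × M => ((q.1 : ℝ), JJ q.2.1)) :=
      (continuous_subtype_val.comp continuous_fst).prodMk
        ((contDiff_JJ.continuous.comp continuous_subtype_val).comp continuous_snd)
    exact hH.comp_continuous hc fun q => ⟨q.1.2, mem_image_of_mem JJ q.2.2⟩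
  let H' : C(unitInterval × M, (JJ '' M : Set C5)) := ⟨_, hHc⟩
  have H0 : ∀ a : M, H' (0, a) = lensgP M ((ContinuousMap.id M) a) := by
    intro a
    apply Subtype.ext
    exact h0 _ (mem_image_of_mem JJ a.2)
  obtain ⟨K, hK⟩ : ∃ K, K = cov.liftHomotopy H' (ContinuousMap.id M) H0 := ⟨_, rfl⟩
  have hKp : lensgP M ∘ K = H' := by rw [hK]; exact cov.liftHomotopy_lifts H' _ H0
  have hK0 : ∀ a, K (0, a) = a := by
    intro a
    rw [hK]
    exact cov.liftHomotopy_zero H' _ H0 a
  have hKe : ∀ (g : LensgG) (t : unitInterval) (a : M), K (t, g • a) = g • K (t, a) := by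
    intro g t a
    have h1 : (fun q : unitInterval × M => g⁻¹ • K (q.1, g • q.2)) = K := by
      rw [hK]
      refine (cov.eq_liftHomotopy_iff H0 _).2 ⟨?_, ?_, ?_⟩
      · intro a
        rw [← hK]
        have h3 : Continuous (fun x : unitInterval => K (x, g • a)) :=
          K.continuous.comp (continuous_id.prodMk continuous_const)
        exact h3.const_smul g⁻¹
      · rw [← hK]
        funext q
        show lensgP M (g⁻¹ • K (q.1, g • q.2)) = H' q
        rw [hQ.map_smul]
        have h2 : lensgP M (K (q.1, g • q.2)) = H' (q.1, g • q.2) := congrFun hKp _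
        rw [h2]
        apply Subtype.ext
        show H ((q.1 : ℝ), JJ (g • q.2).1) = H ((q.1 : ℝ), JJ q.2.1)
        congr 2
        exact lensb_JJ_iterate _ _
      · intro a
        rw [← hK]
        show g⁻¹ • K (0, g • a) = a
        rw [hK0, inv_smul_smul]
    have h2 := congrFun h1 (t, a)
    change g⁻¹ • K (t, g • a) = K (t, a) at h2
    rw [← h2, smul_inv_smul]
  classical
  refine ⟨fun x => if h : x ∈ M then (K (1, ⟨x, h⟩)).1 else x, ?_, ?_, ?_, ?_⟩
  · rw [continuousOn_iff_continuous_domRestrict]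
    have h1 : M.domRestrict (fun x => if h : x ∈ M then (K (1, ⟨x, h⟩)).1 else x) =
        fun x : M => (K (1, x)).1 := by
      funext x
      rw [domRestrict_apply, dif_pos x.2]
    rw [h1]
    exact continuous_subtype_val.comp (K.continuous.comp (continuous_const.prodMk continuous_id))
  · intro x hx
    show (if h : x ∈ M then (K (1, ⟨x, h⟩)).1 else x) ∈ M
    rw [dif_pos hx]
    exact (K (1, ⟨x, hx⟩)).2
  · intro x hx
    show JJ (if h : x ∈ M then (K (1, ⟨x, h⟩)).1 else x) = H (1, JJ x)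
    rw [dif_pos hx]
    have h2 : lensgP M (K (1, ⟨x, hx⟩)) = H' (1, ⟨x, hx⟩) := congrFun hKp _
    exact congrArg Subtype.val h2
  · intro x hx
    show (if h : act x ∈ M then (K (1, ⟨act x, h⟩)).1 else act x) =
      act (if h : x ∈ M then (K (1, ⟨x, h⟩)).1 else x)
    rw [dif_pos hx, dif_pos (hM.2 x hx)]
    have h1 := hKe (Multiplicative.ofAdd 1) 1 ⟨x, hx⟩
    exact congrArg Subtype.val h1

end Pool.Agent.Tri
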