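import Mathlib
import Pool.Agent.H.MP_5efd29_gt.NonIso2
import Pool.Agent.H.MP_5efd29_gt.LensG
import Pool.Agent.H.MP_5efd29_gt.RegX

open scoped ContDiff Topology
open Set

noncomputable section

namespace Pool.Agent.Tri

/-- A continuous bijection of a compact set onto itself has a continuous inverse. -/
theorem noniso3_inverse {A : Set C3} (hA : IsCompact A) {f : C3 → C3} (hf : ContinuousOn f A)
    (hm : MapsTo f A A) (hi : InjOn f A) (hs : SurjOn f A A) :
    ∃ g : C3 → C3, ContinuousOn g A ∧ MapsTo g A A ∧ (∀ x ∈ A, g (f x) = x) ∧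
      ∀ x ∈ A, f (g x) = x := by
  classical
  have hAc : CompactSpace A := isCompact_iff_compactSpace.1 hA
  have hb : Function.Bijective (hm.restrict f A A) := by
    constructor
    · intro x y h
      exact Subtype.ext (hi x.2 y.2 (congrArg Subtype.val h))
    · intro y
      obtain ⟨x, hx, hxy⟩ := hs y.2
      exact ⟨⟨x, hx⟩, Subtype.ext hxy⟩
  have hc : Continuous (Equiv.ofBijective _ hb) := hf.mapsToRestrict hm
  let e : A ≃ₜ A := Continuous.homeoOfEquivCompactToT2 (f := Equiv.ofBijective _ hb) hc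
  have he : ∀ x : A, ((e x : A) : C3) = f x.1 := fun x => rfl
  refine ⟨fun x => if h : x ∈ A then (e.symm ⟨x, h⟩ : A).1 else x, ?_, ?_, ?_, ?_⟩
  · rw [continuousOn_iff_continuous_domRestrict]
    have h1 : A.domRestrict (fun x => if h : x ∈ A then (e.symm ⟨x, h⟩ : A).1 else x) =
        fun x : A => (e.symm x : A).1 := by
      funext x
      rw [Set.domRestrict_apply, dif_pos x.2]
    rw [h1]
    exact continuous_subtype_val.comp e.symm.continuous
  · intro x hx
    simp only [dif_pos hx]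
    exact (e.symm ⟨x, hx⟩).2
  · intro x hx
    have h1 := hm hx
    simp only [dif_pos h1]
    have h2 : (⟨f x, h1⟩ : A) = e ⟨x, hx⟩ := Subtype.ext rfl
    rw [h2, e.symm_apply_apply]
  · intro x hx
    simp only [dif_pos hx]
    rw [← he, e.apply_symm_apply]

theorem noniso3_mem {i : Fin 3} {x : C3} (hx : x ∈ Xt) :
    JJ x ∈ T1 i ↔ GG x ∈ sector i := by
  constructor
  · rintro ⟨y, ⟨hy, hy1⟩, hy2⟩
    obtain ⟨k, _, hk⟩ := JJ_fibre (inv_Xt.1 hy) (inv_Xt.1 hx) hy2
    have h1 : ∀ k : ℕ, GG (act^[k] y) = GG y := by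
      intro k
      induction k with
      | zero => rfl
      | succ k ih => rw [Function.iterate_succ_apply', GG_act, ih]
    rw [hk, h1]
    exact hy1
  · intro h
    exact ⟨x, ⟨hx, h⟩, rfl⟩

theorem noniso3_T1_subset (i : Fin 3) : T1 i ⊆ XX := image_mono fun _ hx => hx.1

/-- The non-isotopy. -/
theorem nonIso {P Q : C3 → C3} (hP : ContDiff ℝ ∞ P) (hQ : ContDiff ℝ ∞ Q)
    (hQP : ∀ x, Q (P x) = x) (hPQ : ∀ x, P (Q x) = x) (hPX : ∀ x, PhiX (P x) = PhiX x)
    (hPa : ∀ x, P (act x) = act (act (P x))) {Φ Ψ : C5 → C5} (hΦ : DiffeoPair Φ Ψ XX XX)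
    (hΦP : ∀ x, PhiX x = 0 → Φ (JJ x) = JJ (P x)) (φ : C5 → C5) (hφ : IsotopicToId XX φ)
    (σ : Equiv.Perm (Fin 3)) : ¬ ∀ i, φ '' T1 i = Φ '' T1 (σ i) := by
  intro hT
  obtain ⟨H, hH, hHd, hH0, hH1⟩ := hφ
  -- the lift
  obtain ⟨ph, hphc, hphm, hphJ, hpha⟩ := lift_isotopy inv_Xt H hH.continuousOn
    (fun t ht a ha => by
      obtain ⟨ψ, hψ⟩ := hHd t ht
      exact hψ.2.2.1 ha) hH0
  have hinj : ∀ a ∈ XX, ∀ b ∈ XX, H (1, a) = H (1, b) → a = b := by
    intro a ha b hb hab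
    obtain ⟨ψ, hψ⟩ := hHd 1 ⟨zero_le_one, le_refl 1⟩
    have h1 := hψ.2.2.2.2.1 a ha
    have h2 := hψ.2.2.2.2.1 b hb
    simp only at h1 h2
    rw [← h1, ← h2, hab]
  have hphk : ∀ x ∈ Xt, ∀ k : ℕ, ph (act^[k] x) = act^[k] (ph x) := by
    intro x hx k
    induction k with
    | zero => rfl
    | succ k ih =>
      rw [Function.iterate_succ_apply', hpha _ (inv_Xt.iterate hx k), ih,
        Function.iterate_succ_apply']
  have hphi : InjOn ph Xt := by
    intro x hx y hy hxy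
    have h1 : JJ x = JJ y := by
      apply hinj _ (mem_image_of_mem JJ hx) _ (mem_image_of_mem JJ hy)
      rw [← hphJ x hx, ← hphJ y hy, hxy]
    obtain ⟨k, hk, hk1⟩ := JJ_fibre (inv_Xt.1 hx) (inv_Xt.1 hy) h1
    have h2 : act^[k] (ph x) = ph x := by
      rw [← hphk x hx k, ← hk1, hxy]
    have h3 := act_free (inv_Xt.1 (hphm hx)) h2
    have h4 : k = 0 := by omega
    rw [hk1, h4]
    rfl
  have hphs : SurjOn ph Xt Xt := by
    intro y hy
    obtain ⟨ψ, hψ⟩ := hHd 1 ⟨zero_le_one, le_refl 1⟩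
    have h1 := hψ.2.2.2.1 (mem_image_of_mem JJ hy)
    have h2 := hψ.2.2.2.2.2 (JJ y) (mem_image_of_mem JJ hy)
    obtain ⟨x, hx, hx1⟩ := h1
    have h3 : JJ (ph x) = JJ y := by
      rw [hphJ x hx, hx1]
      exact h2
    obtain ⟨k, _, hk1⟩ := JJ_fibre (inv_Xt.1 (hphm hx)) (inv_Xt.1 hy) h3
    exact ⟨act^[k] x, inv_Xt.iterate hx k, by rw [hphk x hx k, hk1]⟩
  obtain ⟨pi', hpic, hpim, hpi1, hpi2⟩ := noniso3_inverse isCompact_Xt hphc hphm hphi hphs
  -- the map Q
  have hPm : ∀ x ∈ Xt, P x ∈ Xt := fun x hx => (hPX x).trans hx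
  have hQm : ∀ x ∈ Xt, Q x ∈ Xt := fun x hx => by
    have h1 := hPX (Q x)
    rw [hPQ] at h1
    exact h1.symm.trans hx
  have hQa : ∀ x, Q (act x) = act^[3] (Q x) := by
    intro x
    have h1 : P (act^[3] (Q x)) = act x := by
      have h2 : ∀ k : ℕ, P (act^[k] (Q x)) = act^[2 * k] x := by
        intro k
        induction k with
        | zero =>
          show P (Q x) = x
          exact hPQ x
        | succ k ih =>
          rw [Function.iterate_succ_apply', hPa, ih, mul_add, mul_one,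
            Function.iterate_add_apply, ← Function.iterate_succ_apply' act,
            ← Function.iterate_succ_apply' act, ← Function.iterate_add_apply]
      rw [h2, lensb_act_mod (by norm_num)]
    rw [← h1, hQP]
  -- the sector condition
  have hsec : ∀ i, ∀ x ∈ Xt, GG (Q (ph x)) ∈ sector (σ i) ↔ GG x ∈ sector i := by
    intro i x hx
    have hy : Q (ph x) ∈ Xt := hQm _ (hphm hx)
    have hJ : Φ (JJ (Q (ph x))) = φ (JJ x) := by
      rw [hΦP _ hy, hPQ, hphJ x hx]
      exact hH1 _ (mem_image_of_mem JJ hx)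
    rw [← noniso3_mem hy, ← noniso3_mem hx]
    constructor
    · intro h
      have h1 : φ (JJ x) ∈ Φ '' T1 (σ i) := ⟨_, h, hJ⟩
      rw [← hT i] at h1
      obtain ⟨a, ha, ha1⟩ := h1
      have h2 : a = JJ x := by
        apply hinj _ (noniso3_T1_subset i ha) _ (mem_image_of_mem JJ hx)
        rw [hH1 _ (noniso3_T1_subset i ha), ha1]
        exact (hH1 _ (mem_image_of_mem JJ hx)).symm
      rwa [h2] at ha
    · intro h
      have h1 : φ (JJ x) ∈ φ '' T1 i := mem_image_of_mem φ h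
      rw [hT i] at h1
      obtain ⟨a, ha, ha1⟩ := h1
      have h2 : a = JJ (Q (ph x)) := by
        have h3 := hΦ.2.2.2.2.1 a (noniso3_T1_subset _ ha)
        have h4 := hΦ.2.2.2.2.1 _ (mem_image_of_mem JJ hy)
        rw [← h3, ← h4, hJ, ha1]
      rwa [h2] at ha
  refine weights_absurd σ fun i => ?_
  refine weights_of_homeo (fun x => Q (ph x)) (fun x => pi' (P x)) ?_ ?_ ?_ ?_ ?_ ?_ ?_ σ hsec i
  · exact hQ.continuous.comp_continuousOn hphc
  · exact hpic.comp hP.continuous.continuousOn hPm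
  · exact fun x hx => hQm _ (hphm hx)
  · exact fun x hx => hpim (hPm x hx)
  · intro x hx
    show pi' (P (Q (ph x))) = x
    rw [hPQ, hpi1 x hx]
  · intro x hx
    show Q (ph (pi' (P x))) = x
    rw [hpi2 _ (hPm x hx), hQP]
  · intro x hx
    show Q (ph (act x)) = act^[3] (Q (ph x))
    rw [hpha x hx, hQa]

end Pool.Agent.Tri
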