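import Mathlib
import Pool.Agent.H.MP_5efd29_gt.Setup
import Pool.Agent.H.MP_5efd29_gt.Defs

open scoped ContDiff Topology
open Set

noncomputable section

namespace Pool.Agent.Tri

/-! ### Coordinates on the quotient -/

def rz (h : ℝ) : ℝ := Real.sqrt ((1 - h) / 2)

def rw' (h : ℝ) : ℝ := Real.sqrt ((1 + h) / 2)

/-- The point of the quotient with height `h`, phases `a`, `b` and last coordinate `ξ`. -/
def jc (h : ℝ) (a b : Circle) (ξ : ℂ) : C5 :=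
  ((rz h : ℂ) ^ 5 * ((a : ℂ) * (b : ℂ) ^ 2), (rw' h : ℂ) ^ 5 * ((a : ℂ) ^ 2 * (starRingEnd ℂ) (b : ℂ)),
    (rz h : ℂ) * (rw' h : ℂ) ^ 2 * (a : ℂ), (rz h : ℂ) ^ 2 * (rw' h : ℂ) * (b : ℂ), ξ)

/-- The radius function. -/
def rc (h : ℝ) (a b : Circle) : ℝ :=
  h ^ 2 + 1 / 100 - cc h * bt (2 - (a : ℂ).re - (b : ℂ).re)

/-- The distances from the three curves. -/
def vc (k : Fin 3) (a b : Circle) : ℝ := ![1 - (b : ℂ).re, 1 - ((a : ℂ) * (b : ℂ)).re, 1 - (a : ℂ).re] k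

def lamc (k : Fin 3) (h : ℝ) (a b : Circle) : ℝ := eta h * Lam (vc k a b)

/-- The sum of the two functions different from `lamc k`. -/
def Lc (k : Fin 3) (h : ℝ) (a b : Circle) : ℝ := ∑ l, if l = k then 0 else lamc l h a b

/-- The last coordinate on the main part of the handlebody. -/
def xp (k : Fin 3) (h : ℝ) (a b : Circle) : ℂ :=
  (∑ l, if l = k then (0 : ℂ) else (lamc l h a b : ℂ) * dir l) -
    (((-Lc k h a b + Real.sqrt (4 * rc h a b - 3 * Lc k h a b ^ 2)) / 2 : ℝ) : ℂ) * dir k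

/-- The main part of the handlebody. -/
def AAc (k : Fin 3) : Set C5 :=
  {c | ∃ (h : ℝ) (a b : Circle), |h| ≤ 1 ∧ Lc k h a b ^ 2 ≤ rc h a b ∧ c = jc h a b (xp k h a b)}

/-- Its boundary. -/
def SAc (k : Fin 3) : Set C5 :=
  {c | ∃ (h : ℝ) (a b : Circle), |h| ≤ 1 ∧ rc h a b = Lc k h a b ^ 2 ∧ c = jc h a b (xp k h a b)}

/-- The last coordinate on the handle. -/
def xq (k : Fin 3) (h : ℝ) (a b : Circle) : ℂ := (Real.sqrt (rc h a b) : ℂ) * dir k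

/-- The handle. -/
def Qc (k : Fin 3) : Set C5 :=
  {c | ∃ (h : ℝ) (a b : Circle), |h| ≤ 1 / 8 ∧ vc k a b ≤ 1 / 1000 ∧ 0 ≤ rc h a b ∧
    rc h a b ≤ lamc k h a b ^ 2 ∧ c = jc h a b (xq k h a b)}

/-- The ends of the handle. -/
def Qends (k : Fin 3) : Set C5 :=
  {c | ∃ (h : ℝ) (a b : Circle), |h| ≤ 1 / 8 ∧ vc k a b ≤ 1 / 1000 ∧ rc h a b = 0 ∧ c = jc h a b 0}

/-- The interiors of the ends. -/
def QendsInt (k : Fin 3) : Set C5 :=
  {c | ∃ (h : ℝ) (a b : Circle), |h| < 1 / 8 ∧ vc k a b < 1 / 1000 ∧ rc h a b = 0 ∧ c = jc h a b 0}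

/-- The side of the handle. -/
def Qside (k : Fin 3) : Set C5 :=
  {c | ∃ (h : ℝ) (a b : Circle), |h| ≤ 1 / 8 ∧ vc k a b ≤ 1 / 1000 ∧
    rc h a b = lamc k h a b ^ 2 ∧ c = jc h a b (xq k h a b)}

end Pool.Agent.Tri
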