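import Mathlib
import Pool.Agent.H.MP_5efd29_gt.HdDefs

open scoped ContDiff Topology
open Set

noncomputable section

namespace Pool.Agent.Tri

private theorem hdb0_rz_nonneg (h : ℝ) : 0 ≤ rz h := Real.sqrt_nonneg _

private theorem hdb0_rz_sq {h : ℝ} (hh : |h| ≤ 1) : rz h ^ 2 = (1 - h) / 2 := by
  unfold rz
  rw [Real.sq_sqrt]
  have := (abs_le.1 hh).2
  linarith

private theorem hdb0_norm_fst {h : ℝ} {a b : Circle} :
    ‖(rz h : ℂ) ^ 5 * ((a : ℂ) * (b : ℂ) ^ 2)‖ = rz h ^ 5 := by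
  rw [norm_mul, norm_mul, norm_pow, norm_pow, Circle.norm_coe, Circle.norm_coe, Complex.norm_real,
    Real.norm_eq_abs, abs_of_nonneg (hdb0_rz_nonneg h)]
  ring

theorem jc_inj {h h' : ℝ} {a a' b b' : Circle} {ξ ξ' : ℂ} (hh : |h| ≤ 1) (hh' : |h'| ≤ 1)
    (he : jc h a b ξ = jc h' a' b' ξ') : h = h' ∧ ξ = ξ' ∧ (|h| < 1 → a = a' ∧ b = b') := by
  unfold jc at he
  simp only [Prod.mk.injEq] at he
  obtain ⟨e1, -, e3, e4, e5⟩ := he
  have n1 : rz h ^ 5 = rz h' ^ 5 := by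
    rw [← hdb0_norm_fst (h := h) (a := a) (b := b), e1, hdb0_norm_fst]
  have n2 : rz h = rz h' :=
    (pow_left_inj₀ (hdb0_rz_nonneg h) (hdb0_rz_nonneg h') (by norm_num)).1 n1
  have n3 : h = h' := by
    have s1 := hdb0_rz_sq hh
    have s2 := hdb0_rz_sq hh'
    rw [n2, s2] at s1
    linarith
  subst n3
  refine ⟨rfl, e5, ?_⟩
  intro hlt
  obtain ⟨l1, l2⟩ := abs_lt.1 hlt
  have p1 : 0 < rz h := Real.sqrt_pos.2 (by linarith)
  have p2 : 0 < rw' h := Real.sqrt_pos.2 (by linarith)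
  have c1 : (rz h : ℂ) ≠ 0 := Complex.ofReal_ne_zero.2 p1.ne'
  have c2 : (rw' h : ℂ) ≠ 0 := Complex.ofReal_ne_zero.2 p2.ne'
  constructor
  · apply Circle.coe_injective
    exact mul_left_cancel₀ (mul_ne_zero c1 (pow_ne_zero 2 c2)) e3
  · apply Circle.coe_injective
    exact mul_left_cancel₀ (mul_ne_zero (pow_ne_zero 2 c1) c2) e4

private theorem hdb0_rz_one : rz 1 = 0 := by
  unfold rz
  rw [sub_self, zero_div, Real.sqrt_zero]

private theorem hdb0_rw_one : rw' 1 = 1 := by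
  unfold rw'
  norm_num

private theorem hdb0_rz_neg : rz (-1) = 1 := by
  unfold rz
  norm_num

private theorem hdb0_rw_neg : rw' (-1) = 0 := by
  unfold rw'
  norm_num

theorem jc_one_eq_iff {a a' b b' : Circle} {ξ : ℂ} :
    jc 1 a b ξ = jc 1 a' b' ξ ↔ a ^ 2 * b⁻¹ = a' ^ 2 * b'⁻¹ := by
  unfold jc
  rw [hdb0_rz_one, hdb0_rw_one]
  simp only [Prod.mk.injEq, Complex.ofReal_zero, Complex.ofReal_one, one_pow, one_mul]
  rw [← Circle.coe_inj]
  simp only [Circle.coe_mul, Circle.coe_pow, Circle.coe_inv_eq_conj]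
  constructor
  · rintro ⟨-, h, -⟩
    exact h
  · intro h
    refine ⟨?_, h, ?_, ?_, trivial⟩ <;> simp

theorem jc_neg_one_eq_iff {a a' b b' : Circle} {ξ : ℂ} :
    jc (-1) a b ξ = jc (-1) a' b' ξ ↔ a * b ^ 2 = a' * b' ^ 2 := by
  unfold jc
  rw [hdb0_rz_neg, hdb0_rw_neg]
  simp only [Prod.mk.injEq, Complex.ofReal_zero, Complex.ofReal_one, one_pow, one_mul]
  rw [← Circle.coe_inj]
  simp only [Circle.coe_mul, Circle.coe_pow]
  constructor
  · rintro ⟨h, -⟩
    exact h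
  · intro h
    refine ⟨h, ?_, ?_, ?_, trivial⟩ <;> simp

private theorem hdb0_continuous_rz : Continuous rz := by
  unfold rz
  fun_prop

private theorem hdb0_continuous_rw : Continuous rw' := by
  unfold rw'
  fun_prop

theorem continuous_jc :
    Continuous (fun q : ℝ × Circle × Circle × ℂ => jc q.1 q.2.1 q.2.2.1 q.2.2.2) := by
  have h1 : Continuous (fun q : ℝ × Circle × Circle × ℂ => ((rz q.1 : ℝ) : ℂ)) :=
    Complex.continuous_ofReal.comp (hdb0_continuous_rz.comp continuous_fst)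
  have h2 : Continuous (fun q : ℝ × Circle × Circle × ℂ => ((rw' q.1 : ℝ) : ℂ)) :=
    Complex.continuous_ofReal.comp (hdb0_continuous_rw.comp continuous_fst)
  have h3 : Continuous (fun q : ℝ × Circle × Circle × ℂ => (q.2.1 : ℂ)) :=
    continuous_induced_dom.comp (continuous_fst.comp continuous_snd)
  have h4 : Continuous (fun q : ℝ × Circle × Circle × ℂ => (q.2.2.1 : ℂ)) :=
    continuous_induced_dom.comp (continuous_fst.comp (continuous_snd.comp continuous_snd))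
  have h5 : Continuous (fun q : ℝ × Circle × Circle × ℂ => (starRingEnd ℂ) (q.2.2.1 : ℂ)) :=
    Complex.continuous_conj.comp h4
  unfold jc
  exact ((h1.pow 5).mul (h3.mul (h4.pow 2))).prodMk
    (((h2.pow 5).mul ((h3.pow 2).mul h5)).prodMk
      (((h1.mul (h2.pow 2)).mul h3).prodMk
        ((((h1.pow 2).mul h2).mul h4).prodMk
          (continuous_snd.comp (continuous_snd.comp continuous_snd)))))

end Pool.Agent.Tri
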