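import Mathlib
import Pool.Agent.H.MP_5efd29_gt.Defs

open scoped ContDiff Topology
open Set

noncomputable section

namespace Pool.Agent.Tri

/-! ### The two halves of the solid torus -/

private def hda1_c1 (p : ℂ × ℝ) : Circle × ℂ := (Circle.exp (Real.pi * p.2 / 2), p.1)

private def hda1_c2 (p : ℂ × ℝ) : Circle × ℂ :=
  (Circle.exp Real.pi * Circle.exp (Real.pi * p.2 / 2), p.1)

private theorem hda1_cont1 : Continuous hda1_c1 := by
  unfold hda1_c1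
  exact (Circle.exp.continuous.comp (by fun_prop)).prodMk continuous_fst

private theorem hda1_cont2 : Continuous hda1_c2 := by
  unfold hda1_c2
  exact (continuous_const.mul (Circle.exp.continuous.comp (by fun_prop))).prodMk continuous_fst

private theorem hda1_exp_inj {s t : ℝ} (hs : s ∈ Icc (-1 : ℝ) 1) (ht : t ∈ Icc (-1 : ℝ) 1)
    (h : Circle.exp (Real.pi * s / 2) = Circle.exp (Real.pi * t / 2)) : s = t := by
  have hpi := Real.pi_pos
  have h1 : ((Circle.exp (Real.pi * s / 2) : Circle) : ℂ).arg = Real.pi * s / 2 := by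
    rw [Circle.arg_exp] <;> nlinarith [hs.1, hs.2]
  have h2 : ((Circle.exp (Real.pi * t / 2) : Circle) : ℂ).arg = Real.pi * t / 2 := by
    rw [Circle.arg_exp] <;> nlinarith [ht.1, ht.2]
  rw [h, h2] at h1
  have h3 : Real.pi * (t - s) = 0 := by linarith
  rcases mul_eq_zero.1 h3 with h4 | h4
  · exact absurd h4 hpi.ne'
  · linarith

private theorem hda1_re (t : ℝ) : ((Circle.exp t : Circle) : ℂ).re = Real.cos t := by
  rw [Circle.coe_exp, Complex.exp_ofReal_mul_I_re]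

private theorem hda1_re' (z : Circle) : ((Circle.exp Real.pi * z : Circle) : ℂ).re = -(z : ℂ).re := by
  rw [Circle.coe_mul, Circle.coe_exp, Complex.exp_pi_mul_I, neg_one_mul, Complex.neg_re]

private theorem hda1_cos_nonneg {s : ℝ} (hs : s ∈ Icc (-1 : ℝ) 1) :
    0 ≤ Real.cos (Real.pi * s / 2) := by
  have hpi := Real.pi_pos
  apply Real.cos_nonneg_of_mem_Icc
  constructor <;> nlinarith [hs.1, hs.2]

private theorem hda1_cos_eq_zero {s : ℝ} (hs : s ∈ Icc (-1 : ℝ) 1) :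
    Real.cos (Real.pi * s / 2) = 0 ↔ s = -1 ∨ s = 1 := by
  have hpi := Real.pi_pos
  constructor
  · intro h
    by_contra hne
    rw [not_or] at hne
    have h1 : -1 < s := lt_of_le_of_ne hs.1 (Ne.symm hne.1)
    have h2 : s < 1 := lt_of_le_of_ne hs.2 hne.2
    have h3 : 0 < Real.cos (Real.pi * s / 2) := by
      apply Real.cos_pos_of_mem_Ioo
      constructor <;> nlinarith
    exact h3.ne' h
  · rintro (rfl | rfl)
    · rw [show Real.pi * (-1) / 2 = -(Real.pi / 2) by ring, Real.cos_neg, Real.cos_pi_div_two]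
    · rw [mul_one, Real.cos_pi_div_two]

private theorem hda1_surj {z : Circle} (hz : 0 ≤ (z : ℂ).re) :
    ∃ s ∈ Icc (-1 : ℝ) 1, Circle.exp (Real.pi * s / 2) = z := by
  have hpi := Real.pi_pos
  have h1 : |(z : ℂ).arg| ≤ Real.pi / 2 := Complex.abs_arg_le_pi_div_two_iff.2 hz
  rw [abs_le] at h1
  refine ⟨2 * (z : ℂ).arg / Real.pi, ?_, ?_⟩
  · constructor
    · rw [le_div_iff₀ hpi]
      linarith
    · rw [div_le_iff₀ hpi]
      linarith
  · rw [show Real.pi * (2 * (z : ℂ).arg / Real.pi) / 2 = (z : ℂ).arg by field_simp]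
    exact Circle.exp_arg z

private theorem hda1_im1 (B : Set ℂ) : hda1_c1 '' (B ×ˢ Icc (-1) 1) =
    {p | 0 ≤ ((p.1 : Circle) : ℂ).re ∧ p.2 ∈ B} := by
  ext ⟨z, q⟩
  constructor
  · rintro ⟨⟨q', s⟩, ⟨hq, hs⟩, h⟩
    obtain ⟨rfl, rfl⟩ := Prod.mk.inj h
    refine ⟨?_, hq⟩
    change 0 ≤ ((Circle.exp (Real.pi * s / 2) : Circle) : ℂ).re
    rw [hda1_re]
    exact hda1_cos_nonneg hs
  · rintro ⟨hz, hq⟩
    obtain ⟨s, hs, h⟩ := hda1_surj hz
    exact ⟨(q, s), ⟨hq, hs⟩, Prod.ext h rfl⟩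

private theorem hda1_im1' (B : Set ℂ) : hda1_c1 '' (B ×ˢ {-1, 1}) =
    {p | ((p.1 : Circle) : ℂ).re = 0 ∧ p.2 ∈ B} := by
  ext ⟨z, q⟩
  constructor
  · rintro ⟨⟨q', s⟩, ⟨hq, hs⟩, h⟩
    obtain ⟨rfl, rfl⟩ := Prod.mk.inj h
    refine ⟨?_, hq⟩
    change ((Circle.exp (Real.pi * s / 2) : Circle) : ℂ).re = 0
    rw [hda1_re]
    have hs' : s = -1 ∨ s = 1 := hs
    exact (hda1_cos_eq_zero (by rcases hs' with rfl | rfl <;> constructor <;> norm_num)).2 hs'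
  · rintro ⟨hz, hq⟩
    obtain ⟨s, hs, h⟩ := hda1_surj (z := z) hz.ge
    refine ⟨(q, s), ⟨hq, ?_⟩, Prod.ext h rfl⟩
    change s = -1 ∨ s = 1
    rw [← hda1_cos_eq_zero hs, ← hda1_re, h]
    exact hz

private theorem hda1_c2_eq (p : ℂ × ℝ) :
    hda1_c2 p = (Circle.exp Real.pi * (hda1_c1 p).1, (hda1_c1 p).2) := rfl

private theorem hda1_pi_pi : Circle.exp Real.pi * Circle.exp Real.pi = 1 := by
  rw [← Circle.exp_add, ← two_mul, Circle.exp_two_pi]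

private theorem hda1_flip (S : Set (ℂ × ℝ)) : hda1_c2 '' S =
    {p | (Circle.exp Real.pi * p.1, p.2) ∈ hda1_c1 '' S} := by
  ext ⟨z, q⟩
  constructor
  · rintro ⟨x, hx, h⟩
    refine ⟨x, hx, ?_⟩
    rw [hda1_c2_eq] at h
    obtain ⟨rfl, rfl⟩ := Prod.mk.inj h
    apply Prod.ext
    · change _ = Circle.exp Real.pi * (Circle.exp Real.pi * (hda1_c1 x).1)
      rw [← mul_assoc, hda1_pi_pi, one_mul]
    · rfl
  · rintro ⟨x, hx, h⟩
    refine ⟨x, hx, ?_⟩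
    rw [hda1_c2_eq, h]
    apply Prod.ext
    · change Circle.exp Real.pi * (Circle.exp Real.pi * z) = z
      rw [← mul_assoc, hda1_pi_pi, one_mul]
    · rfl

private theorem hda1_im2 (B : Set ℂ) : hda1_c2 '' (B ×ˢ Icc (-1) 1) =
    {p | ((p.1 : Circle) : ℂ).re ≤ 0 ∧ p.2 ∈ B} := by
  rw [hda1_flip, hda1_im1]
  ext ⟨z, q⟩
  change (0 ≤ ((Circle.exp Real.pi * z : Circle) : ℂ).re ∧ q ∈ B) ↔ ((z : ℂ).re ≤ 0 ∧ q ∈ B)
  rw [hda1_re', neg_nonneg]

private theorem hda1_im2' (B : Set ℂ) : hda1_c2 '' (B ×ˢ {-1, 1}) =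
    {p | ((p.1 : Circle) : ℂ).re = 0 ∧ p.2 ∈ B} := by
  rw [hda1_flip, hda1_im1']
  ext ⟨z, q⟩
  change (((Circle.exp Real.pi * z : Circle) : ℂ).re = 0 ∧ q ∈ B) ↔ ((z : ℂ).re = 0 ∧ q ∈ B)
  rw [hda1_re', neg_eq_zero]

private theorem hda1_inj1 : InjOn hda1_c1 cyl := by
  rintro ⟨q, s⟩ ⟨_, hs⟩ ⟨q', s'⟩ ⟨_, hs'⟩ h
  obtain ⟨h1, h2⟩ := Prod.mk.inj h
  exact Prod.ext h2 (hda1_exp_inj hs hs' h1)

private theorem hda1_inj2 : InjOn hda1_c2 cyl := by
  rintro ⟨q, s⟩ ⟨_, hs⟩ ⟨q', s'⟩ ⟨_, hs'⟩ h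
  obtain ⟨h1, h2⟩ := Prod.mk.inj h
  exact Prod.ext h2 (hda1_exp_inj hs hs' (mul_left_cancel h1))

/-- A solid torus is a handlebody of genus one. -/
theorem handlebody_solidTorus {α : Type*} [TopologicalSpace α] (E : Circle × ℂ → α)
    (hc : ContinuousOn E ((univ : Set Circle) ×ˢ Metric.closedBall 0 1))
    (hi : InjOn E ((univ : Set Circle) ×ˢ Metric.closedBall 0 1)) :
    Handlebody3 1 (E '' ((univ : Set Circle) ×ˢ Metric.closedBall 0 1))
      (E '' ((univ : Set Circle) ×ˢ Metric.sphere 0 1)) := by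
  set D : Set (Circle × ℂ) := (univ : Set Circle) ×ˢ Metric.closedBall 0 1 with hD
  have hball : ∀ q : ℂ, q ∈ Metric.closedBall (0 : ℂ) 1 ↔ ‖q‖ ≤ 1 := fun q => by
    rw [Metric.mem_closedBall, dist_zero_right]
  have hsph : ∀ q : ℂ, q ∈ Metric.sphere (0 : ℂ) 1 ↔ ‖q‖ = 1 := fun q => by
    rw [Metric.mem_sphere, dist_zero_right]
  have hob : ∀ q : ℂ, q ∈ Metric.ball (0 : ℂ) 1 ↔ ‖q‖ < 1 := fun q => by
    rw [Metric.mem_ball, dist_zero_right]
  have i1 : hda1_c1 '' cyl = {p | 0 ≤ ((p.1 : Circle) : ℂ).re ∧ p.2 ∈ Metric.closedBall 0 1} :=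
    hda1_im1 _
  have i2 : hda1_c2 '' cyl = {p | ((p.1 : Circle) : ℂ).re ≤ 0 ∧ p.2 ∈ Metric.closedBall 0 1} :=
    hda1_im2 _
  have j1 : hda1_c1 '' cylEnds =
      {p | ((p.1 : Circle) : ℂ).re = 0 ∧ p.2 ∈ Metric.closedBall 0 1} := hda1_im1' _
  have j2 : hda1_c2 '' cylEnds =
      {p | ((p.1 : Circle) : ℂ).re = 0 ∧ p.2 ∈ Metric.closedBall 0 1} := hda1_im2' _
  have k1 : hda1_c1 '' cylSide =
      {p | 0 ≤ ((p.1 : Circle) : ℂ).re ∧ p.2 ∈ Metric.sphere 0 1} := hda1_im1 _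
  have k2 : hda1_c2 '' cylSide =
      {p | ((p.1 : Circle) : ℂ).re ≤ 0 ∧ p.2 ∈ Metric.sphere 0 1} := hda1_im2 _
  have l2 : hda1_c2 '' cylEndsInt =
      {p | ((p.1 : Circle) : ℂ).re = 0 ∧ p.2 ∈ Metric.ball 0 1} := hda1_im2' _
  have m1 : MapsTo hda1_c1 cyl D := fun p hp => ⟨mem_univ _, hp.1⟩
  have m2 : MapsTo hda1_c2 cyl D := fun p hp => ⟨mem_univ _, hp.1⟩
  have s1 : hda1_c1 '' cyl ⊆ D := m1.image_subset
  have s2 : hda1_c2 '' cyl ⊆ D := m2.image_subset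
  have hS1 : hda1_c1 '' (cylEnds ∪ cylSide) ⊆ D := by
    rw [image_union, j1, k1]
    rintro ⟨z, q⟩ (h | h)
    · exact ⟨mem_univ _, h.2⟩
    · exact ⟨mem_univ _, Metric.sphere_subset_closedBall h.2⟩
  have hl2 : hda1_c2 '' cylEndsInt ⊆ D := by
    rw [l2]
    rintro ⟨z, q⟩ h
    exact ⟨mem_univ _, Metric.ball_subset_closedBall h.2⟩
  have c1 : ContinuousOn (E ∘ hda1_c1) cyl := hc.comp hda1_cont1.continuousOn m1
  have c2 : ContinuousOn (E ∘ hda1_c2) cyl := hc.comp hda1_cont2.continuousOn m2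
  have n1 : InjOn (E ∘ hda1_c1) cyl := hi.comp hda1_inj1 m1
  have n2 : InjOn (E ∘ hda1_c2) cyl := hi.comp hda1_inj2 m2
  have b1 := Handlebody3.ball (E ∘ hda1_c1) c1 n1
  have b2 := Handlebody3.handle (E ∘ hda1_c2) c2 n2 b1 ?_ ?_
  · have e1 : (E ∘ hda1_c1) '' cyl ∪ (E ∘ hda1_c2) '' cyl = E '' D := by
      rw [image_comp, image_comp, ← image_union]
      congr 1
      rw [i1, i2]
      ext ⟨z, q⟩
      constructor
      · rintro (h | h)
        · exact ⟨mem_univ _, h.2⟩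
        · exact ⟨mem_univ _, h.2⟩
      · rintro ⟨_, h⟩
        rcases le_total 0 (z : ℂ).re with h1 | h1
        · exact Or.inl ⟨h1, h⟩
        · exact Or.inr ⟨h1, h⟩
    have e2 : (E ∘ hda1_c1) '' (cylEnds ∪ cylSide) \ (E ∘ hda1_c2) '' cylEndsInt ∪
        (E ∘ hda1_c2) '' cylSide = E '' ((univ : Set Circle) ×ˢ Metric.sphere 0 1) := by
      rw [image_comp, image_comp, image_comp]
      have e3 : E '' (hda1_c1 '' (cylEnds ∪ cylSide)) \ E '' (hda1_c2 '' cylEndsInt) =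
          E '' (hda1_c1 '' (cylEnds ∪ cylSide) \ hda1_c2 '' cylEndsInt) := by
        ext y
        constructor
        · rintro ⟨⟨x, hx, rfl⟩, hy⟩
          exact ⟨x, ⟨hx, fun h => hy ⟨x, h, rfl⟩⟩, rfl⟩
        · rintro ⟨x, ⟨hx, hx'⟩, rfl⟩
          refine ⟨⟨x, hx, rfl⟩, ?_⟩
          rintro ⟨x', hx'', h⟩
          exact hx' ((hi (hl2 hx'') (hS1 hx) h) ▸ hx'')
      rw [e3, ← image_union]
      congr 1
      rw [image_union, j1, k1, l2, k2]
      ext ⟨z, q⟩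
      simp only [mem_union, mem_sdiff, mem_setOf_eq, mem_prod, mem_univ, true_and, hball, hsph, hob]
      constructor
      · rintro (⟨h1 | h1, h2⟩ | h1)
        · have h3 : ¬ ‖q‖ < 1 := fun h => h2 ⟨h1.1, h⟩
          exact le_antisymm h1.2 (not_lt.1 h3)
        · exact h1.2
        · exact h1.2
      · intro h
        rcases le_total 0 (z : ℂ).re with h1 | h1
        · exact Or.inl ⟨Or.inr ⟨h1, h⟩, fun h2 => absurd h2.2 (by rw [h]; exact lt_irrefl 1)⟩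
        · exact Or.inr ⟨h1, h⟩
    rw [e1, e2] at b2
    exact b2
  · rw [image_comp, image_comp, image_comp, ← hi.image_inter s1 s2]
    congr 1
    rw [i1, i2, j2]
    ext ⟨z, q⟩
    simp only [mem_inter_iff, mem_setOf_eq]
    constructor
    · rintro ⟨h1, h2⟩
      exact ⟨le_antisymm h2.1 h1.1, h1.2⟩
    · rintro ⟨h1, h2⟩
      exact ⟨⟨h1.ge, h2⟩, ⟨h1.le, h2⟩⟩
  · rw [image_comp, image_comp]
    apply image_mono
    rw [j2, image_union, j1]
    exact subset_union_left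

end Pool.Agent.Tri
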