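import Mathlib
import Pool.Agent.H.MP_5efd29_gt.HdDefs
import Pool.Agent.H.MP_5efd29_gt.HdA1
import Pool.Agent.H.MP_5efd29_gt.HdB0

open scoped ContDiff Topology
open Set

noncomputable section

namespace Pool.Agent.Tri

/-- the phase of a complex number -/
private def hdb1_ua (q : ℂ) : Circle :=
  if h : q = 0 then 1 else ⟨q / (‖q‖ : ℂ), mem_sphere_zero_iff_norm.2 (by
    rw [norm_div, Complex.norm_real, norm_norm, div_self (norm_ne_zero_iff.2 h)])⟩

private theorem hdb1_comm (c t : Circle) : c * (c * t⁻¹)⁻¹ = t := by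
  rw [mul_inv_rev, inv_inv, mul_comm t, mul_inv_cancel_left]

private theorem hdb1_ua_zero : hdb1_ua 0 = 1 := by
  unfold hdb1_ua
  rw [dif_pos rfl]

private theorem hdb1_ua_coe {q : ℂ} (h : q ≠ 0) : (hdb1_ua q : ℂ) = q / (‖q‖ : ℂ) := by
  unfold hdb1_ua
  rw [dif_neg h]

private theorem hdb1_polar (q : ℂ) : q = (‖q‖ : ℂ) * (hdb1_ua q : ℂ) := by
  by_cases h : q = 0
  · rw [h, norm_zero, Complex.ofReal_zero, zero_mul]
  · rw [hdb1_ua_coe h, mul_div_cancel₀]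
    exact Complex.ofReal_ne_zero.2 (norm_ne_zero_iff.2 h)

private theorem hdb1_ua_mul {r : ℝ} (hr : 0 < r) (a : Circle) : hdb1_ua ((r : ℂ) * (a : ℂ)) = a := by
  have hr' : (r : ℂ) ≠ 0 := Complex.ofReal_ne_zero.2 hr.ne'
  have h : (r : ℂ) * (a : ℂ) ≠ 0 := mul_ne_zero hr' (Circle.coe_ne_zero a)
  apply Circle.coe_injective
  rw [hdb1_ua_coe h, norm_mul, Circle.norm_coe, Complex.norm_real, Real.norm_eq_abs,
    abs_of_pos hr, mul_one, mul_div_cancel_left₀ _ hr']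

private theorem hdb1_norm_mul {r : ℝ} (hr : 0 ≤ r) (a : Circle) : ‖(r : ℂ) * (a : ℂ)‖ = r := by
  rw [norm_mul, Circle.norm_coe, Complex.norm_real, Real.norm_eq_abs, abs_of_nonneg hr, mul_one]

private theorem hdb1_ua_cont {q : ℂ} (h : q ≠ 0) : ContinuousAt hdb1_ua q := by
  have hind : Topology.IsInducing (fun c : Circle => (c : ℂ)) := ⟨rfl⟩
  rw [hind.continuousAt_iff]
  have h1 : ContinuousAt (fun q : ℂ => q / (‖q‖ : ℂ)) q := by
    refine ContinuousAt.div continuousAt_id ?_ (Complex.ofReal_ne_zero.2 (norm_ne_zero_iff.2 h))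
    exact (Complex.continuous_ofReal.comp continuous_norm).continuousAt
  refine h1.congr ?_
  filter_upwards [isOpen_ne.mem_nhds h] with x hx
  exact (hdb1_ua_coe hx).symm

private def hdb1_a (p : Circle × ℂ) : Circle := hdb1_ua p.2

private def hdb1_b (p : Circle × ℂ) : Circle := hdb1_ua p.2 ^ 2 * p.1⁻¹

private def hdb1_h (H : Circle × Circle → ℝ) (p : Circle × ℂ) : ℝ :=
  1 - ‖p.2‖ * (1 - H (hdb1_a p, hdb1_b p))

private def hdb1_E (H : Circle × Circle → ℝ) (X : ℝ × Circle × Circle → ℂ) (p : Circle × ℂ) : C5 :=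
  jc (hdb1_h H p) (hdb1_a p) (hdb1_b p) (X (hdb1_h H p, hdb1_a p, hdb1_b p))

private theorem hdb1_ab (p : Circle × ℂ) : hdb1_a p ^ 2 * (hdb1_b p)⁻¹ = p.1 := by
  unfold hdb1_a hdb1_b
  exact hdb1_comm _ _

private theorem hdb1_h_zero (H : Circle × Circle → ℝ) (t : Circle) : hdb1_h H (t, 0) = 1 := by
  unfold hdb1_h
  simp

private theorem hdb1_h_le {H : Circle × Circle → ℝ} (h1 : ∀ p, H p < 1) (p : Circle × ℂ) :
    hdb1_h H p ≤ 1 := by
  unfold hdb1_h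
  have := mul_nonneg (norm_nonneg p.2) (sub_nonneg.2 (h1 (hdb1_a p, hdb1_b p)).le)
  linarith

private theorem hdb1_h_ge {H : Circle × Circle → ℝ} (h1 : ∀ p, H p < 1) {p : Circle × ℂ}
    (hp : ‖p.2‖ ≤ 1) : H (hdb1_a p, hdb1_b p) ≤ hdb1_h H p := by
  unfold hdb1_h
  have := mul_le_mul_of_nonneg_right hp (sub_nonneg.2 (h1 (hdb1_a p, hdb1_b p)).le)
  linarith

private theorem hdb1_h_eq_one {H : Circle × Circle → ℝ} (h1 : ∀ p, H p < 1) {p : Circle × ℂ}
    (hp : hdb1_h H p = 1) : p.2 = 0 := by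
  unfold hdb1_h at hp
  have h2 : ‖p.2‖ * (1 - H (hdb1_a p, hdb1_b p)) = 0 := by linarith
  rcases mul_eq_zero.1 h2 with h | h
  · exact norm_eq_zero.1 h
  · exact absurd (h1 (hdb1_a p, hdb1_b p)) (by linarith)

private theorem hdb1_rz_one : rz 1 = 0 := by
  unfold rz
  rw [sub_self, zero_div, Real.sqrt_zero]

private theorem hdb1_rw_one : rw' 1 = 1 := by
  unfold rw'
  norm_num

private theorem hdb1_continuous_rz : Continuous rz := by
  unfold rz
  fun_prop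

private theorem hdb1_continuous_rw : Continuous rw' := by
  unfold rw'
  fun_prop

private theorem hdb1_h_tendsto {H : Circle × Circle → ℝ} (h0 : ∀ p, 0 ≤ H p) (h1 : ∀ p, H p < 1)
    (t : Circle) : Filter.Tendsto (hdb1_h H) (𝓝 (t, (0 : ℂ))) (𝓝 1) := by
  have hn : Filter.Tendsto (fun p : Circle × ℂ => ‖p.2‖) (𝓝 (t, (0 : ℂ))) (𝓝 0) := by
    have hc : Continuous (fun p : Circle × ℂ => ‖p.2‖) := continuous_norm.comp continuous_snd
    have := hc.tendsto (t, (0 : ℂ))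
    simpa using this
  rw [tendsto_iff_norm_sub_tendsto_zero]
  refine squeeze_zero (fun _ => norm_nonneg _) (fun p => ?_) hn
  have e : hdb1_h H p - 1 = -(‖p.2‖ * (1 - H (hdb1_a p, hdb1_b p))) := by
    unfold hdb1_h
    ring
  rw [e, norm_neg, norm_mul, norm_norm]
  have h2 := h0 (hdb1_a p, hdb1_b p)
  have h3 := h1 (hdb1_a p, hdb1_b p)
  have h4 : ‖1 - H (hdb1_a p, hdb1_b p)‖ ≤ 1 := by
    rw [Real.norm_eq_abs, abs_le]
    constructor <;> linarith
  calc ‖p.2‖ * ‖1 - H (hdb1_a p, hdb1_b p)‖ ≤ ‖p.2‖ * 1 :=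
        mul_le_mul_of_nonneg_left h4 (norm_nonneg _)
    _ = ‖p.2‖ := mul_one _

private theorem hdb1_cont_ne {H : Circle × Circle → ℝ} (hH : Continuous H)
    {X : ℝ × Circle × Circle → ℂ} (hX : Continuous X) {p : Circle × ℂ} (hp : p.2 ≠ 0) :
    ContinuousAt (hdb1_E H X) p := by
  have ca : ContinuousAt hdb1_a p :=
    ContinuousAt.comp (f := fun p : Circle × ℂ => p.2) (g := hdb1_ua) (hdb1_ua_cont hp)
      continuousAt_snd
  have cb : ContinuousAt hdb1_b p := (ca.pow 2).mul continuousAt_fst.inv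
  have cH : ContinuousAt (fun p => H (hdb1_a p, hdb1_b p)) p :=
    hH.continuousAt.comp (ca.prodMk cb)
  have ch : ContinuousAt (hdb1_h H) p :=
    continuousAt_const.sub (continuousAt_snd.norm.mul (continuousAt_const.sub cH))
  have cX : ContinuousAt (fun p => X (hdb1_h H p, hdb1_a p, hdb1_b p)) p :=
    hX.continuousAt.comp (ch.prodMk (ca.prodMk cb))
  exact ContinuousAt.comp
    (f := fun p => (hdb1_h H p, hdb1_a p, hdb1_b p, X (hdb1_h H p, hdb1_a p, hdb1_b p)))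
    (g := fun q : ℝ × Circle × Circle × ℂ => jc q.1 q.2.1 q.2.2.1 q.2.2.2)
    continuous_jc.continuousAt (ch.prodMk (ca.prodMk (cb.prodMk cX)))

private theorem hdb1_cont_zero {H : Circle × Circle → ℝ} (h0 : ∀ p, 0 ≤ H p) (h1 : ∀ p, H p < 1)
    {X : ℝ × Circle × Circle → ℂ} (hX : Continuous X)
    (hX1 : ∀ (h : ℝ) (p p' : Circle × Circle), 1 / 2 ≤ h ^ 2 → X (h, p) = X (h, p'))
    (t : Circle) : ContinuousAt (hdb1_E H X) (t, 0) := by
  have ht := hdb1_h_tendsto h0 h1 t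
  have tz : Filter.Tendsto (fun p => rz (hdb1_h H p)) (𝓝 (t, (0 : ℂ))) (𝓝 0) := by
    have := (hdb1_continuous_rz.tendsto 1).comp ht
    rwa [hdb1_rz_one] at this
  have tw : Filter.Tendsto (fun p => rw' (hdb1_h H p)) (𝓝 (t, (0 : ℂ))) (𝓝 1) := by
    have := (hdb1_continuous_rw.tendsto 1).comp ht
    rwa [hdb1_rw_one] at this
  have rz0 : ∀ h, 0 ≤ rz h := fun h => Real.sqrt_nonneg _
  have rw0 : ∀ h, 0 ≤ rw' h := fun h => Real.sqrt_nonneg _
  have e0 : hdb1_E H X (t, 0) = (0, (t : ℂ), 0, 0, X (1, 1, 1)) := by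
    unfold hdb1_E
    have hab := hdb1_ab (t, 0)
    have hc : ((hdb1_a (t, 0) : ℂ) ^ 2 * (starRingEnd ℂ) (hdb1_b (t, 0) : ℂ)) = (t : ℂ) := by
      rw [← Circle.coe_inv_eq_conj, ← Circle.coe_pow, ← Circle.coe_mul, hab]
    unfold jc
    rw [hdb1_h_zero, hdb1_rz_one, hdb1_rw_one, hc,
      hX1 1 (hdb1_a (t, 0), hdb1_b (t, 0)) (1, 1) (by norm_num)]
    simp
  have c1 : Filter.Tendsto (fun p => ((rz (hdb1_h H p) : ℝ) : ℂ) ^ 5 *
      ((hdb1_a p : ℂ) * (hdb1_b p : ℂ) ^ 2)) (𝓝 (t, (0 : ℂ))) (𝓝 0) := by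
    rw [tendsto_zero_iff_norm_tendsto_zero]
    have e : ∀ p, ‖((rz (hdb1_h H p) : ℝ) : ℂ) ^ 5 * ((hdb1_a p : ℂ) * (hdb1_b p : ℂ) ^ 2)‖ =
        rz (hdb1_h H p) ^ 5 := by
      intro p
      rw [norm_mul, norm_mul, norm_pow, norm_pow, Circle.norm_coe, Circle.norm_coe,
        Complex.norm_real, Real.norm_eq_abs, abs_of_nonneg (rz0 _)]
      ring
    simp only [e]
    simpa using tz.pow 5
  have c2 : Filter.Tendsto (fun p => ((rw' (hdb1_h H p) : ℝ) : ℂ) ^ 5 *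
      ((hdb1_a p : ℂ) ^ 2 * (starRingEnd ℂ) (hdb1_b p : ℂ))) (𝓝 (t, (0 : ℂ))) (𝓝 (t : ℂ)) := by
    have e : ∀ p : Circle × ℂ, ((hdb1_a p : ℂ) ^ 2 * (starRingEnd ℂ) (hdb1_b p : ℂ)) = (p.1 : ℂ) := by
      intro p
      rw [← Circle.coe_inv_eq_conj, ← Circle.coe_pow, ← Circle.coe_mul, hdb1_ab]
    simp only [e]
    have hc : Continuous (fun p : Circle × ℂ => (p.1 : ℂ)) :=
      continuous_induced_dom.comp continuous_fst
    have h2 := ((Complex.continuous_ofReal.tendsto 1).comp tw).pow 5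
    have h3 := h2.mul (hc.tendsto (t, (0 : ℂ)))
    simpa using h3
  have c3 : Filter.Tendsto (fun p => ((rz (hdb1_h H p) : ℝ) : ℂ) * ((rw' (hdb1_h H p) : ℝ) : ℂ) ^ 2 *
      (hdb1_a p : ℂ)) (𝓝 (t, (0 : ℂ))) (𝓝 0) := by
    rw [tendsto_zero_iff_norm_tendsto_zero]
    have e : ∀ p, ‖((rz (hdb1_h H p) : ℝ) : ℂ) * ((rw' (hdb1_h H p) : ℝ) : ℂ) ^ 2 *
        (hdb1_a p : ℂ)‖ = rz (hdb1_h H p) * rw' (hdb1_h H p) ^ 2 := by
      intro p
      rw [norm_mul, norm_mul, norm_pow, Circle.norm_coe, Complex.norm_real, Complex.norm_real,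
        Real.norm_eq_abs, Real.norm_eq_abs, abs_of_nonneg (rz0 _), abs_of_nonneg (rw0 _)]
      ring
    simp only [e]
    simpa using tz.mul (tw.pow 2)
  have c4 : Filter.Tendsto (fun p => ((rz (hdb1_h H p) : ℝ) : ℂ) ^ 2 * ((rw' (hdb1_h H p) : ℝ) : ℂ) *
      (hdb1_b p : ℂ)) (𝓝 (t, (0 : ℂ))) (𝓝 0) := by
    rw [tendsto_zero_iff_norm_tendsto_zero]
    have e : ∀ p, ‖((rz (hdb1_h H p) : ℝ) : ℂ) ^ 2 * ((rw' (hdb1_h H p) : ℝ) : ℂ) *
        (hdb1_b p : ℂ)‖ = rz (hdb1_h H p) ^ 2 * rw' (hdb1_h H p) := by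
      intro p
      rw [norm_mul, norm_mul, norm_pow, Circle.norm_coe, Complex.norm_real, Complex.norm_real,
        Real.norm_eq_abs, Real.norm_eq_abs, abs_of_nonneg (rz0 _), abs_of_nonneg (rw0 _)]
      ring
    simp only [e]
    simpa using (tz.pow 2).mul tw
  have c5 : Filter.Tendsto (fun p => X (hdb1_h H p, hdb1_a p, hdb1_b p)) (𝓝 (t, (0 : ℂ)))
      (𝓝 (X (1, 1, 1))) := by
    have hc : Continuous (fun h : ℝ => X (h, 1, 1)) :=
      hX.comp (continuous_id.prodMk (continuous_const.prodMk continuous_const))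
    have h2 := (hc.tendsto 1).comp ht
    refine h2.congr' ?_
    have hev : ∀ᶠ p in 𝓝 (t, (0 : ℂ)), (9 / 10 : ℝ) < hdb1_h H p :=
      ht.eventually (lt_mem_nhds (by norm_num))
    filter_upwards [hev] with p hp
    have : (1 : ℝ) / 2 ≤ hdb1_h H p ^ 2 := by nlinarith
    exact hX1 _ _ _ this
  unfold ContinuousAt
  rw [e0]
  exact c1.prodMk_nhds (c2.prodMk_nhds (c3.prodMk_nhds (c4.prodMk_nhds c5)))

private theorem hdb1_cont {H : Circle × Circle → ℝ} (hH : Continuous H) (h0 : ∀ p, 0 ≤ H p)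
    (h1 : ∀ p, H p < 1) {X : ℝ × Circle × Circle → ℂ} (hX : Continuous X)
    (hX1 : ∀ (h : ℝ) (p p' : Circle × Circle), 1 / 2 ≤ h ^ 2 → X (h, p) = X (h, p')) :
    Continuous (hdb1_E H X) := by
  rw [continuous_iff_continuousAt]
  rintro ⟨t, q⟩
  by_cases hq : q = 0
  · subst hq
    exact hdb1_cont_zero h0 h1 hX hX1 t
  · exact hdb1_cont_ne hH hX hq

private theorem hdb1_inj {H : Circle × Circle → ℝ} (h0 : ∀ p, 0 ≤ H p)
    (h1 : ∀ p, H p < 1) {X : ℝ × Circle × Circle → ℂ} :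
    InjOn (hdb1_E H X) ((univ : Set Circle) ×ˢ Metric.closedBall 0 1) := by
  rintro p hp p' hp' he
  have hn : ‖p.2‖ ≤ 1 := by simpa using hp.2
  have hn' : ‖p'.2‖ ≤ 1 := by simpa using hp'.2
  have b1 : |hdb1_h H p| ≤ 1 := by
    rw [abs_le]
    have := hdb1_h_le h1 p
    have := hdb1_h_ge h1 hn
    have := h0 (hdb1_a p, hdb1_b p)
    constructor <;> linarith
  have b2 : |hdb1_h H p'| ≤ 1 := by
    rw [abs_le]
    have := hdb1_h_le h1 p'
    have := hdb1_h_ge h1 hn'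
    have := h0 (hdb1_a p', hdb1_b p')
    constructor <;> linarith
  obtain ⟨e1, e2, e3⟩ := jc_inj b1 b2 he
  have t1 := hdb1_ab p
  have t2 := hdb1_ab p'
  by_cases hq : p.2 = 0
  · have hh : hdb1_h H p = 1 := by
      have : p = (p.1, 0) := Prod.ext rfl hq
      rw [this, hdb1_h_zero]
    have hh' : hdb1_h H p' = 1 := e1 ▸ hh
    have hq' : p'.2 = 0 := hdb1_h_eq_one h1 hh'
    have he' : jc 1 (hdb1_a p) (hdb1_b p) (X (hdb1_h H p, hdb1_a p, hdb1_b p)) =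
        jc 1 (hdb1_a p') (hdb1_b p') (X (hdb1_h H p, hdb1_a p, hdb1_b p)) := by
      have he2 := he
      unfold hdb1_E at he2
      rw [← e2] at he2
      rw [hh, hh'] at he2
      rw [hh]
      exact he2
    have h3 := jc_one_eq_iff.1 he'
    rw [t1, t2] at h3
    exact Prod.ext h3 (hq.trans hq'.symm)
  · have hlt : hdb1_h H p < 1 :=
      lt_of_le_of_ne (hdb1_h_le h1 p) (fun h => hq (hdb1_h_eq_one h1 h))
    have hlt' : |hdb1_h H p| < 1 := by
      rw [abs_lt]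
      have := hdb1_h_ge h1 hn
      have := h0 (hdb1_a p, hdb1_b p)
      constructor <;> linarith
    obtain ⟨ea, eb⟩ := e3 hlt'
    have h3 : p.1 = p'.1 := by rw [← t1, ← t2, ea, eb]
    have h4 : ‖p.2‖ = ‖p'.2‖ := by
      have h5 : ‖p.2‖ * (1 - H (hdb1_a p, hdb1_b p)) = ‖p'.2‖ * (1 - H (hdb1_a p, hdb1_b p)) := by
        have h6 : hdb1_h H p = hdb1_h H p' := e1
        unfold hdb1_h at h6
        rw [← ea, ← eb] at h6
        linarith
      have h7 : 1 - H (hdb1_a p, hdb1_b p) ≠ 0 := by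
        have := h1 (hdb1_a p, hdb1_b p)
        linarith [this] |> fun h : (0 : ℝ) < 1 - H (hdb1_a p, hdb1_b p) => h.ne'
      exact mul_right_cancel₀ h7 h5
    refine Prod.ext h3 ?_
    have q1 := hdb1_polar p.2
    have q2 := hdb1_polar p'.2
    have ea' : hdb1_ua p.2 = hdb1_ua p'.2 := ea
    rw [q1, q2, h4, ea']

/-- The upper solid torus. -/
theorem solid_V (H : Circle × Circle → ℝ) (hH : Continuous H) (h0 : ∀ p, 0 ≤ H p)
    (h1 : ∀ p, H p < 1) (X : ℝ × Circle × Circle → ℂ) (hX : Continuous X)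
    (hX1 : ∀ (h : ℝ) (p p' : Circle × Circle), 1 / 2 ≤ h ^ 2 → X (h, p) = X (h, p')) :
    Handlebody3 1
      {c | ∃ (h : ℝ) (a b : Circle), H (a, b) ≤ h ∧ h ≤ 1 ∧ c = jc h a b (X (h, a, b))}
      {c | ∃ (a b : Circle), c = jc (H (a, b)) a b (X (H (a, b), a, b))} := by
  have key := handlebody_solidTorus (hdb1_E H X) (hdb1_cont hH h0 h1 hX hX1).continuousOn
    (hdb1_inj h0 h1)
  have im1 : hdb1_E H X '' ((univ : Set Circle) ×ˢ Metric.closedBall 0 1) =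
      {c | ∃ (h : ℝ) (a b : Circle), H (a, b) ≤ h ∧ h ≤ 1 ∧ c = jc h a b (X (h, a, b))} := by
    ext c
    constructor
    · rintro ⟨p, hp, rfl⟩
      have hn : ‖p.2‖ ≤ 1 := by simpa using hp.2
      exact ⟨hdb1_h H p, hdb1_a p, hdb1_b p, hdb1_h_ge h1 hn, hdb1_h_le h1 p, rfl⟩
    · rintro ⟨h, a, b, hl, hu, rfl⟩
      have hd : 0 < 1 - H (a, b) := sub_pos.2 (h1 (a, b))
      have hr0 : 0 ≤ (1 - h) / (1 - H (a, b)) := div_nonneg (by linarith) hd.le
      have hr1 : (1 - h) / (1 - H (a, b)) ≤ 1 := (div_le_one hd).2 (by linarith)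
      rcases hu.lt_or_eq with hlt | heq
      · have hrp : 0 < (1 - h) / (1 - H (a, b)) := div_pos (by linarith) hd
        refine ⟨(a ^ 2 * b⁻¹, (((1 - h) / (1 - H (a, b)) : ℝ) : ℂ) * (a : ℂ)), ⟨mem_univ _, ?_⟩, ?_⟩
        · rw [mem_closedBall_zero_iff, hdb1_norm_mul hr0]
          exact hr1
        · have ea : hdb1_a (a ^ 2 * b⁻¹, (((1 - h) / (1 - H (a, b)) : ℝ) : ℂ) * (a : ℂ)) = a :=
            hdb1_ua_mul hrp a
          have eb : hdb1_b (a ^ 2 * b⁻¹, (((1 - h) / (1 - H (a, b)) : ℝ) : ℂ) * (a : ℂ)) = b := by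
            have : hdb1_b (a ^ 2 * b⁻¹, (((1 - h) / (1 - H (a, b)) : ℝ) : ℂ) * (a : ℂ)) =
                hdb1_ua ((((1 - h) / (1 - H (a, b)) : ℝ) : ℂ) * (a : ℂ)) ^ 2 *
                  (a ^ 2 * b⁻¹)⁻¹ := rfl
            rw [this, hdb1_ua_mul hrp a, hdb1_comm]
          have eh : hdb1_h H (a ^ 2 * b⁻¹, (((1 - h) / (1 - H (a, b)) : ℝ) : ℂ) * (a : ℂ)) = h := by
            unfold hdb1_h
            rw [ea, eb]
            simp only
            rw [hdb1_norm_mul hr0, div_mul_cancel₀ _ hd.ne']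
            ring
          unfold hdb1_E
          rw [ea, eb, eh]
      · subst heq
        refine ⟨(a ^ 2 * b⁻¹, 0), ⟨mem_univ _, ?_⟩, ?_⟩
        · simp
        · unfold hdb1_E
          rw [hdb1_h_zero, hX1 1 (hdb1_a (a ^ 2 * b⁻¹, 0), hdb1_b (a ^ 2 * b⁻¹, 0)) (a, b)
            (by norm_num), jc_one_eq_iff, hdb1_ab]
  have im2 : hdb1_E H X '' ((univ : Set Circle) ×ˢ Metric.sphere 0 1) =
      {c | ∃ (a b : Circle), c = jc (H (a, b)) a b (X (H (a, b), a, b))} := by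
    ext c
    constructor
    · rintro ⟨p, hp, rfl⟩
      have hn : ‖p.2‖ = 1 := by simpa using hp.2
      refine ⟨hdb1_a p, hdb1_b p, ?_⟩
      have eh : hdb1_h H p = H (hdb1_a p, hdb1_b p) := by
        unfold hdb1_h
        rw [hn]
        ring
      unfold hdb1_E
      rw [eh]
    · rintro ⟨a, b, rfl⟩
      have ea : hdb1_ua (a : ℂ) = a := by
        have := hdb1_ua_mul one_pos a
        rwa [Complex.ofReal_one, one_mul] at this
      refine ⟨(a ^ 2 * b⁻¹, (a : ℂ)), ⟨mem_univ _, ?_⟩, ?_⟩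
      · rw [mem_sphere_zero_iff_norm, Circle.norm_coe]
      · have ea' : hdb1_a (a ^ 2 * b⁻¹, (a : ℂ)) = a := ea
        have eb : hdb1_b (a ^ 2 * b⁻¹, (a : ℂ)) = b := by
          have : hdb1_b (a ^ 2 * b⁻¹, (a : ℂ)) = hdb1_ua (a : ℂ) ^ 2 * (a ^ 2 * b⁻¹)⁻¹ := rfl
          rw [this, ea, hdb1_comm]
        have eh : hdb1_h H (a ^ 2 * b⁻¹, (a : ℂ)) = H (a, b) := by
          unfold hdb1_h
          rw [ea', eb]
          simp only
          rw [Circle.norm_coe]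
          ring
        unfold hdb1_E
        rw [ea', eb, eh]
  rw [im1, im2] at key
  exact key

end Pool.Agent.Tri
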