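import Mathlib
import Pool.Agent.H.MP_5efd29_gt.HdDefs
import Pool.Agent.H.MP_5efd29_gt.HdA1
import Pool.Agent.H.MP_5efd29_gt.HdB0

open scoped ContDiff Topology
open Set

noncomputable section

namespace Pool.Agent.Tri

/-- the phase of a complex number -/
def hdb2_ph (q : ℂ) : Circle :=
  if h : q = 0 then 1 else ⟨q / ‖q‖, mem_sphere_zero_iff_norm.2 (by
    have := norm_pos_iff.2 h
    rw [norm_div, Complex.norm_real, norm_norm, div_self this.ne'])⟩

theorem hdb2_ind : @Topology.IsInducing Circle ℂ _ _ (fun z : Circle => (z : ℂ)) :=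
  Topology.IsInducing.subtypeVal

theorem hdb2_ph_coe {q : ℂ} (h : q ≠ 0) : (hdb2_ph q : ℂ) = q / ‖q‖ := by
  unfold hdb2_ph
  rw [dif_neg h]

theorem hdb2_ph_mul (q : ℂ) : (‖q‖ : ℂ) * (hdb2_ph q : ℂ) = q := by
  by_cases h : q = 0
  · rw [h]
    simp
  · rw [hdb2_ph_coe h]
    have hn : (‖q‖ : ℂ) ≠ 0 := by exact_mod_cast (norm_pos_iff.2 h).ne'
    field_simp

theorem hdb2_ph_smul {r : ℝ} (hr : 0 < r) (b : Circle) : hdb2_ph ((r : ℂ) * b) = b := by
  have h : (r : ℂ) * b ≠ 0 := mul_ne_zero (by exact_mod_cast hr.ne') (Circle.coe_ne_zero b)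
  apply Circle.ext
  rw [hdb2_ph_coe h, norm_mul, Circle.norm_coe, mul_one, Complex.norm_real, Real.norm_eq_abs,
    abs_of_pos hr]
  have hr' : (r : ℂ) ≠ 0 := by exact_mod_cast hr.ne'
  field_simp

theorem hdb2_ph_cont {q : ℂ} (h : q ≠ 0) : ContinuousAt hdb2_ph q := by
  refine hdb2_ind.continuousAt_iff.2 ?_
  have h1 : ContinuousAt (fun q : ℂ => q / ‖q‖) q := by
    apply ContinuousAt.div continuousAt_id
    · exact (Complex.continuous_ofReal.comp continuous_norm).continuousAt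
    · exact_mod_cast (norm_pos_iff.2 h).ne'
  apply h1.congr
  filter_upwards [isOpen_ne.mem_nhds h] with x hx
  exact (hdb2_ph_coe hx).symm

/-- the height -/
def hdb2_h (H : Circle × Circle → ℝ) (p : Circle × ℂ) : ℝ :=
  -1 + ‖p.2‖ * (1 - H (p.1 * ((hdb2_ph p.2) ^ 2)⁻¹, hdb2_ph p.2))

/-- the parametrisation -/
def hdb2_E (H : Circle × Circle → ℝ) (X : ℝ × Circle × Circle → ℂ) (p : Circle × ℂ) : C5 :=
  jc (hdb2_h H p) (p.1 * ((hdb2_ph p.2) ^ 2)⁻¹) (hdb2_ph p.2)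
    (X (hdb2_h H p, p.1 * ((hdb2_ph p.2) ^ 2)⁻¹, hdb2_ph p.2))

theorem hdb2_bounds {H : Circle × Circle → ℝ} (h0 : ∀ p, 0 ≤ H p) (h1 : ∀ p, H p < 1)
    (p : Circle × ℂ) : -1 ≤ hdb2_h H p ∧ hdb2_h H p ≤ -1 + ‖p.2‖ := by
  unfold hdb2_h
  have k1 := h0 (p.1 * ((hdb2_ph p.2) ^ 2)⁻¹, hdb2_ph p.2)
  have k2 := h1 (p.1 * ((hdb2_ph p.2) ^ 2)⁻¹, hdb2_ph p.2)
  have k3 := norm_nonneg p.2
  constructor
  · nlinarith
  · nlinarith

theorem hdb2_cont_ne {H : Circle × Circle → ℝ} (hH : Continuous H)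
    {X : ℝ × Circle × Circle → ℂ} (hX : Continuous X) {p : Circle × ℂ} (hp : p.2 ≠ 0) :
    ContinuousAt (hdb2_E H X) p := by
  have hb : ContinuousAt (fun p : Circle × ℂ => hdb2_ph p.2) p :=
    ContinuousAt.comp (f := fun p : Circle × ℂ => p.2) (g := hdb2_ph) (hdb2_ph_cont hp)
      continuousAt_snd
  have ha : ContinuousAt (fun p : Circle × ℂ => p.1 * ((hdb2_ph p.2) ^ 2)⁻¹) p :=
    continuousAt_fst.mul (hb.pow 2).inv
  have hh : ContinuousAt (hdb2_h H) p := by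
    unfold hdb2_h
    apply continuousAt_const.add
    apply (continuousAt_snd.norm).mul
    apply continuousAt_const.sub
    exact ContinuousAt.comp (g := H) hH.continuousAt (ha.prodMk hb)
  have hx : ContinuousAt (fun p : Circle × ℂ => X (hdb2_h H p,
      p.1 * ((hdb2_ph p.2) ^ 2)⁻¹, hdb2_ph p.2)) p :=
    ContinuousAt.comp (g := X) hX.continuousAt (hh.prodMk (ha.prodMk hb))
  have := ContinuousAt.comp (g := fun q : ℝ × Circle × Circle × ℂ => jc q.1 q.2.1 q.2.2.1 q.2.2.2)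
    (f := fun p : Circle × ℂ => (hdb2_h H p, p.1 * ((hdb2_ph p.2) ^ 2)⁻¹, hdb2_ph p.2,
      X (hdb2_h H p, p.1 * ((hdb2_ph p.2) ^ 2)⁻¹, hdb2_ph p.2)))
    continuous_jc.continuousAt (hh.prodMk (ha.prodMk (hb.prodMk hx)))
  exact this

theorem hdb2_tendsto_h {H : Circle × Circle → ℝ} (h0 : ∀ p, 0 ≤ H p) (h1 : ∀ p, H p < 1)
    (t : Circle) : Filter.Tendsto (hdb2_h H) (𝓝 (t, (0 : ℂ))) (𝓝 (-1)) := by
  have hu : Filter.Tendsto (fun p : Circle × ℂ => -1 + ‖p.2‖) (𝓝 (t, (0 : ℂ))) (𝓝 (-1)) := by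
    have hc : Continuous (fun p : Circle × ℂ => (-1 : ℝ) + ‖p.2‖) :=
      continuous_const.add continuous_snd.norm
    have := hc.tendsto (t, (0 : ℂ))
    simpa using this
  exact tendsto_of_tendsto_of_tendsto_of_le_of_le tendsto_const_nhds hu
    (fun p => (hdb2_bounds h0 h1 p).1) (fun p => (hdb2_bounds h0 h1 p).2)

theorem hdb2_rz_cont : Continuous rz := by
  unfold rz
  fun_prop

theorem hdb2_rw_cont : Continuous rw' := by
  unfold rw'
  fun_prop

theorem hdb2_rz_neg_one : rz (-1) = 1 := by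
  unfold rz
  norm_num

theorem hdb2_rw_neg_one : rw' (-1) = 0 := by
  unfold rw'
  norm_num

theorem hdb2_small {f : Circle × ℂ → ℂ} {g : Circle × ℂ → Circle} {l : Filter (Circle × ℂ)}
    (hf : Filter.Tendsto f l (𝓝 0)) : Filter.Tendsto (fun p => f p * (g p : ℂ)) l (𝓝 0) := by
  rw [tendsto_zero_iff_norm_tendsto_zero] at hf ⊢
  simpa using hf

theorem hdb2_cont_zero {H : Circle × Circle → ℝ} (h0 : ∀ p, 0 ≤ H p)
    (h1 : ∀ p, H p < 1) {X : ℝ × Circle × Circle → ℂ} (hX : Continuous X)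
    (hX1 : ∀ (h : ℝ) (p p' : Circle × Circle), 1 / 2 ≤ h ^ 2 → X (h, p) = X (h, p'))
    (t : Circle) : ContinuousAt (hdb2_E H X) (t, 0) := by
  have hh := hdb2_tendsto_h h0 h1 t
  have hz : Filter.Tendsto (fun p : Circle × ℂ => (rz (hdb2_h H p) : ℂ)) (𝓝 (t, (0 : ℂ)))
      (𝓝 ((rz (-1) : ℝ) : ℂ)) :=
    (Complex.continuous_ofReal.tendsto _).comp ((hdb2_rz_cont.tendsto _).comp hh)
  have hw : Filter.Tendsto (fun p : Circle × ℂ => (rw' (hdb2_h H p) : ℂ)) (𝓝 (t, (0 : ℂ)))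
      (𝓝 ((rw' (-1) : ℝ) : ℂ)) :=
    (Complex.continuous_ofReal.tendsto _).comp ((hdb2_rw_cont.tendsto _).comp hh)
  have hval : hdb2_E H X (t, 0) = (((rz (-1) : ℝ) : ℂ) ^ 5 * (t : ℂ), 0, 0, 0,
      X (-1, 1, 1)) := by
    have e1 : hdb2_h H (t, 0) = -1 := by
      unfold hdb2_h
      simp
    have e2 : hdb2_ph 0 = 1 := by
      unfold hdb2_ph
      rw [dif_pos rfl]
    unfold hdb2_E
    rw [e1]
    simp only [e2, one_pow, inv_one, mul_one]
    unfold jc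
    rw [hdb2_rw_neg_one, hX1 (-1) (t, 1) (1, 1) (by norm_num)]
    simp
  unfold ContinuousAt
  rw [hval]
  unfold hdb2_E jc
  apply Filter.Tendsto.prodMk_nhds
  · have hfst : Filter.Tendsto (fun p : Circle × ℂ => (p.1 : ℂ)) (𝓝 (t, (0 : ℂ)))
        (𝓝 (t : ℂ)) :=
      (hdb2_ind.continuous.comp continuous_fst).tendsto (t, (0 : ℂ))
    have := (hz.pow 5).mul hfst
    apply this.congr
    intro p
    congr 1
    have h3 : (hdb2_ph p.2 : ℂ) ≠ 0 := Circle.coe_ne_zero _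
    rw [Circle.coe_mul, Circle.coe_inv, Circle.coe_pow]
    field_simp
  apply Filter.Tendsto.prodMk_nhds
  · have h2 := hw.pow 5
    rw [hdb2_rw_neg_one] at h2
    have h3 : (((0 : ℝ) : ℂ)) ^ 5 = 0 := by simp
    rw [h3] at h2
    have h4 := hdb2_small (g := fun p : Circle × ℂ =>
      (p.1 * ((hdb2_ph p.2) ^ 2)⁻¹) ^ 2 * (hdb2_ph p.2)⁻¹) h2
    apply h4.congr
    intro p
    rw [Circle.coe_mul, Circle.coe_pow, Circle.coe_inv_eq_conj]
  apply Filter.Tendsto.prodMk_nhds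
  · have h2 := hz.mul (hw.pow 2)
    rw [hdb2_rw_neg_one] at h2
    have h3 : ((rz (-1) : ℝ) : ℂ) * (((0 : ℝ) : ℂ)) ^ 2 = 0 := by simp
    rw [h3] at h2
    exact hdb2_small (g := fun p : Circle × ℂ => p.1 * ((hdb2_ph p.2) ^ 2)⁻¹) h2
  apply Filter.Tendsto.prodMk_nhds
  · have h2 := (hz.pow 2).mul hw
    rw [hdb2_rw_neg_one] at h2
    have h3 : ((rz (-1) : ℝ) : ℂ) ^ 2 * (((0 : ℝ) : ℂ)) = 0 := by simp
    rw [h3] at h2
    exact hdb2_small (g := fun p : Circle × ℂ => hdb2_ph p.2) h2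
  · have h2 : Filter.Tendsto (fun p : Circle × ℂ => X (hdb2_h H p, 1, 1)) (𝓝 (t, (0 : ℂ)))
        (𝓝 (X (-1, 1, 1))) := by
      have h3 : Continuous (fun h : ℝ => X (h, 1, 1)) :=
        hX.comp (continuous_id.prodMk continuous_const)
      exact (h3.tendsto (-1)).comp hh
    apply h2.congr'
    have h4 : ∀ᶠ p in 𝓝 (t, (0 : ℂ)), hdb2_h H p < -(3 / 4) :=
      hh.eventually (gt_mem_nhds (by norm_num))
    filter_upwards [h4] with p hp
    apply hX1
    nlinarith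

theorem hdb2_cont {H : Circle × Circle → ℝ} (hH : Continuous H) (h0 : ∀ p, 0 ≤ H p)
    (h1 : ∀ p, H p < 1) {X : ℝ × Circle × Circle → ℂ} (hX : Continuous X)
    (hX1 : ∀ (h : ℝ) (p p' : Circle × Circle), 1 / 2 ≤ h ^ 2 → X (h, p) = X (h, p')) :
    Continuous (hdb2_E H X) := by
  rw [continuous_iff_continuousAt]
  rintro ⟨t, q⟩
  by_cases hq : q = 0
  · subst hq
    exact hdb2_cont_zero h0 h1 hX hX1 t
  · exact hdb2_cont_ne hH hX hq

/-- The lower solid torus. -/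
theorem solid_W (H : Circle × Circle → ℝ) (hH : Continuous H) (h0 : ∀ p, 0 ≤ H p)
    (h1 : ∀ p, H p < 1) (X : ℝ × Circle × Circle → ℂ) (hX : Continuous X)
    (hX1 : ∀ (h : ℝ) (p p' : Circle × Circle), 1 / 2 ≤ h ^ 2 → X (h, p) = X (h, p')) :
    Handlebody3 1
      {c | ∃ (h : ℝ) (a b : Circle), -1 ≤ h ∧ h ≤ -H (a, b) ∧ c = jc h a b (X (h, a, b))}
      {c | ∃ (a b : Circle), c = jc (-H (a, b)) a b (X (-H (a, b), a, b))} := by
  -- values at points with `q = r b`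
  have hvalp : ∀ (r : ℝ) (a b : Circle), 0 < r → hdb2_h H (a * b ^ 2, (r : ℂ) * b) =
      -1 + r * (1 - H (a, b)) ∧ hdb2_E H X (a * b ^ 2, (r : ℂ) * b) =
      jc (-1 + r * (1 - H (a, b))) a b (X (-1 + r * (1 - H (a, b)), a, b)) := by
    intro r a b hr
    have e1 : a * b ^ 2 * (b ^ 2)⁻¹ = a := mul_inv_cancel_right _ _
    have e2 : hdb2_h H (a * b ^ 2, (r : ℂ) * b) = -1 + r * (1 - H (a, b)) := by
      unfold hdb2_h
      simp only [hdb2_ph_smul hr, e1]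
      rw [norm_mul, Circle.norm_coe, mul_one, Complex.norm_real, Real.norm_eq_abs, abs_of_pos hr]
    refine ⟨e2, ?_⟩
    unfold hdb2_E
    simp only [hdb2_ph_smul hr, e1, e2]
  have hph0 : hdb2_ph 0 = 1 := by
    unfold hdb2_ph
    rw [dif_pos rfl]
  have hval0 : ∀ t : Circle, hdb2_E H X (t, 0) = jc (-1) t 1 (X (-1, t, 1)) := by
    intro t
    have e1 : hdb2_h H (t, 0) = -1 := by
      unfold hdb2_h
      simp
    unfold hdb2_E
    rw [e1]
    simp only [hph0, one_pow, inv_one, mul_one]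
  have hh_lt : ∀ p : Circle × ℂ, ‖p.2‖ ≤ 1 → -1 ≤ hdb2_h H p ∧ hdb2_h H p ≤ 0 := by
    intro p hp
    have := hdb2_bounds h0 h1 p
    exact ⟨this.1, by linarith⟩
  have hh_ne : ∀ p : Circle × ℂ, p.2 ≠ 0 → -1 < hdb2_h H p := by
    intro p hp
    unfold hdb2_h
    have k1 := norm_pos_iff.2 hp
    have k2 := h1 (p.1 * ((hdb2_ph p.2) ^ 2)⁻¹, hdb2_ph p.2)
    have := mul_pos k1 (sub_pos.2 k2)
    linarith
  have hinj : InjOn (hdb2_E H X) ((univ : Set Circle) ×ˢ Metric.closedBall 0 1) := by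
    rintro ⟨t, q⟩ hp ⟨t', q'⟩ hp' heq
    have hq : ‖q‖ ≤ 1 := by simpa using hp.2
    have hq' : ‖q'‖ ≤ 1 := by simpa using hp'.2
    have b1 := hh_lt (t, q) hq
    have b2 := hh_lt (t', q') hq'
    have heq' := heq
    unfold hdb2_E at heq'
    obtain ⟨e1, e2, e3⟩ := jc_inj (abs_le.2 ⟨b1.1, by linarith [b1.2]⟩)
      (abs_le.2 ⟨b2.1, by linarith [b2.2]⟩) heq'
    by_cases h2 : q = 0
    · by_cases h3 : q' = 0
      · subst h2 h3
        rw [hval0, hval0, hX1 (-1) (t, 1) (1, 1) (by norm_num),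
          hX1 (-1) (t', 1) (1, 1) (by norm_num)] at heq
        have := jc_neg_one_eq_iff.1 heq
        simp only [one_pow, mul_one] at this
        rw [this]
      · exfalso
        have k1 := hh_ne (t', q') h3
        rw [← e1, h2] at k1
        unfold hdb2_h at k1
        simp at k1
    · have k1 := hh_ne (t, q) h2
      obtain ⟨ea, eb⟩ := e3 (abs_lt.2 ⟨k1, by linarith [b1.2]⟩)
      simp only at ea eb
      have hn : ‖q‖ = ‖q'‖ := by
        unfold hdb2_h at e1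
        simp only at e1
        rw [← ea, ← eb] at e1
        have k2 := h1 (t * (hdb2_ph q ^ 2)⁻¹, hdb2_ph q)
        have k3 : 0 < 1 - H (t * (hdb2_ph q ^ 2)⁻¹, hdb2_ph q) := by linarith
        have e4 := add_left_cancel e1
        exact mul_right_cancel₀ k3.ne' e4
      have hqq : q = q' := by
        rw [← hdb2_ph_mul q, ← hdb2_ph_mul q', hn, eb]
      rw [← eb] at ea
      have ht := mul_right_cancel ea
      rw [ht, hqq]
  have main := handlebody_solidTorus (hdb2_E H X) (hdb2_cont hH h0 h1 hX hX1).continuousOn hinj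
  have himg1 : hdb2_E H X '' ((univ : Set Circle) ×ˢ Metric.closedBall 0 1) =
      {c | ∃ (h : ℝ) (a b : Circle), -1 ≤ h ∧ h ≤ -H (a, b) ∧ c = jc h a b (X (h, a, b))} := by
    ext c
    constructor
    · rintro ⟨⟨t, q⟩, hp, rfl⟩
      have hq : ‖q‖ ≤ 1 := by simpa using hp.2
      refine ⟨hdb2_h H (t, q), t * ((hdb2_ph q) ^ 2)⁻¹, hdb2_ph q, (hh_lt (t, q) hq).1, ?_, rfl⟩
      unfold hdb2_h
      simp only
      have k2 := h1 (t * (hdb2_ph q ^ 2)⁻¹, hdb2_ph q)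
      nlinarith [norm_nonneg q]
    · rintro ⟨h, a, b, hh1, hh2, rfl⟩
      have k2 := h1 (a, b)
      have k3 : 0 < 1 - H (a, b) := by linarith
      rcases hh1.eq_or_lt with h3 | h3
      · refine ⟨(a * b ^ 2, 0), ⟨mem_univ _, by simp⟩, ?_⟩
        rw [hval0, ← h3, hX1 (-1) (a * b ^ 2, 1) (1, 1) (by norm_num),
          hX1 (-1) (a, b) (1, 1) (by norm_num)]
        apply jc_neg_one_eq_iff.2
        rw [one_pow, mul_one]
      · have hr : 0 < (h + 1) / (1 - H (a, b)) := div_pos (by linarith) k3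
        refine ⟨(a * b ^ 2, (((h + 1) / (1 - H (a, b)) : ℝ) : ℂ) * b), ⟨mem_univ _, ?_⟩, ?_⟩
        · rw [mem_closedBall_zero_iff, norm_mul, Circle.norm_coe, mul_one, Complex.norm_real,
            Real.norm_eq_abs, abs_of_pos hr, div_le_one k3]
          linarith
        · rw [(hvalp _ a b hr).2, div_mul_cancel₀ _ k3.ne']
          have : -1 + (h + 1) = h := by ring
          rw [this]
  have himg2 : hdb2_E H X '' ((univ : Set Circle) ×ˢ Metric.sphere 0 1) =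
      {c | ∃ (a b : Circle), c = jc (-H (a, b)) a b (X (-H (a, b), a, b))} := by
    ext c
    constructor
    · rintro ⟨⟨t, q⟩, hp, rfl⟩
      have hq : ‖q‖ = 1 := by simpa using hp.2
      refine ⟨t * ((hdb2_ph q) ^ 2)⁻¹, hdb2_ph q, ?_⟩
      have e1 : hdb2_h H (t, q) = -H (t * ((hdb2_ph q) ^ 2)⁻¹, hdb2_ph q) := by
        unfold hdb2_h
        simp only [hq]
        ring
      unfold hdb2_E
      simp only [e1]
    · rintro ⟨a, b, rfl⟩
      refine ⟨(a * b ^ 2, (((1 : ℝ)) : ℂ) * b), ⟨mem_univ _, ?_⟩, ?_⟩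
      · rw [mem_sphere_zero_iff_norm, norm_mul, Circle.norm_coe, mul_one, Complex.norm_real,
            Real.norm_eq_abs, abs_one]
      · rw [(hvalp 1 a b one_pos).2]
        have : -1 + 1 * (1 - H (a, b)) = -H (a, b) := by ring
        rw [this]
  rw [himg1, himg2] at main
  exact main

end Pool.Agent.Tri
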