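import Mathlib
import Pool.Agent.H.MP_5efd29_gt.HdB1
import Pool.Agent.H.MP_5efd29_gt.HdB2

open scoped ContDiff Topology
open Set

noncomputable section

namespace Pool.Agent.Tri


private theorem hdb3_aux (J : ℝ → Circle → Circle → ℂ → C5)
    (hJ : Continuous (fun q : ℝ × Circle × Circle × ℂ => J q.1 q.2.1 q.2.2.1 q.2.2.2))
    (Jinj : ∀ (h h' : ℝ) (a a' b b' : Circle) (ξ ξ' : ℂ), |h| ≤ 1 → |h'| ≤ 1 →
      J h a b ξ = J h' a' b' ξ' → h = h' ∧ ξ = ξ' ∧ (|h| < 1 → a = a' ∧ b = b'))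
    (H : Circle × Circle → ℝ) (h0 : ∀ p, 0 ≤ H p)
    (h1 : ∀ p, H p < 1) (X : ℝ × Circle × Circle → ℂ) (hX : Continuous X)
    (e : ℂ → Circle × Circle) (he : ContinuousOn e (Metric.closedBall 0 1))
    (hi : InjOn e (Metric.closedBall 0 1)) (hD : e '' Metric.closedBall 0 1 = {p | H p = 0})
    (V SV W SW : Set C5)
    (hVd : V = {c | ∃ (h : ℝ) (a b : Circle), H (a, b) ≤ h ∧ h ≤ 1 ∧
      c = J h a b (X (h, a, b))})
    (hSVd : SV = {c | ∃ (a b : Circle), c = J (H (a, b)) a b (X (H (a, b), a, b))})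
    (hWd : W = {c | ∃ (h : ℝ) (a b : Circle), -1 ≤ h ∧ h ≤ -H (a, b) ∧
      c = J h a b (X (h, a, b))})
    (hSWd : SW = {c | ∃ (a b : Circle), c = J (-H (a, b)) a b (X (-H (a, b), a, b))})
    (hV : Handlebody3 1 V SV) (hW : Handlebody3 1 W SW) :
    Handlebody3 2
      {c | ∃ (h : ℝ) (a b : Circle), |h| ≤ 1 ∧ H (a, b) ≤ |h| ∧ c = J h a b (X (h, a, b))}
      {c | ∃ (h : ℝ) (a b : Circle), |h| = H (a, b) ∧ (a, b) ∉ e '' Metric.ball 0 1 ∧
        c = J h a b (X (h, a, b))} := by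
  subst hVd hSVd hWd hSWd
  let e' : ℂ → C5 := fun q => J 0 (e q).1 (e q).2 (X (0, (e q).1, (e q).2))
  have hHe : ∀ q ∈ Metric.closedBall (0 : ℂ) 1, H ((e q).1, (e q).2) = 0 := by
    intro q hq
    have h2 : e q ∈ e '' Metric.closedBall 0 1 := mem_image_of_mem e hq
    rw [hD] at h2
    exact h2
  have hc' : ContinuousOn e' (Metric.closedBall 0 1) := by
    have k1 : ContinuousOn (fun q => (e q).1) (Metric.closedBall 0 1) :=
      continuous_fst.comp_continuousOn he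
    have k2 : ContinuousOn (fun q => (e q).2) (Metric.closedBall 0 1) :=
      continuous_snd.comp_continuousOn he
    have k3 : ContinuousOn (fun q => X (0, (e q).1, (e q).2)) (Metric.closedBall 0 1) :=
      hX.comp_continuousOn (continuousOn_const.prodMk (k1.prodMk k2))
    exact hJ.comp_continuousOn
      (continuousOn_const.prodMk (k1.prodMk (k2.prodMk k3)))
  have hz : |(0 : ℝ)| ≤ 1 := by rw [abs_zero]; norm_num
  have hz' : |(0 : ℝ)| < 1 := by rw [abs_zero]; norm_num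
  have hi' : InjOn e' (Metric.closedBall 0 1) := by
    intro q hq q' hq' hqq
    obtain ⟨-, -, h5⟩ := Jinj _ _ _ _ _ _ _ _ hz hz hqq
    obtain ⟨h6, h7⟩ := h5 hz'
    exact hi hq hq' (Prod.ext h6 h7)
  have hAB : ({c | ∃ (h : ℝ) (a b : Circle), H (a, b) ≤ h ∧ h ≤ 1 ∧ c = J h a b (X (h, a, b))} : Set C5) ∩ {c | ∃ (h : ℝ) (a b : Circle), -1 ≤ h ∧ h ≤ -H (a, b) ∧ c = J h a b (X (h, a, b))} = e' '' Metric.closedBall 0 1 := by
    ext c
    constructor
    · rintro ⟨⟨h, a, b, k1, k2, rfl⟩, ⟨h', a', b', m1, m2, hc⟩⟩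
      have p1 := h0 (a, b)
      have p2 := h0 (a', b')
      obtain ⟨n1, -, -⟩ := Jinj _ _ _ _ _ _ _ _ (abs_le.2 ⟨by linarith, k2⟩) (abs_le.2 ⟨m1, by linarith⟩) hc
      have n2 : h = 0 := by linarith
      subst n2
      have n3 : (a, b) ∈ e '' Metric.closedBall 0 1 := by
        rw [hD]
        exact le_antisymm k1 p1
      obtain ⟨q, hq, hqe⟩ := n3
      refine ⟨q, hq, ?_⟩
      show J 0 (e q).1 (e q).2 (X (0, (e q).1, (e q).2)) = _
      rw [hqe]
    · rintro ⟨q, hq, rfl⟩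
      have h2 := hHe q hq
      exact ⟨⟨0, (e q).1, (e q).2, h2.le, zero_le_one, rfl⟩,
        ⟨0, (e q).1, (e q).2, by norm_num, by rw [h2, neg_zero], rfl⟩⟩
  have hS : e' '' Metric.closedBall 0 1 ⊆ {c | ∃ (a b : Circle), c = J (H (a, b)) a b (X (H (a, b), a, b))} ∩ {c | ∃ (a b : Circle), c = J (-H (a, b)) a b (X (-H (a, b), a, b))} := by
    rintro _ ⟨q, hq, rfl⟩
    have h2 := hHe q hq
    refine ⟨⟨(e q).1, (e q).2, ?_⟩, ⟨(e q).1, (e q).2, ?_⟩⟩
    · rw [h2]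
    · rw [h2, neg_zero]
  have hU : ({c | ∃ (h : ℝ) (a b : Circle), H (a, b) ≤ h ∧ h ≤ 1 ∧ c = J h a b (X (h, a, b))} : Set C5) ∪ {c | ∃ (h : ℝ) (a b : Circle), -1 ≤ h ∧ h ≤ -H (a, b) ∧ c = J h a b (X (h, a, b))} = {c | ∃ (h : ℝ) (a b : Circle), |h| ≤ 1 ∧ H (a, b) ≤ |h| ∧
      c = J h a b (X (h, a, b))} := by
    ext c
    constructor
    · rintro (⟨h, a, b, k1, k2, rfl⟩ | ⟨h, a, b, k1, k2, rfl⟩)
      · have p1 := h0 (a, b)
        exact ⟨h, a, b, abs_le.2 ⟨by linarith, k2⟩, k1.trans (le_abs_self h), rfl⟩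
      · have p1 := h0 (a, b)
        exact ⟨h, a, b, abs_le.2 ⟨k1, by linarith⟩, by
          have := neg_le_abs h
          linarith, rfl⟩
    · rintro ⟨h, a, b, k1, k2, rfl⟩
      obtain ⟨l1, l2⟩ := abs_le.1 k1
      rcases le_or_gt 0 h with hh | hh
      · left
        rw [abs_of_nonneg hh] at k2
        exact ⟨h, a, b, k2, l2, rfl⟩
      · right
        rw [abs_of_neg hh] at k2
        exact ⟨h, a, b, l1, by linarith, rfl⟩
  have hSS : (({c | ∃ (a b : Circle), c = J (H (a, b)) a b (X (H (a, b), a, b))} : Set C5) ∪ {c | ∃ (a b : Circle), c = J (-H (a, b)) a b (X (-H (a, b), a, b))}) \ e' '' Metric.ball 0 1 =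
      {c | ∃ (h : ℝ) (a b : Circle), |h| = H (a, b) ∧ (a, b) ∉ e '' Metric.ball 0 1 ∧
        c = J h a b (X (h, a, b))} := by
    ext c
    constructor
    · rintro ⟨(⟨a, b, rfl⟩ | ⟨a, b, rfl⟩), hc⟩
      · refine ⟨H (a, b), a, b, abs_of_nonneg (h0 _), ?_, rfl⟩
        rintro ⟨q, hq, hqe⟩
        apply hc
        refine ⟨q, hq, ?_⟩
        have h2 := hHe q (Metric.ball_subset_closedBall hq)
        rw [hqe] at h2
        show J 0 (e q).1 (e q).2 (X (0, (e q).1, (e q).2)) = _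
        rw [hqe, h2]
      · refine ⟨-H (a, b), a, b, by rw [abs_neg, abs_of_nonneg (h0 _)], ?_, rfl⟩
        rintro ⟨q, hq, hqe⟩
        apply hc
        refine ⟨q, hq, ?_⟩
        have h2 := hHe q (Metric.ball_subset_closedBall hq)
        rw [hqe] at h2
        show J 0 (e q).1 (e q).2 (X (0, (e q).1, (e q).2)) = _
        rw [hqe, h2, neg_zero]
    · rintro ⟨h, a, b, k1, k2, rfl⟩
      constructor
      · rcases le_or_gt 0 h with hh | hh
        · left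
          rw [abs_of_nonneg hh] at k1
          exact ⟨a, b, by rw [← k1]⟩
        · right
          rw [abs_of_neg hh] at k1
          exact ⟨a, b, by rw [← k1, neg_neg]⟩
      · rintro ⟨q, hq, hqe⟩
        have l1 : |h| ≤ 1 := by rw [k1]; exact (h1 _).le
        obtain ⟨-, -, h5⟩ := Jinj _ _ _ _ _ _ _ _ hz l1 hqe
        obtain ⟨h6, h7⟩ := h5 hz'
        exact k2 ⟨q, hq, Prod.ext h6 h7⟩
  rw [← hU, ← hSS]
  exact Handlebody3.sum e' hc' hi' hV hW hAB hS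


/-- Two solid tori glued along a disc. -/
theorem handlebody_N (H : Circle × Circle → ℝ) (hH : Continuous H) (h0 : ∀ p, 0 ≤ H p)
    (h1 : ∀ p, H p < 1) (X : ℝ × Circle × Circle → ℂ) (hX : Continuous X)
    (hX1 : ∀ (h : ℝ) (p p' : Circle × Circle), 1 / 2 ≤ h ^ 2 → X (h, p) = X (h, p'))
    (e : ℂ → Circle × Circle) (he : ContinuousOn e (Metric.closedBall 0 1))
    (hi : InjOn e (Metric.closedBall 0 1)) (hD : e '' Metric.closedBall 0 1 = {p | H p = 0}) :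
    Handlebody3 2
      {c | ∃ (h : ℝ) (a b : Circle), |h| ≤ 1 ∧ H (a, b) ≤ |h| ∧ c = jc h a b (X (h, a, b))}
      {c | ∃ (h : ℝ) (a b : Circle), |h| = H (a, b) ∧ (a, b) ∉ e '' Metric.ball 0 1 ∧
        c = jc h a b (X (h, a, b))} := by
  exact hdb3_aux jc continuous_jc (fun _ _ _ _ _ _ _ _ k1 k2 k3 => jc_inj k1 k2 k3) H h0 h1 X hX
    e he hi hD _ _ _ _ rfl rfl rfl rfl (solid_V H hH h0 h1 X hX hX1) (solid_W H hH h0 h1 X hX hX1)

end Pool.Agent.Tri
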