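import Mathlib
import Pool.Agent.H.MP_5efd29_gt.Defs

open scoped ContDiff Topology
open Set

noncomputable section

namespace Pool.Agent.Tri

theorem hda3_posDeriv {f : ℝ → ℝ} {d x : ℝ} (h : HasDerivAt f d x) (hd : 0 < d) :
    (∀ᶠ s in 𝓝[>] x, f x < f s) ∧ (∀ᶠ s in 𝓝[<] x, f s < f x) := by
  have h1 := hasDerivAt_iff_tendsto_slope.1 h
  have h2 : ∀ᶠ s in 𝓝[≠] x, 0 < slope f x s := h1.eventually (lt_mem_nhds hd)
  have hgt : 𝓝[>] x ≤ 𝓝[≠] x := nhdsWithin_mono x (fun s hs => ne_of_gt hs)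
  have hlt : 𝓝[<] x ≤ 𝓝[≠] x := nhdsWithin_mono x (fun s hs => ne_of_lt hs)
  constructor
  · filter_upwards [hgt h2, self_mem_nhdsWithin] with s hs hxs
    have hxs' : x < s := hxs
    rw [slope_def_field] at hs
    have := (div_pos_iff_of_pos_right (sub_pos.2 hxs')).1 hs
    linarith
  · filter_upwards [hlt h2, self_mem_nhdsWithin] with s hs hxs
    have hxs' : s < x := hxs
    rw [slope_def_field, ← neg_div_neg_eq] at hs
    have := (div_pos_iff_of_pos_right (by linarith)).1 hs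
    linarith

/-- points of the square stay in the square -/
theorem hda3_sq {p : ℂ} (h1 : |p.re| ≤ Real.pi) (h2 : |p.im| ≤ Real.pi) {t : ℝ} (ht0 : 0 ≤ t)
    (ht1 : t ≤ 1) : |((t : ℂ) * p).re| ≤ Real.pi ∧ |((t : ℂ) * p).im| ≤ Real.pi := by
  rw [Complex.re_ofReal_mul, Complex.im_ofReal_mul, abs_mul, abs_mul, abs_of_nonneg ht0]
  constructor
  · nlinarith [abs_nonneg p.re]
  · nlinarith [abs_nonneg p.im]

theorem hda3_star (F : ℂ → ℝ) (hF : Continuous F) (c : ℝ) (h0 : F 0 < c)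
    (hb : ∀ p : ℂ, |p.re| ≤ Real.pi → |p.im| ≤ Real.pi → (|p.re| = Real.pi ∨ |p.im| = Real.pi) →
      c < F p)
    (hm : ∀ p : ℂ, |p.re| < Real.pi → |p.im| < Real.pi → F p = c →
      ∃ d > 0, HasDerivAt (fun t : ℝ => F (t * p)) d 1)
    (p : ℂ) (h1 : |p.re| ≤ Real.pi) (h2 : |p.im| ≤ Real.pi) (hp : F p ≤ c) (t : ℝ) (ht0 : 0 ≤ t)
    (ht1 : t < 1) : F (t * p) < c := by
  -- the derivative at the crossings
  have hm' : ∀ t : ℝ, 0 ≤ t → t ≤ 1 → F (t * p) = c →
      0 < t ∧ (∀ᶠ s in 𝓝[>] (1 : ℝ), c < F ((s * t : ℝ) * p)) ∧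
        (∀ᶠ s in 𝓝[<] (1 : ℝ), F ((s * t : ℝ) * p) < c) := by
    intro t ht0 ht1 ht
    have hs := hda3_sq h1 h2 ht0 ht1
    have hpos : 0 < t := by
      rcases ht0.eq_or_lt with h | h
      · rw [← h] at ht
        simp only [Complex.ofReal_zero, zero_mul] at ht
        linarith
      · exact h
    have hre : |((t : ℂ) * p).re| < Real.pi := by
      rcases hs.1.lt_or_eq with h | h
      · exact h
      · have := hb _ hs.1 hs.2 (Or.inl h)
        linarith
    have him : |((t : ℂ) * p).im| < Real.pi := by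
      rcases hs.2.lt_or_eq with h | h
      · exact h
      · have := hb _ hs.1 hs.2 (Or.inr h)
        linarith
    obtain ⟨d, hd, hder⟩ := hm _ hre him ht
    have hq := hda3_posDeriv hder hd
    refine ⟨hpos, ?_, ?_⟩
    · filter_upwards [hq.1] with s hs
      simp only [Complex.ofReal_one, one_mul, ht] at hs
      rw [Complex.ofReal_mul, mul_assoc]
      exact hs
    · filter_upwards [hq.2] with s hs
      simp only [Complex.ofReal_one, one_mul, ht] at hs
      rw [Complex.ofReal_mul, mul_assoc]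
      exact hs
  have hG : Continuous (fun t : ℝ => F ((t : ℂ) * p)) :=
    hF.comp (Complex.continuous_ofReal.mul continuous_const)
  by_contra hcon
  push Not at hcon
  -- a point with a larger value
  obtain ⟨t1, ht10, ht11, ht1c⟩ : ∃ t1 : ℝ, 0 ≤ t1 ∧ t1 < 1 ∧ c < F (t1 * p) := by
    rcases hcon.lt_or_eq with h | h
    · exact ⟨t, ht0, ht1, h⟩
    · obtain ⟨hpos, hup, _⟩ := hm' t ht0 ht1.le h.symm
      have h3 : ∀ᶠ s in 𝓝[>] (1 : ℝ), s < 1 / t := by
        apply nhdsWithin_le_nhds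
        apply gt_mem_nhds
        rw [lt_div_iff₀ hpos]
        linarith
      obtain ⟨s, hs1, hs2, hs3⟩ := (hup.and (h3.and self_mem_nhdsWithin)).exists
      have hs3' : 1 < s := hs3
      refine ⟨s * t, by positivity, ?_, hs1⟩
      rwa [lt_div_iff₀ hpos] at hs2
  have hZc : IsCompact {t : ℝ | t ∈ Icc t1 1 ∧ F (t * p) ≤ c} := by
    have : {t : ℝ | t ∈ Icc t1 1 ∧ F (t * p) ≤ c} = Icc t1 1 ∩ {t : ℝ | F (t * p) ≤ c} := rfl
    rw [this]
    exact isCompact_Icc.inter_right (isClosed_le hG continuous_const)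
  have hZne : {t : ℝ | t ∈ Icc t1 1 ∧ F (t * p) ≤ c}.Nonempty := by
    refine ⟨1, ⟨ht11.le, le_refl _⟩, ?_⟩
    simpa using hp
  have hinf := hZc.sInf_mem hZne
  set t2 := sInf {t : ℝ | t ∈ Icc t1 1 ∧ F (t * p) ≤ c} with ht2
  have hmin : ∀ t ∈ {t : ℝ | t ∈ Icc t1 1 ∧ F (t * p) ≤ c}, t2 ≤ t := fun t ht =>
    csInf_le hZc.bddBelow ht
  obtain ⟨⟨ht12, ht21⟩, ht2c⟩ := hinf
  have hlt12 : t1 < t2 := by
    rcases ht12.lt_or_eq with h | h
    · exact h
    · rw [h] at ht1c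
      linarith
  have heq : F (t2 * p) = c := by
    by_contra hne
    have hlt : F (t2 * p) < c := lt_of_le_of_ne ht2c hne
    have hivt := intermediate_value_Icc' ht12 hG.continuousOn
    obtain ⟨t3, ht3, ht3c⟩ := hivt (show c ∈ Icc (F (t2 * p)) (F (t1 * p)) from ⟨hlt.le, ht1c.le⟩)
    have ht3c' : F (t3 * p) = c := ht3c
    have h4 := hmin t3 ⟨⟨ht3.1, ht3.2.trans ht21⟩, ht3c'.le⟩
    have h5 : t3 = t2 := le_antisymm ht3.2 h4
    rw [h5] at ht3c'
    exact hne ht3c'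
  obtain ⟨hpos, _, hdown⟩ := hm' t2 (ht10.trans ht12) ht21 heq
  have h3 : ∀ᶠ s in 𝓝[<] (1 : ℝ), t1 / t2 < s := by
    apply nhdsWithin_le_nhds
    apply lt_mem_nhds
    rw [div_lt_iff₀ hpos]
    linarith
  obtain ⟨s, hs1, hs2, hs3⟩ := (hdown.and (h3.and self_mem_nhdsWithin)).exists
  have hs3' : s < 1 := hs3
  rw [div_lt_iff₀ hpos] at hs2
  have h4 : s * t2 < t2 := by nlinarith
  have h5 := hmin (s * t2) ⟨⟨hs2.le, h4.le.trans ht21⟩, hs1.le⟩
  linarith

/-- the radial function as the inverse of a continuous bijection of compact spaces -/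
theorem hda3_radial (F : ℂ → ℝ) (hF : Continuous F) (c : ℝ) (h0 : F 0 < c)
    (hb : ∀ p : ℂ, |p.re| ≤ Real.pi → |p.im| ≤ Real.pi → (|p.re| = Real.pi ∨ |p.im| = Real.pi) →
      c < F p)
    (hst : ∀ p : ℂ, |p.re| ≤ Real.pi → |p.im| ≤ Real.pi → F p ≤ c → ∀ t : ℝ, 0 ≤ t → t < 1 →
      F (t * p) < c) :
    ∃ Ψ : ℂ → ℂ, ContinuousOn Ψ (Metric.sphere 0 1) ∧
      ∀ v ∈ Metric.sphere (0 : ℂ) 1, |(Ψ v).re| ≤ Real.pi ∧ |(Ψ v).im| ≤ Real.pi ∧ F (Ψ v) = c ∧
        0 < ‖Ψ v‖ ∧ Ψ v = ‖Ψ v‖ * v := by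
  classical
  set K : Set ℂ := {p : ℂ | |p.re| ≤ Real.pi ∧ |p.im| ≤ Real.pi ∧ F p = c} with hK
  have hKc : IsCompact K := by
    apply Metric.isCompact_of_isClosed_isBounded
    · apply IsClosed.inter
      · exact isClosed_le (continuous_abs.comp Complex.continuous_re) continuous_const
      · apply IsClosed.inter
        · exact isClosed_le (continuous_abs.comp Complex.continuous_im) continuous_const
        · exact isClosed_eq hF continuous_const
    · apply (Metric.isBounded_closedBall (x := (0 : ℂ)) (r := 2 * Real.pi)).subset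
      intro p hp
      rw [mem_closedBall_zero_iff]
      have := Complex.norm_le_abs_re_add_abs_im p
      linarith [hp.1, hp.2.1]
  have hKpos : ∀ p ∈ K, 0 < ‖p‖ := by
    intro p hp
    rw [norm_pos_iff]
    rintro rfl
    have := hp.2.2
    linarith
  have : CompactSpace K := isCompact_iff_compactSpace.1 hKc
  have hmem : ∀ p : K, (p : ℂ) / ‖(p : ℂ)‖ ∈ Metric.sphere (0 : ℂ) 1 := by
    intro p
    have := hKpos p p.2
    rw [mem_sphere_zero_iff_norm, norm_div, Complex.norm_real, norm_norm, div_self this.ne']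
  let φ : K → Metric.sphere (0 : ℂ) 1 := fun p => ⟨(p : ℂ) / ‖(p : ℂ)‖, hmem p⟩
  have hφc : Continuous φ := by
    apply Continuous.subtype_mk
    apply Continuous.div continuous_subtype_val
    · exact Complex.continuous_ofReal.comp continuous_subtype_val.norm
    · intro p
      exact_mod_cast (hKpos p p.2).ne'
  have hinj' : ∀ p ∈ K, ∀ q ∈ K, p / ‖p‖ = q / ‖q‖ → ¬ ‖p‖ < ‖q‖ := by
    intro p hp q hq h hlt
    have hpp := hKpos p hp
    have hqp := hKpos q hq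
    have h1 := hst q hq.1 hq.2.1 hq.2.2.le (‖p‖ / ‖q‖) (by positivity) ((div_lt_one hqp).2 hlt)
    have hpn : (‖p‖ : ℂ) ≠ 0 := by exact_mod_cast hpp.ne'
    have hqn : (‖q‖ : ℂ) ≠ 0 := by exact_mod_cast hqp.ne'
    have h2 : ((‖p‖ / ‖q‖ : ℝ) : ℂ) * q = p := by
      rw [div_eq_div_iff hpn hqn] at h
      rw [Complex.ofReal_div, div_mul_eq_mul_div, div_eq_iff hqn]
      linear_combination -h
    rw [h2, hp.2.2] at h1
    exact lt_irrefl _ h1
  have hinj : Function.Injective φ := by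
    intro p q hpq
    have h1 : (p : ℂ) / ‖(p : ℂ)‖ = (q : ℂ) / ‖(q : ℂ)‖ := congrArg Subtype.val hpq
    have h2 : ‖(p : ℂ)‖ = ‖(q : ℂ)‖ :=
      le_antisymm (not_lt.1 (hinj' q q.2 p p.2 h1.symm)) (not_lt.1 (hinj' p p.2 q q.2 h1))
    apply Subtype.ext
    rw [h2] at h1
    have hqn : (‖(q : ℂ)‖ : ℂ) ≠ 0 := by exact_mod_cast (hKpos q q.2).ne'
    exact (div_left_inj' hqn).1 h1
  have hsurj : Function.Surjective φ := by
    rintro ⟨v, hv⟩
    rw [mem_sphere_zero_iff_norm] at hv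
    have hmax : 0 < max |v.re| |v.im| := by
      rw [lt_max_iff]
      by_contra hcon
      push Not at hcon
      have h1 : v.re = 0 := abs_nonpos_iff.1 hcon.1
      have h2 : v.im = 0 := abs_nonpos_iff.1 hcon.2
      have h3 : v = 0 := Complex.ext h1 h2
      rw [h3, norm_zero] at hv
      norm_num at hv
    set T := Real.pi / max |v.re| |v.im| with hT
    have hTpos : 0 < T := div_pos Real.pi_pos hmax
    have hTm : T * max |v.re| |v.im| = Real.pi := by
      rw [hT]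
      field_simp
    have hin : ∀ r : ℝ, 0 ≤ r → r ≤ T → |((r : ℂ) * v).re| ≤ Real.pi ∧
        |((r : ℂ) * v).im| ≤ Real.pi := by
      intro r hr hrT
      rw [Complex.re_ofReal_mul, Complex.im_ofReal_mul, abs_mul, abs_mul, abs_of_nonneg hr]
      constructor
      · calc r * |v.re| ≤ T * max |v.re| |v.im| :=
              mul_le_mul hrT (le_max_left _ _) (abs_nonneg _) hTpos.le
          _ = Real.pi := hTm
      · calc r * |v.im| ≤ T * max |v.re| |v.im| :=
              mul_le_mul hrT (le_max_right _ _) (abs_nonneg _) hTpos.le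
          _ = Real.pi := hTm
    have hTb : c < F (T * v) := by
      obtain ⟨h1, h2⟩ := hin T hTpos.le le_rfl
      apply hb _ h1 h2
      rw [Complex.re_ofReal_mul, Complex.im_ofReal_mul, abs_mul, abs_mul, abs_of_nonneg hTpos.le]
      rcases max_choice |v.re| |v.im| with h | h
      · left
        rw [h] at hTm
        exact hTm
      · right
        rw [h] at hTm
        exact hTm
    have hG : Continuous (fun t : ℝ => F ((t : ℂ) * v)) :=
      hF.comp (Complex.continuous_ofReal.mul continuous_const)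
    have hivt := intermediate_value_Icc hTpos.le hG.continuousOn
    obtain ⟨r, hr, hrc⟩ := hivt (show c ∈ Icc (F (((0 : ℝ) : ℂ) * v)) (F (T * v)) from
      ⟨by simpa using h0.le, hTb.le⟩)
    have hrc' : F (r * v) = c := hrc
    have hrpos : 0 < r := by
      rcases hr.1.eq_or_lt with h | h
      · rw [← h] at hrc'
        simp only [Complex.ofReal_zero, zero_mul] at hrc'
        linarith
      · exact h
    obtain ⟨h1, h2⟩ := hin r hr.1 hr.2
    refine ⟨⟨r * v, h1, h2, hrc'⟩, ?_⟩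
    apply Subtype.ext
    show (r * v : ℂ) / ‖(r * v : ℂ)‖ = v
    rw [norm_mul, hv, Complex.norm_real, mul_one, Real.norm_eq_abs, abs_of_pos hrpos]
    have : (r : ℂ) ≠ 0 := by exact_mod_cast hrpos.ne'
    field_simp
  let f : K ≃ Metric.sphere (0 : ℂ) 1 := Equiv.ofBijective φ ⟨hinj, hsurj⟩
  have hfc : Continuous f := hφc
  let g := hfc.homeoOfEquivCompactToT2
  have hgc : Continuous (fun v : Metric.sphere (0 : ℂ) 1 => ((f.symm v : K) : ℂ)) :=
    continuous_subtype_val.comp g.symm.continuous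
  refine ⟨fun v => if hv : v ∈ Metric.sphere (0 : ℂ) 1 then ((f.symm ⟨v, hv⟩ : K) : ℂ) else 0,
    ?_, ?_⟩
  · rw [continuousOn_iff_continuous_domRestrict]
    convert hgc using 1
    ext v
    simp only [Set.domRestrict_apply]
    rw [dif_pos v.2]
  · intro v hv
    simp only [dif_pos hv]
    have h1 := (f.symm ⟨v, hv⟩).2
    have hpos := hKpos _ h1
    refine ⟨h1.1, h1.2.1, h1.2.2, hpos, ?_⟩
    have h2 : f (f.symm ⟨v, hv⟩) = ⟨v, hv⟩ := f.apply_symm_apply _
    have h3 : ((f.symm ⟨v, hv⟩ : K) : ℂ) / ‖((f.symm ⟨v, hv⟩ : K) : ℂ)‖ = v :=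
      congrArg Subtype.val h2
    have hn : (‖((f.symm ⟨v, hv⟩ : K) : ℂ)‖ : ℂ) ≠ 0 := by exact_mod_cast hpos.ne'
    rw [div_eq_iff hn] at h3
    rw [mul_comm]
    exact h3

/-- Star-shaped discs. -/
theorem star_square (F : ℂ → ℝ) (hF : Continuous F) (c : ℝ) (h0 : F 0 < c)
    (hb : ∀ p : ℂ, |p.re| ≤ Real.pi → |p.im| ≤ Real.pi → (|p.re| = Real.pi ∨ |p.im| = Real.pi) →
      c < F p)
    (hm : ∀ p : ℂ, |p.re| < Real.pi → |p.im| < Real.pi → F p = c →
      ∃ d > 0, HasDerivAt (fun t : ℝ => F (t * p)) d 1) :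
    ∃ e : ℂ → ℂ, ContinuousOn e (Metric.closedBall 0 1) ∧ InjOn e (Metric.closedBall 0 1) ∧
      e '' Metric.closedBall 0 1 = {p : ℂ | |p.re| < Real.pi ∧ |p.im| < Real.pi ∧ F p ≤ c} ∧
      e '' Metric.ball 0 1 = {p : ℂ | |p.re| < Real.pi ∧ |p.im| < Real.pi ∧ F p < c} := by
  have hst := hda3_star F hF c h0 hb hm
  obtain ⟨Ψ, hΨc, hΨ⟩ := hda3_radial F hF c h0 hb hst
  have hsph : ∀ q : ℂ, q ≠ 0 → q / ‖q‖ ∈ Metric.sphere (0 : ℂ) 1 := by
    intro q hq
    have := norm_pos_iff.2 hq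
    rw [mem_sphere_zero_iff_norm, norm_div, Complex.norm_real, norm_norm, div_self this.ne']
  have hopen : ∀ p : ℂ, |p.re| ≤ Real.pi → |p.im| ≤ Real.pi → F p ≤ c →
      |p.re| < Real.pi ∧ |p.im| < Real.pi := by
    intro p h1 h2 h3
    constructor
    · rcases h1.lt_or_eq with h | h
      · exact h
      · have := hb _ h1 h2 (Or.inl h)
        linarith
    · rcases h2.lt_or_eq with h | h
      · exact h
      · have := hb _ h1 h2 (Or.inr h)
        linarith
  -- the polar form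
  have hpol : ∀ q : ℂ, q ≠ 0 → (‖q‖ : ℂ) * Ψ (q / ‖q‖) = ‖Ψ (q / ‖q‖)‖ * q := by
    intro q hq
    have h1 := (hΨ _ (hsph q hq)).2.2.2.2
    have hn : (‖q‖ : ℂ) ≠ 0 := by exact_mod_cast (norm_pos_iff.2 hq).ne'
    calc (‖q‖ : ℂ) * Ψ (q / ‖q‖) = ‖q‖ * (‖Ψ (q / ‖q‖)‖ * (q / ‖q‖)) := by rw [← h1]
      _ = ‖Ψ (q / ‖q‖)‖ * q := by field_simp
  have hval : ∀ q : ℂ, q ≠ 0 → ‖q‖ ≤ 1 → |((‖q‖ : ℂ) * Ψ (q / ‖q‖)).re| ≤ Real.pi ∧
      |((‖q‖ : ℂ) * Ψ (q / ‖q‖)).im| ≤ Real.pi ∧ F (‖q‖ * Ψ (q / ‖q‖)) ≤ c ∧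
      (‖q‖ < 1 → F (‖q‖ * Ψ (q / ‖q‖)) < c) := by
    intro q hq h1
    obtain ⟨k1, k2, k3, _, _⟩ := hΨ _ (hsph q hq)
    obtain ⟨l1, l2⟩ := hda3_sq k1 k2 (norm_nonneg q) h1
    refine ⟨l1, l2, ?_, fun h => hst _ k1 k2 k3.le _ (norm_nonneg q) h⟩
    rcases h1.lt_or_eq with h | h
    · exact (hst _ k1 k2 k3.le _ (norm_nonneg q) h).le
    · rw [h, Complex.ofReal_one, one_mul, div_one]
      rw [h, Complex.ofReal_one, div_one] at k3
      exact k3.le
  -- preimages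
  have hpre : ∀ p : ℂ, p ≠ 0 → |p.re| < Real.pi → |p.im| < Real.pi → F p ≤ c →
      ∃ q : ℂ, q ≠ 0 ∧ ‖q‖ ≤ 1 ∧ (F p < c → ‖q‖ < 1) ∧ (‖q‖ : ℂ) * Ψ (q / ‖q‖) = p := by
    intro p hp h1 h2 h3
    have hpn := norm_pos_iff.2 hp
    obtain ⟨k1, k2, k3, k4, k5⟩ := hΨ _ (hsph p hp)
    have hpc : (‖p‖ : ℂ) ≠ 0 := by exact_mod_cast hpn.ne'
    have hΨn : (‖Ψ (p / ‖p‖)‖ : ℂ) ≠ 0 := by exact_mod_cast k4.ne'
    have hle : ‖p‖ ≤ ‖Ψ (p / ‖p‖)‖ := by
      by_contra hcon
      push Not at hcon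
      have h4 := hst p h1.le h2.le h3 (‖Ψ (p / ‖p‖)‖ / ‖p‖) (by positivity)
        ((div_lt_one hpn).2 hcon)
      have h5 : ((‖Ψ (p / ‖p‖)‖ / ‖p‖ : ℝ) : ℂ) * p = Ψ (p / ‖p‖) := by
        conv_rhs => rw [k5]
        rw [Complex.ofReal_div]
        field_simp
      rw [h5, k3] at h4
      exact lt_irrefl _ h4
    have hqn : ‖((1 / ‖Ψ (p / ‖p‖)‖ : ℝ) : ℂ) * p‖ = ‖p‖ / ‖Ψ (p / ‖p‖)‖ := by
      rw [norm_mul, Complex.norm_real, Real.norm_eq_abs, abs_of_pos (by positivity)]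
      ring
    have hdir : (((1 / ‖Ψ (p / ‖p‖)‖ : ℝ) : ℂ) * p) /
        ‖((1 / ‖Ψ (p / ‖p‖)‖ : ℝ) : ℂ) * p‖ = p / ‖p‖ := by
      rw [hqn]
      rw [Complex.ofReal_div, Complex.ofReal_div, Complex.ofReal_one]
      field_simp
    refine ⟨((1 / ‖Ψ (p / ‖p‖)‖ : ℝ) : ℂ) * p, ?_, ?_, ?_, ?_⟩
    · rw [mul_ne_zero_iff]
      refine ⟨?_, hp⟩
      rw [Complex.ofReal_ne_zero]
      positivity
    · rw [hqn, div_le_one k4]
      exact hle
    · intro h6
      rw [hqn, div_lt_one k4]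
      rcases hle.lt_or_eq with h7 | h7
      · exact h7
      · exfalso
        rw [← h7] at k5
        have h8 : Ψ (p / ‖p‖) = p := by
          rw [k5]
          field_simp
        rw [h8] at k3
        linarith
    · rw [hdir, hqn]
      calc ((‖p‖ / ‖Ψ (p / ‖p‖)‖ : ℝ) : ℂ) * Ψ (p / ‖p‖)
          = ((‖p‖ / ‖Ψ (p / ‖p‖)‖ : ℝ) : ℂ) * (‖Ψ (p / ‖p‖)‖ * (p / ‖p‖)) := by rw [← k5]
        _ = p := by
          rw [Complex.ofReal_div]
          field_simp
  refine ⟨fun q => (‖q‖ : ℂ) * Ψ (q / ‖q‖), ?_, ?_, ?_, ?_⟩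
  · have hbd : ∀ q : ℂ, q ≠ 0 → ‖Ψ (q / ‖q‖)‖ ≤ 2 * Real.pi := by
      intro q hq
      have h1 := hΨ _ (hsph q hq)
      have := Complex.norm_le_abs_re_add_abs_im (Ψ (q / ‖q‖))
      linarith [h1.1, h1.2.1]
    have hcont : Continuous (fun q : ℂ => (‖q‖ : ℂ) * Ψ (q / ‖q‖)) := by
      rw [continuous_iff_continuousAt]
      intro q
      by_cases hq : q = 0
      · subst hq
        unfold ContinuousAt
        simp only [norm_zero, Complex.ofReal_zero, zero_mul]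
        apply squeeze_zero_norm (a := fun q : ℂ => ‖q‖ * (2 * Real.pi))
        · intro q
          by_cases hq : q = 0
          · rw [hq]
            simp
          · rw [norm_mul, Complex.norm_real, norm_norm]
            exact mul_le_mul_of_nonneg_left (hbd q hq) (norm_nonneg q)
        · have : Filter.Tendsto (fun q : ℂ => ‖q‖ * (2 * Real.pi)) (𝓝 0)
              (𝓝 (‖(0 : ℂ)‖ * (2 * Real.pi))) :=
            (continuous_norm.mul continuous_const).tendsto 0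
          simpa using this
      · have h1 : ContinuousOn (fun q : ℂ => q / ‖q‖) {0}ᶜ := by
          apply ContinuousOn.div continuousOn_id
          · exact (Complex.continuous_ofReal.comp continuous_norm).continuousOn
          · intro q hq
            exact_mod_cast (norm_pos_iff.2 hq).ne'
        have h2 : ContinuousOn (fun q : ℂ => (‖q‖ : ℂ) * Ψ (q / ‖q‖)) {0}ᶜ := by
          apply ContinuousOn.mul
          · exact (Complex.continuous_ofReal.comp continuous_norm).continuousOn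
          · exact hΨc.comp h1 (fun q hq => hsph q hq)
        exact h2.continuousAt (isOpen_compl_singleton.mem_nhds hq)
    exact hcont.continuousOn
  · intro q hq q' hq' heq
    simp only at heq
    have hz : ∀ q : ℂ, q ≠ 0 → (‖q‖ : ℂ) * Ψ (q / ‖q‖) ≠ 0 := by
      intro q hq
      rw [hpol q hq]
      apply mul_ne_zero _ hq
      exact_mod_cast (hΨ _ (hsph q hq)).2.2.2.1.ne'
    by_cases h1 : q = 0
    · by_cases h2 : q' = 0
      · rw [h1, h2]
      · exfalso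
        apply hz q' h2
        rw [← heq, h1]
        simp
    · by_cases h2 : q' = 0
      · exfalso
        apply hz q h1
        rw [heq, h2]
        simp
      · have hpos : 0 < ‖Ψ (q / ‖q‖)‖ := (hΨ _ (hsph q h1)).2.2.2.1
        have hpos' : 0 < ‖Ψ (q' / ‖q'‖)‖ := (hΨ _ (hsph q' h2)).2.2.2.1
        have hdirq : ∀ (q : ℂ) (r : ℝ), 0 < r → q ≠ 0 → ((r : ℂ) * q) / ‖(r : ℂ) * q‖ =
            q / ‖q‖ := by
          intro q r hr hq
          rw [norm_mul, Complex.norm_real, Real.norm_eq_abs, abs_of_pos hr, Complex.ofReal_mul]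
          have hr' : (r : ℂ) ≠ 0 := by exact_mod_cast hr.ne'
          have hn : (‖q‖ : ℂ) ≠ 0 := by exact_mod_cast (norm_pos_iff.2 hq).ne'
          field_simp
        have hdir : q / ‖q‖ = q' / ‖q'‖ := by
          rw [← hdirq q _ hpos h1, ← hdirq q' _ hpos' h2, ← hpol q h1, ← hpol q' h2, heq]
        rw [hpol q h1, hpol q' h2, ← hdir] at heq
        have hn : (‖Ψ (q / ‖q‖)‖ : ℂ) ≠ 0 := by exact_mod_cast hpos.ne'
        exact mul_left_cancel₀ hn heq
  · ext p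
    simp only [mem_image, mem_closedBall_zero_iff, mem_ofPred_eq]
    constructor
    · rintro ⟨q, hq, rfl⟩
      by_cases h1 : q = 0
      · rw [h1]
        simp [Real.pi_pos, h0.le]
      · obtain ⟨k1, k2, k3, _⟩ := hval q h1 hq
        obtain ⟨l1, l2⟩ := hopen _ k1 k2 k3
        exact ⟨l1, l2, k3⟩
    · rintro ⟨h1, h2, h3⟩
      by_cases hp : p = 0
      · exact ⟨0, by simp, by simp [hp]⟩
      · obtain ⟨q, _, hq1, _, hq2⟩ := hpre p hp h1 h2 h3
        exact ⟨q, hq1, hq2⟩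
  · ext p
    simp only [mem_image, mem_ball_zero_iff, mem_ofPred_eq]
    constructor
    · rintro ⟨q, hq, rfl⟩
      by_cases h1 : q = 0
      · rw [h1]
        simp [Real.pi_pos, h0]
      · obtain ⟨k1, k2, k3, k4⟩ := hval q h1 hq.le
        obtain ⟨l1, l2⟩ := hopen _ k1 k2 k3
        exact ⟨l1, l2, k4 hq⟩
    · rintro ⟨h1, h2, h3⟩
      by_cases hp : p = 0
      · exact ⟨0, by simp, by simp [hp]⟩
      · obtain ⟨q, _, _, hq1, hq2⟩ := hpre p hp h1 h2 h3.le
        exact ⟨q, hq1 h3, hq2⟩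

end Pool.Agent.Tri
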