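import Mathlib
import Pool.Agent.H.MP_5efd29_gt.HdDefs
import Pool.Agent.H.MP_5efd29_gt.HdA
import Pool.Agent.H.MP_5efd29_gt.FunA

open scoped ContDiff Topology
open Set

noncomputable section

namespace Pool.Agent.Tri

private theorem hdc_re (x : ℝ) : ((Circle.exp x : Circle) : ℂ).re = Real.cos x := by
  rw [Circle.coe_exp, Complex.exp_ofReal_mul_I_re]

private theorem hdc_inj {x y : ℝ} (h : Circle.exp x = Circle.exp y)
    (hxy : |x - y| < 2 * Real.pi) : x = y := by
  obtain ⟨m, hm⟩ := Circle.exp_eq_exp.1 h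
  have hpi := Real.pi_pos
  have h1 : x - y = m * (2 * Real.pi) := by linarith
  rw [h1, abs_mul, abs_of_pos (show (0 : ℝ) < 2 * Real.pi by linarith)] at hxy
  have h2 : |(m : ℝ)| < 1 := by
    by_contra h3
    push Not at h3
    nlinarith
  have h3 : |m| < 1 := by exact_mod_cast h2
  have h4 : m = 0 := Int.abs_lt_one_iff.1 h3
  rw [h4, Int.cast_zero, zero_mul] at h1
  linarith

private theorem hdc_surj (z : Circle) : ∃ x : ℝ, |x| ≤ Real.pi ∧ Circle.exp (Real.pi + x) = z := by
  refine ⟨Complex.arg ((Circle.exp Real.pi)⁻¹ * z : Circle), ?_, ?_⟩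
  · rw [abs_le]
    exact ⟨(Complex.neg_pi_lt_arg _).le, Complex.arg_le_pi _⟩
  · rw [Circle.exp_add, Circle.exp_arg, mul_inv_cancel_left]

/-- the function in the square -/
private def hdcF (g : ℂ → ℝ) (p : ℂ) : ℝ :=
  bt (g p) + (Lam (1 + Real.cos p.re) + Lam (1 + Real.cos p.im)) ^ 2

private theorem hdc_bt_cont : Continuous bt := contDiff_bt.continuous

private theorem hdc_Lam_cont : Continuous Lam := contDiff_Lam.continuous

private theorem hdc_bt_der (u : ℝ) : HasDerivAt bt (deriv bt u) u :=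
  ((contDiff_bt.differentiable (by simp)) u).hasDerivAt

private theorem hdc_Lam_der (u : ℝ) : HasDerivAt Lam (deriv Lam u) u :=
  ((contDiff_Lam.differentiable (by simp)) u).hasDerivAt

private theorem hdc_sin_nonneg {a : ℝ} (ha : |a| < Real.pi) : 0 ≤ a * Real.sin a := by
  rw [abs_lt] at ha
  rcases le_or_gt 0 a with h | h
  · exact mul_nonneg h (Real.sin_nonneg_of_nonneg_of_le_pi h ha.2.le)
  · have := Real.sin_nonpos_of_nonpos_of_neg_pi_le h.le ha.1.le
    exact mul_nonneg_of_nonpos_of_nonpos h.le this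

private theorem hdc_sin_pos {a : ℝ} (ha : |a| < Real.pi) (hc : Real.cos a < 0) :
    0 < a * Real.sin a := by
  rw [abs_lt] at ha
  rcases lt_trichotomy a 0 with h | h | h
  · have := Real.sin_neg_of_neg_of_neg_pi_lt h ha.1
    exact mul_pos_of_neg_of_neg h this
  · rw [h, Real.cos_zero] at hc
    linarith
  · exact mul_pos h (Real.sin_pos_of_pos_of_lt_pi h ha.2)

private theorem hdc_cos_der (a : ℝ) :
    HasDerivAt (fun t : ℝ => Real.cos (t * a)) (-(a * Real.sin a)) 1 := by
  have h1 : HasDerivAt (fun t : ℝ => t * a) a 1 := by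
    simpa using (hasDerivAt_id (1 : ℝ)).mul_const a
  have h2 := h1.cos
  rw [one_mul] at h2
  have e : -Real.sin a * a = -(a * Real.sin a) := by ring
  rw [e] at h2
  exact h2

private theorem hdc_lam_ray (a : ℝ) :
    HasDerivAt (fun t : ℝ => Lam (1 + Real.cos (t * a)))
      (deriv Lam (1 + Real.cos a) * (-(a * Real.sin a))) 1 := by
  have h1 := (hdc_cos_der a).const_add 1
  have h2 : HasDerivAt Lam (deriv Lam (1 + Real.cos a)) (1 + Real.cos (1 * a)) := by
    rw [one_mul]
    exact hdc_Lam_der _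
  have h3 := HasDerivAt.comp (h₂ := Lam) (h := fun t : ℝ => 1 + Real.cos (t * a)) 1 h2 h1
  exact h3

/-- The derivative along the ray is positive on the level set. -/
private theorem hdc_level (g : ℂ → ℝ) (p : ℂ) (hp1 : |p.re| < Real.pi) (hp2 : |p.im| < Real.pi)
    (hF : hdcF g p = 1 / 100) (g' : ℝ) (hg : HasDerivAt (fun t : ℝ => g (t * p)) g' 1)
    (hneg : 0 < g p → g p < 1 / 100 → 3 / 10000 < 1 + Real.cos p.re → g' < 0) :
    ∃ d > 0, HasDerivAt (fun t : ℝ => hdcF g (t * p)) d 1 := by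
  have hA := hdc_sin_nonneg hp1
  have hB := hdc_sin_nonneg hp2
  have e1 : (((1 : ℝ) : ℂ) * p) = p := by simp
  have hb : HasDerivAt (fun t : ℝ => bt (g (t * p))) (deriv bt (g p) * g') 1 := by
    have h2 : HasDerivAt bt (deriv bt (g p)) (g (((1 : ℝ) : ℂ) * p)) := by
      rw [e1]
      exact hdc_bt_der _
    have h3 := HasDerivAt.comp (h₂ := bt) (h := fun t : ℝ => g (t * p)) (1 : ℝ) h2 hg
    exact h3
  have hL := (hdc_lam_ray p.re).add (hdc_lam_ray p.im)
  have hL2 := hL.pow 2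
  have hall := hb.add hL2
  have hfun : (fun t : ℝ => hdcF g (t * p)) = (fun t : ℝ => bt (g (t * p))) +
      (((fun t : ℝ => Lam (1 + Real.cos (t * p.re))) +
        fun t : ℝ => Lam (1 + Real.cos (t * p.im))) ^ 2) := by
    funext t
    simp only [hdcF, Pi.add_apply, Pi.pow_apply, Complex.re_ofReal_mul, Complex.im_ofReal_mul]
  have hLa := deriv_Lam_nonpos (1 + Real.cos p.re)
  have hLb := deriv_Lam_nonpos (1 + Real.cos p.im)
  have hna := Lam_nonneg (1 + Real.cos p.re)
  have hnb := Lam_nonneg (1 + Real.cos p.im)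
  have hbn := bt_nonneg (g p)
  have hca := Real.neg_one_le_cos p.re
  have hcb := Real.neg_one_le_cos p.im
  refine ⟨_, ?_, by rw [hfun]; exact hall⟩
  simp only [Pi.add_apply, one_mul, Nat.cast_ofNat, Nat.add_one_sub_one, pow_one]
  unfold hdcF at hF
  set La := Lam (1 + Real.cos p.re) with hLa'
  set Lb := Lam (1 + Real.cos p.im) with hLb'
  set A := p.re * Real.sin p.re with hA'
  set B := p.im * Real.sin p.im with hB'
  have hta : 0 ≤ deriv Lam (1 + Real.cos p.re) * (-A) := mul_nonneg_of_nonpos_of_nonpos hLa (by linarith)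
  have htb : 0 ≤ deriv Lam (1 + Real.cos p.im) * (-B) := mul_nonneg_of_nonpos_of_nonpos hLb (by linarith)
  rcases hbn.lt_or_eq with hpos | hzero
  · -- bt positive
    have hsq : (La + Lb) ^ 2 ≤ 1 / 100 := by linarith
    have hbt16 : bt (g p) < 1 / 16 := by nlinarith [sq_nonneg (La + Lb)]
    obtain ⟨k1, k2, k3⟩ := deriv_bt_neg hpos hbt16
    have hS : La + Lb ≤ 1 / 10 := by nlinarith
    have hv : 3 / 10000 < 1 + Real.cos p.re := lt_of_Lam_le (by linarith)
    have hg' := hneg k1 k2 hv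
    have h5 : 0 < deriv bt (g p) * g' := mul_pos_of_neg_of_neg k3 hg'
    have h6 : 0 ≤ 2 * (La + Lb) * (deriv Lam (1 + Real.cos p.re) * (-A) +
        deriv Lam (1 + Real.cos p.im) * (-B)) := by positivity
    linarith
  · have hz : bt (g p) = 0 := hzero.symm
    rw [deriv_bt_eq_zero hz, zero_mul, zero_add]
    have hsq : (La + Lb) ^ 2 = 1 / 100 := by linarith
    have hS : La + Lb = 1 / 10 := by
      have h7 : (La + Lb - 1 / 10) * (La + Lb + 1 / 10) = 0 := by ring_nf; ring_nf at hsq; linarith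
      rcases mul_eq_zero.1 h7 with h | h <;> linarith
    have hsum : 0 < deriv Lam (1 + Real.cos p.re) * (-A) +
        deriv Lam (1 + Real.cos p.im) * (-B) := by
      rcases hna.lt_or_eq with ha | ha
      · obtain ⟨k1, k2, k3⟩ := deriv_Lam_neg (v := 1 + Real.cos p.re) ha (by linarith)
        have h8 : 0 < A := hdc_sin_pos hp1 (by linarith)
        have h9 : 0 < deriv Lam (1 + Real.cos p.re) * (-A) :=
          mul_pos_of_neg_of_neg k3 (by linarith)
        linarith
      · have hb0 : 0 < Lb := by linarith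
        obtain ⟨k1, k2, k3⟩ := deriv_Lam_neg (v := 1 + Real.cos p.im) hb0 (by linarith)
        have h8 : 0 < B := hdc_sin_pos hp2 (by linarith)
        have h9 : 0 < deriv Lam (1 + Real.cos p.im) * (-B) :=
          mul_pos_of_neg_of_neg k3 (by linarith)
        linarith
    rw [hS]
    linarith

private theorem hdc_main (g : ℂ → ℝ) (hgc : Continuous g) (hg0 : 1 / 100 ≤ g 0) (g' : ℂ → ℝ)
    (hg : ∀ p, HasDerivAt (fun t : ℝ => g (t * p)) (g' p) 1)
    (hneg : ∀ p, |p.re| < Real.pi → |p.im| < Real.pi → 0 < g p → g p < 1 / 100 →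
      3 / 10000 < 1 + Real.cos p.re → g' p < 0)
    (κ : ℂ → Circle × Circle) (hκ : Continuous κ)
    (hinj : InjOn κ {p : ℂ | |p.re| < Real.pi ∧ |p.im| < Real.pi})
    (hsur : ∀ q, ∃ p : ℂ, |p.re| ≤ Real.pi ∧ |p.im| ≤ Real.pi ∧ κ p = q)
    (G : Circle × Circle → ℝ) (hG : ∀ p, G (κ p) = hdcF g p) :
    ∃ e : ℂ → Circle × Circle,
    ContinuousOn e (Metric.closedBall 0 1) ∧ InjOn e (Metric.closedBall 0 1) ∧
    e '' Metric.closedBall 0 1 = {p | G p ≤ 1 / 100} ∧
    e '' Metric.ball 0 1 = {p | G p < 1 / 100} := by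
  have hFc : Continuous (hdcF g) := by
    unfold hdcF
    have h1 : Continuous fun p : ℂ => Lam (1 + Real.cos p.re) :=
      hdc_Lam_cont.comp (continuous_const.add (Real.continuous_cos.comp Complex.continuous_re))
    have h2 : Continuous fun p : ℂ => Lam (1 + Real.cos p.im) :=
      hdc_Lam_cont.comp (continuous_const.add (Real.continuous_cos.comp Complex.continuous_im))
    exact (hdc_bt_cont.comp hgc).add ((h1.add h2).pow 2)
  have hF0 : hdcF g 0 < 1 / 100 := by
    unfold hdcF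
    rw [bt_eq_zero hg0, Complex.zero_re, Complex.zero_im, Real.cos_zero,
      (Lam_eq_zero_iff (1 + 1)).2 (by norm_num)]
    norm_num
  have hbd : ∀ p : ℂ, |p.re| ≤ Real.pi → |p.im| ≤ Real.pi →
      (|p.re| = Real.pi ∨ |p.im| = Real.pi) → 1 / 100 < hdcF g p := by
    intro p _ _ hp
    unfold hdcF
    have hna := Lam_nonneg (1 + Real.cos p.re)
    have hnb := Lam_nonneg (1 + Real.cos p.im)
    have hbn := bt_nonneg (g p)
    rcases hp with hp | hp
    · have h1 : Real.cos p.re = -1 := by rw [← Real.cos_abs, hp, Real.cos_pi]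
      have h2 : Lam (1 + Real.cos p.re) = 1 / 8 := Lam_of_nonpos (by rw [h1]; norm_num)
      rw [h2]
      nlinarith
    · have h1 : Real.cos p.im = -1 := by rw [← Real.cos_abs, hp, Real.cos_pi]
      have h2 : Lam (1 + Real.cos p.im) = 1 / 8 := Lam_of_nonpos (by rw [h1]; norm_num)
      rw [h2]
      nlinarith
  obtain ⟨e, he1, he2, he3, he4⟩ := star_square (hdcF g) hFc (1 / 100) hF0 hbd
    (fun p hp1 hp2 hp3 => hdc_level g p hp1 hp2 hp3 (g' p) (hg p) (hneg p hp1 hp2))
  have hmaps : ∀ x ∈ Metric.closedBall (0 : ℂ) 1,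
      e x ∈ {p : ℂ | |p.re| < Real.pi ∧ |p.im| < Real.pi} := by
    intro x hx
    have h1 : e x ∈ e '' Metric.closedBall 0 1 := mem_image_of_mem e hx
    rw [he3] at h1
    exact ⟨h1.1, h1.2.1⟩
  have hopen : ∀ p : ℂ, |p.re| ≤ Real.pi → |p.im| ≤ Real.pi → hdcF g p ≤ 1 / 100 →
      |p.re| < Real.pi ∧ |p.im| < Real.pi := by
    intro p h1 h2 h3
    by_contra hcon
    have h4 : |p.re| = Real.pi ∨ |p.im| = Real.pi := by
      by_contra h5
      push Not at h5
      exact hcon ⟨lt_of_le_of_ne h1 h5.1, lt_of_le_of_ne h2 h5.2⟩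
    have := hbd p h1 h2 h4
    linarith
  refine ⟨fun x => κ (e x), hκ.comp_continuousOn he1, hinj.comp he2 hmaps, ?_, ?_⟩
  · have h1 : (fun x => κ (e x)) '' Metric.closedBall 0 1 = κ '' (e '' Metric.closedBall 0 1) :=
      (image_image κ e _).symm
    rw [h1, he3]
    ext q
    constructor
    · rintro ⟨p, ⟨hp1, hp2, hp3⟩, rfl⟩
      show G (κ p) ≤ 1 / 100
      rw [hG]
      exact hp3
    · intro hq
      obtain ⟨p, hp1, hp2, rfl⟩ := hsur q
      have h2 : G (κ p) ≤ 1 / 100 := hq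
      rw [hG] at h2
      obtain ⟨h3, h4⟩ := hopen p hp1 hp2 h2
      exact ⟨p, ⟨h3, h4, h2⟩, rfl⟩
  · have h1 : (fun x => κ (e x)) '' Metric.ball 0 1 = κ '' (e '' Metric.ball 0 1) :=
      (image_image κ e _).symm
    rw [h1, he4]
    ext q
    constructor
    · rintro ⟨p, ⟨hp1, hp2, hp3⟩, rfl⟩
      show G (κ p) < 1 / 100
      rw [hG]
      exact hp3
    · intro hq
      obtain ⟨p, hp1, hp2, rfl⟩ := hsur q
      have h2 : G (κ p) < 1 / 100 := hq
      rw [hG] at h2
      obtain ⟨h3, h4⟩ := hopen p hp1 hp2 h2.le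
      exact ⟨p, ⟨h3, h4, h2⟩, rfl⟩

/-- comparison of `c sin c` and `a sin a` -/
private theorem hdc_cmp {a c : ℝ} (ha : |a| < Real.pi) (hc : |c| < 2 * Real.pi)
    (h1 : 3 / 10000 < 1 + Real.cos a) (h2 : 1 - Real.cos c + (1 + Real.cos a) < 1 / 100) :
    c * Real.sin c < a * Real.sin a := by
  have hpi := Real.pi_pos
  have hca := Real.neg_one_le_cos a
  have hcc := Real.cos_le_one c
  have ha1 : Real.cos a < -(99 / 100) := by linarith
  have hc1 : 99 / 100 < Real.cos c := by linarith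
  have hA : 0 < a * Real.sin a := hdc_sin_pos ha (by linarith)
  rcases le_or_gt (c * Real.sin c) 0 with hX | hX
  · linarith
  -- now c sin c > 0, so |c| ≤ π / 2
  have hc2 : |c| ≤ Real.pi / 2 := by
    by_contra hcon
    push Not at hcon
    rcases le_or_gt |c| (Real.pi + Real.pi / 2) with h3 | h3
    · have h4 : Real.cos |c| ≤ 0 := Real.cos_nonpos_of_pi_div_two_le_of_le hcon.le (by linarith)
      rw [Real.cos_abs] at h4
      linarith
    · have h4 : Real.sin |c| < 0 := by
        have h5 : Real.sin |c| = -Real.sin (2 * Real.pi - |c|) := by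
          rw [Real.sin_two_pi_sub, neg_neg]
        rw [h5]
        have h6 : 0 < Real.sin (2 * Real.pi - |c|) :=
          Real.sin_pos_of_pos_of_lt_pi (by linarith) (by linarith)
        linarith
      rcases abs_cases c with ⟨h7, h8⟩ | ⟨h7, h8⟩
      · rw [h7] at h4
        have : c * Real.sin c ≤ 0 := mul_nonpos_of_nonneg_of_nonpos h8 h4.le
        linarith
      · rw [h7, Real.sin_neg] at h4
        have : c * Real.sin c ≤ 0 := mul_nonpos_of_nonpos_of_nonneg h8.le (by linarith)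
        linarith
  have hc3 := Real.mul_abs_le_abs_sin hc2
  have hc4 : |c| ≤ Real.pi / 2 * |Real.sin c| := by
    rw [div_mul_eq_mul_div, div_le_iff₀ hpi] at hc3
    linarith
  have hX1 : c * Real.sin c ≤ Real.pi / 2 * Real.sin c ^ 2 := by
    calc c * Real.sin c ≤ |c * Real.sin c| := le_abs_self _
      _ = |c| * |Real.sin c| := abs_mul _ _
      _ ≤ (Real.pi / 2 * |Real.sin c|) * |Real.sin c| :=
        mul_le_mul_of_nonneg_right hc4 (abs_nonneg _)
      _ = Real.pi / 2 * Real.sin c ^ 2 := by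
        rw [mul_assoc, abs_mul_abs_self]; ring
  have hsc : Real.sin c ^ 2 < 1 / 50 := by
    have := Real.sin_sq_add_cos_sq c
    nlinarith
  have hX2 : c * Real.sin c < Real.pi / 100 := by nlinarith
  have hsa : 59 / 100000 < Real.sin a ^ 2 := by
    have := Real.sin_sq_add_cos_sq a
    nlinarith
  have haa : Real.pi / 2 < |a| := by
    by_contra hcon
    push Not at hcon
    have := Real.cos_nonneg_of_mem_Icc (x := a) (abs_le.1 hcon)
    linarith
  have hA2 : (Real.pi / 100) ^ 2 < (a * Real.sin a) ^ 2 := by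
    have h5 : (Real.pi / 2) ^ 2 ≤ a ^ 2 := by
      rw [← sq_abs a]
      exact pow_le_pow_left₀ (by linarith) haa.le 2
    have h6 : (Real.pi / 2) ^ 2 * (59 / 100000) ≤ a ^ 2 * Real.sin a ^ 2 :=
      mul_le_mul h5 hsa.le (by norm_num) (sq_nonneg a)
    rw [mul_pow]
    have h7 : 0 < Real.pi ^ 2 := by positivity
    nlinarith
  have hA3 : Real.pi / 100 < a * Real.sin a := lt_of_pow_lt_pow_left₀ 2 hA.le hA2
  linarith

private def hdcK1 (p : ℂ) : Circle × Circle :=
  (Circle.exp (Real.pi + p.re), Circle.exp (Real.pi + p.im))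

private def hdcK2 (p : ℂ) : Circle × Circle :=
  (Circle.exp (p.im - p.re), Circle.exp (Real.pi + p.re))

private def hdcK0 (p : ℂ) : Circle × Circle :=
  (Circle.exp (Real.pi + p.re), Circle.exp (p.im - p.re))

private theorem hdc_cos_pi (x : ℝ) : Real.cos (Real.pi + x) = -Real.cos x := by
  rw [add_comm, Real.cos_add_pi]

private theorem hdc_diff {x y : ℝ} (hx : |x| < Real.pi) (hy : |y| < Real.pi) :
    |x - y| < 2 * Real.pi := by
  rw [abs_lt] at hx hy ⊢
  constructor <;> linarith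

private theorem hdc_inj1 : InjOn hdcK1 {p : ℂ | |p.re| < Real.pi ∧ |p.im| < Real.pi} := by
  intro p hp q hq hpq
  have h1 : Circle.exp (Real.pi + p.re) = Circle.exp (Real.pi + q.re) := congrArg Prod.fst hpq
  have h2 : Circle.exp (Real.pi + p.im) = Circle.exp (Real.pi + q.im) := congrArg Prod.snd hpq
  have h3 := hdc_inj h1 (by
    have := hdc_diff hp.1 hq.1
    rwa [add_sub_add_left_eq_sub])
  have h4 := hdc_inj h2 (by
    have := hdc_diff hp.2 hq.2
    rwa [add_sub_add_left_eq_sub])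
  exact Complex.ext (by linarith) (by linarith)

private theorem hdc_inj20 {p q : ℂ} (hp : |p.re| < Real.pi ∧ |p.im| < Real.pi)
    (hq : |q.re| < Real.pi ∧ |q.im| < Real.pi)
    (h1 : Circle.exp (Real.pi + p.re) = Circle.exp (Real.pi + q.re))
    (h2 : Circle.exp (p.im - p.re) = Circle.exp (q.im - q.re)) : p = q := by
  have h3 := hdc_inj h1 (by
    have := hdc_diff hp.1 hq.1
    rwa [add_sub_add_left_eq_sub])
  have h5 : p.re = q.re := by linarith
  rw [h5] at h2
  have h4 := hdc_inj h2 (by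
    have := hdc_diff hp.2 hq.2
    rwa [sub_sub_sub_cancel_right])
  exact Complex.ext h5 (by linarith)

private theorem hdc_inj2 : InjOn hdcK2 {p : ℂ | |p.re| < Real.pi ∧ |p.im| < Real.pi} :=
  fun _ hp _ hq hpq => hdc_inj20 hp hq (congrArg Prod.snd hpq) (congrArg Prod.fst hpq)

private theorem hdc_inj0 : InjOn hdcK0 {p : ℂ | |p.re| < Real.pi ∧ |p.im| < Real.pi} :=
  fun _ hp _ hq hpq => hdc_inj20 hp hq (congrArg Prod.fst hpq) (congrArg Prod.snd hpq)

private theorem hdc_sur1 (q : Circle × Circle) :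
    ∃ p : ℂ, |p.re| ≤ Real.pi ∧ |p.im| ≤ Real.pi ∧ hdcK1 p = q := by
  obtain ⟨x, hx, hx'⟩ := hdc_surj q.1
  obtain ⟨y, hy, hy'⟩ := hdc_surj q.2
  exact ⟨⟨x, y⟩, hx, hy, Prod.ext hx' hy'⟩

private theorem hdc_sur20 (a b : Circle) :
    ∃ p : ℂ, |p.re| ≤ Real.pi ∧ |p.im| ≤ Real.pi ∧ Circle.exp (Real.pi + p.re) = a ∧
      Circle.exp (p.im - p.re) = b := by
  obtain ⟨x, hx, hx'⟩ := hdc_surj a
  obtain ⟨y, hy, hy'⟩ := hdc_surj (a * b)
  refine ⟨⟨x, y⟩, hx, hy, hx', ?_⟩
  have h1 : y - x = (Real.pi + y) - (Real.pi + x) := by ring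
  show Circle.exp (y - x) = b
  rw [h1, Circle.exp_sub, hy', hx', mul_div_cancel_left]

private theorem hdc_exp_cont : Continuous (fun x : ℝ => Circle.exp x) := Circle.exp.continuous

private theorem hdc_K1_cont : Continuous hdcK1 :=
  (hdc_exp_cont.comp (continuous_const.add Complex.continuous_re)).prodMk
    (hdc_exp_cont.comp (continuous_const.add Complex.continuous_im))

private theorem hdc_K2_cont : Continuous hdcK2 :=
  (hdc_exp_cont.comp (Complex.continuous_im.sub Complex.continuous_re)).prodMk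
    (hdc_exp_cont.comp (continuous_const.add Complex.continuous_re))

private theorem hdc_K0_cont : Continuous hdcK0 :=
  (hdc_exp_cont.comp (continuous_const.add Complex.continuous_re)).prodMk
    (hdc_exp_cont.comp (Complex.continuous_im.sub Complex.continuous_re))

private def hdcg1 (p : ℂ) : ℝ := 2 + Real.cos p.re + Real.cos p.im

private def hdcg2 (p : ℂ) : ℝ := 2 - Real.cos (p.im - p.re) + Real.cos p.re

private theorem hdc_g1_der (p : ℂ) : HasDerivAt (fun t : ℝ => hdcg1 (t * p))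
    (-(p.re * Real.sin p.re) + -(p.im * Real.sin p.im)) 1 := by
  have h := ((hdc_cos_der p.re).const_add 2).add (hdc_cos_der p.im)
  have hfun : (fun t : ℝ => hdcg1 (t * p)) = (fun t : ℝ => 2 + Real.cos (t * p.re)) +
      fun t : ℝ => Real.cos (t * p.im) := by
    funext t
    simp only [hdcg1, Pi.add_apply, Complex.re_ofReal_mul, Complex.im_ofReal_mul]
  rw [hfun]
  exact h

private theorem hdc_g2_der (p : ℂ) : HasDerivAt (fun t : ℝ => hdcg2 (t * p))
    (-(-((p.im - p.re) * Real.sin (p.im - p.re))) + -(p.re * Real.sin p.re)) 1 := by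
  have h := ((hdc_cos_der (p.im - p.re)).const_sub 2).add (hdc_cos_der p.re)
  have hfun : (fun t : ℝ => hdcg2 (t * p)) =
      (fun t : ℝ => 2 - Real.cos (t * (p.im - p.re))) + fun t : ℝ => Real.cos (t * p.re) := by
    funext t
    simp only [hdcg2, Pi.add_apply, Complex.re_ofReal_mul, Complex.im_ofReal_mul, mul_sub]
  rw [hfun]
  exact h

private theorem hdc_g2_neg (p : ℂ) (hp1 : |p.re| < Real.pi) (hp2 : |p.im| < Real.pi)
    (_ : 0 < hdcg2 p) (h1 : hdcg2 p < 1 / 100) (h2 : 3 / 10000 < 1 + Real.cos p.re) :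
    -(-((p.im - p.re) * Real.sin (p.im - p.re))) + -(p.re * Real.sin p.re) < 0 := by
  have h3 := hdc_cmp (a := p.re) (c := p.im - p.re) hp1 (hdc_diff hp2 hp1) h2 (by
    unfold hdcg2 at h1
    linarith)
  linarith

/-- The three discs. -/
theorem exists_disc (k : Fin 3) : ∃ e : ℂ → Circle × Circle,
    ContinuousOn e (Metric.closedBall 0 1) ∧ InjOn e (Metric.closedBall 0 1) ∧
    e '' Metric.closedBall 0 1 = {p | bt (2 - (p.1 : ℂ).re - (p.2 : ℂ).re) +
      (∑ l, if l = k then 0 else Lam (vc l p.1 p.2)) ^ 2 ≤ 1 / 100} ∧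
    e '' Metric.ball 0 1 = {p | bt (2 - (p.1 : ℂ).re - (p.2 : ℂ).re) +
      (∑ l, if l = k then 0 else Lam (vc l p.1 p.2)) ^ 2 < 1 / 100} := by
  have hg1c : Continuous hdcg1 :=
    (continuous_const.add (Real.continuous_cos.comp Complex.continuous_re)).add
      (Real.continuous_cos.comp Complex.continuous_im)
  have hg2c : Continuous hdcg2 :=
    (continuous_const.sub (Real.continuous_cos.comp
      (Complex.continuous_im.sub Complex.continuous_re))).add
      (Real.continuous_cos.comp Complex.continuous_re)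
  have hg10 : 1 / 100 ≤ hdcg1 0 := by
    unfold hdcg1
    rw [Complex.zero_re, Complex.zero_im, Real.cos_zero]
    norm_num
  have hg20 : 1 / 100 ≤ hdcg2 0 := by
    unfold hdcg2
    rw [Complex.zero_re, Complex.zero_im, sub_zero, Real.cos_zero]
    norm_num
  have hk : k = 0 ∨ k = 1 ∨ k = 2 := by
    fin_cases k
    · left; rfl
    · right; left; rfl
    · right; right; rfl
  rcases hk with rfl | rfl | rfl
  · refine hdc_main hdcg2 hg2c hg20 _ hdc_g2_der hdc_g2_neg hdcK0 hdc_K0_cont hdc_inj0 ?_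
      (fun p => bt (2 - (p.1 : ℂ).re - (p.2 : ℂ).re) +
        (∑ l, if l = (0 : Fin 3) then 0 else Lam (vc l p.1 p.2)) ^ 2) ?_
    · intro q
      obtain ⟨p, h1, h2, h3, h4⟩ := hdc_sur20 q.1 q.2
      exact ⟨p, h1, h2, Prod.ext h3 h4⟩
    · intro p
      have e1 : ((hdcK0 p).1 : ℂ).re = -Real.cos p.re := by
        show ((Circle.exp (Real.pi + p.re) : Circle) : ℂ).re = _
        rw [hdc_re, hdc_cos_pi]
      have e2 : ((hdcK0 p).2 : ℂ).re = Real.cos (p.im - p.re) := hdc_re _
      have e3 : (((hdcK0 p).1 : ℂ) * ((hdcK0 p).2 : ℂ)).re = -Real.cos p.im := by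
        have h1 : ((hdcK0 p).1 : ℂ) * ((hdcK0 p).2 : ℂ) =
            ((Circle.exp (Real.pi + p.re) * Circle.exp (p.im - p.re) : Circle) : ℂ) := rfl
        rw [h1, ← Circle.exp_add, hdc_re]
        have h2 : Real.pi + p.re + (p.im - p.re) = Real.pi + p.im := by ring
        rw [h2, hdc_cos_pi]
      rw [Fin.sum_univ_three, if_pos rfl, if_neg (by decide), if_neg (by decide), zero_add]
      have v1 : vc 1 (hdcK0 p).1 (hdcK0 p).2 =
          1 - (((hdcK0 p).1 : ℂ) * ((hdcK0 p).2 : ℂ)).re := rfl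
      have v2 : vc 2 (hdcK0 p).1 (hdcK0 p).2 = 1 - ((hdcK0 p).1 : ℂ).re := rfl
      rw [v1, v2, e1, e2, e3]
      unfold hdcF hdcg2
      have u1 : 2 - -Real.cos p.re - Real.cos (p.im - p.re) =
        2 - Real.cos (p.im - p.re) + Real.cos p.re := by ring
      rw [u1, sub_neg_eq_add, sub_neg_eq_add,
        add_comm (Lam (1 + Real.cos p.im)) (Lam (1 + Real.cos p.re))]
  · refine hdc_main hdcg1 hg1c hg10 _ hdc_g1_der ?_ hdcK1 hdc_K1_cont hdc_inj1 hdc_sur1
      (fun p => bt (2 - (p.1 : ℂ).re - (p.2 : ℂ).re) +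
        (∑ l, if l = (1 : Fin 3) then 0 else Lam (vc l p.1 p.2)) ^ 2) ?_
    · intro p hp1 hp2 _ h1 _
      unfold hdcg1 at h1
      have hcb := Real.neg_one_le_cos p.im
      have h3 := hdc_sin_pos hp1 (by linarith)
      have h4 := hdc_sin_nonneg hp2
      linarith
    · intro p
      have e1 : ((hdcK1 p).1 : ℂ).re = -Real.cos p.re := by
        show ((Circle.exp (Real.pi + p.re) : Circle) : ℂ).re = _
        rw [hdc_re, hdc_cos_pi]
      have e2 : ((hdcK1 p).2 : ℂ).re = -Real.cos p.im := by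
        show ((Circle.exp (Real.pi + p.im) : Circle) : ℂ).re = _
        rw [hdc_re, hdc_cos_pi]
      rw [Fin.sum_univ_three, if_neg (by decide), if_pos rfl, if_neg (by decide), add_zero]
      have v0 : vc 0 (hdcK1 p).1 (hdcK1 p).2 = 1 - ((hdcK1 p).2 : ℂ).re := rfl
      have v2 : vc 2 (hdcK1 p).1 (hdcK1 p).2 = 1 - ((hdcK1 p).1 : ℂ).re := rfl
      rw [v0, v2, e1, e2]
      unfold hdcF hdcg1
      have u1 : 2 - -Real.cos p.re - -Real.cos p.im =
        2 + Real.cos p.re + Real.cos p.im := by ring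
      rw [u1, sub_neg_eq_add, sub_neg_eq_add,
        add_comm (Lam (1 + Real.cos p.im)) (Lam (1 + Real.cos p.re))]
  · refine hdc_main hdcg2 hg2c hg20 _ hdc_g2_der hdc_g2_neg hdcK2 hdc_K2_cont hdc_inj2 ?_
      (fun p => bt (2 - (p.1 : ℂ).re - (p.2 : ℂ).re) +
        (∑ l, if l = (2 : Fin 3) then 0 else Lam (vc l p.1 p.2)) ^ 2) ?_
    · intro q
      obtain ⟨p, h1, h2, h3, h4⟩ := hdc_sur20 q.2 q.1
      exact ⟨p, h1, h2, Prod.ext h4 h3⟩
    · intro p
      have e1 : ((hdcK2 p).1 : ℂ).re = Real.cos (p.im - p.re) := hdc_re _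
      have e2 : ((hdcK2 p).2 : ℂ).re = -Real.cos p.re := by
        show ((Circle.exp (Real.pi + p.re) : Circle) : ℂ).re = _
        rw [hdc_re, hdc_cos_pi]
      have e3 : (((hdcK2 p).1 : ℂ) * ((hdcK2 p).2 : ℂ)).re = -Real.cos p.im := by
        have h1 : ((hdcK2 p).1 : ℂ) * ((hdcK2 p).2 : ℂ) =
            ((Circle.exp (p.im - p.re) * Circle.exp (Real.pi + p.re) : Circle) : ℂ) := rfl
        rw [h1, ← Circle.exp_add, hdc_re]
        have h2 : p.im - p.re + (Real.pi + p.re) = Real.pi + p.im := by ring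
        rw [h2, hdc_cos_pi]
      rw [Fin.sum_univ_three, if_neg (by decide), if_neg (by decide), if_pos rfl, add_zero]
      have v0 : vc 0 (hdcK2 p).1 (hdcK2 p).2 = 1 - ((hdcK2 p).2 : ℂ).re := rfl
      have v1 : vc 1 (hdcK2 p).1 (hdcK2 p).2 =
          1 - (((hdcK2 p).1 : ℂ) * ((hdcK2 p).2 : ℂ)).re := rfl
      rw [v0, v1, e1, e2, e3]
      unfold hdcF hdcg2
      have u1 : 2 - Real.cos (p.im - p.re) - -Real.cos p.re =
        2 - Real.cos (p.im - p.re) + Real.cos p.re := by ring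
      rw [u1, sub_neg_eq_add, sub_neg_eq_add]

end Pool.Agent.Tri
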