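import Mathlib
import Pool.Agent.H.MP_5efd29_gt.HdB
import Pool.Agent.H.MP_5efd29_gt.HdC
import Pool.Agent.H.MP_5efd29_gt.FunA2

open scoped ContDiff Topology
open Set

noncomputable section

namespace Pool.Agent.Tri

/-- The sum of the two band profiles. -/
def hddS (k : Fin 3) (a b : Circle) : ℝ := ∑ l, if l = k then 0 else Lam (vc l a b)

theorem hdd_S_nonneg (k : Fin 3) (a b : Circle) : 0 ≤ hddS k a b := by
  unfold hddS
  apply Finset.sum_nonneg
  intro l _
  split_ifs
  · exact le_rfl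
  · exact Lam_nonneg _

theorem hdd_Lc (k : Fin 3) (h : ℝ) (a b : Circle) : Lc k h a b = eta h * hddS k a b := by
  unfold Lc hddS lamc
  rw [Finset.mul_sum]
  refine Finset.sum_congr rfl fun l _ => ?_
  split_ifs
  · rw [mul_zero]
  · rfl

theorem hdd_cont_cc : Continuous cc := contDiff_cc.continuous

theorem hdd_cont_eta : Continuous eta := contDiff_eta.continuous

theorem hdd_cont_bt : Continuous bt := contDiff_bt.continuous

theorem hdd_cont_Lam : Continuous Lam := contDiff_Lam.continuous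

theorem hdd_cont_a : Continuous (fun q : ℝ × (Circle × Circle) => (q.2.1 : ℂ)) :=
  continuous_induced_dom.comp (continuous_fst.comp continuous_snd)

theorem hdd_cont_b : Continuous (fun q : ℝ × (Circle × Circle) => (q.2.2 : ℂ)) :=
  continuous_induced_dom.comp (continuous_snd.comp continuous_snd)

theorem hdd_cont_vc (l : Fin 3) :
    Continuous (fun q : ℝ × (Circle × Circle) => vc l q.2.1 q.2.2) := by
  have h0 : Continuous (fun q : ℝ × (Circle × Circle) => 1 - ((q.2.2 : Circle) : ℂ).re) :=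
    continuous_const.sub (Complex.continuous_re.comp hdd_cont_b)
  have h1 : Continuous (fun q : ℝ × (Circle × Circle) =>
      1 - (((q.2.1 : Circle) : ℂ) * ((q.2.2 : Circle) : ℂ)).re) :=
    continuous_const.sub (Complex.continuous_re.comp (hdd_cont_a.mul hdd_cont_b))
  have h2 : Continuous (fun q : ℝ × (Circle × Circle) => 1 - ((q.2.1 : Circle) : ℂ).re) :=
    continuous_const.sub (Complex.continuous_re.comp hdd_cont_a)
  fin_cases l
  · exact h0
  · exact h1
  · exact h2

theorem hdd_cont_lamc (l : Fin 3) :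
    Continuous (fun q : ℝ × (Circle × Circle) => lamc l q.1 q.2.1 q.2.2) :=
  (hdd_cont_eta.comp continuous_fst).mul (hdd_cont_Lam.comp (hdd_cont_vc l))

theorem hdd_cont_Lc (k : Fin 3) :
    Continuous (fun q : ℝ × (Circle × Circle) => Lc k q.1 q.2.1 q.2.2) := by
  unfold Lc
  apply continuous_finsetSum
  intro l _
  by_cases h : l = k
  · simp only [h, if_true]
    exact continuous_const
  · simp only [h, if_false]
    exact hdd_cont_lamc l

theorem hdd_cont_rc :
    Continuous (fun q : ℝ × (Circle × Circle) => rc q.1 q.2.1 q.2.2) := by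
  unfold rc
  have h1 : Continuous (fun q : ℝ × (Circle × Circle) =>
      2 - ((q.2.1 : Circle) : ℂ).re - ((q.2.2 : Circle) : ℂ).re) :=
    (continuous_const.sub (Complex.continuous_re.comp hdd_cont_a)).sub
      (Complex.continuous_re.comp hdd_cont_b)
  exact ((continuous_fst.pow 2).add continuous_const).sub
    ((hdd_cont_cc.comp continuous_fst).mul (hdd_cont_bt.comp h1))

theorem hdd_cont_xp (k : Fin 3) :
    Continuous (fun q : ℝ × (Circle × Circle) => xp k q.1 q.2.1 q.2.2) := by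
  unfold xp
  apply Continuous.sub
  · apply continuous_finsetSum
    intro l _
    by_cases h : l = k
    · simp only [h, if_true]
      exact continuous_const
    · simp only [h, if_false]
      exact (Complex.continuous_ofReal.comp (hdd_cont_lamc l)).mul continuous_const
  · apply Continuous.mul _ continuous_const
    apply Complex.continuous_ofReal.comp
    apply Continuous.div_const
    exact (hdd_cont_Lc k).neg.add (Real.continuous_sqrt.comp
      ((continuous_const.mul hdd_cont_rc).sub (continuous_const.mul ((hdd_cont_Lc k).pow 2))))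

/-- The main part is a handlebody of genus two. -/
theorem handlebody_A (k : Fin 3) : Handlebody3 2 (AAc k) (SAc k) := by
  obtain ⟨ψ, hψ⟩ : ∃ ψ : ℝ × (Circle × Circle) → ℝ,
      ψ = fun q => rc q.1 q.2.1 q.2.2 - (Lc k q.1 q.2.1 q.2.2) ^ 2 := ⟨_, rfl⟩
  have hval : ∀ (h : ℝ) (a b : Circle), ψ (h, (a, b)) = h ^ 2 + 1 / 100 -
      cc h * bt (2 - (a : ℂ).re - (b : ℂ).re) - (eta h * hddS k a b) ^ 2 := by
    intro h a b
    rw [hψ]
    show rc h a b - (Lc k h a b) ^ 2 = _
    rw [hdd_Lc]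
    rfl
  have hcont : Continuous ψ := by
    rw [hψ]
    exact hdd_cont_rc.sub ((hdd_cont_Lc k).pow 2)
  have heven : ∀ (h : ℝ) (p : Circle × Circle), ψ (|h|, p) = ψ (h, p) := by
    rintro h ⟨a, b⟩
    rw [hval, hval]
    rcases abs_cases h with ⟨e, -⟩ | ⟨e, -⟩
    · rw [e]
    · rw [e, cc_neg, eta_neg, neg_sq]
  have hmono : ∀ p, StrictMonoOn (fun h => ψ (h, p)) (Icc 0 1) := by
    rintro ⟨a, b⟩ x hx y hy hxy
    show ψ (x, (a, b)) < ψ (y, (a, b))
    rw [hval, hval]
    have h1 : x ^ 2 < y ^ 2 := pow_lt_pow_left₀ hxy hx.1 (by norm_num)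
    have h2 : cc y ≤ cc x := antitoneOn_cc hx.1 hy.1 hxy.le
    have h3 : eta y ≤ eta x := antitoneOn_eta hx.1 hy.1 hxy.le
    have h4 := bt_nonneg (2 - (a : ℂ).re - (b : ℂ).re)
    have h5 := hdd_S_nonneg k a b
    have h6 : cc y * bt (2 - (a : ℂ).re - (b : ℂ).re) ≤
        cc x * bt (2 - (a : ℂ).re - (b : ℂ).re) := mul_le_mul_of_nonneg_right h2 h4
    have h7 : eta y * hddS k a b ≤ eta x * hddS k a b := mul_le_mul_of_nonneg_right h3 h5
    have h8 : 0 ≤ eta y * hddS k a b := mul_nonneg (eta_nonneg y) h5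
    have h9 : (eta y * hddS k a b) ^ 2 ≤ (eta x * hddS k a b) ^ 2 := pow_le_pow_left₀ h8 h7 2
    linarith
  have hone : ∀ p, 0 < ψ (1, p) := by
    rintro ⟨a, b⟩
    rw [hval, cc_of_large (by norm_num), (eta_eq_zero_iff 1).2 (by norm_num)]
    norm_num
  obtain ⟨H, H1, H2, H3, H4, H5⟩ := exists_root ψ hcont hmono hone
  obtain ⟨e, he1, he2, he3, he4⟩ := exists_disc k
  have hzero : ∀ a b : Circle, ψ (0, (a, b)) =
      1 / 100 - (bt (2 - (a : ℂ).re - (b : ℂ).re) + (hddS k a b) ^ 2) := by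
    intro a b
    rw [hval, cc_of_small (by norm_num), eta_of_small (by norm_num)]
    ring
  have hD : e '' Metric.closedBall 0 1 = {p | H p = 0} := by
    rw [he3]
    ext ⟨a, b⟩
    show bt (2 - (a : ℂ).re - (b : ℂ).re) + (hddS k a b) ^ 2 ≤ 1 / 100 ↔ H (a, b) = 0
    have h1 := H4 (a, b) 0 ⟨le_rfl, zero_le_one⟩
    rw [hzero] at h1
    constructor
    · intro h2
      exact le_antisymm (h1.2 (by linarith)) (H2 _)
    · intro h2
      have := h1.1 h2.le
      linarith
  have hX1 : ∀ (h : ℝ) (p p' : Circle × Circle), 1 / 2 ≤ h ^ 2 →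
      (fun q : ℝ × (Circle × Circle) => xp k q.1 q.2.1 q.2.2) (h, p) =
        (fun q : ℝ × (Circle × Circle) => xp k q.1 q.2.1 q.2.2) (h, p') := by
    rintro h ⟨a, b⟩ ⟨a', b'⟩ hh
    show xp k h a b = xp k h a' b'
    have hc : cc h = 0 := cc_of_large (by linarith)
    have hE : eta h = 0 := (eta_eq_zero_iff h).2 (by linarith)
    have g1 : ∀ (l : Fin 3) (a b : Circle), lamc l h a b = 0 := by
      intro l a b
      unfold lamc
      rw [hE, zero_mul]
    have g2 : ∀ a b : Circle, Lc k h a b = 0 := by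
      intro a b
      rw [hdd_Lc, hE, zero_mul]
    have g3 : ∀ a b : Circle, rc h a b = h ^ 2 + 1 / 100 := by
      intro a b
      unfold rc
      rw [hc, zero_mul, sub_zero]
    unfold xp
    simp only [g1, g2, g3]
  have hmain := handlebody_N H H1 H2 H3 (fun q : ℝ × (Circle × Circle) => xp k q.1 q.2.1 q.2.2)
    (hdd_cont_xp k) hX1 e he1 he2 hD
  have hA : AAc k = {c | ∃ (h : ℝ) (a b : Circle), |h| ≤ 1 ∧ H (a, b) ≤ |h| ∧
      c = jc h a b ((fun q : ℝ × (Circle × Circle) => xp k q.1 q.2.1 q.2.2) (h, a, b))} := by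
    ext c
    have key : ∀ (h : ℝ) (a b : Circle), |h| ≤ 1 →
        (Lc k h a b ^ 2 ≤ rc h a b ↔ H (a, b) ≤ |h|) := by
      intro h a b hh
      rw [H4 (a, b) |h| ⟨abs_nonneg h, hh⟩, heven, hψ]
      exact sub_nonneg.symm
    constructor
    · rintro ⟨h, a, b, h1, h2, h3⟩
      exact ⟨h, a, b, h1, (key h a b h1).1 h2, h3⟩
    · rintro ⟨h, a, b, h1, h2, h3⟩
      exact ⟨h, a, b, h1, (key h a b h1).2 h2, h3⟩
  have hS : SAc k = {c | ∃ (h : ℝ) (a b : Circle), |h| = H (a, b) ∧
      (a, b) ∉ e '' Metric.ball 0 1 ∧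
      c = jc h a b ((fun q : ℝ × (Circle × Circle) => xp k q.1 q.2.1 q.2.2) (h, a, b))} := by
    have hb : ∀ a b : Circle, (a, b) ∈ e '' Metric.ball 0 1 ↔ 0 < ψ (0, (a, b)) := by
      intro a b
      rw [he4, hzero, sub_pos]
      exact Iff.rfl
    ext c
    constructor
    · rintro ⟨h, a, b, h1, h2, h3⟩
      have h4 : ψ (|h|, (a, b)) = 0 := by
        rw [heven, hψ]
        show rc h a b - (Lc k h a b) ^ 2 = 0
        rw [h2, sub_self]
      have hh : |h| ∈ Icc (0 : ℝ) 1 := ⟨abs_nonneg h, h1⟩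
      have h5 : H (a, b) ≤ |h| := (H4 (a, b) |h| hh).2 h4.ge
      have hHI : H (a, b) ∈ Icc (0 : ℝ) 1 := ⟨H2 _, (H3 _).le⟩
      have h6 : 0 ≤ ψ (H (a, b), (a, b)) := (H4 (a, b) (H (a, b)) hHI).1 le_rfl
      refine ⟨h, a, b, ?_, ?_, h3⟩
      · rcases h5.lt_or_eq with h7 | h7
        · have h8 : ψ (H (a, b), (a, b)) < ψ (|h|, (a, b)) := hmono (a, b) hHI hh h7
          linarith
        · exact h7.symm
      · rw [hb]
        intro h7
        have h8 : ψ (0, (a, b)) ≤ ψ (|h|, (a, b)) :=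
          (hmono (a, b)).monotoneOn ⟨le_rfl, zero_le_one⟩ hh (abs_nonneg h)
        linarith
    · rintro ⟨h, a, b, h1, h2, h3⟩
      refine ⟨h, a, b, by rw [h1]; exact (H3 _).le, ?_, h3⟩
      rw [hb] at h2
      have h4 : ψ (h, (a, b)) = 0 := by
        rcases (H2 (a, b)).lt_or_eq with h5 | h5
        · have h6 := H5 (a, b) h5
          rw [← h1, heven] at h6
          exact h6
        · have h6 : h = 0 := by
            rw [← h5] at h1
            exact abs_eq_zero.1 h1
          have h7 : (0 : ℝ) ≤ ψ (0, (a, b)) :=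
            (H4 (a, b) 0 ⟨le_rfl, zero_le_one⟩).1 h5.ge
          rw [h6]
          exact le_antisymm (not_lt.1 h2) h7
      rw [hψ] at h4
      exact sub_eq_zero.1 h4
  rw [hA, hS]
  exact hmain

end Pool.Agent.Tri
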