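import Mathlib
import Pool.Agent.H.MP_5efd29_gt.HdDefs

open scoped ContDiff Topology
open Set

noncomputable section

namespace Pool.Agent.Tri

/-- The denominator. -/
private def hde1_D (q : ℂ) (κ : ℝ) : ℝ :=
  |q.re| + |q.im| + Real.sqrt ((|q.re| - |q.im|) ^ 2 + 4 * |q.re| * |q.im| * κ)

/-- The radius in the direction of `q`. -/
private def hde1_R (q : ℂ) (κ : ℝ) : ℝ := 2 * (1 - κ) / hde1_D q κ

private def hde1_S (q : ℂ) (κ : ℝ) : ℂ := ((‖q‖ * hde1_R q κ : ℝ) : ℂ) * q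

private lemma hde1_abs_pos {q : ℂ} (hq : q ≠ 0) : 0 < |q.re| + |q.im| := by
  rcases (abs_nonneg q.re).lt_or_eq with h | h
  · have := abs_nonneg q.im
    linarith
  · rcases (abs_nonneg q.im).lt_or_eq with h' | h'
    · linarith
    · exfalso
      apply hq
      exact Complex.ext (abs_eq_zero.1 h.symm) (abs_eq_zero.1 h'.symm)

private lemma hde1_D_ge (q : ℂ) (κ : ℝ) : |q.re| + |q.im| ≤ hde1_D q κ := by
  unfold hde1_D
  have := Real.sqrt_nonneg ((|q.re| - |q.im|) ^ 2 + 4 * |q.re| * |q.im| * κ)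
  linarith

private lemma hde1_D_pos {q : ℂ} (hq : q ≠ 0) (κ : ℝ) : 0 < hde1_D q κ :=
  (hde1_abs_pos hq).trans_le (hde1_D_ge q κ)

private lemma hde1_R_pos {q : ℂ} (hq : q ≠ 0) {κ : ℝ} (hκ : κ < 1) : 0 < hde1_R q κ := by
  unfold hde1_R
  exact div_pos (by linarith) (hde1_D_pos hq κ)

private lemma hde1_D_homog (q : ℂ) (κ : ℝ) {t : ℝ} (ht : 0 < t) :
    hde1_D ((t : ℂ) * q) κ = t * hde1_D q κ := by
  unfold hde1_D
  rw [Complex.re_ofReal_mul, Complex.im_ofReal_mul, abs_mul, abs_mul, abs_of_pos ht]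
  have h1 : (t * |q.re| - t * |q.im|) ^ 2 + 4 * (t * |q.re|) * (t * |q.im|) * κ =
      t ^ 2 * ((|q.re| - |q.im|) ^ 2 + 4 * |q.re| * |q.im| * κ) := by ring
  rw [h1, Real.sqrt_mul (sq_nonneg t), Real.sqrt_sq ht.le]
  ring

private lemma hde1_R_homog (q : ℂ) (κ : ℝ) {t : ℝ} (ht : 0 < t) :
    hde1_R ((t : ℂ) * q) κ = hde1_R q κ / t := by
  unfold hde1_R
  rw [hde1_D_homog q κ ht]
  rw [div_div, mul_comm t]

private lemma hde1_R_le_re {q : ℂ} (hq : q ≠ 0) {κ : ℝ} (h0 : 0 ≤ κ) (h1 : κ < 1) :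
    hde1_R q κ * |q.re| ≤ 1 := by
  unfold hde1_R
  rw [div_mul_eq_mul_div, div_le_one (hde1_D_pos hq κ)]
  unfold hde1_D
  have h2 : abs ((1 - 2 * κ) * |q.re| - |q.im|) ≤
      Real.sqrt ((|q.re| - |q.im|) ^ 2 + 4 * |q.re| * |q.im| * κ) := by
    apply Real.abs_le_sqrt
    have h3 : 0 ≤ 4 * (κ * (1 - κ)) * |q.re| ^ 2 := by
      have : 0 ≤ κ * (1 - κ) := mul_nonneg h0 (by linarith)
      positivity
    nlinarith
  have h4 := le_abs_self ((1 - 2 * κ) * |q.re| - |q.im|)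
  linarith

private lemma hde1_R_le_im {q : ℂ} (hq : q ≠ 0) {κ : ℝ} (h0 : 0 ≤ κ) (h1 : κ < 1) :
    hde1_R q κ * |q.im| ≤ 1 := by
  unfold hde1_R
  rw [div_mul_eq_mul_div, div_le_one (hde1_D_pos hq κ)]
  unfold hde1_D
  have h2 : abs ((1 - 2 * κ) * |q.im| - |q.re|) ≤
      Real.sqrt ((|q.re| - |q.im|) ^ 2 + 4 * |q.re| * |q.im| * κ) := by
    apply Real.abs_le_sqrt
    have h3 : 0 ≤ 4 * (κ * (1 - κ)) * |q.im| ^ 2 := by
      have : 0 ≤ κ * (1 - κ) := mul_nonneg h0 (by linarith)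
      positivity
    nlinarith
  have h4 := le_abs_self ((1 - 2 * κ) * |q.im| - |q.re|)
  linarith

private lemma hde1_R_eq {q : ℂ} (hq : q ≠ 0) {κ : ℝ} (h0 : 0 ≤ κ) :
    (1 - hde1_R q κ * |q.re|) * (1 - hde1_R q κ * |q.im|) = κ := by
  have hD := hde1_D_pos hq κ
  have hw : Real.sqrt ((|q.re| - |q.im|) ^ 2 + 4 * |q.re| * |q.im| * κ) ^ 2 =
      (|q.re| - |q.im|) ^ 2 + 4 * |q.re| * |q.im| * κ := by
    apply Real.sq_sqrt
    have := abs_nonneg q.re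
    have := abs_nonneg q.im
    positivity
  have hkey : hde1_D q κ ^ 2 - 2 * (|q.re| + |q.im|) * hde1_D q κ +
      4 * (1 - κ) * |q.re| * |q.im| = 0 := by
    unfold hde1_D
    nlinarith
  have hR : hde1_R q κ * hde1_D q κ = 2 * (1 - κ) := by
    unfold hde1_R
    rw [div_mul_cancel₀ _ hD.ne']
  have h5 : ((1 - hde1_R q κ * |q.re|) * (1 - hde1_R q κ * |q.im|) - κ) * hde1_D q κ ^ 2 = 0 := by
    have e : ((1 - hde1_R q κ * |q.re|) * (1 - hde1_R q κ * |q.im|) - κ) * hde1_D q κ ^ 2 =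
        (1 - κ) * hde1_D q κ ^ 2 -
          (hde1_R q κ * hde1_D q κ) * (|q.re| + |q.im|) * hde1_D q κ +
          (hde1_R q κ * hde1_D q κ) ^ 2 * |q.re| * |q.im| := by ring
    rw [e, hR]
    linear_combination (1 - κ) * hkey
  have h6 := (mul_eq_zero.1 h5).resolve_right (pow_ne_zero 2 hD.ne')
  linarith

/-- Monotonicity along a ray. -/
private lemma hde1_mono {a b r r' : ℝ} (ha : 0 ≤ a) (hb : 0 ≤ b) (hab : 0 < a + b)
    (hrr : r < r') (h1 : r' * a ≤ 1) (h2 : r' * b ≤ 1) :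
    (1 - r' * a) * (1 - r' * b) < (1 - r * a) * (1 - r * b) := by
  have e1 : 0 ≤ 1 - r' * a := by linarith
  have e2 : 0 ≤ 1 - r' * b := by linarith
  rcases ha.lt_or_eq with h | h
  · have e3 : 1 - r' * a < 1 - r * a := by nlinarith
    rcases hb.lt_or_eq with h' | h'
    · have e4 : 1 - r' * b < 1 - r * b := by nlinarith
      exact mul_lt_mul'' e3 e4 e1 e2
    · rw [← h']
      simpa using e3
  · rw [← h]
    rw [← h, zero_add] at hab
    have e4 : 1 - r' * b < 1 - r * b := by nlinarith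
    simpa using e4

private lemma hde1_mono' {a b r r' : ℝ} (ha : 0 ≤ a) (hb : 0 ≤ b)
    (hrr : r ≤ r') (h1 : r' * a ≤ 1) (h2 : r' * b ≤ 1) :
    (1 - r' * a) * (1 - r' * b) ≤ (1 - r * a) * (1 - r * b) := by
  have e1 : 0 ≤ 1 - r' * a := by linarith
  have e2 : 0 ≤ 1 - r' * b := by linarith
  have e3 : 1 - r' * a ≤ 1 - r * a := by nlinarith
  have e4 : 1 - r' * b ≤ 1 - r * b := by nlinarith
  exact mul_le_mul e3 e4 e2 (e1.trans e3)

private lemma hde1_S_zero (κ : ℝ) : hde1_S 0 κ = 0 := by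
  unfold hde1_S
  simp

/-- The inverse map. -/
private def hde1_inv (p : ℂ) (κ : ℝ) : ℂ := (((‖p‖ * hde1_R p κ)⁻¹ : ℝ) : ℂ) * p

private lemma hde1_left {q : ℂ} {κ : ℝ} (hκ : κ < 1) : hde1_inv (hde1_S q κ) κ = q := by
  by_cases hq : q = 0
  · rw [hq, hde1_S_zero]
    unfold hde1_inv
    simp
  · have hR := hde1_R_pos hq hκ
    have hn : 0 < ‖q‖ := norm_pos_iff.2 hq
    have ht : 0 < ‖q‖ * hde1_R q κ := mul_pos hn hR
    unfold hde1_inv
    unfold hde1_S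
    rw [hde1_R_homog q κ ht, norm_mul, Complex.norm_real, Real.norm_eq_abs, abs_of_pos ht,
      ← mul_assoc, ← Complex.ofReal_mul]
    have : (‖q‖ * hde1_R q κ * ‖q‖ * (hde1_R q κ / (‖q‖ * hde1_R q κ)))⁻¹ *
        (‖q‖ * hde1_R q κ) = 1 := by
      field_simp
    rw [this, Complex.ofReal_one, one_mul]

private lemma hde1_right {p : ℂ} {κ : ℝ} (hκ : κ < 1) : hde1_S (hde1_inv p κ) κ = p := by
  by_cases hp : p = 0
  · rw [hp]
    unfold hde1_inv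
    rw [mul_zero, hde1_S_zero]
  · have hR := hde1_R_pos hp hκ
    have hn : 0 < ‖p‖ := norm_pos_iff.2 hp
    have ht : 0 < (‖p‖ * hde1_R p κ)⁻¹ := inv_pos.2 (mul_pos hn hR)
    unfold hde1_S
    unfold hde1_inv
    rw [hde1_R_homog p κ ht, norm_mul, Complex.norm_real, Real.norm_eq_abs, abs_of_pos ht,
      ← mul_assoc, ← Complex.ofReal_mul]
    have : (‖p‖ * hde1_R p κ)⁻¹ * ‖p‖ * (hde1_R p κ / (‖p‖ * hde1_R p κ)⁻¹) *
        (‖p‖ * hde1_R p κ)⁻¹ = 1 := by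
      field_simp
    rw [this, Complex.ofReal_one, one_mul]

private lemma hde1_norm_inv {p : ℂ} (hp : p ≠ 0) {κ : ℝ} (hκ : κ < 1) :
    ‖hde1_inv p κ‖ = (hde1_R p κ)⁻¹ := by
  have hR := hde1_R_pos hp hκ
  have hn : 0 < ‖p‖ := norm_pos_iff.2 hp
  have ht : 0 < (‖p‖ * hde1_R p κ)⁻¹ := inv_pos.2 (mul_pos hn hR)
  unfold hde1_inv
  rw [norm_mul, Complex.norm_real, Real.norm_eq_abs, abs_of_pos ht]
  field_simp

private lemma hde1_abs_S (q : ℂ) {κ : ℝ} (hκ : κ < 1) :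
    |(hde1_S q κ).re| = ‖q‖ * hde1_R q κ * |q.re| ∧
      |(hde1_S q κ).im| = ‖q‖ * hde1_R q κ * |q.im| := by
  by_cases hq : q = 0
  · rw [hq, hde1_S_zero]
    simp
  · have hR := hde1_R_pos hq hκ
    have hn : 0 < ‖q‖ := norm_pos_iff.2 hq
    unfold hde1_S
    rw [Complex.re_ofReal_mul, Complex.im_ofReal_mul, abs_mul (‖q‖ * hde1_R q κ) q.re,
      abs_mul (‖q‖ * hde1_R q κ) q.im, abs_of_pos (mul_pos hn hR)]
    exact ⟨rfl, rfl⟩

private lemma hde1_bound (q : ℂ) {κ : ℝ} (h0 : 0 ≤ κ) (hκ : κ < 1) : ‖hde1_S q κ‖ ≤ 2 * ‖q‖ := by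
  by_cases hq : q = 0
  · rw [hq, hde1_S_zero]
    simp
  · have hD := hde1_D_pos hq κ
    have hR := hde1_R_pos hq hκ
    have hn : 0 < ‖q‖ := norm_pos_iff.2 hq
    unfold hde1_S
    rw [norm_mul, Complex.norm_real, Real.norm_eq_abs, abs_of_pos (mul_pos hn hR)]
    have h1 : hde1_R q κ * ‖q‖ ≤ 2 := by
      unfold hde1_R
      rw [div_mul_eq_mul_div, div_le_iff₀ hD]
      have h2 : ‖q‖ ≤ hde1_D q κ := (Complex.norm_le_abs_re_add_abs_im q).trans (hde1_D_ge q κ)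
      nlinarith
    calc ‖q‖ * hde1_R q κ * ‖q‖ = ‖q‖ * (hde1_R q κ * ‖q‖) := by ring
      _ ≤ ‖q‖ * 2 := mul_le_mul_of_nonneg_left h1 hn.le
      _ = 2 * ‖q‖ := by ring

private lemma hde1_cont : ContinuousOn (fun x : ℂ × ℝ => hde1_S x.1 x.2)
    (Metric.closedBall 0 1 ×ˢ Icc (0 : ℝ) (4 / 5)) := by
  rintro ⟨q, κ⟩ hx
  by_cases hq : q = 0
  · subst hq
    show Filter.Tendsto (fun x : ℂ × ℝ => hde1_S x.1 x.2) _ (𝓝 (hde1_S 0 κ))
    rw [hde1_S_zero]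
    apply squeeze_zero_norm' (a := fun x : ℂ × ℝ => 2 * ‖x.1‖)
    · filter_upwards [self_mem_nhdsWithin] with x hx
      exact hde1_bound x.1 hx.2.1 (by linarith [hx.2.2])
    · have hc : Continuous (fun x : ℂ × ℝ => 2 * ‖x.1‖) := by fun_prop
      have h1 := hc.tendsto ((0, κ) : ℂ × ℝ)
      simp only [norm_zero, mul_zero] at h1
      exact h1.mono_left nhdsWithin_le_nhds
  · apply ContinuousAt.continuousWithinAt
    have hD := hde1_D_pos hq κ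
    have hDc : Continuous (fun x : ℂ × ℝ => hde1_D x.1 x.2) := by
      unfold hde1_D
      fun_prop
    have hRc : ContinuousAt (fun x : ℂ × ℝ => hde1_R x.1 x.2) (q, κ) := by
      unfold hde1_R
      have hnum : Continuous (fun x : ℂ × ℝ => 2 * (1 - x.2)) := by fun_prop
      exact hnum.continuousAt.div hDc.continuousAt hD.ne'
    unfold hde1_S
    have h1 : ContinuousAt (fun x : ℂ × ℝ => ‖x.1‖ * hde1_R x.1 x.2) (q, κ) :=
      (continuous_norm.comp continuous_fst).continuousAt.mul hRc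
    exact (Complex.continuous_ofReal.continuousAt.comp h1).mul continuous_fst.continuousAt

private lemma hde1_mem {q : ℂ} (hq1 : ‖q‖ ≤ 1) {κ : ℝ} (h0 : 0 ≤ κ) (h1 : κ < 1) :
    |(hde1_S q κ).re| ≤ 1 ∧ |(hde1_S q κ).im| ≤ 1 ∧
      κ ≤ (1 - |(hde1_S q κ).re|) * (1 - |(hde1_S q κ).im|) := by
  by_cases hq : q = 0
  · rw [hq, hde1_S_zero]
    simp [h1.le]
  · obtain ⟨e1, e2⟩ := hde1_abs_S q h1
    have hR := hde1_R_pos hq h1
    have r1 := hde1_R_le_re hq h0 h1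
    have r2 := hde1_R_le_im hq h0 h1
    have hle : ‖q‖ * hde1_R q κ ≤ hde1_R q κ := by nlinarith
    rw [e1, e2]
    refine ⟨?_, ?_, ?_⟩
    · exact (mul_le_mul_of_nonneg_right hle (abs_nonneg _)).trans r1
    · exact (mul_le_mul_of_nonneg_right hle (abs_nonneg _)).trans r2
    · calc κ = (1 - hde1_R q κ * |q.re|) * (1 - hde1_R q κ * |q.im|) := (hde1_R_eq hq h0).symm
        _ ≤ _ := hde1_mono' (abs_nonneg _) (abs_nonneg _) hle r1 r2

private lemma hde1_mem_sphere {q : ℂ} (hq1 : ‖q‖ = 1) {κ : ℝ} (h0 : 0 ≤ κ) (h1 : κ < 1) :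
    κ = (1 - |(hde1_S q κ).re|) * (1 - |(hde1_S q κ).im|) := by
  have hq : q ≠ 0 := by
    intro h
    rw [h, norm_zero] at hq1
    exact zero_ne_one hq1
  obtain ⟨e1, e2⟩ := hde1_abs_S q h1
  rw [e1, e2, hq1, one_mul]
  exact (hde1_R_eq hq h0).symm

private lemma hde1_R_ge {p : ℂ} (hp : p ≠ 0) {κ : ℝ} (h0 : 0 ≤ κ)
    (h2 : |p.re| ≤ 1) (h3 : |p.im| ≤ 1) (h4 : κ ≤ (1 - |p.re|) * (1 - |p.im|)) :
    1 ≤ hde1_R p κ := by
  by_contra hlt
  rw [not_le] at hlt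
  have h5 := hde1_mono (abs_nonneg p.re) (abs_nonneg p.im) (hde1_abs_pos hp) hlt
    (by rwa [one_mul]) (by rwa [one_mul])
  rw [hde1_R_eq hp h0, one_mul, one_mul] at h5
  exact absurd h4 (not_le.2 h5)

private lemma hde1_R_one {p : ℂ} (hp : p ≠ 0) {κ : ℝ} (h0 : 0 ≤ κ) (h1 : κ < 1)
    (h2 : |p.re| ≤ 1) (h3 : |p.im| ≤ 1) (h4 : κ = (1 - |p.re|) * (1 - |p.im|)) :
    hde1_R p κ = 1 := by
  refine le_antisymm ?_ (hde1_R_ge hp h0 h2 h3 h4.le)
  by_contra hlt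
  rw [not_le] at hlt
  have h5 := hde1_mono (abs_nonneg p.re) (abs_nonneg p.im) (hde1_abs_pos hp) hlt
    (hde1_R_le_re hp h0 h1) (hde1_R_le_im hp h0 h1)
  rw [hde1_R_eq hp h0, one_mul, one_mul, ← h4] at h5
  exact lt_irrefl _ h5

/-- The discs `{(1 - |α|) (1 - |β|) ≥ κ}`, parametrised by the round disc, depending continuously
on `κ`. -/
theorem exists_slices : ∃ s : ℂ × ℝ → ℝ × ℝ,
    ContinuousOn s (Metric.closedBall 0 1 ×ˢ Icc (0 : ℝ) (4 / 5)) ∧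
    (∀ κ ∈ Icc (0 : ℝ) (4 / 5), InjOn (fun q => s (q, κ)) (Metric.closedBall 0 1)) ∧
    (∀ κ ∈ Icc (0 : ℝ) (4 / 5), (fun q => s (q, κ)) '' Metric.closedBall 0 1 =
      {p | |p.1| ≤ 1 ∧ |p.2| ≤ 1 ∧ κ ≤ (1 - |p.1|) * (1 - |p.2|)}) ∧
    (∀ κ ∈ Icc (0 : ℝ) (4 / 5), (fun q => s (q, κ)) '' Metric.sphere 0 1 =
      {p | |p.1| ≤ 1 ∧ |p.2| ≤ 1 ∧ κ = (1 - |p.1|) * (1 - |p.2|)}) := by
  refine ⟨fun x => ((hde1_S x.1 x.2).re, (hde1_S x.1 x.2).im), ?_, ?_, ?_, ?_⟩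
  · exact (Complex.continuous_re.comp_continuousOn hde1_cont).prodMk
      (Complex.continuous_im.comp_continuousOn hde1_cont)
  · intro κ hκ q _ q' _ h
    have h1 : κ < 1 := by linarith [hκ.2]
    have h2 : hde1_S q κ = hde1_S q' κ := by
      rw [Prod.ext_iff] at h
      exact Complex.ext h.1 h.2
    rw [← hde1_left (q := q) h1, h2, hde1_left h1]
  · intro κ hκ
    have h1 : κ < 1 := by linarith [hκ.2]
    apply Set.Subset.antisymm
    · rintro _ ⟨q, hq, rfl⟩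
      exact hde1_mem (mem_closedBall_zero_iff.1 hq) hκ.1 h1
    · rintro ⟨x, y⟩ ⟨h2, h3, h4⟩
      refine ⟨hde1_inv ⟨x, y⟩ κ, ?_, ?_⟩
      · rw [mem_closedBall_zero_iff]
        by_cases hp : (⟨x, y⟩ : ℂ) = 0
        · rw [hp]
          unfold hde1_inv
          simp
        · rw [hde1_norm_inv hp h1]
          exact inv_le_one_of_one_le₀ (hde1_R_ge hp hκ.1 h2 h3 h4)
      · show ((hde1_S (hde1_inv ⟨x, y⟩ κ) κ).re, (hde1_S (hde1_inv ⟨x, y⟩ κ) κ).im) = (x, y)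
        rw [hde1_right h1]
  · intro κ hκ
    have h1 : κ < 1 := by linarith [hκ.2]
    apply Set.Subset.antisymm
    · rintro _ ⟨q, hq, rfl⟩
      have hq' : ‖q‖ = 1 := mem_sphere_zero_iff_norm.1 hq
      obtain ⟨e1, e2, _⟩ := hde1_mem hq'.le hκ.1 h1
      exact ⟨e1, e2, hde1_mem_sphere hq' hκ.1 h1⟩
    · rintro ⟨x, y⟩ ⟨h2, h3, h4⟩
      have h4' : κ = (1 - |x|) * (1 - |y|) := h4
      have hp : (⟨x, y⟩ : ℂ) ≠ 0 := by
        intro h
        have hx : x = 0 := congrArg Complex.re h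
        have hy : y = 0 := congrArg Complex.im h
        rw [hx, hy, abs_zero, sub_zero, mul_one] at h4'
        linarith
      refine ⟨hde1_inv ⟨x, y⟩ κ, ?_, ?_⟩
      · rw [mem_sphere_zero_iff_norm, hde1_norm_inv hp h1, hde1_R_one hp hκ.1 h1 h2 h3 h4',
          inv_one]
      · show ((hde1_S (hde1_inv ⟨x, y⟩ κ) κ).re, (hde1_S (hde1_inv ⟨x, y⟩ κ) κ).im) = (x, y)
        rw [hde1_right h1]

end Pool.Agent.Tri
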