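import Mathlib
import Pool.Agent.H.MP_5efd29_gt.HdE1
import Pool.Agent.H.MP_5efd29_gt.FunA
import Pool.Agent.H.MP_5efd29_gt.FunA2

open scoped ContDiff Topology
open Set

noncomputable section

namespace Pool.Agent.Tri

/-- Continuous inverse on a compact set. -/
theorem hde2_inv {f : ℝ → ℝ} {K : Set ℝ} (hK : IsCompact K) (hf : ContinuousOn f K)
    (hi : InjOn f K) : ∃ g : ℝ → ℝ, ContinuousOn g (f '' K) ∧ ∀ x ∈ K, g (f x) = x := by
  classical
  have : CompactSpace K := isCompact_iff_compactSpace.mp hK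
  let e : K ≃ f '' K := Equiv.Set.imageOfInjOn f K hi
  have he : Continuous e := by
    apply Continuous.subtype_mk
    exact hf.domRestrict
  let H := he.homeoOfEquivCompactToT2
  refine ⟨fun y => if h : y ∈ f '' K then (H.symm ⟨y, h⟩ : ℝ) else 0, ?_, ?_⟩
  · rw [continuousOn_iff_continuous_domRestrict]
    have h1 : (f '' K).domRestrict (fun y => if h : y ∈ f '' K then (H.symm ⟨y, h⟩ : ℝ) else 0)
        = fun y : f '' K => (H.symm y : ℝ) := by
      funext y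
      simp only [domRestrict_apply]
      rw [dif_pos y.2]
    rw [h1]
    exact continuous_subtype_val.comp H.symm.continuous
  · intro x hx
    have h1 : f x ∈ f '' K := ⟨x, hx, rfl⟩
    simp only []
    rw [dif_pos h1]
    have h2 : (⟨f x, h1⟩ : f '' K) = H ⟨x, hx⟩ := rfl
    rw [h2, H.symm_apply_apply]

/-- Odd continuous inverse. -/
theorem hde2_odd {f : ℝ → ℝ} {c : ℝ} (hc : 0 < c) (hf : ContinuousOn f (Icc 0 c))
    (hm : StrictMonoOn f (Icc 0 c)) (h0 : f 0 = 0) (h1 : f c = 1) :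
    ∃ G : ℝ → ℝ, ContinuousOn G (Icc (-1) 1) ∧ InjOn G (Icc (-1) 1) ∧
      (∀ y, |y| ≤ 1 → |G y| ≤ c ∧ f |G y| = |y|) ∧
      ∀ x, |x| ≤ c → ∃ y, |y| ≤ 1 ∧ G y = x := by
  obtain ⟨g, hg, hgf⟩ := hde2_inv isCompact_Icc hf hm.injOn
  have him : f '' Icc 0 c = Icc 0 1 := by
    apply Subset.antisymm
    · rintro _ ⟨x, hx, rfl⟩
      refine ⟨?_, ?_⟩
      · rw [← h0]
        exact hm.monotoneOn ⟨le_rfl, hc.le⟩ hx hx.1
      · rw [← h1]
        exact hm.monotoneOn hx ⟨hc.le, le_rfl⟩ hx.2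
    · have := intermediate_value_Icc hc.le hf
      rwa [h0, h1] at this
  rw [him] at hg
  have hgI : ∀ y ∈ Icc (0 : ℝ) 1, g y ∈ Icc 0 c ∧ f (g y) = y := by
    intro y hy
    rw [← him] at hy
    obtain ⟨x, hx, rfl⟩ := hy
    rw [hgf x hx]
    exact ⟨hx, rfl⟩
  have hg0 : g 0 = 0 := by
    have := hgf 0 ⟨le_rfl, hc.le⟩
    rwa [h0] at this
  have hpos : ∀ y : ℝ, 0 ≤ y → g (max y 0) - g (max (-y) 0) = g y := by
    intro y hy
    rw [max_eq_left hy, max_eq_right (by linarith), hg0, sub_zero]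
  have hneg : ∀ y : ℝ, y ≤ 0 → g (max y 0) - g (max (-y) 0) = -g (-y) := by
    intro y hy
    rw [max_eq_right hy, max_eq_left (by linarith), hg0, zero_sub]
  have hmain : ∀ y, |y| ≤ 1 → |g (max y 0) - g (max (-y) 0)| ≤ c ∧
      f |g (max y 0) - g (max (-y) 0)| = |y| := by
    intro y hy
    rcases le_total 0 y with h | h
    · rw [hpos y h]
      rw [abs_of_nonneg h] at hy ⊢
      obtain ⟨h2, h3⟩ := hgI y ⟨h, hy⟩
      rw [abs_of_nonneg h2.1]
      exact ⟨h2.2, h3⟩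
    · rw [hneg y h]
      rw [abs_of_nonpos h] at hy ⊢
      obtain ⟨h2, h3⟩ := hgI (-y) ⟨by linarith, hy⟩
      rw [abs_neg, abs_of_nonneg h2.1]
      exact ⟨h2.2, h3⟩
  refine ⟨fun y => g (max y 0) - g (max (-y) 0), ?_, ?_, hmain, ?_⟩
  · apply ContinuousOn.sub
    · apply hg.comp (by fun_prop)
      intro y hy
      exact ⟨le_max_right _ _, max_le hy.2 zero_le_one⟩
    · apply hg.comp (by fun_prop)
      intro y hy
      exact ⟨le_max_right _ _, max_le (by linarith [hy.1]) zero_le_one⟩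
  · intro y hy y' hy' h
    simp only [] at h
    have hy1 : |y| ≤ 1 := abs_le.mpr hy
    have hy1' : |y'| ≤ 1 := abs_le.mpr hy'
    have h2 : |y| = |y'| := by
      rw [← (hmain y hy1).2, ← (hmain y' hy1').2, h]
    rcases abs_eq_abs.mp h2 with h3 | h3
    · exact h3
    · -- y = -y'
      rcases le_total 0 y with h4 | h4
      · have h5 : y' ≤ 0 := by linarith
        rw [hpos y h4, hneg y' h5, ← h3] at h
        have h6 := (hgI y ⟨h4, hy.2⟩)
        have h7 : g y = 0 := by linarith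
        have h8 := h6.2
        rw [h7, h0] at h8
        linarith
      · have h5 : 0 ≤ y' := by linarith
        rw [hneg y h4, hpos y' h5] at h
        have h9 : -y = y' := by linarith
        rw [h9] at h
        have h6 := (hgI y' ⟨h5, hy'.2⟩)
        have h7 : g y' = 0 := by linarith
        have h8 := h6.2
        rw [h7, h0] at h8
        linarith
  · intro x hx
    rcases le_total 0 x with h | h
    · rw [abs_of_nonneg h] at hx
      have h2 : f x ∈ Icc (0 : ℝ) 1 := him ▸ ⟨x, ⟨h, hx⟩, rfl⟩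
      refine ⟨f x, ?_, ?_⟩
      · rw [abs_of_nonneg h2.1]; exact h2.2
      · simp only []
        rw [hpos _ h2.1, hgf x ⟨h, hx⟩]
    · rw [abs_of_nonpos h] at hx
      have h2 : f (-x) ∈ Icc (0 : ℝ) 1 := him ▸ ⟨-x, ⟨by linarith, hx⟩, rfl⟩
      refine ⟨-f (-x), ?_, ?_⟩
      · rw [abs_neg, abs_of_nonneg h2.1]; exact h2.2
      · simp only []
        rw [hneg _ (by linarith [h2.1]), neg_neg, hgf (-x) ⟨by linarith, hx⟩, neg_neg]

/-- The profile in the direction of `h`. -/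
def hde2_a (h : ℝ) : ℝ := 1 - eta h / Real.sqrt (100 * h ^ 2 + 1)

/-- The profile across the band. -/
def hde2_b (c : ℝ) : ℝ := 1 - 8 * Lam (1 - Real.cos c)

theorem hde2_a_cont : ContinuousOn hde2_a (Icc 0 (1 / 8)) := by
  unfold hde2_a
  apply ContinuousOn.sub continuousOn_const
  apply ContinuousOn.div
  · exact contDiff_eta.continuous.continuousOn
  · fun_prop
  · intro h _
    positivity

theorem hde2_a_mono : StrictMonoOn hde2_a (Icc 0 (1 / 8)) := by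
  intro h hh h' hh' hlt
  unfold hde2_a
  have h1 : eta h' ≤ eta h := antitoneOn_eta hh.1 hh'.1 hlt.le
  have h2 : 0 < eta h := by
    apply lt_of_le_of_ne (eta_nonneg h)
    intro h3
    have h4 := (eta_eq_zero_iff h).mp h3.symm
    have h5 : h < 1 / 8 := lt_of_lt_of_le hlt hh'.2
    have h6 := hh.1
    nlinarith
  have h3 : Real.sqrt (100 * h ^ 2 + 1) < Real.sqrt (100 * h' ^ 2 + 1) := by
    apply Real.sqrt_lt_sqrt (by positivity)
    have := hh.1
    nlinarith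
  have h4 : 0 < Real.sqrt (100 * h ^ 2 + 1) := Real.sqrt_pos.2 (by positivity)
  have h5 : 0 < Real.sqrt (100 * h' ^ 2 + 1) := Real.sqrt_pos.2 (by positivity)
  have h6 : eta h' / Real.sqrt (100 * h' ^ 2 + 1) < eta h / Real.sqrt (100 * h ^ 2 + 1) := by
    calc eta h' / Real.sqrt (100 * h' ^ 2 + 1) ≤ eta h / Real.sqrt (100 * h' ^ 2 + 1) := by
          gcongr
      _ < eta h / Real.sqrt (100 * h ^ 2 + 1) := by
          gcongr
  linarith

theorem hde2_b_cont : ContinuousOn hde2_b (Icc 0 (Real.arccos (999 / 1000))) := by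
  unfold hde2_b
  apply ContinuousOn.sub continuousOn_const
  apply ContinuousOn.mul continuousOn_const
  apply Continuous.continuousOn
  exact contDiff_Lam.continuous.comp (continuous_const.sub Real.continuous_cos)

theorem hde2_c0 : 0 < Real.arccos (999 / 1000) ∧ Real.arccos (999 / 1000) ≤ Real.pi ∧
    Real.cos (Real.arccos (999 / 1000)) = 999 / 1000 :=
  ⟨Real.arccos_pos.2 (by norm_num), Real.arccos_le_pi _,
    Real.cos_arccos (by norm_num) (by norm_num)⟩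

theorem hde2_b_mono : StrictMonoOn hde2_b (Icc 0 (Real.arccos (999 / 1000))) := by
  obtain ⟨c1, c2, c3⟩ := hde2_c0
  intro x hx y hy hlt
  unfold hde2_b
  have h1 : Real.cos y < Real.cos x :=
    Real.strictAntiOn_cos ⟨hx.1, hx.2.trans c2⟩ ⟨hy.1, hy.2.trans c2⟩ hlt
  have h2 : 999 / 1000 ≤ Real.cos y := by
    rw [← c3]
    exact Real.strictAntiOn_cos.antitoneOn ⟨hy.1, hy.2.trans c2⟩ ⟨c1.le, c2⟩ hy.2
  have h3 := Real.cos_le_one x
  have h4 : Lam (1 - Real.cos y) < Lam (1 - Real.cos x) :=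
    strictAntiOn_Lam ⟨by linarith, by linarith⟩ ⟨by linarith, by linarith⟩ (by linarith)
  linarith

theorem hde2_a_abs (h : ℝ) : hde2_a |h| = hde2_a h := by
  unfold hde2_a
  rw [sq_abs]
  rcases abs_choice h with h1 | h1
  · rw [h1]
  · rw [h1, eta_neg]

theorem hde2_b_abs (c : ℝ) : hde2_b |c| = hde2_b c := by
  unfold hde2_b
  rw [Real.cos_abs]

/-- The slices of the handle. -/
theorem exists_slices' : ∃ s : ℂ × ℝ → ℝ × ℝ,
    ContinuousOn s (Metric.closedBall 0 1 ×ˢ Icc (0 : ℝ) 1) ∧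
    (∀ σ ∈ Icc (0 : ℝ) 1, InjOn (fun q => s (q, σ)) (Metric.closedBall 0 1)) ∧
    (∀ σ ∈ Icc (0 : ℝ) 1, (fun q => s (q, σ)) '' Metric.closedBall 0 1 =
      {p | |p.1| ≤ 1 / 8 ∧ |p.2| ≤ Real.arccos (999 / 1000) ∧
        σ ^ 2 * (p.1 ^ 2 + 1 / 100) ≤ (eta p.1 * Lam (1 - Real.cos p.2)) ^ 2}) ∧
    (∀ σ ∈ Icc (0 : ℝ) 1, (fun q => s (q, σ)) '' Metric.sphere 0 1 =
      {p | |p.1| ≤ 1 / 8 ∧ |p.2| ≤ Real.arccos (999 / 1000) ∧
        σ ^ 2 * (p.1 ^ 2 + 1 / 100) = (eta p.1 * Lam (1 - Real.cos p.2)) ^ 2}) := by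
  obtain ⟨s, s1, s2, s3, s4⟩ := exists_slices
  have ha0 : hde2_a 0 = 0 := by
    unfold hde2_a
    rw [eta_of_small (by norm_num)]
    norm_num
  have ha1 : hde2_a (1 / 8) = 1 := by
    unfold hde2_a
    rw [(eta_eq_zero_iff _).mpr (by norm_num)]
    norm_num
  obtain ⟨c1, c2, c3⟩ := hde2_c0
  have hb0 : hde2_b 0 = 0 := by
    unfold hde2_b
    rw [Real.cos_zero, Lam_of_nonpos (by norm_num)]
    norm_num
  have hb1 : hde2_b (Real.arccos (999 / 1000)) = 1 := by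
    unfold hde2_b
    rw [c3, (Lam_eq_zero_iff _).mpr (by norm_num)]
    norm_num
  obtain ⟨A, A1, A2, A3, A4⟩ := hde2_odd (by norm_num) hde2_a_cont hde2_a_mono ha0 ha1
  obtain ⟨B, B1, B2, B3, B4⟩ := hde2_odd c1 hde2_b_cont hde2_b_mono hb0 hb1
  -- the two conditions
  have key : ∀ σ : ℝ, 0 ≤ σ → ∀ x y : ℝ, |x| ≤ 1 → |y| ≤ 1 →
      (4 / 5 * σ ≤ (1 - |x|) * (1 - |y|) ↔
        σ ^ 2 * (A x ^ 2 + 1 / 100) ≤ (eta (A x) * Lam (1 - Real.cos (B y))) ^ 2) ∧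
      (4 / 5 * σ = (1 - |x|) * (1 - |y|) ↔
        σ ^ 2 * (A x ^ 2 + 1 / 100) = (eta (A x) * Lam (1 - Real.cos (B y))) ^ 2) := by
    intro σ hσ x y hx hy
    obtain ⟨a1, a2⟩ := A3 x hx
    obtain ⟨b1, b2⟩ := B3 y hy
    rw [hde2_a_abs] at a2
    rw [hde2_b_abs] at b2
    set R : ℝ := Real.sqrt (100 * A x ^ 2 + 1) with hR
    have hR0 : 0 < R := Real.sqrt_pos.2 (by positivity)
    have hR2 : R ^ 2 = 100 * A x ^ 2 + 1 := Real.sq_sqrt (by positivity)
    set E : ℝ := eta (A x) * Lam (1 - Real.cos (B y)) with hE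
    have hE0 : 0 ≤ E := mul_nonneg (eta_nonneg _) (Lam_nonneg _)
    have e1 : (1 - |x|) * (1 - |y|) = 8 * E / R := by
      rw [← a2, ← b2]
      unfold hde2_a hde2_b
      rw [← hR, hE]
      ring
    rw [e1]
    have e2 : σ ^ 2 * (A x ^ 2 + 1 / 100) = (σ * R / 10) ^ 2 := by
      rw [div_pow, mul_pow, hR2]
      ring
    rw [e2]
    have hσR : 0 ≤ σ * R / 10 := by positivity
    constructor
    · rw [le_div_iff₀ hR0, sq_le_sq₀ hσR hE0]
      constructor <;> intro h <;> linarith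
    · rw [eq_div_iff hR0.ne', sq_eq_sq₀ hσR hE0]
      constructor <;> intro h <;> linarith
  have hκ : ∀ σ ∈ Icc (0 : ℝ) 1, 4 / 5 * σ ∈ Icc (0 : ℝ) (4 / 5) := by
    intro σ hσ
    exact ⟨by linarith [hσ.1], by linarith [hσ.2]⟩
  have hmem : ∀ σ ∈ Icc (0 : ℝ) 1, ∀ q ∈ Metric.closedBall (0 : ℂ) 1,
      |(s (q, 4 / 5 * σ)).1| ≤ 1 ∧ |(s (q, 4 / 5 * σ)).2| ≤ 1 ∧
        4 / 5 * σ ≤ (1 - |(s (q, 4 / 5 * σ)).1|) * (1 - |(s (q, 4 / 5 * σ)).2|) := by
    intro σ hσ q hq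
    have : s (q, 4 / 5 * σ) ∈ (fun q => s (q, 4 / 5 * σ)) '' Metric.closedBall 0 1 := ⟨q, hq, rfl⟩
    rw [s3 _ (hκ σ hσ)] at this
    exact this
  refine ⟨fun z => (A (s (z.1, 4 / 5 * z.2)).1, B (s (z.1, 4 / 5 * z.2)).2), ?_, ?_, ?_, ?_⟩
  · have h1 : ContinuousOn (fun z : ℂ × ℝ => s (z.1, 4 / 5 * z.2))
        (Metric.closedBall 0 1 ×ˢ Icc (0 : ℝ) 1) := by
      apply s1.comp (by fun_prop)
      intro z hz
      exact ⟨hz.1, hκ z.2 hz.2⟩
    apply ContinuousOn.prodMk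
    · apply A1.comp (continuous_fst.comp_continuousOn h1)
      intro z hz
      exact abs_le.mp (hmem z.2 hz.2 z.1 hz.1).1
    · apply B1.comp (continuous_snd.comp_continuousOn h1)
      intro z hz
      exact abs_le.mp (hmem z.2 hz.2 z.1 hz.1).2.1
  · intro σ hσ q hq q' hq' h
    simp only [Prod.mk.injEq] at h
    obtain ⟨m1, m2, _⟩ := hmem σ hσ q hq
    obtain ⟨m1', m2', _⟩ := hmem σ hσ q' hq'
    have e1 := A2 (abs_le.mp m1) (abs_le.mp m1') h.1
    have e2 := B2 (abs_le.mp m2) (abs_le.mp m2') h.2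
    exact s2 _ (hκ σ hσ) hq hq' (Prod.ext e1 e2)
  · intro σ hσ
    apply Subset.antisymm
    · rintro _ ⟨q, hq, rfl⟩
      obtain ⟨m1, m2, m3⟩ := hmem σ hσ q hq
      exact ⟨(A3 _ m1).1, (B3 _ m2).1, ((key σ hσ.1 _ _ m1 m2).1).mp m3⟩
    · rintro ⟨p1, p2⟩ ⟨h1, h2, h3⟩
      obtain ⟨x, hx, rfl⟩ := A4 p1 h1
      obtain ⟨y, hy, rfl⟩ := B4 p2 h2
      have h4 : (x, y) ∈ (fun q => s (q, 4 / 5 * σ)) '' Metric.closedBall 0 1 := by
        rw [s3 _ (hκ σ hσ)]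
        exact ⟨hx, hy, ((key σ hσ.1 _ _ hx hy).1).mpr h3⟩
      obtain ⟨q, hq, h5⟩ := h4
      refine ⟨q, hq, ?_⟩
      simp only [] at h5 ⊢
      rw [h5]
  · intro σ hσ
    apply Subset.antisymm
    · rintro _ ⟨q, hq, rfl⟩
      have h4 : s (q, 4 / 5 * σ) ∈ (fun q => s (q, 4 / 5 * σ)) '' Metric.sphere 0 1 := ⟨q, hq, rfl⟩
      rw [s4 _ (hκ σ hσ)] at h4
      obtain ⟨m1, m2, m3⟩ := h4
      exact ⟨(A3 _ m1).1, (B3 _ m2).1, ((key σ hσ.1 _ _ m1 m2).2).mp m3⟩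
    · rintro ⟨p1, p2⟩ ⟨h1, h2, h3⟩
      obtain ⟨x, hx, rfl⟩ := A4 p1 h1
      obtain ⟨y, hy, rfl⟩ := B4 p2 h2
      have h4 : (x, y) ∈ (fun q => s (q, 4 / 5 * σ)) '' Metric.sphere 0 1 := by
        rw [s4 _ (hκ σ hσ)]
        exact ⟨hx, hy, ((key σ hσ.1 _ _ hx hy).2).mpr h3⟩
      obtain ⟨q, hq, h5⟩ := h4
      refine ⟨q, hq, ?_⟩
      simp only [] at h5 ⊢
      rw [h5]

end Pool.Agent.Tri
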