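import Mathlib
import Pool.Agent.H.MP_5efd29_gt.HdE2

open scoped ContDiff Topology
open Set

noncomputable section

namespace Pool.Agent.Tri

/-- continuous inverse of the smooth step -/
theorem hde3_SSinv : ∃ g : ℝ → ℝ, Continuous g ∧ (∀ v, g v ∈ Icc (0 : ℝ) 1) ∧
    (∀ v ∈ Icc (0 : ℝ) 1, SS (g v) = v) := by
  have hmaps : SS '' Icc (0 : ℝ) 1 = Icc (0 : ℝ) 1 := by
    have h0 : SS 0 = 0 := SS_of_nonpos le_rfl
    have h1 : SS 1 = 1 := SS_of_one_le le_rfl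
    apply Subset.antisymm
    · rintro _ ⟨t, ht, rfl⟩
      exact ⟨SS_nonneg t, SS_le_one t⟩
    · have := intermediate_value_Icc (zero_le_one' ℝ)
        (funa_cont_SS.continuousOn : ContinuousOn SS (Icc 0 1))
      rwa [h0, h1] at this
  let e := (StrictMonoOn.orderIso SS (Icc 0 1) strictMonoOn_SS).trans (OrderIso.setCongr _ _ hmaps)
  refine ⟨fun v => (e.symm (projIcc 0 1 zero_le_one v) : ℝ), ?_, ?_, ?_⟩
  · exact continuous_subtype_val.comp (e.symm.continuous.comp continuous_projIcc)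
  · intro v
    exact (e.symm _).2
  · intro v hv
    have h2 : (e (e.symm (projIcc 0 1 zero_le_one v)) : ℝ) = v := by
      rw [e.apply_symm_apply, projIcc_of_mem _ hv]
    exact h2

/-- continuous inverse of the profile of the ball -/
theorem hde3_btinv : ∃ B : ℝ → ℝ, Continuous B ∧ (∀ v, 0 ≤ B v ∧ B v ≤ 1 / 100) ∧
    (∀ v ∈ Icc (0 : ℝ) (1 / 16), bt (B v) = v) := by
  obtain ⟨g, hg, hg1, hg2⟩ := hde3_SSinv
  refine ⟨fun v => (1 - g (16 * v)) / 100, by fun_prop, fun v => ?_, fun v hv => ?_⟩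
  · have := hg1 (16 * v)
    constructor
    · linarith [this.2]
    · linarith [this.1]
  · unfold bt
    have e1 : 1 - 100 * ((1 - g (16 * v)) / 100) = g (16 * v) := by ring
    simp only [e1]
    rw [hg2 (16 * v) ⟨by linarith [hv.1], by linarith [hv.2]⟩]
    ring

theorem hde3_bt_pos {u : ℝ} (h : u < 1 / 100) : 0 < bt u := by
  rcases le_or_gt u 0 with h0 | h0
  · rw [bt_of_nonpos h0]
    norm_num
  · have h1 := strictAntiOn_bt (show u ∈ Icc (0 : ℝ) (1 / 100) from ⟨h0.le, h.le⟩)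
      (show (1 / 100 : ℝ) ∈ Icc (0 : ℝ) (1 / 100) from ⟨by norm_num, le_rfl⟩) h
    rwa [bt_eq_zero le_rfl] at h1

/-- the angle at which the handle starts -/
def hde3_l (B P Q : ℝ → ℝ) (h c σ : ℝ) : ℝ :=
  Real.arccos ((P c - B ((1 - σ ^ 2) * (h ^ 2 + 1 / 100))) / Q c)

def hde3_sig (τ : ℝ) : ℝ := min 1 (2 * (1 - |τ|))

def hde3_kap (τ : ℝ) : ℝ := max (-1) (min 1 (2 * τ))

def hde3_e (s : ℂ × ℝ → ℝ × ℝ) (B P Q : ℝ → ℝ) (x : ℂ × ℝ) : ℝ × ℝ × ℝ :=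
  ((s (x.1, hde3_sig x.2)).1, Real.pi + hde3_kap x.2 * (Real.pi -
    hde3_l B P Q (s (x.1, hde3_sig x.2)).1 (s (x.1, hde3_sig x.2)).2 (hde3_sig x.2)),
    (s (x.1, hde3_sig x.2)).2)

theorem hde3_sig_mem {τ : ℝ} (h : τ ∈ Icc (-1 : ℝ) 1) : hde3_sig τ ∈ Icc (0 : ℝ) 1 := by
  unfold hde3_sig
  have : |τ| ≤ 1 := abs_le.2 ⟨h.1, h.2⟩
  exact ⟨le_min zero_le_one (by linarith), min_le_left _ _⟩

theorem hde3_kap_mem (τ : ℝ) : hde3_kap τ ∈ Icc (-1 : ℝ) 1 := by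
  unfold hde3_kap
  exact ⟨le_max_left _ _, max_le (by norm_num) (min_le_left _ _)⟩

/-- the relations between `τ`, `σ`, `κ` -/
theorem hde3_rel {τ : ℝ} (h : τ ∈ Icc (-1 : ℝ) 1) :
    (hde3_sig τ = 1 ∨ hde3_kap τ = 1 ∨ hde3_kap τ = -1) ∧
      τ = hde3_kap τ * (1 - hde3_sig τ / 2) := by
  obtain ⟨h1, h2⟩ := h
  unfold hde3_sig hde3_kap
  rcases le_or_gt (1 / 2) τ with h3 | h3
  · have e1 : |τ| = τ := abs_of_nonneg (by linarith)
    rw [e1, min_eq_right (show 2 * (1 - τ) ≤ 1 by linarith),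
      min_eq_left (show (1 : ℝ) ≤ 2 * τ by linarith), max_eq_right (by norm_num)]
    exact ⟨Or.inr (Or.inl rfl), by ring⟩
  · rcases le_or_gt τ (-(1 / 2)) with h4 | h4
    · have e1 : |τ| = -τ := abs_of_nonpos (by linarith)
      rw [e1, min_eq_right (show 2 * (1 - -τ) ≤ 1 by linarith),
        min_eq_right (show 2 * τ ≤ (1 : ℝ) by linarith),
        max_eq_left (show 2 * τ ≤ -1 by linarith)]
      exact ⟨Or.inr (Or.inr rfl), by ring⟩
    · have e1 : |τ| ≤ 1 / 2 := abs_le.2 ⟨by linarith, by linarith⟩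
      rw [min_eq_left (show (1 : ℝ) ≤ 2 * (1 - |τ|) by linarith),
        min_eq_right (show 2 * τ ≤ (1 : ℝ) by linarith),
        max_eq_right (show -1 ≤ 2 * τ by linarith)]
      exact ⟨Or.inl rfl, by ring⟩

theorem hde3_inv {σ κ : ℝ} (hσ : σ ∈ Icc (0 : ℝ) 1) (hκ : κ ∈ Icc (-1 : ℝ) 1)
    (h : σ = 1 ∨ κ = 1 ∨ κ = -1) : κ * (1 - σ / 2) ∈ Icc (-1 : ℝ) 1 ∧
      hde3_sig (κ * (1 - σ / 2)) = σ ∧ hde3_kap (κ * (1 - σ / 2)) = κ := by
  obtain ⟨h1, h2⟩ := hσ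
  obtain ⟨h3, h4⟩ := hκ
  unfold hde3_sig hde3_kap
  rcases h with rfl | rfl | rfl
  · have e1 : |κ * (1 - 1 / 2)| ≤ 1 / 2 := abs_le.2 ⟨by linarith, by linarith⟩
    rw [min_eq_left (show (1 : ℝ) ≤ 2 * (1 - |κ * (1 - 1 / 2)|) by linarith),
      min_eq_right (show 2 * (κ * (1 - 1 / 2)) ≤ (1 : ℝ) by linarith),
      max_eq_right (show -1 ≤ 2 * (κ * (1 - 1 / 2)) by linarith)]
    exact ⟨⟨by linarith, by linarith⟩, rfl, by ring⟩
  · have e1 : |1 * (1 - σ / 2)| = 1 - σ / 2 := by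
      rw [one_mul]
      exact abs_of_nonneg (by linarith)
    rw [e1, min_eq_right (show 2 * (1 - (1 - σ / 2)) ≤ 1 by linarith),
      min_eq_left (show (1 : ℝ) ≤ 2 * (1 * (1 - σ / 2)) by linarith), max_eq_right (by norm_num)]
    exact ⟨⟨by linarith, by linarith⟩, by ring, rfl⟩
  · have e1 : |(-1 : ℝ) * (1 - σ / 2)| = 1 - σ / 2 := by
      rw [neg_one_mul, abs_neg]
      exact abs_of_nonneg (by linarith)
    rw [e1, min_eq_right (show 2 * (1 - (1 - σ / 2)) ≤ 1 by linarith),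
      min_eq_right (show 2 * (-1 * (1 - σ / 2)) ≤ (1 : ℝ) by linarith),
      max_eq_left (show 2 * (-1 * (1 - σ / 2)) ≤ -1 by linarith)]
    exact ⟨⟨by linarith, by linarith⟩, by ring, rfl⟩

theorem hde3_sig_zero {τ : ℝ} (h : τ ∈ Icc (-1 : ℝ) 1) :
    hde3_sig τ = 0 ↔ τ ∈ ({-1, 1} : Set ℝ) := by
  have h1 : |τ| ≤ 1 := abs_le.2 ⟨h.1, h.2⟩
  constructor
  · intro h2
    unfold hde3_sig at h2
    have h3 : 2 * (1 - |τ|) = 0 := by
      rcases min_choice 1 (2 * (1 - |τ|)) with h4 | h4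
      · rw [h4] at h2
        norm_num at h2
      · rwa [h4] at h2
    have h5 : |τ| = 1 := by linarith
    rcases (abs_eq (zero_le_one' ℝ)).1 h5 with h6 | h6
    · exact Or.inr h6
    · exact Or.inl h6
  · rintro (rfl | h2)
    · unfold hde3_sig
      norm_num
    · have h3 : τ = 1 := h2
      subst h3
      unfold hde3_sig
      norm_num

section

variable {B P Q : ℝ → ℝ} (hB0 : ∀ v, 0 ≤ B v ∧ B v ≤ 1 / 100)
  (hB1 : ∀ v ∈ Icc (0 : ℝ) (1 / 16), bt (B v) = v)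

include hB0 hB1

theorem hde3_U {h σ : ℝ} (hh : |h| ≤ 1 / 8) (hσ : σ ∈ Icc (0 : ℝ) 1) :
    bt (B ((1 - σ ^ 2) * (h ^ 2 + 1 / 100))) = (1 - σ ^ 2) * (h ^ 2 + 1 / 100) ∧
      1 / 200 < B ((1 - σ ^ 2) * (h ^ 2 + 1 / 100)) ∧
      (1 - σ ^ 2) * (h ^ 2 + 1 / 100) < 1 / 32 := by
  obtain ⟨h1, h2⟩ := hσ
  have h3 : h ^ 2 ≤ 1 / 64 := by
    have := sq_le_sq' (abs_le.1 hh).1 (abs_le.1 hh).2
    linarith
  have h4 : 0 ≤ 1 - σ ^ 2 := by nlinarith
  have h5 : 1 - σ ^ 2 ≤ 1 := by nlinarith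
  have h6 : 0 ≤ (1 - σ ^ 2) * (h ^ 2 + 1 / 100) := by positivity
  have h7 : (1 - σ ^ 2) * (h ^ 2 + 1 / 100) < 1 / 32 := by nlinarith [sq_nonneg h]
  have h8 := hB1 _ ⟨h6, by linarith⟩
  refine ⟨h8, ?_, h7⟩
  by_contra hcon
  have h9 := antitone_bt (not_lt.1 hcon)
  rw [h8, bt_mid] at h9
  linarith

theorem hde3_l_facts {h c σ : ℝ} (hh : |h| ≤ 1 / 8) (hσ : σ ∈ Icc (0 : ℝ) 1)
    (hQ0 : 0 < Q c) (h1 : P c - 1 / 200 < Q c) (h2 : -Q c < P c - 1 / 100) :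
    0 < hde3_l B P Q h c σ ∧ hde3_l B P Q h c σ < Real.pi ∧
      Q c * Real.cos (hde3_l B P Q h c σ) = P c - B ((1 - σ ^ 2) * (h ^ 2 + 1 / 100)) := by
  obtain ⟨g1, g2, g3⟩ := hde3_U hB0 hB1 hh hσ
  have g4 := (hB0 ((1 - σ ^ 2) * (h ^ 2 + 1 / 100))).2
  set U := B ((1 - σ ^ 2) * (h ^ 2 + 1 / 100)) with hU
  have k1 : (P c - U) / Q c < 1 := by
    rw [div_lt_one hQ0]
    linarith
  have k2 : -1 < (P c - U) / Q c := by
    rw [lt_div_iff₀ hQ0]
    linarith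
  unfold hde3_l
  rw [← hU]
  refine ⟨Real.arccos_pos.2 k1, ?_, ?_⟩
  · rcases lt_or_eq_of_le (Real.arccos_le_pi ((P c - U) / Q c)) with h | h
    · exact h
    · exfalso
      have := Real.cos_arccos k2.le k1.le
      rw [h, Real.cos_pi] at this
      linarith
  · rw [Real.cos_arccos k2.le k1.le]
    field_simp

theorem hde3_U_one {h σ : ℝ} (hh : |h| ≤ 1 / 8) (hσ : σ = 1) :
    B ((1 - σ ^ 2) * (h ^ 2 + 1 / 100)) = 1 / 100 := by
  obtain ⟨g1, g2, g3⟩ := hde3_U hB0 hB1 hh (show σ ∈ Icc (0 : ℝ) 1 by rw [hσ]; norm_num)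
  have g4 := (hB0 ((1 - σ ^ 2) * (h ^ 2 + 1 / 100))).2
  apply le_antisymm g4
  by_contra hcon
  have := hde3_bt_pos (not_le.1 hcon)
  rw [g1, hσ] at this
  norm_num at this

theorem hde3_p1 {h c σ κ : ℝ} (hh : |h| ≤ 1 / 8) (hσ : σ ∈ Icc (0 : ℝ) 1)
    (hQ0 : 0 < Q c) (h1 : P c - 1 / 200 < Q c) (h2 : -Q c < P c - 1 / 100)
    (hκ : κ ∈ Icc (-1 : ℝ) 1) (hrel : σ = 1 ∨ κ = 1 ∨ κ = -1) :
    Real.pi + κ * (Real.pi - hde3_l B P Q h c σ) ∈ Ioo 0 (2 * Real.pi) ∧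
      h ^ 2 + 1 / 100 - bt (P c - Q c * Real.cos (Real.pi +
        κ * (Real.pi - hde3_l B P Q h c σ))) = σ ^ 2 * (h ^ 2 + 1 / 100) := by
  obtain ⟨l0, lp, lc⟩ := hde3_l_facts hB0 hB1 hh hσ hQ0 h1 h2
  obtain ⟨g1, g2, g3⟩ := hde3_U hB0 hB1 hh hσ
  set l := hde3_l B P Q h c σ with hl
  obtain ⟨k1, k2⟩ := hκ
  have m1 : κ * (Real.pi - l) ≤ Real.pi - l := by nlinarith
  have m2 : -(Real.pi - l) ≤ κ * (Real.pi - l) := by nlinarith
  refine ⟨⟨by linarith, by linarith⟩, ?_⟩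
  have key : Real.cos (Real.pi + κ * (Real.pi - l)) = Real.cos l →
      h ^ 2 + 1 / 100 - bt (P c - Q c * Real.cos (Real.pi + κ * (Real.pi - l)))
        = σ ^ 2 * (h ^ 2 + 1 / 100) := by
    intro h4
    have h5 : P c - Q c * Real.cos (Real.pi + κ * (Real.pi - l))
        = B ((1 - σ ^ 2) * (h ^ 2 + 1 / 100)) := by
      rw [h4, lc]
      ring
    rw [h5, g1]
    ring
  rcases hrel with h3 | h3 | h3
  · have h4 : Real.cos (Real.pi + κ * (Real.pi - l)) ≤ Real.cos l := by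
      have e1 : Real.cos (Real.pi + κ * (Real.pi - l)) = -Real.cos |κ * (Real.pi - l)| := by
        rw [Real.cos_abs, add_comm, Real.cos_add_pi]
      have e2 : Real.cos l = -Real.cos (Real.pi - l) := by
        rw [Real.cos_pi_sub]
        ring
      rw [e1, e2]
      have := Real.cos_le_cos_of_nonneg_of_le_pi (abs_nonneg (κ * (Real.pi - l)))
        (show Real.pi - l ≤ Real.pi by linarith) (abs_le.2 ⟨m2, m1⟩)
      linarith
    have h5 : 1 / 100 ≤ P c - Q c * Real.cos (Real.pi + κ * (Real.pi - l)) := by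
      have h6 := hde3_U_one hB0 hB1 hh h3
      have h7 : Q c * Real.cos (Real.pi + κ * (Real.pi - l)) ≤ Q c * Real.cos l :=
        mul_le_mul_of_nonneg_left h4 hQ0.le
      rw [lc, h6] at h7
      linarith
    rw [bt_eq_zero h5, h3]
    ring
  · apply key
    rw [h3]
    have : Real.pi + 1 * (Real.pi - l) = 2 * Real.pi - l := by ring
    rw [this, Real.cos_two_pi_sub]
  · apply key
    rw [h3]
    have : Real.pi + -1 * (Real.pi - l) = l := by ring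
    rw [this]

theorem hde3_conv {hx c σ ℓ : ℝ} (hh : |hx| ≤ 1 / 8) (hσ : σ ∈ Icc (0 : ℝ) 1)
    (hQ0 : 0 < Q c) (h1 : P c - 1 / 200 < Q c) (h2 : -Q c < P c - 1 / 100)
    (hℓ : ℓ ∈ Ioo 0 (2 * Real.pi))
    (h : hx ^ 2 + 1 / 100 - bt (P c - Q c * Real.cos ℓ) = σ ^ 2 * (hx ^ 2 + 1 / 100)) :
    ∃ κ ∈ Icc (-1 : ℝ) 1, (σ = 1 ∨ κ = 1 ∨ κ = -1) ∧
      ℓ = Real.pi + κ * (Real.pi - hde3_l B P Q hx c σ) := by
  obtain ⟨l0, lp, lc⟩ := hde3_l_facts hB0 hB1 hh hσ hQ0 h1 h2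
  obtain ⟨g1, g2, g3⟩ := hde3_U hB0 hB1 hh hσ
  have g4 := (hB0 ((1 - σ ^ 2) * (hx ^ 2 + 1 / 100))).2
  set l := hde3_l B P Q hx c σ with hl
  set U := B ((1 - σ ^ 2) * (hx ^ 2 + 1 / 100)) with hU
  have hbt : bt (P c - Q c * Real.cos ℓ) = (1 - σ ^ 2) * (hx ^ 2 + 1 / 100) := by linarith
  rcases lt_or_eq_of_le hσ.2 with hσ1 | hσ1
  · have p1 : 0 < (1 - σ ^ 2) * (hx ^ 2 + 1 / 100) := by
      have : 0 < 1 - σ ^ 2 := by nlinarith [hσ.1]
      positivity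
    obtain ⟨q1, q2, -⟩ := deriv_bt_neg (u := P c - Q c * Real.cos ℓ) (by rw [hbt]; exact p1)
      (by rw [hbt]; linarith)
    have hXU : P c - Q c * Real.cos ℓ = U :=
      strictAntiOn_bt.injOn ⟨q1.le, q2.le⟩ ⟨by linarith, g4⟩ (by rw [hbt, g1])
    have hcos : Real.cos ℓ = Real.cos l := by
      apply mul_left_cancel₀ hQ0.ne'
      rw [lc]
      linarith
    rcases le_or_gt ℓ Real.pi with h4 | h4
    · have h5 : ℓ = l := Real.injOn_cos ⟨hℓ.1.le, h4⟩ ⟨l0.le, lp.le⟩ hcos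
      exact ⟨-1, by norm_num, Or.inr (Or.inr rfl), by rw [h5]; ring⟩
    · have h5 : 2 * Real.pi - ℓ = l := Real.injOn_cos ⟨by linarith [hℓ.2], by linarith⟩
        ⟨l0.le, lp.le⟩ (by rw [Real.cos_two_pi_sub]; exact hcos)
      exact ⟨1, by norm_num, Or.inr (Or.inl rfl), by rw [← h5]; ring⟩
  · have hU1 := hde3_U_one hB0 hB1 hh hσ1
    rw [← hU] at hU1
    have hX : 1 / 100 ≤ P c - Q c * Real.cos ℓ := by
      by_contra hcon
      have := hde3_bt_pos (not_le.1 hcon)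
      rw [hbt, hσ1] at this
      norm_num at this
    have hcos : Real.cos ℓ ≤ Real.cos l := by
      apply le_of_mul_le_mul_left _ hQ0
      rw [lc, hU1]
      linarith
    have habs : |ℓ - Real.pi| ≤ Real.pi - l := by
      by_contra hcon
      have h5 := Real.cos_lt_cos_of_nonneg_of_le_pi (show 0 ≤ Real.pi - l by linarith)
        (show |ℓ - Real.pi| ≤ Real.pi from abs_le.2 ⟨by linarith [hℓ.1], by linarith [hℓ.2]⟩)
        (not_le.1 hcon)
      rw [Real.cos_abs, Real.cos_sub_pi, Real.cos_pi_sub] at h5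
      linarith
    have hpl : 0 < Real.pi - l := by linarith
    refine ⟨(ℓ - Real.pi) / (Real.pi - l), ?_, Or.inl hσ1, ?_⟩
    · obtain ⟨h6, h7⟩ := abs_le.1 habs
      constructor
      · rw [le_div_iff₀ hpl]
        linarith
      · rw [div_le_one hpl]
        linarith
    · field_simp
      ring

end

/-- The handle in the coordinates `(h, ℓ, c)`; here `bt` is evaluated at
`P c - Q c * cos ℓ`. -/
theorem exists_handle (P Q : ℝ → ℝ) (hP : Continuous P) (hQ : Continuous Q)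
    (hQ0 : ∀ c, |c| ≤ Real.arccos (999 / 1000) → 0 < Q c)
    (h1 : ∀ c, |c| ≤ Real.arccos (999 / 1000) → P c - 1 / 200 < Q c)
    (h2 : ∀ c, |c| ≤ Real.arccos (999 / 1000) → -Q c < P c - 1 / 100)
    (h3 : ∀ c, |c| ≤ Real.arccos (999 / 1000) → Q c ≤ P c) :
    ∃ e : ℂ × ℝ → ℝ × ℝ × ℝ, ContinuousOn e cyl ∧ InjOn e cyl ∧
      e '' cyl = {p | |p.1| ≤ 1 / 8 ∧ |p.2.2| ≤ Real.arccos (999 / 1000) ∧
        p.2.1 ∈ Ioo 0 (2 * Real.pi) ∧
        0 ≤ p.1 ^ 2 + 1 / 100 - bt (P p.2.2 - Q p.2.2 * Real.cos p.2.1) ∧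
        p.1 ^ 2 + 1 / 100 - bt (P p.2.2 - Q p.2.2 * Real.cos p.2.1) ≤
          (eta p.1 * Lam (1 - Real.cos p.2.2)) ^ 2} ∧
      e '' cylEnds = {p | |p.1| ≤ 1 / 8 ∧ |p.2.2| ≤ Real.arccos (999 / 1000) ∧
        p.2.1 ∈ Ioo 0 (2 * Real.pi) ∧
        p.1 ^ 2 + 1 / 100 - bt (P p.2.2 - Q p.2.2 * Real.cos p.2.1) = 0} ∧
      e '' cylEndsInt = {p | |p.1| < 1 / 8 ∧ |p.2.2| < Real.arccos (999 / 1000) ∧
        p.2.1 ∈ Ioo 0 (2 * Real.pi) ∧
        p.1 ^ 2 + 1 / 100 - bt (P p.2.2 - Q p.2.2 * Real.cos p.2.1) = 0} ∧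
      e '' cylSide = {p | |p.1| ≤ 1 / 8 ∧ |p.2.2| ≤ Real.arccos (999 / 1000) ∧
        p.2.1 ∈ Ioo 0 (2 * Real.pi) ∧
        p.1 ^ 2 + 1 / 100 - bt (P p.2.2 - Q p.2.2 * Real.cos p.2.1) =
          (eta p.1 * Lam (1 - Real.cos p.2.2)) ^ 2} := by
  obtain ⟨B, hB, hB0, hB1⟩ := hde3_btinv
  obtain ⟨s, hs, hsi, hsb, hss⟩ := exists_slices'
  set c0 := Real.arccos (999 / 1000) with hc0
  -- basic facts on the slices
  have F1 : ∀ q ∈ Metric.closedBall (0 : ℂ) 1, ∀ σ ∈ Icc (0 : ℝ) 1,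
      |(s (q, σ)).1| ≤ 1 / 8 ∧ |(s (q, σ)).2| ≤ c0 ∧
        σ ^ 2 * ((s (q, σ)).1 ^ 2 + 1 / 100) ≤
          (eta (s (q, σ)).1 * Lam (1 - Real.cos (s (q, σ)).2)) ^ 2 := by
    intro q hq σ hσ
    have : (fun q => s (q, σ)) q ∈ (fun q => s (q, σ)) '' Metric.closedBall 0 1 := ⟨q, hq, rfl⟩
    rw [hsb σ hσ] at this
    exact this
  have F2 : ∀ σ ∈ Icc (0 : ℝ) 1, ∀ h c : ℝ, |h| ≤ 1 / 8 → |c| ≤ c0 →
      σ ^ 2 * (h ^ 2 + 1 / 100) ≤ (eta h * Lam (1 - Real.cos c)) ^ 2 →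
      ∃ q ∈ Metric.closedBall (0 : ℂ) 1, s (q, σ) = (h, c) := by
    intro σ hσ h c k1 k2 k3
    have : (h, c) ∈ (fun q => s (q, σ)) '' Metric.closedBall 0 1 := by
      rw [hsb σ hσ]
      exact ⟨k1, k2, k3⟩
    exact this
  have F3 : ∀ q ∈ Metric.closedBall (0 : ℂ) 1, ∀ σ ∈ Icc (0 : ℝ) 1,
      (q ∈ Metric.sphere (0 : ℂ) 1 ↔ σ ^ 2 * ((s (q, σ)).1 ^ 2 + 1 / 100) =
          (eta (s (q, σ)).1 * Lam (1 - Real.cos (s (q, σ)).2)) ^ 2) := by
    intro q hq σ hσ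
    constructor
    · intro hq'
      have : (fun q => s (q, σ)) q ∈ (fun q => s (q, σ)) '' Metric.sphere 0 1 := ⟨q, hq', rfl⟩
      rw [hss σ hσ] at this
      exact this.2.2
    · intro hq'
      obtain ⟨k1, k2, -⟩ := F1 q hq σ hσ
      have : s (q, σ) ∈ (fun q => s (q, σ)) '' Metric.sphere 0 1 := by
        rw [hss σ hσ]
        exact ⟨k1, k2, hq'⟩
      obtain ⟨q', hq1, hq2⟩ := this
      have : q' = q := hsi σ hσ (Metric.sphere_subset_closedBall hq1) hq hq2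
      rwa [this] at hq1
  -- the handle
  have G1 : ∀ x ∈ cyl, |(hde3_e s B P Q x).1| ≤ 1 / 8 ∧ |(hde3_e s B P Q x).2.2| ≤ c0 ∧
      (hde3_e s B P Q x).2.1 ∈ Ioo 0 (2 * Real.pi) ∧
      (hde3_e s B P Q x).1 ^ 2 + 1 / 100 - bt (P (hde3_e s B P Q x).2.2 -
        Q (hde3_e s B P Q x).2.2 * Real.cos (hde3_e s B P Q x).2.1) =
        hde3_sig x.2 ^ 2 * ((hde3_e s B P Q x).1 ^ 2 + 1 / 100) := by
    intro x hx
    obtain ⟨hx1, hx2⟩ := hx
    have k0 := hde3_sig_mem hx2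
    obtain ⟨k1, k2, k3⟩ := F1 x.1 hx1 (hde3_sig x.2) k0
    have k4 := hde3_p1 (P := P) (Q := Q) hB0 hB1 k1 k0 (hQ0 _ k2) (h1 _ k2) (h2 _ k2)
      (hde3_kap_mem x.2) (hde3_rel hx2).1
    exact ⟨k1, k2, k4.1, k4.2⟩
  have G2 : ∀ h ℓ c : ℝ, |h| ≤ 1 / 8 → |c| ≤ c0 → ℓ ∈ Ioo 0 (2 * Real.pi) →
      0 ≤ h ^ 2 + 1 / 100 - bt (P c - Q c * Real.cos ℓ) →
      h ^ 2 + 1 / 100 - bt (P c - Q c * Real.cos ℓ) ≤ (eta h * Lam (1 - Real.cos c)) ^ 2 →
      ∃ x ∈ cyl, hde3_e s B P Q x = (h, ℓ, c) := by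
    intro h ℓ c k1 k2 k3 k4 k5
    have hpos : 0 < h ^ 2 + 1 / 100 := by positivity
    set p1 := h ^ 2 + 1 / 100 - bt (P c - Q c * Real.cos ℓ) with hp1
    have hp1le : p1 ≤ h ^ 2 + 1 / 100 := by
      have := bt_nonneg (P c - Q c * Real.cos ℓ)
      linarith
    have hr0 : 0 ≤ p1 / (h ^ 2 + 1 / 100) := div_nonneg k4 hpos.le
    have hr1 : p1 / (h ^ 2 + 1 / 100) ≤ 1 := by
      rw [div_le_one hpos]
      exact hp1le
    set σ := Real.sqrt (p1 / (h ^ 2 + 1 / 100)) with hσd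
    have hσ : σ ∈ Icc (0 : ℝ) 1 := ⟨Real.sqrt_nonneg _, by
      rw [hσd, Real.sqrt_le_one]
      exact hr1⟩
    have hσp : p1 = σ ^ 2 * (h ^ 2 + 1 / 100) := by
      rw [hσd, Real.sq_sqrt hr0]
      field_simp
    obtain ⟨q, hq, hqs⟩ := F2 σ hσ h c k1 k2 (by rw [← hσp]; exact k5)
    obtain ⟨κ, hκ, hrel, hℓ⟩ := hde3_conv (P := P) (Q := Q) hB0 hB1 k1 hσ (hQ0 _ k2) (h1 _ k2)
      (h2 _ k2) k3 hσp
    obtain ⟨m1, m2, m3⟩ := hde3_inv hσ hκ hrel
    refine ⟨(q, κ * (1 - σ / 2)), ⟨hq, m1⟩, ?_⟩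
    unfold hde3_e
    simp only [m2, m3, hqs]
    rw [← hℓ]
  refine ⟨hde3_e s B P Q, ?_, ?_, ?_, ?_, ?_, ?_⟩
  · -- continuity
    have c1 : Continuous hde3_sig := by
      unfold hde3_sig
      fun_prop
    have c2 : Continuous hde3_kap := by
      unfold hde3_kap
      fun_prop
    have c3 : ContinuousOn (fun x : ℂ × ℝ => s (x.1, hde3_sig x.2)) cyl := by
      refine hs.comp (by fun_prop) ?_
      intro x hx
      exact ⟨hx.1, hde3_sig_mem hx.2⟩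
    have c4 : ContinuousOn (fun x : ℂ × ℝ => (s (x.1, hde3_sig x.2)).1) cyl :=
      continuous_fst.comp_continuousOn c3
    have c5 : ContinuousOn (fun x : ℂ × ℝ => (s (x.1, hde3_sig x.2)).2) cyl :=
      continuous_snd.comp_continuousOn c3
    have c6 : ContinuousOn (fun x : ℂ × ℝ => hde3_l B P Q (s (x.1, hde3_sig x.2)).1
        (s (x.1, hde3_sig x.2)).2 (hde3_sig x.2)) cyl := by
      unfold hde3_l
      refine Real.continuous_arccos.comp_continuousOn (ContinuousOn.div ?_ ?_ ?_)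
      · refine (hP.comp_continuousOn c5).sub (hB.comp_continuousOn ?_)
        refine ContinuousOn.mul (by fun_prop) ((c4.pow 2).add continuousOn_const)
      · exact hQ.comp_continuousOn c5
      · intro x hx
        exact (hQ0 _ (F1 x.1 hx.1 _ (hde3_sig_mem hx.2)).2.1).ne'
    unfold hde3_e
    refine c4.prodMk (ContinuousOn.prodMk ?_ c5)
    refine continuousOn_const.add (ContinuousOn.mul (by fun_prop) (continuousOn_const.sub c6))
  · -- injectivity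
    intro x hx y hy hxy
    obtain ⟨x1, x2, x3, x4⟩ := G1 x hx
    obtain ⟨y1, y2, y3, y4⟩ := G1 y hy
    rw [hxy] at x4
    have hpos : 0 < (hde3_e s B P Q y).1 ^ 2 + 1 / 100 := by positivity
    have e1 : hde3_sig x.2 ^ 2 = hde3_sig y.2 ^ 2 := by
      apply mul_right_cancel₀ hpos.ne'
      rw [← x4, ← y4]
    have s1 := hde3_sig_mem hx.2
    have s2 := hde3_sig_mem hy.2
    have e2 : hde3_sig x.2 = hde3_sig y.2 := by
      rw [← abs_of_nonneg s1.1, ← abs_of_nonneg s2.1]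
      exact sq_eq_sq_iff_abs_eq_abs _ _ |>.1 e1
    have e3 : s (x.1, hde3_sig x.2) = s (y.1, hde3_sig y.2) := by
      have a1 := congrArg Prod.fst hxy
      have a2 := congrArg (fun p => p.2.2) hxy
      exact Prod.ext a1 a2
    have e4 : x.1 = y.1 := by
      rw [e2] at e3
      exact hsi _ s2 hx.1 hy.1 e3
    have e5 : hde3_kap x.2 = hde3_kap y.2 := by
      have a1 := congrArg (fun p => p.2.1) hxy
      simp only [hde3_e] at a1
      rw [e3, e2] at a1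
      obtain ⟨b1, b2, b3⟩ := F1 y.1 hy.1 _ s2
      obtain ⟨l0, lp, -⟩ := hde3_l_facts (P := P) (Q := Q) hB0 hB1 b1 s2 (hQ0 _ b2) (h1 _ b2)
        (h2 _ b2)
      have a2 := add_left_cancel a1
      exact mul_right_cancel₀ (by linarith) a2
    refine Prod.ext e4 ?_
    rw [(hde3_rel hx.2).2, (hde3_rel hy.2).2, e5, e2]
  · ext p
    constructor
    · rintro ⟨x, hx, rfl⟩
      obtain ⟨x1, x2, x3, x4⟩ := G1 x hx
      refine ⟨x1, x2, x3, ?_, ?_⟩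
      · rw [x4]
        positivity
      · rw [x4]
        exact (F1 x.1 hx.1 _ (hde3_sig_mem hx.2)).2.2
    · rintro ⟨k1, k2, k3, k4, k5⟩
      obtain ⟨x, hx, he⟩ := G2 p.1 p.2.1 p.2.2 k1 k2 k3 k4 k5
      exact ⟨x, hx, he⟩
  · ext p
    constructor
    · rintro ⟨x, hx, rfl⟩
      have hx2 : x.2 ∈ Icc (-1 : ℝ) 1 := by
        rcases hx.2 with h | h
        · rw [h]; norm_num
        · have : x.2 = 1 := h
          rw [this]; norm_num
      obtain ⟨x1, x2, x3, x4⟩ := G1 x ⟨hx.1, hx2⟩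
      refine ⟨x1, x2, x3, ?_⟩
      rw [x4, (hde3_sig_zero hx2).2 hx.2]
      ring
    · rintro ⟨k1, k2, k3, k4⟩
      obtain ⟨x, hx, he⟩ := G2 p.1 p.2.1 p.2.2 k1 k2 k3 k4.ge (by rw [k4]; positivity)
      obtain ⟨x1, x2, x3, x4⟩ := G1 x hx
      rw [he] at x4
      have x4' : hde3_sig x.2 ^ 2 * (p.1 ^ 2 + 1 / 100) = 0 := by
        rw [← k4]
        exact x4.symm
      have hpos : 0 < p.1 ^ 2 + 1 / 100 := by positivity
      have h5 : hde3_sig x.2 = 0 := by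
        rcases mul_eq_zero.1 x4' with h | h
        · exact pow_eq_zero_iff (two_ne_zero) |>.1 h
        · exact absurd h hpos.ne'
      exact ⟨x, ⟨hx.1, (hde3_sig_zero hx.2).1 h5⟩, he⟩
  · have heL : ∀ h c : ℝ, |h| ≤ 1 / 8 → |c| ≤ c0 →
        ((0 : ℝ) = (eta h * Lam (1 - Real.cos c)) ^ 2 ↔ ¬ (|h| < 1 / 8 ∧ |c| < c0)) := by
      intro h c k1 k2
      have hcc : 1 / 1000 ≤ 1 - Real.cos c ↔ ¬ |c| < c0 := by
        rw [not_lt]
        have hc1 : Real.cos c0 = 999 / 1000 := Real.cos_arccos (by norm_num) (by norm_num)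
        have hcp : |c| ≤ Real.pi := k2.trans (Real.arccos_le_pi _)
        constructor
        · intro h5
          by_contra h6
          have h7 := Real.cos_lt_cos_of_nonneg_of_le_pi (abs_nonneg c)
            (Real.arccos_le_pi (999 / 1000)) (not_le.1 h6)
          rw [← hc0, hc1, Real.cos_abs] at h7
          linarith
        · intro h5
          have h6 := Real.cos_le_cos_of_nonneg_of_le_pi (Real.arccos_nonneg (999 / 1000)) hcp h5
          rw [← hc0, hc1, Real.cos_abs] at h6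
          linarith
      have hhh : 1 ≤ 64 * h ^ 2 ↔ ¬ |h| < 1 / 8 := by
        rw [not_lt]
        constructor
        · intro h5
          by_contra h6
          have h7 := not_le.1 h6
          have h8 : |h| ^ 2 < (1 / 8) ^ 2 := by
            apply pow_lt_pow_left₀ h7 (abs_nonneg h) two_ne_zero
          rw [sq_abs] at h8
          linarith
        · intro h5
          have h8 : (1 / 8) ^ 2 ≤ |h| ^ 2 := pow_le_pow_left₀ (by norm_num) h5 2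
          rw [sq_abs] at h8
          linarith
      rw [eq_comm, pow_eq_zero_iff two_ne_zero, mul_eq_zero, eta_eq_zero_iff, Lam_eq_zero_iff,
        hcc, hhh]
      tauto
    ext p
    constructor
    · rintro ⟨x, hx, rfl⟩
      have hx1 : x.1 ∈ Metric.closedBall (0 : ℂ) 1 := Metric.ball_subset_closedBall hx.1
      have hx2 : x.2 ∈ Icc (-1 : ℝ) 1 := by
        rcases hx.2 with h | h
        · rw [h]; norm_num
        · have : x.2 = 1 := h
          rw [this]; norm_num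
      have hσ0 := (hde3_sig_zero hx2).2 hx.2
      obtain ⟨x1, x2, x3, x4⟩ := G1 x ⟨hx1, hx2⟩
      rw [hσ0] at x4
      have hns : x.1 ∉ Metric.sphere (0 : ℂ) 1 := by
        intro h
        rw [mem_sphere_zero_iff_norm] at h
        have := hx.1
        rw [mem_ball_zero_iff] at this
        linarith
      rw [F3 x.1 hx1 (hde3_sig x.2) (hde3_sig_mem hx2), hσ0] at hns
      have h5 := heL (hde3_e s B P Q x).1 (hde3_e s B P Q x).2.2 x1 x2
      have h6 : |(hde3_e s B P Q x).1| < 1 / 8 ∧ |(hde3_e s B P Q x).2.2| < c0 := by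
        by_contra h7
        apply hns
        have h8 := h5.2 h7
        simp only [hde3_e] at h8
        rw [hσ0] at h8
        rw [← h8]
        ring
      refine ⟨h6.1, h6.2, x3, ?_⟩
      rw [x4]
      ring
    · rintro ⟨k1, k2, k3, k4⟩
      obtain ⟨x, hx, he⟩ := G2 p.1 p.2.1 p.2.2 k1.le k2.le k3 k4.ge (by rw [k4]; positivity)
      obtain ⟨x1, x2, x3, x4⟩ := G1 x hx
      rw [he] at x4
      have x4' : hde3_sig x.2 ^ 2 * (p.1 ^ 2 + 1 / 100) = 0 := by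
        rw [← k4]
        exact x4.symm
      have hpos : 0 < p.1 ^ 2 + 1 / 100 := by positivity
      have h5 : hde3_sig x.2 = 0 := by
        rcases mul_eq_zero.1 x4' with h | h
        · exact pow_eq_zero_iff (two_ne_zero) |>.1 h
        · exact absurd h hpos.ne'
      refine ⟨x, ⟨?_, (hde3_sig_zero hx.2).1 h5⟩, he⟩
      rw [mem_ball_zero_iff]
      have hx1 := hx.1
      rw [mem_closedBall_zero_iff] at hx1
      rcases lt_or_eq_of_le hx1 with h6 | h6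
      · exact h6
      · exfalso
        have h7 := (F3 x.1 hx.1 (hde3_sig x.2) (hde3_sig_mem hx.2)).1
          (mem_sphere_zero_iff_norm.2 h6)
        have e1 : (s (x.1, hde3_sig x.2)).1 = p.1 := congrArg Prod.fst he
        have e2 : (s (x.1, hde3_sig x.2)).2 = p.2.2 := congrArg (fun p => p.2.2) he
        rw [e1, e2, h5] at h7
        have h8 := (heL p.1 p.2.2 k1.le k2.le).1 (by rw [← h7]; ring)
        exact h8 ⟨k1, k2⟩
  · ext p
    constructor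
    · rintro ⟨x, hx, rfl⟩
      have hx1 : x.1 ∈ Metric.closedBall (0 : ℂ) 1 := Metric.sphere_subset_closedBall hx.1
      obtain ⟨x1, x2, x3, x4⟩ := G1 x ⟨hx1, hx.2⟩
      refine ⟨x1, x2, x3, ?_⟩
      rw [x4]
      exact (F3 x.1 hx1 (hde3_sig x.2) (hde3_sig_mem hx.2)).1 hx.1
    · rintro ⟨k1, k2, k3, k4⟩
      obtain ⟨x, hx, he⟩ := G2 p.1 p.2.1 p.2.2 k1 k2 k3 (by rw [k4]; positivity) k4.le
      obtain ⟨x1, x2, x3, x4⟩ := G1 x hx
      rw [he] at x4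
      have x4' : hde3_sig x.2 ^ 2 * (p.1 ^ 2 + 1 / 100) =
          (eta p.1 * Lam (1 - Real.cos p.2.2)) ^ 2 := by
        rw [← k4]
        exact x4.symm
      refine ⟨x, ⟨?_, hx.2⟩, he⟩
      rw [F3 x.1 hx.1 (hde3_sig x.2) (hde3_sig_mem hx.2)]
      have e1 : (s (x.1, hde3_sig x.2)).1 = p.1 := congrArg Prod.fst he
      have e2 : (s (x.1, hde3_sig x.2)).2 = p.2.2 := congrArg (fun p => p.2.2) he
      rw [e1, e2]
      exact x4'

end Pool.Agent.Tri
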