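import Mathlib
import Pool.Agent.H.MP_5efd29_gt.HdE1
import Pool.Agent.H.MP_5efd29_gt.HdE2
import Pool.Agent.H.MP_5efd29_gt.HdE3
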