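import Mathlib
import Pool.Agent.H.MP_5efd29_gt.HdE
import Pool.Agent.H.MP_5efd29_gt.HdB

open scoped ContDiff Topology
open Set

noncomputable section

namespace Pool.Agent.Tri

/-! ### Angles -/

/-- The largest angle `c` on the handle. -/
def hdf_c0 : ℝ := Real.arccos (999 / 1000)

theorem hdf_c0_nonneg : 0 ≤ hdf_c0 := Real.arccos_nonneg _

theorem hdf_c0_le : hdf_c0 ≤ Real.pi := Real.arccos_le_pi _

theorem hdf_c0_lt : hdf_c0 < Real.pi := by
  have h1 : hdf_c0 ≠ Real.pi := by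
    intro h
    have h2 := congrArg Real.cos h
    unfold hdf_c0 at h2
    rw [Real.cos_arccos (by norm_num) (by norm_num), Real.cos_pi] at h2
    norm_num at h2
  exact lt_of_le_of_ne hdf_c0_le h1

theorem hdf_cos_c0 : Real.cos hdf_c0 = 999 / 1000 :=
  Real.cos_arccos (by norm_num) (by norm_num)

theorem hdf_cos_ge {c : ℝ} (hc : |c| ≤ hdf_c0) : 999 / 1000 ≤ Real.cos c := by
  rw [← Real.cos_abs c, ← hdf_cos_c0]
  exact Real.cos_le_cos_of_nonneg_of_le_pi (abs_nonneg c) hdf_c0_le hc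

theorem hdf_cos_gt {c : ℝ} (hc : |c| < hdf_c0) : 999 / 1000 < Real.cos c := by
  rw [← Real.cos_abs c, ← hdf_cos_c0]
  exact Real.cos_lt_cos_of_nonneg_of_le_pi (abs_nonneg c) hdf_c0_le hc

theorem hdf_lt_of_cos {c : ℝ} (hc : |c| ≤ hdf_c0) (h : 999 / 1000 < Real.cos c) :
    |c| < hdf_c0 := by
  refine lt_of_le_of_ne hc fun h1 => ?_
  rw [← Real.cos_abs c, h1, hdf_cos_c0] at h
  exact lt_irrefl _ h

theorem hdf_arg {z : Circle} (hz : 999 / 1000 ≤ (z : ℂ).re) :
    ∃ c : ℝ, |c| ≤ hdf_c0 ∧ Circle.exp c = z := by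
  refine ⟨Complex.arg z, ?_, Circle.exp_arg z⟩
  have h1 : Real.cos (Complex.arg z) = (z : ℂ).re := by
    have h2 := Complex.cos_arg (x := (z : ℂ)) z.coe_ne_zero
    rw [Circle.norm_coe, div_one] at h2
    exact h2
  have h3 : |Complex.arg z| ≤ Real.pi := Complex.abs_arg_le_pi _
  have h4 : |Complex.arg z| = Real.arccos (Real.cos |Complex.arg z|) :=
    (Real.arccos_cos (abs_nonneg _) h3).symm
  rw [Real.cos_abs, h1] at h4
  rw [h4]
  exact Real.arccos_le_arccos hz

theorem hdf_ell (z : Circle) : ∃ l : ℝ, 0 ≤ l ∧ l < 2 * Real.pi ∧ Circle.exp l = z := by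
  have hpi := Real.pi_pos
  by_cases h : 0 ≤ Complex.arg z
  · have h1 := Complex.arg_le_pi (z : ℂ)
    exact ⟨Complex.arg z, h, by linarith, Circle.exp_arg z⟩
  · rw [not_le] at h
    have h1 := Complex.neg_pi_lt_arg (z : ℂ)
    refine ⟨Complex.arg z + 2 * Real.pi, by linarith, by linarith, ?_⟩
    rw [Circle.exp_add, Circle.exp_two_pi, mul_one, Circle.exp_arg]

theorem hdf_exp_inj {x y : ℝ} (h : Circle.exp x = Circle.exp y) (hxy : |x - y| < 2 * Real.pi) :
    x = y := by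
  obtain ⟨m, hm⟩ := Circle.exp_eq_exp.1 h
  have hpi : 0 < 2 * Real.pi := by linarith [Real.pi_pos]
  have h1 : x - y = m * (2 * Real.pi) := by linarith
  rw [h1, abs_mul, abs_of_pos hpi] at hxy
  have h2 : |(m : ℝ)| < 1 := by
    by_contra hcon
    rw [not_lt] at hcon
    nlinarith
  have h3 : m = 0 := by
    have h4 : |m| < 1 := by exact_mod_cast h2
    exact Int.abs_lt_one_iff.1 h4
  rw [h3] at h1
  simp only [Int.cast_zero, zero_mul] at h1
  linarith

theorem hdf_exp_re (x : ℝ) : ((Circle.exp x : Circle) : ℂ).re = Real.cos x := by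
  rw [Circle.coe_exp, Complex.exp_ofReal_mul_I_re]

/-! ### The handle in the coordinates `(h, ℓ, c)` -/

/-- The map from the coordinates `(h, ℓ, c)` to the quotient. -/
def hdf_G (k : Fin 3) (α β : ℝ → ℝ → Circle) (p : ℝ × ℝ × ℝ) : C5 :=
  jc p.1 (α p.2.1 p.2.2) (β p.2.1 p.2.2) (xq k p.1 (α p.2.1 p.2.2) (β p.2.1 p.2.2))

theorem hdf_cont_rc : Continuous (fun q : ℝ × Circle × Circle => rc q.1 q.2.1 q.2.2) := by
  have h1 : Continuous cc := contDiff_cc.continuous
  have h2 : Continuous bt := contDiff_bt.continuous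
  have hcoe : Continuous (fun z : Circle => (z : ℂ)) := continuous_induced_dom
  have ha : Continuous (fun q : ℝ × Circle × Circle => ((q.2.1 : Circle) : ℂ).re) :=
    Complex.continuous_re.comp (hcoe.comp (continuous_fst.comp continuous_snd))
  have hb : Continuous (fun q : ℝ × Circle × Circle => ((q.2.2 : Circle) : ℂ).re) :=
    Complex.continuous_re.comp (hcoe.comp (continuous_snd.comp continuous_snd))
  exact ((continuous_fst.pow 2).add continuous_const).sub
    ((h1.comp continuous_fst).mul (h2.comp ((continuous_const.sub ha).sub hb)))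

theorem hdf_cont_xq (k : Fin 3) :
    Continuous (fun q : ℝ × Circle × Circle => xq k q.1 q.2.1 q.2.2) :=
  (Complex.continuous_ofReal.comp (Real.continuous_sqrt.comp hdf_cont_rc)).mul continuous_const

theorem hdf_cont_G (k : Fin 3) {α β : ℝ → ℝ → Circle}
    (hα : Continuous (fun p : ℝ × ℝ => α p.1 p.2))
    (hβ : Continuous (fun p : ℝ × ℝ => β p.1 p.2)) : Continuous (hdf_G k α β) := by
  have h1 : Continuous (fun p : ℝ × ℝ × ℝ => α p.2.1 p.2.2) := hα.comp continuous_snd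
  have h2 : Continuous (fun p : ℝ × ℝ × ℝ => β p.2.1 p.2.2) := hβ.comp continuous_snd
  have h3 : Continuous (fun p : ℝ × ℝ × ℝ => (p.1, α p.2.1 p.2.2, β p.2.1 p.2.2)) :=
    continuous_fst.prodMk (h1.prodMk h2)
  have h4 : Continuous (fun p : ℝ × ℝ × ℝ => xq k p.1 (α p.2.1 p.2.2) (β p.2.1 p.2.2)) :=
    (hdf_cont_xq k).comp h3
  have h5 : Continuous (fun p : ℝ × ℝ × ℝ => (p.1, α p.2.1 p.2.2, β p.2.1 p.2.2,
      xq k p.1 (α p.2.1 p.2.2) (β p.2.1 p.2.2))) :=
    continuous_fst.prodMk (h1.prodMk (h2.prodMk h4))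
  have h6 := continuous_jc.comp h5
  unfold hdf_G
  exact h6

theorem hdf_main (k : Fin 3) (P Q : ℝ → ℝ) (α β : ℝ → ℝ → Circle)
    (hα : Continuous (fun p : ℝ × ℝ => α p.1 p.2))
    (hβ : Continuous (fun p : ℝ × ℝ => β p.1 p.2))
    (hv : ∀ l c, vc k (α l c) (β l c) = 1 - Real.cos c)
    (hu : ∀ l c, 2 - ((α l c : Circle) : ℂ).re - ((β l c : Circle) : ℂ).re =
      P c - Q c * Real.cos l)
    (hinj : ∀ l ∈ Ioo 0 (2 * Real.pi), ∀ l' ∈ Ioo 0 (2 * Real.pi), ∀ c c' : ℝ, |c| ≤ hdf_c0 →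
      |c'| ≤ hdf_c0 → α l c = α l' c' → β l c = β l' c' → l = l' ∧ c = c')
    (hsurj : ∀ a b : Circle, vc k a b ≤ 1 / 1000 → ∃ l c : ℝ, 0 ≤ l ∧ l < 2 * Real.pi ∧
      |c| ≤ hdf_c0 ∧ α l c = a ∧ β l c = b)
    (hP : Continuous P) (hQ : Continuous Q) (hQ0 : ∀ c, |c| ≤ hdf_c0 → 0 < Q c)
    (h1 : ∀ c, |c| ≤ hdf_c0 → P c - 1 / 200 < Q c)
    (h2 : ∀ c, |c| ≤ hdf_c0 → -Q c < P c - 1 / 100)
    (h3 : ∀ c, |c| ≤ hdf_c0 → Q c ≤ P c) :
    ∃ e : ℂ × ℝ → C5, ContinuousOn e cyl ∧ InjOn e cyl ∧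
    e '' cyl = Qc k ∧ e '' cylEnds = Qends k ∧ e '' cylEndsInt = QendsInt k ∧
    e '' cylSide = Qside k := by
  obtain ⟨e, hec, hei, he1, he2, he3, he4⟩ := exists_handle P Q hP hQ hQ0 h1 h2 h3
  have hrc : ∀ (h l c : ℝ), |h| ≤ 1 / 8 → rc h (α l c) (β l c) =
      h ^ 2 + 1 / 100 - bt (P c - Q c * Real.cos l) := by
    intro h l c hh
    have h4 : cc h = 1 := by
      apply cc_of_small
      rw [abs_le] at hh
      nlinarith
    unfold rc
    rw [hu, h4, one_mul]
  have hlam : ∀ (h l c : ℝ), lamc k h (α l c) (β l c) = eta h * Lam (1 - Real.cos c) := by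
    intro h l c
    unfold lamc
    rw [hv]
  -- coordinates of the points with `0 ≤ rc`
  have hcoord : ∀ (h : ℝ) (a b : Circle), |h| ≤ 1 / 8 → vc k a b ≤ 1 / 1000 → 0 ≤ rc h a b →
      ∃ l c : ℝ, l ∈ Ioo 0 (2 * Real.pi) ∧ |c| ≤ hdf_c0 ∧ α l c = a ∧ β l c = b := by
    intro h a b hh hvab hr
    obtain ⟨l, c, hl0, hl1, hc, rfl, rfl⟩ := hsurj a b hvab
    refine ⟨l, c, ⟨lt_of_le_of_ne hl0 fun hl => ?_, hl1⟩, hc, rfl, rfl⟩
    rw [hrc h l c hh, ← hl, Real.cos_zero, mul_one] at hr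
    have h5 := antitone_bt (show P c - Q c ≤ 1 / 200 by linarith [h1 c hc])
    rw [bt_mid] at h5
    have h6 : h ^ 2 ≤ 1 / 64 := by
      rw [abs_le] at hh
      nlinarith
    linarith
  have himg : ∀ S : Set (ℂ × ℝ), (fun x => hdf_G k α β (e x)) '' S = hdf_G k α β '' (e '' S) :=
    fun S => Set.image_comp (hdf_G k α β) e S
  have hxq0 : ∀ (h : ℝ) (a b : Circle), rc h a b = 0 → xq k h a b = 0 := by
    intro h a b hr
    unfold xq
    rw [hr, Real.sqrt_zero, Complex.ofReal_zero, zero_mul]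
  refine ⟨fun x => hdf_G k α β (e x), (hdf_cont_G k hα hβ).comp_continuousOn hec, ?_, ?_, ?_, ?_,
    ?_⟩
  · intro x hx x' hx' hxx
    apply hei hx hx'
    have m1 : e x ∈ e '' cyl := mem_image_of_mem e hx
    have m2 : e x' ∈ e '' cyl := mem_image_of_mem e hx'
    rw [he1] at m1 m2
    obtain ⟨n1, n2, n3, _, _⟩ := m1
    obtain ⟨n1', n2', n3', _, _⟩ := m2
    obtain ⟨j1, _, j3⟩ := jc_inj (by linarith) (by linarith) hxx
    obtain ⟨j4, j5⟩ := j3 (by linarith)
    obtain ⟨j6, j7⟩ := hinj _ n3 _ n3' _ _ n2 n2' j4 j5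
    exact Prod.ext j1 (Prod.ext j6 j7)
  · rw [himg, he1]
    apply Subset.antisymm
    · rintro _ ⟨p, ⟨n1, n2, n3, n4, n5⟩, rfl⟩
      refine ⟨p.1, α p.2.1 p.2.2, β p.2.1 p.2.2, n1, ?_, ?_, ?_, rfl⟩
      · rw [hv]
        have := hdf_cos_ge n2
        linarith
      · rw [hrc _ _ _ n1]
        exact n4
      · rw [hrc _ _ _ n1, hlam]
        exact n5
    · rintro _ ⟨h, a, b, n1, n2, n3, n4, rfl⟩
      obtain ⟨l, c, hl, hc, rfl, rfl⟩ := hcoord h a b n1 n2 n3
      refine ⟨(h, l, c), ⟨n1, hc, hl, ?_, ?_⟩, rfl⟩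
      · rw [hrc _ _ _ n1] at n3
        exact n3
      · rw [hrc _ _ _ n1, hlam] at n4
        exact n4
  · rw [himg, he2]
    apply Subset.antisymm
    · rintro _ ⟨p, ⟨n1, n2, n3, n4⟩, rfl⟩
      have hr : rc p.1 (α p.2.1 p.2.2) (β p.2.1 p.2.2) = 0 := by
        rw [hrc _ _ _ n1]
        exact n4
      refine ⟨p.1, α p.2.1 p.2.2, β p.2.1 p.2.2, n1, ?_, hr, ?_⟩
      · rw [hv]
        have := hdf_cos_ge n2
        linarith
      · unfold hdf_G
        rw [hxq0 _ _ _ hr]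
    · rintro _ ⟨h, a, b, n1, n2, n3, rfl⟩
      obtain ⟨l, c, hl, hc, rfl, rfl⟩ := hcoord h a b n1 n2 n3.ge
      refine ⟨(h, l, c), ⟨n1, hc, hl, ?_⟩, ?_⟩
      · rw [hrc _ _ _ n1] at n3
        exact n3
      · show jc h (α l c) (β l c) (xq k h (α l c) (β l c)) = _
        rw [hxq0 _ _ _ n3]
  · rw [himg, he3]
    apply Subset.antisymm
    · rintro _ ⟨p, ⟨n1, n2, n3, n4⟩, rfl⟩
      have hr : rc p.1 (α p.2.1 p.2.2) (β p.2.1 p.2.2) = 0 := by
        rw [hrc _ _ _ n1.le]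
        exact n4
      refine ⟨p.1, α p.2.1 p.2.2, β p.2.1 p.2.2, n1, ?_, hr, ?_⟩
      · rw [hv]
        have := hdf_cos_gt n2
        linarith
      · unfold hdf_G
        rw [hxq0 _ _ _ hr]
    · rintro _ ⟨h, a, b, n1, n2, n3, rfl⟩
      obtain ⟨l, c, hl, hc, rfl, rfl⟩ := hcoord h a b n1.le n2.le n3.ge
      rw [hv] at n2
      refine ⟨(h, l, c), ⟨n1, hdf_lt_of_cos hc (by linarith), hl, ?_⟩, ?_⟩
      · rw [hrc _ _ _ n1.le] at n3
        exact n3
      · show jc h (α l c) (β l c) (xq k h (α l c) (β l c)) = _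
        rw [hxq0 _ _ _ n3]
  · rw [himg, he4]
    apply Subset.antisymm
    · rintro _ ⟨p, ⟨n1, n2, n3, n4⟩, rfl⟩
      refine ⟨p.1, α p.2.1 p.2.2, β p.2.1 p.2.2, n1, ?_, ?_, rfl⟩
      · rw [hv]
        have := hdf_cos_ge n2
        linarith
      · rw [hrc _ _ _ n1, hlam]
        exact n4
    · rintro _ ⟨h, a, b, n1, n2, n3, rfl⟩
      obtain ⟨l, c, hl, hc, rfl, rfl⟩ := hcoord h a b n1 n2 (by rw [n3]; positivity)
      refine ⟨(h, l, c), ⟨n1, hc, hl, ?_⟩, rfl⟩
      rw [hrc _ _ _ n1, hlam] at n3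
      exact n3

theorem hdf_half {c : ℝ} (hc : |c| ≤ hdf_c0) : 999 / 1000 ≤ Real.cos (c / 2) := by
  apply hdf_cos_ge
  rw [abs_div, abs_two]
  have := abs_nonneg c
  linarith

theorem hdf_sub_lt {c c' : ℝ} (hc : |c| ≤ hdf_c0) (hc' : |c'| ≤ hdf_c0) :
    |c - c'| < 2 * Real.pi := by
  have h1 := abs_sub c c'
  have h2 := hdf_c0_lt
  linarith

theorem hdf_ell_lt {l l' : ℝ} (h : l ∈ Ioo 0 (2 * Real.pi)) (h' : l' ∈ Ioo 0 (2 * Real.pi)) :
    |l - l'| < 2 * Real.pi := by
  rw [abs_lt]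
  constructor
  · linarith [h.1, h'.2]
  · linarith [h.2, h'.1]

/-- The handle. -/
theorem handle_Q (k : Fin 3) : ∃ e : ℂ × ℝ → C5, ContinuousOn e cyl ∧ InjOn e cyl ∧
    e '' cyl = Qc k ∧ e '' cylEnds = Qends k ∧ e '' cylEndsInt = QendsInt k ∧
    e '' cylSide = Qside k := by
  have cexp : Continuous (fun x : ℝ => Circle.exp x) := Circle.exp.continuous
  have e1 : Continuous (fun p : ℝ × ℝ => Circle.exp p.1) := cexp.comp continuous_fst
  have e2 : Continuous (fun p : ℝ × ℝ => Circle.exp p.2) := cexp.comp continuous_snd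
  fin_cases k
  · refine hdf_main 0 (fun c => 2 - Real.cos c) (fun _ => 1) (fun l _ => Circle.exp l)
      (fun _ c => Circle.exp c) e1 e2 ?_ ?_ ?_ ?_ (continuous_const.sub Real.continuous_cos)
      continuous_const ?_ ?_ ?_ ?_
    · intro l c
      show 1 - ((Circle.exp c : Circle) : ℂ).re = _
      rw [hdf_exp_re]
    · intro l c
      show 2 - ((Circle.exp l : Circle) : ℂ).re - ((Circle.exp c : Circle) : ℂ).re = _
      rw [hdf_exp_re, hdf_exp_re]
      ring
    · intro l hl l' hl' c c' hc hc' ha hb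
      exact ⟨hdf_exp_inj ha (hdf_ell_lt hl hl'), hdf_exp_inj hb (hdf_sub_lt hc hc')⟩
    · intro a b hab
      have h1 : 1 - (b : ℂ).re ≤ 1 / 1000 := hab
      obtain ⟨c, hc, hcb⟩ := hdf_arg (z := b) (by linarith)
      obtain ⟨l, hl0, hl1, hla⟩ := hdf_ell a
      exact ⟨l, c, hl0, hl1, hc, hla, hcb⟩
    · intro c _
      exact one_pos
    · intro c hc
      have := hdf_cos_ge hc
      show 2 - Real.cos c - 1 / 200 < 1
      linarith
    · intro c _
      have := Real.cos_le_one c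
      show -1 < 2 - Real.cos c - 1 / 100
      linarith
    · intro c _
      have := Real.cos_le_one c
      show 1 ≤ 2 - Real.cos c
      linarith
  · have c1 : Continuous (fun p : ℝ × ℝ => Circle.exp (p.1 + p.2 / 2)) :=
      cexp.comp (continuous_fst.add (continuous_snd.div_const 2))
    have c2 : Continuous (fun p : ℝ × ℝ => Circle.exp (-p.1 + p.2 / 2)) :=
      cexp.comp (continuous_fst.neg.add (continuous_snd.div_const 2))
    have hprod : ∀ l c : ℝ, Circle.exp (l + c / 2) * Circle.exp (-l + c / 2) = Circle.exp c := by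
      intro l c
      rw [← Circle.exp_add]
      congr 1
      ring
    refine hdf_main 1 (fun _ => 2) (fun c => 2 * Real.cos (c / 2))
      (fun l c => Circle.exp (l + c / 2)) (fun l c => Circle.exp (-l + c / 2)) c1 c2 ?_ ?_ ?_ ?_
      continuous_const (continuous_const.mul (Real.continuous_cos.comp
        (continuous_id.div_const 2))) ?_ ?_ ?_ ?_
    · intro l c
      show 1 - (((Circle.exp (l + c / 2) : Circle) : ℂ) *
        ((Circle.exp (-l + c / 2) : Circle) : ℂ)).re = _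
      rw [← Circle.coe_mul, hprod, hdf_exp_re]
    · intro l c
      show 2 - ((Circle.exp (l + c / 2) : Circle) : ℂ).re -
        ((Circle.exp (-l + c / 2) : Circle) : ℂ).re = 2 - 2 * Real.cos (c / 2) * Real.cos l
      rw [hdf_exp_re, hdf_exp_re, Real.cos_add, Real.cos_add, Real.cos_neg, Real.sin_neg]
      ring
    · intro l hl l' hl' c c' hc hc' ha hb
      have hcc : c = c' := by
        apply hdf_exp_inj _ (hdf_sub_lt hc hc')
        rw [← hprod l c, ← hprod l' c']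
        have ha' : Circle.exp (l + c / 2) = Circle.exp (l' + c' / 2) := ha
        have hb' : Circle.exp (-l + c / 2) = Circle.exp (-l' + c' / 2) := hb
        rw [ha', hb']
      subst hcc
      refine ⟨?_, rfl⟩
      have h1 : l + c / 2 = l' + c / 2 := by
        apply hdf_exp_inj ha
        have h2 : l + c / 2 - (l' + c / 2) = l - l' := by ring
        rw [h2]
        exact hdf_ell_lt hl hl'
      linarith
    · intro a b hab
      have h1 : 1 - ((a : ℂ) * (b : ℂ)).re ≤ 1 / 1000 := hab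
      obtain ⟨c, hc, hcb⟩ := hdf_arg (z := a * b) (by
        rw [Circle.coe_mul]
        linarith)
      obtain ⟨l, hl0, hl1, hla⟩ := hdf_ell (a * (Circle.exp (c / 2))⁻¹)
      have h2 : Circle.exp (l + c / 2) = a := by
        rw [Circle.exp_add, hla, inv_mul_cancel_right]
      refine ⟨l, c, hl0, hl1, hc, h2, ?_⟩
      have h3 := hprod l c
      rw [h2, hcb] at h3
      exact mul_left_cancel h3
    · intro c hc
      have := hdf_half hc
      show 0 < 2 * Real.cos (c / 2)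
      linarith
    · intro c hc
      have := hdf_half hc
      show 2 - 1 / 200 < 2 * Real.cos (c / 2)
      linarith
    · intro c hc
      have := hdf_half hc
      show -(2 * Real.cos (c / 2)) < 2 - 1 / 100
      linarith
    · intro c _
      have := Real.cos_le_one (c / 2)
      show 2 * Real.cos (c / 2) ≤ 2
      linarith
  · refine hdf_main 2 (fun c => 2 - Real.cos c) (fun _ => 1) (fun _ c => Circle.exp c)
      (fun l _ => Circle.exp l) e2 e1 ?_ ?_ ?_ ?_ (continuous_const.sub Real.continuous_cos)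
      continuous_const ?_ ?_ ?_ ?_
    · intro l c
      show 1 - ((Circle.exp c : Circle) : ℂ).re = _
      rw [hdf_exp_re]
    · intro l c
      show 2 - ((Circle.exp c : Circle) : ℂ).re - ((Circle.exp l : Circle) : ℂ).re = _
      rw [hdf_exp_re, hdf_exp_re]
      ring
    · intro l hl l' hl' c c' hc hc' ha hb
      exact ⟨hdf_exp_inj hb (hdf_ell_lt hl hl'), hdf_exp_inj ha (hdf_sub_lt hc hc')⟩
    · intro a b hab
      have h1 : 1 - (a : ℂ).re ≤ 1 / 1000 := hab
      obtain ⟨c, hc, hcb⟩ := hdf_arg (z := a) (by linarith)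
      obtain ⟨l, hl0, hl1, hla⟩ := hdf_ell b
      exact ⟨l, c, hl0, hl1, hc, hcb, hla⟩
    · intro c _
      exact one_pos
    · intro c hc
      have := hdf_cos_ge hc
      show 2 - Real.cos c - 1 / 200 < 1
      linarith
    · intro c _
      have := Real.cos_le_one c
      show -1 < 2 - Real.cos c - 1 / 100
      linarith
    · intro c _
      have := Real.cos_le_one c
      show 1 ≤ 2 - Real.cos c
      linarith

end Pool.Agent.Tri
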