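import Mathlib
import Pool.Agent.H.MP_5efd29_gt.HdDefs
import Pool.Agent.H.MP_5efd29_gt.FunB3
import Pool.Agent.H.MP_5efd29_gt.LensB
import Pool.Agent.H.MP_5efd29_gt.FunD

open scoped ContDiff Topology
open Set

noncomputable section

namespace Pool.Agent.Tri

private lemma hdg1_exists_angxy {m : ℂ × ℂ}
    (hm : Complex.normSq m.1 + Complex.normSq m.2 = 1) :
    ∃ x y : ℝ, m = angxy (hgt m) x y := by
  have hn : ∀ z : ℂ, ‖z‖ = Real.sqrt (Complex.normSq z) := fun z => by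
    rw [Complex.normSq_eq_norm_sq, Real.sqrt_sq (norm_nonneg z)]
  refine ⟨Complex.arg m.1 + 2 * Complex.arg m.2, 2 * Complex.arg m.1 - Complex.arg m.2, ?_⟩
  have e1 : (1 - hgt m) / 2 = Complex.normSq m.1 := by unfold hgt; linarith
  have e2 : (1 + hgt m) / 2 = Complex.normSq m.2 := by unfold hgt; linarith
  unfold angxy ang
  rw [e1, e2, ← hn, ← hn]
  have e3 : (Complex.arg m.1 + 2 * Complex.arg m.2 +
      2 * (2 * Complex.arg m.1 - Complex.arg m.2)) / 5 = Complex.arg m.1 := by ring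
  have e4 : (2 * (Complex.arg m.1 + 2 * Complex.arg m.2) -
      (2 * Complex.arg m.1 - Complex.arg m.2)) / 5 = Complex.arg m.2 := by ring
  rw [e3, e4, Complex.norm_mul_exp_arg_mul_I, Complex.norm_mul_exp_arg_mul_I]

private lemma hdg1_coe (x : ℝ) : ((Circle.exp x : Circle) : ℂ) = Complex.exp (x * Complex.I) :=
  Circle.coe_exp x

private lemma hdg1_coe_re (x : ℝ) : ((Circle.exp x : Circle) : ℂ).re = Real.cos x := by
  rw [hdg1_coe, Complex.exp_ofReal_mul_I_re]

private lemma hdg1_mul_re (x y : ℝ) :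
    (((Circle.exp x : Circle) : ℂ) * ((Circle.exp y : Circle) : ℂ)).re = Real.cos (x + y) := by
  rw [hdg1_coe, hdg1_coe, ← Complex.exp_add, ← add_mul, ← Complex.ofReal_add,
    Complex.exp_ofReal_mul_I_re]

private lemma hdg1_conj (x : ℝ) : (starRingEnd ℂ) (Complex.exp (x * Complex.I)) =
    Complex.exp (-(x * Complex.I)) := by
  rw [← Complex.exp_conj, map_mul, Complex.conj_ofReal, Complex.conj_I, mul_neg]

private lemma hdg1_JJ (h x y : ℝ) (ξ : ℂ) :
    JJ ((angxy h x y).1, (angxy h x y).2, ξ) = jc h (Circle.exp x) (Circle.exp y) ξ := by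
  unfold JJ jc angxy ang
  simp only [hdg1_coe]
  have hp : ∀ (n : ℕ) (t : ℂ), Complex.exp t ^ n = Complex.exp (n * t) := fun n t =>
    (Complex.exp_nat_mul t n).symm
  refine Prod.ext ?_ (Prod.ext ?_ (Prod.ext ?_ (Prod.ext ?_ rfl)))
  · show (_ * Complex.exp _) ^ 5 = _
    unfold rz
    rw [mul_pow, hp, hp, ← Complex.exp_add]
    congr 2
    push_cast
    ring
  · show (_ * Complex.exp _) ^ 5 = _
    dsimp only
    unfold rw'
    rw [mul_pow, hp, hp, hdg1_conj, ← Complex.exp_add]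
    congr 1
    congr 1
    push_cast
    ring
  · show (_ * Complex.exp _) * (_ * Complex.exp _) ^ 2 = _
    unfold rz rw'
    rw [mul_pow, hp, mul_mul_mul_comm, ← Complex.exp_add]
    congr 2
    push_cast
    ring
  · show (_ * Complex.exp _) ^ 2 * (starRingEnd ℂ) (_ * Complex.exp _) = _
    unfold rz rw'
    rw [mul_pow, hp, map_mul, Complex.conj_ofReal, ← Complex.exp_conj, map_mul, Complex.conj_I,
      Complex.conj_ofReal, mul_mul_mul_comm, ← Complex.exp_add]
    congr 2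
    push_cast
    ring

private lemma hdg1_vc (k : Fin 3) (x y : ℝ) :
    vc k (Circle.exp x) (Circle.exp y) = 1 - Real.cos (ll k x y) := by
  unfold vc ll
  rw [hdg1_coe_re, hdg1_coe_re, hdg1_mul_re]
  fin_cases k <;> rfl

private lemma hdg1_rho {h : ℝ} (x y : ℝ) (hh : |h| ≤ 1) :
    rho (angxy h x y) = rc h (Circle.exp x) (Circle.exp y) := by
  unfold rc
  rw [hdg1_coe_re, hdg1_coe_re]
  rcases hh.lt_or_eq with h1 | h1
  · exact rho_angxy x y h1
  · have h2 : 1 ≤ |hgt (angxy h x y)| := by rw [hgt_angxy x y hh, h1]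
    rw [(values_core h2).1, hgt_angxy x y hh]
    have h3 : h ^ 2 = 1 := by rw [← sq_abs, h1]; norm_num
    have h4 : cc h = 0 := by
      unfold cc SS
      exact Real.smoothTransition.zero_of_nonpos (by rw [h3]; norm_num)
    rw [h4, zero_mul, sub_zero]

private lemma hdg1_lam (k : Fin 3) {h : ℝ} (x y : ℝ) (hh : |h| ≤ 1) :
    lam k (angxy h x y) = lamc k h (Circle.exp x) (Circle.exp y) := by
  unfold lamc
  rw [hdg1_vc]
  rcases hh.lt_or_eq with h1 | h1
  · exact lam_angxy k x y h1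
  · have h2 : 1 ≤ |hgt (angxy h x y)| := by rw [hgt_angxy x y hh, h1]
    rw [(values_core h2).2.1 k]
    have h3 : h ^ 2 = 1 := by rw [← sq_abs, h1]; norm_num
    have h4 : eta h = 0 := by
      unfold eta SS
      exact Real.smoothTransition.zero_of_nonpos (by rw [h3]; norm_num)
    rw [h4, zero_mul]

/-- Every point of the covering over the 3-sphere, in the coordinates of the quotient. -/
theorem exists_jc (x : C3) (hx : Complex.normSq x.1 + Complex.normSq x.2.1 = 1) :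
    ∃ a b : Circle, |hgt (pr x)| ≤ 1 ∧ JJ x = jc (hgt (pr x)) a b x.2.2 ∧
      rho (pr x) = rc (hgt (pr x)) a b ∧ ∀ k, lam k (pr x) = lamc k (hgt (pr x)) a b := by
  obtain ⟨s, t, hst⟩ := hdg1_exists_angxy (m := pr x) hx
  have hle : |hgt (pr x)| ≤ 1 := abs_hgt_le (m := pr x) hx
  refine ⟨Circle.exp s, Circle.exp t, hle, ?_, ?_, ?_⟩
  · rw [← hdg1_JJ, ← hst]
    rfl
  · rw [← hdg1_rho s t hle, ← hst]
  · intro k
    rw [← hdg1_lam k s t hle, ← hst]

theorem exists_lift_jc (h : ℝ) (a b : Circle) (ξ : ℂ) (hh : |h| ≤ 1) :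
    ∃ x : C3, Complex.normSq x.1 + Complex.normSq x.2.1 = 1 ∧ hgt (pr x) = h ∧ x.2.2 = ξ ∧
      JJ x = jc h a b ξ ∧ rho (pr x) = rc h a b ∧ ∀ k, lam k (pr x) = lamc k h a b := by
  obtain ⟨s, hs⟩ : ∃ s : ℝ, Circle.exp s = a := ⟨Complex.arg a, Circle.exp_arg a⟩
  obtain ⟨t, ht⟩ : ∃ t : ℝ, Circle.exp t = b := ⟨Complex.arg b, Circle.exp_arg b⟩
  refine ⟨((angxy h s t).1, (angxy h s t).2, ξ), ?_, ?_, rfl, ?_, ?_, ?_⟩
  · show Complex.normSq (angxy h s t).1 + Complex.normSq (angxy h s t).2 = 1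
    obtain ⟨e1, e2⟩ := normSq_angxy s t hh
    rw [e1, e2]
    ring
  · exact hgt_angxy s t hh
  · rw [hdg1_JJ, hs, ht]
  · show rho (angxy h s t) = _
    rw [hdg1_rho s t hh, hs, ht]
  · intro k
    show lam k (angxy h s t) = _
    rw [hdg1_lam k s t hh, hs, ht]

end Pool.Agent.Tri
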