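import Mathlib
import Pool.Agent.H.MP_5efd29_gt.HdG1
import Pool.Agent.H.MP_5efd29_gt.HdB0
import Pool.Agent.H.MP_5efd29_gt.FunC

open scoped ContDiff Topology
open Set

noncomputable section

namespace Pool.Agent.Tri

/-! ### The directions -/

theorem hdg2_exp (θ : ℝ) (z : ℂ) (hz : z = θ * Complex.I) :
    Complex.exp z = ⟨Real.cos θ, Real.sin θ⟩ := by
  rw [hz, Complex.exp_mul_I]
  apply Complex.ext <;> simp [Complex.cos_ofReal_re, Complex.sin_ofReal_re]

theorem hdg2_dir0 : dir 0 = ⟨1, 0⟩ := by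
  unfold dir
  simp
  rfl

theorem hdg2_dir1 : dir 1 = ⟨-(1 / 2), Real.sqrt 3 / 2⟩ := by
  unfold dir
  rw [hdg2_exp (Real.pi - Real.pi / 3)]
  · rw [Real.cos_pi_sub, Real.sin_pi_sub, Real.cos_pi_div_three, Real.sin_pi_div_three]
  · push_cast
    simp
    ring

theorem hdg2_dir2 : dir 2 = ⟨-(1 / 2), -(Real.sqrt 3 / 2)⟩ := by
  unfold dir
  rw [hdg2_exp (Real.pi / 3 + Real.pi)]
  · rw [Real.cos_add_pi, Real.sin_add_pi, Real.cos_pi_div_three, Real.sin_pi_div_three]
  · push_cast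
    simp
    ring

theorem hdg2_two {l k : Fin 3} (hlk : l ≠ k) :
    (dir l).re * (dir k).re + (dir l).im * (dir k).im = -(1 / 2) := by
  have h3 : Real.sqrt 3 * Real.sqrt 3 = 3 := Real.mul_self_sqrt (by norm_num)
  suffices key : ∀ l k : Fin 3, l ≠ k →
      (dir l).re * (dir k).re + (dir l).im * (dir k).im = -(1 / 2) from key l k hlk
  clear hlk
  refine func_fin3 _ ?_ ?_ ?_
  · refine func_fin3 _ ?_ ?_ ?_
    · intro h; exact absurd rfl h
    · intro _; rw [hdg2_dir0, hdg2_dir1]; simp only; ring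
    · intro _; rw [hdg2_dir0, hdg2_dir2]; simp only; ring
  · refine func_fin3 _ ?_ ?_ ?_
    · intro _; rw [hdg2_dir0, hdg2_dir1]; simp only; ring
    · intro h; exact absurd rfl h
    · intro _; rw [hdg2_dir1, hdg2_dir2]; simp only; linarith
  · refine func_fin3 _ ?_ ?_ ?_
    · intro _; rw [hdg2_dir0, hdg2_dir2]; simp only; ring
    · intro _; rw [hdg2_dir1, hdg2_dir2]; simp only; linarith
    · intro h; exact absurd rfl h

theorem hdg2_normSq_one (p : ℝ) (k : Fin 3) : Complex.normSq ((p : ℂ) * dir k) = p ^ 2 := by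
  have h := func_dir k
  rw [Complex.normSq_apply, Complex.re_ofReal_mul, Complex.im_ofReal_mul]
  linear_combination p ^ 2 * h

theorem hdg2_normSq_two (p q : ℝ) {l k : Fin 3} (hlk : l ≠ k) :
    Complex.normSq ((p : ℂ) * dir l - (q : ℂ) * dir k) = p ^ 2 + q ^ 2 + p * q := by
  have h1 := func_dir k
  have h2 := func_dir l
  have h3 := hdg2_two hlk
  rw [Complex.normSq_apply, Complex.sub_re, Complex.sub_im, Complex.re_ofReal_mul,
    Complex.im_ofReal_mul, Complex.re_ofReal_mul, Complex.im_ofReal_mul]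
  linear_combination p ^ 2 * h2 + q ^ 2 * h1 - 2 * p * q * h3

/-! ### The bands -/

theorem hdg2_bands01 {x y : ℝ} (h0 : 1 - Real.cos y ≤ 1 / 1000)
    (h1 : 1 - Real.cos (x + y) ≤ 1 / 1000) : 2 - Real.cos x - Real.cos y ≤ 1 / 200 := by
  have h := func_par (x + y) y
  have e : x + y - y = x := by ring
  rw [e] at h
  linarith

theorem hdg2_bands12 {x y : ℝ} (h0 : 1 - Real.cos x ≤ 1 / 1000)
    (h1 : 1 - Real.cos (x + y) ≤ 1 / 1000) : 2 - Real.cos x - Real.cos y ≤ 1 / 200 := by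
  have h := func_par (x + y) x
  have e : x + y - x = y := by ring
  rw [e] at h
  linarith

theorem hdg2_bands {i j : Fin 3} (hij : i ≠ j) {x y : ℝ}
    (hi : 1 - Real.cos (ll i x y) ≤ 1 / 1000) (hj : 1 - Real.cos (ll j x y) ≤ 1 / 1000) :
    2 - Real.cos x - Real.cos y ≤ 1 / 200 := by
  suffices key : ∀ i j : Fin 3, i ≠ j → 1 - Real.cos (ll i x y) ≤ 1 / 1000 →
      1 - Real.cos (ll j x y) ≤ 1 / 1000 → 2 - Real.cos x - Real.cos y ≤ 1 / 200 from
    key i j hij hi hj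
  clear hi hj hij
  refine func_fin3 _ ?_ ?_ ?_
  · refine func_fin3 _ ?_ ?_ ?_
    · intro h; exact absurd rfl h
    · intro _ h1 h2
      rw [func_ll0] at h1
      rw [func_ll1] at h2
      exact hdg2_bands01 h1 h2
    · intro _ h1 h2
      rw [func_ll0] at h1
      rw [func_ll2] at h2
      linarith
  · refine func_fin3 _ ?_ ?_ ?_
    · intro _ h1 h2
      rw [func_ll1] at h1
      rw [func_ll0] at h2
      exact hdg2_bands01 h2 h1
    · intro h; exact absurd rfl h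
    · intro _ h1 h2
      rw [func_ll1] at h1
      rw [func_ll2] at h2
      exact hdg2_bands12 h2 h1
  · refine func_fin3 _ ?_ ?_ ?_
    · intro _ h1 h2
      rw [func_ll2] at h1
      rw [func_ll0] at h2
      linarith
    · intro _ h1 h2
      rw [func_ll2] at h1
      rw [func_ll1] at h2
      exact hdg2_bands12 h1 h2
    · intro h; exact absurd rfl h

theorem hdg2_angle (a : Circle) : ∃ x : ℝ, (a : ℂ).re = Real.cos x ∧ (a : ℂ).im = Real.sin x := by
  refine ⟨Complex.arg a, ?_, ?_⟩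
  · have h := congrArg (fun z : Circle => (z : ℂ).re) (Circle.exp_arg a)
    simp only [Circle.coe_exp, Complex.exp_ofReal_mul_I_re] at h
    exact h.symm
  · have h := congrArg (fun z : Circle => (z : ℂ).im) (Circle.exp_arg a)
    simp only [Circle.coe_exp, Complex.exp_ofReal_mul_I_im] at h
    exact h.symm

theorem hdg2_vc (a b : Circle) : ∃ x y : ℝ, (∀ k, vc k a b = 1 - Real.cos (ll k x y)) ∧
    2 - (a : ℂ).re - (b : ℂ).re = 2 - Real.cos x - Real.cos y := by
  obtain ⟨x, hx1, hx2⟩ := hdg2_angle a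
  obtain ⟨y, hy1, hy2⟩ := hdg2_angle b
  refine ⟨x, y, ?_, by rw [hx1, hy1]⟩
  refine func_fin3 _ ?_ ?_ ?_
  · rw [func_ll0, ← hy1]
    rfl
  · rw [func_ll1, Real.cos_add, ← hx1, ← hx2, ← hy1, ← hy2]
    show 1 - ((a : ℂ) * (b : ℂ)).re = _
    rw [Complex.mul_re]
  · rw [func_ll2, ← hx1]
    rfl

/-- Where two bands meet, the radius function is negative. -/
theorem hdg2_neg {i j : Fin 3} (hij : i ≠ j) {h : ℝ} {a b : Circle} (hh : 64 * h ^ 2 ≤ 1)
    (hi : vc i a b ≤ 1 / 1000) (hj : vc j a b ≤ 1 / 1000) : rc h a b < 0 := by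
  obtain ⟨x, y, hv, hu⟩ := hdg2_vc a b
  rw [hv] at hi hj
  have h1 := hdg2_bands hij hi hj
  rw [← hu] at h1
  have hb := antitone_bt h1
  rw [bt_mid] at hb
  unfold rc
  rw [cc_of_small (by linarith), one_mul]
  linarith

theorem hdg2_lamc_nonneg (k : Fin 3) (h : ℝ) (a b : Circle) : 0 ≤ lamc k h a b :=
  mul_nonneg (eta_nonneg _) (Lam_nonneg _)

theorem hdg2_lamc_ne {k : Fin 3} {h : ℝ} {a b : Circle} (hl : lamc k h a b ≠ 0) :
    64 * h ^ 2 < 1 ∧ vc k a b < 1 / 1000 := by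
  unfold lamc at hl
  constructor
  · by_contra hc
    exact left_ne_zero_of_mul hl ((eta_eq_zero_iff _).2 (not_lt.1 hc))
  · by_contra hc
    exact right_ne_zero_of_mul hl ((Lam_eq_zero_iff _).2 (not_lt.1 hc))

theorem hdg2_lamc_ne' {k : Fin 3} {h : ℝ} {a b : Circle} (h1 : 64 * h ^ 2 < 1)
    (h2 : vc k a b < 1 / 1000) : lamc k h a b ≠ 0 := by
  refine mul_ne_zero ?_ ?_
  · intro hc
    have := (eta_eq_zero_iff _).1 hc
    linarith
  · intro hc
    have := (Lam_eq_zero_iff _).1 hc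
    linarith

/-- (D) -/
theorem hdg2_D {i j : Fin 3} (hij : i ≠ j) {h : ℝ} {a b : Circle} (hr : 0 ≤ rc h a b)
    (hi : lamc i h a b ≠ 0) : lamc j h a b = 0 := by
  by_contra hj
  have h1 := hdg2_lamc_ne hi
  have h2 := hdg2_lamc_ne hj
  have := hdg2_neg hij h1.1.le h1.2.le h2.2.le
  linarith

theorem hdg2_abs {h : ℝ} : |h| ≤ 1 / 8 ↔ 64 * h ^ 2 ≤ 1 := by
  rw [← sq_le_sq₀ (abs_nonneg h) (by norm_num), sq_abs]
  constructor <;> intro H <;> linarith

theorem hdg2_abs_lt {h : ℝ} : |h| < 1 / 8 ↔ 64 * h ^ 2 < 1 := by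
  rw [← sq_lt_sq₀ (abs_nonneg h) (by norm_num), sq_abs]
  constructor <;> intro H <;> linarith

/-- (D') -/
theorem hdg2_D' {k l : Fin 3} (hlk : l ≠ k) {h : ℝ} {a b : Circle} (hr : 0 ≤ rc h a b)
    (hh : |h| ≤ 1 / 8) (hv : vc k a b ≤ 1 / 1000) : lamc l h a b = 0 := by
  by_contra hl
  have h1 := hdg2_lamc_ne hl
  have := hdg2_neg hlk (hdg2_abs.1 hh) h1.2.le hv
  linarith

/-! ### Sums -/

theorem hdg2_Lc0 {k : Fin 3} {h : ℝ} {a b : Circle} (H : ∀ l, l ≠ k → lamc l h a b = 0) :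
    Lc k h a b = 0 := by
  unfold Lc
  apply Finset.sum_eq_zero
  intro l _
  by_cases hl : l = k
  · rw [if_pos hl]
  · rw [if_neg hl, H l hl]

theorem hdg2_Lc1 {k l : Fin 3} (hlk : l ≠ k) {h : ℝ} {a b : Circle}
    (H : ∀ j, j ≠ l → lamc j h a b = 0) : Lc k h a b = lamc l h a b := by
  unfold Lc
  rw [Finset.sum_eq_single l, if_neg hlk]
  · intro j _ hj
    by_cases hjk : j = k
    · rw [if_pos hjk]
    · rw [if_neg hjk, H j hj]
  · intro hc
    exact absurd (Finset.mem_univ l) hc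

theorem hdg2_sum {l : Fin 3} {h : ℝ} {a b : Circle} (H : ∀ j, j ≠ l → lamc j h a b = 0) :
    (∑ j, (lamc j h a b : ℂ) * dir j) = (lamc l h a b : ℂ) * dir l := by
  apply Finset.sum_eq_single l
  · intro j _ hj
    rw [H j hj, Complex.ofReal_zero, zero_mul]
  · intro hc
    exact absurd (Finset.mem_univ l) hc

theorem hdg2_sqrt4 (t : ℝ) : Real.sqrt (4 * t) / 2 = Real.sqrt t := by
  have e : (4 : ℝ) * t = 2 ^ 2 * t := by ring
  rw [e, Real.sqrt_mul (by norm_num), Real.sqrt_sq (by norm_num)]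
  ring

theorem hdg2_xp0 {k : Fin 3} {h : ℝ} {a b : Circle} (H : ∀ l, l ≠ k → lamc l h a b = 0) :
    xp k h a b = -((Real.sqrt (rc h a b) : ℝ) : ℂ) * dir k := by
  unfold xp
  rw [hdg2_Lc0 H]
  have e1 : (∑ l, if l = k then (0 : ℂ) else (lamc l h a b : ℂ) * dir l) = 0 := by
    apply Finset.sum_eq_zero
    intro l _
    by_cases hl : l = k
    · rw [if_pos hl]
    · rw [if_neg hl, H l hl, Complex.ofReal_zero, zero_mul]
  have e2 : (-0 + Real.sqrt (4 * rc h a b - 3 * 0 ^ 2)) / 2 = Real.sqrt (rc h a b) := by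
    rw [← hdg2_sqrt4]
    norm_num
  rw [e1, e2]
  ring

theorem hdg2_xp1 {k l : Fin 3} (hlk : l ≠ k) {h : ℝ} {a b : Circle}
    (H : ∀ j, j ≠ l → lamc j h a b = 0) :
    xp k h a b = (lamc l h a b : ℂ) * dir l -
      (((-lamc l h a b + Real.sqrt (4 * rc h a b - 3 * lamc l h a b ^ 2)) / 2 : ℝ) : ℂ) *
        dir k := by
  unfold xp
  rw [hdg2_Lc1 hlk H]
  have e1 : (∑ j, if j = k then (0 : ℂ) else (lamc j h a b : ℂ) * dir j) =
      (lamc l h a b : ℂ) * dir l := by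
    rw [Finset.sum_eq_single l, if_neg hlk]
    · intro j _ hj
      by_cases hjk : j = k
      · rw [if_pos hjk]
      · rw [if_neg hjk, H j hj, Complex.ofReal_zero, zero_mul]
    · intro hc
      exact absurd (Finset.mem_univ l) hc
  rw [e1]

/-- The two cases. -/
theorem hdg2_cases (k : Fin 3) {h : ℝ} {a b : Circle} (hr : 0 ≤ rc h a b) :
    (∀ l, l ≠ k → lamc l h a b = 0) ∨
      ∃ l, l ≠ k ∧ 0 < lamc l h a b ∧ ∀ j, j ≠ l → lamc j h a b = 0 := by
  by_cases H : ∀ l, l ≠ k → lamc l h a b = 0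
  · exact Or.inl H
  · right
    push Not at H
    obtain ⟨l, hlk, hl⟩ := H
    exact ⟨l, hlk, lt_of_le_of_ne (hdg2_lamc_nonneg _ _ _ _) (Ne.symm hl),
      fun j hj => hdg2_D (Ne.symm hj) hr hl⟩

/-! ### The manifold upstairs -/

theorem hdg2_PhiX (x : C3) : PhiX x = 0 ↔
    Complex.normSq x.1 + Complex.normSq x.2.1 = 1 ∧ Complex.normSq x.2.2 = rho (pr x) := by
  unfold PhiX
  rw [Complex.ext_iff]
  show (_ - (1 : ℝ) = 0 ∧ _ - rho (pr x) = 0) ↔ _
  rw [sub_eq_zero, sub_eq_zero]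

theorem hdg2_GG (x : C3) {h : ℝ} {a b : Circle} (H : ∀ k, lam k (pr x) = lamc k h a b) :
    GG x = x.2.2 - ∑ j, (lamc j h a b : ℂ) * dir j := by
  unfold GG pp
  simp only [H]

/-- Points downstairs come from points upstairs. -/
theorem hdg2_lift {h : ℝ} {a b : Circle} {ξ : ℂ} (hh : |h| ≤ 1)
    (hξ : Complex.normSq ξ = rc h a b) : ∃ x : C3, PhiX x = 0 ∧
      GG x = ξ - (∑ j, (lamc j h a b : ℂ) * dir j) ∧ JJ x = jc h a b ξ := by
  obtain ⟨x, h1, -, h3, h4, h5, h6⟩ := exists_lift_jc h a b ξ hh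
  refine ⟨x, (hdg2_PhiX x).2 ⟨h1, by rw [h3, h5, hξ]⟩, ?_, h4⟩
  rw [hdg2_GG x h6, h3]

/-- The region `GG ∈ {-r dir k}`. -/
theorem wall_region (k : Fin 3) :
    JJ '' {x | PhiX x = 0 ∧ ∃ r : ℝ, 0 ≤ r ∧ GG x = -(r : ℂ) * dir k} = AAc k ∪ Qc k := by
  ext c
  constructor
  · rintro ⟨x, ⟨hx, r, hr0, hr⟩, rfl⟩
    obtain ⟨hx1, hx2⟩ := (hdg2_PhiX x).1 hx
    obtain ⟨a, b, hh, hJ, hrho, hlam⟩ := exists_jc x hx1
    rw [hdg2_GG x hlam] at hr
    set h := hgt (pr x) with hdef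
    have hξ : x.2.2 = (∑ j, (lamc j h a b : ℂ) * dir j) - (r : ℂ) * dir k := by
      linear_combination hr
    have hrc : rc h a b = Complex.normSq x.2.2 := by rw [hx2, hrho]
    have hrc0 : 0 ≤ rc h a b := by rw [hrc]; exact Complex.normSq_nonneg _
    rw [hJ]
    rcases hdg2_cases k hrc0 with H | ⟨l, hlk, hl, H⟩
    · rw [hdg2_sum H] at hξ
      have hξ2 : x.2.2 = ((lamc k h a b - r : ℝ) : ℂ) * dir k := by
        rw [hξ]
        push_cast
        ring
      rw [hξ2, hdg2_normSq_one] at hrc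
      rcases le_or_gt (lamc k h a b) r with hle | hlt
      · left
        refine ⟨h, a, b, hh, ?_, ?_⟩
        · rw [hdg2_Lc0 H]
          simpa using hrc0
        · rw [hdg2_xp0 H, hξ2]
          have e : Real.sqrt (rc h a b) = r - lamc k h a b := by
            rw [hrc, show (lamc k h a b - r) ^ 2 = (r - lamc k h a b) ^ 2 by ring,
              Real.sqrt_sq (by linarith)]
          rw [e]
          congr 1
          push_cast
          ring
      · right
        have hne : lamc k h a b ≠ 0 := by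
          intro h0
          linarith
        have hn := hdg2_lamc_ne hne
        refine ⟨h, a, b, hdg2_abs.2 hn.1.le, hn.2.le, hrc0, ?_, ?_⟩
        · rw [hrc]
          nlinarith
        · unfold xq
          rw [hrc, Real.sqrt_sq (by linarith), hξ2]
    · left
      rw [hdg2_sum H] at hξ
      rw [hξ, hdg2_normSq_two _ _ hlk] at hrc
      refine ⟨h, a, b, hh, ?_, ?_⟩
      · rw [hdg2_Lc1 hlk H, hrc]
        nlinarith [mul_nonneg hl.le hr0, sq_nonneg r]
      · rw [hdg2_xp1 hlk H, hξ]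
        have e : Real.sqrt (4 * rc h a b - 3 * lamc l h a b ^ 2) = lamc l h a b + 2 * r := by
          rw [hrc, show 4 * (lamc l h a b ^ 2 + r ^ 2 + lamc l h a b * r) -
            3 * lamc l h a b ^ 2 = (lamc l h a b + 2 * r) ^ 2 by ring,
            Real.sqrt_sq (by linarith)]
        rw [e]
        congr 1
        push_cast
        ring
  · rintro (⟨h, a, b, hh, hL, rfl⟩ | ⟨h, a, b, hh, hv, hr0, hr1, rfl⟩)
    · have hrc0 : 0 ≤ rc h a b := (sq_nonneg _).trans hL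
      rcases hdg2_cases k hrc0 with H | ⟨l, hlk, hl, H⟩
      · have hξ : Complex.normSq (xp k h a b) = rc h a b := by
          rw [hdg2_xp0 H, ← Complex.ofReal_neg, hdg2_normSq_one, neg_sq, Real.sq_sqrt hrc0]
        obtain ⟨x, hx, hG, hJ⟩ := hdg2_lift hh hξ
        refine ⟨x, ⟨hx, Real.sqrt (rc h a b) + lamc k h a b,
          add_nonneg (Real.sqrt_nonneg _) (hdg2_lamc_nonneg _ _ _ _), ?_⟩, hJ⟩
        rw [hG, hdg2_sum H, hdg2_xp0 H]
        push_cast
        ring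
      · rw [hdg2_Lc1 hlk H] at hL
        have hD0 : 0 ≤ 4 * rc h a b - 3 * lamc l h a b ^ 2 := by nlinarith
        have hD := Real.sq_sqrt hD0
        have hDL : lamc l h a b ≤ Real.sqrt (4 * rc h a b - 3 * lamc l h a b ^ 2) := by
          apply Real.le_sqrt_of_sq_le
          linarith
        have hξ : Complex.normSq (xp k h a b) = rc h a b := by
          rw [hdg2_xp1 hlk H, hdg2_normSq_two _ _ hlk]
          linear_combination (1 / 4) * hD
        obtain ⟨x, hx, hG, hJ⟩ := hdg2_lift hh hξ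
        refine ⟨x, ⟨hx, (-lamc l h a b + Real.sqrt (4 * rc h a b - 3 * lamc l h a b ^ 2)) / 2,
          by linarith, ?_⟩, hJ⟩
        rw [hG, hdg2_sum H, hdg2_xp1 hlk H]
        ring
    · have H : ∀ l, l ≠ k → lamc l h a b = 0 := fun l hl => hdg2_D' hl hr0 hh hv
      have hξ : Complex.normSq (xq k h a b) = rc h a b := by
        unfold xq
        rw [hdg2_normSq_one, Real.sq_sqrt hr0]
      obtain ⟨x, hx, hG, hJ⟩ := hdg2_lift (hh.trans (by norm_num)) hξ
      refine ⟨x, ⟨hx, lamc k h a b - Real.sqrt (rc h a b), ?_, ?_⟩, hJ⟩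
      · rw [sub_nonneg, Real.sqrt_le_left (hdg2_lamc_nonneg _ _ _ _)]
        exact hr1
      · rw [hG, hdg2_sum H]
        unfold xq
        push_cast
        ring

theorem core_region (k : Fin 3) :
    JJ '' {x | PhiX x = 0 ∧ GG x = 0} = (SAc k \ QendsInt k) ∪ Qside k := by
  ext c
  constructor
  · rintro ⟨x, ⟨hx, hG⟩, rfl⟩
    obtain ⟨hx1, hx2⟩ := (hdg2_PhiX x).1 hx
    obtain ⟨a, b, hh, hJ, hrho, hlam⟩ := exists_jc x hx1
    rw [hdg2_GG x hlam, sub_eq_zero] at hG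
    set h := hgt (pr x) with hdef
    have hrc : rc h a b = Complex.normSq x.2.2 := by rw [hx2, hrho]
    have hrc0 : 0 ≤ rc h a b := by rw [hrc]; exact Complex.normSq_nonneg _
    rw [hJ]
    by_cases hk : lamc k h a b = 0
    · left
      constructor
      · rcases hdg2_cases k hrc0 with H | ⟨l, hlk, hl, H⟩
        · rw [hdg2_sum H, hk, Complex.ofReal_zero, zero_mul] at hG
          rw [hG, map_zero] at hrc
          refine ⟨h, a, b, hh, ?_, ?_⟩
          · rw [hdg2_Lc0 H, hrc]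
            ring
          · rw [hdg2_xp0 H, hrc, hG, Real.sqrt_zero, Complex.ofReal_zero, neg_zero, zero_mul]
        · rw [hdg2_sum H] at hG
          rw [hG, hdg2_normSq_one] at hrc
          refine ⟨h, a, b, hh, ?_, ?_⟩
          · rw [hdg2_Lc1 hlk H, hrc]
          · rw [hdg2_xp1 hlk H, hrc, show 4 * lamc l h a b ^ 2 - 3 * lamc l h a b ^ 2 =
              lamc l h a b ^ 2 by ring, Real.sqrt_sq hl.le, neg_add_cancel, zero_div,
              Complex.ofReal_zero, zero_mul, sub_zero, hG]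
      · rintro ⟨h', a', b', hh', hv', -, he⟩
        have hh1 : |h'| < 1 := hh'.trans (by norm_num)
        obtain ⟨e1, -, e2⟩ := jc_inj hh hh1.le he
        rw [e1] at e2 hk
        obtain ⟨e3, e4⟩ := e2 hh1
        rw [e3, e4] at hk
        exact hdg2_lamc_ne' (hdg2_abs_lt.1 hh') hv' hk
    · right
      have H : ∀ l, l ≠ k → lamc l h a b = 0 := fun l hl => hdg2_D (Ne.symm hl) hrc0 hk
      rw [hdg2_sum H] at hG
      rw [hG, hdg2_normSq_one] at hrc
      have hn := hdg2_lamc_ne hk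
      refine ⟨h, a, b, hdg2_abs.2 hn.1.le, hn.2.le, hrc, ?_⟩
      unfold xq
      rw [hrc, Real.sqrt_sq (hdg2_lamc_nonneg _ _ _ _), hG]
  · rintro (⟨⟨h, a, b, hh, hL, rfl⟩, hQ⟩ | ⟨h, a, b, hh, hv, hr, rfl⟩)
    · have hrc0 : 0 ≤ rc h a b := by rw [hL]; exact sq_nonneg _
      have key : ∀ ξ : ℂ, ξ = xp k h a b → Complex.normSq ξ = rc h a b →
          ξ = (∑ j, (lamc j h a b : ℂ) * dir j) →
          jc h a b (xp k h a b) ∈ JJ '' {x | PhiX x = 0 ∧ GG x = 0} := by
        intro ξ e1 e2 e3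
        obtain ⟨x, hx, hG, hJ⟩ := hdg2_lift hh e2
        refine ⟨x, ⟨hx, ?_⟩, by rw [hJ, e1]⟩
        rw [hG, e3, sub_self]
      by_cases hk : lamc k h a b = 0
      · rcases hdg2_cases k hrc0 with H | ⟨l, hlk, hl, H⟩
        · rw [hdg2_Lc0 H] at hL
          have hr0 : rc h a b = 0 := by rw [hL]; ring
          refine key 0 ?_ ?_ ?_
          · rw [hdg2_xp0 H, hr0, Real.sqrt_zero, Complex.ofReal_zero, neg_zero, zero_mul]
          · rw [map_zero, hr0]
          · rw [hdg2_sum H, hk, Complex.ofReal_zero, zero_mul]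
        · rw [hdg2_Lc1 hlk H] at hL
          refine key ((lamc l h a b : ℂ) * dir l) ?_ ?_ ?_
          · rw [hdg2_xp1 hlk H, hL, show 4 * lamc l h a b ^ 2 - 3 * lamc l h a b ^ 2 =
              lamc l h a b ^ 2 by ring, Real.sqrt_sq hl.le, neg_add_cancel, zero_div,
              Complex.ofReal_zero, zero_mul, sub_zero]
          · rw [hdg2_normSq_one, hL]
          · rw [hdg2_sum H]
      · exfalso
        apply hQ
        have H : ∀ l, l ≠ k → lamc l h a b = 0 := fun l hl => hdg2_D (Ne.symm hl) hrc0 hk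
        rw [hdg2_Lc0 H] at hL
        have hr0 : rc h a b = 0 := by rw [hL]; ring
        have hn := hdg2_lamc_ne hk
        refine ⟨h, a, b, hdg2_abs_lt.2 hn.1, hn.2, hr0, ?_⟩
        rw [hdg2_xp0 H, hr0, Real.sqrt_zero, Complex.ofReal_zero, neg_zero, zero_mul]
    · have hrc0 : 0 ≤ rc h a b := by rw [hr]; exact sq_nonneg _
      have H : ∀ l, l ≠ k → lamc l h a b = 0 := fun l hl => hdg2_D' hl hrc0 hh hv
      have e : xq k h a b = (lamc k h a b : ℂ) * dir k := by
        unfold xq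
        rw [hr, Real.sqrt_sq (hdg2_lamc_nonneg _ _ _ _)]
      have hξ : Complex.normSq (xq k h a b) = rc h a b := by
        rw [e, hdg2_normSq_one, hr]
      obtain ⟨x, hx, hG, hJ⟩ := hdg2_lift (hh.trans (by norm_num)) hξ
      refine ⟨x, ⟨hx, ?_⟩, hJ⟩
      rw [hG, hdg2_sum H, e, sub_self]

theorem hdg2_ends {k : Fin 3} {h : ℝ} {a b : Circle} (hh : |h| ≤ 1 / 8)
    (hv : vc k a b ≤ 1 / 1000) (hr : rc h a b = 0) : Lc k h a b = 0 ∧ xp k h a b = 0 := by
  have H : ∀ l, l ≠ k → lamc l h a b = 0 := fun l hl => hdg2_D' hl hr.ge hh hv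
  refine ⟨hdg2_Lc0 H, ?_⟩
  rw [hdg2_xp0 H, hr, Real.sqrt_zero, Complex.ofReal_zero, neg_zero, zero_mul]

theorem handle_inter (k : Fin 3) : AAc k ∩ Qc k = Qends k := by
  ext c
  constructor
  · rintro ⟨⟨h, a, b, hh, hL, rfl⟩, ⟨h', a', b', hh', hv, hr0, hr1, he⟩⟩
    have hh1 : |h'| < 1 := lt_of_le_of_lt hh' (by norm_num)
    obtain ⟨e1, e2, e3⟩ := jc_inj hh hh1.le he
    subst e1
    obtain ⟨e4, e5⟩ := e3 hh1
    subst e4
    subst e5
    have H : ∀ l, l ≠ k → lamc l h a b = 0 := fun l hl => hdg2_D' hl hr0 hh' hv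
    have e6 : Real.sqrt (rc h a b) = 0 := by
      rw [hdg2_xp0 H] at e2
      unfold xq at e2
      have e7 : ((2 * Real.sqrt (rc h a b) : ℝ) : ℂ) * dir k = 0 := by
        push_cast
        linear_combination -e2
      have e8 := hdg2_normSq_one (2 * Real.sqrt (rc h a b)) k
      rw [e7, map_zero] at e8
      have e9 : 2 * Real.sqrt (rc h a b) = 0 := by
        rw [← sq_eq_zero_iff]
        exact e8.symm
      linarith
    have hr : rc h a b = 0 := (Real.sqrt_eq_zero hr0).1 e6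
    refine ⟨h, a, b, hh', hv, hr, ?_⟩
    rw [(hdg2_ends hh' hv hr).2]
  · rintro ⟨h, a, b, hh, hv, hr, rfl⟩
    obtain ⟨e1, e2⟩ := hdg2_ends hh hv hr
    constructor
    · refine ⟨h, a, b, hh.trans (by norm_num), ?_, ?_⟩
      · rw [e1, hr]
        norm_num
      · rw [e2]
    · refine ⟨h, a, b, hh, hv, hr.ge, ?_, ?_⟩
      · rw [hr]
        exact sq_nonneg _
      · unfold xq
        rw [hr, Real.sqrt_zero, Complex.ofReal_zero, zero_mul]

theorem Qends_subset (k : Fin 3) : Qends k ⊆ SAc k := by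
  rintro c ⟨h, a, b, hh, hv, hr, rfl⟩
  obtain ⟨e1, e2⟩ := hdg2_ends hh hv hr
  refine ⟨h, a, b, hh.trans (by norm_num), ?_, ?_⟩
  · rw [e1, hr]
    norm_num
  · rw [e2]

end Pool.Agent.Tri
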