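import Mathlib
import Pool.Agent.H.MP_5efd29_gt.LensB

open scoped ContDiff Topology
open Set

noncomputable section

namespace Pool.Agent.Tri

/-- A smooth local section of a pair of maps with surjective derivative. -/
theorem lensf_section {E G F : Type*} [NormedAddCommGroup E] [NormedSpace ℝ E]
    [NormedAddCommGroup G] [NormedSpace ℝ G] [FiniteDimensional ℝ G]
    [NormedAddCommGroup F] [NormedSpace ℝ F]
    [FiniteDimensional ℝ F] (Φ : E → G) (f' : E → F) (x₀ : E)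
    (hΦ : ContDiffAt ℝ ∞ Φ x₀) (hf' : ContDiffAt ℝ ∞ f' x₀)
    (hsurj : Function.Surjective (fun v : E => (fderiv ℝ Φ x₀ v, fderiv ℝ f' x₀ v))) :
    ∃ s : F → E, ContDiffAt ℝ ∞ s 0 ∧ s 0 = x₀ ∧
      ∀ᶠ v in 𝓝 (0 : F), Φ (s v) = Φ x₀ ∧ f' (s v) = f' x₀ + v := by
  haveI : CompleteSpace (G × F) := FiniteDimensional.complete ℝ (G × F)
  have hn : (∞ : WithTop ℕ∞) ≠ 0 := by simp
  let Lm : E →L[ℝ] (G × F) := (fderiv ℝ Φ x₀).prod (fderiv ℝ f' x₀)
  have hL : LinearMap.range (Lm : E →ₗ[ℝ] (G × F)) = ⊤ := by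
    rw [LinearMap.range_eq_top]
    exact hsurj
  obtain ⟨R0, hR0⟩ := (Lm : E →ₗ[ℝ] (G × F)).exists_rightInverse_of_surjective hL
  let R : (G × F) →L[ℝ] E := LinearMap.toContinuousLinearMap R0
  have hLR : Lm.comp R = ContinuousLinearMap.id ℝ (G × F) := by
    exact ContinuousLinearMap.ext fun q => LinearMap.congr_fun hR0 q
  let K : G × F → G × F := fun q => (Φ (x₀ + R q), f' (x₀ + R q))
  have hx : x₀ + R 0 = x₀ := by rw [map_zero, add_zero]
  have hcd : ContDiffAt ℝ ∞ (fun q : G × F => x₀ + R q) 0 :=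
    contDiffAt_const.add R.contDiff.contDiffAt
  have hKs : ContDiffAt ℝ ∞ K 0 := by
    have h1 : ContDiffAt ℝ ∞ (fun q : G × F => Φ (x₀ + R q)) 0 :=
      ContDiffAt.comp (g := Φ) (0 : G × F) (by rw [hx]; exact hΦ) hcd
    have h2 : ContDiffAt ℝ ∞ (fun q : G × F => f' (x₀ + R q)) 0 :=
      ContDiffAt.comp (g := f') (0 : G × F) (by rw [hx]; exact hf') hcd
    exact h1.prodMk h2
  have hKd : HasFDerivAt K
      ((ContinuousLinearEquiv.refl ℝ (G × F) : (G × F) ≃L[ℝ] (G × F)) : (G × F) →L[ℝ] (G × F)) 0 := by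
    have h0 : HasFDerivAt (fun q : G × F => x₀ + R q) R 0 := by
      have := R.hasFDerivAt (x := (0 : G × F))
      exact this.const_add x₀
    have h1 : HasFDerivAt (fun q : G × F => Φ (x₀ + R q)) ((fderiv ℝ Φ x₀).comp R) 0 := by
      have h3 : HasFDerivAt Φ (fderiv ℝ Φ x₀) (x₀ + R 0) := by
        rw [hx]
        exact (hΦ.differentiableAt hn).hasFDerivAt
      exact h3.comp (0 : G × F) h0
    have h2 : HasFDerivAt (fun q : G × F => f' (x₀ + R q)) ((fderiv ℝ f' x₀).comp R) 0 := by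
      have h3 : HasFDerivAt f' (fderiv ℝ f' x₀) (x₀ + R 0) := by
        rw [hx]
        exact (hf'.differentiableAt hn).hasFDerivAt
      exact h3.comp (0 : G × F) h0
    have h4 := h1.prodMk h2
    have h5 : ((fderiv ℝ Φ x₀).comp R).prod ((fderiv ℝ f' x₀).comp R)
        = ((ContinuousLinearEquiv.refl ℝ (G × F) : (G × F) ≃L[ℝ] (G × F)) : (G × F) →L[ℝ] (G × F)) := by
      have h6 : ((fderiv ℝ Φ x₀).comp R).prod ((fderiv ℝ f' x₀).comp R) = Lm.comp R := rfl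
      rw [h6, hLR]
      rfl
    rw [h5] at h4
    exact h4
  have hK0 : K 0 = (Φ x₀, f' x₀) := by
    show (Φ (x₀ + R 0), f' (x₀ + R 0)) = _
    rw [hx]
  let inv : G × F → G × F := hKs.localInverse hKd hn
  have hinv0 : inv (K 0) = 0 := hKs.localInverse_apply_image hKd hn
  have hinvs : ContDiffAt ℝ ∞ inv (K 0) := hKs.to_localInverse hKd hn
  have hev : ∀ᶠ y in 𝓝 (K 0), K (inv y) = y :=
    (hKs.hasStrictFDerivAt' hKd hn).eventually_right_inverse
  let j : F → G × F := fun v => (Φ x₀, f' x₀ + v)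
  have hj0 : j 0 = K 0 := by
    rw [hK0]
    show (Φ x₀, f' x₀ + 0) = _
    rw [add_zero]
  have hjs : ContDiff ℝ ∞ j := contDiff_const.prodMk (contDiff_const.add contDiff_id)
  refine ⟨fun v => x₀ + R (inv (j v)), ?_, ?_, ?_⟩
  · have h1 : ContDiffAt ℝ ∞ (fun v => inv (j v)) 0 :=
      ContDiffAt.comp (g := inv) (0 : F) (by rw [hj0]; exact hinvs) hjs.contDiffAt
    have h2 : ContDiffAt ℝ ∞ (fun v => R (inv (j v))) 0 :=
      R.contDiff.contDiffAt.comp (0 : F) h1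
    exact contDiffAt_const.add h2
  · show x₀ + R (inv (j 0)) = x₀
    rw [hj0, hinv0, hx]
  · have hjt : Filter.Tendsto j (𝓝 0) (𝓝 (K 0)) := by
      rw [← hj0]
      exact hjs.continuous.continuousAt
    filter_upwards [hjt.eventually hev] with v hv
    have h1 : (Φ (x₀ + R (inv (j v))), f' (x₀ + R (inv (j v)))) = (Φ x₀, f' x₀ + v) := hv
    exact ⟨congrArg Prod.fst h1, congrArg Prod.snd h1⟩

/-- Submersions on the quotient of a level set, from surjectivity of derivatives. -/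
theorem submersionAt_image {F : Type*} [NormedAddCommGroup F] [NormedSpace ℝ F]
    [FiniteDimensional ℝ F] (Φ : C3 → ℂ) (hΦ : ContDiff ℝ ∞ Φ) (f' : C3 → F)
    (x₀ : C3) (hx₀ : Φ x₀ = 0) (hf' : ContDiffAt ℝ ∞ f' x₀)
    (hsurj : Function.Surjective (fun v : C3 => (fderiv ℝ Φ x₀ v, fderiv ℝ f' x₀ v)))
    (f : C5 → F) (hf : ∀ x, Φ x = 0 → f (JJ x) = f' x) :
    SubmersionAt (JJ '' {x | Φ x = 0}) f (JJ x₀) := by
  obtain ⟨s, hs, hs0, hev⟩ := lensf_section Φ f' x₀ hΦ.contDiffAt hf' hsurj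
  refine ⟨fun v => JJ (s v), ?_, ?_, ?_⟩
  · exact contDiff_JJ.contDiffAt.comp (0 : F) hs
  · show JJ (s 0) = JJ x₀
    rw [hs0]
  · filter_upwards [hev] with v hv
    have h1 : Φ (s v) = 0 := hv.1.trans hx₀
    refine ⟨⟨s v, h1, rfl⟩, ?_⟩
    rw [hf _ h1, hf _ hx₀, hv.2]

end Pool.Agent.Tri
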