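import Mathlib
import Pool.Agent.H.MP_5efd29_gt.RegG
import Pool.Agent.H.MP_5efd29_gt.LensF
import Pool.Agent.H.MP_5efd29_gt.Pieces

open scoped ContDiff Topology
open Set

noncomputable section

namespace Pool.Agent.Tri

theorem tri1_GG_iterate (k : ℕ) (x : C3) : GG (act^[k] x) = GG x := by
  induction k with
  | zero => rfl
  | succ k ih => rw [Function.iterate_succ_apply', GG_act, ih]

theorem tri1_mem {x : C3} (hx : PhiX x = 0) (l : Fin 3) : JJ x ∈ T1 l ↔ GG x ∈ sector l := by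
  constructor
  · rintro ⟨y, ⟨hy, hyl⟩, hxy⟩
    obtain ⟨k, -, hk⟩ := JJ_fibre (inv_Xt.1 hy) (inv_Xt.1 hx) hxy
    rw [hk, tri1_GG_iterate]
    exact hyl
  · intro h
    exact ⟨x, ⟨hx, h⟩, rfl⟩

theorem tri1_c {i k : Fin 3} (hik : i ≠ k) :
    ((starRingEnd ℂ) (dir i) * dir k).re = -(1 / 2) ∧
      ((starRingEnd ℂ) (dir i) * dir k).im ^ 2 = 3 / 4 := by
  have h1 := regg_dir i k
  rw [if_neg hik] at h1
  refine ⟨h1, ?_⟩
  have h2 : Complex.normSq ((starRingEnd ℂ) (dir i) * dir k) = 1 := by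
    rw [Complex.normSq_mul, Complex.normSq_conj, regg_normSq_dir, regg_normSq_dir, one_mul]
  rw [Complex.normSq_apply, h1] at h2
  nlinarith

theorem tri1_c' {i j k : Fin 3} (hij : i ≠ j) (hik : i ≠ k) (hjk : j ≠ k) :
    ((starRingEnd ℂ) (dir j) * dir k).im = -((starRingEnd ℂ) (dir i) * dir k).im := by
  obtain ⟨a1, a2⟩ := tri1_c hik
  obtain ⟨b1, b2⟩ := tri1_c hjk
  have h3 := regg_dir i j
  rw [if_neg hij] at h3
  have h4 : (starRingEnd ℂ) (dir i) * dir j =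
      ((starRingEnd ℂ) (dir i) * dir k) * (starRingEnd ℂ) ((starRingEnd ℂ) (dir j) * dir k) := by
    rw [map_mul, Complex.conj_conj]
    have h5 := regg_conj_dir k
    calc (starRingEnd ℂ) (dir i) * dir j
        = (starRingEnd ℂ) (dir i) * dir j * ((starRingEnd ℂ) (dir k) * dir k) := by
          rw [h5, mul_one]
      _ = _ := by ring
  rw [h4, Complex.mul_re, Complex.conj_re, Complex.conj_im, a1, b1] at h3
  have h6 : (((starRingEnd ℂ) (dir j) * dir k).im + ((starRingEnd ℂ) (dir i) * dir k).im) ^ 2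
      = 0 := by
    nlinarith
  have h7 := pow_eq_zero_iff (two_ne_zero) |>.1 h6
  linarith

theorem tri1_rot {i k : Fin 3} (z : ℂ) :
    rot i z = ((starRingEnd ℂ) (dir i) * dir k) * rot k z := by
  unfold rot
  have h5 := regg_conj_dir k
  calc (starRingEnd ℂ) (dir i) * z
      = (starRingEnd ℂ) (dir i) * z * ((starRingEnd ℂ) (dir k) * dir k) := by
        rw [h5, mul_one]
    _ = _ := by ring

theorem tri1_back (k : Fin 3) (z : ℂ) : z = rot k z * dir k := by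
  unfold rot
  have h5 := regg_conj_dir k
  calc z = z * ((starRingEnd ℂ) (dir k) * dir k) := by rw [h5, mul_one]
    _ = _ := by ring

theorem tri1_pair {i j k : Fin 3} (hij : i ≠ j) (hik : i ≠ k) (hjk : j ≠ k) (z : ℂ) :
    (z ∈ sector i ∧ z ∈ sector j) ↔ ((rot k z).re ≤ 0 ∧ (rot k z).im = 0) := by
  obtain ⟨a1, a2⟩ := tri1_c hik
  obtain ⟨b1, b2⟩ := tri1_c hjk
  have b3 := tri1_c' hij hik hjk
  set c := (starRingEnd ℂ) (dir i) * dir k with hc
  set c' := (starRingEnd ℂ) (dir j) * dir k with hc'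
  set w := rot k z with hw
  have r1 : (rot i z).re = -(1 / 2) * w.re - c.im * w.im := by
    rw [tri1_rot (i := i) (k := k) z, Complex.mul_re, ← hc, ← hw, a1]
  have r2 : (rot i z).im = -(1 / 2) * w.im + c.im * w.re := by
    rw [tri1_rot (i := i) (k := k) z, Complex.mul_im, ← hc, ← hw, a1]
  have r3 : (rot j z).re = -(1 / 2) * w.re + c.im * w.im := by
    rw [tri1_rot (i := j) (k := k) z, Complex.mul_re, ← hc', ← hw, b1, b3]
    ring
  have r4 : (rot j z).im = -(1 / 2) * w.im - c.im * w.re := by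
    rw [tri1_rot (i := j) (k := k) z, Complex.mul_im, ← hc', ← hw, b1, b3]
    ring
  show ((0 ≤ (rot i z).re ∧ (rot i z).im ^ 2 ≤ 3 * (rot i z).re ^ 2) ∧
    (0 ≤ (rot j z).re ∧ (rot j z).im ^ 2 ≤ 3 * (rot j z).re ^ 2)) ↔ _
  rw [r1, r2, r3, r4]
  generalize c.im = s at *
  generalize w.re = u at *
  generalize w.im = v at *
  constructor
  · rintro ⟨⟨h1, h2⟩, ⟨h3, h4⟩⟩
    have h2' : s ^ 2 * u ^ 2 - s * u * v + v ^ 2 / 4 ≤
        3 * (u ^ 2 / 4 + s * u * v + s ^ 2 * v ^ 2) := by linarith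
    have h4' : s ^ 2 * u ^ 2 + s * u * v + v ^ 2 / 4 ≤
        3 * (u ^ 2 / 4 - s * u * v + s ^ 2 * v ^ 2) := by linarith
    rw [a2] at h2' h4'
    have e1 : -v ^ 2 ≤ 2 * s * u * v := by linarith
    have e2 : 2 * s * u * v ≤ v ^ 2 := by linarith
    have e3 : (2 * s * u * v) ^ 2 ≤ (v ^ 2) ^ 2 := by
      apply sq_le_sq'
      · linarith
      · exact e2
    have e4 : 0 ≤ (-(1 / 2) * u - s * v) * (-(1 / 2) * u + s * v) := mul_nonneg h1 h3
    have e5 : 3 * v ^ 2 ≤ u ^ 2 := by nlinarith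
    have e6 : (2 * s * u * v) ^ 2 = 3 * (u ^ 2 * v ^ 2) := by
      calc (2 * s * u * v) ^ 2 = 4 * s ^ 2 * (u ^ 2 * v ^ 2) := by ring
        _ = _ := by rw [a2]; ring
    have e7 : 3 * v ^ 2 * v ^ 2 ≤ u ^ 2 * v ^ 2 := mul_le_mul_of_nonneg_right e5 (sq_nonneg v)
    have e8 : (v ^ 2) ^ 2 ≤ 0 := by nlinarith
    have e9 : v = 0 := by
      have h10 : (v ^ 2) ^ 2 = 0 := le_antisymm e8 (sq_nonneg _)
      exact pow_eq_zero_iff (two_ne_zero) |>.1 (pow_eq_zero_iff (two_ne_zero) |>.1 h10)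
    exact ⟨by linarith, e9⟩
  · rintro ⟨h1, h2⟩
    rw [h2]
    refine ⟨⟨by linarith, ?_⟩, ⟨by linarith, ?_⟩⟩ <;> nlinarith

theorem tri1_triple (z : ℂ) : (∀ l, z ∈ sector l) ↔ z = 0 := by
  constructor
  · intro h
    obtain ⟨h1, h2⟩ := (tri1_pair (i := 0) (j := 1) (k := 2) (by decide) (by decide) (by decide)
      z).1 ⟨h 0, h 1⟩
    have h3 : 0 ≤ (rot 2 z).re := (h 2).1
    have h4 : rot 2 z = 0 := Complex.ext (le_antisymm h1 h3) h2
    rw [tri1_back 2 z, h4, zero_mul]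
  · rintro rfl l
    have h : rot l 0 = 0 := mul_zero _
    show 0 ≤ (rot l 0).re ∧ (rot l 0).im ^ 2 ≤ 3 * (rot l 0).re ^ 2
    rw [h]
    simp

/-- The triple intersection. -/
theorem T1_inter : ⋂ l, T1 l = JJ '' {x | PhiX x = 0 ∧ GG x = 0} := by
  ext a
  rw [mem_iInter]
  constructor
  · intro h
    obtain ⟨x, ⟨hx, -⟩, rfl⟩ := h 0
    exact ⟨x, ⟨hx, (tri1_triple _).1 fun l => (tri1_mem hx l).1 (h l)⟩, rfl⟩
  · rintro ⟨x, ⟨hx, h⟩, rfl⟩ l
    exact (tri1_mem hx l).2 ((tri1_triple _).2 h l)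

/-- The double intersections. -/
theorem T1_inter2 {i j k : Fin 3} (hij : i ≠ j) (hik : i ≠ k) (hjk : j ≠ k) :
    T1 i ∩ T1 j = JJ '' {x | PhiX x = 0 ∧ ∃ r : ℝ, 0 ≤ r ∧ GG x = -(r : ℂ) * dir k} := by
  have key : ∀ z : ℂ, ((rot k z).re ≤ 0 ∧ (rot k z).im = 0) ↔
      ∃ r : ℝ, 0 ≤ r ∧ z = -(r : ℂ) * dir k := by
    intro z
    constructor
    · rintro ⟨h1, h2⟩
      refine ⟨-(rot k z).re, by linarith, ?_⟩
      have h3 : rot k z = ((rot k z).re : ℂ) := Complex.ext (by simp) (by simpa using h2)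
      rw [Complex.ofReal_neg, neg_neg, ← h3]
      exact tri1_back k z
    · rintro ⟨r, hr, rfl⟩
      have h3 : rot k (-(r : ℂ) * dir k) = ((-r : ℝ) : ℂ) := by
        unfold rot
        rw [mul_left_comm, regg_conj_dir, mul_one, Complex.ofReal_neg]
      rw [h3, Complex.ofReal_re, Complex.ofReal_im]
      exact ⟨by linarith, rfl⟩
  ext a
  constructor
  · rintro ⟨⟨x, ⟨hx, h1⟩, rfl⟩, h2⟩
    exact ⟨x, ⟨hx, (key _).1 ((tri1_pair hij hik hjk _).1 ⟨h1, (tri1_mem hx j).1 h2⟩)⟩, rfl⟩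
  · rintro ⟨x, ⟨hx, h⟩, rfl⟩
    obtain ⟨h1, h2⟩ := (tri1_pair hij hik hjk _).2 ((key _).2 h)
    exact ⟨(tri1_mem hx i).2 h1, (tri1_mem hx j).2 h2⟩

/-- The first trisection, given the handlebodies. -/
theorem isTrisection_T1_of
    (hh : ∀ i j, i ≠ j → Handlebody3 3 (T1 i ∩ T1 j) (⋂ l, T1 l)) :
    IsTrisection XX T1 3 (fun _ => 1) := by
  refine ⟨?_, hh⟩
  obtain ⟨G, hG⟩ := exists_descend inv_Xt GG (fun x _ => GG_act x)
  have hXX : XX = JJ '' {x | PhiX x = 0} := rfl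
  refine ⟨G, ?_, ?_, ?_, ?_, ?_⟩
  · apply smoothOnSet_descend inv_Xt
    intro x hx
    exact ⟨univ, isOpen_univ, mem_univ x, GG, contDiff_GG.contDiffOn, fun y hy => hG y hy.1⟩
  · intro i
    ext a
    constructor
    · rintro ⟨x, ⟨hx, h⟩, rfl⟩
      refine ⟨⟨x, hx, rfl⟩, ?_⟩
      rw [hG x hx]
      exact h
    · rintro ⟨⟨x, hx, rfl⟩, h⟩
      rw [hG x hx] at h
      exact ⟨x, ⟨hx, h⟩, rfl⟩
  · rintro _ ⟨x, hx, rfl⟩ h
    rw [hG x hx] at h
    rw [hXX]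
    exact submersionAt_image PhiX contDiff_PhiX GG x hx contDiff_GG.contDiffAt (reg_GG x hx h) G
      (fun y hy => hG y hy)
  · rintro i _ ⟨x, hx, rfl⟩ h
    rw [hG x hx] at h
    rw [hXX]
    refine submersionAt_image PhiX contDiff_PhiX (fun y => (rot i (GG y)).im) x hx ?_
      (reg_wall i x hx h) (fun y => (rot i (G y)).im) (fun y hy => ?_)
    · have h1 : ContDiff ℝ ∞ (fun y => (rot i (GG y)).im) := by
        unfold rot
        exact Complex.imCLM.contDiff.comp (contDiff_const.mul contDiff_GG)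
      exact h1.contDiffAt
    · show (rot i (G (JJ y))).im = (rot i (GG y)).im
      rw [hG y hy]
  · intro i
    obtain ⟨ε₀, h0, h⟩ := pieces_model i
    refine ⟨ε₀, h0, fun ε h1 h2 => ?_⟩
    have h3 : {x ∈ XX | G x ∈ smoothSector i ε} = JJ '' RR i ε := by
      ext a
      constructor
      · rintro ⟨⟨x, hx, rfl⟩, h4⟩
        rw [hG x hx] at h4
        exact ⟨x, ⟨hx, h4⟩, rfl⟩
      · rintro ⟨x, ⟨hx, h4⟩, rfl⟩
        refine ⟨⟨x, hx, rfl⟩, ?_⟩
        rw [hG x hx]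
        exact h4
    rw [h3]
    exact h ε h1 h2

end Pool.Agent.Tri
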