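import Mathlib
import Pool.Agent.H.MP_5efd29_gt.Tri1
import Pool.Agent.H.MP_5efd29_gt.HdD
import Pool.Agent.H.MP_5efd29_gt.HdF
import Pool.Agent.H.MP_5efd29_gt.HdG
import Pool.Agent.H.MP_5efd29_gt.CorF

open scoped ContDiff Topology
open Set

noncomputable section

namespace Pool.Agent.Tri

theorem handlebody_T1 (i j : Fin 3) (hij : i ≠ j) :
    Handlebody3 3 (T1 i ∩ T1 j) (⋂ l, T1 l) := by
  obtain ⟨k, hik, hjk⟩ : ∃ k : Fin 3, i ≠ k ∧ j ≠ k := by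
    revert i j
    decide
  rw [T1_inter2 hij hik hjk, wall_region k, T1_inter, core_region k]
  obtain ⟨e, hc, hi, h1, h2, h3, h4⟩ := handle_Q k
  have h := Handlebody3.handle e hc hi (handlebody_A k) (by rw [h1, h2, handle_inter k])
    (by rw [h2]; exact Qends_subset k)
  rw [h1, h3, h4] at h
  exact h

theorem isTrisection_T1 : IsTrisection XX T1 3 (fun _ => 1) :=
  isTrisection_T1_of handlebody_T1

theorem tri2_P_iterate {P : C3 → C3} (h : ∀ x, P (act x) = act (act (P x))) (x : C3) (k : ℕ) :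
    P (act^[k] x) = act^[2 * k] (P x) := by
  induction k with
  | zero => rfl
  | succ k ih =>
    rw [Function.iterate_succ_apply', h, ih, mul_add, mul_one, Function.iterate_add_apply,
      ← Function.iterate_add_apply, add_comm, Function.iterate_add_apply]
    rfl

theorem tri2_Q_act {P Q : C3 → C3} (hQP : ∀ x, Q (P x) = x) (hPQ : ∀ x, P (Q x) = x)
    (h : ∀ x, P (act x) = act (act (P x))) (y : C3) : Q (act y) = act^[3] (Q y) := by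
  have h1 : P (act^[3] (Q y)) = act y := by
    rw [tri2_P_iterate h, hPQ]
    exact lensb_act_mod (by norm_num) y
  rw [← h1, hQP]

/-- The diffeomorphism of `X` preserving the core. -/
theorem exists_Phi : ∃ P Q : C3 → C3, ∃ Φ Ψ : C5 → C5, ContDiff ℝ ∞ P ∧ ContDiff ℝ ∞ Q ∧
    (∀ x, Q (P x) = x) ∧ (∀ x, P (Q x) = x) ∧ (∀ x, PhiX (P x) = PhiX x) ∧
    (∀ x, P (act x) = act (act (P x))) ∧ DiffeoPair Φ Ψ XX XX ∧
    (∀ x, PhiX x = 0 → Φ (JJ x) = JJ (P x)) ∧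
    Φ '' (⋂ l, T1 l) = ⋂ l, T1 l := by
  obtain ⟨P, Q, hP, hQ, hQP, hPQ, hPhi, hact, hcore⟩ := exists_core_map
  have hPhiQ : ∀ y, PhiX (Q y) = PhiX y := fun y => by
    have h1 := hPhi (Q y)
    rw [hPQ] at h1
    exact h1.symm
  have hfi : ∀ x ∈ Xt, (fun x => JJ (P x)) (act x) = (fun x => JJ (P x)) x := by
    intro x _
    show JJ (P (act x)) = JJ (P x)
    rw [hact, JJ_act, JJ_act]
  have hgi : ∀ x ∈ Xt, (fun x => JJ (Q x)) (act x) = (fun x => JJ (Q x)) x := by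
    intro x _
    show JJ (Q (act x)) = JJ (Q x)
    rw [tri2_Q_act hQP hPQ hact, lensb_JJ_iterate]
  obtain ⟨Φ, hΦ⟩ := exists_descend inv_Xt (fun x => JJ (P x)) hfi
  obtain ⟨Ψ, hΨ⟩ := exists_descend inv_Xt (fun x => JJ (Q x)) hgi
  have hPX : ∀ x ∈ Xt, P x ∈ Xt := fun x hx => by
    show PhiX (P x) = 0
    rw [hPhi]
    exact hx
  have hQX : ∀ x ∈ Xt, Q x ∈ Xt := fun x hx => by
    show PhiX (Q x) = 0
    rw [hPhiQ]
    exact hx
  refine ⟨P, Q, Φ, Ψ, hP, hQ, hQP, hPQ, hPhi, hact, ⟨?_, ?_, ?_, ?_, ?_, ?_⟩, hΦ, ?_⟩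
  · exact smoothOnSet_descend inv_Xt _
      ((smoothOnSet_of_contDiff (contDiff_JJ.comp hP) Xt).congr hΦ)
  · exact smoothOnSet_descend inv_Xt _
      ((smoothOnSet_of_contDiff (contDiff_JJ.comp hQ) Xt).congr hΨ)
  · rintro _ ⟨x, hx, rfl⟩
    rw [hΦ x hx]
    exact ⟨P x, hPX x hx, rfl⟩
  · rintro _ ⟨x, hx, rfl⟩
    rw [hΨ x hx]
    exact ⟨Q x, hQX x hx, rfl⟩
  · rintro _ ⟨x, hx, rfl⟩
    rw [hΦ x hx, hΨ (P x) (hPX x hx), hQP]
  · rintro _ ⟨x, hx, rfl⟩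
    rw [hΨ x hx, hΦ (Q x) (hQX x hx), hPQ]
  · rw [T1_inter]
    apply Set.Subset.antisymm
    · rintro _ ⟨_, ⟨x, ⟨hx, hgx⟩, rfl⟩, rfl⟩
      rw [hΦ x hx]
      exact ⟨P x, ⟨hPX x hx, (hcore x hx).2 hgx⟩, rfl⟩
    · rintro _ ⟨x, ⟨hx, hgx⟩, rfl⟩
      have h1 : PhiX (Q x) = 0 := hQX x hx
      have h2 : GG (Q x) = 0 := by
        rw [← hcore (Q x) h1, hPQ]
        exact hgx
      refine ⟨JJ (Q x), ⟨Q x, ⟨h1, h2⟩, rfl⟩, ?_⟩
      rw [hΦ (Q x) h1, hPQ]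

end Pool.Agent.Tri
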