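import Mathlib
import Pool.Agent.H.MP_5efd29_gt.Tri2
import Pool.Agent.H.MP_5efd29_gt.NonIso
import Pool.Agent.H.MP_5efd29_gt.Conn

open scoped ContDiff Topology
open Set

noncomputable section

namespace Pool.Agent.Tri

theorem final : ∃ (X : Set C5) (T₁ T₂ : Fin 3 → Set C5), ClosedOrientableManifold X 4 ∧
    IsConnected X ∧ IsTrisection X T₁ 3 (fun _ => 1) ∧ IsTrisection X T₂ 3 (fun _ => 1) ∧
    (⋂ i, T₁ i) = (⋂ i, T₂ i) ∧ (∃ Φ, IsDiffeoOf X Φ ∧ ∀ i, T₂ i = Φ '' T₁ i) ∧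
    ∀ φ : C5 → C5, IsotopicToId X φ → ∀ σ : Equiv.Perm (Fin 3), ¬ ∀ i, φ '' T₁ i = T₂ (σ i) := by
  obtain ⟨P, Q, Φ, Ψ, hP, hQ, hQP, hPQ, hPX, hPa, hΦ, hΦP, hcore⟩ := exists_Phi
  have hT1 := isTrisection_T1
  have hsub : ∀ i, T1 i ⊆ XX := fun i => image_mono fun x hx => hx.1
  have hinj : InjOn Φ XX := fun x hx y hy h => by
    have h' := congrArg Ψ h
    rwa [hΦ.2.2.2.2.1 x hx, hΦ.2.2.2.2.1 y hy] at h'
  refine ⟨XX, T1, fun i => Φ '' T1 i, closedOrientable_XX, isConnected_XX, hT1, ?_, ?_, ⟨Φ, ⟨Ψ, hΦ⟩, fun i => rfl⟩,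
    fun φ hφ σ => nonIso hP hQ hQP hPQ hPX hPa hΦ hΦP φ hφ σ⟩
  · exact hT1.map hΦ
  · rw [← hcore]
    apply Subset.antisymm
    · rintro _ ⟨x, hx, rfl⟩
      exact mem_iInter.2 fun i => ⟨x, mem_iInter.1 hx i, rfl⟩
    · intro y hy
      obtain ⟨x, hx0, hxy⟩ := mem_iInter.1 hy 0
      refine ⟨x, mem_iInter.2 fun i => ?_, hxy⟩
      obtain ⟨x', hx', hxy'⟩ := mem_iInter.1 hy i
      have : x' = x := hinj (hsub i hx') (hsub 0 hx0) (hxy'.trans hxy.symm)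
      exact this ▸ hx'

end Pool.Agent.Tri
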